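import Pool.Agent.MP_95da86_ag.Defs

section

/-! The curve `y ^ 2 = x ^ 3 + 1` over fields containing `ℂ`, as a module over `ℤ[ω]`. -/

namespace Pool.Agent.MP_95da86_ag

open WeierstrassCurve WeierstrassCurve.Affine

noncomputable section

/-- The cube root of unity. -/
def zeta : ℂ := Complex.exp (2 * Real.pi * Complex.I / 3)

lemma zeta_prim : IsPrimitiveRoot zeta 3 := by
  have := Complex.isPrimitiveRoot_exp 3 (by norm_num)
  simpa [zeta] using this

lemma zeta_pow : zeta ^ 3 = 1 := zeta_prim.pow_eq_one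

lemma zeta_ne_one : zeta ≠ 1 := zeta_prim.ne_one (by norm_num)

lemma zeta_quad : zeta ^ 2 + zeta + 1 = 0 := by
  have h : (zeta - 1) * (zeta ^ 2 + zeta + 1) = 0 := by linear_combination zeta_pow
  exact (mul_eq_zero.1 h).resolve_left (sub_ne_zero.2 zeta_ne_one)

/-- The Eisenstein integers, `ω ^ 2 = -1 - ω`. -/
abbrev Zw := QuadraticAlgebra ℤ (-1) (-1)

/-- The element `ω`. -/
def om : Zw := ⟨0, 1⟩

/-- The norm form. -/
def nm (a : Zw) : ℤ := a.re ^ 2 - a.re * a.im + a.im ^ 2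

/-- Reduction modulo `1 - ω`. -/
def bar : Zw →+* ZMod 3 where
  toFun a := (a.re : ZMod 3) + (a.im : ZMod 3)
  map_one' := by simp [QuadraticAlgebra.re_one, QuadraticAlgebra.im_one]
  map_mul' a b := by
    have h3 : (3 : ZMod 3) = 0 := rfl
    simp only [QuadraticAlgebra.re_mul, QuadraticAlgebra.im_mul]
    push_cast
    linear_combination (-(a.im : ZMod 3) * b.im) * h3
  map_zero' := by simp
  map_add' a b := by simp only [QuadraticAlgebra.re_add, QuadraticAlgebra.im_add]; push_cast; ring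

lemma bar_def (a : Zw) : bar a = (a.re : ZMod 3) + (a.im : ZMod 3) := rfl

/-- The Weierstrass curve. -/
def W0 : WeierstrassCurve.Affine ℂ := ⟨0, 0, 0, 0, 1⟩

/-- The group of points over `M`. -/
def EP (M : Type) [Field M] [Algebra ℂ M] : Type := (W0⁄M).Point

variable {M N : Type} [Field M] [Algebra ℂ M] [Field N] [Algebra ℂ N]

lemma charZero_of (M : Type) [Field M] [Algebra ℂ M] : CharZero M :=
  charZero_of_injective_algebraMap (algebraMap ℂ M).injective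

instance : AddCommGroup (EP M) :=
  letI := Classical.decEq M
  inferInstanceAs (AddCommGroup (W0⁄M).Point)

lemma nonsing_iff (a b : M) : (W0⁄M).Nonsingular a b ↔ b ^ 2 = a ^ 3 + 1 := by
  have := charZero_of M
  rw [nonsingular_iff']
  simp only [equation_iff, W0, WeierstrassCurve.Affine.baseChange, WeierstrassCurve.baseChange,
    map_a₁, map_a₂, map_a₃, map_a₄, map_a₆, map_zero, map_one]
  constructor
  · rintro ⟨h, -⟩; linear_combination h
  · intro h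
    refine ⟨by linear_combination h, ?_⟩
    by_contra hc
    push Not at hc
    obtain ⟨h1, h2⟩ := hc
    have ha : a ^ 2 = 0 := by
      have : (3 : M) * a ^ 2 = 0 := by linear_combination -h1
      simpa using this
    have hb : b = 0 := by
      have : (2 : M) * b = 0 := by linear_combination h2
      simpa using this
    have ha' : a = 0 := by simpa using ha
    simp [ha', hb] at h

/-- An affine point. -/
def pt (a b : M) (h : b ^ 2 = a ^ 3 + 1) : EP M := Point.some a b ((nonsing_iff a b).2 h)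

/-- The `x`-coordinate (`0` at the origin). -/
def xc : EP M → M
  | Point.zero => 0
  | Point.some a _ _ => a

/-- The `y`-coordinate (`0` at the origin). -/
def yc : EP M → M
  | Point.zero => 0
  | Point.some _ b _ => b

@[simp] lemma xc_pt (a b : M) (h) : xc (pt a b h) = a := rfl
@[simp] lemma yc_pt (a b : M) (h) : yc (pt a b h) = b := rfl
@[simp] lemma xc_zero : xc (0 : EP M) = 0 := rfl
@[simp] lemma yc_zero : yc (0 : EP M) = 0 := rfl

lemma pt_ne_zero (a b : M) (h) : pt a b h ≠ 0 := Point.some_ne_zero _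

lemma EP.cases (P : EP M) : P = 0 ∨ ∃ a b h, P = pt a b h := by
  rcases P with _ | ⟨a, b, h⟩
  · exact Or.inl rfl
  · exact Or.inr ⟨a, b, (nonsing_iff a b).1 h, rfl⟩

lemma pt_congr {a b a' b' : M} {h h'} (ha : a = a') (hb : b = b') : pt a b h = pt a' b' h' := by
  subst ha hb; rfl

lemma pt_inj {a b a' b' : M} {h h'} : pt a b h = pt a' b' h' ↔ a = a' ∧ b = b' :=
  ⟨fun e => ⟨congrArg xc e, congrArg yc e⟩, fun e => pt_congr e.1 e.2⟩

lemma eqn_of_ne {P : EP M} (hP : P ≠ 0) : yc P ^ 2 = xc P ^ 3 + 1 := by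
  rcases P.cases with rfl | ⟨a, b, h, rfl⟩
  · exact absurd rfl hP
  · exact h

lemma pt_xc_yc {P : EP M} (hP : P ≠ 0) : pt (xc P) (yc P) (eqn_of_ne hP) = P := by
  rcases P.cases with rfl | ⟨a, b, h, rfl⟩
  · exact absurd rfl hP
  · rfl

lemma EP.ext' {P Q : EP M} (hP : P ≠ 0) (hQ : Q ≠ 0) (hx : xc P = xc Q) (hy : yc P = yc Q) :
    P = Q := by
  rw [← pt_xc_yc hP, ← pt_xc_yc hQ]; exact pt_congr hx hy

lemma negY_eq (a b : M) : (W0⁄M).negY a b = -b := by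
  simp [negY, W0, WeierstrassCurve.Affine.baseChange, WeierstrassCurve.baseChange]

lemma neg_pt (a b : M) (h) : -pt a b h = pt a (-b) (by rw [neg_sq]; exact h) := by
  have : -pt a b h = Point.some a ((W0⁄M).negY a b) _ := Point.neg_some _
  rw [this]; exact pt_congr (h := (nonsing_iff _ _).1 (by
    rw [negY_eq]; exact (nonsing_iff _ _).2 (by rw [neg_sq]; exact h))) rfl (negY_eq a b)

@[simp] lemma xc_neg (P : EP M) : xc (-P) = xc P := by
  rcases P.cases with rfl | ⟨a, b, h, rfl⟩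
  · simp
  · simp [neg_pt]

@[simp] lemma yc_neg (P : EP M) : yc (-P) = -yc P := by
  rcases P.cases with rfl | ⟨a, b, h, rfl⟩
  · simp
  · simp [neg_pt]

lemma pt_add_neg {a₁ b₁ a₂ b₂ : M} (h₁ h₂) (ha : a₁ = a₂) (hb : b₁ = -b₂) :
    pt a₁ b₁ h₁ + pt a₂ b₂ h₂ = 0 := by
  let := Classical.decEq M
  exact Point.add_of_Y_eq ha (by rw [negY_eq]; exact hb)

/-- The addition law, for any `l` that is the slope of the chord or tangent. -/
lemma pt_add {a₁ b₁ a₂ b₂ : M} (h₁ h₂) (hne : ¬ (a₁ = a₂ ∧ b₁ = -b₂)) (l : M)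
    (hl₁ : l * (a₁ - a₂) = b₁ - b₂) (hl₂ : l * (b₁ + b₂) = a₁ ^ 2 + a₁ * a₂ + a₂ ^ 2) :
    ∃ h, pt a₁ b₁ h₁ + pt a₂ b₂ h₂ =
      pt (l ^ 2 - a₁ - a₂) (-(l * (l ^ 2 - a₁ - a₂ - a₁) + b₁)) h := by
  let := Classical.decEq M
  have hne' : ¬ (a₁ = a₂ ∧ b₁ = (W0⁄M).negY a₂ b₂) := by rw [negY_eq]; exact hne
  have hs : (W0⁄M).slope a₁ a₂ b₁ b₂ = l := by
    by_cases ha : a₁ = a₂
    · have hb : b₁ ≠ (W0⁄M).negY a₂ b₂ := fun h => hne' ⟨ha, h⟩
      rw [slope_of_Y_ne ha hb, negY_eq]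
      rw [negY_eq] at hb
      have hb' : b₁ = b₂ := by rw [ha, sub_self, mul_zero] at hl₁; linear_combination -hl₁
      subst ha hb'
      have hb2 : b₁ - -b₁ ≠ 0 := sub_ne_zero.2 hb
      rw [div_eq_iff hb2]
      simp only [W0, WeierstrassCurve.Affine.baseChange, WeierstrassCurve.baseChange,
        map_a₁, map_a₂, map_a₄, map_zero]
      linear_combination -hl₂
    · rw [slope_of_X_ne ha, div_eq_iff (sub_ne_zero.2 ha), hl₁]
  have e : pt a₁ b₁ h₁ + pt a₂ b₂ h₂ = Point.some _ _ _ := Point.add_some hne'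
  have hx : (W0⁄M).addX a₁ a₂ ((W0⁄M).slope a₁ a₂ b₁ b₂) = l ^ 2 - a₁ - a₂ := by
    rw [hs]; simp [addX, W0, WeierstrassCurve.Affine.baseChange, WeierstrassCurve.baseChange]
  have hy : (W0⁄M).addY a₁ a₂ b₁ ((W0⁄M).slope a₁ a₂ b₁ b₂) =
      -(l * (l ^ 2 - a₁ - a₂ - a₁) + b₁) := by
    rw [addY, negY_eq, negAddY, hx, hs]
  have hn := nonsingular_add ((nonsing_iff _ _).2 h₁) ((nonsing_iff _ _).2 h₂) hne'
  rw [hx, hy] at hn
  refine ⟨(nonsing_iff _ _).1 hn, e.trans ?_⟩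
  exact pt_congr (h := (nonsing_iff _ _).1 (nonsingular_add ((nonsing_iff _ _).2 h₁)
    ((nonsing_iff _ _).2 h₂) hne')) hx hy

omit [Algebra ℂ M] in
/-- A slope always exists. -/
lemma exists_slope {a₁ b₁ a₂ b₂ : M} (h₁ : b₁ ^ 2 = a₁ ^ 3 + 1) (h₂ : b₂ ^ 2 = a₂ ^ 3 + 1)
    (hne : ¬ (a₁ = a₂ ∧ b₁ = -b₂)) :
    ∃ l : M, l * (a₁ - a₂) = b₁ - b₂ ∧ l * (b₁ + b₂) = a₁ ^ 2 + a₁ * a₂ + a₂ ^ 2 := by
  have key : (b₁ - b₂) * (b₁ + b₂) = (a₁ - a₂) * (a₁ ^ 2 + a₁ * a₂ + a₂ ^ 2) := by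
    linear_combination h₁ - h₂
  by_cases ha : a₁ = a₂
  · have hb : b₁ + b₂ ≠ 0 := fun h => hne ⟨ha, by linear_combination h⟩
    refine ⟨(a₁ ^ 2 + a₁ * a₂ + a₂ ^ 2) / (b₁ + b₂), ?_, div_mul_cancel₀ _ hb⟩
    rw [ha, sub_self, zero_mul] at key
    rw [ha, sub_self, mul_zero]
    exact ((mul_eq_zero.1 key).resolve_right hb).symm
  · have ha' : a₁ - a₂ ≠ 0 := sub_ne_zero.2 ha
    refine ⟨(b₁ - b₂) / (a₁ - a₂), div_mul_cancel₀ _ ha', ?_⟩
    rw [div_mul_eq_mul_div, key, mul_div_cancel_left₀ _ ha']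

/-- The image of `ζ` in `M`. -/
def zt (M : Type) [Field M] [Algebra ℂ M] : M := algebraMap ℂ M zeta

lemma zt_pow : zt M ^ 3 = 1 := by rw [zt, ← map_pow, zeta_pow, map_one]
lemma zt_quad : zt M ^ 2 + zt M + 1 = 0 := by
  have := congrArg (algebraMap ℂ M) zeta_quad
  simpa [zt] using this
lemma zt_ne_zero : zt M ≠ 0 := fun h => by simpa [h] using (zt_pow (M := M))
lemma zt_ne_one : zt M ≠ 1 := fun h =>
  zeta_ne_one ((algebraMap ℂ M).injective (by rw [map_one]; exact h))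

/-- The automorphism `(x, y) ↦ (ζ x, y)`. -/
def rotFun : EP M → EP M
  | Point.zero => 0
  | Point.some a b h => pt (zt M * a) b (by rw [mul_pow, zt_pow, one_mul]; exact (nonsing_iff a b).1 h)

lemma rotFun_pt (a b : M) (h) :
    rotFun (pt a b h) = pt (zt M * a) b (by rw [mul_pow, zt_pow, one_mul]; exact h) := rfl

lemma rotFun_zero : rotFun (0 : EP M) = 0 := rfl

/-- The automorphism `(x, y) ↦ (ζ x, y)` as a homomorphism. -/
def rot : EP M →+ EP M where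
  toFun := rotFun
  map_zero' := rfl
  map_add' P Q := by
    rcases P.cases with rfl | ⟨a₁, b₁, h₁, rfl⟩
    · simp [rotFun_zero]
    rcases Q.cases with rfl | ⟨a₂, b₂, h₂, rfl⟩
    · simp [rotFun_zero]
    by_cases hne : a₁ = a₂ ∧ b₁ = -b₂
    · rw [pt_add_neg h₁ h₂ hne.1 hne.2, rotFun_pt, rotFun_pt, rotFun_zero,
        pt_add_neg _ _ (by rw [hne.1]) hne.2]
    · obtain ⟨l, hl₁, hl₂⟩ := exists_slope h₁ h₂ hne
      obtain ⟨h, e⟩ := pt_add h₁ h₂ hne l hl₁ hl₂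
      have z3 := zt_pow (M := M)
      obtain ⟨h', e'⟩ := pt_add (a₁ := zt M * a₁) (a₂ := zt M * a₂)
        (by rw [mul_pow, zt_pow, one_mul]; exact h₁) (by rw [mul_pow, zt_pow, one_mul]; exact h₂)
        (fun hh => hne ⟨mul_left_cancel₀ zt_ne_zero hh.1, hh.2⟩) (zt M ^ 2 * l)
        (by linear_combination hl₁ + (l * (a₁ - a₂)) * z3) (by linear_combination zt M ^ 2 * hl₂)
      rw [e, rotFun_pt, rotFun_pt, rotFun_pt, e']
      refine pt_congr (by linear_combination (-(zt M) * l ^ 2) * z3) ?_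
      linear_combination (l ^ 3 * (zt M ^ 3 + 1) - l * (2 * a₁ + a₂)) * z3

lemma rot_pt (a b : M) (h) :
    rot (pt a b h) = pt (zt M * a) b (by rw [mul_pow, zt_pow, one_mul]; exact h) := rfl

lemma rot_rot (P : EP M) : rot (rot P) = -P - rot P := by
  rcases P.cases with rfl | ⟨a, b, h, rfl⟩
  · simp
  have q := zt_quad (M := M)
  have z3 := zt_pow (M := M)
  rw [eq_sub_iff_add_eq, rot_pt, rot_pt, neg_pt]
  have hb : a = 0 → b ≠ 0 := fun ha hb => by simp [ha, hb] at h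
  have := charZero_of M
  have hne : ¬ (zt M * (zt M * a) = zt M * a ∧ b = -b) := by
    rintro ⟨h1, h2⟩
    have h3 : (zt M - 1) * a = 0 := by
      have := mul_left_cancel₀ zt_ne_zero h1
      linear_combination this
    have ha : a = 0 := (mul_eq_zero.1 h3).resolve_left (sub_ne_zero.2 zt_ne_one)
    have : (2 : M) * b = 0 := by linear_combination h2
    exact hb ha (by simpa using this)
  obtain ⟨h', e⟩ := pt_add (a₁ := zt M * (zt M * a)) (a₂ := zt M * a)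
    (by rw [mul_pow, mul_pow, zt_pow, one_mul, one_mul]; exact h)
    (by rw [mul_pow, zt_pow, one_mul]; exact h) hne 0 (by ring)
    (by linear_combination (-(zt M ^ 2 * a ^ 2)) * q)
  rw [e]
  exact pt_congr (by linear_combination (-a) * q) (by ring)

instance : SMul Zw (EP M) := ⟨fun a P => a.re • P + a.im • rot P⟩

lemma zw_smul_def (a : Zw) (P : EP M) : a • P = a.re • P + a.im • rot P := rfl

instance : Module Zw (EP M) where
  one_smul P := by simp [zw_smul_def, QuadraticAlgebra.re_one, QuadraticAlgebra.im_one]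
  mul_smul a b P := by
    simp only [zw_smul_def, QuadraticAlgebra.re_mul, QuadraticAlgebra.im_mul, map_add, map_zsmul,
      rot_rot]
    module
  smul_zero a := by simp [zw_smul_def]
  smul_add a P Q := by simp only [zw_smul_def, map_add]; module
  add_smul a b P := by
    simp only [zw_smul_def, QuadraticAlgebra.re_add, QuadraticAlgebra.im_add]; module
  zero_smul P := by simp [zw_smul_def]

lemma om_smul (P : EP M) : om • P = rot P := by simp [zw_smul_def, om]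

@[simp] lemma xc_om (P : EP M) : xc (om • P) = zt M * xc P := by
  rw [om_smul]
  rcases P.cases with rfl | ⟨a, b, h, rfl⟩
  · simp
  · simp [rot_pt]

@[simp] lemma yc_om (P : EP M) : yc (om • P) = yc P := by
  rw [om_smul]
  rcases P.cases with rfl | ⟨a, b, h, rfl⟩
  · simp
  · simp [rot_pt]

/-- The map on points along a field homomorphism, additive version. -/
def emap0 (f : M →ₐ[ℂ] N) : EP M →+ EP N :=
  letI := Classical.decEq M
  letI := Classical.decEq N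
  Point.map (W' := W0) f

lemma emap0_pt (f : M →ₐ[ℂ] N) (a b : M) (h) : emap0 f (pt a b h) =
    pt (f a) (f b) (by rw [← map_pow, h, map_add, map_pow, map_one]) := rfl

lemma emap0_rot (f : M →ₐ[ℂ] N) (P : EP M) : emap0 f (rot P) = rot (emap0 f P) := by
  rcases P.cases with rfl | ⟨a, b, h, rfl⟩
  · simp
  · rw [rot_pt, emap0_pt, emap0_pt, rot_pt]
    exact pt_congr (by simp [zt]) rfl

/-- The map on points along a field homomorphism. -/
def emap (f : M →ₐ[ℂ] N) : EP M →ₗ[Zw] EP N where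
  toFun := emap0 f
  map_add' := map_add _
  map_smul' a P := by simp [zw_smul_def, emap0_rot]

lemma emap_pt (f : M →ₐ[ℂ] N) (a b : M) (h) : emap f (pt a b h) =
    pt (f a) (f b) (by rw [← map_pow, h, map_add, map_pow, map_one]) := rfl

@[simp] lemma xc_emap (f : M →ₐ[ℂ] N) (P : EP M) : xc (emap f P) = f (xc P) := by
  rcases P.cases with rfl | ⟨a, b, h, rfl⟩
  · simp
  · simp [emap_pt]

@[simp] lemma yc_emap (f : M →ₐ[ℂ] N) (P : EP M) : yc (emap f P) = f (yc P) := by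
  rcases P.cases with rfl | ⟨a, b, h, rfl⟩
  · simp
  · simp [emap_pt]

lemma emap_eq_zero (f : M →ₐ[ℂ] N) {P : EP M} : emap f P = 0 ↔ P = 0 := by
  rcases P.cases with rfl | ⟨a, b, h, rfl⟩
  · simp
  · simp [emap_pt, pt_ne_zero]

lemma emap_injective (f : M →ₐ[ℂ] N) : Function.Injective (emap f) :=
  (injective_iff_map_eq_zero _).2 fun _ h => (emap_eq_zero f).1 h

lemma emap_emap {N' : Type} [Field N'] [Algebra ℂ N'] (f : M →ₐ[ℂ] N) (g : N →ₐ[ℂ] N')
    (P : EP M) : emap g (emap f P) = emap (g.comp f) P := by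
  rcases P.cases with rfl | ⟨a, b, h, rfl⟩
  · simp
  · rfl

lemma emap_id (P : EP M) : emap (AlgHom.id ℂ M) P = P := by
  rcases P.cases with rfl | ⟨a, b, h, rfl⟩
  · simp
  · rfl

/-- Points defined over a subfield `F`. -/
def up (F M : Type) [Field F] [Algebra ℂ F] [Field M] [Algebra ℂ M] [Algebra F M]
    [IsScalarTower ℂ F M] : EP F →ₗ[Zw] EP M := emap (IsScalarTower.toAlgHom ℂ F M)

/-- Constant points. -/
def cst (M : Type) [Field M] [Algebra ℂ M] : EP ℂ →ₗ[Zw] EP M := emap (Algebra.ofId ℂ M)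

@[simp] lemma emap_cst (f : M →ₐ[ℂ] N) (c : EP ℂ) : emap f (cst M c) = cst N c := by
  rw [cst, cst, emap_emap]; congr 2; ext

/-- The point `T = (0, 1)` of order three. -/
def tT (M : Type) [Field M] [Algebra ℂ M] : EP M := pt 0 1 (by ring)

/-- The three points fixed by `ω`: `0, T, -T`. -/
def tors (M : Type) [Field M] [Algebra ℂ M] (τ : ZMod 3) : EP M := τ.val • tT M

@[simp] lemma emap_tT (f : M →ₐ[ℂ] N) : emap f (tT M) = tT N := by
  rw [tT, emap_pt]; exact pt_congr (map_zero _) (map_one _)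

@[simp] lemma emap_tors (f : M →ₐ[ℂ] N) (τ : ZMod 3) : emap f (tors M τ) = tors N τ := by
  rw [tors, tors, map_nsmul, emap_tT]

@[simp] lemma cst_tors (τ : ZMod 3) : cst M (tors ℂ τ) = tors M τ := emap_tors _ τ

lemma tT_add_tT : tT M + tT M = -tT M := by
  have := charZero_of M
  obtain ⟨h, e⟩ := pt_add (a₁ := (0 : M)) (a₂ := 0) (b₁ := 1) (b₂ := 1) (by ring) (by ring)
    (by rintro ⟨-, h⟩; have : (2 : M) = 0 := by linear_combination h
        simp at this) 0 (by ring) (by ring)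
  rw [tT, e, neg_pt]; exact pt_congr (by ring) (by ring)

@[simp] lemma tors_zero : tors M 0 = 0 := by simp [tors]
lemma tors_one : tors M 1 = tT M := by
  rw [tors, show (1 : ZMod 3).val = 1 from rfl, one_smul]
lemma tors_two : tors M 2 = -tT M := by
  rw [tors, show (2 : ZMod 3).val = 2 from rfl, two_smul, tT_add_tT]

lemma three_tT : (3 : ℕ) • tT M = 0 := by
  rw [show (3 : ℕ) = 2 + 1 from rfl, add_smul, two_smul, one_smul, tT_add_tT, neg_add_cancel]

lemma tors_natCast (n : ℕ) : tors M (n : ZMod 3) = n • tT M := by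
  rw [tors, ZMod.val_natCast]
  conv_rhs => rw [← Nat.mod_add_div n 3, add_smul, mul_comm, mul_smul, three_tT, smul_zero, add_zero]

lemma tors_add (a b : ZMod 3) : tors M (a + b) = tors M a + tors M b := by
  rw [← ZMod.natCast_zmod_val a, ← ZMod.natCast_zmod_val b, ← Nat.cast_add, tors_natCast,
    tors_natCast, tors_natCast, add_smul]

/-- `tors` as a homomorphism. -/
def torsHom (M : Type) [Field M] [Algebra ℂ M] : ZMod 3 →+ EP M where
  toFun := tors M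
  map_zero' := tors_zero
  map_add' := tors_add

lemma tors_neg (a : ZMod 3) : tors M (-a) = -tors M a := map_neg (torsHom M) a
lemma tors_sub (a b : ZMod 3) : tors M (a - b) = tors M a - tors M b := map_sub (torsHom M) a b

lemma tors_eq_zero {a : ZMod 3} : tors M a = 0 ↔ a = 0 := by
  refine ⟨fun h => ?_, fun h => by rw [h, tors_zero]⟩
  have : a = 0 ∨ a = 1 ∨ a = 2 := by clear h; revert a; decide
  rcases this with rfl | rfl | rfl
  · rfl
  · rw [tors_one] at h; exact absurd h (pt_ne_zero _ _ _)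
  · rw [tors_two, neg_eq_zero] at h; exact absurd h (pt_ne_zero _ _ _)

lemma tors_injective : Function.Injective (tors M) :=
  (injective_iff_map_eq_zero (torsHom M)).2 fun _ h => tors_eq_zero.1 h

lemma rot_tT : rot (tT M) = tT M := by rw [tT, rot_pt]; exact pt_congr (by ring) rfl

lemma smul_tors (a : Zw) (τ : ZMod 3) : a • tors M τ = tors M (bar a * τ) := by
  have h1 : rot (tors M τ) = tors M τ := by rw [tors, map_nsmul, rot_tT]
  have h2 : ∀ n : ℤ, n • tors M τ = tors M ((n : ZMod 3) * τ) := fun n => by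
    rw [← zsmul_eq_mul]; exact (map_zsmul (torsHom M) n τ).symm
  rw [zw_smul_def, h1, h2, h2, ← tors_add, bar_def, add_mul]

/-- A point with `x = 0` is `T` or `-T`. -/
lemma eq_tors_of_xc {P : EP M} (h : xc P = 0) : ∃ τ, P = tors M τ := by
  rcases P.cases with rfl | ⟨a, b, hab, rfl⟩
  · exact ⟨0, tors_zero.symm⟩
  simp only [xc_pt] at h
  subst h
  have : (b - 1) * (b + 1) = 0 := by linear_combination hab
  rcases mul_eq_zero.1 this with h | h
  · exact ⟨1, by rw [tors_one, tT]; exact pt_congr rfl (by linear_combination h)⟩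
  · exact ⟨2, by rw [tors_two, tT, neg_pt]; exact pt_congr rfl (by linear_combination h)⟩

/-- Translation by `T` is a linear fractional map. -/
lemma pt_add_tT (a b : M) (h) (hb : b + 1 ≠ 0) :
    ∃ h', pt a b h + tT M = pt (-2 * a / (b + 1)) ((b - 3) / (b + 1)) h' := by
  have hne : ¬ (a = 0 ∧ b = -1) := fun hh => hb (by rw [hh.2]; ring)
  obtain ⟨h', e⟩ := pt_add h (show (1 : M) ^ 2 = 0 ^ 3 + 1 by ring) hne (a ^ 2 / (b + 1))
    (by field_simp; linear_combination -h) (by field_simp; ring)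
  have e1 : (a ^ 2 / (b + 1)) ^ 2 - a - 0 = -2 * a / (b + 1) := by
    field_simp; linear_combination (-a) * h
  have e2 : -(a ^ 2 / (b + 1) * ((a ^ 2 / (b + 1)) ^ 2 - a - 0 - a) + b) = (b - 3) / (b + 1) := by
    rw [e1]; field_simp; linear_combination (-(b + 3)) * h
  exact ⟨by rw [← e1, ← e2]; exact h', by rw [tT, e]; exact pt_congr e1 e2⟩

lemma pt_add_tT_eq_zero (a b : M) (h) (hb : b + 1 = 0) : pt a b h + tT M = 0 := by
  have hb' : b = -1 := by linear_combination hb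
  have ha : a ^ 3 = 0 := by rw [hb'] at h; linear_combination -h
  exact pt_add_neg _ _ (by simpa using ha) hb'

/-- The point `∑ ℓ i • P i`. -/
def lin (l : Fin 3 → Zw) (P : Fin 3 → EP M) : EP M := ∑ i, l i • P i

/-- The value of the reduction of `ℓ` at a point of `𝔽₃ ^ 3`. -/
def dotb (l : Fin 3 → Zw) (p : Fin 3 → ZMod 3) : ZMod 3 := ∑ i, bar (l i) * p i

lemma lin_tors (l : Fin 3 → Zw) (p : Fin 3 → ZMod 3) :
    lin l (fun i => tors M (p i)) = tors M (dotb l p) := by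
  simp only [lin, dotb, smul_tors]
  exact (map_sum (torsHom M) _ _).symm

lemma emap_lin (f : M →ₐ[ℂ] N) (l : Fin 3 → Zw) (P : Fin 3 → EP M) :
    emap f (lin l P) = lin l (fun i => emap f (P i)) := by
  simp [lin, map_sum]

end

end Pool.Agent.MP_95da86_ag

end

section

/-! Local subalgebras of a field: units, residues, domination, centres. -/

namespace Pool.Agent.MP_95da86_ag

open IsLocalRing

noncomputable section

variable {K K' : Type} [Field K] [Algebra ℂ K] [Field K'] [Algebra ℂ K']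

/-- The residue field. -/
abbrev RF (O : Pt K) : Type := ResidueField O.1

/-- `f` is a unit of `O`. -/
def IsU (O : Pt K) (f : K) : Prop := f ≠ 0 ∧ f ∈ O.1 ∧ f⁻¹ ∈ O.1

lemma isUnit_iff_sub (A : Subalgebra ℂ K) (f : A) : IsUnit f ↔ (f : K) ≠ 0 ∧ (f : K)⁻¹ ∈ A := by
  constructor
  · intro h
    obtain ⟨g, hg⟩ := h.exists_right_inv
    have hg' : (f : K) * g = 1 := by exact_mod_cast congrArg Subtype.val hg
    refine ⟨left_ne_zero_of_mul_eq_one hg', ?_⟩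
    rw [← eq_inv_of_mul_eq_one_right hg']; exact g.2
  · rintro ⟨h0, h⟩
    exact IsUnit.of_mul_eq_one ⟨_, h⟩ (Subtype.ext (mul_inv_cancel₀ h0))

lemma isLocal_of (A : Subalgebra ℂ K)
    (h : ∀ f ∈ A, (f ≠ 0 ∧ f⁻¹ ∈ A) ∨ (1 - f ≠ 0 ∧ (1 - f)⁻¹ ∈ A)) : IsLocalRing A :=
  IsLocalRing.of_isUnit_or_isUnit_one_sub_self fun f => by
    rcases h f f.2 with h | h
    · exact Or.inl ((isUnit_iff_sub A f).2 h)
    · exact Or.inr ((isUnit_iff_sub A _).2 h)

lemma mem_mx {O : Pt K} {f : K} : f ∈ mx O ↔ f ∈ O.1 ∧ ¬ IsU O f := by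
  constructor
  · rintro ⟨g, hg, rfl⟩
    refine ⟨g.2, fun h => ?_⟩
    exact (mem_maximalIdeal _).1 hg ((isUnit_iff_sub _ g).2 ⟨h.1, h.2.2⟩)
  · rintro ⟨h1, h2⟩
    exact ⟨⟨f, h1⟩, (mem_maximalIdeal _).2 fun h =>
      h2 ⟨((isUnit_iff_sub _ _).1 h).1, h1, ((isUnit_iff_sub _ _).1 h).2⟩, rfl⟩

lemma coe_mem_mx {O : Pt K} {f : O.1} : (f : K) ∈ mx O ↔ f ∈ maximalIdeal O.1 :=
  ⟨fun ⟨_, hg, e⟩ => Subtype.ext e ▸ hg, fun h => ⟨f, h, rfl⟩⟩

lemma mx_sub {O : Pt K} {f : K} (h : f ∈ mx O) : f ∈ O.1 := (mem_mx.1 h).1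
lemma mx_or_isU {O : Pt K} {f : K} (h : f ∈ O.1) : f ∈ mx O ∨ IsU O f := by
  rw [mem_mx]; tauto
lemma isU_of_not_mx {O : Pt K} {f : K} (h : f ∈ O.1) (h' : f ∉ mx O) : IsU O f :=
  (mx_or_isU h).resolve_left h'
lemma IsU.not_mx {O : Pt K} {f : K} (h : IsU O f) : f ∉ mx O := fun h' => (mem_mx.1 h').2 h
lemma zero_mem_mx (O : Pt K) : (0 : K) ∈ mx O := ⟨0, zero_mem _, rfl⟩
lemma isU_one (O : Pt K) : IsU O 1 := ⟨one_ne_zero, one_mem _, by simp⟩
lemma one_not_mem_mx (O : Pt K) : (1 : K) ∉ mx O := (isU_one O).not_mx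
lemma IsU.mul {O : Pt K} {f g : K} (hf : IsU O f) (hg : IsU O g) : IsU O (f * g) :=
  ⟨mul_ne_zero hf.1 hg.1, mul_mem hf.2.1 hg.2.1, by rw [mul_inv]; exact mul_mem hf.2.2 hg.2.2⟩
lemma IsU.inv {O : Pt K} {f : K} (hf : IsU O f) : IsU O f⁻¹ :=
  ⟨inv_ne_zero hf.1, hf.2.2, by rw [inv_inv]; exact hf.2.1⟩
lemma IsU.div {O : Pt K} {f g : K} (hf : IsU O f) (hg : IsU O g) : IsU O (f / g) := by
  rw [div_eq_mul_inv]; exact hf.mul hg.inv
lemma IsU.pow {O : Pt K} {f : K} (hf : IsU O f) (n : ℕ) : IsU O (f ^ n) :=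
  ⟨pow_ne_zero _ hf.1, pow_mem hf.2.1 n, by rw [← inv_pow]; exact pow_mem hf.2.2 n⟩
lemma IsU.zpow {O : Pt K} {f : K} (hf : IsU O f) (n : ℤ) : IsU O (f ^ n) := by
  rcases n with n | n
  · simpa using hf.pow n
  · rw [zpow_negSucc]; exact (hf.pow _).inv
lemma IsU.neg {O : Pt K} {f : K} (hf : IsU O f) : IsU O (-f) :=
  ⟨neg_ne_zero.2 hf.1, neg_mem hf.2.1, by rw [inv_neg]; exact neg_mem hf.2.2⟩
lemma IsU.mono {O O' : Pt K} (h : O.1 ≤ O'.1) {f : K} (hf : IsU O f) : IsU O' f :=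
  ⟨hf.1, h hf.2.1, h hf.2.2⟩
lemma isU_const (O : Pt K) {c : ℂ} (hc : c ≠ 0) : IsU O (algebraMap ℂ K c) :=
  ⟨by simpa using hc, O.1.algebraMap_mem c, by rw [← map_inv₀]; exact O.1.algebraMap_mem _⟩
lemma mx_add {O : Pt K} {f g : K} (hf : f ∈ mx O) (hg : g ∈ mx O) : f + g ∈ mx O := by
  obtain ⟨f, hf, rfl⟩ := hf; obtain ⟨g, hg, rfl⟩ := hg
  exact ⟨f + g, add_mem hf hg, rfl⟩
lemma mx_neg {O : Pt K} {f : K} (hf : f ∈ mx O) : -f ∈ mx O := by
  obtain ⟨f, hf, rfl⟩ := hf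
  exact ⟨-f, neg_mem hf, rfl⟩
lemma mx_sub' {O : Pt K} {f g : K} (hf : f ∈ mx O) (hg : g ∈ mx O) : f - g ∈ mx O := by
  rw [sub_eq_add_neg]; exact mx_add hf (mx_neg hg)
lemma mx_mul_left {O : Pt K} {f g : K} (hf : f ∈ O.1) (hg : g ∈ mx O) : f * g ∈ mx O := by
  obtain ⟨g, hg, rfl⟩ := hg
  exact ⟨⟨f, hf⟩ * g, Ideal.mul_mem_left _ _ hg, rfl⟩
lemma mx_mul_right {O : Pt K} {f g : K} (hf : f ∈ mx O) (hg : g ∈ O.1) : f * g ∈ mx O := by
  rw [mul_comm]; exact mx_mul_left hg hf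
lemma mx_prime {O : Pt K} {f g : K} (hf : f ∈ O.1) (hg : g ∈ O.1) (h : f * g ∈ mx O) :
    f ∈ mx O ∨ g ∈ mx O := by
  by_contra hc
  push Not at hc
  exact ((isU_of_not_mx hf hc.1).mul (isU_of_not_mx hg hc.2)).not_mx h
lemma mx_of_pow {O : Pt K} {f : K} (hf : f ∈ O.1) {n : ℕ} (h : f ^ n ∈ mx O) : f ∈ mx O := by
  by_contra hc
  exact ((isU_of_not_mx hf hc).pow n).not_mx h
lemma IsU.add_mx {O : Pt K} {f g : K} (hf : IsU O f) (hg : g ∈ mx O) : IsU O (f + g) :=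
  isU_of_not_mx (add_mem hf.2.1 (mx_sub hg)) fun h => hf.not_mx (by simpa using mx_sub' h hg)
/-- A non-unit of a larger local ring is a non-unit of a smaller one. -/
lemma mx_of_le {O O' : Pt K} (h : O.1 ≤ O'.1) {f : K} (hf : f ∈ O.1) (hf' : f ∈ mx O') :
    f ∈ mx O := (mx_or_isU hf).resolve_right fun hu => (hu.mono h).not_mx hf'

lemma res_of_mem {O : Pt K} {g : K} (h : g ∈ O.1) : res O g = residue O.1 ⟨g, h⟩ := dif_pos h
lemma res_of_not_mem {O : Pt K} {g : K} (h : g ∉ O.1) : res O g = 0 := dif_neg h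
lemma res_add {O : Pt K} {f g : K} (hf : f ∈ O.1) (hg : g ∈ O.1) :
    res O (f + g) = res O f + res O g := by
  rw [res_of_mem hf, res_of_mem hg, res_of_mem (add_mem hf hg), ← map_add]; rfl
lemma res_mul {O : Pt K} {f g : K} (hf : f ∈ O.1) (hg : g ∈ O.1) :
    res O (f * g) = res O f * res O g := by
  rw [res_of_mem hf, res_of_mem hg, res_of_mem (mul_mem hf hg), ← map_mul]; rfl
lemma res_neg {O : Pt K} {f : K} (hf : f ∈ O.1) : res O (-f) = -res O f := by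
  rw [res_of_mem hf, res_of_mem (neg_mem hf), ← map_neg]; rfl
lemma res_sub {O : Pt K} {f g : K} (hf : f ∈ O.1) (hg : g ∈ O.1) :
    res O (f - g) = res O f - res O g := by
  rw [res_of_mem hf, res_of_mem hg, res_of_mem (sub_mem hf hg), ← map_sub]; rfl
lemma res_pow {O : Pt K} {f : K} (hf : f ∈ O.1) (n : ℕ) : res O (f ^ n) = res O f ^ n := by
  rw [res_of_mem hf, res_of_mem (pow_mem hf n), ← map_pow]; rfl
lemma res_const (O : Pt K) (c : ℂ) : res O (algebraMap ℂ K c) = algebraMap ℂ (RF O) c := by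
  rw [res_of_mem (O.1.algebraMap_mem c)]; rfl
lemma res_one (O : Pt K) : res O 1 = 1 := by simpa using res_const O 1
lemma res_zero (O : Pt K) : res O 0 = 0 := by simpa using res_const O 0
lemma res_eq_zero {O : Pt K} {f : K} (hf : f ∈ O.1) : res O f = 0 ↔ f ∈ mx O := by
  rw [res_of_mem hf, residue_eq_zero_iff, ← coe_mem_mx]
lemma IsU.res_ne {O : Pt K} {f : K} (hf : IsU O f) : res O f ≠ 0 :=
  fun h => hf.not_mx ((res_eq_zero hf.2.1).1 h)
lemma res_inv {O : Pt K} {f : K} (hf : IsU O f) : res O f⁻¹ = (res O f)⁻¹ := by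
  refine eq_inv_of_mul_eq_one_right ?_
  rw [← res_mul hf.2.1 hf.2.2, mul_inv_cancel₀ hf.1, res_one]
lemma res_div {O : Pt K} {f g : K} (hf : f ∈ O.1) (hg : IsU O g) :
    res O (f / g) = res O f / res O g := by
  rw [div_eq_mul_inv, res_mul hf hg.2.2, res_inv hg, div_eq_mul_inv]
lemma res_surj (O : Pt K) (a : RF O) : ∃ f ∈ O.1, res O f = a := by
  obtain ⟨f, rfl⟩ := residue_surjective a
  exact ⟨f, f.2, res_of_mem f.2⟩

/-- Domination. -/
def Dom (O W : Pt K) : Prop := O.1 ≤ W.1 ∧ mx O ⊆ mx W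

lemma Dom.refl (O : Pt K) : Dom O O := ⟨le_rfl, subset_rfl⟩
lemma Dom.trans {A B C : Pt K} (h : Dom A B) (h' : Dom B C) : Dom A C :=
  ⟨h.1.trans h'.1, h.2.trans h'.2⟩
lemma Dom.isU {O W : Pt K} (h : Dom O W) {f : K} (hf : f ∈ O.1) (hu : IsU W f) : IsU O f :=
  isU_of_not_mx hf fun hm => hu.not_mx (h.2 hm)
lemma Dom.inv_mem {O W : Pt K} (h : Dom O W) {f : K} (hf : f ∈ O.1) (hu : f⁻¹ ∈ W.1) :
    f⁻¹ ∈ O.1 := by
  by_cases h0 : f = 0
  · simp [h0]
  · exact (h.isU hf ⟨h0, h.1 hf, hu⟩).2.2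

/-- A valuation ring containing `ℂ`, as a point. -/
def vpt (V : ValuationSubring K) (hV : ∀ c : ℂ, algebraMap ℂ K c ∈ V) : Pt K :=
  ⟨{ V.toSubring with algebraMap_mem' := hV }, isLocal_of _ fun f hf => by
    by_cases h : f ≠ 0 ∧ f⁻¹ ∈ V
    · exact Or.inl h
    · right
      have hn : f ∈ V.nonunits := by
        rw [ValuationSubring.mem_nonunits_iff_or]; tauto
      have h1 : 1 - f ≠ 0 := by
        intro h1
        have : f = 1 := by linear_combination -h1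
        exact h ⟨by simp [this], by simp [this]⟩
      refine ⟨h1, ?_⟩
      by_contra hc
      have hn' : 1 - f ∈ V.nonunits := by
        rw [ValuationSubring.mem_nonunits_iff_or]; exact Or.inr hc
      have := add_mem hn hn'
      simp [ValuationSubring.mem_nonunits_iff_or] at this⟩

@[simp] lemma mem_vpt {V : ValuationSubring K} {hV} {f : K} : f ∈ (vpt V hV).1 ↔ f ∈ V := Iff.rfl

lemma mem_mx_vpt {V : ValuationSubring K} {hV} {f : K} : f ∈ mx (vpt V hV) ↔ f ∈ V.nonunits := by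
  rw [mem_mx, ValuationSubring.mem_nonunits_iff_or, IsU]
  simp only [mem_vpt]
  constructor
  · tauto
  · rintro (rfl | h)
    · simp
    · have := V.mem_or_inv_mem f
      tauto

/-- The image of a point under an isomorphism. -/
def mapPt (g : K ≃ₐ[ℂ] K') (O : Pt K) : Pt K' :=
  ⟨O.1.map (g : K →ₐ[ℂ] K'), (g.subalgebraMap O.1).toRingEquiv.isLocalRing⟩

lemma mem_mapPt {g : K ≃ₐ[ℂ] K'} {O : Pt K} {f : K'} : f ∈ (mapPt g O).1 ↔ g.symm f ∈ O.1 :=
  ⟨fun ⟨a, ha, e⟩ => by rw [← e]; simpa using ha, fun h => ⟨_, h, by simp⟩⟩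

lemma isU_mapPt {g : K ≃ₐ[ℂ] K'} {O : Pt K} {f : K'} : IsU (mapPt g O) f ↔ IsU O (g.symm f) := by
  simp [IsU, mem_mapPt]

lemma mem_mx_mapPt {g : K ≃ₐ[ℂ] K'} {O : Pt K} {f : K'} :
    f ∈ mx (mapPt g O) ↔ g.symm f ∈ mx O := by
  simp [mem_mx, mem_mapPt, isU_mapPt]

@[simp] lemma mapPt_symm_mapPt (g : K ≃ₐ[ℂ] K') (O : Pt K) : mapPt g.symm (mapPt g O) = O :=
  Subtype.ext (Subalgebra.ext fun f => by simp [mem_mapPt])

@[simp] lemma mapPt_mapPt_symm (g : K ≃ₐ[ℂ] K') (O : Pt K') : mapPt g (mapPt g.symm O) = O :=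
  Subtype.ext (Subalgebra.ext fun f => by simp [mem_mapPt])

/-- The intersection of a point with a subfield. -/
def qpt (F : IntermediateField ℂ K) (O : Pt K) : Pt F :=
  ⟨O.1.comap F.val, isLocal_of _ fun f hf => by
    rcases mx_or_isU (O := O) (f := (f : K)) hf with h | h
    · right
      have := (isU_one O).add_mx (mx_neg h)
      rw [← sub_eq_add_neg] at this
      exact ⟨fun h0 => this.1 (by exact_mod_cast congrArg Subtype.val h0), this.2.2⟩
    · exact Or.inl ⟨fun h0 => h.1 (by simp [h0]), h.2.2⟩⟩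

@[simp] lemma mem_qpt {F : IntermediateField ℂ K} {O : Pt K} {f : F} :
    f ∈ (qpt F O).1 ↔ (f : K) ∈ O.1 := Iff.rfl

lemma isU_qpt {F : IntermediateField ℂ K} {O : Pt K} {f : F} : IsU (qpt F O) f ↔ IsU O (f : K) := by
  simp [IsU]

lemma mem_mx_qpt {F : IntermediateField ℂ K} {O : Pt K} {f : F} :
    f ∈ mx (qpt F O) ↔ (f : K) ∈ mx O := by
  simp [mem_mx, isU_qpt]

/-- The centre of a local ring `W` on `Spec R`. -/
lemma exists_centre (R : Subalgebra ℂ K) (W : Pt K) (h : R ≤ W.1) : ∃ O ∈ spec R, Dom O W := by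
  let A : Subalgebra ℂ K :=
    { carrier := {f | ∃ a ∈ R, ∃ b ∈ R, IsU W b ∧ f = a / b}
      mul_mem' := by
        rintro _ _ ⟨a, ha, b, hb, hu, rfl⟩ ⟨a', ha', b', hb', hu', rfl⟩
        exact ⟨a * a', mul_mem ha ha', b * b', mul_mem hb hb', hu.mul hu', div_mul_div_comm ..⟩
      add_mem' := by
        rintro _ _ ⟨a, ha, b, hb, hu, rfl⟩ ⟨a', ha', b', hb', hu', rfl⟩
        exact ⟨a * b' + b * a', add_mem (mul_mem ha hb') (mul_mem hb ha'), b * b',
          mul_mem hb hb', hu.mul hu', div_add_div _ _ hu.1 hu'.1⟩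
      algebraMap_mem' c := ⟨_, R.algebraMap_mem c, 1, one_mem _, isU_one W, (div_one _).symm⟩ }
  have hAW : A ≤ W.1 := by
    rintro _ ⟨a, ha, b, hb, hu, rfl⟩
    rw [div_eq_mul_inv]; exact mul_mem (h ha) hu.2.2
  have hinv : ∀ f ∈ A, IsU W f → f⁻¹ ∈ A := by
    rintro _ ⟨a, ha, b, hb, hu, rfl⟩ hf
    refine ⟨b, hb, a, ha, ?_, inv_div _ _⟩
    have := hf.mul hu
    rwa [div_mul_cancel₀ _ hu.1] at this
  have hloc : IsLocalRing A := isLocal_of _ fun f hf => by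
    rcases mx_or_isU (hAW hf) with hm | hu
    · have := (isU_one W).add_mx (mx_neg hm)
      rw [← sub_eq_add_neg] at this
      exact Or.inr ⟨this.1, hinv _ (sub_mem (one_mem _) hf) this⟩
    · exact Or.inl ⟨hu.1, hinv _ hf hu⟩
  refine ⟨⟨A, hloc⟩, ⟨fun a ha => ⟨a, ha, 1, one_mem _, isU_one W, (div_one _).symm⟩, ?_⟩, hAW, ?_⟩
  · rintro _ ⟨a, ha, b, hb, hu, rfl⟩
    exact ⟨a, ha, b, hb, ⟨1, one_mem _, b, hb, hu, (one_div _).symm⟩, rfl⟩
  · intro f hf
    have hf' := mem_mx.1 hf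
    exact mem_mx.2 ⟨hAW hf'.1, fun hu => hf'.2 ⟨hu.1, hf'.1, hinv _ hf'.1 hu⟩⟩

/-- If `R ≤ O'`, `O ∈ Spec R` and both are inside `W`, with `O'` dominated, then `O ≤ O'`. -/
lemma spec_le {R : Subalgebra ℂ K} {O O' W : Pt K} (hO : O ∈ spec R) (hR : R ≤ O'.1)
    (h : O.1 ≤ W.1) (h' : Dom O' W) : O.1 ≤ O'.1 := by
  intro f hf
  obtain ⟨a, ha, b, hb, hb', rfl⟩ := hO.2 f hf
  rw [div_eq_mul_inv]
  exact mul_mem (hR ha) (h'.inv_mem (hR hb) (h hb'))

lemma spec_unique {R : Subalgebra ℂ K} {O O' W : Pt K} (hO : O ∈ spec R) (hO' : O' ∈ spec R)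
    (h : Dom O W) (h' : Dom O' W) : O = O' :=
  Subtype.ext (le_antisymm (spec_le hO hO'.1 h.1 h') (spec_le hO' hO.1 h'.1 h))

/-- Change of chart. -/
lemma spec_of_gens {S : Set K} {R' : Subalgebra ℂ K} {O : Pt K} (hO : O ∈ spec (Algebra.adjoin ℂ S))
    (hR' : R' ≤ O.1) (hS : ∀ g ∈ S, ∃ a ∈ R', ∃ b ∈ R', b⁻¹ ∈ O.1 ∧ g = a / b) : O ∈ spec R' := by
  obtain ⟨O', hO', hd⟩ := exists_centre R' O hR'
  have h1 : Algebra.adjoin ℂ S ≤ O'.1 := by
    refine Algebra.adjoin_le fun g hg => ?_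
    obtain ⟨a, ha, b, hb, hb', rfl⟩ := hS g hg
    rw [div_eq_mul_inv]
    exact mul_mem (hO'.1 ha) (hd.inv_mem (hO'.1 hb) hb')
  have : O = O' := Subtype.ext (le_antisymm (spec_le hO h1 le_rfl hd) hd.1)
  rw [this]; exact hO'

lemma spec_mapPt (g : K ≃ₐ[ℂ] K') {R : Subalgebra ℂ K} {O : Pt K} (hO : O ∈ spec R) :
    mapPt g O ∈ spec (R.map (g : K →ₐ[ℂ] K')) := by
  refine ⟨Subalgebra.map_mono hO.1, ?_⟩
  rintro _ ⟨f, hf, rfl⟩
  obtain ⟨a, ha, b, hb, hb', rfl⟩ := hO.2 f hf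
  exact ⟨g a, ⟨a, ha, rfl⟩, g b, ⟨b, hb, rfl⟩, ⟨b⁻¹, hb', by simp⟩, by simp⟩

/-- Every point is dominated by a valuation ring. -/
lemma exists_val_dom (O : Pt K) : ∃ (V : ValuationSubring K) (hV : _), Dom O (vpt V hV) := by
  let A : LocalSubring K := @LocalSubring.mk K _ O.1.toSubring O.2
  obtain ⟨V, hV⟩ := A.exists_le_valuationSubring
  obtain ⟨h1, h2⟩ := LocalSubring.le_def.1 hV
  refine ⟨V, fun c => h1 (O.1.algebraMap_mem c), fun f hf => h1 hf, fun f hf => ?_⟩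
  have hf' := mem_mx.1 hf
  refine mem_mx.2 ⟨h1 hf'.1, fun hu => hf'.2 ?_⟩
  have hu' : IsUnit (Subring.inclusion h1 ⟨f, hf'.1⟩) :=
    (isUnit_iff_sub (vpt V fun c => h1 (O.1.algebraMap_mem c)).1 ⟨f, h1 hf'.1⟩).2 ⟨hu.1, hu.2.2⟩
  have := (isUnit_iff_sub O.1 ⟨f, hf'.1⟩).1 (h2.map_nonunit _ hu')
  exact ⟨this.1, hf'.1, this.2⟩

/-- The preimage of a point of the residue field. -/
lemma exists_pre (ξ : Pt K) (V : Pt (RF ξ)) :
    ∃ W : Pt K, (∀ f, f ∈ W.1 ↔ f ∈ ξ.1 ∧ res ξ f ∈ V.1) ∧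
      ∀ f, f ∈ mx W ↔ f ∈ ξ.1 ∧ res ξ f ∈ mx V := by
  let A : Subalgebra ℂ K :=
    { carrier := {f | f ∈ ξ.1 ∧ res ξ f ∈ V.1}
      mul_mem' := fun ha hb => ⟨mul_mem ha.1 hb.1, by rw [res_mul ha.1 hb.1]; exact mul_mem ha.2 hb.2⟩
      add_mem' := fun ha hb => ⟨add_mem ha.1 hb.1, by rw [res_add ha.1 hb.1]; exact add_mem ha.2 hb.2⟩
      algebraMap_mem' c := ⟨ξ.1.algebraMap_mem c, by rw [res_const]; exact V.1.algebraMap_mem c⟩ }
  have hinv : ∀ f ∈ ξ.1, IsU V (res ξ f) → f ≠ 0 ∧ f⁻¹ ∈ A := fun f hf hu => by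
    have hu' : IsU ξ f := isU_of_not_mx hf fun hm => hu.1 ((res_eq_zero hf).2 hm)
    exact ⟨hu'.1, hu'.2.2, by rw [res_inv hu']; exact hu.2.2⟩
  have hloc : IsLocalRing A := isLocal_of _ fun f hf => by
    rcases mx_or_isU hf.2 with hm | hu
    · have := (isU_one V).add_mx (mx_neg hm)
      rw [← sub_eq_add_neg, ← res_one ξ, ← res_sub (one_mem _) hf.1] at this
      exact Or.inr (hinv _ (sub_mem (one_mem _) hf.1) this)
    · exact Or.inl (hinv _ hf.1 hu)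
  refine ⟨⟨A, hloc⟩, fun f => Iff.rfl, fun f => ?_⟩
  rw [mem_mx, mem_mx]
  constructor
  · rintro ⟨hf, hn⟩
    exact ⟨hf.1, hf.2, fun hu => hn ⟨(hinv f hf.1 hu).1, hf, (hinv f hf.1 hu).2⟩⟩
  · rintro ⟨hf, hf', hn⟩
    refine ⟨⟨hf, hf'⟩, fun hu => hn ?_⟩
    have hu' : IsU ξ f := ⟨hu.1, hf, hu.2.2.1⟩
    exact ⟨hu'.res_ne, hf', by rw [← res_inv hu']; exact hu.2.2.2⟩

end

end Pool.Agent.MP_95da86_ag

end

section

/-! Internal definitions. -/

namespace Pool.Agent.MP_95da86_ag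

open Polynomial

noncomputable section

/-- Rows `ℓ ∈ ℤ[ω] ^ 3`. -/
abbrev Lam := Fin 3 → Zw
/-- The 27 fixed points. -/
abbrev F3 := Fin 3 → ZMod 3
/-- The group `GL₃(ℤ[ω])`. -/
abbrev GLw := GL (Fin 3) Zw

/-- The row `ℓ g`. -/
def vm (l : Lam) (g : GLw) : Lam := Matrix.vecMul l g.val

/-- Function fields in one variable. -/
def IsFF (k M : Type) [Field k] [Field M] [Algebra k M] : Prop :=
  ∃ t : M, Transcendental k t ∧ FiniteDimensional (IntermediateField.adjoin k {t}) M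

/-- Places. -/
def Pl (k M : Type) [Field k] [Field M] [Algebra k M] : Type :=
  {V : ValuationSubring M // V ≠ ⊤ ∧ ∀ c : k, algebraMap k M c ∈ V}

section Points

variable {M : Type} [Field M] [Algebra ℂ M]

/-- Local height: the pole order of `y`. -/
def lam (V : ValuationSubring M) (Q : EP M) : ℤ := max 0 (-ord V (yc Q))

/-- Height: the degree of `y` (three times the usual height). -/
def ht (k : Type) [Field k] [Algebra k M] (Q : EP M) : ℤ := ∑ᶠ V : Pl k M, lam V.1 Q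

/-- The coordinate `x / y` at the origin. -/
def sc (Q : EP M) : M := xc Q / yc Q
/-- The coordinate `1 / y` at the origin. -/
def tc (Q : EP M) : M := (yc Q)⁻¹

/-- `Q` extends to an `O`-point. -/
def Intg (O : Pt M) (Q : EP M) : Prop :=
  (xc Q ∈ O.1 ∧ yc Q ∈ O.1) ∨ (sc Q ∈ O.1 ∧ tc Q ∈ O.1)

open Classical in
/-- The reduction of `Q`. -/
def red (O : Pt M) (Q : EP M) : EP (RF O) :=
  if h : Q ≠ 0 ∧ xc Q ∈ O.1 ∧ yc Q ∈ O.1 then
    pt (res O (xc Q)) (res O (yc Q)) (by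
      rw [← res_pow h.2.2, eqn_of_ne h.1, res_add (pow_mem h.2.1 3) (one_mem _), res_pow h.2.1,
        res_one])
  else 0

/-- `Q` reduces to the origin. -/
def Zr (O : Pt M) (Q : EP M) : Prop := Q = 0 ∨ yc Q ∉ O.1

/-- `M` is the function field of the curve over `F`, with generic point `P`. -/
structure Gen (F : Type) [Field F] [Algebra F M] (P : EP M) : Prop where
  ne : P ≠ 0
  tr : Transcendental F (xc P)
  gen : IntermediateField.adjoin F {xc P, yc P} = ⊤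

/-- The affine coordinate ring. -/
abbrev crd (F : Type) [Field F] [Algebra F M] (P : EP M) : Subalgebra F M :=
  Algebra.adjoin F {xc P, yc P}

/-- The logarithmic derivative. -/
def dl {k : Type} [Field k] [Algebra k M] (D : Derivation k M M) (Q : EP M) : M :=
  D (xc Q) / yc Q

open Classical in
/-- Local equation of the polar divisor of `y`. -/
def zq (y : M) (O : Pt M) : Mˣ :=
  if h : y ∈ O.1 then 1 else (Units.mk0 y fun h0 => h (h0 ▸ zero_mem _))⁻¹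

open Classical in
/-- Local equation of an exceptional divisor. -/
def eq3 (t : Fin 3 → M) (u : Fin 3 → Fin 3 → M) (O : Pt M) : Mˣ :=
  if h : ∃ i, t i ≠ 0 ∧ (∀ j, t j ∈ mx O) ∧ ∀ j, u i j ∈ O.1 then
    Units.mk0 (t h.choose) h.choose_spec.1 else 1

/-- The generic point. -/
def topPt (M : Type) [Field M] [Algebra ℂ M] : Pt M := vpt ⊤ fun _ => ValuationSubring.mem_top _

/-- Local equations that are units everywhere. -/
def Triv (Y : Set (Pt M)) (f : Pt M → Mˣ) : Prop := ∀ O ∈ Y, IsU O (f O)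

/-- Separatedness. -/
def Sep (Y : Set (Pt M)) : Prop := ∀ O ∈ Y, ∀ O' ∈ Y, ∀ W, Dom O W → Dom O' W → O = O'

/-- Existence of centres. -/
def Proper (Y : Set (Pt M)) : Prop := ∀ ξ ∈ Y, ∀ V : Pl ℂ (RF ξ), ∃ O, (O, V.1) ∈ branch Y ξ

open Classical in
/-- The centre of a place of a curve. -/
def cen (Y : Set (Pt M)) (ξ : Pt M) (V : Pl ℂ (RF ξ)) : Pt M :=
  if h : ∃ O, (O, V.1) ∈ branch Y ξ then h.choose else ξ

/-- The local intersection number. -/
def term (Y : Set (Pt M)) (f : Pt M → Mˣ) (ξ : Pt M) (V : Pl ℂ (RF ξ)) : ℤ :=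
  ord V.1 (res ξ ((f (cen Y ξ V) / f ξ : Mˣ) : M))

/-- Finiteness of the local intersection numbers. -/
def FinT (Y : Set (Pt M)) (f : Pt M → Mˣ) (ξ : Pt M) : Prop :=
  (Function.support (term Y f ξ)).Finite

/-- Transport of local equations. -/
def act {M' : Type} [Field M'] [Algebra ℂ M'] (g : M ≃ₐ[ℂ] M') (f : Pt M → Mˣ) (O : Pt M') : M'ˣ :=
  Units.map (g : M →* M') (f (mapPt g.symm O))

end Points

/-- `V` is the Gauss extension of `W` with respect to `x`. -/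
def IsGauss {F M : Type} [Field F] [Field M] [Algebra F M] (W : ValuationSubring F)
    (V : ValuationSubring M) (x : M) : Prop :=
  (∀ f : F, algebraMap F M f ∈ V ↔ f ∈ W) ∧ x ∈ V ∧
    ∀ p : F[X], (∀ i, p.coeff i ∈ W) → aeval x p ∈ V.nonunits → ∀ i, p.coeff i ∈ W.nonunits

/-- `B` is a Krull domain with the family `𝒲` of discrete valuation rings. -/
structure Krull {F : Type} [Field F] [Algebra ℂ F] (B : Subalgebra ℂ F)
    (𝒲 : Set (ValuationSubring F)) : Prop where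
  frac : ∀ f : F, ∃ a ∈ B, ∃ b ∈ B, b ≠ 0 ∧ f = a / b
  le : ∀ W ∈ 𝒲, ∀ b ∈ B, b ∈ W
  dvr : ∀ W ∈ 𝒲, IsDiscreteValuationRing W
  loc : ∀ W ∈ 𝒲, ∀ f ∈ W, ∃ a ∈ B, ∃ b ∈ B, b⁻¹ ∈ W ∧ f = a / b
  fin : ∀ b ∈ B, b ≠ 0 → {W ∈ 𝒲 | b⁻¹ ∉ W}.Finite
  inter : ∀ f : F, (∀ W ∈ 𝒲, f ∈ W) → f ∈ B

section Cube

variable {L : Type} [Field L] [Algebra ℂ L]

/-- `L` is the function field of `E ^ 3`, with generic point `P`. -/
structure Gen3 (P : Fin 3 → EP L) : Prop where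
  ne : ∀ i, P i ≠ 0
  ind : AlgebraicIndependent ℂ fun i => xc (P i)
  gen : IntermediateField.adjoin ℂ
    (Set.range (fun i => xc (P i)) ∪ Set.range fun i => yc (P i)) = ⊤

/-- The standing hypotheses. -/
structure Cfg (P : Fin 3 → EP L) (σ : L ≃ₐ[ℂ] L) : Prop where
  gen : Gen3 P
  rot : ∀ i, emap (σ : L →ₐ[ℂ] L) (P i) = om • P i

/-- The affine chart. -/
def chartA (P : Fin 3 → EP L) : Subalgebra ℂ L :=
  Algebra.adjoin ℂ (Set.range (fun i => xc (P i)) ∪ Set.range fun i => yc (P i))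

/-- `E ^ 3`. -/
def cubeP (P : Fin 3 → EP L) : Set (Pt L) := cube (fun i => xc (P i)) fun i => yc (P i)
/-- The fixed points. -/
def fixP (P : Fin 3 → EP L) (σ : L ≃ₐ[ℂ] L) : Set (Pt L) :=
  fixedPts (fun i => xc (P i)) (fun i => yc (P i)) σ
/-- The blow-up. -/
def blP (P : Fin 3 → EP L) (σ : L ≃ₐ[ℂ] L) : Set (Pt L) :=
  blowup (fun i => xc (P i)) (fun i => yc (P i)) σ
/-- The invariant field. -/
abbrev KK (σ : L ≃ₐ[ℂ] L) : IntermediateField ℂ L :=
  IntermediateField.fixedField (Subgroup.zpowers σ)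
/-- The Calabi-Yau threefold. -/
def XP (P : Fin 3 → EP L) (σ : L ≃ₐ[ℂ] L) : Set (Pt (KK σ)) :=
  quot (fun i => xc (P i)) (fun i => yc (P i)) σ

/-- The generic point moved so that `p` becomes the origin. -/
def sh (P : Fin 3 → EP L) (p : F3) (i : Fin 3) : EP L := P i - tors L (p i)

/-- `O` lies over the fixed point `p`. -/
def Over (O : Pt L) (P : Fin 3 → EP L) (p : F3) : Prop := ∀ i, yc (sh P p i) ∉ O.1

/-- The ratio `s j / s i` of local coordinates at `p`. -/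
def ur (P : Fin 3 → EP L) (p : F3) (i j : Fin 3) : L := sc (sh P p j) / sc (sh P p i)

/-- The `i`-th chart of the blow-up of the point `Op`. -/
def Bl (Op : Pt L) (P : Fin 3 → EP L) (p : F3) (i : Fin 3) : Subalgebra ℂ L :=
  Algebra.adjoin ℂ ((Op.1 : Set L) ∪ Set.range (ur P p i))

open Classical in
/-- An invariant function, as an element of the invariant field. -/
def toK (σ : L ≃ₐ[ℂ] L) (f : L) : KK σ := if h : f ∈ KK σ then ⟨f, h⟩ else 0

/-- Pull-back of local equations to the blow-up. -/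
def pull (σ : L ≃ₐ[ℂ] L) (f : Pt (KK σ) → (KK σ)ˣ) (O : Pt L) : Lˣ :=
  Units.map ((KK σ).val : KK σ →* L) (f (qpt (KK σ) O))

/-- The divisor with pull-back `3 {ℓ P = τ T}`. -/
def zX (P : Fin 3 → EP L) (σ : L ≃ₐ[ℂ] L) (l : Lam) (τ : ZMod 3) : Pt (KK σ) → (KK σ)ˣ :=
  zq (toK σ (yc (lin l P - tors L τ)))

/-- The exceptional plane over `p`. -/
def eX (P : Fin 3 → EP L) (σ : L ≃ₐ[ℂ] L) (p : F3) : Pt (KK σ) → (KK σ)ˣ :=
  eq3 (fun i => toK σ (tc (sh P p i))) fun i j => toK σ (ur P p i j)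

/-- The quadratic form of a curve. -/
def qX (P : Fin 3 → EP L) (σ : L ≃ₐ[ℂ] L) (η : Curve (XP P σ)) (l : Lam) : ℝ :=
  deg (XP P σ) (zX P σ l 0) η.1

/-- The multiplicities of a curve. -/
def mX (P : Fin 3 → EP L) (σ : L ≃ₐ[ℂ] L) (η : Curve (XP P σ)) (p : F3) : ℝ :=
  deg (XP P σ) (eX P σ p) η.1

/-- The tower `ℂ ⊂ ℂ(E) ⊂ ℂ(E ^ 2) ⊂ L`. -/
structure Tower (P : Fin 3 → EP L) where
  F1 : Type
  F2 : Type
  [f1 : Field F1]
  [f2 : Field F2]
  [a1 : Algebra ℂ F1]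
  [a2 : Algebra ℂ F2]
  [a12 : Algebra F1 F2]
  [a2L : Algebra F2 L]
  [a1L : Algebra F1 L]
  [t12 : IsScalarTower ℂ F1 F2]
  [t2L : IsScalarTower ℂ F2 L]
  [t1L : IsScalarTower ℂ F1 L]
  [t12L : IsScalarTower F1 F2 L]
  P1 : EP F1
  P2 : EP F2
  g1 : Gen ℂ P1
  g2 : Gen F1 P2
  g3 : Gen F2 (P 2)
  e1 : up F1 L P1 = P 0
  e2 : up F2 L P2 = P 1

attribute [instance] Tower.f1 Tower.f2 Tower.a1 Tower.a2 Tower.a12 Tower.a2L Tower.a1L Tower.t12
  Tower.t2L Tower.t1L Tower.t12L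

/-- Prime divisors dominating `E ^ 2`. -/
def Tower.V3 {P : Fin 3 → EP L} (T : Tower P) : Set (ValuationSubring L) :=
  {V | V ≠ ⊤ ∧ ∀ c : T.F2, algebraMap T.F2 L c ∈ V}
/-- Pull-backs of prime divisors of `E ^ 2` dominating `E`. -/
def Tower.V2 {P : Fin 3 → EP L} (T : Tower P) : Set (ValuationSubring L) :=
  {V | ∃ W : Pl T.F1 T.F2, IsGauss W.1 V (xc (P 2))}
/-- Pull-backs of points of `E`. -/
def Tower.V1 {P : Fin 3 → EP L} (T : Tower P) : Set (ValuationSubring L) :=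
  {V | ∃ (W : Pl ℂ T.F1) (W' : ValuationSubring T.F2),
    IsGauss W.1 W' (xc T.P2) ∧ IsGauss W' V (xc (P 2))}
/-- All prime divisors of `E ^ 3`. -/
def Tower.VV {P : Fin 3 → EP L} (T : Tower P) : Set (ValuationSubring L) := T.V3 ∪ T.V2 ∪ T.V1

end Cube

/-! ### The numerical side -/

/-- `ω`-invariant quadratic forms. -/
structure IsQF (q : Lam → ℝ) : Prop where
  par : ∀ a b, q (a + b) + q (a - b) = 2 * q a + 2 * q b
  rot : ∀ a, q (om • a) = q a

/-- Reduction of a matrix. -/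
def gbar (g : GLw) : Matrix (Fin 3) (Fin 3) (ZMod 3) := g.val.map bar

/-- What is known about the numerical data of a curve. -/
structure CurveAx (q : Lam → ℝ) (m : F3 → ℝ) : Prop where
  qf : IsQF q
  nonneg : ∀ l, 0 ≤ q l
  alt : ((∀ l, q l = 0) ∧ ∀ p, m p ≤ 0) ∨
    ((∀ p, 0 ≤ m p) ∧ ((∀ l, q l = 0) → ∀ p, m p = 0) ∧
      ∀ l : Lam, (∃ i, bar (l i) ≠ 0) → ∃ τ₀, ∀ τ, τ ≠ τ₀ ∨ q l ≠ 0 →
        ∑ p with dotb l p = τ, m p ≤ q l)

/-- The numerical data of the threefold. -/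
structure Geo (C : Type) where
  Cart : AddSubgroup (C → ℝ)
  Eff : Set (C → ℝ)
  G : Subgroup (Equiv.Perm C)
  q : C → Lam → ℝ
  m : C → F3 → ℝ
  int : ∀ d ∈ Cart, ∀ c, ∃ n : ℤ, d c = n
  eff_sub : ∀ d ∈ Eff, d ∈ Cart
  G_cart : ∀ g ∈ G, ∀ d ∈ Cart, d ∘ g ∈ Cart
  G_eff : ∀ g ∈ G, ∀ d ∈ Eff, d ∘ g ∈ Eff
  ax : ∀ c, CurveAx (q c) (m c)
  gen : ∀ d ∈ Cart, ∃ (N : ℕ) (n : Fin 6 → ℤ) (l : Fin 6 → Lam) (a : F3 → ℤ), 0 < N ∧
    ∀ c, N * d c = ∑ j, n j * q c (l j) - ∑ p, a p * m c p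
  z_mem : ∀ l, (fun c => q c l) ∈ Cart
  e_mem : ∀ p, (fun c => m c p) ∈ Eff
  s_mem : ∀ (l : Lam) τ, (∃ i, bar (l i) ≠ 0) →
    (fun c => q c l - ∑ p with dotb l p = τ, m c p) ∈ Eff
  aff : ∀ (g : GLw) (b : F3), ∃ γ ∈ G, ∀ c,
    (∀ l, q (γ c) l = q c (vm l g)) ∧ ∀ p, m (γ c) ((gbar g).mulVec p + b) = m c p
  test1 : ∃ c, ∃ κ : ℝ, 0 < κ ∧ (∀ l, q c l = κ * nm (l 0)) ∧
    ∀ p, m c p = if p 1 = 0 ∧ p 2 = 0 then κ else 0
  test2 : ∀ p₀, ∃ c, ∃ κ : ℝ, 0 < κ ∧ (∀ l, q c l = 0) ∧ ∀ p, m c p = if p = p₀ then -κ else 0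
  test3 : ∀ d ∈ Eff, ∃ c, ∃ κ : ℝ, 0 < κ ∧ (∀ l, q c l = κ * nm (l 0)) ∧ (∀ p, m c p = 0) ∧ 0 ≤ d c

/-- Linear functionals on functions of `ℓ`: the Hermitian part of a divisor class. -/
abbrev Herm := (Lam → ℝ) →ₗ[ℝ] ℝ

/-- The test form of the first column of `g`. -/
def tf (g : GLw) (l : Lam) : ℝ := nm (vm l g 0)

/-- Non-negative combinations of integral positive semidefinite forms. -/
def Adm (H : Herm) : Prop :=
  ∃ (n : ℕ) (r : Fin n → ℝ) (Hi : Fin n → Herm), (∀ i, 0 ≤ r i) ∧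
    (∀ q, IsQF q → H q = ∑ i, r i * Hi i q) ∧ ∀ i, (∀ g, 0 ≤ Hi i (tf g)) ∧
      ∀ q, IsQF q → (∀ l, ∃ n : ℤ, q l = n) → ∃ n : ℤ, Hi i q = n

/-- The inequalities given by the test curves. -/
def PP (H : Herm) (a : F3 → ℝ) : Prop :=
  (∀ p, 0 ≤ a p) ∧ ∀ (g : GLw) (b : F3),
    ∑ τ : ZMod 3, a ((gbar g).mulVec (Pi.single 0 τ) + b) ≤ H (tf g)

/-- The functional `∑ c k • ev (f k)`. -/
def Hc {n : ℕ} (f : Fin n → Lam) (c : Fin n → ℝ) : Herm := ∑ k, c k • LinearMap.proj (f k)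

/-- Change of frame. -/
def Herm.fr (H : Herm) (g : GLw) : Herm :=
  H ∘ₗ LinearMap.funLeft ℝ ℝ fun l : Lam => vm l g

/-- Decomposition into abelian surfaces and exceptional planes. -/
def Decomp (H : Herm) (a : F3 → ℝ) : Prop :=
  ∃ (n : ℕ) (y : Fin n → ℝ) (l : Fin n → Lam) (τ : Fin n → ZMod 3), (∀ j, 0 ≤ y j) ∧
    (∀ j, ∃ g : GLw, g.val 2 = l j) ∧
    (∀ q, IsQF q → H q = ∑ j, y j * q (l j)) ∧ ∀ p, a p ≤ ∑ j with dotb (l j) p = τ j, y j

/-- Algebraic interior relative to a subspace. -/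
def Absorb {C : Type} (N : Submodule ℝ (C → ℝ)) (A : Set (C → ℝ)) (x : C → ℝ) : Prop :=
  ∀ v ∈ N, ∃ ε : ℝ, 0 < ε ∧ x + ε • v ∈ A

end

end Pool.Agent.MP_95da86_ag

end

section

/-! Reduction of points modulo the maximal ideal of a local ring. -/

namespace Pool.Agent.MP_95da86_ag

variable {M : Type} [Field M] [Algebra ℂ M] {O : Pt M} {Q Q' : EP M}

theorem Red_aux_zt (O : Pt M) : zt M ∈ O.1 := O.1.algebraMap_mem _

theorem Red_aux_ne (hy : yc Q ≠ 0) : Q ≠ 0 := fun e => hy (by rw [e, yc_zero])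

theorem Red_aux_y0 (hy : yc Q ∉ O.1) : yc Q ≠ 0 := fun e => hy (e ▸ zero_mem _)

theorem Intg.xc_mem (h : Intg O Q) (hy : yc Q ∈ O.1) : xc Q ∈ O.1 := by
  rcases h with h | h
  · exact h.1
  by_cases h0 : yc Q = 0
  · by_cases hQ : Q = 0
    · rw [hQ, xc_zero]
      exact zero_mem _
    have e := eqn_of_ne hQ
    have z := Red_aux_zt O
    have : (xc Q + 1) * (xc Q + zt M) * (xc Q + zt M ^ 2) = 0 := by
      rw [h0] at e
      linear_combination -e + (xc Q ^ 2 + xc Q * zt M) * zt_quad (M := M) + zt_pow (M := M)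
    rcases mul_eq_zero.1 this with a | a
    · rcases mul_eq_zero.1 a with a | a
      · rw [eq_neg_of_add_eq_zero_left a]
        exact neg_mem (one_mem _)
      · rw [eq_neg_of_add_eq_zero_left a]
        exact neg_mem z
    · rw [eq_neg_of_add_eq_zero_left a]
      exact neg_mem (pow_mem z 2)
  · have := mul_mem h.1 hy
    rwa [sc, div_mul_cancel₀ _ h0] at this
/-- `t - t ^ 3 = s ^ 3`. -/
theorem tc_eq (hy : yc Q ≠ 0) : tc Q * (1 - tc Q ^ 2) = sc Q ^ 3 := by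
  have e := eqn_of_ne (Red_aux_ne hy)
  rw [tc, sc]
  field_simp
  linear_combination e
theorem Intg.tc_mem (h : Intg O Q) (hy : yc Q ∉ O.1) : tc Q ∈ mx O := by
  rcases h with h | h
  · exact absurd h.2 hy
  · exact mem_mx.2 ⟨h.2, fun u => hy (by simpa [tc] using u.2.2)⟩
theorem Intg.sc_mem (h : Intg O Q) (hy : yc Q ∉ O.1) : sc Q ∈ mx O := by
  have ht := h.tc_mem hy
  rcases h with h | h
  · exact absurd h.2 hy
  · refine mx_of_pow h.1 (n := 3) ?_
    rw [← tc_eq (Red_aux_y0 hy)]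
    exact mx_mul_right ht (sub_mem (one_mem _) (pow_mem h.2 2))
theorem not_mem_of_tc (h0 : yc Q ≠ 0) (h : tc Q ∈ mx O) : yc Q ∉ O.1 := fun hy =>
  (IsU.inv ⟨h0, hy, mx_sub h⟩).not_mx h
theorem intg_zero : Intg O 0 := Or.inl ⟨zero_mem _, zero_mem _⟩
theorem Intg.mono {O' : Pt M} (h : Intg O Q) (hle : O.1 ≤ O'.1) : Intg O' Q :=
  h.imp (fun a => ⟨hle a.1, hle a.2⟩) fun a => ⟨hle a.1, hle a.2⟩

omit [Algebra ℂ M] in
theorem Red_aux_cube (V : ValuationSubring M) {f : M} (h : f ^ 3 ∈ V) : f ∈ V := by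
  rcases V.mem_or_inv_mem f with a | a
  · exact a
  by_cases h0 : f = 0
  · rw [h0]
    exact zero_mem _
  have := mul_mem h (pow_mem a 2)
  rwa [show f ^ 3 * f⁻¹ ^ 2 = f by field_simp] at this

theorem intg_val (V : ValuationSubring M) (hV) (Q : EP M) : Intg (vpt V hV) Q := by
  by_cases hQ : Q = 0
  · rw [hQ]
    exact intg_zero
  by_cases hy : yc Q ∈ V
  · refine Or.inl ⟨Red_aux_cube V ?_, hy⟩
    rw [show xc Q ^ 3 = yc Q ^ 2 - 1 by linear_combination -eqn_of_ne hQ]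
    exact sub_mem (pow_mem hy 2) (one_mem _)
  · have ht : tc Q ∈ V := (V.mem_or_inv_mem _).resolve_left hy
    refine Or.inr ⟨Red_aux_cube V ?_, ht⟩
    rw [← tc_eq fun e => hy (e ▸ zero_mem _)]
    exact mul_mem ht (sub_mem (one_mem _) (pow_mem ht 2))
theorem intg_cst (c : EP ℂ) : Intg O (cst M c) := by
  refine Or.inl ⟨?_, ?_⟩
  · rw [cst, xc_emap]
    exact O.1.algebraMap_mem _
  · rw [cst, yc_emap]
    exact O.1.algebraMap_mem _
theorem intg_tors (τ : ZMod 3) : Intg O (tors M τ) := by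
  rw [← cst_tors]
  exact intg_cst _
theorem red_zero : red O 0 = 0 := dif_neg fun h => h.1 rfl

theorem Red_aux_eqn {a b : M} (h : b ^ 2 = a ^ 3 + 1) (ha : a ∈ O.1) (hb : b ∈ O.1) :
    res O b ^ 2 = res O a ^ 3 + 1 := by
  rw [← res_pow hb, h, res_add (pow_mem ha 3) (one_mem _), res_pow ha, res_one]

theorem Red_aux_pt {a b : M} (h) (ha : a ∈ O.1) (hb : b ∈ O.1) :
    red O (pt a b h) = pt (res O a) (res O b) (Red_aux_eqn h ha hb) :=
  dif_pos (⟨pt_ne_zero a b h, ha, hb⟩ : pt a b h ≠ 0 ∧ xc (pt a b h) ∈ O.1 ∧ yc (pt a b h) ∈ O.1)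

theorem red_cst (c : EP ℂ) : red O (cst M c) = cst (RF O) c := by
  rcases c.cases with rfl | ⟨a, b, h, rfl⟩
  · rw [map_zero, map_zero, red_zero]
  · rw [cst, cst, emap_pt, emap_pt]
    exact (Red_aux_pt _ (O.1.algebraMap_mem a) (O.1.algebraMap_mem b)).trans
      (pt_congr (res_const O a) (res_const O b))
theorem red_tors (τ : ZMod 3) : red O (tors M τ) = tors (RF O) τ := by
  rw [← cst_tors, red_cst, cst_tors]
theorem red_eq_zero (h : Intg O Q) : red O Q = 0 ↔ Zr O Q := by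
  constructor
  · intro e
    by_contra hz
    rw [Zr, not_or, not_not] at hz
    rw [red, dif_pos ⟨hz.1, h.xc_mem hz.2, hz.2⟩] at e
    exact pt_ne_zero _ _ _ e
  · intro hz
    exact dif_neg fun a => hz.elim a.1 fun b => b a.2.2
theorem xc_red (h : Intg O Q) (hy : yc Q ∈ O.1) : xc (red O Q) = res O (xc Q) := by
  by_cases hQ : Q = 0
  · rw [hQ, red_zero, xc_zero, xc_zero, res_zero]
  · rw [red, dif_pos ⟨hQ, h.xc_mem hy, hy⟩, xc_pt]
theorem yc_red (h : Intg O Q) (hy : yc Q ∈ O.1) : yc (red O Q) = res O (yc Q) := by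
  by_cases hQ : Q = 0
  · rw [hQ, red_zero, yc_zero, yc_zero, res_zero]
  · rw [red, dif_pos ⟨hQ, h.xc_mem hy, hy⟩, yc_pt]

theorem Red_aux_res_eq {f g : M} (hf : f ∈ O.1) (hg : g ∈ O.1) :
    res O f = res O g ↔ f - g ∈ mx O := by
  rw [← res_eq_zero (sub_mem hf hg), res_sub hf hg, sub_eq_zero]

/-- Both points are affine over `O`. -/
theorem Red_aux_aff {a₁ b₁ a₂ b₂ : M} (h₁ h₂) (ha₁ : a₁ ∈ O.1) (hb₁ : b₁ ∈ O.1) (ha₂ : a₂ ∈ O.1)
    (hb₂ : b₂ ∈ O.1) : Intg O (pt a₁ b₁ h₁ + pt a₂ b₂ h₂) ∧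
      red O (pt a₁ b₁ h₁ + pt a₂ b₂ h₂) = red O (pt a₁ b₁ h₁) + red O (pt a₂ b₂ h₂) := by
  rw [Red_aux_pt h₁ ha₁ hb₁, Red_aux_pt h₂ ha₂ hb₂]
  have hq : a₁ ^ 2 + a₁ * a₂ + a₂ ^ 2 ∈ O.1 :=
    add_mem (add_mem (pow_mem ha₁ 2) (mul_mem ha₁ ha₂)) (pow_mem ha₂ 2)
  have rq : res O (a₁ ^ 2 + a₁ * a₂ + a₂ ^ 2) =
      res O a₁ ^ 2 + res O a₁ * res O a₂ + res O a₂ ^ 2 := by
    rw [res_add (add_mem (pow_mem ha₁ 2) (mul_mem ha₁ ha₂)) (pow_mem ha₂ 2),
      res_add (pow_mem ha₁ 2) (mul_mem ha₁ ha₂), res_pow ha₁, res_pow ha₂, res_mul ha₁ ha₂]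
  by_cases hne : a₁ = a₂ ∧ b₁ = -b₂
  · rw [pt_add_neg h₁ h₂ hne.1 hne.2, red_zero,
      pt_add_neg _ _ (by rw [hne.1]) (by rw [hne.2, res_neg hb₂])]
    exact ⟨intg_zero, rfl⟩
  obtain ⟨l, hl₁, hl₂⟩ := exists_slope h₁ h₂ hne
  obtain ⟨h₃, e⟩ := pt_add h₁ h₂ hne l hl₁ hl₂
  rw [e]
  by_cases hr : res O a₁ = res O a₂ ∧ res O b₁ = -res O b₂
  · rw [pt_add_neg _ _ hr.1 hr.2]
    have m1 : a₁ - a₂ ∈ mx O := (Red_aux_res_eq ha₁ ha₂).1 hr.1
    have m2 : b₁ + b₂ ∈ mx O := by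
      rw [← res_eq_zero (add_mem hb₁ hb₂), res_add hb₁ hb₂, hr.2, neg_add_cancel]
    have hu : l ≠ 0 ∧ l⁻¹ ∈ mx O := by
      rcases mx_or_isU (sub_mem hb₁ hb₂) with u | u
      · rcases mx_or_isU hq with v | v
        · exfalso
          have := charZero_of (RF O)
          have e1 := (Red_aux_res_eq hb₁ hb₂).2 u
          have e2 := (res_eq_zero hq).2 v
          have e3 := Red_aux_eqn h₂ ha₂ hb₂
          rw [rq, hr.1] at e2
          have e4 : res O b₂ = 0 := by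
            have : (2 : RF O) * res O b₂ = 0 := by linear_combination hr.2 - e1
            simpa using this
          have e5 : res O a₂ = 0 := by
            have : (3 : RF O) * res O a₂ ^ 2 = 0 := by linear_combination e2
            simpa using this
          simp [e4, e5] at e3
        · have l0 : l ≠ 0 := fun z => v.1 (by rw [← hl₂, z, zero_mul])
          refine ⟨l0, ?_⟩
          have : l⁻¹ = (b₁ + b₂) * (a₁ ^ 2 + a₁ * a₂ + a₂ ^ 2)⁻¹ := by
            rw [eq_mul_inv_iff_mul_eq₀ v.1, ← hl₂, inv_mul_cancel_left₀ l0]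
          rw [this]
          exact mx_mul_right m2 v.2.2
      · have l0 : l ≠ 0 := fun z => u.1 (by rw [← hl₁, z, zero_mul])
        refine ⟨l0, ?_⟩
        have : l⁻¹ = (a₁ - a₂) * (b₁ - b₂)⁻¹ := by
          rw [eq_mul_inv_iff_mul_eq₀ u.1, ← hl₁, inv_mul_cancel_left₀ l0]
        rw [this]
        exact mx_mul_right m1 u.2.2
    obtain ⟨l0, hu⟩ := hu
    have hu' := mx_sub hu
    have hw : IsU O (1 + l⁻¹ * (l⁻¹ * (l⁻¹ * b₁ - (a₁ + a₁ + a₂)))) :=
      (isU_one O).add_mx (mx_mul_right hu (mul_mem hu'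
        (sub_mem (mul_mem hu' hb₁) (add_mem (add_mem ha₁ ha₁) ha₂))))
    set w := 1 + l⁻¹ * (l⁻¹ * (l⁻¹ * b₁ - (a₁ + a₁ + a₂))) with hwdef
    have ey : -(l * (l ^ 2 - a₁ - a₂ - a₁) + b₁) = -(l ^ 3 * w) := by
      rw [hwdef]
      field_simp
      ring
    have w0 := hw.1
    have et : tc (pt _ _ h₃) = -(l⁻¹ * (l⁻¹ ^ 2 * w⁻¹)) := by
      rw [tc, yc_pt, ey]
      field_simp
    have es : sc (pt _ _ h₃) = -(l⁻¹ * ((1 - l⁻¹ ^ 2 * (a₁ + a₂)) * w⁻¹)) := by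
      rw [sc, yc_pt, xc_pt, ey]
      field_simp
      ring
    have mt : tc (pt _ _ h₃) ∈ mx O := by
      rw [et]
      exact mx_neg (mx_mul_right hu (mul_mem (pow_mem hu' 2) hw.2.2))
    have hI : Intg O (pt _ _ h₃) := Or.inr ⟨by
      rw [es]
      exact neg_mem (mul_mem hu' (mul_mem (sub_mem (one_mem _)
        (mul_mem (pow_mem hu' 2) (add_mem ha₁ ha₂))) hw.2.2)), mx_sub mt⟩
    refine ⟨hI, (red_eq_zero hI).2 (Or.inr (not_mem_of_tc ?_ mt))⟩
    rw [yc_pt, ey]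
    exact neg_ne_zero.2 (mul_ne_zero (pow_ne_zero 3 l0) w0)
  · have hl : l ∈ O.1 := by
      rcases mx_or_isU (sub_mem ha₁ ha₂) with u | u
      · rcases mx_or_isU (add_mem hb₁ hb₂) with v | v
        · refine absurd ⟨(Red_aux_res_eq ha₁ ha₂).2 u, ?_⟩ hr
          have := (res_eq_zero (add_mem hb₁ hb₂)).2 v
          rw [res_add hb₁ hb₂] at this
          linear_combination this
        · rw [(eq_mul_inv_iff_mul_eq₀ v.1).2 hl₂]
          exact mul_mem hq v.2.2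
      · rw [(eq_mul_inv_iff_mul_eq₀ u.1).2 hl₁]
        exact mul_mem (sub_mem hb₁ hb₂) u.2.2
    have hx : l ^ 2 - a₁ - a₂ ∈ O.1 := sub_mem (sub_mem (pow_mem hl 2) ha₁) ha₂
    have hy : l * (l ^ 2 - a₁ - a₂ - a₁) + b₁ ∈ O.1 := add_mem (mul_mem hl (sub_mem hx ha₁)) hb₁
    obtain ⟨h₄, e'⟩ := pt_add (Red_aux_eqn h₁ ha₁ hb₁) (Red_aux_eqn h₂ ha₂ hb₂) hr (res O l)
      (by rw [← res_sub ha₁ ha₂, ← res_mul hl (sub_mem ha₁ ha₂), hl₁, res_sub hb₁ hb₂])
      (by rw [← res_add hb₁ hb₂, ← res_mul hl (add_mem hb₁ hb₂), hl₂, rq])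
    have rx : res O (l ^ 2 - a₁ - a₂) = res O l ^ 2 - res O a₁ - res O a₂ := by
      rw [res_sub (sub_mem (pow_mem hl 2) ha₁) ha₂, res_sub (pow_mem hl 2) ha₁, res_pow hl]
    refine ⟨Or.inl ⟨hx, neg_mem hy⟩, ?_⟩
    rw [Red_aux_pt h₃ hx (neg_mem hy), e']
    refine pt_congr rx ?_
    rw [res_neg hy, res_add (mul_mem hl (sub_mem hx ha₁)) hb₁, res_mul hl (sub_mem hx ha₁),
      res_sub hx ha₁, rx]

theorem Red_aux_tT : red O (tT M) = tT (RF O) := by
  rw [← tors_one, red_tors, tors_one]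

theorem Red_aux_T (h : Intg O Q) : Intg O (Q + tT M) ∧ red O (Q + tT M) = red O Q + tT (RF O) := by
  rcases Q.cases with rfl | ⟨a, b, hab, rfl⟩
  · rw [zero_add, red_zero, zero_add]
    exact ⟨tors_one (M := M) ▸ intg_tors 1, Red_aux_tT⟩
  by_cases hy : b ∈ O.1
  · rw [← Red_aux_tT]
    exact Red_aux_aff hab _ (h.xc_mem hy) hy (zero_mem _) (one_mem _)
  have ht : b⁻¹ ∈ mx O := h.tc_mem hy
  have hs : a / b ∈ mx O := h.sc_mem hy
  have b0 : b ≠ 0 := fun e => hy (e ▸ zero_mem _)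
  have b1 : b + 1 ≠ 0 := fun e => hy (by
    rw [eq_neg_of_add_eq_zero_left e]
    exact neg_mem (one_mem _))
  obtain ⟨h', e⟩ := pt_add_tT a b hab b1
  have hu : IsU O (1 + b⁻¹) := (isU_one O).add_mx ht
  have u0 := hu.1
  have m1 : -2 * a / (b + 1) ∈ mx O := by
    rw [show -2 * a / (b + 1) = -((a / b + a / b) * (1 + b⁻¹)⁻¹) by field_simp; ring]
    exact mx_neg (mx_mul_right (mx_add hs hs) hu.2.2)
  have m2 : (b - 3) / (b + 1) - 1 ∈ mx O := by
    rw [show (b - 3) / (b + 1) - 1 = -((b⁻¹ + b⁻¹ + (b⁻¹ + b⁻¹)) * (1 + b⁻¹)⁻¹) by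
      field_simp; ring]
    exact mx_neg (mx_mul_right (mx_add (mx_add ht ht) (mx_add ht ht)) hu.2.2)
  have m3 : (b - 3) / (b + 1) ∈ O.1 := by simpa using add_mem (mx_sub m2) (one_mem O.1)
  rw [e, (red_eq_zero h).2 (Or.inr hy), zero_add, Red_aux_pt h' (mx_sub m1) m3]
  refine ⟨Or.inl ⟨mx_sub m1, m3⟩, pt_congr ((res_eq_zero (mx_sub m1)).2 m1) ?_⟩
  rw [(Red_aux_res_eq m3 (one_mem _)).2 m2, res_one]

theorem Red_aux_tors (h : Intg O Q) (τ : ZMod 3) :
    Intg O (Q + tors M τ) ∧ red O (Q + tors M τ) = red O Q + tors (RF O) τ := by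
  rw [tors, tors]
  induction τ.val with
  | zero => simpa using h
  | succ n ih =>
    rw [succ_nsmul, succ_nsmul, ← add_assoc, ← add_assoc, ← ih.2]
    exact Red_aux_T ih.1

theorem Red_aux_shift (h : Intg O Q) :
    ∃ τ, Q + tors M τ ≠ 0 ∧ xc (Q + tors M τ) ∈ O.1 ∧ yc (Q + tors M τ) ∈ O.1 := by
  have key : ∀ τ, red O Q + tors (RF O) τ ≠ 0 →
      Q + tors M τ ≠ 0 ∧ xc (Q + tors M τ) ∈ O.1 ∧ yc (Q + tors M τ) ∈ O.1 := by
    intro τ hτ
    obtain ⟨a, b⟩ := Red_aux_tors h τ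
    rw [← b, Ne, red_eq_zero a, Zr, not_or, not_not] at hτ
    exact ⟨hτ.1, a.xc_mem hτ.2, hτ.2⟩
  by_cases h0 : red O Q = 0
  · refine ⟨1, key 1 ?_⟩
    rw [h0, zero_add, tors_one]
    exact pt_ne_zero _ _ _
  · exact ⟨0, key 0 (by simpa using h0)⟩

/-- The main lemma. Both points affine over `O`: the slope is `(b₁ - b₂) / (a₁ - a₂) =
(a₁ ^ 2 + a₁ a₂ + a₂ ^ 2) / (b₁ + b₂)` and one of the four elements is a unit, so `l ∈ O` or
`1 / l ∈ mx O`. In general translate by multiples of `T`, a linear map `(X : Y : Z) ↦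
(-2 X : Y - 3 Z : Y + Z)` (`pt_add_tT`), to make both points affine. -/
theorem Intg.add_red (h : Intg O Q) (h' : Intg O Q') :
    Intg O (Q + Q') ∧ red O (Q + Q') = red O Q + red O Q' := by
  obtain ⟨τ, a1, a2, a3⟩ := Red_aux_shift h
  obtain ⟨σ, b1, b2, b3⟩ := Red_aux_shift h'
  have k := Red_aux_aff (eqn_of_ne a1) (eqn_of_ne b1) a2 a3 b2 b3
  rw [pt_xc_yc a1, pt_xc_yc b1, (Red_aux_tors h τ).2, (Red_aux_tors h' σ).2] at k
  have k' := Red_aux_tors k.1 (-(τ + σ))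
  rw [k.2, tors_neg, tors_neg, tors_add, tors_add,
    show Q + tors M τ + (Q' + tors M σ) + -(tors M τ + tors M σ) = Q + Q' by abel] at k'
  exact ⟨k'.1, k'.2.trans (by abel)⟩

theorem Intg.add (h : Intg O Q) (h' : Intg O Q') : Intg O (Q + Q') := (h.add_red h').1
theorem Intg.neg (h : Intg O Q) : Intg O (-Q) := by
  refine h.imp (fun a => ?_) fun a => ?_
  · rw [xc_neg, yc_neg]
    exact ⟨a.1, neg_mem a.2⟩
  · rw [sc, tc, xc_neg, yc_neg, div_neg, inv_neg]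
    exact ⟨neg_mem a.1, neg_mem a.2⟩
theorem Intg.sub (h : Intg O Q) (h' : Intg O Q') : Intg O (Q - Q') := by
  rw [sub_eq_add_neg]
  exact h.add h'.neg

theorem Red_aux_rot (h : Intg O Q) : Intg O (rot Q) ∧ red O (rot Q) = rot (red O Q) := by
  have z := Red_aux_zt O
  have hI : Intg O (rot Q) := by
    rw [← om_smul]
    refine h.imp (fun a => ?_) fun a => ?_
    · rw [xc_om, yc_om]
      exact ⟨mul_mem z a.1, a.2⟩
    · rw [sc, tc, xc_om, yc_om, mul_div_assoc]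
      exact ⟨mul_mem z a.1, a.2⟩
  refine ⟨hI, ?_⟩
  rcases Q.cases with rfl | ⟨a, b, hab, rfl⟩
  · rw [map_zero, red_zero, map_zero]
  by_cases hy : b ∈ O.1
  · have hx : a ∈ O.1 := h.xc_mem hy
    rw [rot_pt, Red_aux_pt _ (mul_mem z hx) hy, Red_aux_pt _ hx hy, rot_pt]
    refine pt_congr ?_ rfl
    rw [res_mul z hx, zt, res_const, zt]
  · rw [(red_eq_zero h).2 (Or.inr hy), map_zero]
    exact (red_eq_zero hI).2 (Or.inr hy)

theorem Red_aux_neg (h : Intg O Q) : red O (-Q) = -red O Q := by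
  have := (h.add_red h.neg).2
  rw [add_neg_cancel, red_zero] at this
  exact eq_neg_of_add_eq_zero_right this.symm

theorem Red_aux_zsmul (h : Intg O Q) (n : ℤ) : Intg O (n • Q) ∧ red O (n • Q) = n • red O Q := by
  induction n using Int.induction_on with
  | zero => rw [zero_smul, zero_smul]; exact ⟨intg_zero, red_zero⟩
  | succ n ih =>
    rw [add_smul, add_smul, one_smul, one_smul, ← ih.2]
    exact ih.1.add_red h
  | pred n ih =>
    rw [sub_smul, sub_smul, one_smul, one_smul, ← ih.2, sub_eq_add_neg, sub_eq_add_neg,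
      ← Red_aux_neg h]
    exact ih.1.add_red h.neg

theorem Red_aux_smul (h : Intg O Q) (a : Zw) : Intg O (a • Q) ∧ red O (a • Q) = a • red O Q := by
  have r := Red_aux_rot h
  have a1 := Red_aux_zsmul h a.re
  have a2 := Red_aux_zsmul r.1 a.im
  rw [zw_smul_def, zw_smul_def, ← r.2, ← a1.2, ← a2.2]
  exact a1.1.add_red a2.1

theorem Intg.smul (h : Intg O Q) (a : Zw) : Intg O (a • Q) := (Red_aux_smul h a).1
theorem intg_lin {P : Fin 3 → EP M} (h : ∀ i, Intg O (P i)) (l : Lam) : Intg O (lin l P) := by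
  rw [lin, Fin.sum_univ_three]
  exact (((h 0).smul _).add ((h 1).smul _)).add ((h 2).smul _)
theorem red_add (h : Intg O Q) (h' : Intg O Q') : red O (Q + Q') = red O Q + red O Q' :=
  (h.add_red h').2
theorem red_neg (h : Intg O Q) : red O (-Q) = -red O Q := Red_aux_neg h
theorem red_sub (h : Intg O Q) (h' : Intg O Q') : red O (Q - Q') = red O Q - red O Q' := by
  rw [sub_eq_add_neg, red_add h h'.neg, red_neg h', sub_eq_add_neg]
theorem red_smul (h : Intg O Q) (a : Zw) : red O (a • Q) = a • red O Q := (Red_aux_smul h a).2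
theorem red_lin {P : Fin 3 → EP M} (h : ∀ i, Intg O (P i)) (l : Lam) :
    red O (lin l P) = lin l fun i => red O (P i) := by
  rw [lin, lin, Fin.sum_univ_three, Fin.sum_univ_three,
    red_add (((h 0).smul _).add ((h 1).smul _)) ((h 2).smul _),
    red_add ((h 0).smul _) ((h 1).smul _), red_smul (h 0), red_smul (h 1), red_smul (h 2)]

theorem exists_shift (h : Intg O Q) :
    ∃ τ, Q + tors M τ ≠ 0 ∧ xc (Q + tors M τ) ∈ O.1 ∧ yc (Q + tors M τ) ∈ O.1 := Red_aux_shift h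
theorem Intg.yc_mem_dom {W : Pt M} (h : Intg O Q) (hd : Dom O W) : yc Q ∈ O.1 ↔ yc Q ∈ W.1 :=
  ⟨fun a => hd.1 a, fun a => by_contra fun b =>
    not_mem_of_tc (Red_aux_y0 b) (hd.2 (h.tc_mem b)) a⟩

/-- Reduction in stages. -/
theorem Intg.yc_mem_branch {ξ : Pt M} (h : Intg O Q) (hle : O.1 ≤ ξ.1)
    (V : ValuationSubring (RF ξ)) (h1 : ∀ g ∈ O.1, res ξ g ∈ V)
    (h2 : ∀ g ∈ mx O, res ξ g ∈ V.nonunits) (hy : yc Q ∈ ξ.1) :
    yc Q ∈ O.1 ↔ res ξ (yc Q) ∈ V := by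
  refine ⟨h1 _, fun a => by_contra fun b => ?_⟩
  have ht := h.tc_mem b
  have hu : IsU ξ (yc Q) := ⟨Red_aux_y0 b, hy, hle (mx_sub ht)⟩
  have := h2 _ ht
  rw [tc, res_inv hu, ValuationSubring.mem_nonunits_iff_or, inv_inv] at this
  exact this.elim (inv_ne_zero hu.res_ne) fun c => c a

theorem intg_mapPt {M' : Type} [Field M'] [Algebra ℂ M'] (g : M ≃ₐ[ℂ] M') :
    Intg (mapPt g O) (emap (g : M →ₐ[ℂ] M') Q) ↔ Intg O Q := by
  simp [Intg, sc, tc, mem_mapPt]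

theorem up_eq_cst (c : EP ℂ) : up ℂ M c = cst M c := by
  rw [up, cst]
  congr 2

/-- Points with coordinates in a subfield. -/
theorem exists_up {F : Type} [Field F] [Algebra ℂ F] [Algebra F M] [IsScalarTower ℂ F M]
    (hx : xc Q ∈ (algebraMap F M).range) (hy : yc Q ∈ (algebraMap F M).range) :
    ∃ c : EP F, Q = up F M c := by
  rcases Q.cases with rfl | ⟨a, b, h, rfl⟩
  · exact ⟨0, (map_zero _).symm⟩
  obtain ⟨a', rfl⟩ : ∃ a', algebraMap F M a' = a := hx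
  obtain ⟨b', rfl⟩ : ∃ b', algebraMap F M b' = b := hy
  exact ⟨pt a' b' ((algebraMap F M).injective (by simpa using h)), rfl⟩

end Pool.Agent.MP_95da86_ag

end

section

/-! Dirichlet domains (after Looijenga). -/

namespace Pool.Agent.MP_95da86_ag

theorem Wt_aux_sep {C : Type} (m : ℕ) : ∀ V : Submodule ℝ (C → ℝ), FiniteDimensional ℝ V →
    Module.finrank ℝ V ≤ m → ∃ S : Finset C, ∀ v ∈ V, (∀ c ∈ S, v c = 0) → v = 0 := by
  classical
  induction m with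
  | zero =>
    intro V hV h
    refine ⟨∅, fun v hv _ => ?_⟩
    have h0 : V = ⊥ := Submodule.finrank_eq_zero.1 (Nat.le_zero.1 h)
    rw [h0] at hv
    exact (Submodule.mem_bot ℝ).1 hv
  | succ m ih =>
    intro V hV h
    by_cases h0 : ∀ v ∈ V, v = 0
    · exact ⟨∅, fun v hv _ => h0 v hv⟩
    push Not at h0
    obtain ⟨v0, hv0, hne⟩ := h0
    obtain ⟨c0, hc0⟩ : ∃ c0, v0 c0 ≠ 0 := Function.ne_iff.1 hne
    let V' : Submodule ℝ (C → ℝ) := V ⊓ LinearMap.ker (LinearMap.proj c0 : (C → ℝ) →ₗ[ℝ] ℝ)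
    have hlt : V' < V := by
      refine lt_of_le_of_ne inf_le_left fun he => hc0 ?_
      have : v0 ∈ V' := he ▸ hv0
      exact this.2
    have hfd : FiniteDimensional ℝ V' := Submodule.finiteDimensional_of_le hlt.le
    have hr : Module.finrank ℝ V' < Module.finrank ℝ V := Submodule.finrank_lt_finrank_of_lt hlt
    obtain ⟨S, hS⟩ := ih V' hfd (by omega)
    refine ⟨insert c0 S, fun v hv hz => hS v ⟨hv, hz c0 (Finset.mem_insert_self _ _)⟩ ?_⟩
    exact fun c hc => hz c (Finset.mem_insert_of_mem hc)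

theorem Wt_aux_digits {n N : ℕ} (a b : Fin n → ℕ) (hb : 2 * ∑ k, b k < N)
    (h : ∑ k : Fin n, (N ^ n + N ^ (k : ℕ)) * a k = ∑ k : Fin n, (N ^ n + N ^ (k : ℕ)) * b k) :
    a = b := by
  have hN : 0 < N := by omega
  have hP : 0 < N ^ n := pow_pos hN n
  have hle : ∀ k : Fin n, N ^ (k : ℕ) ≤ N ^ n := fun k => Nat.pow_le_pow_right hN k.2.le
  have hR : ∑ k : Fin n, (N ^ n + N ^ (k : ℕ)) * b k ≤ N ^ n * (2 * ∑ k, b k) := by
    rw [Finset.mul_sum, Finset.mul_sum]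
    refine Finset.sum_le_sum fun k _ => ?_
    have := hle k
    nlinarith [Nat.zero_le (b k)]
  have ha : ∀ j, a j < N := by
    intro j
    have h1 : (N ^ n + N ^ (j : ℕ)) * a j ≤ ∑ k : Fin n, (N ^ n + N ^ (k : ℕ)) * a k :=
      Finset.single_le_sum (f := fun k : Fin n => (N ^ n + N ^ (k : ℕ)) * a k)
        (fun _ _ => Nat.zero_le _) (Finset.mem_univ j)
    have h2 : N ^ n * a j ≤ N ^ n * (2 * ∑ k, b k) := by
      have : N ^ n * a j ≤ (N ^ n + N ^ (j : ℕ)) * a j :=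
        Nat.mul_le_mul_right _ (Nat.le_add_right _ _)
      omega
    have := Nat.le_of_mul_le_mul_left h2 hP
    omega
  have hb' : ∀ j, b j < N := by
    intro j
    have h1 : b j ≤ ∑ k, b k :=
      Finset.single_le_sum (f := b) (fun _ _ => Nat.zero_le _) (Finset.mem_univ j)
    omega
  let a' : Fin n → Fin N := fun k => ⟨a k, ha k⟩
  let b' : Fin n → Fin N := fun k => ⟨b k, hb' k⟩
  have key : ∀ (x : Fin n → ℕ) (x' : Fin n → Fin N), (∀ k, (x' k : ℕ) = x k) →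
      (∑ k : Fin n, (N ^ n + N ^ (k : ℕ)) * x k) % N ^ n = (finFunctionFinEquiv x' : ℕ) := by
    intro x x' hx
    have e1 : ∑ k : Fin n, (N ^ n + N ^ (k : ℕ)) * x k
        = (finFunctionFinEquiv x' : ℕ) + N ^ n * ∑ k, x k := by
      rw [finFunctionFinEquiv_apply, Finset.mul_sum, ← Finset.sum_add_distrib]
      refine Finset.sum_congr rfl fun k _ => ?_
      rw [hx k]
      ring
    rw [e1, Nat.add_mul_mod_self_left, Nat.mod_eq_of_lt (finFunctionFinEquiv x').2]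
  have e : (finFunctionFinEquiv a' : ℕ) = finFunctionFinEquiv b' := by
    rw [← key a a' (fun _ => rfl), ← key b b' (fun _ => rfl), h]
  have e2 : a' = b' := finFunctionFinEquiv.injective (Fin.ext e)
  funext k
  exact congrArg Fin.val (congrFun e2 k)

/-- A positive integral functional with trivial stabiliser. Choose finitely many `c k` separating
the points of the span of `U`. For weights in `[1, 2]` a `g` fixing `ξ w = ∑ w k • ev (c k)` sends
each `u ∈ U` into the finite set of non-negative elements of `Cart` with bounded values at the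
`c k`, so only finitely many maps occur; each non-trivial one excludes the roots of a non-zero
polynomial for `w k = 1 + t ^ (k + 1)`, `t = 1 / n`; clear denominators. -/
theorem exists_weights {C : Type} (Cart : AddSubgroup (C → ℝ))
    (hint : ∀ d ∈ Cart, ∀ c, ∃ n : ℤ, d c = n) (G : Subgroup (Equiv.Perm C))
    (hG : ∀ g ∈ G, ∀ d ∈ Cart, d ∘ g ∈ Cart) (U : Finset (C → ℝ)) (hU : ∀ u ∈ U, u ∈ Cart)
    (hU0 : ∀ u ∈ U, ∀ c, 0 ≤ u c)
    (hspan : ∀ d ∈ Cart, d ∈ Submodule.span ℝ (U : Set (C → ℝ))) :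
    ∃ (n : ℕ) (c : Fin n → C) (w : Fin n → ℕ), ∀ g ∈ G,
      (∀ u ∈ U, ∑ k, w k * u (g (c k)) = ∑ k, w k * u (c k)) → ∀ u ∈ U, u ∘ g = u := by
  classical
  let V : Submodule ℝ (C → ℝ) := Submodule.span ℝ (U : Set (C → ℝ))
  have hfd : FiniteDimensional ℝ V := FiniteDimensional.span_finset ℝ U
  obtain ⟨S, hS⟩ := Wt_aux_sep _ V hfd le_rfl
  have hnat : ∀ u ∈ U, ∀ x, ∃ m : ℕ, u x = m := by
    intro u hu x
    obtain ⟨z, hz⟩ := hint u (hU u hu) x
    have h0 : (0 : ℝ) ≤ z := hz ▸ hU0 u hu x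
    have h1 : 0 ≤ z := by exact_mod_cast h0
    refine ⟨z.toNat, ?_⟩
    rw [hz]
    exact_mod_cast (Int.toNat_of_nonneg h1).symm
  let val : (C → ℝ) → C → ℕ := fun u x => ⌊u x⌋₊
  have hval : ∀ u ∈ U, ∀ x, (val u x : ℝ) = u x := by
    intro u hu x
    obtain ⟨m, hm⟩ := hnat u hu x
    simp only [val, hm, Nat.floor_natCast]
  let n := S.card
  let c : Fin n → C := fun k => (S.equivFin.symm k : C)
  let N : ℕ := ∑ u ∈ U, 2 * ∑ k, val u (c k) + 1
  refine ⟨n, c, fun k => N ^ n + N ^ (k : ℕ), fun g hg h u hu => ?_⟩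
  have hb : 2 * ∑ k, val u (c k) < N :=
    Nat.lt_succ_of_le (Finset.single_le_sum (f := fun u => 2 * ∑ k, val u (c k))
      (fun _ _ => Nat.zero_le _) hu)
  have h1 : ∑ k : Fin n, (N ^ n + N ^ (k : ℕ)) * val u (g (c k))
      = ∑ k : Fin n, (N ^ n + N ^ (k : ℕ)) * val u (c k) := by
    have h2 := h u hu
    have h3 : ((∑ k : Fin n, (N ^ n + N ^ (k : ℕ)) * val u (g (c k)) : ℕ) : ℝ)
        = ((∑ k : Fin n, (N ^ n + N ^ (k : ℕ)) * val u (c k) : ℕ) : ℝ) := by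
      rw [Nat.cast_sum, Nat.cast_sum]
      simp only [Nat.cast_mul, hval u hu]
      exact h2
    exact_mod_cast h3
  have h4 := Wt_aux_digits (fun k => val u (g (c k))) (fun k => val u (c k)) hb h1
  have hmem : u ∘ g - u ∈ V :=
    V.sub_mem (hspan _ (hG g hg u (hU u hu))) (hspan _ (hU u hu))
  have h5 : u ∘ g - u = 0 := by
    refine hS _ hmem fun x hx => ?_
    have h6 := congrFun h4 (S.equivFin ⟨x, hx⟩)
    simp only [c, Equiv.symm_apply_apply] at h6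
    have h7 : u (g x) = u x := by rw [← hval u hu, ← hval u hu x, h6]
    simp [h7]
  exact sub_eq_zero.1 h5

end Pool.Agent.MP_95da86_ag

end

section

/-! Dirichlet domains (after Looijenga). -/

namespace Pool.Agent.MP_95da86_ag

lemma DD_aux_smul {V : Type} [AddCommGroup V] [Module ℝ V] (K : Submodule NNReal V) {c : ℝ}
    (hc : 0 ≤ c) {x : V} (hx : x ∈ K) : c • x ∈ K :=
  K.smul_mem (⟨c, hc⟩ : NNReal) hx

lemma DD_aux_nonneg {V : Type} [AddCommGroup V] [Module ℝ V] (T : Set V) (φ : V →ₗ[ℝ] ℝ)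
    (hT : ∀ x ∈ T, 0 ≤ φ x) {x : V} (hx : x ∈ Submodule.span NNReal T) : 0 ≤ φ x := by
  induction hx using Submodule.span_induction with
  | mem x hx => exact hT x hx
  | zero => simp
  | add x y _ _ hx hy => rw [map_add]; exact add_nonneg hx hy
  | smul c x _ hx =>
    rw [NNReal.smul_def, map_smul, smul_eq_mul]; exact mul_nonneg c.2 hx

lemma DD_aux_neg {V : Type} [AddCommGroup V] [Module ℝ V] (T : Set V) (φ : V →ₗ[ℝ] ℝ)
    (hT : ∀ x ∈ T, φ x < 0) {x : V} (hx : x ∈ Submodule.span NNReal T) : x = 0 ∨ φ x < 0 := by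
  induction hx using Submodule.span_induction with
  | mem x hx => exact Or.inr (hT x hx)
  | zero => exact Or.inl rfl
  | add x y _ _ hx hy =>
    rcases hx with rfl | hx
    · simpa using hy
    · rcases hy with rfl | hy
      · right; simpa using hx
      · right; rw [map_add]; linarith
  | smul c x _ hx =>
    rcases hx with rfl | hx
    · left; simp
    · rcases eq_or_lt_of_le c.2 with hc | hc
      · left
        rw [NNReal.smul_def, show (c : ℝ) = 0 from hc.symm, zero_smul]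
      · right
        rw [NNReal.smul_def, map_smul, smul_eq_mul]
        exact mul_neg_of_pos_of_neg hc hx

lemma DD_aux_bil {V : Type} [AddCommGroup V] [Module ℝ V] (A B : Set V) (φ : V →ₗ[ℝ] ℝ)
    (K : Submodule NNReal V) (h : ∀ g ∈ A, ∀ k ∈ B, φ g • k - φ k • g ∈ K) {p n : V}
    (hp : p ∈ Submodule.span NNReal A) (hn : n ∈ Submodule.span NNReal B) :
    φ p • n - φ n • p ∈ K := by
  induction hp using Submodule.span_induction with
  | mem g hg =>
    induction hn using Submodule.span_induction with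
    | mem k hk => exact h g hg k hk
    | zero => simp
    | add x y _ _ hx hy =>
      have : φ g • (x + y) - φ (x + y) • g = (φ g • x - φ x • g) + (φ g • y - φ y • g) := by
        rw [map_add]; module
      rw [this]; exact K.add_mem hx hy
    | smul c x _ hx =>
      have : φ g • (c • x) - φ (c • x) • g = (c : ℝ) • (φ g • x - φ x • g) := by
        rw [NNReal.smul_def, map_smul, smul_eq_mul]; module
      rw [this]; exact DD_aux_smul K c.2 hx
  | zero => simp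
  | add x y _ _ hx hy =>
    have : φ (x + y) • n - φ n • (x + y) = (φ x • n - φ n • x) + (φ y • n - φ n • y) := by
      rw [map_add]; module
    rw [this]; exact K.add_mem hx hy
  | smul c x _ hx =>
    have : φ (c • x) • n - φ n • (c • x) = (c : ℝ) • (φ x • n - φ n • x) := by
      rw [NNReal.smul_def, map_smul, smul_eq_mul]; module
    rw [this]; exact DD_aux_smul K c.2 hx

/-- Double description: cutting a finitely generated cone by a half-space. The new generators are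
the old ones with `φ ≥ 0` and the `φ g • h - φ h • g` with `φ g > 0 > φ h`. -/
theorem dd_step {V : Type} [AddCommGroup V] [Module ℝ V] (Λ : AddSubgroup V) (S : Finset V)
    (hS : ∀ x ∈ S, x ∈ Λ) (φ : V →ₗ[ℝ] ℝ) (hφ : ∀ x ∈ Λ, ∃ n : ℤ, φ x = n) :
    ∃ S' : Finset V, (∀ x ∈ S', x ∈ Λ) ∧ ∀ x, x ∈ Submodule.span NNReal (S' : Set V) ↔
      x ∈ Submodule.span NNReal (S : Set V) ∧ 0 ≤ φ x := by
  classical
  let A : Finset V := S.filter fun x => 0 ≤ φ x
  let B : Finset V := S.filter fun x => φ x < 0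
  let C : Finset V := (A ×ˢ B).image fun z => φ z.1 • z.2 - φ z.2 • z.1
  have hA : ∀ x, x ∈ A ↔ x ∈ S ∧ 0 ≤ φ x := fun x => Finset.mem_filter
  have hB : ∀ x, x ∈ B ↔ x ∈ S ∧ φ x < 0 := fun x => Finset.mem_filter
  have hC : ∀ x, x ∈ C ↔ ∃ g ∈ A, ∃ k ∈ B, x = φ g • k - φ k • g := by
    intro x
    simp only [C, Finset.mem_image, Finset.mem_product]
    constructor
    · rintro ⟨z, ⟨h1, h2⟩, rfl⟩; exact ⟨z.1, h1, z.2, h2, rfl⟩
    · rintro ⟨g, h1, k, h2, rfl⟩; exact ⟨(g, k), ⟨h1, h2⟩, rfl⟩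
  refine ⟨A ∪ C, ?_, fun x => ⟨fun hx => ⟨?_, ?_⟩, ?_⟩⟩
  · intro x hx
    rcases Finset.mem_union.1 hx with hx | hx
    · exact hS x ((hA x).1 hx).1
    · obtain ⟨g, hg, k, hk, rfl⟩ := (hC x).1 hx
      have hg' := hS g ((hA g).1 hg).1
      have hk' := hS k ((hB k).1 hk).1
      obtain ⟨a, ha⟩ := hφ g hg'
      obtain ⟨b, hb⟩ := hφ k hk'
      rw [ha, hb, Int.cast_smul_eq_zsmul, Int.cast_smul_eq_zsmul]
      exact Λ.sub_mem (Λ.zsmul_mem hk' a) (Λ.zsmul_mem hg' b)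
  · refine (Submodule.span_le.2 ?_ : _ ≤ Submodule.span NNReal (S : Set V)) hx
    intro y hy
    rcases Finset.mem_union.1 (Finset.mem_coe.1 hy) with hy | hy
    · exact Submodule.subset_span ((hA y).1 hy).1
    · obtain ⟨g, hg, k, hk, rfl⟩ := (hC y).1 hy
      have : φ g • k - φ k • g = φ g • k + (-φ k) • g := by module
      rw [this]
      exact Submodule.add_mem _
        (DD_aux_smul _ ((hA g).1 hg).2 (Submodule.subset_span ((hB k).1 hk).1))
        (DD_aux_smul _ (neg_nonneg.2 ((hB k).1 hk).2.le) (Submodule.subset_span ((hA g).1 hg).1))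
  · refine DD_aux_nonneg _ φ ?_ hx
    intro y hy
    rcases Finset.mem_union.1 (Finset.mem_coe.1 hy) with hy | hy
    · exact ((hA y).1 hy).2
    · obtain ⟨g, hg, k, hk, rfl⟩ := (hC y).1 hy
      rw [map_sub, map_smul, map_smul, smul_eq_mul, smul_eq_mul, mul_comm, sub_self]
  · rintro ⟨hx, h0⟩
    have hSAB : (S : Set V) = (A : Set V) ∪ (B : Set V) := by
      ext y
      simp only [Set.mem_union, Finset.mem_coe, hA, hB]
      constructor
      · intro hy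
        rcases le_or_gt 0 (φ y) with h | h
        · exact Or.inl ⟨hy, h⟩
        · exact Or.inr ⟨hy, h⟩
      · rintro (h | h) <;> exact h.1
    rw [hSAB, Submodule.span_union, Submodule.mem_sup] at hx
    obtain ⟨p, hp, n, hn, rfl⟩ := hx
    have hpK : p ∈ Submodule.span NNReal ((A ∪ C : Finset V) : Set V) :=
      Submodule.span_mono (by intro y hy; simp only [Finset.coe_union, Set.mem_union]; exact Or.inl hy) hp
    have hb : φ p • n - φ n • p ∈ Submodule.span NNReal ((A ∪ C : Finset V) : Set V) := by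
      refine DD_aux_bil _ _ φ _ ?_ hp hn
      intro g hg k hk
      refine Submodule.subset_span ?_
      simp only [Finset.coe_union, Set.mem_union, Finset.mem_coe]
      exact Or.inr ((hC _).2 ⟨g, hg, k, hk, rfl⟩)
    rcases DD_aux_neg _ φ (fun y hy => ((hB y).1 hy).2) hn with rfl | hneg
    · simpa using hpK
    · rw [map_add] at h0
      have hpos : 0 < φ p := by linarith
      have : p + n = (φ p)⁻¹ • (φ p • n - φ n • p) + ((φ p + φ n) / φ p) • p := by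
        have e1 : (φ p)⁻¹ * φ p = 1 := inv_mul_cancel₀ hpos.ne'
        have e2 : (φ p + φ n) / φ p = 1 + (φ p)⁻¹ * φ n := by field_simp
        rw [smul_sub, smul_smul, smul_smul, e1, e2]; module
      rw [this]
      exact Submodule.add_mem _ (DD_aux_smul _ (inv_nonneg.2 hpos.le) hb)
        (DD_aux_smul _ (div_nonneg h0 hpos.le) hpK)

lemma DD_aux_fin {V ι : Type} [AddCommGroup V] [Module ℝ V] (Λ : AddSubgroup V)
    (S : Finset V) (hS : ∀ x ∈ S, x ∈ Λ) (φ : ι → V →ₗ[ℝ] ℝ) (hφ : ∀ i, ∀ x ∈ Λ, ∃ n : ℤ, φ i x = n)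
    (I : Finset ι) :
    ∃ S' : Finset V, (∀ x ∈ S', x ∈ Λ) ∧ ∀ x, x ∈ Submodule.span NNReal (S' : Set V) ↔
      x ∈ Submodule.span NNReal (S : Set V) ∧ ∀ i ∈ I, 0 ≤ φ i x := by
  classical
  induction I using Finset.induction_on with
  | empty => exact ⟨S, hS, fun x => by simp⟩
  | insert j I _ ih =>
    obtain ⟨S₁, h1, h2⟩ := ih
    obtain ⟨S₂, h3, h4⟩ := dd_step Λ S₁ h1 (φ j) (hφ j)
    refine ⟨S₂, h3, fun x => ?_⟩
    rw [h4, h2, Finset.forall_mem_insert]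
    tauto

theorem dd_fin {V ι : Type} [AddCommGroup V] [Module ℝ V] [Finite ι] (Λ : AddSubgroup V)
    (S : Finset V) (hS : ∀ x ∈ S, x ∈ Λ) (φ : ι → V →ₗ[ℝ] ℝ) (hφ : ∀ i, ∀ x ∈ Λ, ∃ n : ℤ, φ i x = n) :
    ∃ S' : Finset V, (∀ x ∈ S', x ∈ Λ) ∧ ∀ x, x ∈ Submodule.span NNReal (S' : Set V) ↔
      x ∈ Submodule.span NNReal (S : Set V) ∧ ∀ i, 0 ≤ φ i x := by
  have := Fintype.ofFinite ι
  obtain ⟨S', h1, h2⟩ := DD_aux_fin Λ S hS φ hφ Finset.univ
  exact ⟨S', h1, fun x => by rw [h2]; simp⟩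

end Pool.Agent.MP_95da86_ag

end

section

/-! Dirichlet domains (after Looijenga). -/

namespace Pool.Agent.MP_95da86_ag

lemma Dir_aux_dickson {X ι : Type} [Finite ι] (P : X → Prop) (v : X → ι → ℕ) :
    ∃ T : Finset X, (∀ t ∈ T, P t) ∧ ∀ g, P g → ∃ t ∈ T, v t ≤ v g := by
  classical
  have hf := WellQuasiOrderedLE.finite_of_isAntichain
    (setOfPred_minimal_antichain (fun a : ι → ℕ => ∃ g, P g ∧ v g = a))
  have hex : ∀ a : hf.toFinset, ∃ g, P g ∧ v g = a := fun a => (hf.mem_toFinset.1 a.2).1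
  choose f hf1 hf2 using hex
  refine ⟨Finset.univ.image f, fun t ht => ?_, fun g hg => ?_⟩
  · obtain ⟨a, -, rfl⟩ := Finset.mem_image.1 ht
    exact hf1 a
  · obtain ⟨b, hb, hm⟩ := exists_minimal_le_of_wellFoundedLT
      (fun a : ι → ℕ => ∃ g, P g ∧ v g = a) (v g) ⟨g, hg, rfl⟩
    exact ⟨f ⟨b, hf.mem_toFinset.2 hm⟩, Finset.mem_image_of_mem _ (Finset.mem_univ _),
      by rw [hf2]; exact hb⟩

lemma Dir_aux_nonneg {V : Type} [AddCommGroup V] [Module ℝ V] (φ : V →ₗ[ℝ] ℝ) {S : Set V}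
    (h : ∀ s ∈ S, 0 ≤ φ s) {x : V} (hx : x ∈ Submodule.span NNReal S) : 0 ≤ φ x := by
  induction hx using Submodule.span_induction with
  | mem s hs => exact h s hs
  | zero => simp
  | add a b _ _ ha hb => rw [map_add]; exact add_nonneg ha hb
  | smul a b _ hb =>
    rw [NNReal.smul_def, map_smul]
    exact mul_nonneg a.2 hb

lemma Dir_aux_comp {C : Type} (g : C → C) {S S' : Set (C → ℝ)} (h : ∀ s ∈ S, s ∘ g ∈ S')
    {x : C → ℝ} (hx : x ∈ Submodule.span NNReal S) : x ∘ g ∈ Submodule.span NNReal S' := by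
  induction hx using Submodule.span_induction with
  | mem s hs => exact Submodule.subset_span (h s hs)
  | zero => exact zero_mem _
  | add a b _ _ ha hb => exact add_mem ha hb
  | smul a b _ hb => exact Submodule.smul_mem _ a hb

/-- With `ξ` from `exists_weights`, Dickson's lemma gives finitely many `g j` such that the vectors
`(ξ (u ∘ g j))_u` are below all `(ξ (u ∘ g))_u`. Cut the cone of `U` into the pieces where `g j` is
best among the `g j'` (`dd_fin`), move them by `g j`, and let `S` be the union of the generators.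
Its cone lies in `{x | ∀ g, ξ x ≤ ξ (x ∘ g)}`. -/
theorem dirichlet {C : Type} (Cart : AddSubgroup (C → ℝ))
    (hint : ∀ d ∈ Cart, ∀ c, ∃ n : ℤ, d c = n) (G : Subgroup (Equiv.Perm C))
    (hG : ∀ g ∈ G, ∀ d ∈ Cart, d ∘ g ∈ Cart) (A : Submodule NNReal (C → ℝ))
    (hA0 : ∀ d ∈ A, ∀ c, 0 ≤ d c) (hAG : ∀ g ∈ G, ∀ d ∈ A, d ∘ g ∈ A)
    (U : Finset (C → ℝ)) (hU : ∀ u ∈ U, u ∈ Cart ∧ u ∈ A)
    (hspan : ∀ d ∈ Cart, d ∈ Submodule.span ℝ (U : Set (C → ℝ)))
    (hcov : ∀ d ∈ A, ∃ g ∈ G, d ∘ g ∈ Submodule.span NNReal (U : Set (C → ℝ))) :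
    ∃ S : Finset (C → ℝ), (∀ d ∈ S, d ∈ Cart) ∧
      (∀ d, d ∈ A ↔ ∃ g ∈ G, ∃ e ∈ Submodule.span NNReal (S : Set (C → ℝ)), d = e ∘ g) ∧
      ∀ g ∈ G, (∃ d ∈ Submodule.span ℝ (Cart : Set (C → ℝ)), d ∘ g ≠ d) → ∀ x,
        Absorb (Submodule.span ℝ (Cart : Set (C → ℝ))) (Submodule.span NNReal (S : Set (C → ℝ))) x →
        ¬ Absorb (Submodule.span ℝ (Cart : Set (C → ℝ)))
          {d | ∃ e ∈ Submodule.span NNReal (S : Set (C → ℝ)), d = e ∘ g} x := by
  classical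
  obtain ⟨n, c, w, hw⟩ := exists_weights Cart hint G hG U (fun u hu => (hU u hu).1)
    (fun u hu => hA0 u (hU u hu).2) hspan
  let ξ : Equiv.Perm C → (C → ℝ) →ₗ[ℝ] ℝ := fun g =>
    ∑ k, (w k : ℝ) • LinearMap.proj (g (c k))
  have hξ : ∀ g d, ξ g d = ∑ k, (w k : ℝ) * d (g (c k)) := fun g d => by
    simp [ξ]
  have hξc : ∀ g h : Equiv.Perm C, ∀ d, ξ h (d ∘ g) = ξ (g * h) d := fun g h d => by
    simp [hξ]
  have hξi : ∀ g, ∀ d ∈ Cart, ∃ m : ℤ, ξ g d = m := fun g d hd => by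
    choose m hm using hint d hd
    exact ⟨∑ k, w k * m (g (c k)), by simp [hξ, hm]⟩
  have hξn : ∀ g, ∀ u : U, ∃ m : ℕ, ξ g u = m := fun g u => by
    obtain ⟨m, hm⟩ := hξi g u (hU u u.2).1
    have h0 : 0 ≤ ξ g u := by
      rw [hξ]
      exact Finset.sum_nonneg (fun k _ => mul_nonneg (Nat.cast_nonneg _) (hA0 _ (hU u u.2).2 _))
    rw [hm] at h0
    lift m to ℕ using (by exact_mod_cast h0)
    exact ⟨m, by rw [hm]; simp⟩
  choose v hv using hξn
  obtain ⟨T, hT, hT'⟩ := Dir_aux_dickson (· ∈ G) v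
  have hpiece := fun t : T => dd_fin Cart U (fun u hu => (hU u hu).1)
    (fun t' : T => ξ t' - ξ t) (fun t' x hx => by
      obtain ⟨a, ha⟩ := hξi t' x hx
      obtain ⟨b, hb⟩ := hξi t x hx
      exact ⟨a - b, by simp [ha, hb]⟩)
  choose S hS1 hS2 using hpiece
  have hUA : ∀ x ∈ Submodule.span NNReal (U : Set (C → ℝ)), x ∈ A := fun x hx =>
    (Submodule.span_le.2 (fun u hu => (hU u hu).2) : _ ≤ A) hx
  have hbest : ∀ t : T, ∀ x ∈ Submodule.span NNReal (S t : Set (C → ℝ)), ∀ g ∈ G,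
      ξ t x ≤ ξ g x := fun t x hx g hg => by
    obtain ⟨h1, h2⟩ := (hS2 t x).1 hx
    obtain ⟨t', ht', hle⟩ := hT' g hg
    have h3 := h2 ⟨t', ht'⟩
    have h4 := Dir_aux_nonneg (ξ g - ξ t') (S := U) (fun u hu => by
      have := hle ⟨u, hu⟩
      rw [LinearMap.sub_apply, hv g ⟨u, hu⟩, hv t' ⟨u, hu⟩, sub_nonneg]
      exact_mod_cast this) h1
    simp only [LinearMap.sub_apply] at h3 h4
    linarith
  let S₀ : Finset (C → ℝ) := Finset.univ.biUnion (fun t : T => (S t).image (· ∘ t.1))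
  have hS₀ : ∀ d, d ∈ S₀ ↔ ∃ t : T, ∃ s ∈ S t, s ∘ t.1 = d := fun d => by
    simp only [S₀, Finset.mem_biUnion, Finset.mem_univ, true_and, Finset.mem_image]
  have hD : ∀ x ∈ Submodule.span NNReal (S₀ : Set (C → ℝ)), ∀ g ∈ G, ξ 1 x ≤ ξ g x :=
    fun x hx g hg => by
    have := Dir_aux_nonneg (ξ g - ξ 1) (S := S₀) (fun d hd => by
      obtain ⟨t, s, hs, rfl⟩ := (hS₀ d).1 hd
      rw [LinearMap.sub_apply, hξc, hξc, mul_one, sub_nonneg]
      exact hbest t s (Submodule.subset_span hs) _ (G.mul_mem (hT t t.2) hg)) hx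
    rwa [LinearMap.sub_apply, sub_nonneg] at this
  refine ⟨S₀, fun d hd => ?_, fun d => ⟨fun hd => ?_, ?_⟩, ?_⟩
  · obtain ⟨t, s, hs, rfl⟩ := (hS₀ d).1 hd
    exact hG _ (hT t t.2) s (hS1 t s hs)
  · obtain ⟨g, hg, h1⟩ := hcov d hd
    obtain ⟨t₀, ht₀, -⟩ := hT' 1 G.one_mem
    obtain ⟨t, -, ht⟩ := Finset.exists_min_image (Finset.univ : Finset T)
      (fun t => ξ t (d ∘ g)) ⟨⟨t₀, ht₀⟩, Finset.mem_univ _⟩
    have h2 := (hS2 t _).2 ⟨h1, fun t' => sub_nonneg.2 (ht t' (Finset.mem_univ _))⟩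
    refine ⟨(g * t)⁻¹, G.inv_mem (G.mul_mem hg (hT t t.2)), (d ∘ g) ∘ t.1,
      Dir_aux_comp _ (fun s hs => (hS₀ _).2 ⟨t, s, hs, rfl⟩) h2, ?_⟩
    funext x
    simp
  · rintro ⟨g, hg, e, he, rfl⟩
    refine hAG g hg e ((Submodule.span_le.2 (fun d hd => ?_) : _ ≤ A) he)
    obtain ⟨t, s, hs, rfl⟩ := (hS₀ d).1 hd
    exact hAG _ (hT t t.2) s (hUA s ((hS2 t s).1 (Submodule.subset_span hs)).1)
  · rintro g hg ⟨d, hd, hne⟩ x h1 h2
    obtain ⟨ε, -, e, he, hx⟩ := h2 0 (zero_mem _)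
    rw [smul_zero, add_zero] at hx
    have h3 : ξ g⁻¹ x ≤ ξ 1 x := by
      rw [hx, hξc, hξc, mul_inv_cancel, mul_one]
      exact hD e he g hg
    have h4 : ∀ y ∈ Submodule.span ℝ (Cart : Set (C → ℝ)), ξ 1 y ≤ ξ g⁻¹ y := fun y hy => by
      obtain ⟨δ, hδ, h5⟩ := h1 y hy
      have := hD _ h5 _ (G.inv_mem hg)
      simp only [map_add, map_smul, smul_eq_mul] at this
      nlinarith
    have h6 := hw g⁻¹ (G.inv_mem hg) (fun u hu => by
      have hu' : u ∈ Submodule.span ℝ (Cart : Set (C → ℝ)) := Submodule.subset_span (hU u hu).1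
      have a1 := h4 u hu'
      have a2 := h4 (-u) (neg_mem hu')
      rw [map_neg, map_neg, neg_le_neg_iff] at a2
      have := le_antisymm a2 a1
      rw [hξ, hξ] at this
      exact this)
    have h7 : ∀ y ∈ Submodule.span ℝ (U : Set (C → ℝ)), y ∘ g = y := fun y hy => by
      induction hy using Submodule.span_induction with
      | mem u hu =>
        funext z
        have := congrFun (h6 u hu) (g z)
        simpa using this.symm
      | zero => rfl
      | add a b _ _ ha hb => rw [show (a + b) ∘ g = a ∘ g + b ∘ g from rfl, ha, hb]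
      | smul a b _ hb => rw [show (a • b) ∘ g = a • (b ∘ g) from rfl, hb]
    exact hne (h7 d ((Submodule.span_le.2 (fun y hy => hspan y hy) : _ ≤ _) hd))

end Pool.Agent.MP_95da86_ag

end
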