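import Pool.Agent.Mg.F95da86.G63500b

section

/-! Gauss extensions of valuations to the function field of the curve. -/

namespace Pool.Agent.MP_95da86_ag

open Polynomial

section Aux

variable {F M : Type} [Field F] [Field M] [Algebra F M] {W : ValuationSubring F}
  {V : ValuationSubring M}

theorem Gauss_aux_one (V : ValuationSubring M) : (1 : M) ∉ V.nonunits := by
  simp [ValuationSubring.mem_nonunits_iff_or]

theorem Gauss_aux_unit {f : M} (h : f ∉ V.nonunits) : f ≠ 0 ∧ f⁻¹ ∈ V := by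
  rw [ValuationSubring.mem_nonunits_iff_or] at h
  push Not at h
  exact h

theorem Gauss_aux_mul {f g : M} (hf : f ∈ V.nonunits) (hg : g ∈ V) : f * g ∈ V.nonunits := by
  rw [ValuationSubring.mem_nonunits_iff] at hf ⊢
  rw [map_mul]
  exact lt_of_le_of_lt (mul_le_of_le_one_right' ((V.valuation_le_one_iff g).2 hg)) hf

theorem Gauss_aux_lift {p : F[X]} (hp : ∀ i, p.coeff i ∈ W) :
    ∃ p₀ : W[X], p₀.map W.subtype = p :=
  (mem_lifts p).1 ((lifts_iff_coeff_lifts p).2 fun n => ⟨⟨_, hp n⟩, rfl⟩)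

theorem Gauss_aux_coeff (p₀ : W[X]) (i : ℕ) : (p₀.map W.subtype).coeff i ∈ W := by
  rw [coeff_map]; exact (p₀.coeff i).2

theorem Gauss_aux_red (p₀ : W[X]) :
    (∀ i, (p₀.map W.subtype).coeff i ∈ W.nonunits) ↔ p₀.map (IsLocalRing.residue W) = 0 := by
  rw [Polynomial.ext_iff]
  refine forall_congr' fun i => ?_
  rw [coeff_map, coeff_map, coeff_zero, IsLocalRing.residue_eq_zero_iff]
  exact ValuationSubring.coe_mem_nonunits_iff

theorem Gauss_aux_nonunits (h : ∀ f : F, algebraMap F M f ∈ V ↔ f ∈ W) (c : F) :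
    algebraMap F M c ∈ V.nonunits ↔ c ∈ W.nonunits := by
  rw [ValuationSubring.mem_nonunits_iff_or, ValuationSubring.mem_nonunits_iff_or, ← map_inv₀, h,
    map_eq_zero]

theorem Gauss_aux_aeval_mem (h : ∀ f : F, algebraMap F M f ∈ V ↔ f ∈ W) {x : M} (hx : x ∈ V)
    {p : F[X]} (hp : ∀ i, p.coeff i ∈ W) : aeval x p ∈ V := by
  rw [aeval_eq_sum_range]
  refine sum_mem fun i _ => ?_
  rw [Algebra.smul_def]
  exact mul_mem ((h _).2 (hp i)) (pow_mem hx i)

/-- Scaling by a coefficient of maximal size. -/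
theorem Gauss_aux_scale (W : ValuationSubring F) {p q : F[X]} (h : ¬ (p = 0 ∧ q = 0)) :
    ∃ (c : F) (p' q' : F[X]), c ≠ 0 ∧ p = C c * p' ∧ q = C c * q' ∧ (∀ i, p'.coeff i ∈ W) ∧
      (∀ i, q'.coeff i ∈ W) ∧ ((∃ i, p'.coeff i = 1) ∨ ∃ i, q'.coeff i = 1) := by
  classical
  have hne : (p.coeffs ∪ q.coeffs).Nonempty := by
    rw [Finset.union_nonempty, coeffs_nonempty_iff, coeffs_nonempty_iff]; tauto
  obtain ⟨c, hc, hmax⟩ := Finset.exists_max_image _ W.valuation hne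
  have hc0 : c ≠ 0 := by
    rintro rfl
    rcases Finset.mem_union.1 hc with h' | h' <;>
    · obtain ⟨n, hn, e⟩ := mem_coeffs_iff.1 h'
      exact (mem_support_iff.1 hn) e.symm
  have hv : 0 < W.valuation c := by
    rw [zero_lt_iff]; simpa using hc0
  have key : ∀ r : F[X], r.coeffs ⊆ p.coeffs ∪ q.coeffs → ∀ i, (C c⁻¹ * r).coeff i ∈ W := by
    intro r hr i
    rw [coeff_C_mul]
    by_cases h0 : r.coeff i = 0
    · rw [h0, mul_zero]; exact zero_mem _
    · rw [← W.valuation_le_one_iff, map_mul, map_inv₀, inv_mul_le_one₀ hv]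
      exact hmax _ (hr (coeff_mem_coeffs h0))
  have e : ∀ r : F[X], r = C c * (C c⁻¹ * r) := fun r => by
    rw [← mul_assoc, ← C_mul, mul_inv_cancel₀ hc0, C_1, one_mul]
  refine ⟨c, C c⁻¹ * p, C c⁻¹ * q, hc0, e p, e q, key p Finset.subset_union_left,
    key q Finset.subset_union_right, ?_⟩
  rcases Finset.mem_union.1 hc with h' | h'
  · obtain ⟨n, -, e⟩ := mem_coeffs_iff.1 h'
    exact Or.inl ⟨n, by rw [coeff_C_mul, ← e, inv_mul_cancel₀ hc0]⟩
  · obtain ⟨n, -, e⟩ := mem_coeffs_iff.1 h'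
    exact Or.inr ⟨n, by rw [coeff_C_mul, ← e, inv_mul_cancel₀ hc0]⟩

theorem Gauss_aux_sq {k : Type} [Field k] {p q : k[X]} (h : p ^ 2 - q ^ 2 * (X ^ 3 + 1) = 0) :
    p = 0 ∧ q = 0 := by
  have hq : q = 0 := by
    by_contra hq
    have h3 : (X ^ 3 + 1 : k[X]).natDegree = 3 := by
      have := natDegree_X_pow_add_C (R := k) (n := 3) (r := 1)
      rwa [C_1] at this
    have h0 : (X ^ 3 + 1 : k[X]) ≠ 0 := fun h0 => by rw [h0] at h3; simp at h3
    have := congrArg natDegree (sub_eq_zero.1 h)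
    rw [natDegree_mul (pow_ne_zero _ hq) h0, natDegree_pow, natDegree_pow, h3] at this
    omega
  subst hq
  exact ⟨by simpa using h, rfl⟩

/-- The inclusion of valuation rings. -/
def Gauss_aux_incl (h : ∀ f : F, algebraMap F M f ∈ V ↔ f ∈ W) : W →+* V :=
  ((algebraMap F M).comp W.subtype).codRestrict V.toSubring fun c => (h c).2 c.2

theorem Gauss_aux_local (h : ∀ f : F, algebraMap F M f ∈ V ↔ f ∈ W) :
    IsLocalHom (Gauss_aux_incl h) := by
  refine ⟨fun c hc => ?_⟩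
  by_contra hn
  have h1 : (c : F) ∈ W.nonunits := ValuationSubring.coe_mem_nonunits_iff.2 hn
  have h2 : ((Gauss_aux_incl h c : V) : M) ∈ V.nonunits := (Gauss_aux_nonunits h c).2 h1
  exact (ValuationSubring.coe_mem_nonunits_iff.1 h2) hc

/-- The residue field extension. -/
@[reducible] noncomputable def Gauss_aux_alg (h : ∀ f : F, algebraMap F M f ∈ V ↔ f ∈ W) :
    Algebra (IsLocalRing.ResidueField W) (IsLocalRing.ResidueField V) :=
  haveI := Gauss_aux_local h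
  (IsLocalRing.ResidueField.map (Gauss_aux_incl h)).toAlgebra

theorem Gauss_aux_tr (h : ∀ f : F, algebraMap F M f ∈ V ↔ f ∈ W) (z : V) :
    (∀ p : F[X], (∀ i, p.coeff i ∈ W) → aeval (z : M) p ∈ V.nonunits →
      ∀ i, p.coeff i ∈ W.nonunits) ↔
    letI := Gauss_aux_alg h
    Transcendental (IsLocalRing.ResidueField W) (IsLocalRing.residue V z) := by
  let _ := Gauss_aux_alg h
  have _ := Gauss_aux_local h
  have key : ∀ p₀ : W[X], aeval (z : M) (p₀.map W.subtype) ∈ V.nonunits ↔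
      aeval (IsLocalRing.residue V z) (p₀.map (IsLocalRing.residue W)) = 0 := by
    intro p₀
    have e1 : aeval (z : M) (p₀.map W.subtype) = ((p₀.eval₂ (Gauss_aux_incl h) z : V) : M) := by
      have := hom_eval₂ p₀ (Gauss_aux_incl h) V.subtype z
      rw [aeval_def, eval₂_map]
      exact this.symm
    have e2 : aeval (IsLocalRing.residue V z) (p₀.map (IsLocalRing.residue W)) =
        IsLocalRing.residue V (p₀.eval₂ (Gauss_aux_incl h) z) := by
      rw [hom_eval₂, aeval_def, eval₂_map]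
      congr 1
    rw [e1, e2, IsLocalRing.residue_eq_zero_iff]
    exact ValuationSubring.coe_mem_nonunits_iff
  rw [transcendental_iff]
  constructor
  · intro H r hr
    obtain ⟨p₀, rfl⟩ := map_surjective _ (IsLocalRing.residue_surjective (R := W)) r
    exact (Gauss_aux_red p₀).1 (H _ (Gauss_aux_coeff p₀) ((key p₀).2 hr))
  · intro H p hp hv
    obtain ⟨p₀, rfl⟩ := Gauss_aux_lift hp
    exact (Gauss_aux_red p₀).2 (H _ ((key p₀).1 hv))

end Aux

variable {F M : Type} [Field F] [Field M] [Algebra ℂ F] [Algebra ℂ M] [Algebra F M]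
  [IsScalarTower ℂ F M] {P : EP M} {W : ValuationSubring F} {V : ValuationSubring M}

theorem IsGauss.yc_mem (hP : Gen F P) (hG : IsGauss W V (xc P)) : yc P ∈ V := by
  have h2 : yc P ^ 2 ∈ V := by
    rw [eqn_of_ne hP.ne]; exact add_mem (pow_mem hG.2.1 3) (one_mem _)
  rcases V.mem_or_inv_mem (yc P) with h | h
  · exact h
  · by_cases h0 : yc P = 0
    · rw [h0]; exact zero_mem _
    · have : yc P = yc P ^ 2 * (yc P)⁻¹ := by field_simp
      rw [this]; exact mul_mem h2 h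
/-- Take norms: `p ^ 2 - q ^ 2 (X ^ 3 + 1)` has coefficients in the maximal ideal; compare degrees
of the reductions. -/
theorem IsGauss.coeff_nonunits (hP : Gen F P) (hG : IsGauss W V (xc P)) {p q : F[X]}
    (hp : ∀ i, p.coeff i ∈ W) (hq : ∀ i, q.coeff i ∈ W)
    (h : aeval (xc P) p + aeval (xc P) q * yc P ∈ V.nonunits) :
    (∀ i, p.coeff i ∈ W.nonunits) ∧ ∀ i, q.coeff i ∈ W.nonunits := by
  have hm : aeval (xc P) p - aeval (xc P) q * yc P ∈ V :=
    sub_mem (Gauss_aux_aeval_mem hG.1 hG.2.1 hp)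
      (mul_mem (Gauss_aux_aeval_mem hG.1 hG.2.1 hq) (hG.yc_mem hP))
  have hN := Gauss_aux_mul h hm
  obtain ⟨p₀, rfl⟩ := Gauss_aux_lift hp
  obtain ⟨q₀, rfl⟩ := Gauss_aux_lift hq
  have e : (aeval (xc P) (p₀.map W.subtype) + aeval (xc P) (q₀.map W.subtype) * yc P) *
      (aeval (xc P) (p₀.map W.subtype) - aeval (xc P) (q₀.map W.subtype) * yc P) =
      aeval (xc P) ((p₀ ^ 2 - q₀ ^ 2 * (X ^ 3 + 1)).map W.subtype) := by
    simp only [Polynomial.map_sub, Polynomial.map_mul, Polynomial.map_pow, Polynomial.map_add,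
      map_X, Polynomial.map_one, map_sub, map_mul, map_pow, map_add, aeval_X, map_one]
    rw [← eqn_of_ne hP.ne]; ring
  rw [e] at hN
  have h0 := (Gauss_aux_red _).1 (hG.2.2 _ (Gauss_aux_coeff _) hN)
  simp only [Polynomial.map_sub, Polynomial.map_mul, Polynomial.map_pow, Polynomial.map_add,
    map_X, Polynomial.map_one] at h0
  obtain ⟨h1, h2⟩ := Gauss_aux_sq h0
  exact ⟨(Gauss_aux_red _).2 h1, (Gauss_aux_red _).2 h2⟩

theorem Gauss_aux_two (hP : Gen F P) (hG : IsGauss W V (xc P)) {p q : F[X]}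
    (h : ¬ (p = 0 ∧ q = 0)) : ∃ (c : F) (p' q' : F[X]) (u : M), c ≠ 0 ∧ p = C c * p' ∧
      q = C c * q' ∧ (∀ i, p'.coeff i ∈ W) ∧ (∀ i, q'.coeff i ∈ W) ∧ u ≠ 0 ∧ u ∈ V ∧ u⁻¹ ∈ V ∧
      aeval (xc P) p + aeval (xc P) q * yc P = algebraMap F M c * u := by
  obtain ⟨c, p', q', hc, ep, eq, hp, hq, h1⟩ := Gauss_aux_scale W h
  have hu : aeval (xc P) p' + aeval (xc P) q' * yc P ∉ V.nonunits := fun hu => by
    obtain ⟨a, b⟩ := hG.coeff_nonunits hP hp hq hu
    rcases h1 with ⟨i, hi⟩ | ⟨i, hi⟩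
    · exact Gauss_aux_one W (hi ▸ a i)
    · exact Gauss_aux_one W (hi ▸ b i)
  refine ⟨c, p', q', _, hc, ep, eq, hp, hq, (Gauss_aux_unit hu).1,
    add_mem (Gauss_aux_aeval_mem hG.1 hG.2.1 hp)
      (mul_mem (Gauss_aux_aeval_mem hG.1 hG.2.1 hq) (hG.yc_mem hP)), (Gauss_aux_unit hu).2, ?_⟩
  rw [ep, eq, map_mul, map_mul, aeval_C]; ring

theorem IsGauss.coeff_mem (hP : Gen F P) (hG : IsGauss W V (xc P)) {p q : F[X]}
    (h : aeval (xc P) p + aeval (xc P) q * yc P ∈ V) :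
    (∀ i, p.coeff i ∈ W) ∧ ∀ i, q.coeff i ∈ W := by
  by_cases h0 : p = 0 ∧ q = 0
  · obtain ⟨rfl, rfl⟩ := h0
    exact ⟨fun i => by rw [coeff_zero]; exact zero_mem _, fun i => by
      rw [coeff_zero]; exact zero_mem _⟩
  obtain ⟨c, p', q', u, -, rfl, rfl, hp, hq, hu, -, hu', e⟩ := Gauss_aux_two hP hG h0
  have hc : c ∈ W := by
    rw [← hG.1]
    have := mul_mem h hu'
    rwa [e, mul_inv_cancel_right₀ hu] at this
  exact ⟨fun i => by rw [coeff_C_mul]; exact mul_mem hc (hp i), fun i => by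
    rw [coeff_C_mul]; exact mul_mem hc (hq i)⟩
theorem IsGauss.repr (hP : Gen F P) (hG : IsGauss W V (xc P)) {f : M} (hf : f ∈ V) :
    ∃ p q b : F[X], (∀ i, p.coeff i ∈ W) ∧ (∀ i, q.coeff i ∈ W) ∧ (∀ i, b.coeff i ∈ W) ∧
      (∃ i, b.coeff i ∉ W.nonunits) ∧
      f = (aeval (xc P) p + aeval (xc P) q * yc P) / aeval (xc P) b := by
  obtain ⟨a, ha, b, hb, e⟩ := hP.frac f
  obtain ⟨p, q, rfl⟩ := hP.repr ha
  obtain ⟨c, b', z, hc, eb, ez, hb', -, h1⟩ :=
    Gauss_aux_scale W (p := b) (q := 0) fun h => hb h.1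
  have hz : z = 0 := (mul_eq_zero.1 ez.symm).resolve_left (C_ne_zero.2 hc)
  have h1' : ∃ i, b'.coeff i ∉ W.nonunits := by
    rcases h1 with ⟨i, hi⟩ | ⟨i, hi⟩
    · exact ⟨i, hi ▸ Gauss_aux_one W⟩
    · rw [hz, coeff_zero] at hi; exact absurd hi zero_ne_one
  have hu : aeval (xc P) b' ∉ V.nonunits := fun hu => by
    obtain ⟨i, hi⟩ := h1'
    exact hi (hG.2.2 _ hb' hu i)
  have hu0 := (Gauss_aux_unit hu).1
  have hc' : algebraMap F M c ≠ 0 := by simpa using hc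
  have e' : f = (aeval (xc P) (C c⁻¹ * p) + aeval (xc P) (C c⁻¹ * q) * yc P) /
      aeval (xc P) b' := by
    rw [e, eb, map_mul, map_mul, map_mul, aeval_C, aeval_C, map_inv₀]
    field_simp
  have hm : aeval (xc P) (C c⁻¹ * p) + aeval (xc P) (C c⁻¹ * q) * yc P ∈ V := by
    rw [← (eq_div_iff hu0).1 e']
    exact mul_mem hf (Gauss_aux_aeval_mem hG.1 hG.2.1 hb')
  obtain ⟨hp, hq⟩ := hG.coeff_mem hP hm
  exact ⟨_, _, b', hp, hq, hb', h1', e'⟩

theorem Gauss_aux_le (hP : Gen F P) {V' : ValuationSubring M} (hG : IsGauss W V (xc P))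
    (hG' : IsGauss W V' (xc P)) : V ≤ V' := by
  intro f hf
  obtain ⟨p, q, b, hp, hq, hb, ⟨i, hi⟩, rfl⟩ := hG.repr hP hf
  have hu : aeval (xc P) b ∉ V'.nonunits := fun hu => hi (hG'.2.2 _ hb hu i)
  rw [div_eq_mul_inv]
  exact mul_mem (add_mem (Gauss_aux_aeval_mem hG'.1 hG'.2.1 hp)
    (mul_mem (Gauss_aux_aeval_mem hG'.1 hG'.2.1 hq) (hG'.yc_mem hP))) (Gauss_aux_unit hu).2

theorem IsGauss.unique (hP : Gen F P) {V' : ValuationSubring M} (hG : IsGauss W V (xc P))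
    (hG' : IsGauss W V' (xc P)) : V = V' :=
  le_antisymm (Gauss_aux_le hP hG hG') (Gauss_aux_le hP hG' hG)
theorem IsGauss.exists_unit (hP : Gen F P) (hG : IsGauss W V (xc P)) {f : M} (hf : f ≠ 0) :
    ∃ c : F, c ≠ 0 ∧ f / algebraMap F M c ∈ V ∧ algebraMap F M c / f ∈ V := by
  obtain ⟨a, ha, b, hb, e⟩ := hP.frac f
  obtain ⟨p, q, rfl⟩ := hP.repr ha
  have h0 : ¬ (p = 0 ∧ q = 0) := by
    rintro ⟨rfl, rfl⟩
    exact hf (by simpa using e)
  obtain ⟨c, -, -, u, hc, -, -, -, -, hu, hu1, hu2, eu⟩ := Gauss_aux_two hP hG h0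
  obtain ⟨d, -, -, v, hd, -, -, -, -, hv, hv1, hv2, ev⟩ :=
    Gauss_aux_two hP hG (p := b) (q := 0) fun h => hb h.1
  rw [map_zero, zero_mul, add_zero] at ev
  have hc' : algebraMap F M c ≠ 0 := by simpa using hc
  have hd' : algebraMap F M d ≠ 0 := by simpa using hd
  rw [eu, ev] at e
  refine ⟨c / d, div_ne_zero hc hd, ?_, ?_⟩
  · have : f / algebraMap F M (c / d) = u * v⁻¹ := by rw [e, map_div₀]; field_simp
    rw [this]; exact mul_mem hu1 hv2
  · have : algebraMap F M (c / d) / f = v * u⁻¹ := by rw [e, map_div₀]; field_simp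
    rw [this]; exact mul_mem hv1 hu2
theorem IsGauss.dvr (hP : Gen F P) (hG : IsGauss W V (xc P)) [IsDiscreteValuationRing W] :
    IsDiscreteValuationRing V ∧ ∀ c : F, ord V (algebraMap F M c) = ord W c := by
  obtain ⟨π, h0, h1⟩ := exists_ord_eq_one W
  have h0' : algebraMap F M π ≠ 0 := by simpa using h0
  have hπ : algebraMap F M π ∈ V.nonunits :=
    (Gauss_aux_nonunits hG.1 π).2 ((ord_pos_iff W h0).1 (by rw [h1]; exact one_pos))
  obtain ⟨hd, ho⟩ := dvr_of_unif V _ h0' hπ fun f hf => by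
    obtain ⟨c, hc, h2, h3⟩ := hG.exists_unit hP hf
    have hc' : algebraMap F M c ≠ 0 := by simpa using hc
    have hz : ord W (c / π ^ ord W c) = 0 := by
      rw [ord_div W hc (zpow_ne_zero _ h0), ord_zpow, h1, mul_one, sub_self]
    obtain ⟨h4, h5⟩ := (ord_eq_zero_iff W _).1 hz
    rw [← hG.1, map_div₀, map_zpow₀] at h4
    rw [← hG.1, inv_div, map_div₀, map_zpow₀] at h5
    refine ⟨ord W c, ?_, ?_⟩
    · have := mul_mem h2 h4
      rwa [div_mul_div_cancel₀ hc'] at this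
    · have := mul_mem h5 h3
      rwa [div_mul_div_cancel₀ hc'] at this
  obtain ⟨e, -, he⟩ := exists_ram (algebraMap F M) W V hG.1
  have := he π
  rw [ho, h1, mul_one] at this
  exact ⟨hd, fun c => by rw [he, ← this, one_mul]⟩
/-- Localise `W[x] ≅ W[X]` at the prime generated by the maximal ideal of `W` and take a dominating
valuation ring. -/
theorem Gen.exists_gauss (hP : Gen F P) (W : ValuationSubring F) :
    ∃ V, IsGauss W V (xc P) := by
  let I : Ideal W[X] := RingHom.ker (mapRingHom (IsLocalRing.residue W))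
  have hI : I.IsPrime := RingHom.ker_isPrime _
  have hmem : ∀ p₀ : W[X], p₀ ∈ I ↔ p₀.map (IsLocalRing.residue W) = 0 := fun p₀ => Iff.rfl
  let φ : W[X] →+* M := (aeval (xc P) : F[X] →ₐ[F] M).toRingHom.comp (mapRingHom W.subtype)
  have hφ : ∀ p₀, φ p₀ = aeval (xc P) (p₀.map W.subtype) := fun p₀ => rfl
  have hu : ∀ s : I.primeCompl, IsUnit (φ s) := fun s => by
    refine IsUnit.mk0 _ fun h0 => s.2 ?_
    have h1 : (s : W[X]).map W.subtype = 0 := (transcendental_iff.1 hP.tr) _ h0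
    have h2 : (s : W[X]) = 0 := by
      refine map_injective W.subtype Subtype.val_injective ?_
      rw [h1, Polynomial.map_zero]
    change (s : W[X]) ∈ I
    rw [h2]; exact zero_mem _
  let ψ : Localization.AtPrime I →+* M := IsLocalization.lift hu
  have hψ : ∀ p₀, ψ (algebraMap _ _ p₀) = φ p₀ := fun p₀ => IsLocalization.lift_eq hu p₀
  obtain ⟨A, hA, hl⟩ := IsLocalRing.exists_factor_valuationRing (R := Localization.AtPrime I) ψ
  have hin : ∀ p₀, φ p₀ ∈ A := fun p₀ => hψ p₀ ▸ hA _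
  have key : ∀ p₀, φ p₀ ∈ A.nonunits ↔ p₀ ∈ I := fun p₀ => by
    have e1 : φ p₀ = ((ψ.codRestrict A.toSubring hA (algebraMap _ _ p₀) : A) : M) := (hψ p₀).symm
    rw [e1, ValuationSubring.coe_mem_nonunits_iff,
      ← IsLocalization.AtPrime.to_map_mem_maximal_iff (Localization.AtPrime I) I p₀,
      IsLocalRing.mem_maximalIdeal, IsLocalRing.mem_maximalIdeal, mem_nonunits_iff,
      mem_nonunits_iff]
    exact not_congr ⟨fun h => hl.map_nonunit _ h, fun h => h.map _⟩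
  have hC : ∀ c : W, φ (C c) = algebraMap F M c := fun c => by
    rw [hφ, map_C, aeval_C]; rfl
  refine ⟨A, fun c => ⟨fun h => ?_, fun h => ?_⟩, ?_, fun p hp h => ?_⟩
  · by_contra hc
    have hc0 : c ≠ 0 := fun h0 => hc (h0 ▸ zero_mem _)
    have h1 : c⁻¹ ∈ W.nonunits := W.inv_mem_nonunits_iff.2 (Or.inr hc)
    have h2 : C (⟨c⁻¹, W.nonunits_subset h1⟩ : W) ∈ I := by
      rw [hmem, map_C, C_eq_zero, IsLocalRing.residue_eq_zero_iff]
      exact ValuationSubring.coe_mem_nonunits_iff.1 h1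
    have h3 := (key _).2 h2
    rw [hC, map_inv₀, ValuationSubring.inv_mem_nonunits_iff] at h3
    rcases h3 with h3 | h3
    · exact hc0 (by simpa using h3)
    · exact h3 h
  · exact hC ⟨c, h⟩ ▸ hin _
  · have := hin X
    rwa [hφ, map_X, aeval_X] at this
  · obtain ⟨p₀, rfl⟩ := Gauss_aux_lift hp
    exact (Gauss_aux_red p₀).2 ((hmem p₀).1 ((key p₀).1 h))

theorem Gauss_aux_alg_step {k K : Type} [Field k] [Field K] [Algebra k K] {a b a' b' : K}
    (h4 : (4 : K) ≠ 0) (h : b ^ 2 = a ^ 3 + 1) (h' : b' ^ 2 = a' ^ 3 + 1)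
    (e : b' * (b + 1) = b - 3) (ha : IsAlgebraic k a') : IsAlgebraic k a := by
  have i1 : IsIntegral k a' := ha.isIntegral
  have i2 : IsIntegral k b' := by
    refine IsIntegral.of_pow two_pos ?_
    rw [h']; exact (i1.pow 3).add isIntegral_one
  have hb : b' - 1 ≠ 0 := fun h0 => h4 (by linear_combination e - (b + 1) * h0)
  have i3 : IsIntegral k b := by
    have e' : b = -(b' + 3) * (b' - 1)⁻¹ := by field_simp; linear_combination e
    have i4 : IsIntegral k (3 : K) := by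
      have := isIntegral_algebraMap (R := k) (A := K) (x := 3)
      rwa [map_ofNat] at this
    rw [e']
    exact (i2.add i4).neg.mul (i2.sub isIntegral_one).inv
  refine (IsIntegral.of_pow three_pos ?_).isAlgebraic
  rw [show a ^ 3 = b ^ 2 - 1 by rw [h]; ring]
  exact (i3.pow 2).sub isIntegral_one

theorem Gauss_aux_shift (hP : Gen F P) (hW : ∀ c : ℂ, algebraMap ℂ F c ∈ W)
    (hG : IsGauss W V (xc P)) : IsGauss W V (xc (P + tT M)) := by
  have hy := hG.yc_mem hP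
  have hx := hG.2.1
  have h1 : ∀ i, (1 : F[X]).coeff i ∈ W := fun i => by
    rw [coeff_one]; split_ifs; exacts [one_mem _, zero_mem _]
  have hu : yc P + 1 ∉ V.nonunits := fun hu => by
    have := (hG.coeff_nonunits hP h1 h1 (by simpa [add_comm] using hu)).1 0
    rw [coeff_one_zero] at this
    exact Gauss_aux_one W this
  obtain ⟨hu0, hu1⟩ := Gauss_aux_unit hu
  obtain ⟨h', e⟩ := pt_add_tT (xc P) (yc P) (eqn_of_ne hP.ne) hu0
  rw [pt_xc_yc hP.ne] at e
  have hn : ∀ n : ℕ, (n : M) ∈ V := fun n => natCast_mem V n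
  have hx' : -2 * xc P / (yc P + 1) ∈ V := by
    rw [div_eq_mul_inv]
    exact mul_mem (mul_mem (neg_mem (by exact_mod_cast hn 2)) hx) hu1
  have hy' : (yc P - 3) / (yc P + 1) ∈ V := by
    rw [div_eq_mul_inv]
    exact mul_mem (sub_mem hy (by exact_mod_cast hn 3)) hu1
  rw [e, xc_pt]
  refine ⟨hG.1, hx', ?_⟩
  have ht := (Gauss_aux_tr hG.1 ⟨_, hx⟩).1 hG.2.2
  refine (Gauss_aux_tr hG.1 ⟨_, hx'⟩).2 fun ha => ht ?_
  let _ := Gauss_aux_alg hG.1
  refine Gauss_aux_alg_step (b := IsLocalRing.residue V ⟨_, hy⟩)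
    (b' := IsLocalRing.residue V ⟨_, hy'⟩) ?_ ?_ ?_ ?_ ha
  · have h4 : ((4 : V) : M) ∉ V.nonunits := by
      have c4 : ((4 : V) : M) = algebraMap F M (algebraMap ℂ F 4) := by
        rw [map_ofNat, map_ofNat]; rfl
      rw [c4, Gauss_aux_nonunits hG.1, ValuationSubring.mem_nonunits_iff_or, ← map_inv₀]
      rintro (h | h)
      · exact absurd ((algebraMap ℂ F).injective (h.trans (map_zero _).symm)) (by norm_num)
      · exact h (hW _)
    rw [ValuationSubring.coe_mem_nonunits_iff, ← IsLocalRing.residue_eq_zero_iff, map_ofNat] at h4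
    exact h4
  · rw [← map_pow, ← map_pow, ← map_one (IsLocalRing.residue V), ← map_add]
    exact congrArg _ (Subtype.ext (eqn_of_ne hP.ne))
  · rw [← map_pow, ← map_pow, ← map_one (IsLocalRing.residue V), ← map_add]
    exact congrArg _ (Subtype.ext h')
  · rw [← map_one (IsLocalRing.residue V), ← map_add, ← map_mul,
      ← map_ofNat (IsLocalRing.residue V) 3, ← map_sub]
    exact congrArg _ (Subtype.ext (div_mul_cancel₀ _ hu0))

/-- The condition says that the residue of `x` is transcendental over the residue field of `W`;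
the coordinates of `P + τ T` are linear fractional functions of those of `P`. -/
theorem IsGauss.shift (hP : Gen F P) (hW : ∀ c : ℂ, algebraMap ℂ F c ∈ W)
    (hG : IsGauss W V (xc P)) (τ : ZMod 3) : IsGauss W V (xc (P + tors M τ)) := by
  have : τ = 0 ∨ τ = 1 ∨ τ = 2 := by clear hG; revert τ; decide
  rcases this with rfl | rfl | rfl
  · rw [tors_zero, add_zero]; exact hG
  · rw [tors_one]; exact Gauss_aux_shift hP hW hG
  · have h1 := hP.add_tors 1
    rw [tors_one] at h1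
    rw [tors_two, ← tT_add_tT, ← add_assoc]
    exact Gauss_aux_shift h1 hW (Gauss_aux_shift hP hW hG)

end Pool.Agent.MP_95da86_ag

end

section

/-! Krull families. -/

namespace Pool.Agent.MP_95da86_ag

open Polynomial

theorem krull_base : Krull (⊤ : Subalgebra ℂ ℂ) ∅ where
  frac f := ⟨f, Algebra.mem_top, 1, Algebra.mem_top, one_ne_zero, (div_one f).symm⟩
  le _ h := h.elim
  dvr _ h := h.elim
  loc _ h := h.elim
  fin _ _ _ := Set.finite_empty.subset fun _ h => h.1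
  inter _ _ := Algebra.mem_top

theorem Krull_aux_fin {F : Type} [Field F] [Algebra ℂ F] {B : Subalgebra ℂ F}
    {𝒲 : Set (ValuationSubring F)} (hK : Krull B 𝒲) (f : F) : {W ∈ 𝒲 | f ∉ W}.Finite := by
  obtain ⟨a, ha, b, hb, hb0, rfl⟩ := hK.frac f
  refine (hK.fin b hb hb0).subset fun W hW => ⟨hW.1, fun h => hW.2 ?_⟩
  rw [div_eq_mul_inv]
  exact mul_mem (hK.le W hW.1 a ha) h

/-- A common denominator for the coefficients of a polynomial. -/
theorem Krull_aux_denom {F : Type} [Field F] [Algebra ℂ F] {B : Subalgebra ℂ F} (D : Submonoid F)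
    (hD : ∀ d ∈ D, d ∈ B) (p : F[X]) (hp : ∀ i, ∃ d ∈ D, d * p.coeff i ∈ B) :
    ∃ d ∈ D, ∀ i, d * p.coeff i ∈ B := by
  classical
  choose e he he' using hp
  refine ⟨∏ i ∈ p.support, e i, prod_mem fun i _ => he i, fun i => ?_⟩
  by_cases hi : i ∈ p.support
  · rw [← Finset.mul_prod_erase _ _ hi, mul_comm (e i), mul_assoc]
    exact mul_mem (prod_mem fun j _ => hD _ (he j)) (he' i)
  · rw [notMem_support_iff.1 hi, mul_zero]
    exact zero_mem _

section Step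

variable {F M : Type} [Field F] [Field M] [Algebra ℂ F] [Algebra ℂ M] [Algebra F M]
  [IsScalarTower ℂ F M] {P : EP M} {B : Subalgebra ℂ F}

omit [IsScalarTower ℂ F M] in
theorem Krull_aux_const {c : F} (hc : c ∈ B) :
    algebraMap F M c ∈ Algebra.adjoin ℂ (algebraMap F M '' B ∪ {xc P, yc P}) :=
  Algebra.subset_adjoin (Or.inl ⟨c, hc, rfl⟩)

omit [IsScalarTower ℂ F M] in
theorem Krull_aux_aeval {d : F} {p : F[X]} (hp : ∀ i, d * p.coeff i ∈ B) :
    algebraMap F M d * aeval (xc P) p ∈ Algebra.adjoin ℂ (algebraMap F M '' B ∪ {xc P, yc P}) := by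
  rw [aeval_eq_sum_range, Finset.mul_sum]
  refine sum_mem fun i _ => ?_
  rw [Algebra.smul_def, ← mul_assoc, ← map_mul]
  have hx : xc P ∈ Algebra.adjoin ℂ (algebraMap F M '' B ∪ {xc P, yc P}) :=
    Algebra.subset_adjoin (Or.inr (by simp))
  exact mul_mem (Krull_aux_const (hp i)) (pow_mem hx i)

omit [IsScalarTower ℂ F M] in
theorem Krull_aux_aeval2 {d : F} {p q : F[X]} (hp : ∀ i, d * p.coeff i ∈ B)
    (hq : ∀ i, d * q.coeff i ∈ B) :
    algebraMap F M d * (aeval (xc P) p + aeval (xc P) q * yc P) ∈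
      Algebra.adjoin ℂ (algebraMap F M '' B ∪ {xc P, yc P}) := by
  rw [mul_add, ← mul_assoc]
  exact add_mem (Krull_aux_aeval hp)
    (mul_mem (Krull_aux_aeval hq) (Algebra.subset_adjoin (Or.inr (by simp))))

theorem Krull_aux_crd {f : M} (hf : f ∈ Algebra.adjoin ℂ (algebraMap F M '' B ∪ {xc P, yc P})) :
    f ∈ crd F P := by
  have : Algebra.adjoin ℂ (algebraMap F M '' B ∪ {xc P, yc P}) ≤ (crd F P).restrictScalars ℂ := by
    refine Algebra.adjoin_le ?_
    rintro g (⟨c, _, rfl⟩ | hg)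
    · exact (crd F P).algebraMap_mem c
    · exact Algebra.subset_adjoin hg
  exact this hf

/-- Three polynomials at once. -/
theorem Krull_aux_denom3 (D : Submonoid F) (hD : ∀ d ∈ D, d ∈ B) (p q b : F[X])
    (hp : ∀ i, ∃ d ∈ D, d * p.coeff i ∈ B) (hq : ∀ i, ∃ d ∈ D, d * q.coeff i ∈ B)
    (hb : ∀ i, ∃ d ∈ D, d * b.coeff i ∈ B) :
    ∃ d ∈ D, (∀ i, d * p.coeff i ∈ B) ∧ (∀ i, d * q.coeff i ∈ B) ∧ ∀ i, d * b.coeff i ∈ B := by
  obtain ⟨d1, h1, h1'⟩ := Krull_aux_denom D hD p hp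
  obtain ⟨d2, h2, h2'⟩ := Krull_aux_denom D hD q hq
  obtain ⟨d3, h3, h3'⟩ := Krull_aux_denom D hD b hb
  refine ⟨d1 * d2 * d3, mul_mem (mul_mem h1 h2) h3, fun i => ?_, fun i => ?_, fun i => ?_⟩
  · rw [show d1 * d2 * d3 * p.coeff i = d2 * d3 * (d1 * p.coeff i) by ring]
    exact mul_mem (mul_mem (hD _ h2) (hD _ h3)) (h1' i)
  · rw [show d1 * d2 * d3 * q.coeff i = d1 * d3 * (d2 * q.coeff i) by ring]
    exact mul_mem (mul_mem (hD _ h1) (hD _ h3)) (h2' i)
  · rw [show d1 * d2 * d3 * b.coeff i = d1 * d2 * (d3 * b.coeff i) by ring]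
    exact mul_mem (mul_mem (hD _ h1) (hD _ h2)) (h3' i)

/-- The non-zero elements of `B` whose inverse lies in `W`. -/
def Krull_aux_mon (B : Subalgebra ℂ F) (W : ValuationSubring F) : Submonoid F where
  carrier := {d | d ∈ B ∧ d ≠ 0 ∧ d⁻¹ ∈ W}
  one_mem' := ⟨one_mem _, one_ne_zero, by simp⟩
  mul_mem' := fun ha hb => ⟨mul_mem ha.1 hb.1, mul_ne_zero ha.2.1 hb.2.1, by
    rw [mul_inv]; exact mul_mem ha.2.2 hb.2.2⟩

theorem Krull_aux_top {𝒲 : Set (ValuationSubring F)} (hK : Krull B 𝒲) (c : F) :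
    ∃ d ∈ Krull_aux_mon B ⊤, d * c ∈ B := by
  obtain ⟨a, ha, b, hb, hb0, rfl⟩ := hK.frac c
  exact ⟨b, ⟨hb, hb0, ValuationSubring.mem_top _⟩, by rwa [mul_div_cancel₀ _ hb0]⟩

theorem Krull_aux_loc {𝒲 : Set (ValuationSubring F)} (hK : Krull B 𝒲) {W : ValuationSubring F}
    (hW : W ∈ 𝒲) {c : F} (hc : c ∈ W) : ∃ d ∈ Krull_aux_mon B W, d * c ∈ B := by
  obtain ⟨a, ha, b, hb, hb', rfl⟩ := hK.loc W hW c hc
  by_cases hb0 : b = 0
  · exact ⟨1, one_mem _, by simp [hb0]⟩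
  · exact ⟨b, ⟨hb, hb0, hb'⟩, by rwa [mul_div_cancel₀ _ hb0]⟩

theorem Krull_aux_clear {𝒲 : Set (ValuationSubring F)} (hK : Krull B 𝒲) (hP : Gen F P) {a : M}
    (ha : a ∈ crd F P) : ∃ d ∈ B, d ≠ 0 ∧
      algebraMap F M d * a ∈ Algebra.adjoin ℂ (algebraMap F M '' B ∪ {xc P, yc P}) := by
  obtain ⟨p, q, rfl⟩ := hP.repr ha
  obtain ⟨d, hd, h1, h2, -⟩ := Krull_aux_denom3 (Krull_aux_mon B ⊤) (fun d hd => hd.1) p q p
    (fun i => Krull_aux_top hK _) (fun i => Krull_aux_top hK _) fun i => Krull_aux_top hK _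
  exact ⟨d, hd.1, hd.2.1, Krull_aux_aeval2 h1 h2⟩

end Step

/-- Adjoining a generic point. `inter`: no pole at the affine places gives `f ∈ F[x, y]`
(`mem_crd`), and `coeff_mem` at the Gauss extensions puts the coefficients in `B`. -/
theorem Krull.step {F M : Type} [Field F] [Field M] [Algebra ℂ F] [Algebra ℂ M] [Algebra F M]
    [IsScalarTower ℂ F M] {P : EP M} {B : Subalgebra ℂ F} {𝒲 : Set (ValuationSubring F)}
    (hK : Krull B 𝒲) (hP : Gen F P) :
    Krull (Algebra.adjoin ℂ (algebraMap F M '' B ∪ {xc P, yc P}))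
      ({V | V ≠ ⊤ ∧ (∀ c : F, algebraMap F M c ∈ V) ∧ xc P ∈ V} ∪
        {V | ∃ W ∈ 𝒲, IsGauss W V (xc P)}) := by
  have : CharZero F := charZero_of F
  have hle : ∀ V ∈ ({V | V ≠ ⊤ ∧ (∀ c : F, algebraMap F M c ∈ V) ∧ xc P ∈ V} ∪
        {V | ∃ W ∈ 𝒲, IsGauss W V (xc P)} : Set (ValuationSubring M)),
      ∀ b ∈ Algebra.adjoin ℂ (algebraMap F M '' B ∪ {xc P, yc P}), b ∈ V := by
    rintro V (⟨h1, h2, h3⟩ | ⟨W, hW, hG⟩) b hb
    · exact hP.crd_le ⟨V, h1, h2⟩ h3 b (Krull_aux_crd hb)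
    · have hC : ∀ c : ℂ, algebraMap ℂ M c ∈ V := fun c => by
        rw [IsScalarTower.algebraMap_apply ℂ F M]
        exact (hG.1 _).2 (hK.le W hW _ (B.algebraMap_mem c))
      have : Algebra.adjoin ℂ (algebraMap F M '' B ∪ {xc P, yc P}) ≤ (vpt V hC).1 := by
        refine Algebra.adjoin_le ?_
        rintro g (⟨c, hc, rfl⟩ | rfl | rfl)
        · exact (hG.1 c).2 (hK.le W hW c hc)
        · exact hG.2.1
        · exact hG.yc_mem hP
      exact this hb
  refine ⟨fun f => ?_, hle, ?_, ?_, fun b hb hb0 => ?_, fun f hf => ?_⟩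
  · obtain ⟨a, ha, b, hb0, rfl⟩ := hP.frac f
    have hb1 : aeval (xc P) b ≠ 0 := fun h => hP.tr ⟨b, hb0, h⟩
    obtain ⟨d, hd, hd0, hda⟩ := Krull_aux_clear hK hP ha
    obtain ⟨e, he, he'⟩ := Krull_aux_denom (Krull_aux_mon B ⊤) (fun d hd => hd.1) b
      fun i => Krull_aux_top hK _
    have hd1 : algebraMap F M d ≠ 0 := by simpa using hd0
    have he1 : algebraMap F M e ≠ 0 := by simpa using he.2.1
    refine ⟨_, mul_mem (Krull_aux_const he.1) hda, _,
      mul_mem (Krull_aux_const hd) (Krull_aux_aeval he'),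
      mul_ne_zero hd1 (mul_ne_zero he1 hb1), ?_⟩
    field_simp
  · rintro V (⟨h1, h2, -⟩ | ⟨W, hW, hG⟩)
    · exact hP.isFF.dvr ⟨V, h1, h2⟩
    · have := hK.dvr W hW
      exact (hG.dvr hP).1
  · rintro V (⟨h1, h2, h3⟩ | ⟨W, hW, hG⟩) f hf
    · obtain ⟨a, ha, b, hb, hb', rfl⟩ := hP.val_loc ⟨V, h1, h2⟩ h3 f hf
      obtain ⟨d, hd, hd0, hda⟩ := Krull_aux_clear hK hP ha
      obtain ⟨e, he, he0, heb⟩ := Krull_aux_clear hK hP hb
      have hd1 : algebraMap F M d ≠ 0 := by simpa using hd0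
      have he1 : algebraMap F M e ≠ 0 := by simpa using he0
      refine ⟨_, mul_mem (Krull_aux_const he) hda, _, mul_mem (Krull_aux_const hd) heb, ?_, ?_⟩
      · rw [mul_inv, mul_inv, ← map_inv₀, ← map_inv₀]
        exact mul_mem (h2 _) (mul_mem (h2 _) hb')
      · rw [← mul_assoc, ← mul_assoc, mul_comm (algebraMap F M e),
          mul_div_mul_left _ _ (mul_ne_zero hd1 he1)]
    · obtain ⟨p, q, b, hp, hq, hb, ⟨i, hi⟩, rfl⟩ := hG.repr hP hf
      obtain ⟨d, hd, h1, h2, h3⟩ := Krull_aux_denom3 (Krull_aux_mon B W) (fun d hd => hd.1) p q b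
        (fun i => Krull_aux_loc hK hW (hp i)) (fun i => Krull_aux_loc hK hW (hq i))
        fun i => Krull_aux_loc hK hW (hb i)
      have hd1 : algebraMap F M d ≠ 0 := by simpa using hd.2.1
      have hb1 : (aeval (xc P) b)⁻¹ ∈ V := by
        by_contra hc
        exact hi (hG.2.2 b hb ((ValuationSubring.mem_nonunits_iff_or _).2 (Or.inr hc)) i)
      refine ⟨_, Krull_aux_aeval2 h1 h2, _, Krull_aux_aeval h3, ?_, ?_⟩
      · rw [mul_inv, ← map_inv₀]
        exact mul_mem ((hG.1 _).2 hd.2.2) hb1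
      · rw [mul_div_mul_left _ _ hd1]
  · obtain ⟨p, q, hpq⟩ := hP.repr (Krull_aux_crd hb)
    obtain ⟨c, hc0, hc⟩ : ∃ c : F, c ≠ 0 ∧ ((∃ i, c = p.coeff i) ∨ ∃ i, c = q.coeff i) := by
      by_contra hn
      push Not at hn
      have hp : p = 0 := Polynomial.ext fun i => by
        by_contra h
        exact (hn _ h).1 i rfl
      have hq : q = 0 := Polynomial.ext fun i => by
        by_contra h
        exact (hn _ h).2 i rfl
      exact hb0 (by simp [hpq, hp, hq])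
    have h1 : (Subtype.val '' Function.support fun V : Pl F M => ord V.1 b).Finite :=
      (hP.isFF.ord_fin b).image _
    have h2 : (⋃ W ∈ {W ∈ 𝒲 | c⁻¹ ∉ W}, {V | IsGauss W V (xc P)}).Finite :=
      (Krull_aux_fin hK c⁻¹).biUnion fun W _ =>
        Set.Subsingleton.finite fun V hV V' hV' => IsGauss.unique hP hV hV'
    refine (h1.union h2).subset ?_
    rintro V ⟨hV, hV'⟩
    have hbV := hle V hV b hb
    rcases hV with ⟨k1, k2, -⟩ | ⟨W, hW, hG⟩
    · left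
      have : IsDiscreteValuationRing V := hP.isFF.dvr ⟨V, k1, k2⟩
      exact ⟨⟨V, k1, k2⟩, fun h0 => hV' ((ord_eq_zero_iff V b).1 h0).2, rfl⟩
    · right
      have hn : b ∈ V.nonunits := (ValuationSubring.mem_nonunits_iff_or _).2 (Or.inr hV')
      rw [hpq] at hbV hn
      obtain ⟨k1, k2⟩ := hG.coeff_mem hP hbV
      obtain ⟨k3, k4⟩ := hG.coeff_nonunits hP k1 k2 hn
      have hcn : c ∈ W.nonunits := by
        rcases hc with ⟨i, rfl⟩ | ⟨i, rfl⟩
        · exact k3 i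
        · exact k4 i
      exact Set.mem_biUnion (x := W)
        ⟨hW, ((ValuationSubring.mem_nonunits_iff_or _).1 hcn).resolve_left hc0⟩ hG
  · have h1 : f ∈ crd F P := hP.mem_crd fun V hx => hf V.1 (Or.inl ⟨V.2.1, V.2.2, hx⟩)
    obtain ⟨p, q, rfl⟩ := hP.repr h1
    have h2 : ∀ W ∈ 𝒲, (∀ i, p.coeff i ∈ W) ∧ ∀ i, q.coeff i ∈ W := fun W hW => by
      obtain ⟨V, hG⟩ := hP.exists_gauss W
      exact hG.coeff_mem hP (hf V (Or.inr ⟨W, hW, hG⟩))
    have := Krull_aux_aeval2 (P := P) (B := B) (d := 1) (p := p) (q := q)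
      (fun i => by rw [one_mul]; exact hK.inter _ fun W hW => (h2 W hW).1 i)
      fun i => by rw [one_mul]; exact hK.inter _ fun W hW => (h2 W hW).2 i
    rwa [map_one, one_mul] at this

variable {F : Type} [Field F] [Algebra ℂ F] {B : Subalgebra ℂ F} {𝒲 : Set (ValuationSubring F)}

theorem Krull.fin' (hK : Krull B 𝒲) (f : F) : {W ∈ 𝒲 | f ∉ W}.Finite := Krull_aux_fin hK f

omit [Algebra ℂ F] in
theorem Krull_aux_pow (W : ValuationSubring F) [IsDiscreteValuationRing W] {c : F}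
    (hc : c ∈ W.nonunits) (f : F) : ∃ k : ℕ, c ^ k * f ∈ W := by
  by_cases hc0 : c = 0
  · exact ⟨1, by simp [hc0]⟩
  by_cases hf0 : f = 0
  · exact ⟨0, by simp [hf0]⟩
  have h1 := (ord_pos_iff W hc0).2 hc
  refine ⟨(ord W f).natAbs, (ord_nonneg_iff W _).1 ?_⟩
  rw [ord_mul W (pow_ne_zero _ hc0) hf0, ord_pow]
  have h2 : -ord W f ≤ ((ord W f).natAbs : ℤ) := by omega
  have h3 : (0 : ℤ) ≤ ((ord W f).natAbs : ℤ) := by omega
  nlinarith

/-- Clearing all poles by elements of a submonoid. -/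
theorem Krull_aux_poles (hK : Krull B 𝒲) (D : Submonoid F) (hD : ∀ d ∈ D, d ∈ B) {f : F}
    (h : ∀ W ∈ 𝒲, f ∉ W → ∃ c ∈ D, c ∈ W.nonunits) : ∃ c ∈ D, c * f ∈ B := by
  classical
  have h' : ∀ W : ValuationSubring F, ∃ c ∈ D, W ∈ 𝒲 → c * f ∈ W := fun W => by
    by_cases hW : W ∈ 𝒲
    · by_cases hf : f ∈ W
      · exact ⟨1, one_mem _, fun _ => by rwa [one_mul]⟩
      · obtain ⟨c, hc, hc'⟩ := h W hW hf
        have := hK.dvr W hW
        obtain ⟨k, hk⟩ := Krull_aux_pow W hc' f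
        exact ⟨c ^ k, pow_mem hc k, fun _ => hk⟩
    · exact ⟨1, one_mem _, fun h => absurd h hW⟩
  choose e he he' using h'
  refine ⟨∏ W ∈ (hK.fin' f).toFinset, e W, prod_mem fun W _ => he W, hK.inter _ fun W hW => ?_⟩
  by_cases hf : f ∈ W
  · exact mul_mem (hK.le W hW _ (prod_mem fun W _ => hD _ (he W))) hf
  · have hm : W ∈ (hK.fin' f).toFinset := (Set.Finite.mem_toFinset _).2 ⟨hW, hf⟩
    rw [← Finset.mul_prod_erase _ _ hm, mul_comm (e W), mul_assoc]
    exact mul_mem (hK.le W hW _ (prod_mem fun W _ => hD _ (he W))) (he' W hW)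

theorem Krull_aux_adjoin {t : F} (ht : t ∈ B) {S : Set F} (hS : ∀ g ∈ S, t * g ∈ B) {b : F}
    (hb : b ∈ Algebra.adjoin ℂ ((B : Set F) ∪ S)) : ∃ n : ℕ, t ^ n * b ∈ B := by
  induction hb using Algebra.adjoin_induction with
  | mem x hx =>
    rcases hx with hx | hx
    · exact ⟨0, by simpa using hx⟩
    · exact ⟨1, by simpa using hS x hx⟩
  | algebraMap r => exact ⟨0, by simp⟩
  | add x y _ _ hx hy =>
    obtain ⟨m, hm⟩ := hx
    obtain ⟨n, hn⟩ := hy
    refine ⟨m + n, ?_⟩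
    rw [show t ^ (m + n) * (x + y) = t ^ n * (t ^ m * x) + t ^ m * (t ^ n * y) by ring]
    exact add_mem (mul_mem (pow_mem ht n) hm) (mul_mem (pow_mem ht m) hn)
  | mul x y _ _ hx hy =>
    obtain ⟨m, hm⟩ := hx
    obtain ⟨n, hn⟩ := hy
    refine ⟨m + n, ?_⟩
    rw [show t ^ (m + n) * (x * y) = (t ^ m * x) * (t ^ n * y) by ring]
    exact mul_mem hm hn

/-- Clearing the finitely many poles of `f`: at a pole `W` with `t` a unit, `B[S] ⊆ W` and some
`b ∈ B[S]` is a unit of `O` but not of `W`; the poles of the result have `t` in the maximal ideal. -/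
theorem Krull.hartogs' (hK : Krull B 𝒲) {t : F} (ht : t ∈ B) (ht0 : t ≠ 0) {S : Set F}
    (hS : ∀ g ∈ S, t * g ∈ B) {O : Pt F} (hO : O ∈ spec (Algebra.adjoin ℂ ((B : Set F) ∪ S)))
    {f : F} (hf : ∀ W ∈ 𝒲, (∀ g ∈ O.1, g ∈ W) → f ∈ W) :
    ∃ b, ∃ N : ℕ, IsU O b ∧ t ^ N * b * f ∈ B := by
  let D : Submonoid F :=
    { carrier := {c | c ∈ B ∧ ∃ b, ∃ N : ℕ, IsU O b ∧ c = t ^ N * b}
      one_mem' := ⟨one_mem _, 1, 0, isU_one O, by simp⟩
      mul_mem' := by
        rintro _ _ ⟨ha, a, m, hu, rfl⟩ ⟨hb, b, n, hu', rfl⟩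
        exact ⟨mul_mem ha hb, a * b, m + n, hu.mul hu', by ring⟩ }
  obtain ⟨c, ⟨-, b, N, hu, rfl⟩, hc⟩ := Krull_aux_poles hK D (fun d hd => hd.1) (f := f) (by
    intro W hW hfW
    by_cases htW : t⁻¹ ∈ W
    · have hC : ∀ c : ℂ, algebraMap ℂ F c ∈ W := fun c => hK.le W hW _ (B.algebraMap_mem c)
      have hR : Algebra.adjoin ℂ ((B : Set F) ∪ S) ≤ (vpt W hC).1 := by
        refine Algebra.adjoin_le ?_
        rintro g (hg | hg)
        · exact hK.le W hW g hg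
        · have : t⁻¹ * (t * g) ∈ W := mul_mem htW (hK.le W hW _ (hS g hg))
          rwa [inv_mul_cancel_left₀ ht0] at this
      obtain ⟨g, hg, hgW⟩ : ∃ g ∈ O.1, g ∉ W := by
        by_contra hn
        push Not at hn
        exact hfW (hf W hW hn)
      obtain ⟨a, ha, b, hb, hb', rfl⟩ := hO.2 g hg
      have hb0 : b ≠ 0 := fun h => hgW (by simp [h])
      have hbW : b⁻¹ ∉ W := fun h => hgW (by
        rw [div_eq_mul_inv]; exact mul_mem (hR ha) h)
      obtain ⟨n, hn⟩ := Krull_aux_adjoin ht hS hb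
      refine ⟨t ^ n * b, ⟨hn, b, n, ⟨hb0, hO.1 hb, hb'⟩, rfl⟩, ?_⟩
      refine (ValuationSubring.mem_nonunits_iff_or _).2 (Or.inr fun h => hbW ?_)
      have : t ^ n * (t ^ n * b)⁻¹ ∈ W := mul_mem (pow_mem (hK.le W hW t ht) n) h
      rwa [mul_inv, mul_inv_cancel_left₀ (pow_ne_zero n ht0)] at this
    · exact ⟨t, ⟨ht, 1, 1, isU_one O, by simp⟩,
        (ValuationSubring.mem_nonunits_iff_or _).2 (Or.inr htW)⟩)
  exact ⟨b, N, hu, hc⟩

theorem Krull.hartogs (hK : Krull B 𝒲) {O : Pt F} (hO : O ∈ spec B) {f : F}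
    (hf : ∀ W ∈ 𝒲, (∀ g ∈ O.1, g ∈ W) → f ∈ W) : f ∈ O.1 := by
  obtain ⟨b, N, hu, h⟩ := hK.hartogs' (t := 1) (S := ∅) (O := O) (one_mem _) one_ne_zero
    (fun _ h => h.elim) (by rwa [Set.union_empty, Algebra.adjoin_eq]) hf
  have : b⁻¹ * (1 ^ N * b * f) ∈ O.1 := mul_mem hu.2.2 (hO.1 h)
  rwa [one_pow, one_mul, inv_mul_cancel_left₀ hu.1] at this

end Pool.Agent.MP_95da86_ag

end
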