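import Pool.Agent.Mg.F95da86.G0087e1

section

/-! The order function of a discrete valuation ring. -/

namespace Pool.Agent.MP_95da86_ag

theorem Ord_aux_unit {k : Type} [Field k] (V : ValuationSubring k) {u : k} (h0 : u ≠ 0)
    (h1 : u ∈ V) (h2 : u⁻¹ ∈ V) : IsUnit (⟨u, h1⟩ : V) :=
  IsUnit.of_mul_eq_one ⟨u⁻¹, h2⟩ (Subtype.ext (mul_inv_cancel₀ h0))

theorem Ord_aux_of_unit {k : Type} [Field k] (V : ValuationSubring k) (U : Vˣ) :
    ((U : V) : k) ≠ 0 ∧ ((U : V) : k)⁻¹ ∈ V := by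
  have h : ((U : V) : k) * ((U⁻¹ : Vˣ) : V) = 1 := by
    rw [← MulMemClass.coe_mul, U.mul_inv]; rfl
  refine ⟨left_ne_zero_of_mul_eq_one h, ?_⟩
  rw [← eq_inv_of_mul_eq_one_right h]
  exact SetLike.coe_mem _

theorem Ord_aux_mem {k : Type} [Field k] (V : ValuationSubring k) {π u : k} (p0 : π ≠ 0)
    (p1 : π ∈ V) (p2 : π⁻¹ ∉ V) (h0 : u ≠ 0) (h1 : u ∈ V) (h2 : u⁻¹ ∈ V) (n : ℤ) :
    u * π ^ n ∈ V ↔ 0 ≤ n := by
  constructor
  · intro h
    by_contra hn
    obtain ⟨m, hm⟩ : ∃ m : ℕ, n = -((m : ℤ) + 1) := ⟨(-n - 1).toNat, by omega⟩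
    apply p2
    have e : π⁻¹ = (u * π ^ n) * u⁻¹ * π ^ m := by
      rw [hm, zpow_neg, zpow_add₀ p0, zpow_natCast, zpow_one]
      field_simp
    rw [e]
    exact mul_mem (mul_mem h h2) (pow_mem p1 m)
  · intro h
    obtain ⟨m, rfl⟩ := Int.eq_ofNat_of_zero_le h
    rw [zpow_natCast]
    exact mul_mem h1 (pow_mem p1 m)

theorem Ord_aux_irr {k : Type} [Field k] (V : ValuationSubring k) {ϖ : V}
    (hϖ : Irreducible ϖ) : (ϖ : k) ≠ 0 ∧ (ϖ : k)⁻¹ ∉ V := by
  have h0 : (ϖ : k) ≠ 0 := fun h => hϖ.ne_zero (Subtype.ext h)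
  exact ⟨h0, fun h => hϖ.not_isUnit (Ord_aux_unit V h0 ϖ.2 h)⟩

theorem Ord_aux_nat {k : Type} [Field k] (V : ValuationSubring k) [IsDiscreteValuationRing V]
    {ϖ : V} (hϖ : Irreducible ϖ) {u : k} (h0 : u ≠ 0) (h1 : u ∈ V) (h2 : u⁻¹ ∈ V) (m : ℕ)
    {f : k} (hf : f ∈ V) (e : f = u * (ϖ : k) ^ m) : (Ring.ord V ⟨f, hf⟩).toNat = m := by
  obtain ⟨U, hU⟩ := Ord_aux_unit V h0 h1 h2
  have e' : (⟨f, hf⟩ : V) = U * ϖ ^ m := by
    rw [hU]
    exact Subtype.ext (by simpa using e)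
  rw [Ring.ord_eq_addVal, IsDiscreteValuationRing.addVal_def _ U hϖ m e']
  simp

theorem Ord_aux_val {k : Type} [Field k] (V : ValuationSubring k) [IsDiscreteValuationRing V]
    {ϖ : V} (hϖ : Irreducible ϖ) {u : k} (h0 : u ≠ 0) (h1 : u ∈ V) (h2 : u⁻¹ ∈ V) (n : ℤ) :
    ord V (u * (ϖ : k) ^ n) = n := by
  obtain ⟨p0, p2⟩ := Ord_aux_irr V hϖ
  have hm := Ord_aux_mem V p0 ϖ.2 p2 h0 h1 h2 n
  unfold ord
  split_ifs with h
  · obtain ⟨m, rfl⟩ := Int.eq_ofNat_of_zero_le (hm.1 h)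
    rw [Ord_aux_nat V hϖ h0 h1 h2 m h (by rw [zpow_natCast])]
  · have hn : n < 0 := by
      by_contra hn
      exact h (hm.2 (by omega))
    obtain ⟨m, rfl⟩ : ∃ m : ℕ, n = -(m : ℤ) := ⟨(-n).toNat, by omega⟩
    rw [Ord_aux_nat V hϖ (inv_ne_zero h0) h2 (by rwa [inv_inv]) m _
      (by rw [mul_inv, zpow_neg, inv_inv, zpow_natCast])]

theorem Ord_aux_dec {k : Type} [Field k] (V : ValuationSubring k) [IsDiscreteValuationRing V]
    {ϖ : V} (hϖ : Irreducible ϖ) {f : k} (hf : f ≠ 0) :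
    ∃ (u : k) (n : ℤ), u ≠ 0 ∧ u ∈ V ∧ u⁻¹ ∈ V ∧ f = u * (ϖ : k) ^ n := by
  have key : ∀ g : k, g ≠ 0 → g ∈ V →
      ∃ (u : k) (n : ℕ), u ≠ 0 ∧ u ∈ V ∧ u⁻¹ ∈ V ∧ g = u * (ϖ : k) ^ n := by
    intro g g0 hg
    have g0' : (⟨g, hg⟩ : V) ≠ 0 := fun h => g0 (congrArg Subtype.val h)
    obtain ⟨n, U, hU⟩ := IsDiscreteValuationRing.eq_unit_mul_pow_irreducible g0' hϖ
    obtain ⟨a, b⟩ := Ord_aux_of_unit V U
    refine ⟨((U : V) : k), n, a, SetLike.coe_mem _, b, ?_⟩
    simpa using congrArg Subtype.val hU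
  rcases V.mem_or_inv_mem f with h | h
  · obtain ⟨u, n, a, b, c, d⟩ := key f hf h
    exact ⟨u, n, a, b, c, by rw [zpow_natCast]; exact d⟩
  · obtain ⟨u, n, a, b, c, d⟩ := key f⁻¹ (inv_ne_zero hf) h
    refine ⟨u⁻¹, -(n : ℤ), inv_ne_zero a, c, by rwa [inv_inv], ?_⟩
    rw [zpow_neg, zpow_natCast, ← mul_inv, ← d, inv_inv]

theorem Ord_aux_ring {R S : Type} [CommRing R] [CommRing S] (e : R ≃+* S) (x : R) :
    Ring.ord S (e x) = Ring.ord R x := by
  unfold Ring.ord
  rw [Module.length_quotient, Module.length_quotient]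
  have h := Order.coheight_orderIso (Ideal.relIsoOfBijective (e : R →+* S) e.bijective)
    (Ideal.span {e x})
  rw [← h]
  congr 1
  change Ideal.comap (e : R →+* S) (Ideal.span {e x}) = Ideal.span {x}
  ext y
  rw [Ideal.mem_comap, Ideal.mem_span_singleton, Ideal.mem_span_singleton]
  exact map_dvd_iff e

section
variable {k : Type} [Field k] (V : ValuationSubring k) [IsDiscreteValuationRing V]

theorem ord_zero : ord V 0 = 0 := by
  unfold ord
  rw [dif_pos V.zero_mem]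
  have : (⟨0, V.zero_mem⟩ : V) = 0 := rfl
  rw [this, Ring.ord_eq_addVal, IsDiscreteValuationRing.addVal_zero]
  simp
theorem ord_one : ord V 1 = 0 := by
  obtain ⟨ϖ, hϖ⟩ := IsDiscreteValuationRing.exists_irreducible V
  simpa using Ord_aux_val V hϖ one_ne_zero V.one_mem (by simp) 0
theorem ord_mul {f g : k} (hf : f ≠ 0) (hg : g ≠ 0) : ord V (f * g) = ord V f + ord V g := by
  obtain ⟨ϖ, hϖ⟩ := IsDiscreteValuationRing.exists_irreducible V
  obtain ⟨p0, -⟩ := Ord_aux_irr V hϖ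
  obtain ⟨u, n, a, b, c, rfl⟩ := Ord_aux_dec V hϖ hf
  obtain ⟨u', n', a', b', c', rfl⟩ := Ord_aux_dec V hϖ hg
  have e : u * (ϖ : k) ^ n * (u' * (ϖ : k) ^ n') = (u * u') * (ϖ : k) ^ (n + n') := by
    rw [zpow_add₀ p0]; ring
  rw [e, Ord_aux_val V hϖ a b c, Ord_aux_val V hϖ a' b' c',
    Ord_aux_val V hϖ (mul_ne_zero a a') (mul_mem b b') (by rw [mul_inv]; exact mul_mem c c')]
theorem ord_inv (f : k) : ord V f⁻¹ = -ord V f := by
  by_cases hf : f = 0
  · subst hf
    simp [ord_zero]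
  have h := ord_mul V hf (inv_ne_zero hf)
  rw [mul_inv_cancel₀ hf, ord_one] at h
  omega
theorem ord_div {f g : k} (hf : f ≠ 0) (hg : g ≠ 0) : ord V (f / g) = ord V f - ord V g := by
  rw [div_eq_mul_inv, ord_mul V hf (inv_ne_zero hg), ord_inv, sub_eq_add_neg]
theorem ord_neg (f : k) : ord V (-f) = ord V f := by
  by_cases hf : f = 0
  · subst hf
    simp
  have m0 : (-1 : k) ≠ 0 := neg_ne_zero.2 one_ne_zero
  have h := ord_mul V m0 m0
  rw [neg_one_mul, neg_neg, ord_one] at h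
  rw [← neg_one_mul, ord_mul V m0 hf]
  omega
theorem ord_pow (f : k) (n : ℕ) : ord V (f ^ n) = n * ord V f := by
  by_cases hf : f = 0
  · subst hf
    rcases n with _ | n
    · simp [ord_one]
    · simp [ord_zero]
  induction n with
  | zero => simp [ord_one]
  | succ n ih =>
    rw [pow_succ, ord_mul V (pow_ne_zero n hf) hf, ih]
    push_cast
    ring
theorem ord_zpow (f : k) (n : ℤ) : ord V (f ^ n) = n * ord V f := by
  obtain ⟨m, rfl | rfl⟩ := Int.eq_nat_or_neg n
  · rw [zpow_natCast, ord_pow]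
  · rw [zpow_neg, zpow_natCast, ord_inv, ord_pow]
    ring
theorem ord_prod {ι : Type} (s : Finset ι) (f : ι → k) (hf : ∀ i ∈ s, f i ≠ 0) :
    ord V (∏ i ∈ s, f i) = ∑ i ∈ s, ord V (f i) := by
  classical
  induction s using Finset.induction_on with
  | empty => simp [ord_one]
  | insert a s ha ih =>
    have hs : ∀ i ∈ s, f i ≠ 0 := fun i hi => hf i (Finset.mem_insert_of_mem hi)
    rw [Finset.prod_insert ha, Finset.sum_insert ha,
      ord_mul V (hf a (Finset.mem_insert_self a s)) (Finset.prod_ne_zero_iff.2 hs), ih hs]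
theorem ord_nonneg_iff (f : k) : 0 ≤ ord V f ↔ f ∈ V := by
  by_cases hf : f = 0
  · subst hf
    simp [ord_zero]
  obtain ⟨ϖ, hϖ⟩ := IsDiscreteValuationRing.exists_irreducible V
  obtain ⟨p0, p2⟩ := Ord_aux_irr V hϖ
  obtain ⟨u, n, a, b, c, rfl⟩ := Ord_aux_dec V hϖ hf
  rw [Ord_aux_val V hϖ a b c, Ord_aux_mem V p0 ϖ.2 p2 a b c]
theorem ord_pos_iff {f : k} (hf : f ≠ 0) : 0 < ord V f ↔ f ∈ V.nonunits := by
  rw [ValuationSubring.mem_nonunits_iff_or, ← ord_nonneg_iff, ord_inv]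
  constructor
  · intro h
    right
    omega
  · rintro (h | h)
    · exact absurd h hf
    · omega
theorem ord_eq_zero_iff (f : k) : ord V f = 0 ↔ f ∈ V ∧ f⁻¹ ∈ V := by
  rw [← ord_nonneg_iff, ← ord_nonneg_iff, ord_inv]
  omega
theorem ord_add {f g : k} (hf : f ≠ 0) (hg : g ≠ 0) (h : f + g ≠ 0) :
    min (ord V f) (ord V g) ≤ ord V (f + g) := by
  have key : ∀ f g : k, f ≠ 0 → g ≠ 0 → f + g ≠ 0 → ord V f ≤ ord V g →
      ord V f ≤ ord V (f + g) := by
    intro f g hf hg h hle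
    have h1 : g / f ∈ V := by
      rw [← ord_nonneg_iff, ord_div V hg hf]
      omega
    have h2 : (f + g) / f ∈ V := by
      rw [add_div, div_self hf]
      exact add_mem V.one_mem h1
    rw [← ord_nonneg_iff, ord_div V h hf] at h2
    omega
  rcases le_total (ord V f) (ord V g) with hle | hle
  · exact (min_le_left _ _).trans (key f g hf hg h hle)
  · rw [add_comm] at h ⊢
    exact (min_le_right _ _).trans (key g f hg hf h hle)
theorem ord_add_of_lt {f g : k} (hf : f ≠ 0) (hg : g ≠ 0) (h : ord V f < ord V g) :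
    f + g ≠ 0 ∧ ord V (f + g) = ord V f := by
  have h0 : f + g ≠ 0 := by
    intro e
    rw [eq_neg_of_add_eq_zero_left e, ord_neg] at h
    exact lt_irrefl _ h
  refine ⟨h0, ?_⟩
  have h1 := ord_add V hf hg h0
  have h2 := ord_add V h0 (neg_ne_zero.2 hg) (by rwa [add_neg_cancel_right])
  rw [add_neg_cancel_right, ord_neg] at h2
  omega
theorem exists_ord_eq_one : ∃ π : k, π ≠ 0 ∧ ord V π = 1 := by
  obtain ⟨ϖ, hϖ⟩ := IsDiscreteValuationRing.exists_irreducible V
  refine ⟨ϖ, (Ord_aux_irr V hϖ).1, ?_⟩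
  simpa using Ord_aux_val V hϖ one_ne_zero V.one_mem (by simp) 1
theorem ne_top_of_dvr : V ≠ ⊤ := by
  obtain ⟨ϖ, hϖ⟩ := IsDiscreteValuationRing.exists_irreducible V
  intro h
  apply (Ord_aux_irr V hϖ).2
  generalize (ϖ : k)⁻¹ = y
  rw [h]
  exact ValuationSubring.mem_top y
end

/-- A valuation ring in which every non-zero element is a unit times a power of a non-unit. -/
theorem dvr_of_unif {k : Type} [Field k] (V : ValuationSubring k) (π : k) (h0 : π ≠ 0)
    (hπ : π ∈ V.nonunits) (h : ∀ f : k, f ≠ 0 → ∃ n : ℤ, f / π ^ n ∈ V ∧ π ^ n / f ∈ V) :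
    IsDiscreteValuationRing V ∧ ord V π = 1 := by
  have p1 : π ∈ V := V.nonunits_le hπ
  have p2 : π⁻¹ ∉ V := (V.mem_nonunits_iff_or.1 hπ).resolve_left h0
  have key : ∀ x : V, x ≠ 0 → ∃ (m : ℕ) (U : Vˣ), (⟨π, p1⟩ : V) ^ m * U = x := by
    intro x hx
    have x0 : (x : k) ≠ 0 := fun e => hx (Subtype.ext e)
    obtain ⟨n, a, b⟩ := h x x0
    have pn : π ^ n ≠ 0 := zpow_ne_zero n h0
    have u0 : (x : k) / π ^ n ≠ 0 := div_ne_zero x0 pn
    have b' : ((x : k) / π ^ n)⁻¹ ∈ V := by rwa [inv_div]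
    have e : (x : k) / π ^ n * π ^ n = x := div_mul_cancel₀ _ pn
    have hn : 0 ≤ n := (Ord_aux_mem V h0 p1 p2 u0 a b' n).1 (by rw [e]; exact x.2)
    obtain ⟨m, rfl⟩ := Int.eq_ofNat_of_zero_le hn
    obtain ⟨U, hU⟩ := Ord_aux_unit V u0 a b'
    refine ⟨m, U, Subtype.ext ?_⟩
    rw [hU, mul_comm]
    simpa using e
  have hirr : Irreducible (⟨π, p1⟩ : V) := by
    have q0 : (⟨π, p1⟩ : V) ≠ 0 := fun e => h0 (congrArg Subtype.val e)
    have qn : (⟨π, p1⟩ : V) ∈ IsLocalRing.maximalIdeal V := V.coe_mem_nonunits_iff.1 hπ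
    apply IsDiscreteValuationRing.irreducible_of_span_eq_maximalIdeal _ q0
    apply le_antisymm
    · intro x hx
      by_cases x0 : x = 0
      · rw [x0]
        exact zero_mem _
      obtain ⟨m, U, rfl⟩ := key x x0
      rcases m with _ | m
      · exact absurd (by simp) ((IsLocalRing.mem_maximalIdeal _).1 hx)
      · rw [Ideal.mem_span_singleton, pow_succ', mul_assoc]
        exact dvd_mul_right _ _
    · rwa [Ideal.span_singleton_le_iff_mem]
  have hD : IsDiscreteValuationRing V :=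
    IsDiscreteValuationRing.ofHasUnitMulPowIrreducibleFactorization
      ⟨_, hirr, fun {x} hx => by
        obtain ⟨m, U, e⟩ := key x hx
        exact ⟨m, U, e⟩⟩
  refine ⟨hD, ?_⟩
  simpa using Ord_aux_val V hirr one_ne_zero V.one_mem (by simp) 1

/-- Invariance under isomorphisms (no hypothesis on `V`). -/
theorem ord_equiv {k k' : Type} [Field k] [Field k'] (e : k ≃+* k') (V : ValuationSubring k)
    (V' : ValuationSubring k') (h : ∀ f, e f ∈ V' ↔ f ∈ V) (f : k) : ord V' (e f) = ord V f := by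
  let E : V ≃+* V' :=
    { toFun := fun x => ⟨e x, (h x).2 x.2⟩
      invFun := fun y => ⟨e.symm y, (h _).1 (by rw [e.apply_symm_apply]; exact y.2)⟩
      left_inv := fun x => Subtype.ext (e.symm_apply_apply _)
      right_inv := fun y => Subtype.ext (e.apply_symm_apply _)
      map_mul' := fun x y => Subtype.ext (by simp)
      map_add' := fun x y => Subtype.ext (by simp) }
  unfold ord
  by_cases hf : f ∈ V
  · rw [dif_pos hf, dif_pos ((h f).2 hf), ← Ord_aux_ring E ⟨f, hf⟩]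
    rfl
  · rw [dif_neg hf, dif_neg (fun g => hf ((h f).1 g)), ← Ord_aux_ring E ⟨f⁻¹, _⟩]
    congr 4
    exact Subtype.ext (map_inv₀ e f).symm

/-- The ramification index. -/
theorem exists_ram {k k' : Type} [Field k] [Field k'] (φ : k →+* k') (V : ValuationSubring k)
    (V' : ValuationSubring k') [IsDiscreteValuationRing V] [IsDiscreteValuationRing V']
    (h : ∀ f, φ f ∈ V' ↔ f ∈ V) : ∃ e : ℕ, 0 < e ∧ ∀ f, ord V' (φ f) = e * ord V f := by
  obtain ⟨ϖ, hϖ⟩ := IsDiscreteValuationRing.exists_irreducible V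
  obtain ⟨p0, p2⟩ := Ord_aux_irr V hϖ
  have hpos : 0 < ord V' (φ ϖ) := by
    rw [← h, map_inv₀, ← ord_nonneg_iff, ord_inv] at p2
    omega
  obtain ⟨m, hm⟩ := Int.eq_ofNat_of_zero_le hpos.le
  refine ⟨m, by omega, fun f => ?_⟩
  by_cases hf : f = 0
  · subst hf
    simp [ord_zero]
  obtain ⟨u, n, a, b, c, rfl⟩ := Ord_aux_dec V hϖ hf
  have hu : ord V' (φ u) = 0 :=
    (ord_eq_zero_iff V' _).2 ⟨(h u).2 b, by rw [← map_inv₀]; exact (h _).2 c⟩
  rw [Ord_aux_val V hϖ a b c, map_mul, map_zpow₀,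
    ord_mul V' ((map_ne_zero φ).2 a) (zpow_ne_zero n ((map_ne_zero φ).2 p0)), hu, ord_zpow, hm]
  ring

end Pool.Agent.MP_95da86_ag

end

section

/-! Heights of points over function fields: the exact parallelogram law. -/

namespace Pool.Agent.MP_95da86_ag

variable {M : Type} [Field M] [Algebra ℂ M]

section Aux

variable {k Γ : Type} [Field k] [LinearOrderedCommGroupWithZero Γ] (v : Valuation k Γ)

theorem HeightA_aux_gauss (a b : k) :
    max (max 1 (v (a + b))) (v (a * b)) = max 1 (v a) * max 1 (v b) := by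
  rw [map_mul]
  rcases le_or_gt (v a) 1 with ha | ha <;> rcases le_or_gt (v b) 1 with hb | hb
  · rw [max_eq_left ha, max_eq_left hb, one_mul, max_eq_left (v.map_add_le ha hb),
      max_eq_left (mul_le_one' ha hb)]
  · rw [max_eq_left ha, max_eq_right hb.le, one_mul, v.map_add_eq_of_lt_right (ha.trans_lt hb),
      max_eq_right hb.le, max_eq_left (mul_le_of_le_one_left' ha)]
  · rw [max_eq_left hb, max_eq_right ha.le, mul_one, v.map_add_eq_of_lt_left (hb.trans_lt ha),
      max_eq_right ha.le, max_eq_left (mul_le_of_le_one_right' hb)]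
  · rw [max_eq_right ha.le, max_eq_right hb.le]
    refine max_eq_right (max_le (one_le_mul ha.le hb.le) (v.map_add_le ?_ ?_))
    · exact le_mul_of_one_le_right' hb.le
    · exact le_mul_of_one_le_left' ha.le

theorem HeightA_aux_nat (n : ℕ) : v (n : k) ≤ 1 := by
  induction n with
  | zero => simp
  | succ n ih => rw [Nat.cast_succ]; exact v.map_add_le ih v.map_one.le

theorem HeightA_aux_quad (h144 : v 144 = 1) (s p : k) :
    max (max (v (s ^ 2 - 4 * p)) (v (2 * p * s + 4))) (v (p ^ 2 - 4 * s)) =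
      max (max 1 (v s)) (v p) ^ 2 := by
  have n2 : v 2 ≤ 1 := by simpa using HeightA_aux_nat v 2
  have n4 : v 4 ≤ 1 := by simpa using HeightA_aux_nat v 4
  have n16 : v 16 ≤ 1 := by simpa using HeightA_aux_nat v 16
  have n40 : v 40 ≤ 1 := by simpa using HeightA_aux_nat v 40
  set m := max (max 1 (v s)) (v p) with hm
  have h1 : 1 ≤ m := (le_max_left _ _).trans (le_max_left _ _)
  have hs : v s ≤ m := (le_max_right _ _).trans (le_max_left _ _)
  have hp : v p ≤ m := le_max_right _ _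
  have hmm : m ≤ m ^ 2 := by rw [sq]; exact le_mul_of_one_le_right' h1
  have h4p : v (4 * p) ≤ m := by rw [map_mul]; exact (mul_le_of_le_one_left' n4).trans hp
  have h4s : v (4 * s) ≤ m := by rw [map_mul]; exact (mul_le_of_le_one_left' n4).trans hs
  apply le_antisymm
  · refine max_le (max_le (v.map_sub_le ?_ (h4p.trans hmm)) (v.map_add_le ?_ ?_))
      (v.map_sub_le ?_ (h4s.trans hmm))
    · rw [map_pow]; exact pow_le_pow_left' hs 2
    · rw [map_mul, map_mul, sq]
      exact mul_le_mul' ((mul_le_of_le_one_left' n2).trans hp) hs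
    · exact n4.trans (h1.trans hmm)
    · rw [map_pow]; exact pow_le_pow_left' hp 2
  · rcases h1.eq_or_lt with h | h
    · rw [← h] at hs hp ⊢
      rw [one_pow]
      by_contra hc
      simp only [not_le, max_lt_iff] at hc
      obtain ⟨⟨hA, hB⟩, hC⟩ := hc
      have e : (144 : k) = (4 * (p ^ 2 - 4 * s) + 16 * s) * (s ^ 2 - 4 * p) +
          (16 * p) * (p ^ 2 - 4 * s) + (40 - (2 * p * s + 4)) * (2 * p * s + 4) := by ring
      have : v (144 : k) < 1 := by
        rw [e]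
        refine v.map_add_lt (v.map_add_lt ?_ ?_) ?_
        · rw [map_mul]
          refine (mul_le_of_le_one_left' (v.map_add_le ?_ ?_)).trans_lt hA
          · rw [map_mul]; exact mul_le_one' n4 hC.le
          · rw [map_mul]; exact mul_le_one' n16 hs
        · rw [map_mul, map_mul]
          exact (mul_le_of_le_one_left' (mul_le_one' n16 hp)).trans_lt hC
        · rw [map_mul]
          exact (mul_le_of_le_one_left' (v.map_sub_le n40 hB.le)).trans_lt hB
      exact this.ne h144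
    · have hlt : m < m ^ 2 := by
        rw [sq]; exact lt_mul_of_one_lt_right (zero_lt_one.trans h) h
      have : m = v s ∨ m = v p := by
        rcases max_choice (max 1 (v s)) (v p) with h2 | h2
        · rcases max_choice 1 (v s) with h3 | h3
          · exact absurd (hm.trans (h2.trans h3)) h.ne'
          · exact Or.inl (hm.trans (h2.trans h3))
        · exact Or.inr (hm.trans h2)
      rcases this with h2 | h2
      · refine le_trans (le_of_eq ?_) ((le_max_left _ _).trans (le_max_left _ _))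
        rw [v.map_sub_eq_of_lt_left (by rw [map_pow, ← h2]; exact h4p.trans_lt hlt), map_pow, ← h2]
      · refine le_trans (le_of_eq ?_) (le_max_right _ _)
        rw [v.map_sub_eq_of_lt_left (by rw [map_pow, ← h2]; exact h4s.trans_lt hlt), map_pow, ← h2]

theorem HeightA_aux_dbl (h9 : v 9 = 1) (x : k) :
    max (v (x ^ 3 + 1)) (v (x ^ 4 - 8 * x)) = max 1 (v x) ^ 4 := by
  have n8 : v 8 ≤ 1 := by simpa using HeightA_aux_nat v 8
  rcases le_or_gt (v x) 1 with h | h
  · have hp : ∀ n : ℕ, v (x ^ n) ≤ 1 := fun n => by rw [map_pow]; exact pow_le_one' h n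
    rw [max_eq_left h, one_pow]
    apply le_antisymm
    · refine max_le (v.map_add_le (hp 3) v.map_one.le) (v.map_sub_le (hp 4) ?_)
      rw [map_mul]; exact mul_le_one' n8 h
    · by_contra hc
      simp only [not_le, max_lt_iff] at hc
      have e : (9 : k) = (9 - x ^ 3) * (x ^ 3 + 1) + x ^ 2 * (x ^ 4 - 8 * x) := by ring
      have : v (9 : k) < 1 := by
        rw [e]
        refine v.map_add_lt ?_ ?_
        · rw [map_mul]
          exact (mul_le_of_le_one_left' (v.map_sub_le h9.le (hp 3))).trans_lt hc.1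
        · rw [map_mul]
          exact (mul_le_of_le_one_left' (hp 2)).trans_lt hc.2
      exact this.ne h9
  · have h1 : v (8 * x) < v (x ^ 4) := by
      rw [map_mul, map_pow]
      refine (mul_le_of_le_one_left' n8).trans_lt ?_
      simpa using pow_lt_pow_right₀ h (show 1 < 4 by norm_num)
    rw [max_eq_right h.le, v.map_sub_eq_of_lt_left h1, map_pow]
    refine max_eq_right (v.map_add_le ?_ ?_)
    · rw [map_pow]; exact pow_le_pow_right₀ h.le (by norm_num)
    · rw [v.map_one]; exact one_le_pow₀ h.le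

theorem HeightA_aux_eqn {x y : k} (h : y ^ 2 = x ^ 3 + 1) :
    max 1 (v y) ^ 2 = max 1 (v x) ^ 3 := by
  rcases le_or_gt (v x) 1 with hx | hx
  · have : v y ^ 2 ≤ 1 := by
      rw [← map_pow, h]
      exact v.map_add_le (by rw [map_pow]; exact pow_le_one' hx 3) v.map_one.le
    rw [max_eq_left hx, max_eq_left ((pow_le_one_iff (by norm_num)).1 this), one_pow, one_pow]
  · have h1 : v y ^ 2 = v x ^ 3 := by
      rw [← map_pow, h, v.map_add_eq_of_lt_left, map_pow]
      rw [v.map_one, map_pow]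
      exact one_lt_pow₀ hx (by norm_num)
    have h2 : 1 ≤ v y := by
      by_contra hc
      have := pow_le_one' (not_le.1 hc).le 2
      rw [h1] at this
      exact absurd this (not_le.2 (one_lt_pow₀ hx (by norm_num)))
    rw [max_eq_right hx.le, max_eq_right h2, h1]

end Aux

section Bridge

variable {k : Type} [Field k] (V : ValuationSubring k) [IsDiscreteValuationRing V]

theorem HeightA_aux_ord {f g : k} (hf : f ≠ 0) (hg : g ≠ 0)
    (h : V.valuation f = V.valuation g) : ord V f = ord V g := by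
  have h0 : V.valuation g ≠ 0 := by simpa using hg
  have : ord V (f / g) = 0 := by
    rw [ord_eq_zero_iff, ← V.valuation_le_one_iff, ← V.valuation_le_one_iff, map_inv₀, map_div₀, h,
      div_self h0]
    simp
  rw [ord_div V hf hg] at this
  omega

theorem HeightA_aux_pole (f : k) :
    ∃ z : k, z ≠ 0 ∧ V.valuation z = max 1 (V.valuation f) ∧ ord V z = -max 0 (-ord V f) := by
  by_cases h : f ∈ V
  · refine ⟨1, one_ne_zero, ?_, ?_⟩
    · rw [max_eq_left ((V.valuation_le_one_iff f).2 h), map_one]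
    · have := (ord_nonneg_iff V f).2 h
      rw [ord_one]
      omega
  · refine ⟨f, fun h0 => h (h0 ▸ V.zero_mem), ?_, ?_⟩
    · rw [max_eq_right (not_le.1 fun h' => h ((V.valuation_le_one_iff f).1 h')).le]
    · have := (ord_nonneg_iff V f).not.2 h
      omega

end Bridge

theorem HeightA_aux_unit (V : ValuationSubring M) (hV : ∀ c : ℂ, algebraMap ℂ M c ∈ V) (n : ℕ)
    (hn : n ≠ 0) : V.valuation (n : M) = 1 := by
  have := charZero_of M
  have h1 := (V.valuation_le_one_iff _).2 (hV (n : ℂ)⁻¹)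
  rw [map_inv₀, map_natCast, map_inv₀] at h1
  have h0 : 0 < V.valuation (n : M) := by
    rw [zero_lt_iff]
    simpa using hn
  exact le_antisymm (HeightA_aux_nat _ n) ((inv_le_one₀ h0).1 h1)

theorem lam_nonneg (V : ValuationSubring M) (Q : EP M) : 0 ≤ lam V Q := le_max_left _ _
theorem lam_pos_iff (V : ValuationSubring M) [IsDiscreteValuationRing V] (Q : EP M) :
    0 < lam V Q ↔ yc Q ∉ V := by
  rw [← ord_nonneg_iff, lam]
  omega
theorem lam_eq_ord_zq (V : ValuationSubring M) [IsDiscreteValuationRing V] (hV) (Q : EP M) :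
    lam V Q = ord V (zq (yc Q) (vpt V hV) : M) := by
  rw [lam, zq]
  split_ifs with h
  · have := (ord_nonneg_iff V _).2 (mem_vpt.1 h)
    rw [Units.val_one, ord_one]
    omega
  · have := (ord_nonneg_iff V _).not.2 (mem_vpt.not.1 h)
    rw [Units.val_inv_eq_inv_val, Units.val_mk0, ord_inv]
    omega
/-- From `y ^ 2 = x ^ 3 + 1`. -/
theorem two_lam (V : ValuationSubring M) [IsDiscreteValuationRing V] (Q : EP M) :
    2 * lam V Q = 3 * max 0 (-ord V (xc Q)) := by
  by_cases hQ : Q = 0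
  · subst hQ
    simp [lam, ord_zero]
  obtain ⟨z, z0, z1, z2⟩ := HeightA_aux_pole V (xc Q)
  obtain ⟨w, w0, w1, w2⟩ := HeightA_aux_pole V (yc Q)
  have := HeightA_aux_ord V (pow_ne_zero 2 w0) (pow_ne_zero 3 z0) (by
    rw [map_pow, map_pow, z1, w1]
    exact HeightA_aux_eqn _ (eqn_of_ne hQ))
  rw [ord_pow, ord_pow, z2, w2] at this
  rw [lam]
  push_cast at this
  omega
/-- The local parallelogram law. With `x₃, x₄` the abscissae of `P ± Q`:
`(1 : x₃ + x₄ : x₃ x₄) = ((x₁ - x₂) ^ 2 : 2 x₁ x₂ (x₁ + x₂) + 4 : x₁ ^ 2 x₂ ^ 2 - 4 (x₁ + x₂))`;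
the three quadratic forms in `(1 : x₁ + x₂ : x₁ x₂)` have no common zero, and `2, 3` are units. -/
theorem lam_par (V : ValuationSubring M) [IsDiscreteValuationRing V]
    (hV : ∀ c : ℂ, algebraMap ℂ M c ∈ V) {P Q : EP M} (hP : P ≠ 0) (hQ : Q ≠ 0)
    (hx : xc P ≠ xc Q) :
    lam V (P + Q) + lam V (P - Q) = 2 * lam V P + 2 * lam V Q + 3 * ord V (xc P - xc Q) := by
  have t1 := two_lam V P
  have t2 := two_lam V Q
  have t3 := two_lam V (P + Q)
  have t4 := two_lam V (P - Q)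
  obtain rfl | ⟨a, b, h, rfl⟩ := P.cases
  · exact absurd rfl hP
  obtain rfl | ⟨c, d, h', rfl⟩ := Q.cases
  · exact absurd rfl hQ
  simp only [xc_pt] at hx t1 t2 ⊢
  have hd : a - c ≠ 0 := sub_ne_zero.2 hx
  obtain ⟨l, l1, l2⟩ := exists_slope h h' fun hh => hx hh.1
  obtain ⟨_, e3⟩ := pt_add h h' (fun hh => hx hh.1) l l1 l2
  have h'' : (-d) ^ 2 = c ^ 3 + 1 := by rw [neg_sq]; exact h'
  obtain ⟨m, m1, m2⟩ := exists_slope h h'' fun hh => hx hh.1
  obtain ⟨_, e4⟩ := pt_add h h'' (fun hh => hx hh.1) m m1 m2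
  have x3 : xc (pt a b h + pt c d h') = l ^ 2 - a - c := by rw [e3, xc_pt]
  have x4 : xc (pt a b h - pt c d h') = m ^ 2 - a - c := by
    rw [sub_eq_add_neg, neg_pt, e4, xc_pt]
  rw [x3] at t3
  rw [x4] at t4
  have hlm : l * m * (a - c) = a ^ 2 + a * c + c ^ 2 := by linear_combination l * m1 + l2
  have hsq : (l ^ 2 + m ^ 2) * (a - c) ^ 2 = 2 * (a ^ 3 + c ^ 3 + 2) := by
    linear_combination (l * (a - c) + b - d) * l1 + (m * (a - c) + b + d) * m1 + 2 * h + 2 * h'
  have eB : (l ^ 2 - a - c + (m ^ 2 - a - c)) * (a - c) ^ 2 = 2 * (a * c) * (a + c) + 4 := by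
    linear_combination hsq
  have eC : (l ^ 2 - a - c) * (m ^ 2 - a - c) * (a - c) ^ 2 = (a * c) ^ 2 - 4 * (a + c) := by
    linear_combination (l * m * (a - c) + a ^ 2 + a * c + c ^ 2) * hlm - (a + c) * hsq
  have eA : (a - c) ^ 2 = (a + c) ^ 2 - 4 * (a * c) := by ring
  have key := HeightA_aux_quad V.valuation
    (by simpa using HeightA_aux_unit V hV 144 (by norm_num)) (a + c) (a * c)
  rw [← eA, ← eB, ← eC, HeightA_aux_gauss, map_mul _ _ ((a - c) ^ 2), map_mul _ _ ((a - c) ^ 2)]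
    at key
  nth_rw 1 [← one_mul (V.valuation ((a - c) ^ 2))] at key
  rw [← max_mul, ← max_mul, HeightA_aux_gauss] at key
  obtain ⟨z1, p1, q1, r1⟩ := HeightA_aux_pole V a
  obtain ⟨z2, p2, q2, r2⟩ := HeightA_aux_pole V c
  obtain ⟨z3, p3, q3, r3⟩ := HeightA_aux_pole V (l ^ 2 - a - c)
  obtain ⟨z4, p4, q4, r4⟩ := HeightA_aux_pole V (m ^ 2 - a - c)
  rw [← q1, ← q2, ← q3, ← q4, ← map_mul, ← map_mul, ← map_mul, ← map_pow] at key
  have := HeightA_aux_ord V (mul_ne_zero (mul_ne_zero p3 p4) (pow_ne_zero 2 hd))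
    (pow_ne_zero 2 (mul_ne_zero p1 p2)) key
  rw [ord_mul V (mul_ne_zero p3 p4) (pow_ne_zero 2 hd), ord_mul V p3 p4, ord_pow, ord_pow,
    ord_mul V p1 p2, r1, r2, r3, r4] at this
  push_cast at this
  omega
/-- The local duplication law. -/
theorem lam_dbl (V : ValuationSubring M) [IsDiscreteValuationRing V]
    (hV : ∀ c : ℂ, algebraMap ℂ M c ∈ V) {P : EP M} (hy : yc P ≠ 0) :
    lam V (P + P) = 4 * lam V P + 3 * ord V (yc P) := by
  have t1 := two_lam V P
  have t3 := two_lam V (P + P)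
  have := charZero_of M
  obtain rfl | ⟨a, b, h, rfl⟩ := P.cases
  · exact absurd rfl hy
  simp only [xc_pt, yc_pt] at hy t1 ⊢
  have hne : ¬ (a = a ∧ b = -b) := fun hh => hy (by linear_combination (1 / 2 : M) * hh.2)
  obtain ⟨l, l1, l2⟩ := exists_slope h h hne
  obtain ⟨_, e3⟩ := pt_add h h hne l l1 l2
  have x3 : xc (pt a b h + pt a b h) = l ^ 2 - a - a := by rw [e3, xc_pt]
  rw [x3] at t3
  have eB : 4 * ((l ^ 2 - a - a) * b ^ 2) = a ^ 4 - 8 * a := by
    linear_combination (2 * l * b + 3 * a ^ 2) * l2 - 8 * a * h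
  have key := HeightA_aux_dbl V.valuation
    (by simpa using HeightA_aux_unit V hV 9 (by norm_num)) a
  have h4 : V.valuation 4 = 1 := by simpa using HeightA_aux_unit V hV 4 (by norm_num)
  rw [← h, ← eB, map_mul, h4, one_mul, map_mul] at key
  nth_rw 1 [← one_mul (V.valuation (b ^ 2))] at key
  rw [← max_mul] at key
  obtain ⟨z1, p1, q1, r1⟩ := HeightA_aux_pole V a
  obtain ⟨z3, p3, q3, r3⟩ := HeightA_aux_pole V (l ^ 2 - a - a)
  rw [← q1, ← q3, ← map_mul, ← map_pow] at key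
  have := HeightA_aux_ord V (mul_ne_zero p3 (pow_ne_zero 2 hy)) (pow_ne_zero 4 p1) key
  rw [ord_mul V p3 (pow_ne_zero 2 hy), ord_pow, ord_pow, r1, r3] at this
  push_cast at this
  omega

end Pool.Agent.MP_95da86_ag

end

section

/-! Function fields in one variable and their places. -/

namespace Pool.Agent.MP_95da86_ag

variable {k M : Type} [Field k] [Field M] [Algebra k M]

theorem Place_aux_indep {t : M} (ht : Transcendental k t) :
    AlgebraicIndependent k (fun _ : Unit => t) :=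
  algebraicIndependent_unique_type_iff.2 ht

theorem Place_aux_ess (h : IsFF k M) : Algebra.EssFiniteType k M := by
  obtain ⟨t, -, hfin⟩ := h
  have h1 : Algebra.EssFiniteType k (IntermediateField.adjoin k {t}) :=
    IntermediateField.essFiniteType_iff.2 ⟨{t}, by simp⟩
  exact Algebra.EssFiniteType.comp k (IntermediateField.adjoin k {t}) M

theorem Place_aux_trdeg (h : IsFF k M) : Algebra.trdeg k M = 1 := by
  obtain ⟨t, ht, hfin⟩ := h
  have hb : IsTranscendenceBasis k (fun _ : Unit => t) := by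
    rw [(Place_aux_indep ht).isTranscendenceBasis_iff_isAlgebraic, Set.range_const]
    open IntermediateField.algebraAdjoinAdjoin in
    exact Algebra.IsAlgebraic.trans (Algebra.adjoin k {t}) (IntermediateField.adjoin k {t}) M
  rw [← hb.cardinalMk_eq_trdeg]
  simp

theorem Place_aux_fin [Algebra.EssFiniteType k M] (h1 : Algebra.trdeg k M = 1) {t : M}
    (ht : Transcendental k t) : FiniteDimensional (IntermediateField.adjoin k {t}) M := by
  have hb : IsTranscendenceBasis k (fun _ : Unit => t) :=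
    (Place_aux_indep ht).isTranscendenceBasis_of_trdeg_le_of_finite (by simp [h1])
  have ha := hb.isAlgebraic_field
  rw [Set.range_const] at ha
  have := Algebra.EssFiniteType.of_comp k (IntermediateField.adjoin k {t}) M
  exact Algebra.finite_of_essFiniteType_of_isAlgebraic

theorem Place_aux_isFF [Algebra.EssFiniteType k M] (h1 : Algebra.trdeg k M = 1) : IsFF k M := by
  have h : Algebra.Transcendental k M := trdeg_ne_zero_iff.1 (by simp [h1])
  obtain ⟨t, ht⟩ := h.transcendental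
  exact ⟨t, ht, Place_aux_fin h1 ht⟩

theorem IsFF.finite_of_tr (h : IsFF k M) {t : M} (ht : Transcendental k t) :
    FiniteDimensional (IntermediateField.adjoin k {t}) M :=
  have := Place_aux_ess h
  Place_aux_fin (Place_aux_trdeg h) ht

theorem IsFF.trdeg (h : IsFF k M) : Algebra.trdeg k M = 1 := Place_aux_trdeg h

theorem isFF_of_gens {S : Set M} (hS : S.Finite) (hgen : IntermediateField.adjoin k S = ⊤)
    (h1 : Algebra.trdeg k M = 1) : IsFF k M := by
  have : Algebra.EssFiniteType k M :=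
    IntermediateField.fg_top_iff.1 ⟨hS.toFinset, by simpa using hgen⟩
  exact Place_aux_isFF h1

/-- A subfield of a function field containing a transcendental element. -/
theorem IsFF.of_algHom {N : Type} [Field N] [Algebra k N] (h : IsFF k N) (φ : M →ₐ[k] N) {t : M}
    (ht : Transcendental k t) : IsFF k M := by
  refine ⟨t, ht, ?_⟩
  have ht' : Transcendental k (φ t) := fun ha =>
    ht ((isAlgebraic_algHom_iff φ φ.toRingHom.injective).1 ha)
  have hfin := h.finite_of_tr ht'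
  let : Algebra M N := φ.toRingHom.toAlgebra
  let : Algebra (IntermediateField.adjoin k {t}) N :=
    (φ.toRingHom.comp (algebraMap (IntermediateField.adjoin k {t}) M)).toAlgebra
  have : IsScalarTower (IntermediateField.adjoin k {t}) M N :=
    IsScalarTower.of_algebraMap_eq fun _ => rfl
  have he : (IntermediateField.adjoin k {t}).map φ = IntermediateField.adjoin k {φ t} := by
    rw [IntermediateField.adjoin_map, Set.image_singleton]
  let e : IntermediateField.adjoin k {t} ≃ₐ[k] IntermediateField.adjoin k {φ t} :=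
    ((IntermediateField.adjoin k {t}).equivMap φ).trans (IntermediateField.equivOfEq he)
  have : Module.Finite (IntermediateField.adjoin k {t}) N := by
    refine Module.Finite.of_equiv_equiv e.symm.toRingEquiv (RingEquiv.refl N) ?_
    ext x
    obtain ⟨y, rfl⟩ := e.surjective x
    change φ ((e.symm (e y) : IntermediateField.adjoin k {t}) : M) = (e y : N)
    rw [e.symm_apply_apply]
    rfl
  exact Module.Finite.left (IntermediateField.adjoin k {t}) M N

theorem IsFF.finite_tower {M' : Type} [Field M'] [Algebra k M'] [Algebra M M'] [IsScalarTower k M M']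
    (h : IsFF k M) (h' : IsFF k M') : FiniteDimensional M M' := by
  have := Place_aux_ess h'
  have := Algebra.EssFiniteType.of_comp k M M'
  have h3 := trdeg_add_eq k M (A := M')
  rw [h.trdeg, h'.trdeg] at h3
  have h4 : Algebra.trdeg M M' = 0 := by
    have h5 : (1 : Cardinal) + Algebra.trdeg M M' = 1 + 0 := by rw [h3, add_zero]
    exact (Cardinal.add_one_inj).1 (by rwa [add_comm 1, add_comm 1] at h5)
  have : Algebra.IsAlgebraic M M' := trdeg_eq_zero_iff.1 h4
  exact Algebra.finite_of_essFiniteType_of_isAlgebraic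

theorem IsFF.of_finite {M' : Type} [Field M'] [Algebra k M'] [Algebra M M'] [IsScalarTower k M M']
    (h : IsFF k M) [FiniteDimensional M M'] : IsFF k M' := by
  have := Place_aux_ess h
  have := Algebra.EssFiniteType.comp k M M'
  have h3 := trdeg_add_eq k M (A := M')
  rw [h.trdeg, trdeg_eq_zero (R := M) (A := M'), add_zero] at h3
  exact Place_aux_isFF h3.symm

theorem Place_aux_int {R : Type} [CommRing R] [Algebra R M] (V : ValuationSubring M)
    (hR : ∀ r, algebraMap R M r ∈ V) {x : M} (hx : IsIntegral R x) : x ∈ V := by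
  let : Algebra R V := ((algebraMap R M).codRestrict V hR).toAlgebra
  have : IsScalarTower R V M := IsScalarTower.of_algebraMap_eq fun _ => rfl
  obtain ⟨y, hy⟩ := IsIntegrallyClosed.isIntegral_iff.1 (hx.tower_top (A := V))
  rw [← hy]
  exact y.2

theorem Place_aux_adjoin (V : ValuationSubring M) (hV : ∀ c : k, algebraMap k M c ∈ V) {t : M}
    (ht : t ∈ V) {x : M} (hx : x ∈ Algebra.adjoin k {t}) : x ∈ V := by
  induction hx using Algebra.adjoin_induction with
  | mem x hx => rw [Set.mem_singleton_iff.1 hx]; exact ht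
  | algebraMap c => exact hV c
  | add x y _ _ hx hy => exact add_mem hx hy
  | mul x y _ _ hx hy => exact mul_mem hx hy

open IsDedekindDomain in
theorem Place_aux_prime {B : Type} [CommRing B] [IsDedekindDomain B] [Algebra B M]
    [IsFractionRing B M] (V : ValuationSubring M) (hV : V ≠ ⊤) (hB : ∀ b, algebraMap B M b ∈ V) :
    ∃ v : HeightOneSpectrum B, V = v.valuationSubringAtPrime M ∧
      ∀ b, b ∈ v.asIdeal ↔ algebraMap B M b ∈ V.nonunits := by
  let ι : B →+* V := (algebraMap B M).codRestrict V hB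
  let P : Ideal B := (IsLocalRing.maximalIdeal V).comap ι
  have hP : ∀ b, b ∈ P ↔ algebraMap B M b ∈ V.nonunits := fun b => by
    rw [Ideal.mem_comap, ← V.coe_mem_nonunits_iff]
    rfl
  have hinv : ∀ b, b ∉ P → (algebraMap B M b)⁻¹ ∈ V := fun b hb => by
    rw [hP, V.mem_nonunits_iff_or, not_or, not_not] at hb
    exact hb.2
  have hP0 : P ≠ ⊥ := by
    intro h0
    apply hV
    rw [eq_top_iff]
    intro x _
    obtain ⟨a, b, hb, rfl⟩ := IsFractionRing.div_surjective (A := B) x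
    rw [div_eq_mul_inv]
    refine mul_mem (hB a) (hinv b ?_)
    rw [h0, Ideal.mem_bot]
    exact nonZeroDivisors.ne_zero hb
  let v : HeightOneSpectrum B := ⟨P, inferInstance, hP0⟩
  refine ⟨v, (ValuationSubring.eq_of_le_of_ne_top _ ?_ hV).symm, hP⟩
  rintro x ⟨a, s, hs, rfl⟩
  exact mul_mem (hB a) (hinv s hs)

theorem Place_aux_model [CharZero k] (h : IsFF k M) {t : M} (ht : Transcendental k t) :
    ∃ B : Subring M, IsDedekindDomain B ∧ IsFractionRing B M ∧
      ∀ V : Pl k M, t ∈ V.1 → ∀ b : B, algebraMap B M b ∈ V.1 := by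
  have hfin := h.finite_of_tr ht
  have hpid : IsPrincipalIdealRing (Algebra.adjoin k {t}) :=
    IsPrincipalIdealRing.of_surjective (Polynomial.algEquivOfTranscendental k t ht).toRingHom
      (Polynomial.algEquivOfTranscendental k t ht).surjective
  have hcz : CharZero (IntermediateField.adjoin k {t}) := algebraRat.charZero _
  open IntermediateField.algebraAdjoinAdjoin in
  refine ⟨(integralClosure (Algebra.adjoin k {t}) M).toSubring,
    integralClosure.isDedekindDomain (Algebra.adjoin k {t}) (IntermediateField.adjoin k {t}) M,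
    integralClosure.isFractionRing_of_finite_extension (IntermediateField.adjoin k {t}) M, ?_⟩
  intro V hV b
  exact Place_aux_int V.1 (fun r => Place_aux_adjoin V.1 V.2.2 hV r.2) b.2

theorem Place_aux_inv {t : M} (ht : Transcendental k t) : Transcendental k t⁻¹ :=
  fun ha => ht (IsAlgebraic.inv_iff.1 ha)

/-- Places are discrete: if `t ∈ V` (else use `t⁻¹`), `V` contains the integral closure of `k[t]`,
a Dedekind domain, and is its localisation at a non-zero prime. -/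
theorem IsFF.dvr [CharZero k] (h : IsFF k M) (V : Pl k M) : IsDiscreteValuationRing V.1 := by
  have key : ∀ t : M, Transcendental k t → t ∈ V.1 → IsDiscreteValuationRing V.1 := by
    intro t ht htV
    obtain ⟨B, h1, h2, h3⟩ := Place_aux_model h ht
    obtain ⟨v, hv, -⟩ := Place_aux_prime V.1 V.2.1 (h3 V htV)
    rw [hv]
    exact IsLocalization.AtPrime.isDiscreteValuationRing_of_dedekind_domain B v.ne_bot _
  obtain ⟨t, ht, -⟩ := id h
  rcases V.1.mem_or_inv_mem t with h1 | h1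
  · exact key t ht h1
  · exact key t⁻¹ (Place_aux_inv ht) h1

theorem Place_aux_ord_fin [CharZero k] (h : IsFF k M) {t : M} (ht : Transcendental k t) {f : M}
    (hf : f ≠ 0) : {V : Pl k M | t ∈ V.1 ∧ ord V.1 f ≠ 0}.Finite := by
  obtain ⟨B, h1, h2, h3⟩ := Place_aux_model h ht
  obtain ⟨a, b, hb, rfl⟩ := IsFractionRing.div_surjective (A := B) f
  have ha0 : a ≠ 0 := by
    rintro rfl
    simp at hf
  have hb0 : b ≠ 0 := nonZeroDivisors.ne_zero hb
  have hI : Ideal.span {a * b} ≠ (0 : Ideal B) := by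
    simpa [Ideal.span_singleton_eq_bot] using ⟨ha0, hb0⟩
  have hfin := (Ideal.finite_factors hI).image
    (fun v : IsDedekindDomain.HeightOneSpectrum B => v.valuationSubringAtPrime M)
  refine (hfin.preimage (f := fun V : Pl k M => V.1) (Subtype.val_injective.injOn)).subset ?_
  rintro V ⟨htV, hord⟩
  obtain ⟨v, hv, hmem⟩ := Place_aux_prime V.1 V.2.1 (h3 V htV)
  refine ⟨v, ?_, hv.symm⟩
  have := h.dvr V
  change v.asIdeal ∣ Ideal.span {a * b}
  rw [Ideal.dvd_span_singleton]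
  by_contra hab
  apply hord
  have ha : a ∉ v.asIdeal := fun hh => hab (Ideal.mul_mem_right _ _ hh)
  have hb' : b ∉ v.asIdeal := fun hh => hab (Ideal.mul_mem_left _ _ hh)
  rw [hmem, V.1.mem_nonunits_iff_or, not_or, not_not] at ha hb'
  rw [ord_eq_zero_iff, inv_div, div_eq_mul_inv, div_eq_mul_inv]
  exact ⟨mul_mem (h3 V htV a) hb'.2, mul_mem (h3 V htV b) ha.2⟩

theorem IsFF.ord_fin [CharZero k] (h : IsFF k M) (f : M) :
    (Function.support fun V : Pl k M => ord V.1 f).Finite := by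
  by_cases hf : f = 0
  · refine Set.finite_empty.subset fun V hV => hV ?_
    have := h.dvr V
    change ord V.1 f = 0
    rw [hf, ord_zero]
  obtain ⟨t, ht, -⟩ := id h
  refine ((Place_aux_ord_fin h ht hf).union
    (Place_aux_ord_fin h (Place_aux_inv ht) hf)).subset fun V hV => ?_
  rcases V.1.mem_or_inv_mem t with h1 | h1
  · exact Or.inl ⟨h1, hV⟩
  · exact Or.inr ⟨h1, hV⟩

theorem Place_aux_const [IsAlgClosed k] {f : M} (hf : IsAlgebraic k f) :
    ∃ c : k, f = algebraMap k M c := by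
  have hi := hf.isIntegral
  obtain ⟨c, hc⟩ := minpoly.mem_range_of_degree_eq_one k f
    (IsAlgClosed.degree_eq_one_of_irreducible k (minpoly.irreducible hi))
  exact ⟨c, hc.symm⟩

/-- The residue field is algebraic over `k`. -/
theorem IsFF.exists_const [CharZero k] [IsAlgClosed k] (h : IsFF k M) (V : Pl k M) {f : M}
    (hf : f ∈ V.1) : ∃ c : k, f - algebraMap k M c ∈ V.1.nonunits := by
  by_cases ha : IsAlgebraic k f
  · obtain ⟨c, hc⟩ := Place_aux_const ha
    exact ⟨c, by rw [hc, sub_self]; exact zero_mem _⟩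
  by_contra hcon
  have hu : ∀ c : k, (f - algebraMap k M c)⁻¹ ∈ V.1 := fun c => by
    by_contra hc
    exact hcon ⟨c, V.1.mem_nonunits_iff_or.2 (Or.inr hc)⟩
  have hp : ∀ s : Polynomial k, (Polynomial.aeval f s)⁻¹ ∈ V.1 := fun s => by
    rw [(IsAlgClosed.splits s).eq_prod_roots, map_mul, Polynomial.aeval_C, mul_inv, ← map_inv₀]
    refine mul_mem (V.2.2 _) ?_
    rw [map_multiset_prod]
    refine Multiset.prod_induction (fun x : M => x⁻¹ ∈ V.1) _ ?_ ?_ ?_
    · intro x y hx hy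
      rw [mul_inv]
      exact mul_mem hx hy
    · rw [inv_one]
      exact one_mem _
    · intro x hx
      simp only [Multiset.map_map, Multiset.mem_map, Function.comp_apply, map_sub,
        Polynomial.aeval_X, Polynomial.aeval_C] at hx
      obtain ⟨c, -, rfl⟩ := hx
      exact hu c
  have hfin := h.finite_of_tr ha
  apply V.2.1
  rw [eq_top_iff]
  intro x _
  refine Place_aux_int (R := IntermediateField.adjoin k {f}) V.1 ?_ (Algebra.IsIntegral.isIntegral x)
  rintro ⟨r, hr⟩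
  obtain ⟨p, q, rfl⟩ := (IntermediateField.mem_adjoin_simple_iff k r).1 hr
  change Polynomial.aeval f p / Polynomial.aeval f q ∈ V.1
  rw [div_eq_mul_inv]
  exact mul_mem (Place_aux_adjoin V.1 V.2.2 hf (Polynomial.aeval_mem_adjoin_singleton k f)) (hp q)

/-- A transcendental element has a pole (a valuation ring dominating `k[1/f]` at `1/f`). -/
theorem exists_pole {f : M} (hf : Transcendental k f) : ∃ V : Pl k M, f ∉ V.1 := by
  have hg := Place_aux_inv hf
  have hf0 : f ≠ 0 := by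
    rintro rfl
    exact hf isAlgebraic_zero
  let A : Subring M := (Algebra.adjoin k {f⁻¹}).toSubring
  let g : A := ⟨f⁻¹, Algebra.self_mem_adjoin_singleton k f⁻¹⟩
  have hI : Ideal.span {g} ≠ ⊤ := by
    rw [Ne, Ideal.span_singleton_eq_top, isUnit_iff_exists_inv]
    rintro ⟨⟨y, hy⟩, hy1⟩
    have hy2 : f⁻¹ * y = 1 := congrArg Subtype.val hy1
    have hy3 : y ∈ Algebra.adjoin k {f⁻¹} := hy
    rw [Algebra.adjoin_singleton_eq_range_aeval] at hy3
    obtain ⟨p, hp⟩ := hy3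
    have hp' : Polynomial.aeval f⁻¹ p = y := hp
    apply hg
    refine ⟨Polynomial.X * p - 1, fun h0 => ?_, ?_⟩
    · have := congrArg (Polynomial.eval 0) h0
      simp at this
    · rw [map_sub, map_mul, Polynomial.aeval_X, hp', hy2, map_one, sub_self]
  obtain ⟨B, hAB, hB⟩ := Ideal.image_subset_nonunits_valuationSubring _ hI
  have hgB : f⁻¹ ∈ B.nonunits := hB ⟨g, Ideal.mem_span_singleton_self g, rfl⟩
  have hfB : f ∉ B := (B.inv_mem_nonunits_iff.1 hgB).resolve_left hf0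
  refine ⟨⟨B, fun h => hfB (h ▸ ValuationSubring.mem_top f), fun c => hAB ?_⟩, hfB⟩
  exact (Algebra.adjoin k {f⁻¹}).algebraMap_mem c

theorem const_of_no_pole [IsAlgClosed k] {f : M} (hf : ∀ V : Pl k M, f ∈ V.1) :
    ∃ c : k, f = algebraMap k M c := by
  apply Place_aux_const
  by_contra ha
  obtain ⟨V, hV⟩ := exists_pole ha
  exact hV (hf V)

/-- Restriction of a place along an algebraic extension. -/
theorem exists_under {M' : Type} [Field M'] [Algebra k M'] [Algebra M M'] [IsScalarTower k M M']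
    [Algebra.IsAlgebraic M M'] (V' : Pl k M') :
    ∃ V : Pl k M, ∀ f, algebraMap M M' f ∈ V'.1 ↔ f ∈ V.1 := by
  refine ⟨⟨V'.1.comap (algebraMap M M'), fun h => V'.2.1 ?_, fun c => ?_⟩, fun f => Iff.rfl⟩
  · rw [eq_top_iff]
    intro x _
    refine Place_aux_int (R := M) V'.1 (fun r => ?_) (Algebra.IsIntegral.isIntegral x)
    have hr : r ∈ V'.1.comap (algebraMap M M') := h ▸ ValuationSubring.mem_top r
    exact hr
  · rw [ValuationSubring.mem_comap, ← IsScalarTower.algebraMap_apply]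
    exact V'.2.2 c

/-- Extension of a place. -/
theorem exists_over {M' : Type} [Field M'] [Algebra k M'] [Algebra M M'] [IsScalarTower k M M']
    (V : Pl k M) : ∃ V' : Pl k M', ∀ f, algebraMap M M' f ∈ V'.1 ↔ f ∈ V.1 := by
  obtain ⟨A, hA, hloc⟩ :=
    IsLocalRing.exists_factor_valuationRing ((algebraMap M M').comp V.1.subtype)
  have key : ∀ f, algebraMap M M' f ∈ A ↔ f ∈ V.1 := by
    intro f
    refine ⟨fun hf => ?_, fun hf => hA ⟨f, hf⟩⟩
    by_contra hfV
    have hf0 : f ≠ 0 := by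
      rintro rfl
      exact hfV (zero_mem _)
    have hi : f⁻¹ ∈ V.1 := (V.1.mem_or_inv_mem f).resolve_left hfV
    have hu : IsUnit (⟨f⁻¹, hi⟩ : V.1) := by
      apply hloc.map_nonunit
      refine isUnit_iff_exists_inv.2 ⟨⟨algebraMap M M' f, hf⟩, Subtype.ext ?_⟩
      change algebraMap M M' f⁻¹ * algebraMap M M' f = 1
      rw [← map_mul, inv_mul_cancel₀ hf0, map_one]
    have hn : f⁻¹ ∈ V.1.nonunits := V.1.inv_mem_nonunits_iff.2 (Or.inr hfV)
    exact (V.1.coe_mem_nonunits_iff (a := ⟨f⁻¹, hi⟩)).1 hn hu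
  refine ⟨⟨A, fun h => V.2.1 ?_, fun c => ?_⟩, key⟩
  · rw [eq_top_iff]
    intro x _
    exact (key x).1 (h ▸ ValuationSubring.mem_top _)
  · rw [IsScalarTower.algebraMap_apply k M M', key]
    exact V.2.2 c

end Pool.Agent.MP_95da86_ag

end

section

/-! The fundamental equality and the product formula over an algebraically closed field. -/

namespace Pool.Agent.MP_95da86_ag

open IsDedekindDomain IsDedekindDomain.HeightOneSpectrum WithZero Polynomial

section aux

/-- The order function of a normalised discrete valuation. -/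
theorem Fund_aux_val {L : Type} [Field L] (v : Valuation L (WithZero (Multiplicative ℤ))) (π : L)
    (hπ : v π = exp (-1 : ℤ)) :
    ∀ f : L, f ≠ 0 → v f = exp (-ord v.valuationSubring f) := by
  have h0 : π ≠ 0 := by
    rintro rfl
    rw [map_zero] at hπ
    exact exp_ne_zero hπ.symm
  have key : ∀ f : L, f ≠ 0 → v (f / π ^ (-log (v f))) = 1 := by
    intro f hf
    have hv : v f ≠ 0 := by simpa using hf
    rw [map_div₀, map_zpow₀, hπ, ← exp_zsmul, smul_eq_mul, neg_mul_neg, mul_one, exp_log hv,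
      div_self hv]
  have key' : ∀ f : L, f ≠ 0 → f / π ^ (-log (v f)) ∈ v.valuationSubring ∧
      π ^ (-log (v f)) / f ∈ v.valuationSubring := by
    intro f hf
    refine ⟨(key f hf).le, ?_⟩
    rw [← inv_div, Valuation.mem_valuationSubring_iff, map_inv₀, key f hf, inv_one]
  have hn : π ∈ v.valuationSubring.nonunits := by
    rw [ValuationSubring.mem_nonunits_iff_or]
    right
    rw [Valuation.mem_valuationSubring_iff, map_inv₀, hπ, ← exp_neg, ← exp_zero, exp_le_exp]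
    norm_num
  obtain ⟨hd, h1⟩ := dvr_of_unif v.valuationSubring π h0 hn fun f hf => ⟨_, key' f hf⟩
  intro f hf
  have hv : v f ≠ 0 := by simpa using hf
  have h2 : ord v.valuationSubring (f / π ^ (-log (v f))) = 0 :=
    (ord_eq_zero_iff _ _).2 ⟨(key' f hf).1, by rw [inv_div]; exact (key' f hf).2⟩
  rw [ord_div _ hf (zpow_ne_zero _ h0), ord_zpow, h1, mul_one, sub_eq_zero] at h2
  rw [h2, neg_neg, exp_log hv]

/-- A proper valuation ring containing a Dedekind domain is one of its localisations. -/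
theorem Fund_aux_centre {B L : Type} [CommRing B] [IsDedekindDomain B] [Field L] [Algebra B L]
    [IsFractionRing B L] (W : ValuationSubring L) (hW : W ≠ ⊤) (hB : ∀ b : B, algebraMap B L b ∈ W) :
    ∃ w : HeightOneSpectrum B, W = (w.valuation L).valuationSubring := by
  let φ : B →+* W := (algebraMap B L).codRestrict W hB
  let P : Ideal B := (IsLocalRing.maximalIdeal W).comap φ
  have hP : ∀ b : B, b ∉ P → (algebraMap B L b)⁻¹ ∈ W := by
    intro b hb
    by_contra hc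
    apply hb
    have : algebraMap B L b ∈ W.nonunits := by
      rw [ValuationSubring.mem_nonunits_iff_or]; exact Or.inr hc
    exact (ValuationSubring.coe_mem_nonunits_iff (a := φ b)).1 this
  have hP0 : P ≠ ⊥ := by
    intro h0
    apply hW
    rw [eq_top_iff]
    intro x _
    obtain ⟨a, b, hb, rfl⟩ := IsFractionRing.div_surjective (A := B) x
    rw [div_eq_mul_inv]
    refine mul_mem (hB a) (hP b ?_)
    rw [h0]
    exact nonZeroDivisors.ne_zero hb
  let w : HeightOneSpectrum B := ⟨P, Ideal.comap_isPrime φ _, hP0⟩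
  refine ⟨w, ?_⟩
  rw [← valuationSubringAtPrime_eq_valuationSubring]
  refine (ValuationSubring.eq_of_le_of_ne_top _ ?_ hW).symm
  rintro x ⟨a, s, hs, rfl⟩
  exact mul_mem (hB a) (hP s hs)

theorem Fund_aux_nonunits {L L' : Type} [Field L] [Field L'] (φ : L →+* L')
    (V : ValuationSubring L) (V' : ValuationSubring L') (h : ∀ f, φ f ∈ V' ↔ f ∈ V) (f : L) :
    φ f ∈ V'.nonunits ↔ f ∈ V.nonunits := by
  rw [ValuationSubring.mem_nonunits_iff_or, ValuationSubring.mem_nonunits_iff_or, ← map_inv₀, h,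
    map_eq_zero]

theorem Fund_aux_lt {L : Type} [Field L] (v : Valuation L (WithZero (Multiplicative ℤ))) (f : L) :
    f ∈ v.valuationSubring.nonunits ↔ v f < 1 := by
  rw [ValuationSubring.mem_nonunits_iff, ← (Valuation.isEquiv_valuation_valuationSubring v).lt_one_iff_lt_one]

end aux

variable {k M : Type} [Field k] [Field M] [Algebra k M] [CharZero k] [IsAlgClosed k]

/-- The fundamental equality `∑ e = n` (`Ideal.sum_ramification_inertia` for the integral closure
of the discrete valuation ring `V` in `M'`; all residue fields are `k`). -/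
theorem fund_eq {M' : Type} [Field M'] [Algebra k M'] [Algebra M M'] [IsScalarTower k M M']
    (h : IsFF k M) (h' : IsFF k M') (V : Pl k M) :
    ∃ S : Finset (Pl k M'), (∀ V' : Pl k M', V' ∈ S ↔ ∀ f, algebraMap M M' f ∈ V'.1 ↔ f ∈ V.1) ∧
      ∀ f : M, ∑ V' ∈ S, ord V'.1 (algebraMap M M' f) = Module.finrank M M' * ord V.1 f := by
  classical
  have := h.dvr V
  have := h.finite_tower h'
  have : CharZero M := charZero_of_injective_algebraMap (algebraMap k M).injective
  let A := V.1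
  let B := integralClosure A M'
  have : IsDedekindDomain B := integralClosure.isDedekindDomain A M M'
  have : Module.Finite A B := IsIntegralClosure.finite A M M' B
  have : IsFractionRing B M' := IsIntegralClosure.isFractionRing_of_finite_extension A M M' B
  have : Module.IsTorsionFree A M' := .trans_faithfulSMul A M M'
  have : Module.IsTorsionFree A B := IsIntegralClosure.isTorsionFree A M'
  have hrank : Module.finrank A B = Module.finrank M M' := IsIntegralClosure.rank A M M' B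
  obtain ⟨v, hv⟩ := Fund_aux_centre (B := A) V.1 V.2.1 fun b => b.2
  have hvm : v.asIdeal.IsMaximal := v.isMaximal
  have : Fintype (v.asIdeal.primesOver B) := Fintype.ofFinite _
  have hsum := Ideal.sum_ramification_inertia_eq_finrank v.asIdeal B
  let w : v.asIdeal.primesOver B → HeightOneSpectrum B := fun q =>
    ⟨q.1, q.2.1, Ideal.ne_bot_of_mem_primesOver v.ne_bot q.2⟩
  have hover : ∀ q, (w q).asIdeal.LiesOver v.asIdeal := fun q => q.2.2
  have hval : ∀ q (f : M), (w q).valuation M' (algebraMap M M' f) =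
      v.valuation M f ^ q.1.ramificationIdx A := by
    intro q f
    have := hover q
    have := q.2.1
    rw [← valuation_liesOver M' v (w q) f,
      Ideal.ramificationIdx'_eq_ramificationIdx v.asIdeal (w q).asIdeal v.ne_bot]
  have hmem : ∀ q (f : M), algebraMap M M' f ∈ ((w q).valuation M').valuationSubring ↔ f ∈ V.1 := by
    intro q f
    have := q.2.1
    have he : q.1.ramificationIdx A ≠ 0 := (Ideal.ramificationIdx_pos q.1 A).ne'
    rw [Valuation.mem_valuationSubring_iff, hval, pow_le_one_iff he]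
    conv_rhs => rw [hv]
    rfl
  let Φ : v.asIdeal.primesOver B → Pl k M' := fun q =>
    ⟨((w q).valuation M').valuationSubring,
      by simp only [ne_eq, Valuation.valuationSubring_eq_top_iff, not_not]; infer_instance,
      fun c => by rw [IsScalarTower.algebraMap_apply k M M', hmem]; exact V.2.2 c⟩
  have hinj : Function.Injective Φ := by
    intro q q' hq
    have h1 : ((w q).valuation M').valuationSubring = ((w q').valuation M').valuationSubring :=
      congrArg Subtype.val hq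
    have h2 := eq_of_valuation_isEquiv_valuation
      ((Valuation.isEquiv_iff_valuationSubring _ _).2 h1)
    exact Subtype.ext (congrArg HeightOneSpectrum.asIdeal h2)
  have hf1 : ∀ q : v.asIdeal.primesOver B, q.1.inertiaDeg A = 1 := by
    intro q
    have := hover q
    have hqm : q.1.IsMaximal := (w q).isMaximal
    have : q.1.LiesOver v.asIdeal := q.2.2
    rw [Ideal.inertiaDeg_eq_of_isMaximal v.asIdeal q.1]
    refine Module.finrank_of_bijective_algebraMap ⟨FaithfulSMul.algebraMap_injective _ _, ?_⟩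
    intro b
    obtain ⟨b, rfl⟩ := Ideal.Quotient.mk_surjective b
    obtain ⟨c, hc⟩ := h'.exists_const (Φ q) (f := algebraMap B M' b)
      ((w q).valuation_le_one b)
    let a : A := ⟨algebraMap k M c, V.2.2 c⟩
    refine ⟨Ideal.Quotient.mk _ a, ?_⟩
    have h1 : b - algebraMap A B a ∈ (w q).asIdeal := by
      rw [← valuation_lt_one_iff_mem (K := M'), ← Fund_aux_lt]
      rw [IsScalarTower.algebraMap_apply k M M'] at hc
      exact hc
    exact (Ideal.Quotient.eq.2 h1).symm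
  refine ⟨Finset.univ.image Φ, fun V' => ⟨?_, fun hV' => ?_⟩, fun f => ?_⟩
  · intro hV'
    obtain ⟨q, -, rfl⟩ := Finset.mem_image.1 hV'
    exact hmem q
  · have hB : ∀ b : B, algebraMap B M' b ∈ V'.1 := by
      intro b
      let φ : A →+* V'.1 := (algebraMap A M').codRestrict V'.1 fun a => (hV' a).2 a.2
      have hint : IsIntegral V'.1 (algebraMap B M' b) := by
        obtain ⟨p, hp, hb⟩ := b.2
        refine ⟨p.map φ, hp.map φ, ?_⟩
        rw [eval₂_map]
        exact hb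
      obtain ⟨y, hy⟩ := IsIntegrallyClosed.isIntegral_iff.1 hint
      rw [← hy]
      exact y.2
    obtain ⟨w', hw'⟩ := Fund_aux_centre V'.1 V'.2.1 hB
    have hl : w'.asIdeal.LiesOver v.asIdeal := by
      refine ⟨Ideal.ext fun a => ?_⟩
      rw [Ideal.mem_under, ← valuation_lt_one_iff_mem (K := M), ← valuation_lt_one_iff_mem (K := M'),
        ← Fund_aux_lt, ← Fund_aux_lt, ← hw', ← hv]
      exact (Fund_aux_nonunits _ _ _ hV' (a : M)).symm
    exact Finset.mem_image.2 ⟨⟨w'.asIdeal, w'.isPrime, hl⟩, Finset.mem_univ _, Subtype.ext hw'.symm⟩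
  · rw [Finset.sum_image fun q _ q' _ e => hinj e, ← hrank, ← hsum]
    push_cast
    rw [Finset.sum_mul]
    refine Finset.sum_congr rfl fun q _ => ?_
    rw [hf1, Nat.cast_one, mul_one]
    by_cases hf : f = 0
    · have := h'.dvr (Φ q)
      rw [hf, map_zero, ord_zero, ord_zero, mul_zero]
    · obtain ⟨π, hπ⟩ := v.valuation_exists_uniformizer M
      obtain ⟨π', hπ'⟩ := (w q).valuation_exists_uniformizer M'
      have h1 := Fund_aux_val _ π hπ f hf
      have h2 := Fund_aux_val _ π' hπ' (algebraMap M M' f) (by simpa using hf)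
      rw [hval, h1, ← hv, ← exp_nsmul, exp_inj, nsmul_eq_mul] at h2
      change ord ((w q).valuation M').valuationSubring _ = _
      linear_combination h2

/-- Sums over places upstairs. -/
theorem finsum_ext {M' : Type} [Field M'] [Algebra k M'] [Algebra M M'] [IsScalarTower k M M']
    (h : IsFF k M) (h' : IsFF k M') (u : Pl k M' → Pl k M)
    (hu : ∀ V' f, algebraMap M M' f ∈ V'.1 ↔ f ∈ (u V').1) (F : Pl k M → M) :
    ((Function.support fun V' : Pl k M' => ord V'.1 (algebraMap M M' (F (u V')))).Finite ↔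
      (Function.support fun V : Pl k M => ord V.1 (F V)).Finite) ∧
    ∑ᶠ V' : Pl k M', ord V'.1 (algebraMap M M' (F (u V'))) =
      Module.finrank M M' * ∑ᶠ V : Pl k M, ord V.1 (F V) := by
  classical
  choose S hS hsum using fund_eq (M' := M') h h'
  have hS' : ∀ V V', V' ∈ S V ↔ u V' = V := by
    intro V V'
    rw [hS]
    constructor
    · intro e
      exact Subtype.ext (ValuationSubring.ext _ _ fun f => (hu V' f).symm.trans (e f))
    · rintro rfl
      exact hu V'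
  have hsupp : (Function.support fun V' : Pl k M' => ord V'.1 (algebraMap M M' (F (u V')))) =
      u ⁻¹' (Function.support fun V : Pl k M => ord V.1 (F V)) := by
    ext V'
    have := h.dvr (u V')
    have := h'.dvr V'
    obtain ⟨e, he, hr⟩ := exists_ram (algebraMap M M') (u V').1 V'.1 (hu V')
    simp [hr, he.ne']
  have hsurj : Function.Surjective u := by
    intro V
    obtain ⟨V', hV'⟩ := exists_over (M' := M') V
    exact ⟨V', (hS' V V').1 ((hS V V').2 hV')⟩
  have hiff : (Function.support fun V' : Pl k M' => ord V'.1 (algebraMap M M' (F (u V')))).Finite ↔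
      (Function.support fun V : Pl k M => ord V.1 (F V)).Finite := by
    rw [hsupp]
    refine ⟨fun hf => hf.of_preimage hsurj, fun hf => hf.preimage' fun V _ => ?_⟩
    exact (S V).finite_toSet.subset fun V' hV' => (hS' V V').2 hV'
  refine ⟨hiff, ?_⟩
  by_cases hf : (Function.support fun V : Pl k M => ord V.1 (F V)).Finite
  · rw [finsum_eq_sum _ hf, finsum_eq_sum_of_support_subset _ (s := hf.toFinset.biUnion S) ?_,
      Finset.sum_biUnion ?_, Finset.mul_sum]
    · refine Finset.sum_congr rfl fun V _ => ?_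
      rw [← hsum]
      refine Finset.sum_congr rfl fun V' hV' => ?_
      rw [(hS' V V').1 hV']
    · intro V _ W _ hne
      refine Finset.disjoint_left.2 fun V' h1 h2 => hne ?_
      rw [← (hS' V V').1 h1, ← (hS' W V').1 h2]
    · rw [hsupp]
      intro V' hV'
      exact Finset.mem_coe.2 (Finset.mem_biUnion.2 ⟨u V', hf.mem_toFinset.2 hV', (hS' _ _).2 rfl⟩)
  · rw [finsum_of_infinite_support hf, finsum_of_infinite_support (fun h1 => hf (hiff.1 h1)),
      mul_zero]

omit [CharZero k] [IsAlgClosed k] in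
/-- A polynomial in `t` is a power of `t` times a unit at every zero of `t`. -/
theorem Fund_aux_poly {t : M} (ht : Transcendental k t) {p : k[X]} (hp : p ≠ 0) :
    ∃ (n : ℕ) (g : M), g ≠ 0 ∧ aeval t p = t ^ n * g ∧
      ∀ V : Pl k M, t ∈ V.1.nonunits → g ∈ V.1 ∧ g⁻¹ ∈ V.1 := by
  obtain ⟨q, hq, hd⟩ := exists_eq_pow_rootMultiplicity_mul_and_not_dvd p hp 0
  rw [map_zero, sub_zero] at hq hd
  have hq0 : q ≠ 0 := by rintro rfl; exact hd (dvd_zero _)
  refine ⟨p.rootMultiplicity 0, aeval t q, fun h0 => ht ⟨q, hq0, h0⟩, ?_, fun V hV => ?_⟩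
  · conv_lhs => rw [hq]
    simp
  · have htV : t ∈ V.1 := V.1.nonunits_subset hV
    have hall : ∀ r : k[X], aeval t r ∈ V.1 := by
      intro r
      induction r using Polynomial.induction_on' with
      | add a b ha hb => rw [map_add]; exact add_mem ha hb
      | monomial n c => rw [aeval_monomial]; exact mul_mem (V.2.2 c) (pow_mem htV n)
    refine ⟨hall q, ?_⟩
    by_contra hc
    have h1 : aeval t q ∈ V.1.nonunits := by
      rw [ValuationSubring.mem_nonunits_iff_or]; exact Or.inr hc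
    have h2 : aeval t q.divX * t ∈ V.1.nonunits := by
      rw [ValuationSubring.mem_nonunits_iff, map_mul]
      exact mul_lt_one_of_nonneg_of_lt_one_right ((V.1.valuation_le_one_iff _).2 (hall _))
        zero_le (V.1.mem_nonunits_iff.1 hV)
    have h3 : algebraMap k M (q.coeff 0) = aeval t q - aeval t q.divX * t := by
      conv_rhs => enter [1]; rw [← divX_mul_X_add q]
      simp
    have h4 := sub_mem h1 h2
    rw [← h3, ValuationSubring.mem_nonunits_iff_or, ← map_inv₀] at h4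
    rcases h4 with h4 | h4
    · exact hd (X_dvd_iff.2 (by simpa using h4))
    · exact h4 (V.2.2 _)

omit [CharZero k] [IsAlgClosed k] in
/-- In `k(t)` the function `t` has exactly one zero, and it is simple. -/
theorem Fund_aux_zero {t : M} (ht : Transcendental k t)
    (hgen : IntermediateField.adjoin k {t} = ⊤) :
    ∃ V₀ : Pl k M, ord V₀.1 t = 1 ∧ ∀ V : Pl k M, t ∈ V.1.nonunits → V = V₀ := by
  have ht0 : t ≠ 0 := by rintro rfl; exact ht isAlgebraic_zero
  have key : ∀ f : M, f ≠ 0 → ∃ n : ℤ, ∀ V : Pl k M, t ∈ V.1.nonunits →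
      f / t ^ n ∈ V.1 ∧ t ^ n / f ∈ V.1 := by
    intro f hf
    obtain ⟨r, s, rfl⟩ := (IntermediateField.mem_adjoin_simple_iff k (α := t) f).1
      (hgen ▸ IntermediateField.mem_top)
    have hr : r ≠ 0 := by rintro rfl; simp at hf
    have hs : s ≠ 0 := by rintro rfl; simp at hf
    obtain ⟨a, g, hg0, hg, hgV⟩ := Fund_aux_poly ht hr
    obtain ⟨b, g', hg0', hg', hgV'⟩ := Fund_aux_poly ht hs
    refine ⟨a - b, fun V hV => ?_⟩
    have e : aeval t r / aeval t s / t ^ ((a : ℤ) - b) = g * g'⁻¹ := by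
      rw [hg, hg', zpow_sub₀ ht0, zpow_natCast, zpow_natCast]
      field_simp
    refine ⟨by rw [e]; exact mul_mem (hgV V hV).1 (hgV' V hV).2, ?_⟩
    rw [← inv_div, e, mul_inv, inv_inv]
    exact mul_mem (hgV V hV).2 (hgV' V hV).1
  have hone : ∀ V : Pl k M, t ∈ V.1.nonunits →
      IsDiscreteValuationRing V.1 ∧ ord V.1 t = 1 := fun V hV =>
    dvr_of_unif V.1 t ht0 hV fun f hf => (key f hf).imp fun n hn => hn V hV
  have hmem : ∀ f : M, f ≠ 0 → ∃ n : ℤ, ∀ V : Pl k M, t ∈ V.1.nonunits → (f ∈ V.1 ↔ 0 ≤ n) := by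
    intro f hf
    obtain ⟨n, hn⟩ := key f hf
    refine ⟨n, fun V hV => ?_⟩
    obtain ⟨hd, h1⟩ := hone V hV
    have h2 : ord V.1 (f / t ^ n) = 0 :=
      (ord_eq_zero_iff _ _).2 ⟨(hn V hV).1, by rw [inv_div]; exact (hn V hV).2⟩
    rw [ord_div _ hf (zpow_ne_zero _ ht0), ord_zpow, h1, mul_one, sub_eq_zero] at h2
    rw [← ord_nonneg_iff, h2]
  obtain ⟨V₀, hV₀⟩ := exists_pole (k := k) (f := t⁻¹) fun ha => ht (IsAlgebraic.inv_iff.1 ha)
  have hn : t ∈ V₀.1.nonunits := by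
    rw [ValuationSubring.mem_nonunits_iff_or]; exact Or.inr hV₀
  refine ⟨V₀, (hone V₀ hn).2, fun V hV => Subtype.ext (ValuationSubring.ext _ _ fun f => ?_)⟩
  by_cases hf : f = 0
  · simp [hf]
  · obtain ⟨n, h1⟩ := hmem f hf
    rw [h1 V hV, h1 V₀ hn]

omit [IsAlgClosed k] in
theorem Fund_aux_rat (h : IsFF k M) {t : M} (ht : Transcendental k t)
    (hgen : IntermediateField.adjoin k {t} = ⊤) : ∑ᶠ V : Pl k M, ord V.1 t = 0 := by
  classical
  have ht0 : t ≠ 0 := by rintro rfl; exact ht isAlgebraic_zero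
  have hgen' : IntermediateField.adjoin k {t⁻¹} = ⊤ := by
    rw [eq_top_iff, ← hgen, IntermediateField.adjoin_simple_le_iff]
    simpa using inv_mem (IntermediateField.mem_adjoin_simple_self k t⁻¹)
  obtain ⟨V₀, h0, hu0⟩ := Fund_aux_zero ht hgen
  obtain ⟨V₁, h1, hu1⟩ := Fund_aux_zero (t := t⁻¹) (fun ha => ht (IsAlgebraic.inv_iff.1 ha)) hgen'
  have := h.dvr V₁
  rw [ord_inv] at h1
  have hne : V₀ ≠ V₁ := by
    rintro rfl
    omega
  rw [finsum_eq_sum_of_support_subset _ (s := {V₀, V₁}) ?_, Finset.sum_pair hne]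
  · omega
  · intro V hV
    have := h.dvr V
    have hV' : ord V.1 t ≠ 0 := hV
    rcases lt_or_gt_of_ne hV' with h2 | h2
    · have : 0 < ord V.1 t⁻¹ := by rw [ord_inv]; omega
      rw [hu1 V ((ord_pos_iff _ (inv_ne_zero ht0)).1 this)]
      simp
    · rw [hu0 V ((ord_pos_iff _ ht0).1 h2)]
      simp

/-- The product formula: for `f` transcendental apply `finsum_ext` to `k(f) ⊂ M`; in `k(f)` the
element `f` has exactly one zero and one pole, both simple. -/
theorem IsFF.sum_ord (h : IsFF k M) (f : M) : ∑ᶠ V : Pl k M, ord V.1 f = 0 := by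
  by_cases hf : IsAlgebraic k f
  · obtain ⟨c, rfl⟩ := (IsAlgClosed.algebraMap_bijective_of_isIntegral (k := k)
      (K := algebraicClosure k M)).2 ⟨f, (mem_algebraicClosure_iff).2 hf⟩ |>.imp
        fun c hc => congrArg Subtype.val hc
    refine finsum_eq_zero_of_forall_eq_zero fun V => ?_
    have := h.dvr V
    refine (ord_eq_zero_iff _ _).2 ⟨V.2.2 c, ?_⟩
    have := V.2.2 c⁻¹
    rwa [map_inv₀] at this
  · let N := IntermediateField.adjoin k {f}
    let t : N := IntermediateField.AdjoinSimple.gen k f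
    have ht : Transcendental k t := fun ha => hf (ha.algHom N.val)
    have hN : IsFF k N := h.of_algHom N.val ht
    have := hN.finite_tower h
    choose u hu using exists_under (k := k) (M := N) (M' := M)
    have hgen : IntermediateField.adjoin k {t} = ⊤ := by
      apply IntermediateField.map_injective N.val
      rw [IntermediateField.adjoin_map, ← AlgHom.fieldRange_eq_map, IntermediateField.fieldRange_val,
        Set.image_singleton]
      rfl
    have := (finsum_ext hN h u hu fun _ => t).2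
    rw [Fund_aux_rat hN ht hgen, mul_zero] at this
    exact this

end Pool.Agent.MP_95da86_ag

end

section

/-! The function field of the curve over a field `F`. -/

namespace Pool.Agent.MP_95da86_ag

open Polynomial WeierstrassCurve.Affine

theorem GenA_aux_indep {F N : Type} [Field F] [Field N] [Algebra F N] {a b : N}
    (ha : Transcendental F a) (hab : b ^ 2 = a ^ 3 + 1) {p q : F[X]}
    (h : aeval a p + aeval a q * b = 0) : p = 0 ∧ q = 0 := by
  have h1 : aeval a (p ^ 2 - q ^ 2 * (X ^ 3 + 1)) = 0 := by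
    simp only [map_sub, map_mul, map_pow, map_add, aeval_X, map_one]
    linear_combination (aeval a p - aeval a q * b) * h + (aeval a q) ^ 2 * hab
  have h2 : p ^ 2 = q ^ 2 * (X ^ 3 + 1) := sub_eq_zero.1 (transcendental_iff.1 ha _ h1)
  have h3 : (X ^ 3 + 1 : F[X]).natDegree = 3 := by
    rw [← C_1, natDegree_X_pow_add_C]
  have hq : q = 0 := by
    by_contra hq
    have h4 := congrArg natDegree h2
    rw [natDegree_mul (pow_ne_zero 2 hq) (by rintro h0; simp [h0] at h3), natDegree_pow,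
      natDegree_pow, h3] at h4
    omega
  rw [hq] at h2
  exact ⟨by simpa using h2, hq⟩

theorem GenA_aux_ev (F : Type) [Field F] [Algebra ℂ F] {A : Type} [CommRing A] [Algebra F A]
    (a b : A) (h : b ^ 2 = a ^ 3 + 1) : ∃ ψ : (W0⁄F).CoordinateRing →ₐ[F] A,
      ∀ p q : F[X], ψ (p • 1 + q • CoordinateRing.mk (W0⁄F) X) = aeval a p + aeval a q * b := by
  have h0 : (W0⁄F).polynomial.eval₂ (aeval a : F[X] →ₐ[F] A) b = 0 := by
    simp only [WeierstrassCurve.Affine.polynomial, W0, WeierstrassCurve.Affine.baseChange,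
      WeierstrassCurve.baseChange, WeierstrassCurve.map_a₁, WeierstrassCurve.map_a₂,
      WeierstrassCurve.map_a₃, WeierstrassCurve.map_a₄, WeierstrassCurve.map_a₆, map_zero, map_one,
      eval₂_sub, eval₂_pow, eval₂_C, eval₂_X, zero_mul, add_zero]
    simp [h]
  refine ⟨AdjoinRoot.liftAlgHom _ (aeval a) b h0, fun p q => ?_⟩
  rw [CoordinateRing.smul, CoordinateRing.smul, map_add, map_mul, map_mul, map_one,
    AdjoinRoot.liftAlgHom_mk, AdjoinRoot.liftAlgHom_mk, AdjoinRoot.liftAlgHom_mk]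
  simp

theorem GenA_aux_inj {F N : Type} [Field F] [Algebra ℂ F] [Field N] [Algebra F N] {a b : N}
    (ha : Transcendental F a) (hab : b ^ 2 = a ^ 3 + 1) {ψ : (W0⁄F).CoordinateRing →ₐ[F] N}
    (hψ : ∀ p q : F[X], ψ (p • 1 + q • CoordinateRing.mk (W0⁄F) X) = aeval a p + aeval a q * b) :
    Function.Injective ψ := by
  refine (injective_iff_map_eq_zero ψ).2 fun z hz => ?_
  obtain ⟨p, q, rfl⟩ := CoordinateRing.exists_smul_basis_eq z
  obtain ⟨rfl, rfl⟩ := GenA_aux_indep ha hab ((hψ p q).symm.trans hz)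
  simp

theorem GenA_aux_mem {F N : Type} [Field F] [Field N] [Algebra F N] (a b : N) (p : F[X]) :
    aeval a p ∈ Algebra.adjoin F {a, b} :=
  Algebra.adjoin_mono (by simp) (aeval_mem_adjoin_singleton F a)

theorem GenA_aux_range {F N : Type} [Field F] [Algebra ℂ F] [Field N] [Algebra F N] {a b : N}
    {ψ : (W0⁄F).CoordinateRing →ₐ[F] N}
    (hψ : ∀ p q : F[X], ψ (p • 1 + q • CoordinateRing.mk (W0⁄F) X) = aeval a p + aeval a q * b) :
    ψ.range = Algebra.adjoin F {a, b} := by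
  apply le_antisymm
  · rintro _ ⟨z, rfl⟩
    obtain ⟨p, q, rfl⟩ := CoordinateRing.exists_smul_basis_eq z
    have e := hψ p q
    change ψ _ ∈ _
    rw [e]
    exact add_mem (GenA_aux_mem a b p)
      (mul_mem (GenA_aux_mem a b q) (Algebra.subset_adjoin (by simp)))
  · refine Algebra.adjoin_le ?_
    rintro z (rfl | rfl)
    · exact ⟨_, (hψ X 0).trans (by simp)⟩
    · exact ⟨_, (hψ 0 1).trans (by simp)⟩

variable {F M : Type} [Field F] [Field M] [Algebra ℂ F] [Algebra ℂ M] [Algebra F M]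
  [IsScalarTower ℂ F M] {P : EP M}

theorem Gen.isFF (hP : Gen F P) : IsFF F M := by
  refine ⟨xc P, hP.tr, ?_⟩
  have hi : IsIntegral (IntermediateField.adjoin F {xc P}) (yc P) := by
    refine IsIntegral.of_pow two_pos ?_
    rw [eqn_of_ne hP.ne]
    exact ((isIntegral_algebraMap (R := IntermediateField.adjoin F {xc P}) (A := M)
      (x := ⟨xc P, IntermediateField.mem_adjoin_simple_self F _⟩)).pow 3).add isIntegral_one
  have ht : IntermediateField.adjoin (IntermediateField.adjoin F {xc P}) {yc P} = ⊤ := by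
    apply IntermediateField.restrictScalars_injective F
    rw [IntermediateField.adjoin_adjoin_left, IntermediateField.restrictScalars_top]
    exact hP.gen
  have := IntermediateField.adjoin.finiteDimensional hi
  rw [ht] at this
  exact IntermediateField.topEquiv.toLinearEquiv.finiteDimensional

theorem Gen.yc_tr (hP : Gen F P) : Transcendental F (yc P) := by
  intro hy
  refine hP.tr (IsAlgebraic.of_pow (n := 3) (by norm_num) ?_)
  have : xc P ^ 3 = yc P ^ 2 - 1 := by rw [eqn_of_ne hP.ne]; ring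
  rw [this]
  exact ((hy.isIntegral.pow 2).sub isIntegral_one).isAlgebraic

theorem Gen.repr (hP : Gen F P) {f : M} (hf : f ∈ crd F P) :
    ∃ p q : F[X], f = aeval (xc P) p + aeval (xc P) q * yc P := by
  obtain ⟨ψ, hψ⟩ := GenA_aux_ev F (xc P) (yc P) (eqn_of_ne hP.ne)
  rw [crd, ← GenA_aux_range hψ] at hf
  obtain ⟨z, rfl⟩ := hf
  obtain ⟨p, q, rfl⟩ := CoordinateRing.exists_smul_basis_eq z
  exact ⟨p, q, hψ p q⟩

/-- `x ^ 3 + 1` has odd degree, so it is not a square in `F(x)`. -/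
theorem Gen.indep (hP : Gen F P) {p q : F[X]}
    (h : aeval (xc P) p + aeval (xc P) q * yc P = 0) : p = 0 ∧ q = 0 :=
  GenA_aux_indep hP.tr (eqn_of_ne hP.ne) h

theorem Gen.frac (hP : Gen F P) (f : M) :
    ∃ a ∈ crd F P, ∃ b : F[X], b ≠ 0 ∧ f = a / aeval (xc P) b := by
  have hf : f ∈ IntermediateField.adjoin F {xc P, yc P} := by
    rw [hP.gen]; exact IntermediateField.mem_top
  obtain ⟨r, hr, s, hs, rfl⟩ := IntermediateField.mem_adjoin_iff_div.1 hf
  by_cases h0 : s = 0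
  · exact ⟨0, zero_mem _, 1, one_ne_zero, by simp [h0]⟩
  obtain ⟨p, q, rfl⟩ := hP.repr hs
  have h1 : aeval (xc P) p + aeval (xc P) (-q) * yc P ≠ 0 := fun h => by
    obtain ⟨rfl, h2⟩ := hP.indep h
    obtain rfl := neg_eq_zero.1 h2
    simp at h0
  have h2 : aeval (xc P) (p ^ 2 - q ^ 2 * (X ^ 3 + 1)) =
      (aeval (xc P) p + aeval (xc P) q * yc P) * (aeval (xc P) p + aeval (xc P) (-q) * yc P) := by
    simp only [map_sub, map_mul, map_pow, map_add, aeval_X, map_one, map_neg]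
    linear_combination (aeval (xc P) q) ^ 2 * eqn_of_ne hP.ne
  refine ⟨r * (aeval (xc P) p + aeval (xc P) (-q) * yc P), mul_mem hr (add_mem
    (GenA_aux_mem _ _ _) (mul_mem (GenA_aux_mem _ _ _) (Algebra.subset_adjoin (by simp)))),
    p ^ 2 - q ^ 2 * (X ^ 3 + 1), fun h => ?_, ?_⟩
  · rw [h, map_zero] at h2
    exact mul_ne_zero h0 h1 h2.symm
  · rw [h2, mul_div_mul_right _ _ h1]

theorem Gen.isFractionRing (hP : Gen F P) : IsFractionRing (crd F P) M := by
  refine IsFractionRing.of_field _ _ fun z => ?_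
  obtain ⟨a, ha, b, -, rfl⟩ := hP.frac z
  exact ⟨⟨a, ha⟩, ⟨_, GenA_aux_mem _ _ b⟩, rfl⟩

theorem Gen.exists_equiv (hP : Gen F P) : ∃ e : (W0⁄F).CoordinateRing ≃ₐ[F] crd F P,
    ∀ p q : F[X], (e (p • 1 + q • CoordinateRing.mk (W0⁄F) X) : M) =
      aeval (xc P) p + aeval (xc P) q * yc P := by
  obtain ⟨ψ, hψ⟩ := GenA_aux_ev F (xc P) (yc P) (eqn_of_ne hP.ne)
  exact ⟨(AlgEquiv.ofInjective ψ (GenA_aux_inj hP.tr (eqn_of_ne hP.ne) hψ)).trans
    (Subalgebra.equivOfEq _ _ (GenA_aux_range hψ)), fun p q => hψ p q⟩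

theorem GenA_aux_symm (e : (W0⁄F).CoordinateRing ≃ₐ[F] crd F P)
    (he : ∀ p q : F[X], (e (p • 1 + q • CoordinateRing.mk (W0⁄F) X) : M) =
      aeval (xc P) p + aeval (xc P) q * yc P) {A : Type} [CommRing A] [Algebra F A] {a b : A}
    {ψ : (W0⁄F).CoordinateRing →ₐ[F] A}
    (hψ : ∀ p q : F[X], ψ (p • 1 + q • CoordinateRing.mk (W0⁄F) X) = aeval a p + aeval a q * b) :
    ψ (e.symm ⟨xc P, Algebra.subset_adjoin (by simp)⟩) = a ∧
      ψ (e.symm ⟨yc P, Algebra.subset_adjoin (by simp)⟩) = b := by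
  constructor
  · rw [e.symm_apply_eq.2 (Subtype.ext ((he X 0).trans (by simp)).symm), hψ]
    simp
  · rw [e.symm_apply_eq.2 (Subtype.ext ((he 0 1).trans (by simp)).symm), hψ]
    simp

/-- Homomorphisms out of the coordinate ring. -/
theorem Gen.exists_ev (hP : Gen F P) {A : Type} [CommRing A] [Algebra F A] (a b : A)
    (h : b ^ 2 = a ^ 3 + 1) : ∃ φ : crd F P →ₐ[F] A,
      φ ⟨xc P, Algebra.subset_adjoin (by simp)⟩ = a ∧ φ ⟨yc P, Algebra.subset_adjoin (by simp)⟩ = b := by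
  obtain ⟨e, he⟩ := hP.exists_equiv
  obtain ⟨ψ, hψ⟩ := GenA_aux_ev F a b h
  exact ⟨ψ.comp e.symm.toAlgHom, GenA_aux_symm e he hψ⟩

theorem Gen.lift (hP : Gen F P) {N : Type} [Field N] [Algebra ℂ N] [Algebra F N]
    [IsScalarTower ℂ F N] {Q : EP N} (hQ : Q ≠ 0) (ht : Transcendental F (xc Q)) :
    ∃ φ : M →ₐ[F] N, emap (φ.restrictScalars ℂ) P = Q := by
  obtain ⟨e, he⟩ := hP.exists_equiv
  obtain ⟨ψ, hψ⟩ := GenA_aux_ev F (xc Q) (yc Q) (eqn_of_ne hQ)
  have hi : Function.Injective (ψ.comp e.symm.toAlgHom) :=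
    (GenA_aux_inj ht (eqn_of_ne hQ) hψ).comp e.symm.injective
  have := hP.isFractionRing
  obtain ⟨h1, h2⟩ := GenA_aux_symm e he hψ
  refine ⟨IsFractionRing.liftAlgHom hi,
    EP.ext' (fun h => hP.ne ((emap_eq_zero _).1 h)) hQ ?_ ?_⟩
  · rw [xc_emap, ← h1]
    exact IsFractionRing.lift_algebraMap hi ⟨xc P, Algebra.subset_adjoin (by simp)⟩
  · rw [yc_emap, ← h2]
    exact IsFractionRing.lift_algebraMap hi ⟨yc P, Algebra.subset_adjoin (by simp)⟩

end Pool.Agent.MP_95da86_ag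

end

section

/-! The function field of the curve over a field `F`. -/

namespace Pool.Agent.MP_95da86_ag

open Polynomial WeierstrassCurve.Affine

theorem Gen_aux_dvd {F M : Type} [Field F] [Field M] [Algebra F M] {x : M}
    (hx : Transcendental F x) {r s : F[X]} (hs : s ≠ 0)
    (h : IsIntegral (Algebra.adjoin F {x}) (aeval x r / aeval x s)) : s ∣ r := by
  let φ : F[X] →ₐ[F] Algebra.adjoin F {x} :=
    aeval (⟨x, Algebra.subset_adjoin (by simp)⟩ : Algebra.adjoin F {x})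
  have hφ : ∀ p, (φ p : M) = aeval x p := fun p =>
    (aeval_algHom_apply (Algebra.adjoin F {x}).val _ p).symm
  have hsurj : Function.Surjective φ := by
    rintro ⟨z, hz⟩
    rw [Algebra.adjoin_singleton_eq_range_aeval] at hz
    obtain ⟨p, rfl⟩ := hz
    exact ⟨p, Subtype.ext (hφ p)⟩
  let : Algebra F[X] (Algebra.adjoin F {x}) := φ.toRingHom.toAlgebra
  let : Algebra F[X] M := (aeval x : F[X] →ₐ[F] M).toRingHom.toAlgebra
  have : IsScalarTower F[X] (Algebra.adjoin F {x}) M :=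
    IsScalarTower.of_algebraMap_eq fun p => (hφ p).symm
  have : Algebra.IsIntegral F[X] (Algebra.adjoin F {x}) := Algebra.isIntegral_of_surjective hsurj
  have h1 : IsIntegral F[X] (aeval x r / aeval x s) := isIntegral_trans _ h
  have hinj : Function.Injective (algebraMap F[X] M) := transcendental_iff_injective.1 hx
  let ψ : FractionRing F[X] →+* M := IsFractionRing.lift hinj
  let : Algebra (FractionRing F[X]) M := ψ.toAlgebra
  have : IsScalarTower F[X] (FractionRing F[X]) M :=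
    IsScalarTower.of_algebraMap_eq fun p => (IsFractionRing.lift_algebraMap hinj p).symm
  have e : aeval x r / aeval x s = algebraMap (FractionRing F[X]) M
      (algebraMap F[X] _ r / algebraMap F[X] _ s) := by
    rw [map_div₀, ← IsScalarTower.algebraMap_apply, ← IsScalarTower.algebraMap_apply]; rfl
  rw [e, isIntegral_algebraMap_iff (algebraMap (FractionRing F[X]) M).injective] at h1
  obtain ⟨c, hc⟩ := IsIntegrallyClosed.isIntegral_iff.1 h1
  have hs' : algebraMap F[X] (FractionRing F[X]) s ≠ 0 := by simpa using hs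
  rw [eq_div_iff hs', ← map_mul] at hc
  exact ⟨c, by rw [← IsFractionRing.injective F[X] (FractionRing F[X]) hc, mul_comm]⟩

theorem Gen_aux_sq {F : Type} [Field F] [CharZero F] {b q : F[X]} (hb : b ≠ 0)
    (h : b ^ 2 ∣ q ^ 2 * (X ^ 3 + 1)) : b ∣ q := by
  classical
  have hsq : Squarefree (X ^ 3 + 1 : F[X]) := by
    have := (separable_X_pow_sub_C (F := F) (n := 3) (-1) (by norm_num) (by norm_num)).squarefree
    simpa using this
  obtain ⟨g, b', q', rfl, rfl, hc⟩ : ∃ g b' q', b = g * b' ∧ q = g * q' ∧ IsCoprime b' q' := by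
    obtain ⟨b', q', h1, h2, h3⟩ := extract_gcd b q
    exact ⟨_, b', q', h1, h2, (gcd_isUnit_iff_isRelPrime.1 h3).isCoprime⟩
  have hg : g ≠ 0 := left_ne_zero_of_mul hb
  have h1 : b' ^ 2 ∣ q' ^ 2 * (X ^ 3 + 1) := by
    rw [mul_pow, mul_pow, mul_assoc] at h
    exact (mul_dvd_mul_iff_left (pow_ne_zero 2 hg)).1 h
  have h2 : b' * b' ∣ (X ^ 3 + 1) := by
    rw [← sq]; exact (hc.pow (m := 2) (n := 2)).dvd_of_dvd_mul_left h1
  exact mul_dvd_mul_left g (hsq _ h2).dvd

variable {F M : Type} [Field F] [Field M] [Algebra ℂ F] [Algebra ℂ M] [Algebra F M]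
  [IsScalarTower ℂ F M] {P : EP M}

theorem Gen_aux_conj (hP : Gen F P) : ∃ σ : M →ₐ[F] M, σ (xc P) = xc P ∧ σ (yc P) = -yc P := by
  obtain ⟨σ, hσ⟩ := hP.lift (Q := -P) (neg_ne_zero.2 hP.ne) (by simpa using hP.tr)
  exact ⟨σ, by simpa using congrArg xc hσ, by simpa using congrArg yc hσ⟩

/-- `x ^ 3 + 1` is squarefree, so `F[x, y]` is the integral closure of `F[x]`. -/
theorem Gen.mem_crd_of_integral (hP : Gen F P) {f : M}
    (hf : IsIntegral (Algebra.adjoin F {xc P}) f) : f ∈ crd F P := by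
  have := charZero_of F
  obtain ⟨σ, hx, hy⟩ := Gen_aux_conj hP
  have hσ : ∀ p : F[X], σ (aeval (xc P) p) = aeval (xc P) p := fun p => by
    rw [← aeval_algHom_apply, hx]
  let σ' : M →ₐ[Algebra.adjoin F {xc P}] M :=
    { σ.toRingHom with
      commutes' := by
        rintro ⟨z, hz⟩
        rw [Algebra.adjoin_singleton_eq_range_aeval] at hz
        obtain ⟨p, rfl⟩ := hz
        exact hσ p }
  have hf' : IsIntegral (Algebra.adjoin F {xc P}) (σ f) := hf.map σ'
  obtain ⟨a, ha, b, hb, rfl⟩ := hP.frac f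
  obtain ⟨p, q, rfl⟩ := hP.repr ha
  have hb' : aeval (xc P) b ≠ 0 := fun h => hb (transcendental_iff.1 hP.tr _ h)
  rw [map_div₀, map_add, map_mul, hσ, hσ, hσ, hy] at hf'
  have h1 := hf.add hf'
  have h2 := hf.mul hf'
  have e1 : (aeval (xc P) p + aeval (xc P) q * yc P) / aeval (xc P) b +
      (aeval (xc P) p + aeval (xc P) q * -yc P) / aeval (xc P) b =
      aeval (xc P) (C 2 * p) / aeval (xc P) b := by
    rw [← add_div, map_mul, aeval_C, map_ofNat]; ring
  have e2 : (aeval (xc P) p + aeval (xc P) q * yc P) / aeval (xc P) b *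
      ((aeval (xc P) p + aeval (xc P) q * -yc P) / aeval (xc P) b) =
      aeval (xc P) (p ^ 2 - q ^ 2 * (X ^ 3 + 1)) / aeval (xc P) (b ^ 2) := by
    rw [div_mul_div_comm, map_pow, sq (aeval (xc P) b)]
    congr 1
    simp only [map_sub, map_mul, map_pow, map_add, aeval_X, map_one]
    linear_combination (-(aeval (xc P) q) ^ 2) * eqn_of_ne hP.ne
  rw [e1] at h1
  rw [e2] at h2
  have d1 : b ∣ p :=
    ((isUnit_C.2 (IsUnit.mk0 (2 : F) two_ne_zero)).dvd_mul_left).1 (Gen_aux_dvd hP.tr hb h1)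
  have d2 : b ∣ q := by
    refine Gen_aux_sq hb ?_
    have := dvd_sub (pow_dvd_pow_of_dvd d1 2) (Gen_aux_dvd hP.tr (pow_ne_zero 2 hb) h2)
    simpa using this
  obtain ⟨p', rfl⟩ := d1
  obtain ⟨q', rfl⟩ := d2
  have e : (aeval (xc P) (b * p') + aeval (xc P) (b * q') * yc P) / aeval (xc P) b =
      aeval (xc P) p' + aeval (xc P) q' * yc P := by
    rw [map_mul, map_mul]; field_simp
  rw [e]
  exact add_mem (GenA_aux_mem _ _ _) (mul_mem (GenA_aux_mem _ _ _) (Algebra.subset_adjoin (by simp)))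

omit [IsScalarTower ℂ F M] [Algebra ℂ F] in
theorem Gen_aux_int (hP : Gen F P) {z : M} (hz : z ∈ crd F P) :
    IsIntegral (Algebra.adjoin F {xc P}) z := by
  have hx : IsIntegral (Algebra.adjoin F {xc P}) (xc P) :=
    isIntegral_algebraMap (x := (⟨xc P, Algebra.subset_adjoin (by simp)⟩ : Algebra.adjoin F {xc P}))
  have hy : IsIntegral (Algebra.adjoin F {xc P}) (yc P) := by
    refine IsIntegral.of_pow two_pos ?_
    rw [eqn_of_ne hP.ne]
    exact (hx.pow 3).add isIntegral_one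
  have : crd F P ≤ (integralClosure (Algebra.adjoin F {xc P}) M).restrictScalars F := by
    refine Algebra.adjoin_le ?_
    rintro z (rfl | rfl)
    · exact hx
    · exact hy
  exact this hz

theorem Gen_aux_closed (hP : Gen F P) {f : M} (hf : IsIntegral (crd F P) f) : f ∈ crd F P := by
  have hle : Algebra.adjoin F {xc P} ≤ crd F P := Algebra.adjoin_mono (by simp)
  let : Algebra (Algebra.adjoin F {xc P}) (crd F P) :=
    (Subalgebra.inclusion hle).toRingHom.toAlgebra
  have : IsScalarTower (Algebra.adjoin F {xc P}) (crd F P) M :=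
    IsScalarTower.of_algebraMap_eq fun _ => rfl
  have : Algebra.IsIntegral (Algebra.adjoin F {xc P}) (crd F P) :=
    ⟨fun z => (isIntegral_algebraMap_iff (B := M) Subtype.val_injective).1 (Gen_aux_int hP z.2)⟩
  exact hP.mem_crd_of_integral (isIntegral_trans _ hf)

theorem Gen.dedekind (hP : Gen F P) : IsDedekindDomain (crd F P) := by
  classical
  have := hP.isFractionRing
  refine (isDedekindDomain_iff _ M).2 ⟨inferInstance, ?_, ?_, fun hf => ⟨⟨_, Gen_aux_closed hP hf⟩, rfl⟩⟩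
  · exact isNoetherianRing_of_fg ⟨{xc P, yc P}, by simp⟩
  · have hle : Algebra.adjoin F {xc P} ≤ crd F P := Algebra.adjoin_mono (by simp)
    let : Algebra (Algebra.adjoin F {xc P}) (crd F P) :=
      (Subalgebra.inclusion hle).toRingHom.toAlgebra
    have : IsScalarTower (Algebra.adjoin F {xc P}) (crd F P) M :=
      IsScalarTower.of_algebraMap_eq fun _ => rfl
    have : Algebra.IsIntegral (Algebra.adjoin F {xc P}) (crd F P) :=
      ⟨fun z => (isIntegral_algebraMap_iff (B := M) Subtype.val_injective).1 (Gen_aux_int hP z.2)⟩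
    have : Ring.DimensionLEOne (Algebra.adjoin F {xc P}) :=
      Ring.DimensionLEOne.of_ringEquiv (algEquivOfTranscendental F _ hP.tr).symm.toRingEquiv
    exact Ring.DimensionLEOne.of_isIntegral (Algebra.adjoin F {xc P}) _

theorem Gen_aux_sub (K : IntermediateField F M) {Q Q' : EP M} (hx : xc Q ∈ K) (hy : yc Q ∈ K)
    (hx' : xc Q' ∈ K) (hy' : yc Q' ∈ K) : xc (Q - Q') ∈ K ∧ yc (Q - Q') ∈ K := by
  have : IsScalarTower ℂ K M := IsScalarTower.of_algebraMap_eq fun _ => rfl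
  obtain ⟨c, rfl⟩ := exists_up (F := K) (Q := Q) ⟨⟨_, hx⟩, rfl⟩ ⟨⟨_, hy⟩, rfl⟩
  obtain ⟨c', rfl⟩ := exists_up (F := K) (Q := Q') ⟨⟨_, hx'⟩, rfl⟩ ⟨⟨_, hy'⟩, rfl⟩
  rw [← map_sub, up, xc_emap, yc_emap]
  exact ⟨(xc (c - c')).2, (yc (c - c')).2⟩

theorem Gen.add_up (hP : Gen F P) (c : EP F) : Gen F (P + up F M c) := by
  have key : ∀ K : IntermediateField F M, xc (P + up F M c) ∈ K → yc (P + up F M c) ∈ K →
      xc P ∈ K ∧ yc P ∈ K := fun K hx hy => by
    have := Gen_aux_sub K (Q' := up F M c) hx hy (by rw [up, xc_emap]; exact K.algebraMap_mem _)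
      (by rw [up, yc_emap]; exact K.algebraMap_mem _)
    rwa [add_sub_cancel_right] at this
  have htr : Transcendental F (xc (P + up F M c)) := fun hx => by
    refine hP.tr (mem_algebraicClosure_iff.1 (key (algebraicClosure F M)
      (mem_algebraicClosure_iff.2 hx) (mem_algebraicClosure_iff.2 ?_)).1)
    by_cases h0 : P + up F M c = 0
    · rw [h0]; exact isAlgebraic_zero
    · refine IsAlgebraic.of_pow two_pos ?_
      rw [eqn_of_ne h0]
      exact ((hx.isIntegral.pow 3).add isIntegral_one).isAlgebraic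
  refine ⟨fun h0 => htr (by rw [h0]; exact isAlgebraic_zero), htr, ?_⟩
  rw [eq_top_iff, ← hP.gen, IntermediateField.adjoin_le_iff]
  have := key (IntermediateField.adjoin F {xc (P + up F M c), yc (P + up F M c)})
    (IntermediateField.subset_adjoin _ _ (by simp)) (IntermediateField.subset_adjoin _ _ (by simp))
  rintro z (rfl | rfl)
  · exact this.1
  · exact this.2

theorem Gen.add_tors (hP : Gen F P) (τ : ZMod 3) : Gen F (P + tors M τ) := by
  have := hP.add_up (tors F τ)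
  rwa [up, emap_tors] at this

theorem Gen.crd_le (hP : Gen F P) (V : Pl F M) (hx : xc P ∈ V.1) : ∀ f ∈ crd F P, f ∈ V.1 := by
  have h2 : yc P ^ 2 ∈ V.1 := by
    rw [eqn_of_ne hP.ne]; exact add_mem (pow_mem hx 3) (one_mem _)
  have hy : yc P ∈ V.1 := by
    rcases V.1.mem_or_inv_mem (yc P) with h | h
    · exact h
    · by_cases h0 : yc P = 0
      · rw [h0]; exact zero_mem _
      · have := mul_mem h2 h
        rwa [sq, mul_assoc, mul_inv_cancel₀ h0, mul_one] at this
  have : crd F P ≤ ({ V.1.toSubring with algebraMap_mem' := V.2.2 } : Subalgebra F M) := by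
    refine Algebra.adjoin_le ?_
    rintro z (rfl | rfl)
    · exact hx
    · exact hy
  exact fun f hf => this hf

theorem Gen.val_loc (hP : Gen F P) (V : Pl F M) (hx : xc P ∈ V.1) :
    ∀ f ∈ V.1, ∃ a ∈ crd F P, ∃ b ∈ crd F P, b⁻¹ ∈ V.1 ∧ f = a / b := by
  intro f hf
  have := hP.dedekind
  have hle := hP.crd_le V hx
  let φ : crd F P →+* V.1 := (crd F P).val.toRingHom.codRestrict V.1 fun z => hle _ z.2
  let 𝔭 : Ideal (crd F P) := (IsLocalRing.maximalIdeal V.1).comap φ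
  have : 𝔭.IsPrime := Ideal.comap_isPrime _ _
  have hm : ∀ z : crd F P, z ∈ 𝔭 ↔ (z : M) ∈ V.1.nonunits := fun z => by
    rw [Ideal.mem_comap, ← ValuationSubring.coe_mem_nonunits_iff]; rfl
  have hu : ∀ z : crd F P, z ∉ 𝔭 → (z : M) ≠ 0 ∧ (z : M)⁻¹ ∈ V.1 := fun z hz => by
    rw [hm, ValuationSubring.mem_nonunits_iff_or] at hz
    tauto
  have := IsLocalization.AtPrime.isDedekindDomain (crd F P) 𝔭 (Localization.AtPrime 𝔭)
  have : ValuationRing (Localization.AtPrime 𝔭) :=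
    ((tfae_of_isNoetherianRing_of_isLocalRing_of_isDomain (Localization.AtPrime 𝔭)).out 2 1).1 this
  have hinj : Function.Injective (algebraMap (crd F P) (Localization.AtPrime 𝔭)) :=
    IsLocalization.injective _ 𝔭.primeCompl_le_nonZeroDivisors
  obtain ⟨a, ha, b, hb, rfl⟩ := hP.frac f
  have hb' : aeval (xc P) b ≠ 0 := fun h => hb (transcendental_iff.1 hP.tr _ h)
  set B : crd F P := ⟨aeval (xc P) b, GenA_aux_mem _ _ b⟩
  set A : crd F P := ⟨a, ha⟩
  obtain ⟨c, hc⟩ := ValuationRing.cond (algebraMap _ (Localization.AtPrime 𝔭) A) (algebraMap _ _ B)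
  obtain ⟨⟨c1, c2⟩, rfl⟩ := IsLocalization.mk'_surjective 𝔭.primeCompl c
  have h2 := hu c2 c2.2
  rcases hc with hc | hc
  · dsimp only at hc
    rw [IsLocalization.mul_mk'_eq_mk'_of_mul, IsLocalization.mk'_eq_iff_eq_mul, ← map_mul] at hc
    have e : a * (c1 : M) = aeval (xc P) b * (c2 : crd F P) := congrArg Subtype.val (hinj hc)
    by_cases h1 : c1 ∈ 𝔭
    · exfalso
      refine c2.2 ((hm _).2 ?_)
      have e' : ((c2 : crd F P) : M) = a / aeval (xc P) b * c1 := by
        field_simp; linear_combination -e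
      rw [e', ValuationSubring.mem_nonunits_iff, map_mul]
      exact mul_lt_one_of_nonneg_of_lt_one_right ((V.1.valuation_le_one_iff _).2 hf) zero_le
        ((ValuationSubring.mem_nonunits_iff _).1 ((hm _).1 h1))
    · have h1' := hu c1 h1
      refine ⟨_, (c2 : crd F P).2, _, c1.2, h1'.2, ?_⟩
      rw [div_eq_div_iff hb' h1'.1]; linear_combination e
  · dsimp only at hc
    rw [IsLocalization.mul_mk'_eq_mk'_of_mul, IsLocalization.mk'_eq_iff_eq_mul, ← map_mul] at hc
    have e : aeval (xc P) b * (c1 : M) = a * (c2 : crd F P) := congrArg Subtype.val (hinj hc)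
    refine ⟨_, c1.2, _, (c2 : crd F P).2, h2.2, ?_⟩
    rw [div_eq_div_iff hb' h2.1]; linear_combination -e

/-- An element of `M` without poles at the affine places lies in the coordinate ring. -/
theorem Gen.mem_crd (hP : Gen F P) {f : M} (hf : ∀ V : Pl F M, xc P ∈ V.1 → f ∈ V.1) :
    f ∈ crd F P := by
  by_contra hn
  have : IsIntegrallyClosedIn (crd F P).toSubring M :=
    Subring.isIntegrallyClosedIn_iff.2 fun _ h => Gen_aux_closed hP h
  obtain ⟨V, hV, hfV⟩ := Subring.exists_le_valuationSubring_of_isIntegrallyClosedIn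
    (R := (crd F P).toSubring) hn
  exact hfV (hf ⟨V, fun h => hfV (h ▸ ValuationSubring.mem_top _),
    fun c => hV ((crd F P).algebraMap_mem c)⟩ (hV (Algebra.subset_adjoin (by simp))))

theorem Gen_aux_hV (V : Pl F M) (c : ℂ) : algebraMap ℂ M c ∈ V.1 := by
  rw [IsScalarTower.algebraMap_apply ℂ F M]; exact V.2.2 _

theorem Gen_aux_red (V : Pl F M) {Q : EP M} (h : yc Q ∉ V.1) :
    xc (Q + tors M 1) ∈ mx (vpt V.1 (Gen_aux_hV V)) ∧
      yc (Q + tors M 1) - 1 ∈ mx (vpt V.1 (Gen_aux_hV V)) := by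
  set O := vpt V.1 (Gen_aux_hV V)
  have hI : ∀ Q, Intg O Q := intg_val _ _
  have hr : red O (Q + tors M 1) = tT (RF O) := by
    rw [red_add (hI _) (hI _), (red_eq_zero (hI _)).2 (Or.inr h), red_tors, zero_add, tors_one]
  have hy : yc (Q + tors M 1) ∈ O.1 := by
    by_contra hn
    rw [(red_eq_zero (hI _)).2 (Or.inr hn)] at hr
    exact pt_ne_zero _ _ _ hr.symm
  have hx := (hI _).xc_mem hy
  constructor
  · rw [← res_eq_zero hx, ← xc_red (hI _) hy, hr]; rfl
  · rw [← res_eq_zero (sub_mem hy (one_mem _)), res_sub hy (one_mem _), ← yc_red (hI _) hy, hr,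
      res_one]
    exact sub_self _

omit [Algebra ℂ F] [IsScalarTower ℂ F M] in
theorem Gen_aux_const {O : Pt M} (hO : ∀ c : F, algebraMap F M c ∈ O.1) {x y : M} (hx : x ∈ mx O)
    (hy : y - 1 ∈ mx O) (p q : F[X]) :
    aeval x p + aeval x q * y - algebraMap F M (p.coeff 0 + q.coeff 0) ∈ mx O := by
  have hp : ∀ p : F[X], aeval x p ∈ O.1 := fun p => by
    rw [aeval_eq_sum_range]
    exact sum_mem fun i _ => by
      rw [Algebra.smul_def]; exact mul_mem (hO _) (pow_mem (mx_sub hx) _)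
  have h0 : ∀ p : F[X], aeval x p - algebraMap F M (p.coeff 0) ∈ mx O := fun p => by
    have e := congrArg (aeval x) (X_mul_divX_add p)
    rw [map_add, map_mul, aeval_X, aeval_C] at e
    rw [← e, add_sub_cancel_right]
    exact mx_mul_right hx (hp _)
  have := mx_add (mx_add (h0 p) (h0 q)) (mx_mul_left (hp q) hy)
  convert this using 1
  rw [map_add]; ring

theorem Gen_aux_le (hP : Gen F P) {V V' : Pl F M}
    (hx : xc P ∈ mx (vpt V.1 (Gen_aux_hV V))) (hy : yc P - 1 ∈ mx (vpt V.1 (Gen_aux_hV V)))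
    (hx' : xc P ∈ mx (vpt V'.1 (Gen_aux_hV V'))) (hy' : yc P - 1 ∈ mx (vpt V'.1 (Gen_aux_hV V'))) :
    V.1 ≤ V'.1 := by
  intro f hf
  obtain ⟨a, ha, b, hb, hb', rfl⟩ := hP.val_loc V (mx_sub hx) f hf
  by_cases h0 : b = 0
  · rw [h0, div_zero]; exact zero_mem _
  have hu : IsU (vpt V.1 (Gen_aux_hV V)) b := ⟨h0, hP.crd_le V (mx_sub hx) b hb, hb'⟩
  obtain ⟨p, q, rfl⟩ := hP.repr hb
  have h1 := Gen_aux_const (O := vpt V.1 (Gen_aux_hV V)) V.2.2 hx hy p q
  have h2 := Gen_aux_const (O := vpt V'.1 (Gen_aux_hV V')) V'.2.2 hx' hy' p q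
  have hk : p.coeff 0 + q.coeff 0 ≠ 0 := fun hk => by
    rw [hk, map_zero, sub_zero] at h1
    exact hu.not_mx h1
  have hk' : IsU (vpt V'.1 (Gen_aux_hV V')) (algebraMap F M (p.coeff 0 + q.coeff 0)) :=
    ⟨(_root_.map_ne_zero _).2 hk, V'.2.2 _, by rw [← map_inv₀]; exact V'.2.2 _⟩
  have := hk'.add_mx h2
  rw [add_sub_cancel] at this
  rw [div_eq_mul_inv]
  exact mul_mem (hP.crd_le V' (mx_sub hx') a ha) this.2.2

/-- At most one place lies over a rational point: `P' = P - c + T` is generic and reduces to `T`,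
so the centre of `V` on `F[x', y']` is the maximal ideal `(x', y' - 1)`. -/
theorem Gen.pl_unique (hP : Gen F P) (c : EP F) {V V' : Pl F M}
    (h : yc (P - up F M c) ∉ V.1) (h' : yc (P - up F M c) ∉ V'.1) : V = V' := by
  have h1 : Gen F (P - up F M c + tors M 1) := by
    have := (hP.add_up (-c)).add_tors 1
    rwa [map_neg, ← sub_eq_add_neg] at this
  obtain ⟨hx, hy⟩ := Gen_aux_red V h
  obtain ⟨hx', hy'⟩ := Gen_aux_red V' h'
  exact Subtype.ext (le_antisymm (Gen_aux_le h1 hx hy hx' hy') (Gen_aux_le h1 hx' hy' hx hy))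

theorem Gen.algClosed (hP : Gen F P) {f : M} (hf : IsAlgebraic F f) :
    f ∈ (algebraMap F M).range := by
  have := charZero_of F
  have hc : ∀ p : F[X], IsAlgebraic F (aeval (xc P) p) → p.natDegree = 0 := fun p hp => by
    by_contra hn
    exact hP.tr.aeval p hn (mem_nonZeroDivisors_of_ne_zero
      (leadingCoeff_ne_zero.2 fun h => hn (by simp [h]))) hp
  obtain ⟨σ, hx, hy⟩ := Gen_aux_conj hP
  have hσ : ∀ p : F[X], σ (aeval (xc P) p) = aeval (xc P) p := fun p => by
    rw [← aeval_algHom_apply, hx]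
  have hf' : IsIntegral F (σ f) := hf.isIntegral.map σ
  obtain ⟨p, q, rfl⟩ := hP.repr (hP.mem_crd_of_integral (hf.isIntegral.tower_top))
  rw [map_add, map_mul, hσ, hσ, hy] at hf'
  have h1 := (hf.isIntegral.sub hf').pow 2
  have e : (aeval (xc P) p + aeval (xc P) q * yc P - (aeval (xc P) p + aeval (xc P) q * -yc P)) ^ 2
      = aeval (xc P) (C 4 * (q ^ 2 * (X ^ 3 + 1))) := by
    simp only [map_mul, map_pow, map_add, aeval_X, map_one, aeval_C]
    rw [map_ofNat]
    linear_combination (4 * (aeval (xc P) q) ^ 2) * eqn_of_ne hP.ne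
  rw [e] at h1
  have h3 : (X ^ 3 + 1 : F[X]).natDegree = 3 := by
    rw [← C_1, natDegree_X_pow_add_C]
  have hq : q = 0 := by
    by_contra hq
    have h4 := hc _ h1.isAlgebraic
    rw [natDegree_C_mul (by norm_num),
      natDegree_mul (pow_ne_zero 2 hq) (by rintro h0; simp [h0] at h3), h3] at h4
    omega
  subst hq
  rw [map_zero, zero_mul, add_zero] at hf ⊢
  rw [eq_C_of_natDegree_eq_zero (hc p hf), aeval_C]
  exact ⟨_, rfl⟩

theorem exists_gen (F : Type) [Field F] [Algebra ℂ F] :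
    ∃ P : EP (W0⁄F).FunctionField, Gen F P := by
  let ι := IsScalarTower.toAlgHom F (W0⁄F).CoordinateRing (W0⁄F).FunctionField
  let x := ι (CoordinateRing.mk (W0⁄F) (C X))
  let y := ι (CoordinateRing.mk (W0⁄F) X)
  have hι : Function.Injective ι := IsFractionRing.injective (W0⁄F).CoordinateRing _
  have hp : ∀ p : F[X], ι (CoordinateRing.mk (W0⁄F) (C p)) = aeval x p := fun p => by
    rw [aeval_algHom_apply]
    congr 1
    exact (aeval_algHom_apply (IsScalarTower.toAlgHom F F[X] (W0⁄F).CoordinateRing) X p).trans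
      (by rw [aeval_X_left_apply]; rfl) |>.symm
  have hψ : ∀ p q : F[X], ι (p • 1 + q • CoordinateRing.mk (W0⁄F) X) =
      aeval x p + aeval x q * y := fun p q => by
    rw [CoordinateRing.smul, CoordinateRing.smul, map_add, map_mul, map_mul, map_one, mul_one,
      hp, hp]
  have hxy : y ^ 2 = x ^ 3 + 1 := by
    have h0 : CoordinateRing.mk (W0⁄F) (W0⁄F).polynomial = 0 := AdjoinRoot.mk_self
    have h1 : (W0⁄F).polynomial = X ^ 2 - (C X ^ 3 + 1) := by
      simp [WeierstrassCurve.Affine.polynomial, W0, WeierstrassCurve.Affine.baseChange,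
        WeierstrassCurve.baseChange]
    have := congrArg ι ((congrArg (CoordinateRing.mk (W0⁄F)) h1).symm.trans h0)
    simp only [map_sub, map_pow, map_add, map_one, map_zero] at this
    exact sub_eq_zero.1 this
  refine ⟨pt x y hxy, pt_ne_zero _ _ _, ?_, ?_⟩
  · refine transcendental_iff.2 fun p h => ?_
    have := hψ p 0
    rw [xc_pt] at h
    rw [h, map_zero, zero_mul, add_zero, ← map_zero ι] at this
    exact (CoordinateRing.smul_basis_eq_zero (hι this)).1
  · rw [eq_top_iff]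
    intro f _
    obtain ⟨a, b, -, rfl⟩ := IsFractionRing.div_surjective (A := (W0⁄F).CoordinateRing) f
    have hm : ∀ a, ι a ∈ IntermediateField.adjoin F {x, y} := fun a => by
      apply IntermediateField.algebra_adjoin_le_adjoin
      rw [← GenA_aux_range hψ]
      exact ⟨a, rfl⟩
    exact div_mem (hm a) (hm b)

end Pool.Agent.MP_95da86_ag

end

section

/-! Generic points of `E ^ 3`. -/

namespace Pool.Agent.MP_95da86_ag

variable {L : Type} [Field L] [Algebra ℂ L] {P Q : Fin 3 → EP L}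

theorem Gen3A_aux_y {R : Type} [CommRing R] [Algebra R L] (q : EP L)
    (hx : xc q ∈ Set.range (algebraMap R L)) : IsIntegral R (yc q) := by
  by_cases hq : q = 0
  · rw [hq, yc_zero]
    exact isIntegral_zero
  · obtain ⟨a, ha⟩ := hx
    refine IsIntegral.of_pow (n := 2) (by norm_num) ?_
    rw [eqn_of_ne hq, ← ha]
    exact (isIntegral_algebraMap.pow 3).add isIntegral_one

theorem Gen3A_aux_alg (E : IntermediateField ℂ L) {T : Set L} (hT : ∀ t ∈ T, IsAlgebraic E t)
    {f : L} (hf : f ∈ IntermediateField.adjoin ℂ T) : IsAlgebraic E f := by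
  have h : IntermediateField.adjoin ℂ T ≤ (algebraicClosure E L).restrictScalars ℂ :=
    IntermediateField.adjoin_le_iff.2 fun t ht => mem_algebraicClosure_iff.2 (hT t ht)
  exact mem_algebraicClosure_iff.1 (h hf)

omit [Algebra ℂ L] in
theorem Gen3A_aux_tr {E K : Type} [Field E] [Field K] [Algebra E L] [Algebra K L]
    (h : ∀ c : K, IsAlgebraic E (algebraMap K L c)) {t : L} (ht : Transcendental E t) :
    Transcendental K t := fun halg => by
  let f : K →+* algebraicClosure E L :=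
    (algebraMap K L).codRestrict (algebraicClosure E L) fun c => mem_algebraicClosure_iff.2 (h c)
  have h1 : IsAlgebraic (algebraicClosure E L) (RingHom.id L t) :=
    halg.ringHom_of_comp_eq f (RingHom.id L) f.injective (by ext c; rfl)
  exact ht (h1.restrictScalars E)

instance Gen3A_aux_tower {F : Type} [Field F] [Algebra ℂ F] [Algebra F L] [IsScalarTower ℂ F L]
    (K : IntermediateField F L) : IsScalarTower ℂ K L :=
  IsScalarTower.of_algebraMap_eq fun _ => rfl

theorem Gen3A_aux_step (F : Type) [Field F] [Algebra ℂ F] [Algebra F L] [IsScalarTower ℂ F L]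
    {q : EP L} (hq : q ≠ 0) (ht : Transcendental F (xc q)) :
    ∃ q' : EP (IntermediateField.adjoin F {xc q, yc q}), Gen F q' ∧ up _ L q' = q := by
  set K := IntermediateField.adjoin F {xc q, yc q} with hK
  have hx : xc q ∈ K := IntermediateField.subset_adjoin _ _ (by simp)
  have hy : yc q ∈ K := IntermediateField.subset_adjoin _ _ (by simp)
  refine ⟨pt ⟨xc q, hx⟩ ⟨yc q, hy⟩ (Subtype.ext (eqn_of_ne hq)), ⟨pt_ne_zero _ _ _, ?_, ?_⟩, ?_⟩
  · exact (transcendental_algebraMap_iff (algebraMap K L).injective).1 ht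
  · apply IntermediateField.map_injective K.val
    rw [IntermediateField.adjoin_map, ← AlgHom.fieldRange_eq_map, IntermediateField.fieldRange_val,
      Set.image_pair]
    rfl
  · rw [up, emap_pt]
    exact pt_xc_yc hq

theorem Gen3A_aux_pt (E : IntermediateField ℂ L) {q : EP L} (hx : xc q ∈ E) :
    ∀ t ∈ ({xc q, yc q} : Set L), IsAlgebraic E t := by
  rintro t (rfl | rfl)
  · exact isAlgebraic_algebraMap (⟨_, hx⟩ : E)
  · exact (Gen3A_aux_y _ ⟨(⟨_, hx⟩ : E), rfl⟩).isAlgebraic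

/-- Take `F1 = ℂ(x₀, y₀)`, `F2 = ℂ(x₀, y₀, x₁, y₁)` as intermediate fields. -/
theorem Gen3.tower (hP : Gen3 P) : Nonempty (Tower P) := by
  have htr : ∀ (s : Set (Fin 3)) (i : Fin 3), i ∉ s → Transcendental
      (IntermediateField.adjoin ℂ ((fun i => xc (P i)) '' s)) (xc (P i)) := fun s i hi =>
    IntermediateField.transcendental_adjoin_iff.2 (hP.ind.transcendental_adjoin hi)
  have hmem : ∀ (s : Set (Fin 3)) (i : Fin 3), i ∈ s →
      xc (P i) ∈ IntermediateField.adjoin ℂ ((fun i => xc (P i)) '' s) := fun s i hi =>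
    IntermediateField.subset_adjoin _ _ ⟨i, hi, rfl⟩
  let K1 := IntermediateField.adjoin ℂ {xc (P 0), yc (P 0)}
  obtain ⟨P1, g1, e1⟩ : ∃ q' : EP K1, Gen ℂ q' ∧ up K1 L q' = P 0 :=
    Gen3A_aux_step ℂ (hP.ne 0) (hP.ind.transcendental 0)
  have t1 : Transcendental K1 (xc (P 1)) :=
    Gen3A_aux_tr (fun c => Gen3A_aux_alg _ (Gen3A_aux_pt _ (hmem {0} 0 rfl)) c.2)
      (htr {0} 1 (by simp))
  let K2 := IntermediateField.adjoin K1 {xc (P 1), yc (P 1)}
  obtain ⟨P2, g2, e2⟩ : ∃ q' : EP K2, Gen K1 q' ∧ up K2 L q' = P 1 :=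
    Gen3A_aux_step K1 (hP.ne 1) t1
  have t2 : Transcendental K2 (xc (P 2)) := by
    refine Gen3A_aux_tr (fun c => ?_) (htr {0, 1} 2 (by simp))
    have hc : (c : L) ∈ IntermediateField.adjoin ℂ
        ({xc (P 0), yc (P 0)} ∪ {xc (P 1), yc (P 1)} : Set L) := by
      rw [← IntermediateField.adjoin_adjoin_left]
      exact c.2
    refine Gen3A_aux_alg _ (fun t ht => ?_) hc
    rcases ht with ht | ht
    · exact Gen3A_aux_pt _ (hmem _ 0 (by simp)) t ht
    · exact Gen3A_aux_pt _ (hmem _ 1 (by simp)) t ht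
  have g3 : Gen K2 (P 2) := by
    refine ⟨hP.ne 2, t2, eq_top_iff.2 fun f _ => ?_⟩
    set K3 := IntermediateField.adjoin K2 {xc (P 2), yc (P 2)} with hK3
    have h2 : ∀ f ∈ K2, f ∈ K3 := fun f hf => K3.algebraMap_mem (⟨f, hf⟩ : K2)
    have h1 : ∀ f ∈ K1, f ∈ K3 := fun f hf => h2 f (K2.algebraMap_mem (⟨f, hf⟩ : K1))
    have h : ∀ i, xc (P i) ∈ K3 ∧ yc (P i) ∈ K3 := fun i => by
      fin_cases i
      · exact ⟨h1 _ (IntermediateField.subset_adjoin _ _ (by simp)),
          h1 _ (IntermediateField.subset_adjoin _ _ (by simp))⟩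
      · exact ⟨h2 _ (IntermediateField.subset_adjoin _ _ (by simp)),
          h2 _ (IntermediateField.subset_adjoin _ _ (by simp))⟩
      · exact ⟨IntermediateField.subset_adjoin _ _ (by simp),
          IntermediateField.subset_adjoin _ _ (by simp)⟩
    have hle : (⊤ : IntermediateField ℂ L) ≤ K3.restrictScalars ℂ := by
      rw [← hP.gen, IntermediateField.adjoin_le_iff]
      rintro t (⟨i, rfl⟩ | ⟨i, rfl⟩)
      · exact (h i).1
      · exact (h i).2
    exact hle IntermediateField.mem_top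
  exact ⟨
    { F1 := K1
      F2 := K2
      P1 := P1
      P2 := P2
      g1 := g1
      g2 := g2
      g3 := g3
      e1 := e1
      e2 := e2 }⟩

theorem Gen3A_aux_isAlg (hgen : IntermediateField.adjoin ℂ
    (Set.range (fun i => xc (Q i)) ∪ Set.range fun i => yc (Q i)) = ⊤) :
    Algebra.IsAlgebraic (Algebra.adjoin ℂ (Set.range fun i => xc (Q i))) L := by
  refine IntermediateField.isAlgebraic_adjoin_iff_top.1 ⟨fun f => ?_⟩
  have hf : f ∈ IntermediateField.adjoin ℂ
      (Set.range (fun i => xc (Q i)) ∪ Set.range fun i => yc (Q i)) := by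
    rw [hgen]
    exact IntermediateField.mem_top
  refine Gen3A_aux_alg _ ?_ hf
  have hx : ∀ i, xc (Q i) ∈ IntermediateField.adjoin ℂ (Set.range fun i => xc (Q i)) := fun i =>
    IntermediateField.subset_adjoin _ _ ⟨i, rfl⟩
  rintro t (⟨i, rfl⟩ | ⟨i, rfl⟩)
  · exact Gen3A_aux_pt _ (hx i) _ (by simp)
  · exact Gen3A_aux_pt _ (hx i) _ (by simp)

theorem Gen3.trdeg (hP : Gen3 P) : Algebra.trdeg ℂ L = 3 := by
  have h : IsTranscendenceBasis ℂ fun i => xc (P i) :=
    hP.ind.isTranscendenceBasis_iff_isAlgebraic.2 (Gen3A_aux_isAlg hP.gen)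
  rw [← h.cardinalMk_eq_trdeg]
  simp

theorem Gen3.frac (hP : Gen3 P) (f : L) :
    ∃ a ∈ chartA P, ∃ b ∈ chartA P, b ≠ 0 ∧ f = a / b := by
  have hf : f ∈ IntermediateField.adjoin ℂ
      (Set.range (fun i => xc (P i)) ∪ Set.range fun i => yc (P i)) := by
    rw [hP.gen]
    exact IntermediateField.mem_top
  obtain ⟨a, ha, b, hb, e⟩ := IntermediateField.mem_adjoin_iff_div.1 hf
  by_cases h0 : b = 0
  · exact ⟨0, zero_mem _, 1, one_mem _, one_ne_zero, by rw [e, h0]; simp⟩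
  · exact ⟨a, ha, b, hb, h0, e⟩

/-- Every element of the chart is integral over `ℂ[x₀, x₁, x₂]`. -/
theorem Gen3.integral (hP : Gen3 P) {f : L} (hf : f ∈ chartA P) :
    IsIntegral (Algebra.adjoin ℂ (Set.range fun i => xc (P i))) f := by
  have _ := hP
  set A := Algebra.adjoin ℂ (Set.range fun i => xc (P i)) with hA
  have hx : ∀ i, xc (P i) ∈ A := fun i => Algebra.subset_adjoin ⟨i, rfl⟩
  have h : chartA P ≤ (integralClosure A L).restrictScalars ℂ := by
    refine Algebra.adjoin_le ?_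
    rintro t (⟨i, rfl⟩ | ⟨i, rfl⟩)
    · exact isIntegral_algebraMap (x := (⟨_, hx i⟩ : A))
    · exact Gen3A_aux_y (R := A) _ ⟨⟨_, hx i⟩, rfl⟩
  exact h hf

theorem Gen3.algHom_ext (hP : Gen3 P) {N : Type} [Field N] [Algebra ℂ N] {φ ψ : L →ₐ[ℂ] N}
    (h : ∀ i, emap φ (P i) = emap ψ (P i)) : φ = ψ := by
  have hle : chartA P ≤ AlgHom.equalizer φ ψ := by
    refine Algebra.adjoin_le ?_
    rintro t (⟨i, rfl⟩ | ⟨i, rfl⟩)
    · have := congrArg xc (h i)
      rwa [xc_emap, xc_emap] at this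
    · have := congrArg yc (h i)
      rwa [yc_emap, yc_emap] at this
  ext f
  obtain ⟨a, ha, b, hb, -, rfl⟩ := hP.frac f
  have h1 : φ a = ψ a := hle ha
  have h2 : φ b = ψ b := hle hb
  rw [map_div₀, map_div₀, h1, h2]

theorem Gen3A_aux_ind (hP : Gen3 P) (hgen : IntermediateField.adjoin ℂ
    (Set.range (fun i => xc (Q i)) ∪ Set.range fun i => yc (Q i)) = ⊤) :
    AlgebraicIndependent ℂ fun i => xc (Q i) := by
  have := Gen3A_aux_isAlg hgen
  exact (Algebra.IsAlgebraic.isTranscendenceBasis_of_le_trdeg_of_finite ℂ (fun i => xc (Q i))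
    (by rw [hP.trdeg]; simp)).1

/-- If the coordinates of `Q` generate `L`, then `Q` is generic (transcendence degree). -/
theorem Gen3.of_gen (hP : Gen3 P) (hQ : ∀ i, Q i ≠ 0) (hgen : IntermediateField.adjoin ℂ
    (Set.range (fun i => xc (Q i)) ∪ Set.range fun i => yc (Q i)) = ⊤) : Gen3 Q :=
  ⟨hQ, Gen3A_aux_ind hP hgen, hgen⟩

theorem Gen3A_aux_lin (g h : Matrix (Fin 3) (Fin 3) Zw) (P : Fin 3 → EP L) (j : Fin 3) :
    lin (h j) (fun i => lin (g i) P) = lin ((h * g) j) P := by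
  simp only [lin, Finset.smul_sum, smul_smul, Matrix.mul_apply, Finset.sum_smul]
  exact Finset.sum_comm

theorem Gen3A_aux_one (P : Fin 3 → EP L) (j : Fin 3) :
    lin ((1 : Matrix (Fin 3) (Fin 3) Zw) j) P = P j := by
  simp [lin, Matrix.one_apply]

/-- The points `P i` are combinations of the new points and constants, so their coordinates lie in
the field generated by the new coordinates (`exists_up`), even if a new point were zero; then
the transcendence degree excludes that case. -/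
theorem Gen3.aff (hP : Gen3 P) (g : GLw) (c : Fin 3 → EP ℂ) :
    Gen3 fun i => lin (g.val i) P + cst L (c i) := by
  set Q : Fin 3 → EP L := fun i => lin (g.val i) P + cst L (c i) with hQ
  set K := IntermediateField.adjoin ℂ
    (Set.range (fun i => xc (Q i)) ∪ Set.range fun i => yc (Q i)) with hK
  have h1 : ∀ i, lin (g.val i) P ∈ LinearMap.range (up K L) := fun i => by
    obtain ⟨q, hq⟩ := exists_up (F := K) (Q := Q i)
      ⟨⟨_, IntermediateField.subset_adjoin _ _ (Or.inl ⟨i, rfl⟩)⟩, rfl⟩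
      ⟨⟨_, IntermediateField.subset_adjoin _ _ (Or.inr ⟨i, rfl⟩)⟩, rfl⟩
    refine ⟨q - cst K (c i), ?_⟩
    rw [map_sub, ← hq, up, emap_cst]
    exact add_sub_cancel_right _ _
  have h2 : ∀ j, P j ∈ LinearMap.range (up K L) := fun j => by
    rw [← Gen3A_aux_one P j, ← g.inv_mul, ← Gen3A_aux_lin]
    exact Submodule.sum_mem _ fun i _ => Submodule.smul_mem _ _ (h1 i)
  have hgen : K = ⊤ := by
    rw [eq_top_iff, ← hP.gen, IntermediateField.adjoin_le_iff]
    rintro t (⟨i, rfl⟩ | ⟨i, rfl⟩)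
    · obtain ⟨q, hq⟩ := h2 i
      simp only [← hq, up, xc_emap]
      exact (xc q).2
    · obtain ⟨q, hq⟩ := h2 i
      simp only [← hq, up, yc_emap]
      exact (yc q).2
  have hind := Gen3A_aux_ind hP hgen
  refine ⟨fun i h0 => hind.transcendental i ?_, hind, hgen⟩
  rw [h0, xc_zero]
  exact isAlgebraic_zero

theorem Gen3.add_tors (hP : Gen3 P) (a : F3) : Gen3 fun i => P i + tors L (a i) := by
  have h := hP.aff 1 fun i => tors ℂ (a i)
  simpa only [Units.val_one, Gen3A_aux_one, cst_tors] using h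

theorem Gen3.shift (hP : Gen3 P) (p : F3) : Gen3 (sh P p) := by
  have e : sh P p = fun i => P i + tors L ((-p) i) := by
    funext i
    rw [sh, Pi.neg_apply, tors_neg, sub_eq_add_neg]
  rw [e]
  exact hP.add_tors (-p)

theorem Gen3.yc_ne (hP : Gen3 P) (i : Fin 3) : yc (P i) ≠ 0 := fun h => by
  have e := eqn_of_ne (hP.ne i)
  rw [h] at e
  refine hP.ind.transcendental i (IsIntegral.isAlgebraic (IsIntegral.of_pow (n := 3)
    (by norm_num) ?_))
  have : xc (P i) ^ 3 = -1 := by linear_combination -e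
  rw [this]
  exact isIntegral_one.neg

theorem Gen3.xc_ne (hP : Gen3 P) (i : Fin 3) : xc (P i) ≠ 0 := fun h =>
  hP.ind.transcendental i (by rw [h]; exact isAlgebraic_zero)

end Pool.Agent.MP_95da86_ag

end

section

/-! Generic points of `E ^ 3`. -/

namespace Pool.Agent.MP_95da86_ag

variable {L : Type} [Field L] [Algebra ℂ L] {P Q : Fin 3 → EP L}

theorem Gen3_aux_step {F M F' M' : Type} [Field F] [Field M] [Field F'] [Field M'] [Algebra ℂ F]
    [Algebra ℂ M] [Algebra ℂ F'] [Algebra ℂ M'] [Algebra F M] [Algebra F' M']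
    [IsScalarTower ℂ F M] [IsScalarTower ℂ F' M'] {P : EP M} {P' : EP M'} (hP : Gen F P)
    (hP' : Gen F' P') (φ : F →ₐ[ℂ] F') : ∃ ψ : M →ₐ[ℂ] M',
      (∀ a, ψ (algebraMap F M a) = algebraMap F' M' (φ a)) ∧ emap ψ P = P' := by
  let : Algebra F M' := ((algebraMap F' M').comp (φ : F →+* F')).toAlgebra
  have hmap : ∀ a, algebraMap F M' a = algebraMap F' M' (φ a) := fun _ => rfl
  have : IsScalarTower ℂ F M' := IsScalarTower.of_algebraMap_eq fun z => by
    rw [hmap, φ.commutes, ← IsScalarTower.algebraMap_apply]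
  have ht : Transcendental F (xc P') := by
    rintro ⟨p, hp, h0⟩
    refine hP'.tr ⟨p.map (φ : F →+* F'), (Polynomial.map_ne_zero_iff φ.injective).2 hp, ?_⟩
    rw [Polynomial.aeval_def, Polynomial.eval₂_map]
    exact h0
  obtain ⟨ψ, hψ⟩ := hP.lift hP'.ne ht
  exact ⟨ψ.restrictScalars ℂ, fun a => ψ.commutes a, hψ⟩

theorem Gen3_aux_hom (hP : Gen3 P) (hQ : Gen3 Q) :
    ∃ φ : L →ₐ[ℂ] L, ∀ i, emap φ (P i) = Q i := by
  obtain ⟨T⟩ := hP.tower
  obtain ⟨T'⟩ := hQ.tower
  obtain ⟨φ1, h1⟩ := T.g1.lift T'.g1.ne T'.g1.tr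
  obtain ⟨φ2, c2, h2⟩ := Gen3_aux_step T.g2 T'.g2 (φ1.restrictScalars ℂ)
  obtain ⟨φ3, c3, h3⟩ := Gen3_aux_step T.g3 T'.g3 φ2
  have k2 : φ3.comp (IsScalarTower.toAlgHom ℂ T.F2 L) =
      (IsScalarTower.toAlgHom ℂ T'.F2 L).comp φ2 := AlgHom.ext c3
  have k1 : φ3.comp (IsScalarTower.toAlgHom ℂ T.F1 L) =
      (IsScalarTower.toAlgHom ℂ T'.F1 L).comp (φ1.restrictScalars ℂ) := AlgHom.ext fun a => by
    change φ3 (algebraMap T.F1 L a) = algebraMap T'.F1 L (φ1.restrictScalars ℂ a)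
    rw [IsScalarTower.algebraMap_apply T.F1 T.F2 L, c3, c2, ← IsScalarTower.algebraMap_apply]
  refine ⟨φ3, fun i => ?_⟩
  fin_cases i
  · change emap φ3 (P 0) = Q 0
    rw [← T.e1, ← T'.e1, up, up, emap_emap, k1, ← emap_emap, h1]
  · change emap φ3 (P 1) = Q 1
    rw [← T.e2, ← T'.e2, up, up, emap_emap, k2, ← emap_emap, h2]
  · exact h3

/-- Three applications of `Gen.lift` along the tower; surjective since `Q` generates. -/
theorem Gen3.exists_aut (hP : Gen3 P) (hQ : Gen3 Q) :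
    ∃ γ : L ≃ₐ[ℂ] L, ∀ i, emap (γ : L →ₐ[ℂ] L) (P i) = Q i := by
  obtain ⟨φ, hφ⟩ := Gen3_aux_hom hP hQ
  obtain ⟨ψ, hψ⟩ := Gen3_aux_hom hQ hP
  refine ⟨AlgEquiv.ofAlgHom φ ψ (hQ.algHom_ext fun i => ?_) (hP.algHom_ext fun i => ?_), hφ⟩
  · rw [← emap_emap, hψ, hφ, emap_id]
  · rw [← emap_emap, hφ, hψ, emap_id]

theorem Gen3_aux_sign (hP : Gen3 P) (k : Fin 3) : ∃ σ : L →ₐ[ℂ] L,
    (∀ i, σ (xc (P i)) = xc (P i)) ∧ (∀ i, i ≠ k → σ (yc (P i)) = yc (P i)) ∧
      σ (yc (P k)) = -yc (P k) := by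
  have hx : (fun i => xc (Function.update P k (-P k) i)) = fun i => xc (P i) := by
    funext i
    by_cases h : i = k
    · subst h; simp
    · rw [Function.update_of_ne h]
  have hQ : Gen3 (Function.update P k (-P k)) := by
    refine ⟨fun i => ?_, hx ▸ hP.ind, ?_⟩
    · by_cases h : i = k
      · subst h; simpa using hP.ne i
      · rw [Function.update_of_ne h]; exact hP.ne i
    · rw [eq_top_iff, ← hP.gen, IntermediateField.adjoin_le_iff, hx]
      rintro z (hz | ⟨i, rfl⟩)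
      · exact IntermediateField.subset_adjoin _ _ (Or.inl hz)
      · by_cases h : i = k
        · subst h
          have : yc (P i) = -yc (Function.update P i (-P i) i) := by simp
          change yc (P i) ∈ _
          rw [this]
          exact neg_mem (IntermediateField.subset_adjoin _ _ (Or.inr ⟨i, rfl⟩))
        · refine IntermediateField.subset_adjoin _ _ (Or.inr ⟨i, ?_⟩)
          change yc _ = yc _
          rw [Function.update_of_ne h]
  obtain ⟨σ, hσ⟩ := Gen3_aux_hom hP hQ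
  refine ⟨σ, fun i => ?_, fun i hi => ?_, ?_⟩
  · rw [← xc_emap, hσ]; exact congrFun hx i
  · rw [← yc_emap, hσ, Function.update_of_ne hi]
  · rw [← yc_emap, hσ]; simp

theorem Gen3_aux_quad {A : Type} [CommRing A] [Algebra ℂ A] (S : Subalgebra ℂ A) (u : A)
    (hu : u * u ∈ S) {g : A} (hg : g ∈ Algebra.adjoin ℂ (insert u (S : Set A))) :
    ∃ a ∈ S, ∃ b ∈ S, g = a + b * u := by
  induction hg using Algebra.adjoin_induction with
  | mem z hz =>
    rcases hz with rfl | hz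
    · exact ⟨0, S.zero_mem, 1, S.one_mem, by ring⟩
    · exact ⟨z, hz, 0, S.zero_mem, by ring⟩
  | algebraMap r => exact ⟨_, S.algebraMap_mem r, 0, S.zero_mem, by ring⟩
  | add z w _ _ hz hw =>
    obtain ⟨a, ha, b, hb, rfl⟩ := hz
    obtain ⟨a', ha', b', hb', rfl⟩ := hw
    exact ⟨a + a', S.add_mem ha ha', b + b', S.add_mem hb hb', by ring⟩
  | mul z w _ _ hz hw =>
    obtain ⟨a, ha, b, hb, rfl⟩ := hz
    obtain ⟨a', ha', b', hb', rfl⟩ := hw
    exact ⟨a * a' + b * b' * (u * u), S.add_mem (S.mul_mem ha ha') (S.mul_mem (S.mul_mem hb hb') hu),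
      a * b' + b * a', S.add_mem (S.mul_mem ha hb') (S.mul_mem hb ha'), by ring⟩

theorem Gen3_aux_graph (hP : Gen3 P) {N : Type} [Field N] [Algebra ℂ N] (c : Fin 3 → EP N)
    (hc : ∀ i, c i ≠ 0) (s : Finset (Fin 3)) : ∀ g ∈ Algebra.adjoin ℂ
      (Set.range (fun i => (xc (P i), xc (c i))) ∪ (fun i => (yc (P i), yc (c i))) '' s),
      g.1 = 0 → g.2 = 0 := by
  have := charZero_of L
  induction s using Finset.induction_on with
  | empty =>
    intro g hg h0
    rw [Finset.coe_empty, Set.image_empty, Set.union_empty,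
      Algebra.adjoin_range_eq_range_aeval] at hg
    obtain ⟨p, rfl⟩ := hg
    have h1 : MvPolynomial.aeval (fun i => xc (P i)) p = 0 := by
      rw [← h0]
      exact (DFunLike.congr_fun (MvPolynomial.comp_aeval (fun i => (xc (P i), xc (c i)))
        (AlgHom.fst ℂ L N)) p).symm
    have hp : p = 0 := hP.ind (by rw [h1, map_zero])
    subst hp
    simp
  | insert k s hk ih =>
    intro g hg h0
    rw [Finset.coe_insert, Set.image_insert_eq, Set.union_insert,
      ← Algebra.adjoin_insert_adjoin] at hg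
    obtain ⟨σ, hx, hy, hk'⟩ := Gen3_aux_sign hP k
    have hfix : Algebra.adjoin ℂ (Set.range (fun i => (xc (P i), xc (c i))) ∪
        (fun i => (yc (P i), yc (c i))) '' s) ≤
        AlgHom.equalizer (σ.comp (AlgHom.fst ℂ L N)) (AlgHom.fst ℂ L N) := by
      refine Algebra.adjoin_le ?_
      rintro z (⟨i, rfl⟩ | ⟨i, hi, rfl⟩)
      · exact hx i
      · exact hy i fun h => hk (h ▸ hi)
    have hsq : (yc (P k), yc (c k)) * (yc (P k), yc (c k)) = (xc (P k), xc (c k)) ^ 3 + 1 := by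
      rw [← sq]
      exact Prod.ext (eqn_of_ne (hP.ne k)) (eqn_of_ne (hc k))
    have hxk : (xc (P k), xc (c k)) ∈ Algebra.adjoin ℂ (Set.range (fun i => (xc (P i), xc (c i))) ∪
        (fun i => (yc (P i), yc (c i))) '' s) := Algebra.subset_adjoin (Or.inl ⟨k, rfl⟩)
    obtain ⟨a, ha, b, hb, rfl⟩ := Gen3_aux_quad _ _ (by
      rw [hsq]
      exact add_mem (pow_mem hxk 3) (one_mem _)) hg
    have fa : σ a.1 = a.1 := hfix ha
    have fb : σ b.1 = b.1 := hfix hb
    have e1 : a.1 + b.1 * yc (P k) = 0 := h0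
    have e2 := congrArg σ e1
    rw [map_add, map_mul, fa, fb, hk', map_zero] at e2
    have ea : a.1 = 0 := by linear_combination (e1 + e2) / 2
    have eb : b.1 = 0 := by
      rw [ea, zero_add] at e1
      exact (mul_eq_zero.1 e1).resolve_right (hP.yc_ne k)
    change a.2 + b.2 * yc (c k) = 0
    rw [ih a ha ea, ih b hb eb, zero_mul, add_zero]

/-- The universal property of the affine chart. The graph of the correspondence is generated by
the pairs of coordinates, and its first projection is injective. -/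
theorem Gen3.exists_ev (hP : Gen3 P) {N : Type} [Field N] [Algebra ℂ N] (c : Fin 3 → EP N)
    (hc : ∀ i, c i ≠ 0) : ∃ φ : chartA P →ₐ[ℂ] N, ∀ i,
      φ ⟨xc (P i), Algebra.subset_adjoin (Or.inl ⟨i, rfl⟩)⟩ = xc (c i) ∧
      φ ⟨yc (P i), Algebra.subset_adjoin (Or.inr ⟨i, rfl⟩)⟩ = yc (c i) := by
  have hG := Gen3_aux_graph hP c hc Finset.univ
  rw [Finset.coe_univ, Set.image_univ] at hG
  set G := Algebra.adjoin ℂ (Set.range (fun i => (xc (P i), xc (c i))) ∪
    Set.range fun i => (yc (P i), yc (c i))) with hGdef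
  have hmap : G.map (AlgHom.fst ℂ L N) = chartA P := by
    rw [hGdef, AlgHom.map_adjoin, Set.image_union, ← Set.range_comp, ← Set.range_comp]
    rfl
  let f : G →ₐ[ℂ] chartA P := ((AlgHom.fst ℂ L N).comp G.val).codRestrict (chartA P)
    fun g => hmap ▸ ⟨g.1, g.2, rfl⟩
  have hf : Function.Bijective f := by
    refine ⟨(injective_iff_map_eq_zero f).2 fun g hg => ?_, fun b => ?_⟩
    · have h1 : g.1.1 = 0 := congrArg Subtype.val hg
      exact Subtype.ext (Prod.ext h1 (hG g.1 g.2 h1))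
    · obtain ⟨g, hg, e⟩ : b.1 ∈ G.map (AlgHom.fst ℂ L N) := by
        rw [hmap]; exact b.2
      exact ⟨⟨g, hg⟩, Subtype.ext e⟩
  let e := AlgEquiv.ofBijective f hf
  have key : ∀ (g : G) (b : chartA P), g.1.1 = b.1 →
      (((AlgHom.snd ℂ L N).comp G.val).comp (e.symm : chartA P →ₐ[ℂ] G)) b = g.1.2 := by
    intro g b h
    have : b = e g := Subtype.ext h.symm
    subst this
    change (e.symm (e g)).1.2 = _
    rw [e.symm_apply_apply]
  exact ⟨_, fun i => ⟨key ⟨_, Algebra.subset_adjoin (Or.inl ⟨i, rfl⟩)⟩ _ rfl,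
    key ⟨_, Algebra.subset_adjoin (Or.inr ⟨i, rfl⟩)⟩ _ rfl⟩⟩

/-- A non-zero function does not vanish at some complex point (Nullstellensatz). -/
theorem Gen3.exists_ev_ne (hP : Gen3 P) (b : chartA P) (hb : b ≠ 0) :
    ∃ φ : chartA P →ₐ[ℂ] ℂ, φ b ≠ 0 := by
  have : Algebra.FiniteType ℂ (chartA P) :=
    Algebra.FiniteType.adjoin_of_finite ((Set.finite_range _).union (Set.finite_range _))
  have : IsJacobsonRing (chartA P) := isJacobsonRing_of_finiteType (A := ℂ)
  have hj : b ∉ Ideal.jacobson (⊥ : Ideal (chartA P)) := by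
    rw [IsJacobsonRing.out inferInstance (Ideal.isRadical_bot (R := chartA P))]
    exact hb
  rw [Ideal.jacobson, Ideal.mem_sInf] at hj
  push Not at hj
  obtain ⟨m, ⟨-, hm⟩, hbm⟩ := hj
  let : Field (chartA P ⧸ m) := Ideal.Quotient.field m
  have : Module.Finite ℂ (chartA P ⧸ m) := finite_of_finite_type_of_isJacobsonRing _ _
  let ψ : (chartA P ⧸ m) →ₐ[ℂ] ℂ := IsAlgClosed.lift
  refine ⟨ψ.comp (Ideal.Quotient.mkₐ ℂ m), fun h => hbm ?_⟩
  exact Ideal.Quotient.eq_zero_iff_mem.1 ((map_eq_zero ψ).1 h)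

end Pool.Agent.MP_95da86_ag

end

section

/-! The model `E ^ 3`. -/

namespace Pool.Agent.MP_95da86_ag

variable {L : Type} [Field L] [Algebra ℂ L] {P Q : Fin 3 → EP L} {O O' W : Pt L}

/-- The charts of the model. -/
private noncomputable def CubeA_aux_chart (c : Fin 3 → Bool) (P : Fin 3 → EP L) : Subalgebra ℂ L :=
  Algebra.adjoin ℂ (⋃ i, if c i then {xc (P i), yc (P i)} else {xc (P i) / yc (P i), (yc (P i))⁻¹})

private lemma CubeA_aux_mem : O ∈ cubeP P ↔ ∃ c, O ∈ spec (CubeA_aux_chart c P) := by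
  simp only [cubeP, cube, Set.mem_iUnion, CubeA_aux_chart]

private lemma CubeA_aux_le_iff {c : Fin 3 → Bool} {A : Subalgebra ℂ L} :
    CubeA_aux_chart c P ≤ A ↔ ∀ i, (c i = true → xc (P i) ∈ A ∧ yc (P i) ∈ A) ∧
      (c i = false → sc (P i) ∈ A ∧ tc (P i) ∈ A) := by
  rw [CubeA_aux_chart, Algebra.adjoin_le_iff, Set.iUnion_subset_iff]
  refine forall_congr' fun i => ?_
  cases c i <;> simp [Set.insert_subset_iff, sc, tc]

private lemma CubeA_aux_true (P : Fin 3 → EP L) :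
    CubeA_aux_chart (fun _ => true) P = chartA P := by
  rw [CubeA_aux_chart, chartA]
  congr 1
  ext f
  simp only [if_true, Set.mem_iUnion, Set.mem_insert_iff, Set.mem_singleton_iff, Set.mem_union,
    Set.mem_range, exists_or, eq_comm]

private lemma CubeA_aux_false (P : Fin 3 → EP L) :
    CubeA_aux_chart (fun _ => false) P =
      Algebra.adjoin ℂ (Set.range (fun i => sc (P i)) ∪ Set.range fun i => tc (P i)) := by
  rw [CubeA_aux_chart]
  congr 1
  ext f
  simp only [Bool.false_eq_true, if_false, Set.mem_iUnion, Set.mem_insert_iff,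
    Set.mem_singleton_iff, Set.mem_union, Set.mem_range, exists_or, eq_comm, sc, tc]

theorem cube_intg (hO : O ∈ cubeP P) (i : Fin 3) : Intg O (P i) := by
  obtain ⟨c, hc⟩ := CubeA_aux_mem.1 hO
  have h := CubeA_aux_le_iff.1 hc.1 i
  cases hi : c i
  · exact Or.inr (h.2 hi)
  · exact Or.inl (h.1 hi)

theorem cube_centre (h : ∀ i, Intg W (P i)) : ∃ O ∈ cubeP P, Dom O W := by
  classical
  have hle : CubeA_aux_chart (fun i => decide (yc (P i) ∈ W.1)) P ≤ W.1 := by
    refine CubeA_aux_le_iff.2 fun i => ⟨fun hi => ?_, fun hi => ?_⟩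
    · have hy : yc (P i) ∈ W.1 := by simpa using hi
      exact ⟨(h i).xc_mem hy, hy⟩
    · have hy : yc (P i) ∉ W.1 := by simpa using hi
      exact ⟨mx_sub ((h i).sc_mem hy), mx_sub ((h i).tc_mem hy)⟩
  obtain ⟨O, hO, hd⟩ := exists_centre _ W hle
  exact ⟨O, CubeA_aux_mem.2 ⟨_, hO⟩, hd⟩

private lemma CubeA_aux_le_dom {c : Fin 3 → Bool} (h : ∀ i, Intg O (P i)) (hd : Dom O W)
    (hW : CubeA_aux_chart c P ≤ W.1) : CubeA_aux_chart c P ≤ O.1 := by
  refine CubeA_aux_le_iff.2 fun i => ⟨fun hi => ?_, fun hi => ?_⟩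
  · have hy : yc (P i) ∈ O.1 := ((h i).yc_mem_dom hd).2 ((CubeA_aux_le_iff.1 hW i).1 hi).2
    exact ⟨(h i).xc_mem hy, hy⟩
  · by_cases hy : yc (P i) ∈ O.1
    · have ht : (yc (P i))⁻¹ ∈ O.1 := hd.inv_mem hy ((CubeA_aux_le_iff.1 hW i).2 hi).2
      refine ⟨?_, ht⟩
      rw [sc, div_eq_mul_inv]
      exact mul_mem ((h i).xc_mem hy) ht
    · exact ⟨mx_sub ((h i).sc_mem hy), mx_sub ((h i).tc_mem hy)⟩

/-- If the charts differ in the factor `i`, then `y i` is a unit of `W`, hence of both rings. -/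
theorem cube_sep (P : Fin 3 → EP L) : Sep (cubeP P) := by
  have key : ∀ O ∈ cubeP P, ∀ O' ∈ cubeP P, ∀ W, Dom O W → Dom O' W → O.1 ≤ O'.1 := by
    intro O hO O' hO' W hd hd'
    obtain ⟨c, hc⟩ := CubeA_aux_mem.1 hO
    exact spec_le hc (CubeA_aux_le_dom (cube_intg hO') hd' (hc.1.trans hd.1)) hd.1 hd'
  intro O hO O' hO' W hd hd'
  exact Subtype.ext (le_antisymm (key O hO O' hO' W hd hd') (key O' hO' O hO W hd' hd))

private lemma CubeA_aux_sub (h : ∀ W : Pt L, (∀ i, Intg W (P i)) ↔ ∀ i, Intg W (Q i)) :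
    cubeP Q ⊆ cubeP P := by
  intro O hO
  obtain ⟨O₁, hO₁, hd₁⟩ := cube_centre ((h O).2 (cube_intg hO))
  obtain ⟨O₂, hO₂, hd₂⟩ := cube_centre ((h O₁).1 (cube_intg hO₁))
  have e : O₂ = O := cube_sep Q O₂ hO₂ O hO O (hd₂.trans hd₁) (Dom.refl O)
  have e' : O = O₁ := Subtype.ext (le_antisymm (e ▸ hd₂.1) hd₁.1)
  rw [e']; exact hO₁

/-- `O ∈ cube Q` dominates `O₁ ∈ cube P`, which dominates `O₂ ∈ cube Q`, and `O₂ = O`. -/
theorem cube_eq (h : ∀ W : Pt L, (∀ i, Intg W (P i)) ↔ ∀ i, Intg W (Q i)) : cubeP P = cubeP Q :=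
  Set.Subset.antisymm (CubeA_aux_sub fun W => (h W).symm) (CubeA_aux_sub h)

private lemma CubeA_aux_lin_inv (P : Fin 3 → EP L) (g : GLw) (i : Fin 3) :
    lin ((g⁻¹).val i) (fun j => lin (g.val j) P) = P i := by
  have h1 : (g⁻¹).val * g.val = 1 := by rw [← Units.val_mul, inv_mul_cancel, Units.val_one]
  simp only [lin, Finset.smul_sum, smul_smul]
  rw [Finset.sum_comm]
  have h2 : ∀ k, ∑ j, ((g⁻¹).val i j * g.val j k) • P k = (1 : Matrix (Fin 3) (Fin 3) Zw) i k • P k :=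
    fun k => by rw [← Finset.sum_smul, ← h1, Matrix.mul_apply]
  simp only [h2, Matrix.one_apply, ite_smul, one_smul, zero_smul, Finset.sum_ite_eq,
    Finset.mem_univ, if_true]

theorem cube_aff (P : Fin 3 → EP L) (g : GLw) (c : Fin 3 → EP ℂ) :
    (cubeP fun i => lin (g.val i) P + cst L (c i)) = cubeP P := by
  refine cube_eq fun W => ⟨fun h i => ?_, fun h i => (intg_lin h _).add (intg_cst _)⟩
  have h' : ∀ j, Intg W (lin (g.val j) P) := fun j => by
    simpa using (h j).sub (intg_cst (c j))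
  rw [← CubeA_aux_lin_inv P g i]
  exact intg_lin h' _

theorem cube_add_tors (P : Fin 3 → EP L) (a : F3) :
    (cubeP fun i => P i + tors L (a i)) = cubeP P := by
  refine cube_eq fun W => ⟨fun h i => ?_, fun h i => (h i).add (intg_tors _)⟩
  simpa using (h i).sub (intg_tors (a i))

theorem cube_sh (P : Fin 3 → EP L) (p : F3) : cubeP (sh P p) = cubeP P := by
  refine cube_eq fun W => ⟨fun h i => ?_, fun h i => (h i).sub (intg_tors _)⟩
  simpa [sh] using (h i).add (intg_tors (p i))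

theorem spec_chartA_sub (P : Fin 3 → EP L) : spec (chartA P) ⊆ cubeP P := fun _ hO =>
  CubeA_aux_mem.2 ⟨fun _ => true, by rw [CubeA_aux_true]; exact hO⟩

private lemma CubeA_aux_mem_spec {c : Fin 3 → Bool} (hO : O ∈ cubeP P)
    (h : CubeA_aux_chart c P ≤ O.1) : O ∈ spec (CubeA_aux_chart c P) := by
  obtain ⟨O₁, hO₁, hd⟩ := exists_centre _ O h
  have e : O₁ = O := cube_sep P O₁ (CubeA_aux_mem.2 ⟨c, hO₁⟩) O hO O hd (Dom.refl O)
  rw [← e]; exact hO₁

theorem mem_spec_chartA (hO : O ∈ cubeP P) (h : ∀ i, yc (P i) ∈ O.1) : O ∈ spec (chartA P) := by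
  rw [← CubeA_aux_true]
  refine CubeA_aux_mem_spec hO (CubeA_aux_le_iff.2 fun i => ⟨fun _ => ?_, fun hi => ?_⟩)
  · exact ⟨(cube_intg hO i).xc_mem (h i), h i⟩
  · simp at hi

theorem mem_spec_inf (hO : O ∈ cubeP P) (h : ∀ i, yc (P i) ∉ O.1) :
    O ∈ spec (Algebra.adjoin ℂ (Set.range (fun i => sc (P i)) ∪ Set.range fun i => tc (P i))) := by
  rw [← CubeA_aux_false]
  refine CubeA_aux_mem_spec hO (CubeA_aux_le_iff.2 fun i => ⟨fun hi => ?_, fun _ => ?_⟩)
  · simp at hi
  · exact ⟨mx_sub ((cube_intg hO i).sc_mem (h i)), mx_sub ((cube_intg hO i).tc_mem (h i))⟩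

theorem exists_chart (h : ∀ i, Intg W (P i)) :
    ∃ a : F3, chartA (fun i => P i + tors L (a i)) ≤ W.1 := by
  choose a ha using fun i => exists_shift (h i)
  refine ⟨a, Algebra.adjoin_le ?_⟩
  rintro _ (⟨i, rfl⟩ | ⟨i, rfl⟩)
  · exact (ha i).2.1
  · exact (ha i).2.2

private lemma CubeA_aux_map (g : L ≃ₐ[ℂ] L) (hO : O ∈ cubeP P) :
    mapPt g O ∈ (cubeP fun i => emap (g : L →ₐ[ℂ] L) (P i)) := by
  obtain ⟨c, hc⟩ := CubeA_aux_mem.1 hO
  refine CubeA_aux_mem.2 ⟨c, ?_⟩
  have h := spec_mapPt g hc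
  have e : (CubeA_aux_chart c P).map (g : L →ₐ[ℂ] L) =
      CubeA_aux_chart c fun i => emap (g : L →ₐ[ℂ] L) (P i) := by
    rw [CubeA_aux_chart, CubeA_aux_chart, AlgHom.map_adjoin, Set.image_iUnion]
    congr 2
    ext1 i
    cases c i <;> simp [Set.image_insert_eq]
  rwa [e] at h

theorem cube_mapPt (g : L ≃ₐ[ℂ] L) :
    mapPt g O ∈ (cubeP fun i => emap (g : L →ₐ[ℂ] L) (P i)) ↔ O ∈ cubeP P := by
  refine ⟨fun h => ?_, CubeA_aux_map g⟩
  have h' := CubeA_aux_map g.symm h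
  have e : (g.symm : L →ₐ[ℂ] L).comp (g : L →ₐ[ℂ] L) = AlgHom.id ℂ L := by
    ext f; simp
  simpa only [mapPt_symm_mapPt, emap_emap, e, emap_id] using h'

theorem Gen3.top_mem (hP : Gen3 P) : topPt L ∈ cubeP P := by
  refine spec_chartA_sub P ⟨fun f _ => ValuationSubring.mem_top f, fun f _ => ?_⟩
  obtain ⟨a, ha, b, hb, -, e⟩ := hP.frac f
  exact ⟨a, ha, b, hb, ValuationSubring.mem_top _, e⟩

/-- Localisation at the kernel of a homomorphism to a field. -/
private lemma CubeA_aux_loc (R : Subalgebra ℂ L) {N : Type} [Field N] [Algebra ℂ N]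
    (ψ : R →ₐ[ℂ] N) : ∃ O ∈ spec R, ∃ φ : RF O →ₐ[ℂ] N, ∀ b : R, φ (res O b) = ψ b := by
  classical
  have hne : ∀ b : R, ψ b ≠ 0 → (b : L) ≠ 0 := fun b hb h0 =>
    hb (by rw [show b = 0 from Subtype.ext h0, map_zero])
  let A : Subalgebra ℂ L :=
    { carrier := {f | ∃ a b : R, ψ b ≠ 0 ∧ f = a / b}
      mul_mem' := by
        rintro _ _ ⟨a, b, hb, rfl⟩ ⟨a', b', hb', rfl⟩
        exact ⟨a * a', b * b', by rw [map_mul]; exact mul_ne_zero hb hb',
          by push_cast; exact div_mul_div_comm ..⟩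
      add_mem' := by
        rintro _ _ ⟨a, b, hb, rfl⟩ ⟨a', b', hb', rfl⟩
        exact ⟨a * b' + b * a', b * b', by rw [map_mul]; exact mul_ne_zero hb hb',
          by push_cast; exact div_add_div _ _ (hne b hb) (hne b' hb')⟩
      algebraMap_mem' c := ⟨algebraMap ℂ R c, 1, by simp, by simp⟩ }
  have hA : ∀ f : A, ∃ a b : R, ψ b ≠ 0 ∧ (f : L) = a / b := fun f => f.2
  choose nu de hde hf using hA
  have key : ∀ (f : A) (a b : R), ψ b ≠ 0 → (f : L) = a / b →
      ψ (nu f) / ψ (de f) = ψ a / ψ b := by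
    intro f a b hb e
    rw [div_eq_div_iff (hde f) hb, ← map_mul, ← map_mul]
    congr 1
    apply Subtype.ext
    push_cast
    rw [← div_eq_div_iff (hne _ (hde f)) (hne b hb), ← hf f, e]
  let Ψ : A →ₐ[ℂ] N :=
    { toFun := fun f => ψ (nu f) / ψ (de f)
      map_one' := by rw [key 1 1 1 (by simp) (by simp)]; simp
      map_mul' := fun f g => by
        rw [key (f * g) (nu f * nu g) (de f * de g)
          (by rw [map_mul]; exact mul_ne_zero (hde f) (hde g))
          (by push_cast; rw [hf f, hf g, div_mul_div_comm]), map_mul, map_mul, div_mul_div_comm]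
      map_zero' := by rw [key 0 0 1 (by simp) (by simp)]; simp
      map_add' := fun f g => by
        rw [key (f + g) (nu f * de g + de f * nu g) (de f * de g)
          (by rw [map_mul]; exact mul_ne_zero (hde f) (hde g))
          (by push_cast; rw [hf f, hf g, div_add_div _ _ (hne _ (hde f)) (hne _ (hde g))]),
          map_add, map_mul, map_mul, map_mul, div_add_div _ _ (hde f) (hde g)]
      commutes' := fun c => by
        rw [key (algebraMap ℂ A c) (algebraMap ℂ R c) 1 (by simp) (by simp)]; simp }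
  have hunit : ∀ f : A, Ψ f ≠ 0 → (f : L) ≠ 0 ∧ (f : L)⁻¹ ∈ A := by
    intro f h0
    have hn : ψ (nu f) ≠ 0 := fun h => h0 (by
      show ψ (nu f) / ψ (de f) = 0
      rw [h, zero_div])
    refine ⟨?_, de f, nu f, hn, by rw [hf f, inv_div]⟩
    rw [hf f]
    exact div_ne_zero (hne _ hn) (hne _ (hde f))
  have hloc : IsLocalRing A := isLocal_of _ fun f hfA => by
    by_cases h0 : Ψ ⟨f, hfA⟩ = 0
    · right
      exact hunit (1 - ⟨f, hfA⟩) (by rw [map_sub, map_one, h0, sub_zero]; exact one_ne_zero)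
    · exact Or.inl (hunit ⟨f, hfA⟩ h0)
  have hRA : ∀ b : R, (b : L) ∈ A := fun b => ⟨b, 1, by simp, by simp⟩
  have hker : ∀ f : A, f ∈ IsLocalRing.maximalIdeal A → Ψ f = 0 := fun f hm => by
    by_contra h0
    exact (IsLocalRing.mem_maximalIdeal _).1 hm ((isUnit_iff_sub A f).2 (hunit f h0))
  refine ⟨⟨A, hloc⟩, ⟨fun b hb => hRA ⟨b, hb⟩, ?_⟩,
    Ideal.Quotient.liftₐ (IsLocalRing.maximalIdeal A) Ψ hker, fun b => ?_⟩
  · rintro _ ⟨a, b, hb, rfl⟩
    exact ⟨a, a.2, b, b.2, ⟨1, b, hb, by simp⟩, rfl⟩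
  · rw [res_of_mem (O := ⟨A, hloc⟩) (hRA b)]
    show ψ (nu ⟨b, hRA b⟩) / ψ (de ⟨b, hRA b⟩) = ψ b
    rw [key ⟨b, hRA b⟩ b 1 (by simp) (by simp)]; simp

/-- Points with prescribed values: translate so that all `c i + a i T` are affine, and localise the
chart at the kernel of `exists_ev`. -/
theorem Gen3.exists_pt (hP : Gen3 P) {N : Type} [Field N] [Algebra ℂ N] (c : Fin 3 → EP N) :
    ∃ O ∈ cubeP P, ∃ φ : RF O →ₐ[ℂ] N, ∀ i, emap φ (red O (P i)) = c i := by
  have hex : ∀ i, ∃ τ, c i + tors N τ ≠ 0 := fun i => by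
    by_cases h : c i = 0
    · exact ⟨1, by rw [h, zero_add]; exact fun h1 => absurd (tors_eq_zero.1 h1) (by decide)⟩
    · exact ⟨0, by rwa [tors_zero, add_zero]⟩
  choose a ha using hex
  have hQ := hP.add_tors a
  obtain ⟨ψ, hψ⟩ := hQ.exists_ev (fun i => c i + tors N (a i)) ha
  obtain ⟨O, hO, φ, hφ⟩ := CubeA_aux_loc _ ψ
  have hOP : O ∈ cubeP P := by rw [← cube_add_tors P a]; exact spec_chartA_sub _ hO
  refine ⟨O, hOP, φ, fun i => ?_⟩
  have hx : xc (P i + tors L (a i)) ∈ O.1 := hO.1 (Algebra.subset_adjoin (Or.inl ⟨i, rfl⟩))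
  have hy : yc (P i + tors L (a i)) ∈ O.1 := hO.1 (Algebra.subset_adjoin (Or.inr ⟨i, rfl⟩))
  have hI : Intg O (P i + tors L (a i)) := Or.inl ⟨hx, hy⟩
  have hne : red O (P i + tors L (a i)) ≠ 0 := fun h0 => by
    rcases (red_eq_zero hI).1 h0 with h | h
    · exact hQ.ne i h
    · exact h hy
  have e : emap φ (red O (P i + tors L (a i))) = c i + tors N (a i) := by
    refine EP.ext' (fun h0 => hne ((emap_eq_zero φ).1 h0)) (ha i) ?_ ?_
    · rw [xc_emap, xc_red hI hy]
      exact (hφ ⟨_, Algebra.subset_adjoin (Or.inl ⟨i, rfl⟩)⟩).trans (hψ i).1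
    · rw [yc_emap, yc_red hI hy]
      exact (hφ ⟨_, Algebra.subset_adjoin (Or.inr ⟨i, rfl⟩)⟩).trans (hψ i).2
  rw [red_add (cube_intg hOP i) (intg_tors _), red_tors, map_add, emap_tors] at e
  exact add_right_cancel e

/-- The same inside the affine chart, with control of the units. -/
theorem Gen3.exists_pt_ev (hP : Gen3 P) {N : Type} [Field N] [Algebra ℂ N]
    (ψ : chartA P →ₐ[ℂ] N) : ∃ O ∈ spec (chartA P), ∃ φ : RF O →ₐ[ℂ] N,
      ∀ b : chartA P, φ (res O b) = ψ b :=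
  (fun _ => CubeA_aux_loc _ ψ) hP

end Pool.Agent.MP_95da86_ag

end

section

/-! The model `E ^ 3`. -/

namespace Pool.Agent.MP_95da86_ag

variable {L : Type} [Field L] [Algebra ℂ L] {P Q : Fin 3 → EP L} {O O' W : Pt L}

/-! ### The fixed points -/

private theorem Cube_aux_intg (h : ∀ i, Intg O (P i)) (p : F3) (i : Fin 3) : Intg O (sh P p i) :=
  (h i).sub (intg_tors _)

theorem over_iff_red (hP : Gen3 P) (h : ∀ i, Intg O (P i)) (p : F3) :
    Over O P p ↔ ∀ i, red O (P i) = tors (RF O) (p i) := by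
  refine forall_congr' fun i => ?_
  have h1 : red O (sh P p i) = red O (P i) - tors (RF O) (p i) := by
    rw [sh, red_sub (h i) (intg_tors _), red_tors]
  have h2 := red_eq_zero (Cube_aux_intg h p i)
  rw [h1, sub_eq_zero] at h2
  rw [h2]
  exact ⟨Or.inr, fun h' => h'.resolve_left ((hP.shift p).ne i)⟩

theorem over_inj (hP : Gen3 P) (h : ∀ i, Intg O (P i)) {p p' : F3} (hp : Over O P p)
    (hp' : Over O P p') : p = p' := by
  funext i
  exact tors_injective ((((over_iff_red hP h p).1 hp) i).symm.trans (((over_iff_red hP h p').1 hp') i))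

theorem Over.of_le {p : F3} (h : Over O' P p) (hle : O.1 ≤ O'.1) : Over O P p :=
  fun i hi => h i (hle hi)

theorem over_dom (h : ∀ i, Intg O (P i)) (hd : Dom O W) (p : F3) : Over O P p ↔ Over W P p :=
  forall_congr' fun i => not_congr ((Cube_aux_intg h p i).yc_mem_dom hd)

theorem Over.sc_mem {p : F3} (hI : ∀ i, Intg O (P i)) (h : Over O P p) (i : Fin 3) :
    sc (sh P p i) ∈ mx O ∧ tc (sh P p i) ∈ mx O :=
  ⟨(Cube_aux_intg hI p i).sc_mem (h i), (Cube_aux_intg hI p i).tc_mem (h i)⟩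

theorem Gen3.exists_over (hP : Gen3 P) (p : F3) : ∃ O ∈ cubeP P, Over O P p := by
  obtain ⟨O, hO, φ, hφ⟩ := hP.exists_pt (N := ℂ) fun i => tors ℂ (p i)
  refine ⟨O, hO, (over_iff_red hP (cube_intg hO) p).2 fun i => emap_injective φ ?_⟩
  rw [hφ, emap_tors]

/-- Every element of `ℂ[S]` is a constant modulo any `ℂ[S]`-submodule containing `S`. -/
private theorem Cube_aux_const {S : Set L} (M : L → Prop) (h0 : M 0)
    (hadd : ∀ x y, M x → M y → M (x + y))
    (hmul : ∀ r ∈ Algebra.adjoin ℂ S, ∀ x, M x → M (r * x)) (hS : ∀ s ∈ S, M s) :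
    ∀ a ∈ Algebra.adjoin ℂ S, ∃ c : ℂ, M (a - algebraMap ℂ L c) := by
  intro a ha
  induction ha using Algebra.adjoin_induction with
  | mem x hx => exact ⟨0, by simpa using hS x hx⟩
  | algebraMap c => exact ⟨c, by simpa using h0⟩
  | add x y _ _ hx hy =>
    obtain ⟨c, hc⟩ := hx
    obtain ⟨d, hd⟩ := hy
    refine ⟨c + d, ?_⟩
    have := hadd _ _ hc hd
    rw [map_add]
    convert this using 1
    ring
  | mul x y hx' _ hx hy =>
    obtain ⟨c, hc⟩ := hx
    obtain ⟨d, hd⟩ := hy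
    refine ⟨c * d, ?_⟩
    have := hadd _ _ (hmul x hx' _ hd) (hmul _ (Subalgebra.algebraMap_mem _ d) _ hc)
    rw [map_mul]
    convert this using 1
    ring

private theorem Cube_aux_spec {p : F3} (hO : O ∈ cubeP P) (h : Over O P p) :
    O ∈ spec (Algebra.adjoin ℂ
      (Set.range (fun i => sc (sh P p i)) ∪ Set.range fun i => tc (sh P p i))) :=
  mem_spec_inf (by rw [cube_sh]; exact hO) h

private theorem Cube_aux_gen {p : F3} (hO : O ∈ cubeP P) (h : Over O P p) :
    ∀ s ∈ Set.range (fun i => sc (sh P p i)) ∪ Set.range fun i => tc (sh P p i), s ∈ mx O := by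
  rintro _ (⟨i, rfl⟩ | ⟨i, rfl⟩)
  · exact (h.sc_mem (cube_intg hO) i).1
  · exact (h.sc_mem (cube_intg hO) i).2

private theorem Cube_aux_zero {c : ℂ} (h : algebraMap ℂ L c ∈ mx O) : c = 0 := by
  by_contra hc
  exact (isU_const O hc).not_mx h

theorem over_const {p : F3} (hO : O ∈ cubeP P) (h : Over O P p) {f : L} (hf : f ∈ O.1) :
    ∃ c : ℂ, f - algebraMap ℂ L c ∈ mx O := by
  have hs := Cube_aux_spec hO h
  have key := Cube_aux_const (fun x => x ∈ mx O) (zero_mem_mx O) (fun _ _ => mx_add)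
    (fun r hr _ hx => mx_mul_left (hs.1 hr) hx) (Cube_aux_gen hO h)
  obtain ⟨a, ha, b, hb, hb', rfl⟩ := hs.2 f hf
  by_cases hb0 : b = 0
  · exact ⟨0, by simpa [hb0] using zero_mem_mx O⟩
  have hu : IsU O b := ⟨hb0, hs.1 hb, hb'⟩
  obtain ⟨c, hc⟩ := key a ha
  obtain ⟨d, hd⟩ := key b hb
  have hd0 : d ≠ 0 := by
    rintro rfl
    exact hu.not_mx (by simpa using hd)
  have hdu := isU_const O hd0
  refine ⟨c / d, ?_⟩
  have e : a / b - algebraMap ℂ L (c / d) =
      b⁻¹ * ((a - algebraMap ℂ L c) - algebraMap ℂ L (c / d) * (b - algebraMap ℂ L d)) := by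
    have := hdu.1
    rw [map_div₀]
    field_simp
    ring
  rw [e]
  exact mx_mul_left hb' (mx_sub' hc (mx_mul_left (O.1.algebraMap_mem _) hd))

private theorem Cube_aux_le {p : F3} (hO : O ∈ cubeP P) (hO' : O' ∈ cubeP P) (h : Over O P p)
    (h' : Over O' P p) : O.1 ≤ O'.1 := by
  have hs := Cube_aux_spec hO h
  have hs' := Cube_aux_spec hO' h'
  have key := Cube_aux_const (fun x => x ∈ mx O ∧ x ∈ mx O') ⟨zero_mem_mx O, zero_mem_mx O'⟩
    (fun _ _ hx hy => ⟨mx_add hx.1 hy.1, mx_add hx.2 hy.2⟩)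
    (fun r hr _ hx => ⟨mx_mul_left (hs.1 hr) hx.1, mx_mul_left (hs'.1 hr) hx.2⟩)
    (fun s hs => ⟨Cube_aux_gen hO h s hs, Cube_aux_gen hO' h' s hs⟩)
  intro f hf
  obtain ⟨a, ha, b, hb, hb', rfl⟩ := hs.2 f hf
  by_cases hb0 : b = 0
  · simp [hb0]
  have hu : IsU O b := ⟨hb0, hs.1 hb, hb'⟩
  obtain ⟨d, hd, hd'⟩ := key b hb
  have hd0 : d ≠ 0 := by
    rintro rfl
    exact hu.not_mx (by simpa using hd)
  have hu' : IsU O' b := by simpa using (isU_const O' hd0).add_mx hd'
  rw [div_eq_mul_inv]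
  exact mul_mem (hs'.1 ha) hu'.2.2

theorem over_unique {p : F3} (hO : O ∈ cubeP P) (hO' : O' ∈ cubeP P) (h : Over O P p)
    (h' : Over O' P p) : O = O' :=
  Subtype.ext (le_antisymm (Cube_aux_le hO hO' h h') (Cube_aux_le hO' hO h' h))

/-- The maximal ideal is generated by the `s j` (use `mem_spec_inf` for `sh P p` and `tc_eq`). -/
theorem over_gen {p : F3} (hO : O ∈ cubeP P) (h : Over O P p) {f : L} (hf : f ∈ mx O) :
    ∃ a : Fin 3 → L, (∀ j, a j ∈ O.1) ∧ f = ∑ j, a j * sc (sh P p j) := by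
  classical
  have hs := Cube_aux_spec hO h
  let M : L → Prop := fun x => ∃ a : Fin 3 → L, (∀ j, a j ∈ O.1) ∧ x = ∑ j, a j * sc (sh P p j)
  have h0 : M 0 := ⟨0, fun _ => zero_mem _, by simp⟩
  have hmul : ∀ r ∈ O.1, ∀ x, M x → M (r * x) := by
    rintro r hr _ ⟨a, ha, rfl⟩
    exact ⟨fun j => r * a j, fun j => mul_mem hr (ha j), by
      rw [Finset.mul_sum]; exact Finset.sum_congr rfl fun j _ => (mul_assoc _ _ _).symm⟩
  have hsc : ∀ i, M (sc (sh P p i)) := fun i =>
    ⟨Pi.single i 1, fun j => by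
      rw [Pi.single_apply]; split_ifs
      · exact one_mem _
      · exact zero_mem _, by simp [Pi.single_apply]⟩
  have hM : ∀ x, M x → x ∈ mx O := by
    rintro _ ⟨a, ha, rfl⟩
    rw [Fin.sum_univ_three]
    exact mx_add (mx_add (mx_mul_left (ha 0) (h.sc_mem (cube_intg hO) 0).1)
      (mx_mul_left (ha 1) (h.sc_mem (cube_intg hO) 1).1))
      (mx_mul_left (ha 2) (h.sc_mem (cube_intg hO) 2).1)
  have key := Cube_aux_const M h0
    (by
      rintro _ _ ⟨a, ha, rfl⟩ ⟨b, hb, rfl⟩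
      exact ⟨fun j => a j + b j, fun j => add_mem (ha j) (hb j), by
        rw [← Finset.sum_add_distrib]; exact Finset.sum_congr rfl fun j _ => (add_mul _ _ _).symm⟩)
    (fun r hr x hx => hmul r (hs.1 hr) x hx)
    (by
      rintro _ (⟨i, rfl⟩ | ⟨i, rfl⟩)
      · exact hsc i
      · have hy : yc (sh P p i) ≠ 0 := fun h0 => h i (h0 ▸ zero_mem _)
        obtain ⟨hs1, ht1⟩ := h.sc_mem (cube_intg hO) i
        have hu : IsU O (1 - tc (sh P p i) ^ 2) := by
          have := (isU_one O).add_mx (mx_neg (mx_mul_left (mx_sub ht1) ht1))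
          rwa [← sub_eq_add_neg, ← sq] at this
        have e : tc (sh P p i) =
            ((1 - tc (sh P p i) ^ 2)⁻¹ * sc (sh P p i) ^ 2) * sc (sh P p i) := by
          have h1 := tc_eq hy
          have h2 := hu.1
          rw [mul_assoc, ← pow_succ, ← h1]
          field_simp
        change M (tc (sh P p i))
        rw [e]
        exact hmul _ (mul_mem hu.2.2 (pow_mem (mx_sub hs1) 2)) _ (hsc i))
  obtain ⟨a, ha, b, hb, hb', rfl⟩ := hs.2 f (mx_sub hf)
  by_cases hb0 : b = 0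
  · rw [hb0, div_zero]; exact h0
  obtain ⟨c, hc⟩ := key a ha
  have ham : a ∈ mx O := by
    have := mx_mul_right hf (hs.1 hb)
    rwa [div_mul_cancel₀ _ hb0] at this
  have hc0 : c = 0 := Cube_aux_zero (O := O) (by simpa using mx_sub' ham (hM _ hc))
  rw [hc0, map_zero, sub_zero] at hc
  rw [div_eq_inv_mul]
  exact hmul _ hb' _ hc

variable {σ : L ≃ₐ[ℂ] L}

private theorem Cube_aux_om (τ : ZMod 3) : om • tors L τ = tors L τ := by
  rw [smul_tors]
  congr 1
  simp [bar_def, om]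

theorem Cfg.map_lin (h : Cfg P σ) (l : Lam) (τ : ZMod 3) :
    emap (σ : L →ₐ[ℂ] L) (lin l P - tors L τ) = om • (lin l P - tors L τ) := by
  rw [map_sub, emap_lin, emap_tors, smul_sub, Cube_aux_om]
  congr 1
  simp only [lin, h.rot, Finset.smul_sum]
  exact Finset.sum_congr rfl fun i _ => smul_comm _ _ _

theorem Cfg.shift (h : Cfg P σ) (p : F3) : Cfg (sh P p) σ :=
  ⟨h.gen.shift p, fun i => by rw [sh, map_sub, emap_tors, smul_sub, Cube_aux_om, h.rot]⟩

theorem Cfg.map_xc (h : Cfg P σ) (i : Fin 3) : σ (xc (P i)) = zt L * xc (P i) := by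
  simpa using congrArg xc (h.rot i)

theorem Cfg.map_yc (h : Cfg P σ) (i : Fin 3) : σ (yc (P i)) = yc (P i) := by
  simpa using congrArg yc (h.rot i)

theorem Cfg.pow_three (h : Cfg P σ) : σ ^ 3 = 1 := by
  have h3 : om * (om * om) = 1 := by
    ext <;> simp [om, QuadraticAlgebra.re_one, QuadraticAlgebra.im_one]
  have e : (σ : L →ₐ[ℂ] L).comp ((σ : L →ₐ[ℂ] L).comp (σ : L →ₐ[ℂ] L)) = AlgHom.id ℂ L := by
    refine h.gen.algHom_ext fun i => ?_
    rw [← emap_emap, ← emap_emap, h.rot, map_smul, h.rot, map_smul, map_smul, h.rot, emap_id,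
      smul_smul, smul_smul, mul_assoc, h3, one_smul]
  ext f
  have := DFunLike.congr_fun e f
  simpa [pow_succ] using this

theorem mem_KK {f : L} : f ∈ KK σ ↔ σ f = f := by
  rw [IntermediateField.mem_fixedField_iff]
  constructor
  · intro h
    exact h σ (Subgroup.mem_zpowers σ)
  · intro h g hg
    have : Subgroup.zpowers σ ≤ MulAction.stabilizer (L ≃ₐ[ℂ] L) f :=
      Subgroup.zpowers_le_of_mem h
    exact this hg

theorem coe_toK {f : L} (hf : σ f = f) : (toK σ f : L) = f := by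
  rw [toK, dif_pos (mem_KK.2 hf)]

theorem Cfg.fix_iff (h : Cfg P σ) : O ∈ fixP P σ ↔ O ∈ cubeP P ∧ ∃ p, Over O P p := by
  constructor
  · rintro ⟨hO, hfix⟩
    have hO' : O ∈ cubeP P := hO
    have hI := cube_intg hO'
    have hex : ∀ i, ∃ τ, red O (P i) = tors (RF O) τ := fun i => by
      by_cases hy : yc (P i) ∈ O.1
      · have hx := (hI i).xc_mem hy
        have h1 := hfix _ hx
        rw [h.map_xc] at h1
        have hu : IsU O (zt L - 1) := by
          have := isU_const O (sub_ne_zero.2 zeta_ne_one)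
          rwa [map_sub, map_one] at this
        have h2 : xc (P i) ∈ mx O := by
          have e : xc (P i) = (zt L - 1)⁻¹ * (zt L * xc (P i) - xc (P i)) := by
            have := hu.1
            field_simp
          rw [e]
          exact mx_mul_left hu.2.2 h1
        exact eq_tors_of_xc (by rw [xc_red (hI i) hy, res_eq_zero hx]; exact h2)
      · exact ⟨0, by rw [tors_zero]; exact (red_eq_zero (hI i)).2 (Or.inr hy)⟩
    choose p hp using hex
    exact ⟨hO', p, (over_iff_red h.gen hI p).2 hp⟩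
  · rintro ⟨hO, p, hp⟩
    refine ⟨hO, fun f hf => ?_⟩
    have hs := Cube_aux_spec hO hp
    have h' := h.shift p
    have hgen : ∀ s ∈ Set.range (fun i => sc (sh P p i)) ∪ Set.range fun i => tc (sh P p i),
        σ s ∈ mx O := by
      rintro _ (⟨i, rfl⟩ | ⟨i, rfl⟩)
      · have e : σ (sc (sh P p i)) = zt L * sc (sh P p i) := by
          rw [sc, map_div₀, h'.map_xc, h'.map_yc, mul_div_assoc]
        change σ (sc (sh P p i)) ∈ mx O
        rw [e]
        exact mx_mul_left (O.1.algebraMap_mem _) (hp.sc_mem (cube_intg hO) i).1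
      · have e : σ (tc (sh P p i)) = tc (sh P p i) := by
          rw [tc, map_inv₀, h'.map_yc]
        change σ (tc (sh P p i)) ∈ mx O
        rw [e]
        exact (hp.sc_mem (cube_intg hO) i).2
    have hσ : ∀ r ∈ Algebra.adjoin ℂ
        (Set.range (fun i => sc (sh P p i)) ∪ Set.range fun i => tc (sh P p i)), σ r ∈ O.1 := by
      intro r hr
      induction hr using Algebra.adjoin_induction with
      | mem x hx => exact mx_sub (hgen x hx)
      | algebraMap c => rw [AlgEquiv.commutes]; exact O.1.algebraMap_mem c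
      | add x y _ _ hx hy => rw [map_add]; exact add_mem hx hy
      | mul x y _ _ hx hy => rw [map_mul]; exact mul_mem hx hy
    have key := Cube_aux_const (fun x => x ∈ mx O ∧ σ x ∈ mx O)
      ⟨zero_mem_mx O, by rw [map_zero]; exact zero_mem_mx O⟩
      (fun _ _ hx hy => ⟨mx_add hx.1 hy.1, by rw [map_add]; exact mx_add hx.2 hy.2⟩)
      (fun r hr _ hx => ⟨mx_mul_left (hs.1 hr) hx.1, by
        rw [map_mul]; exact mx_mul_left (hσ r hr) hx.2⟩)
      (fun s hs => ⟨Cube_aux_gen hO hp s hs, hgen s hs⟩)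
    have key' : ∀ a ∈ Algebra.adjoin ℂ
        (Set.range (fun i => sc (sh P p i)) ∪ Set.range fun i => tc (sh P p i)),
        σ a - a ∈ mx O := fun a ha => by
      obtain ⟨c, hc, hc'⟩ := key a ha
      rw [map_sub, AlgEquiv.commutes] at hc'
      simpa using mx_sub' hc' hc
    obtain ⟨a, ha, b, hb, hb', rfl⟩ := hs.2 f hf
    by_cases hb0 : b = 0
    · simpa [hb0] using zero_mem_mx O
    have hu : IsU O b := ⟨hb0, hs.1 hb, hb'⟩
    have hu' : IsU O (σ b) := by simpa using hu.add_mx (key' b hb)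
    have e : σ (a / b) - a / b = (σ b * b)⁻¹ * (b * (σ a - a) - a * (σ b - b)) := by
      have := hu'.1
      rw [map_div₀]
      field_simp
      ring
    rw [e]
    exact mx_mul_left (hu'.mul hu).2.2
      (mx_sub' (mx_mul_left hu.2.1 (key' a ha)) (mx_mul_left (hs.1 ha) (key' b hb)))

end Pool.Agent.MP_95da86_ag

end

section

/-! The blow-up of the 27 fixed points. -/

namespace Pool.Agent.MP_95da86_ag

variable {L : Type} [Field L] [Algebra ℂ L] {P : Fin 3 → EP L} {σ : L ≃ₐ[ℂ] L} {O W : Pt L}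

theorem BlowA_aux_ne (h : Cfg P σ) (p : F3) (j : Fin 3) : sc (sh P p j) ≠ 0 :=
  div_ne_zero ((h.gen.shift p).xc_ne j) ((h.gen.shift p).yc_ne j)

theorem BlowA_aux_le (Op : Pt L) (p : F3) (i : Fin 3) : Op.1 ≤ Bl Op P p i :=
  fun _ hf => Algebra.subset_adjoin (Or.inl hf)

theorem BlowA_aux_ur (Op : Pt L) (p : F3) (i j : Fin 3) : ur P p i j ∈ Bl Op P p i :=
  Algebra.subset_adjoin (Or.inr ⟨j, rfl⟩)

theorem BlowA_aux_bl {Op : Pt L} {p : F3} {i : Fin 3} {A : Subalgebra ℂ L} (h : Op.1 ≤ A)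
    (hu : ∀ j, ur P p i j ∈ A) : Bl Op P p i ≤ A := by
  refine Algebra.adjoin_le ?_
  rintro f (hf | ⟨j, rfl⟩)
  exacts [h hf, hu j]

theorem BlowA_aux_div {Op : Pt L} {p : F3} (hOp : Op ∈ cubeP P) (hp : Over Op P p) (i : Fin 3)
    {f : L} (hf : f ∈ mx Op) : f / sc (sh P p i) ∈ Bl Op P p i := by
  obtain ⟨a, ha, rfl⟩ := over_gen hOp hp hf
  rw [Finset.sum_div]
  refine sum_mem fun j _ => ?_
  rw [mul_div_assoc]
  exact mul_mem (BlowA_aux_le Op p i (ha j)) (BlowA_aux_ur Op p i j)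

theorem BlowA_aux_eq {Op : Pt L} {p : F3} (hOp : Op ∈ cubeP P) (hp : Over Op P p) (i : Fin 3) :
    Algebra.adjoin ℂ ((Op.1 : Set L) ∪ (fun a => a / sc (sh P p i)) '' mx Op) = Bl Op P p i := by
  refine le_antisymm (Algebra.adjoin_le ?_) (BlowA_aux_bl
    (fun _ hf => Algebra.subset_adjoin (Or.inl hf)) fun j => Algebra.subset_adjoin
      (Or.inr ⟨_, (hp.sc_mem (cube_intg hOp) j).1, rfl⟩))
  rintro f (hf | ⟨a, ha, rfl⟩)
  exacts [BlowA_aux_le Op p i hf, BlowA_aux_div hOp hp i ha]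

theorem BlowA_aux_chart (h : Cfg P σ) {Op : Pt L} {p : F3} (hOp : Op ∈ cubeP P)
    (hp : Over Op P p) {t : L} (ht : t ∈ mx Op) (t0 : t ≠ 0)
    (hO : O ∈ spec (Algebra.adjoin ℂ ((Op.1 : Set L) ∪ (fun a => a / t) '' mx Op))) :
    ∃ i, O ∈ spec (Bl Op P p i) := by
  have h1 : Op.1 ≤ O.1 := fun _ hf => hO.1 (Algebra.subset_adjoin (Or.inl hf))
  have h2 : ∀ j, sc (sh P p j) / t ∈ O.1 := fun j =>
    hO.1 (Algebra.subset_adjoin (Or.inr ⟨_, (hp.sc_mem (cube_intg hOp) j).1, rfl⟩))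
  obtain ⟨i, hi⟩ : ∃ i, IsU O (sc (sh P p i) / t) := by
    by_contra hc
    push Not at hc
    have h3 : ∀ j, sc (sh P p j) / t ∈ mx O := fun j => (mx_or_isU (h2 j)).resolve_right (hc j)
    obtain ⟨a, ha, e⟩ := over_gen hOp hp ht
    refine one_not_mem_mx O ?_
    rw [← div_self t0]
    nth_rewrite 1 [e]
    rw [Fin.sum_univ_three, add_div, add_div, mul_div_assoc, mul_div_assoc, mul_div_assoc]
    exact mx_add (mx_add (mx_mul_left (h1 (ha 0)) (h3 0)) (mx_mul_left (h1 (ha 1)) (h3 1)))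
      (mx_mul_left (h1 (ha 2)) (h3 2))
  have s0 := BlowA_aux_ne h p i
  refine ⟨i, spec_of_gens hO (BlowA_aux_bl h1 fun j => ?_) ?_⟩
  · have e : ur P p i j = sc (sh P p j) / t * (sc (sh P p i) / t)⁻¹ := by
      unfold ur
      field_simp
    rw [e]
    exact mul_mem (h2 j) hi.2.2
  · rintro f (hf | ⟨a, ha, rfl⟩)
    · exact ⟨f, BlowA_aux_le Op p i hf, 1, one_mem _, by simp, (div_one f).symm⟩
    · refine ⟨_, BlowA_aux_div hOp hp i ha, _, BlowA_aux_div hOp hp i ht, ?_, ?_⟩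
      · rw [inv_div]
        exact hi.2.1
      · field_simp

theorem BlowA_aux_change (h : Cfg P σ) {Op : Pt L} {p : F3} {i i' : Fin 3}
    (hO : O ∈ spec (Bl Op P p i)) (hu : ∀ j, ur P p i' j ∈ O.1) : O ∈ spec (Bl Op P p i') := by
  refine spec_of_gens hO (BlowA_aux_bl ((BlowA_aux_le Op p i).trans hO.1) hu) ?_
  rintro f (hf | ⟨j, rfl⟩)
  · exact ⟨f, BlowA_aux_le Op p i' hf, 1, one_mem _, by simp, (div_one f).symm⟩
  · refine ⟨_, BlowA_aux_ur Op p i' j, _, BlowA_aux_ur Op p i' i, ?_, ?_⟩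
    · rw [ur, inv_div]
      exact hO.1 (BlowA_aux_ur Op p i i')
    · have := BlowA_aux_ne h p i
      have := BlowA_aux_ne h p i'
      unfold ur
      field_simp

theorem BlowA_aux_intg {ξ : Pt L} {V : ValuationSubring (RF ξ)} (hV)
    (hW : ∀ f, f ∈ W.1 ↔ f ∈ ξ.1 ∧ res ξ f ∈ (vpt V hV).1) {Q : EP L} (hQ : Intg ξ Q) :
    Intg W Q := by
  by_cases hy : yc Q ∈ ξ.1
  · have hx := hQ.xc_mem hy
    have hI := intg_val V hV (red ξ Q)
    by_cases hv : yc (red ξ Q) ∈ (vpt V hV).1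
    · exact Or.inl ⟨(hW _).2 ⟨hx, xc_red hQ hy ▸ hI.xc_mem hv⟩, (hW _).2 ⟨hy, yc_red hQ hy ▸ hv⟩⟩
    · have hu : IsU ξ (yc Q) := isU_of_not_mx hy fun hm => hv (by
        rw [yc_red hQ hy, (res_eq_zero hy).2 hm]
        exact zero_mem _)
      have h1 := mx_sub (hI.sc_mem hv)
      have h2 := mx_sub (hI.tc_mem hv)
      rw [sc, xc_red hQ hy, yc_red hQ hy, ← res_div hx hu] at h1
      rw [tc, yc_red hQ hy, ← res_inv hu] at h2
      refine Or.inr ⟨(hW _).2 ⟨?_, h1⟩, (hW _).2 ⟨hu.2.2, h2⟩⟩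
      rw [sc, div_eq_mul_inv]
      exact mul_mem hx hu.2.2
  · have key : ∀ f ∈ mx ξ, f ∈ W.1 := fun f hf => (hW f).2 ⟨mx_sub hf, by
      rw [(res_eq_zero (mx_sub hf)).2 hf]
      exact zero_mem _⟩
    exact Or.inr ⟨key _ (hQ.sc_mem hy), key _ (hQ.tc_mem hy)⟩

theorem BlowA_aux_min {ξ : Pt L} {V : ValuationSubring (RF ξ)} (hV)
    (hW : ∀ f, f ∈ W.1 ↔ f ∈ ξ.1 ∧ res ξ f ∈ (vpt V hV).1) {v : Fin 3 → L} (hv : ∀ j, v j ∈ ξ.1)
    {k : Fin 3} (hk : IsU ξ (v k)) : ∃ i, ∀ j, v j / v i ∈ W.1 := by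
  obtain ⟨i, hi⟩ := Finite.exists_max fun j => V.valuation (res ξ (v j))
  have h0 : V.valuation (res ξ (v i)) ≠ 0 := fun e =>
    hk.res_ne ((map_eq_zero V.valuation).1 (le_antisymm (e ▸ hi k) zero_le))
  have hu : IsU ξ (v i) := isU_of_not_mx (hv i) fun hm => h0 (by
    rw [(res_eq_zero (hv i)).2 hm, map_zero])
  refine ⟨i, fun j => (hW _).2 ⟨?_, ?_⟩⟩
  · rw [div_eq_mul_inv]
    exact mul_mem (hv j) hu.2.2
  · rw [res_div (hv j) hu, mem_vpt, ← V.valuation_le_one_iff, map_div₀]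
    exact div_le_one_of_le₀ (hi j) zero_le

/-- For a chart given by `t`, some `s i / t` is a unit of `O` (write `t = ∑ a j s j`), and then
`spec_of_gens` changes the chart; conversely `m / s i` generates `Bl i` by `over_gen`. -/
theorem Cfg.bl_iff (h : Cfg P σ) : O ∈ blP P σ ↔ (O ∈ cubeP P ∧ ∀ p, ¬ Over O P p) ∨
    ∃ p, ∃ Op ∈ cubeP P, Over Op P p ∧ mx Op ⊆ mx O ∧ ∃ i, O ∈ spec (Bl Op P p i) := by
  constructor
  · rintro (⟨h1, h2⟩ | ⟨Op, hOp, t, ht, t0, hm, hO⟩)
    · exact Or.inl ⟨h1, fun p hp => h2 (h.fix_iff.2 ⟨h1, p, hp⟩)⟩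
    · obtain ⟨h1, p, hp⟩ := h.fix_iff.1 hOp
      exact Or.inr ⟨p, Op, h1, hp, hm, BlowA_aux_chart h h1 hp ht t0 hO⟩
  · rintro (⟨h1, h2⟩ | ⟨p, Op, hOp, hp, hm, i, hO⟩)
    · exact Or.inl ⟨h1, fun hf => let ⟨p, hp⟩ := (h.fix_iff.1 hf).2; h2 p hp⟩
    · exact Or.inr ⟨Op, h.fix_iff.2 ⟨hOp, p, hp⟩, _, (hp.sc_mem (cube_intg hOp) i).1,
        BlowA_aux_ne h p i, hm, by rwa [BlowA_aux_eq hOp hp i]⟩

theorem Cfg.bl_intg (h : Cfg P σ) (hO : O ∈ blP P σ) (i : Fin 3) : Intg O (P i) := by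
  rcases h.bl_iff.1 hO with ⟨h1, -⟩ | ⟨p, Op, hOp, -, -, j, hj⟩
  · exact cube_intg h1 i
  · exact (cube_intg hOp i).mono ((BlowA_aux_le Op p j).trans hj.1)

theorem Cfg.bl_over (h : Cfg P σ) (hO : O ∈ blP P σ) {p : F3} (hp : Over O P p) :
    ∃ Op ∈ cubeP P, Over Op P p ∧ Dom Op O ∧ (∃ i, ∀ j, ur P p i j ∈ O.1) ∧
      ∀ i, (∀ j, ur P p i j ∈ O.1) → O ∈ spec (Bl Op P p i) := by
  rcases h.bl_iff.1 hO with ⟨-, h2⟩ | ⟨p', Op, hOp, hp', hm, j, hj⟩
  · exact absurd hp (h2 p)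
  · have hd : Dom Op O := ⟨(BlowA_aux_le Op p' j).trans hj.1, hm⟩
    obtain rfl := over_inj h.gen (h.bl_intg hO) hp ((over_dom (cube_intg hOp) hd p').1 hp')
    exact ⟨Op, hOp, hp', hd, ⟨j, fun k => hj.1 (BlowA_aux_ur Op p j k)⟩,
      fun i hi => BlowA_aux_change h hj hi⟩

theorem Cfg.bl_sep (h : Cfg P σ) : Sep (blP P σ) := by
  intro O hO O' hO' W hd hd'
  by_cases hW : ∃ p, Over W P p
  · obtain ⟨p, hp⟩ := hW
    obtain ⟨Op, hOp, h1, -, ⟨i, hi⟩, h2⟩ := h.bl_over hO ((over_dom (h.bl_intg hO) hd p).2 hp)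
    obtain ⟨Op', hOp', h1', -, ⟨i', hi'⟩, h2'⟩ :=
      h.bl_over hO' ((over_dom (h.bl_intg hO') hd' p).2 hp)
    obtain rfl := over_unique hOp hOp' h1 h1'
    refine spec_unique (h2 i hi) (h2' i fun j => ?_) hd hd'
    have e : ur P p i j = ur P p i' j * (ur P p i' i)⁻¹ := by
      have := BlowA_aux_ne h p i
      have := BlowA_aux_ne h p i'
      unfold ur
      field_simp
    rw [e]
    refine mul_mem (hi' j) (hd'.inv_mem (hi' i) ?_)
    rw [ur, inv_div]
    exact hd.1 (hi i')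
  · have key : ∀ O ∈ blP P σ, Dom O W → O ∈ cubeP P := fun O hO hd => by
      rcases h.bl_iff.1 hO with ⟨h1, -⟩ | ⟨p, Op, hOp, hp, hm, j, hj⟩
      · exact h1
      · exact absurd ⟨p, (over_dom (cube_intg hOp)
          (Dom.trans ⟨(BlowA_aux_le Op p j).trans hj.1, hm⟩ hd) p).1 hp⟩ hW
    exact cube_sep P O (key O hO hd) O' (key O' hO' hd') W hd hd'

theorem Cfg.bl_centre (h : Cfg P σ) (hI : ∀ i, Intg W (P i))
    (hO : ∀ p, Over W P p → ∃ i, ∀ j, ur P p i j ∈ W.1) : ∃ O ∈ blP P σ, Dom O W := by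
  obtain ⟨Op, hOp, hd⟩ := cube_centre hI
  by_cases hW : ∃ p, Over W P p
  · obtain ⟨p, hp⟩ := hW
    obtain ⟨i, hi⟩ := hO p hp
    obtain ⟨O, h1, h2⟩ := exists_centre _ W (BlowA_aux_bl hd.1 hi)
    exact ⟨O, h.bl_iff.2 (Or.inr ⟨p, Op, hOp, (over_dom (cube_intg hOp) hd p).2 hp, fun f hf =>
      mx_of_le h2.1 (h1.1 (BlowA_aux_le Op p i (mx_sub hf))) (hd.2 hf), i, h1⟩), h2⟩
  · exact ⟨Op, h.bl_iff.2 (Or.inl ⟨hOp, fun p hp =>
      hW ⟨p, (over_dom (cube_intg hOp) hd p).1 hp⟩⟩), hd⟩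

/-- Apply `bl_centre` to the preimage `W` of `V` (`exists_pre`). If `W` is over `p`, choose `v j`
equal to `s j` (when `ξ` is not over `p`) or `s j / s i₀`; the residues are not all zero; take `i`
with minimal valuation. -/
theorem Cfg.bl_proper (h : Cfg P σ) : Proper (blP P σ) := by
  intro ξ hξ V
  obtain ⟨W, hW, hm⟩ := exists_pre ξ (vpt V.1 V.2.2)
  have hle : W.1 ≤ ξ.1 := fun f hf => ((hW f).1 hf).1
  have hI : ∀ i, Intg W (P i) := fun i => BlowA_aux_intg V.2.2 hW (h.bl_intg hξ i)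
  obtain ⟨O, hO, hd⟩ := h.bl_centre hI fun p hp => by
    by_cases hx : Over ξ P p
    · obtain ⟨-, -, -, -, ⟨k, hk⟩, -⟩ := h.bl_over hξ hx
      obtain ⟨i, hi⟩ := BlowA_aux_min V.2.2 hW hk (k := k) (by
        rw [ur, div_self (BlowA_aux_ne h p k)]
        exact isU_one ξ)
      refine ⟨i, fun j => ?_⟩
      have e : ur P p i j = ur P p k j / ur P p k i := by
        have := BlowA_aux_ne h p i
        have := BlowA_aux_ne h p k
        unfold ur
        field_simp
      rw [e]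
      exact hi j
    · obtain ⟨k, hk⟩ := not_forall.1 hx
      have y0 := (h.gen.shift p).yc_ne k
      have ht := (hp.sc_mem hI k).2
      have hs : ∀ j, sc (sh P p j) ∈ ξ.1 := fun j => hle (mx_sub (hp.sc_mem hI j).1)
      have h1 : IsU ξ (tc (sh P p k)) := IsU.inv ⟨y0, not_not.1 hk, hle (mx_sub ht)⟩
      have h2 : IsU ξ (1 - tc (sh P p k) ^ 2) := by
        rw [sub_eq_add_neg, sq]
        exact ((isU_one W).add_mx (mx_neg (mx_mul_left (mx_sub ht) ht))).mono hle
      refine BlowA_aux_min V.2.2 hW hs (k := k) (isU_of_not_mx (hs k) fun hm => ?_)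
      refine (h1.mul h2).not_mx ?_
      rw [tc_eq y0, pow_succ]
      exact mx_mul_left (pow_mem (hs k) 2) hm
  exact ⟨O, hO, hd.1.trans hle, V.2.1, fun g hg => ((hW g).1 (hd.1 hg)).2,
    fun g hg => mem_mx_vpt.1 ((hm g).1 (hd.2 hg)).2⟩

end Pool.Agent.MP_95da86_ag

end

section

/-! The blow-up of the 27 fixed points. -/

namespace Pool.Agent.MP_95da86_ag

variable {L : Type} [Field L] [Algebra ℂ L] {P : Fin 3 → EP L} {σ : L ≃ₐ[ℂ] L} {O W : Pt L}

/-- Finite generation by eigenvectors: for points over `p` use the `s j, t j, s j / s i`. -/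
theorem Cfg.bl_fin (h : Cfg P σ) (hO : O ∈ blP P σ) : ∃ S : Set L, S.Finite ∧
    (∀ g ∈ S, σ g = g ∨ σ g = zt L * g) ∧ O ∈ spec (Algebra.adjoin ℂ S) := by
  rcases h.bl_iff.1 hO with ⟨hc, -⟩ | ⟨p, Op, hOp, hov, -, i, hi⟩
  · obtain ⟨c, hc⟩ := Set.mem_iUnion.1 hc
    refine ⟨_, Set.finite_iUnion fun i => ?_, fun g hg => ?_, hc⟩
    · split_ifs <;> exact Set.toFinite _
    · obtain ⟨i, hi⟩ := Set.mem_iUnion.1 hg
      split_ifs at hi
      · rcases hi with rfl | rfl
        · exact Or.inr (h.map_xc i)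
        · exact Or.inl (h.map_yc i)
      · rcases hi with rfl | rfl
        · exact Or.inr (by rw [map_div₀, h.map_xc, h.map_yc, mul_div_assoc])
        · exact Or.inl (by rw [map_inv₀, h.map_yc])
  · have h' := h.shift p
    have hs : ∀ j, σ (sc (sh P p j)) = zt L * sc (sh P p j) := fun j => by
      rw [sc, map_div₀, h'.map_xc, h'.map_yc, mul_div_assoc]
    have ht : ∀ j, σ (tc (sh P p j)) = tc (sh P p j) := fun j => by
      rw [tc, map_inv₀, h'.map_yc]
    have hsp := mem_spec_inf (P := sh P p) (by rw [cube_sh]; exact hOp) hov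
    have hle : (Op.1 : Set L) ⊆ O.1 := fun g hg => hi.1 (Algebra.subset_adjoin (Or.inl hg))
    refine ⟨(Set.range (fun j => sc (sh P p j)) ∪ Set.range fun j => tc (sh P p j)) ∪
      Set.range (ur P p i),
      ((Set.finite_range _).union (Set.finite_range _)).union (Set.finite_range _), ?_, ?_⟩
    · rintro g ((⟨j, rfl⟩ | ⟨j, rfl⟩) | ⟨j, rfl⟩)
      · exact Or.inr (hs j)
      · exact Or.inl (ht j)
      · exact Or.inl (by rw [ur, map_div₀, hs, hs, mul_div_mul_left _ _ zt_ne_zero])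
    · refine spec_of_gens hi (Algebra.adjoin_le ?_) ?_
      · rintro g (hg | hg)
        · exact hle (hsp.1 (Algebra.subset_adjoin hg))
        · exact hi.1 (Algebra.subset_adjoin (Or.inr hg))
      · rintro g (hg | hg)
        · obtain ⟨a, ha, b, hb, hb', e⟩ := hsp.2 g hg
          exact ⟨a, Algebra.adjoin_mono Set.subset_union_left ha, b,
            Algebra.adjoin_mono Set.subset_union_left hb, hle hb', e⟩
        · exact ⟨g, Algebra.subset_adjoin (Or.inr hg), 1, one_mem _, by simp, (div_one _).symm⟩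
theorem Cfg.top_mem (h : Cfg P σ) : topPt L ∈ blP P σ :=
  h.bl_iff.2 (Or.inl ⟨h.gen.top_mem, fun _ hp => hp 0 (ValuationSubring.mem_top _)⟩)

theorem Blow_aux_fix (γ : L ≃ₐ[ℂ] L) (hγ : ∀ f, γ (σ f) = σ (γ f))
    (hc : ∀ O, mapPt γ O ∈ cubeP P ↔ O ∈ cubeP P) (O : Pt L) :
    mapPt γ O ∈ fixP P σ ↔ O ∈ fixP P σ := by
  have e : ∀ f, γ.symm (σ (γ f) - γ f) = σ f - f := fun f => by
    rw [← hγ, ← map_sub, γ.symm_apply_apply]
  refine and_congr (hc O) ⟨fun H f hf => ?_, fun H f hf => ?_⟩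
  · have := H (γ f) (mem_mapPt.2 (by rwa [γ.symm_apply_apply]))
    rwa [mem_mx_mapPt, e] at this
  · obtain ⟨f, rfl⟩ := γ.surjective f
    rw [mem_mapPt, γ.symm_apply_apply] at hf
    rw [mem_mx_mapPt, e]
    exact H f hf

theorem Blow_aux_map (γ : L ≃ₐ[ℂ] L) (hγ : ∀ f, γ (σ f) = σ (γ f))
    (hc : ∀ O, mapPt γ O ∈ cubeP P ↔ O ∈ cubeP P) (hO : O ∈ blP P σ) : mapPt γ O ∈ blP P σ := by
  rcases hO with ⟨h1, h2⟩ | ⟨p, hp, t, ht, ht0, hm, hs⟩
  · exact Or.inl ⟨(hc O).2 h1, fun h => h2 ((Blow_aux_fix γ hγ hc O).1 h)⟩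
  · refine Or.inr ⟨mapPt γ p, (Blow_aux_fix γ hγ hc p).2 hp, γ t,
      mem_mx_mapPt.2 (by rwa [γ.symm_apply_apply]), by simpa using ht0,
      fun f hf => mem_mx_mapPt.2 (hm (mem_mx_mapPt.1 hf)), ?_⟩
    have := spec_mapPt γ hs
    rw [AlgHom.map_adjoin] at this
    convert this using 3
    ext f
    constructor
    · rintro (hf | ⟨a, ha, rfl⟩)
      · exact ⟨γ.symm f, Or.inl (mem_mapPt.1 hf), by simp⟩
      · exact ⟨γ.symm a / t, Or.inr ⟨γ.symm a, mem_mx_mapPt.1 ha, rfl⟩, by simp⟩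
    · rintro ⟨g, hg | ⟨a, ha, rfl⟩, rfl⟩
      · exact Or.inl (mem_mapPt.2 (by simpa using hg))
      · exact Or.inr ⟨γ a, mem_mx_mapPt.2 (by simpa using ha), by simp⟩

/-- Transport of structure. -/
theorem bl_mapPt (γ : L ≃ₐ[ℂ] L) (hγ : ∀ f, γ (σ f) = σ (γ f))
    (hc : ∀ O, mapPt γ O ∈ cubeP P ↔ O ∈ cubeP P) : mapPt γ O ∈ blP P σ ↔ O ∈ blP P σ := by
  refine ⟨fun hO => ?_, Blow_aux_map γ hγ hc⟩
  have := Blow_aux_map γ.symm (σ := σ) (P := P) (fun f => by
    apply γ.injective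
    rw [hγ, γ.apply_symm_apply, γ.apply_symm_apply]) (fun O => by
      rw [← hc, mapPt_mapPt_symm]) hO
  rwa [mapPt_symm_mapPt] at this

theorem Blow_aux_om : om * (om * om) = 1 := by
  ext <;> simp [om, QuadraticAlgebra.re_one, QuadraticAlgebra.im_one]

theorem Cfg.bl_sigma (h : Cfg P σ) : mapPt σ O ∈ blP P σ ↔ O ∈ blP P σ := by
  refine bl_mapPt σ (fun _ => rfl) fun O => ?_
  have e : (cubeP fun i => emap (σ : L →ₐ[ℂ] L) (P i)) = cubeP P := by
    refine cube_eq fun W => forall_congr' fun i => ?_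
    rw [h.rot]
    refine ⟨fun H => ?_, fun H => H.smul om⟩
    have := H.smul (om * om)
    rwa [smul_smul, mul_comm, Blow_aux_om, one_smul] at this
  rw [← cube_mapPt (P := P) (O := O) σ, e]

theorem Blow_aux_lin {M : Type} [Field M] [Algebra ℂ M] (g : GLw) (R : Fin 3 → EP M) (i : Fin 3) :
    lin (g⁻¹.val i) (fun j => lin (g.val j) R) = R i := by
  have e : g⁻¹.val * g.val = 1 := Units.inv_mul g
  have e' : ∀ k, ∑ j, g⁻¹.val i j * g.val j k = (1 : Matrix (Fin 3) (Fin 3) Zw) i k := fun k => by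
    rw [← e, Matrix.mul_apply]
  simp only [lin, Finset.smul_sum, smul_smul]
  rw [Finset.sum_comm]
  simp only [← Finset.sum_smul, e', Matrix.one_apply, ite_smul, one_smul, zero_smul]
  simp

/-- The affine automorphisms. -/
theorem Cfg.exists_aff (h : Cfg P σ) (g : GLw) (b : F3) : ∃ γ : L ≃ₐ[ℂ] L,
    (∀ i, emap (γ : L →ₐ[ℂ] L) (P i) = lin (g.val i) P + tors L (b i)) ∧
    (∀ f, γ (σ f) = σ (γ f)) ∧ (∀ O, mapPt γ O ∈ cubeP P ↔ O ∈ cubeP P) ∧
    (∀ O, mapPt γ O ∈ blP P σ ↔ O ∈ blP P σ) ∧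
    ∀ O, (∀ i, Intg O (P i)) → ∀ p,
      (Over (mapPt γ O) P p ↔ Over O P ((gbar g).mulVec p + b)) := by
  have hQ : Gen3 fun i => lin (g.val i) P + cst L (tors ℂ (b i)) := h.gen.aff g _
  have hcu := cube_aff P g fun i => tors ℂ (b i)
  simp only [cst_tors] at hQ hcu
  obtain ⟨γ, hγ⟩ := h.gen.exists_aut hQ
  have hcomm : ∀ f, γ (σ f) = σ (γ f) := by
    have : (γ : L →ₐ[ℂ] L).comp (σ : L →ₐ[ℂ] L) = (σ : L →ₐ[ℂ] L).comp (γ : L →ₐ[ℂ] L) := by
      refine h.gen.algHom_ext fun i => ?_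
      have := h.map_lin (g.val i) (-b i)
      rw [tors_neg, sub_neg_eq_add] at this
      rw [← emap_emap, ← emap_emap, h.rot, map_smul, hγ, this]
    exact fun f => DFunLike.congr_fun this f
  have hc : ∀ O, mapPt γ O ∈ cubeP P ↔ O ∈ cubeP P := fun O => by
    rw [← cube_mapPt (P := P) (O := O) γ]
    simp only [hγ, hcu]
  refine ⟨γ, hγ, hcomm, hc, fun O => bl_mapPt γ hcomm hc, fun O hI p => ?_⟩
  have hIQ : ∀ i, Intg (mapPt γ O) (lin (g.val i) P + tors L (b i)) := fun i => by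
    rw [← hγ]
    exact (intg_mapPt γ).2 (hI i)
  have hIP : ∀ i, Intg (mapPt γ O) (P i) := fun i => by
    rw [← Blow_aux_lin g P i]
    refine intg_lin (fun j => ?_) _
    have := (hIQ j).sub (intg_tors (b j))
    rwa [add_sub_cancel_right] at this
  have e1 : Over O P ((gbar g).mulVec p + b) ↔
      Over (mapPt γ O) (fun i => lin (g.val i) P + tors L (b i)) ((gbar g).mulVec p + b) := by
    refine forall_congr' fun i => not_congr ?_
    have : yc (sh (fun i => lin (g.val i) P + tors L (b i)) ((gbar g).mulVec p + b) i) =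
        γ (yc (sh P ((gbar g).mulVec p + b) i)) := by
      have := yc_emap (γ : L →ₐ[ℂ] L) (sh P ((gbar g).mulVec p + b) i)
      rw [sh, map_sub, hγ, emap_tors] at this
      exact this
    rw [this, mem_mapPt, γ.symm_apply_apply]
  rw [e1, over_iff_red h.gen hIP, over_iff_red hQ hIQ]
  have e2 : ∀ i, tors (RF (mapPt γ O)) (((gbar g).mulVec p + b) i) =
      lin (g.val i) (fun j => tors (RF (mapPt γ O)) (p j)) + tors (RF (mapPt γ O)) (b i) := by
    intro i
    rw [Pi.add_apply, tors_add, lin_tors]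
    rfl
  simp only [e2, red_add (intg_lin hIP _) (intg_tors _), red_lin hIP, red_tors, add_left_inj]
  constructor
  · intro H i
    simp only [H]
  · intro H i
    rw [← Blow_aux_lin g (fun j => red (mapPt γ O) (P j)) i,
      ← Blow_aux_lin g (fun j => tors (RF (mapPt γ O)) (p j)) i]
    simp only [H]

end Pool.Agent.MP_95da86_ag

end

section

/-! Cartier divisors: the group structure and the explicit divisors. -/

namespace Pool.Agent.MP_95da86_ag

section General

variable {M : Type} [Field M] [Algebra ℂ M] {Y : Set (Pt M)} {f g : Pt M → Mˣ}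

theorem isCartier_iff : IsCartier Y f ↔ ∀ O ∈ Y, ∃ S : Finset M, (S : Set M) ⊆ O.1 ∧
    ∀ O' ∈ Y, (S : Set M) ⊆ O'.1 → IsU O' ((f O' / f O : Mˣ) : M) := by
  have key : ∀ O O' : Pt M, (((f O' / f O : Mˣ) : M) ∈ O'.1 ∧ ((f O / f O' : Mˣ) : M) ∈ O'.1) ↔
      IsU O' ((f O' / f O : Mˣ) : M) := by
    intro O O'
    have e : ((f O' / f O : Mˣ) : M)⁻¹ = ((f O / f O' : Mˣ) : M) := by
      rw [← Units.val_inv_eq_inv_val, inv_div]
    rw [IsU, e]
    exact ⟨fun h => ⟨Units.ne_zero _, h⟩, fun h => h.2⟩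
  simp only [IsCartier, key]
theorem isCartier_const (u : Mˣ) : IsCartier Y fun _ => u :=
  isCartier_iff.2 fun _ _ => ⟨∅, by simp, fun O' _ _ => by simpa using isU_one O'⟩
theorem isCartier_one : IsCartier Y 1 := isCartier_const 1
theorem IsCartier.mul (hf : IsCartier Y f) (hg : IsCartier Y g) : IsCartier Y (f * g) := by
  classical
  rw [isCartier_iff] at hf hg ⊢
  intro O hO
  obtain ⟨S, hS, h⟩ := hf O hO
  obtain ⟨T, hT, h'⟩ := hg O hO
  refine ⟨S ∪ T, by rw [Finset.coe_union]; exact Set.union_subset hS hT, fun O' hO' hs => ?_⟩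
  rw [Finset.coe_union, Set.union_subset_iff] at hs
  have := (h O' hO' hs.1).mul (h' O' hO' hs.2)
  rwa [← Units.val_mul, div_mul_div_comm] at this
theorem IsCartier.inv (hf : IsCartier Y f) : IsCartier Y f⁻¹ := by
  rw [isCartier_iff] at hf ⊢
  intro O hO
  obtain ⟨S, hS, h⟩ := hf O hO
  refine ⟨S, hS, fun O' hO' hs => ?_⟩
  have := (h O' hO' hs).inv
  rw [← Units.val_inv_eq_inv_val, inv_div] at this
  rwa [Pi.inv_apply, Pi.inv_apply, inv_div_inv]
theorem IsCartier.div (hf : IsCartier Y f) (hg : IsCartier Y g) : IsCartier Y (f / g) := by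
  rw [div_eq_mul_inv]; exact hf.mul hg.inv
theorem IsCartier.zpow (hf : IsCartier Y f) (n : ℤ) : IsCartier Y (f ^ n) := by
  rw [isCartier_iff] at hf ⊢
  intro O hO
  obtain ⟨S, hS, h⟩ := hf O hO
  refine ⟨S, hS, fun O' hO' hs => ?_⟩
  have := (h O' hO' hs).zpow n
  rwa [← Units.val_zpow_eq_zpow_val, div_zpow] at this
theorem IsCartier.pow (hf : IsCartier Y f) (n : ℕ) : IsCartier Y (f ^ n) := by
  have := hf.zpow n
  rwa [zpow_natCast] at this
theorem isCartier_prod {ι : Type} (s : Finset ι) (F : ι → Pt M → Mˣ)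
    (h : ∀ i ∈ s, IsCartier Y (F i)) : IsCartier Y (∏ i ∈ s, F i) :=
  Finset.prod_induction F (IsCartier Y) (fun _ _ ha hb => ha.mul hb) isCartier_one h
theorem IsCartier.compat (hf : IsCartier Y f) {O O' : Pt M} (hO : O ∈ Y) (hO' : O' ∈ Y)
    (hle : O.1 ≤ O'.1) : IsU O' ((f O / f O' : Mˣ) : M) := by
  obtain ⟨S, hS, h⟩ := isCartier_iff.1 hf O hO
  have := (h O' hO' fun x hx => hle (hS hx)).inv
  rwa [← Units.val_inv_eq_inv_val, inv_div] at this
theorem Triv.isCartier (hf : Triv Y f) : IsCartier Y f := by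
  classical
  rw [isCartier_iff]
  intro O hO
  refine ⟨{(f O : M), (f O : M)⁻¹}, ?_, fun O' hO' hs => ?_⟩
  · intro x hx
    simp only [Finset.coe_insert, Finset.coe_singleton, Set.mem_insert_iff,
      Set.mem_singleton_iff] at hx
    rcases hx with rfl | rfl
    · exact (hf O hO).2.1
    · exact (hf O hO).2.2
  · rw [Units.val_div_eq_div_val]
    exact (hf O' hO').div ⟨Units.ne_zero _, hs (by simp), hs (by simp)⟩
theorem zq_of_mem {y : M} {O : Pt M} (h : y ∈ O.1) : zq y O = 1 := dif_pos h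
theorem zq_of_not_mem {y : M} {O : Pt M} (h : y ∉ O.1) : (zq y O : M) = y⁻¹ := by
  rw [zq, dif_neg h, Units.val_inv_eq_inv_val, Units.val_mk0]
theorem isCartier_zq {y : M} (h : ∀ O ∈ Y, y ∈ O.1 ∨ y⁻¹ ∈ O.1) : IsCartier Y (zq y) := by
  rw [isCartier_iff]
  intro O hO
  by_cases hy : y ∈ O.1
  · refine ⟨{y}, by simpa using hy, fun O' _ hs => ?_⟩
    rw [zq_of_mem hy, zq_of_mem (hs (by simp))]
    simpa using isU_one O'
  · have hy0 : y ≠ 0 := fun h0 => hy (h0 ▸ zero_mem _)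
    refine ⟨{y⁻¹}, by simpa using (h O hO).resolve_left hy, fun O' _ hs => ?_⟩
    have hi : y⁻¹ ∈ O'.1 := hs (by simp)
    rw [Units.val_div_eq_div_val, zq_of_not_mem hy]
    by_cases hy' : y ∈ O'.1
    · rw [zq_of_mem hy', Units.val_one, one_div, inv_inv]
      exact ⟨hy0, hy', hi⟩
    · rw [zq_of_not_mem hy', div_self (inv_ne_zero hy0)]
      exact isU_one O'

theorem Cart_aux_one_sub {O : Pt M} {t : M} (ht : t ∈ mx O) : IsU O (1 - t ^ 2) := by
  have := (isU_one O).add_mx (mx_neg (mx_mul_left (mx_sub ht) ht))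
  rwa [← sub_eq_add_neg, ← sq] at this

theorem Cart_aux_ratio {Q Q' : EP M} (hy : yc Q ≠ 0) (hy' : yc Q' ≠ 0) (hs : sc Q' ≠ 0)
    (h1 : 1 - tc Q ^ 2 ≠ 0) :
    tc Q / tc Q' = (sc Q / sc Q') ^ 3 * (1 - tc Q' ^ 2) * (1 - tc Q ^ 2)⁻¹ := by
  have e := tc_eq hy
  have e' := tc_eq hy'
  have ht : tc Q' ≠ 0 := inv_ne_zero hy'
  rw [div_pow, ← e, ← e']
  have h2 : 1 - tc Q' ^ 2 ≠ 0 := by
    intro h0
    rw [h0, mul_zero] at e'
    exact pow_ne_zero 3 hs e'.symm
  field_simp

theorem Cart_aux_zq_mem {O : Pt M} {Q : EP M} (h : Intg O Q) : yc Q ∈ O.1 ∨ (yc Q)⁻¹ ∈ O.1 := by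
  rcases h with h | h
  · exact Or.inl h.2
  · exact Or.inr h.2

end General

variable {L : Type} [Field L] [Algebra ℂ L] {P : Fin 3 → EP L} {σ : L ≃ₐ[ℂ] L} {O : Pt L}

theorem mem_XP {O' : Pt (KK σ)} : O' ∈ XP P σ ↔ ∃ O ∈ blP P σ, O' = qpt (KK σ) O := by
  constructor
  · rintro ⟨O, hO, h⟩
    exact ⟨O, hO, Subtype.ext (Subalgebra.ext h)⟩
  · rintro ⟨O, hO, rfl⟩
    exact ⟨O, hO, fun _ => Iff.rfl⟩
theorem coe_pull (f : Pt (KK σ) → (KK σ)ˣ) (O : Pt L) :
    (pull σ f O : L) = ((f (qpt (KK σ) O) : KK σ) : L) := rfl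
theorem pull_mul (f g : Pt (KK σ) → (KK σ)ˣ) : pull σ (f * g) = pull σ f * pull σ g :=
  funext fun _ => map_mul _ _ _
theorem pull_inv (f : Pt (KK σ) → (KK σ)ˣ) : pull σ f⁻¹ = (pull σ f)⁻¹ :=
  funext fun _ => map_inv _ _
theorem pull_one : pull σ 1 = 1 := funext fun _ => map_one _
theorem pull_prod {ι : Type} (s : Finset ι) (F : ι → Pt (KK σ) → (KK σ)ˣ) :
    pull σ (∏ i ∈ s, F i) = ∏ i ∈ s, pull σ (F i) := by
  classical
  induction s using Finset.induction_on with
  | empty => rw [Finset.prod_empty, Finset.prod_empty, pull_one]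
  | insert a s ha ih => rw [Finset.prod_insert ha, Finset.prod_insert ha, pull_mul, ih]

theorem Cart_aux_isU_div (f : Pt (KK σ) → (KK σ)ˣ) (O O' : Pt L) :
    IsU (qpt (KK σ) O') ((f (qpt (KK σ) O') / f (qpt (KK σ) O) : (KK σ)ˣ) : KK σ) ↔
      IsU O' ((pull σ f O' / pull σ f O : Lˣ) : L) := by
  rw [isU_qpt, Units.val_div_eq_div_val, Units.val_div_eq_div_val, coe_pull, coe_pull]
  rfl

theorem Cart_aux_xc_ne (hP : Gen3 P) (i : Fin 3) : xc (P i) ≠ 0 := fun h0 =>
  hP.ind.transcendental i (by rw [h0]; exact isAlgebraic_zero)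

theorem Cart_aux_yc_ne (hP : Gen3 P) (i : Fin 3) : yc (P i) ≠ 0 := by
  intro h0
  have e := eqn_of_ne (hP.ne i)
  rw [h0] at e
  refine hP.ind.transcendental i (IsAlgebraic.of_pow (n := 3) (by norm_num) ?_)
  have : xc (P i) ^ 3 = -1 := by linear_combination -e
  rw [this]
  exact isAlgebraic_one.neg

theorem Cart_aux_sc_ne (h : Cfg P σ) (p : F3) (i : Fin 3) : sc (sh P p i) ≠ 0 :=
  div_ne_zero (Cart_aux_xc_ne (h.shift p).gen i) (Cart_aux_yc_ne (h.shift p).gen i)

theorem Cart_aux_yc_sh (h : Cfg P σ) (p : F3) (i : Fin 3) : yc (sh P p i) ≠ 0 :=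
  Cart_aux_yc_ne (h.shift p).gen i

theorem Cart_aux_tc_inv (h : Cfg P σ) (p : F3) (i : Fin 3) :
    σ (tc (sh P p i)) = tc (sh P p i) := by
  rw [tc, map_inv₀, (h.shift p).map_yc]

theorem Cart_aux_ur_inv (h : Cfg P σ) (p : F3) (i j : Fin 3) : σ (ur P p i j) = ur P p i j := by
  have e : ∀ k, σ (sc (sh P p k)) = zt L * sc (sh P p k) := fun k => by
    rw [sc, map_div₀, (h.shift p).map_xc, (h.shift p).map_yc, mul_div_assoc]
  rw [ur, map_div₀, e, e, mul_div_mul_left _ _ zt_ne_zero]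

theorem Cart_aux_yc_inv (h : Cfg P σ) (l : Lam) (τ : ZMod 3) :
    σ (yc (lin l P - tors L τ)) = yc (lin l P - tors L τ) := by
  have := congrArg yc (h.map_lin l τ)
  rwa [yc_emap, yc_om] at this

theorem Cart_aux_intg (h : Cfg P σ) (hO : O ∈ blP P σ) (l : Lam) (τ : ZMod 3) :
    Intg O (lin l P - tors L τ) :=
  (intg_lin (h.bl_intg hO) l).sub (intg_tors τ)

theorem Cart_aux_red (h : Cfg P σ) (hI : ∀ i, Intg O (P i)) {p : F3} (hp : Over O P p) (l : Lam)
    (τ : ZMod 3) : red O (lin l P - tors L τ) = tors (RF O) (dotb l p - τ) := by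
  rw [red_sub (intg_lin hI l) (intg_tors τ), red_lin hI, red_tors, tors_sub, ← lin_tors]
  congr 2
  exact funext ((over_iff_red h.gen hI p).1 hp)

theorem Cart_aux_div_mem {Op : Pt L} {p : F3} (hOp : Op ∈ cubeP P) (hp : Over Op P p)
    (hle : Op.1 ≤ O.1) {i : Fin 3} (hi : ∀ j, ur P p i j ∈ O.1) {r : L} (hr : r ∈ mx Op) :
    r / sc (sh P p i) ∈ O.1 := by
  obtain ⟨a, ha, rfl⟩ := over_gen hOp hp hr
  rw [Finset.sum_div]
  refine sum_mem fun j _ => ?_
  rw [mul_div_assoc]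
  exact mul_mem (hle (ha j)) (hi j)

theorem IsCartier.to_pull {f : Pt (KK σ) → (KK σ)ˣ} (hf : IsCartier (XP P σ) f) :
    IsCartier (blP P σ) (pull σ f) := by
  classical
  rw [isCartier_iff] at hf ⊢
  intro O hO
  obtain ⟨S, hS, h⟩ := hf _ (mem_XP.2 ⟨O, hO, rfl⟩)
  refine ⟨S.image Subtype.val, ?_, fun O' hO' hs => ?_⟩
  · intro x hx
    rw [Finset.coe_image] at hx
    obtain ⟨y, hy, rfl⟩ := hx
    exact hS hy
  · rw [← Cart_aux_isU_div]
    refine h _ (mem_XP.2 ⟨O', hO', rfl⟩) fun y hy => ?_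
    exact hs (by rw [Finset.coe_image]; exact ⟨y, hy, rfl⟩)
theorem Cfg.zq_cartier (h : Cfg P σ) (l : Lam) (c : EP ℂ) :
    IsCartier (blP P σ) (zq (yc (lin l P - cst L c))) :=
  isCartier_zq fun _ hO => Cart_aux_zq_mem ((intg_lin (h.bl_intg hO) l).sub (intg_cst c))
theorem Cfg.pull_zX (h : Cfg P σ) (l : Lam) (τ : ZMod 3) :
    pull σ (zX P σ l τ) = zq (yc (lin l P - tors L τ)) := by
  funext O
  apply Units.ext
  have e := coe_toK (Cart_aux_yc_inv h l τ)
  rw [coe_pull, zX]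
  by_cases hy : yc (lin l P - tors L τ) ∈ O.1
  · rw [zq_of_mem hy, zq_of_mem (by rw [mem_qpt, e]; exact hy)]
    rfl
  · rw [zq_of_not_mem hy, zq_of_not_mem (by rw [mem_qpt, e]; exact hy), ← e]
    rw [e]
    push_cast
    rw [e]
theorem Cfg.zX_cartier (h : Cfg P σ) (l : Lam) (τ : ZMod 3) : IsCartier (XP P σ) (zX P σ l τ) := by
  refine isCartier_zq fun O' hO' => ?_
  obtain ⟨O, hO, rfl⟩ := mem_XP.1 hO'
  have e := coe_toK (Cart_aux_yc_inv h l τ)
  rw [mem_qpt, mem_qpt]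
  push_cast
  rw [e]
  exact Cart_aux_zq_mem (Cart_aux_intg h hO l τ)
theorem Cfg.pull_eX_over (h : Cfg P σ) (hO : O ∈ blP P σ) {p : F3} (hp : Over O P p) :
    ∃ i, (∀ j, ur P p i j ∈ O.1) ∧ (pull σ (eX P σ p) O : L) = tc (sh P p i) := by
  have et := fun i => coe_toK (Cart_aux_tc_inv h p i)
  have eu := fun i j => coe_toK (Cart_aux_ur_inv h p i j)
  obtain ⟨-, -, -, -, ⟨i, hi⟩, -⟩ := h.bl_over hO hp
  have hex : ∃ i, toK σ (tc (sh P p i)) ≠ 0 ∧
      (∀ j, toK σ (tc (sh P p j)) ∈ mx (qpt (KK σ) O)) ∧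
      ∀ j, toK σ (ur P p i j) ∈ (qpt (KK σ) O).1 := by
    refine ⟨i, fun h0 => ?_, fun j => ?_, fun j => ?_⟩
    · have := et i
      rw [h0] at this
      exact inv_ne_zero (Cart_aux_yc_sh h p i) this.symm
    · rw [mem_mx_qpt, et]
      exact (hp.sc_mem (h.bl_intg hO) j).2
    · rw [mem_qpt, eu]
      exact hi j
  refine ⟨hex.choose, fun j => ?_, ?_⟩
  · have := hex.choose_spec.2.2 j
    rwa [mem_qpt, eu] at this
  · rw [coe_pull, eX, eq3, dif_pos hex, Units.val_mk0, et]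
theorem Cfg.pull_eX_not (h : Cfg P σ) {p : F3} (hp : ¬ Over O P p) :
    pull σ (eX P σ p) O = 1 := by
  have et := fun i => coe_toK (Cart_aux_tc_inv h p i)
  apply Units.ext
  rw [coe_pull, eX, eq3, dif_neg]
  · rfl
  · rintro ⟨i, -, hm, -⟩
    refine hp fun j => not_mem_of_tc (Cart_aux_yc_sh h p j) ?_
    have := hm j
    rwa [mem_mx_qpt, et] at this
/-- Near a point over `p` with index `i` use `S = {t j, s j / s i, (1 - t j ^ 2)⁻¹}`; near a point
with `y j ∈ O` use `S = {y j}`. -/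
theorem Cfg.eX_cartier (h : Cfg P σ) (p : F3) : IsCartier (XP P σ) (eX P σ p) := by
  classical
  have et := fun i => coe_toK (Cart_aux_tc_inv h p i)
  have eu := fun i j => coe_toK (Cart_aux_ur_inv h p i j)
  have hy := Cart_aux_yc_sh h p
  have hs := Cart_aux_sc_ne h p
  rw [isCartier_iff]
  intro O' hO'
  obtain ⟨O, hO, rfl⟩ := mem_XP.1 hO'
  by_cases hp : Over O P p
  · obtain ⟨i, hi, e⟩ := h.pull_eX_over hO hp
    have h1 : ∀ j, IsU O (1 - tc (sh P p j) ^ 2) := fun j =>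
      Cart_aux_one_sub (hp.sc_mem (h.bl_intg hO) j).2
    have ev : ∀ j, (((1 - toK σ (tc (sh P p j)) ^ 2)⁻¹ : KK σ) : L) =
        (1 - tc (sh P p j) ^ 2)⁻¹ := fun j => by
      push_cast
      rw [et]
    refine ⟨(Finset.univ.image fun j => toK σ (tc (sh P p j))) ∪
      (Finset.univ.image fun j => toK σ (ur P p i j)) ∪
      Finset.univ.image fun j => (1 - toK σ (tc (sh P p j)) ^ 2)⁻¹, ?_, fun O₂' hO₂' hS => ?_⟩
    · intro x hx
      simp only [Finset.coe_union, Finset.coe_image, Finset.coe_univ, Set.image_univ,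
        Set.mem_union, Set.mem_range] at hx
      rcases hx with (⟨j, rfl⟩ | ⟨j, rfl⟩) | ⟨j, rfl⟩
      · rw [SetLike.mem_coe, mem_qpt, et]
        exact mx_sub (hp.sc_mem (h.bl_intg hO) j).2
      · rw [SetLike.mem_coe, mem_qpt, eu]
        exact hi j
      · rw [SetLike.mem_coe, mem_qpt, ev]
        exact (h1 j).2.2
    · obtain ⟨O₂, hO₂, rfl⟩ := mem_XP.1 hO₂'
      have m1 : ∀ j, tc (sh P p j) ∈ O₂.1 := fun j => by
        rw [← et]
        exact hS (by simp)
      have m2 : ∀ j, ur P p i j ∈ O₂.1 := fun j => by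
        rw [← eu]
        exact hS (by simp)
      have m3 : ∀ j, IsU O₂ (1 - tc (sh P p j) ^ 2) := fun j => by
        refine ⟨(h1 j).1, sub_mem (one_mem _) (pow_mem (m1 j) 2), ?_⟩
        rw [← ev, ← mem_qpt]
        exact hS (by simp)
      rw [Cart_aux_isU_div, Units.val_div_eq_div_val, e]
      by_cases hp₂ : Over O₂ P p
      · obtain ⟨k, hk, e₂⟩ := h.pull_eX_over hO₂ hp₂
        rw [e₂, Cart_aux_ratio (hy k) (hy i) (hs i) (m3 k).1]
        have hu : IsU O₂ (sc (sh P p k) / sc (sh P p i)) :=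
          ⟨div_ne_zero (hs k) (hs i), m2 k, by rw [inv_div]; exact hk i⟩
        exact ((hu.pow 3).mul (m3 i)).mul (m3 k).inv
      · rw [h.pull_eX_not hp₂, Units.val_one, one_div]
        refine IsU.inv ?_
        obtain ⟨k, hk⟩ := not_forall.1 hp₂
        rw [not_not] at hk
        have hu : IsU O₂ (tc (sh P p k)) :=
          ⟨inv_ne_zero (hy k), m1 k, by rw [tc, inv_inv]; exact hk⟩
        refine isU_of_not_mx (m1 i) fun hm => hu.not_mx ?_
        have hw : tc (sh P p k) / tc (sh P p i) ∈ O₂.1 := by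
          rw [Cart_aux_ratio (hy k) (hy i) (hs i) (m3 k).1]
          exact mul_mem (mul_mem (pow_mem (m2 k) 3) (m3 i).2.1) (m3 k).2.2
        have := mx_mul_left hw hm
        rwa [div_mul_cancel₀ _ (show tc (sh P p i) ≠ 0 from inv_ne_zero (hy i))] at this
  · obtain ⟨k, hk⟩ := not_forall.1 hp
    rw [not_not] at hk
    have ey := coe_toK ((h.shift p).map_yc k)
    refine ⟨{toK σ (yc (sh P p k))}, ?_, fun O₂' hO₂' hS => ?_⟩
    · rw [Finset.coe_singleton, Set.singleton_subset_iff, SetLike.mem_coe, mem_qpt, ey]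
      exact hk
    · obtain ⟨O₂, hO₂, rfl⟩ := mem_XP.1 hO₂'
      rw [Finset.coe_singleton, Set.singleton_subset_iff, SetLike.mem_coe, mem_qpt, ey] at hS
      rw [Cart_aux_isU_div, h.pull_eX_not hp, h.pull_eX_not fun hp₂ => hp₂ k hS]
      simpa using isU_one O₂
theorem Cfg.eX_eff (h : Cfg P σ) (p : F3) : ∀ O' ∈ XP P σ, (eX P σ p O' : KK σ) ∈ O'.1 := by
  intro O' hO'
  obtain ⟨O, hO, rfl⟩ := mem_XP.1 hO'
  rw [mem_qpt, ← coe_pull]
  by_cases hp : Over O P p
  · obtain ⟨i, -, e⟩ := h.pull_eX_over hO hp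
    rw [e]
    exact mx_sub (hp.sc_mem (h.bl_intg hO) i).2
  · rw [h.pull_eX_not hp]
    exact one_mem _
/-- For any `r` generating the maximal ideal of `Op` in `O`, the equation is a unit times `r ^ 3`. -/
theorem Cfg.eX_gen (h : Cfg P σ) (hO : O ∈ blP P σ) {p : F3} {Op : Pt L} (hOp : Op ∈ cubeP P)
    (hp : Over Op P p) (hd : Dom Op O) {r : L} (hr : r ∈ mx Op) (hr0 : r ≠ 0)
    (hgen : ∀ g ∈ mx Op, g / r ∈ O.1) : IsU O ((pull σ (eX P σ p) O : L) / r ^ 3) := by
  have hp' : Over O P p := (over_dom (cube_intg hOp) hd p).1 hp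
  obtain ⟨i, hi, e⟩ := h.pull_eX_over hO hp'
  have hs := Cart_aux_sc_ne h p i
  have h1 : IsU O (1 - tc (sh P p i) ^ 2) := Cart_aux_one_sub (hp'.sc_mem (h.bl_intg hO) i).2
  have hu : IsU O (sc (sh P p i) / r) :=
    ⟨div_ne_zero hs hr0, hgen _ (hp.sc_mem (cube_intg hOp) i).1, by
      rw [inv_div]; exact Cart_aux_div_mem hOp hp hd.1 hi hr⟩
  have e2 : tc (sh P p i) / r ^ 3 = (sc (sh P p i) / r) ^ 3 / (1 - tc (sh P p i) ^ 2) := by
    have h10 := h1.1
    rw [div_pow, ← tc_eq (Cart_aux_yc_sh h p i)]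
    field_simp
  rw [e, e2]
  exact (hu.pow 3).div h1

theorem Cart_aux_lin_ne (h : Cfg P σ) {l : Lam} (hl : ∃ i, bar (l i) ≠ 0) (τ : ZMod 3) :
    lin l P - tors L τ ≠ 0 := by
  obtain ⟨i, hi⟩ := hl
  have : ∃ p : F3, dotb l p ≠ τ := by
    by_cases hτ : τ = 0
    · refine ⟨Pi.single i 1, ?_⟩
      rw [hτ, dotb, Finset.sum_eq_single i (fun j _ hj => by simp [hj]) (by simp)]
      simpa using hi
    · exact ⟨0, by simpa [dotb] using Ne.symm hτ⟩
  obtain ⟨p, hp⟩ := this
  obtain ⟨Op, hOp, hov⟩ := h.gen.exists_over p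
  intro h0
  have := Cart_aux_red h (cube_intg hOp) hov l τ
  rw [h0, red_zero] at this
  exact hp (sub_eq_zero.1 (tors_eq_zero.1 this.symm))

/-- The strict transforms are effective. `Q = ℓ P - τ T ≠ 0` (reduce at a fixed point off the
plane); over a point `p` of the plane `Q` reduces to zero at `Op`, so `s Q ∈ mx Op`. -/
theorem Cfg.s_eff (h : Cfg P σ) {l : Lam} (hl : ∃ i, bar (l i) ≠ 0) (τ : ZMod 3)
    (hO : O ∈ blP P σ) : (((zq (yc (lin l P - tors L τ)) /
      ∏ p with dotb l p = τ, pull σ (eX P σ p)) O : Lˣ) : L) ∈ O.1 := by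
  rw [Pi.div_apply, Finset.prod_apply, Units.val_div_eq_div_val]
  by_cases hex : ∃ p, dotb l p = τ ∧ Over O P p
  · obtain ⟨p, hpτ, hp⟩ := hex
    rw [Finset.prod_eq_single p (fun q _ hq => h.pull_eX_not fun hq' =>
      hq (over_inj h.gen (h.bl_intg hO) hq' hp)) (fun hn => absurd (by simp [hpτ]) hn)]
    obtain ⟨i, hi, e⟩ := h.pull_eX_over hO hp
    obtain ⟨Op, hOp, hov, hd, -⟩ := h.bl_over hO hp
    have hI : Intg Op (lin l P - tors L τ) := (intg_lin (cube_intg hOp) l).sub (intg_tors τ)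
    have hz : Zr Op (lin l P - tors L τ) := by
      rw [← red_eq_zero hI, Cart_aux_red h (cube_intg hOp) hov l τ, hpτ, sub_self, tors_zero]
    have hy : yc (lin l P - tors L τ) ∉ Op.1 := hz.resolve_left (Cart_aux_lin_ne h hl τ)
    have hy0 : yc (lin l P - tors L τ) ≠ 0 := fun h0 => hy (h0 ▸ zero_mem _)
    have ht : tc (lin l P - tors L τ) ∈ mx O := hd.2 (hI.tc_mem hy)
    have h1 := Cart_aux_one_sub ht
    rw [zq_of_not_mem (not_mem_of_tc hy0 ht), e]
    change tc (lin l P - tors L τ) / _ ∈ _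
    rw [Cart_aux_ratio hy0 (Cart_aux_yc_sh h p i) (Cart_aux_sc_ne h p i) h1.1]
    exact mul_mem (mul_mem (pow_mem (Cart_aux_div_mem hOp hov hd.1 hi (hI.sc_mem hy)) 3)
      (Cart_aux_one_sub (hp.sc_mem (h.bl_intg hO) i).2).2.1) h1.2.2
  · rw [Finset.prod_eq_one fun q hq => h.pull_eX_not fun hq' =>
      hex ⟨q, (Finset.mem_filter.1 hq).2, hq'⟩, Units.val_one, div_one]
    by_cases hy : yc (lin l P - tors L τ) ∈ O.1
    · rw [zq_of_mem hy]
      exact one_mem _
    · rw [zq_of_not_mem hy]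
      exact (Cart_aux_zq_mem (Cart_aux_intg h hO l τ)).resolve_left hy
theorem Cfg.lin_ne (h : Cfg P σ) {l : Lam} (hl : ∃ i, bar (l i) ≠ 0) (τ : ZMod 3) :
    lin l P - tors L τ ≠ 0 := Cart_aux_lin_ne h hl τ

end Pool.Agent.MP_95da86_ag

end

section

/-! The valuation of an exceptional plane. -/

namespace Pool.Agent.MP_95da86_ag

variable {L : Type} [Field L] [Algebra ℂ L] {P : Fin 3 → EP L} {Op : Pt L} {p : F3}

open IsLocalRing MvPolynomial in
theorem WpA_aux_div (hO : Op ∈ cubeP P) (h : Over Op P p) (i : Fin 3) (N : ℕ) :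
    ∀ r : Op.1, r ∈ maximalIdeal Op.1 ^ N → (r : L) / sc (sh P p i) ^ N ∈ Bl Op P p i := by
  have hle : ∀ f ∈ Op.1, f ∈ Bl Op P p i := fun f hf => Algebra.subset_adjoin (Or.inl hf)
  induction N with
  | zero => intro r _; simpa using hle _ r.2
  | succ N ih =>
    intro r hr
    rw [pow_succ'] at hr
    refine Submodule.mul_induction_on hr (fun a ha b hb => ?_) fun a b ha hb => ?_
    · obtain ⟨c, hc, e⟩ := over_gen hO h (coe_mem_mx.2 ha)
      have e2 : ((a * b : Op.1) : L) / sc (sh P p i) ^ (N + 1) =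
          (∑ j, c j * ur P p i j) * ((b : L) / sc (sh P p i) ^ N) := by
        simp only [ur, ← mul_div_assoc, ← Finset.sum_div, ← e]
        rw [pow_succ', MulMemClass.coe_mul, div_mul_eq_mul_div, div_div]
      rw [e2]
      exact mul_mem (sum_mem fun j _ => mul_mem (hle _ (hc j))
        (Algebra.subset_adjoin (Or.inr ⟨j, rfl⟩))) (ih b hb)
    · rw [AddMemClass.coe_add, add_div]
      exact add_mem ha hb

theorem WpA_aux_sc_ne (hP : Gen3 P) (p : F3) (i : Fin 3) : sc (sh P p i) ≠ 0 :=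
  div_ne_zero ((hP.shift p).xc_ne i) ((hP.shift p).yc_ne i)

open IsLocalRing MvPolynomial in
theorem WpA_aux_lead {A : Type} [CommRing A] [Algebra ℂ A] (m : Ideal A) (s : Fin 3 → A)
    (hs : ∀ j, s j ∈ m) (h0 : ∀ r : A, ∃ c : ℂ, r - algebraMap ℂ A c ∈ m)
    (h1 : ∀ r ∈ m, ∃ a : Fin 3 → A, r = ∑ j, a j * s j) (N : ℕ) :
    ∀ r ∈ m ^ N, ∃ H : MvPolynomial (Fin 3) ℂ, H.totalDegree ≤ N ∧ r - aeval s H ∈ m ^ (N + 1) := by
  induction N with
  | zero =>
    intro r _
    obtain ⟨c, hc⟩ := h0 r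
    exact ⟨C c, (totalDegree_C c).le, by simpa using hc⟩
  | succ N ih =>
    intro r hr
    rw [pow_succ'] at hr
    refine Submodule.mul_induction_on hr (fun a ha b hb => ?_) fun a b ha hb => ?_
    · obtain ⟨H, hH, hb'⟩ := ih b hb
      obtain ⟨c, rfl⟩ := h1 a ha
      choose k hk using fun j => h0 (c j)
      refine ⟨∑ j, C (k j) * X j * H, (totalDegree_finsetSum _ _).trans (Finset.sup_le fun j _ => ?_), ?_⟩
      · refine (totalDegree_mul _ _).trans ?_
        have := totalDegree_mul (C (k j)) (X j : MvPolynomial (Fin 3) ℂ)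
        rw [totalDegree_C, totalDegree_X] at this
        omega
      · rw [map_sum, Finset.sum_mul, ← Finset.sum_sub_distrib]
        refine sum_mem fun j _ => ?_
        have e : c j * s j * b - aeval s (C (k j) * X j * H) =
            (c j - algebraMap ℂ A (k j)) * (s j * b) +
              algebraMap ℂ A (k j) * (s j * (b - aeval s H)) := by
          simp only [map_mul, aeval_C, aeval_X]
          ring
        rw [e]
        refine add_mem ?_ (Ideal.mul_mem_left _ _ ?_)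
        · rw [pow_succ', pow_succ']
          exact Ideal.mul_mem_mul (hk j) (Ideal.mul_mem_mul (hs j) hb)
        · rw [pow_succ']
          exact Ideal.mul_mem_mul (hs j) hb'
    · obtain ⟨H, hH, ha'⟩ := ha
      obtain ⟨H', hH', hb'⟩ := hb
      refine ⟨H + H', (totalDegree_add _ _).trans (max_le hH hH'), ?_⟩
      rw [map_add, add_sub_add_comm]
      exact add_mem ha' hb'

open MvPolynomial in
theorem WpA_aux_res {ι : Type} (O : Pt L) (v : ι → L) (hv : ∀ j, v j ∈ O.1)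
    (F : MvPolynomial ι ℂ) :
    aeval v F ∈ O.1 ∧ res O (aeval v F) = aeval (fun j => res O (v j)) F := by
  induction F using MvPolynomial.induction_on with
  | C c => exact ⟨by simp, by rw [aeval_C, aeval_C, res_const]⟩
  | add F G hF hG =>
    rw [map_add, map_add, res_add hF.1 hG.1, hF.2, hG.2]
    exact ⟨add_mem hF.1 hG.1, rfl⟩
  | mul_X F j hF =>
    rw [map_mul, map_mul, aeval_X, aeval_X, res_mul hF.1 (hv j), hF.2]
    exact ⟨mul_mem hF.1 (hv j), rfl⟩

open MvPolynomial in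
theorem WpA_aux_loc {z : Fin 3 → L} (hz : AlgebraicIndependent ℂ z) :
    ∃ O : Pt L, z 0 ∈ mx O ∧
      ∀ F : MvPolynomial (Fin 2) ℂ, F ≠ 0 → IsU O (aeval ![z 1, z 2] F) := by
  let ψ : MvPolynomial (Fin 3) ℂ →ₐ[ℂ] MvPolynomial (Fin 2) ℂ := aeval ![0, X 0, X 1]
  have hinj : Function.Injective (aeval z : MvPolynomial (Fin 3) ℂ →ₐ[ℂ] L) := hz
  have hne : ∀ b, ψ b ≠ 0 → aeval z b ≠ 0 := fun b hb h0 =>
    hb (by rw [hinj (h0.trans (map_zero _).symm), map_zero])
  let A : Subalgebra ℂ L :=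
    { carrier := {f | ∃ a b, ψ b ≠ 0 ∧ f = aeval z a / aeval z b}
      mul_mem' := by
        rintro _ _ ⟨a, b, hb, rfl⟩ ⟨a', b', hb', rfl⟩
        exact ⟨a * a', b * b', by rw [map_mul]; exact mul_ne_zero hb hb', by
          rw [map_mul, map_mul, div_mul_div_comm]⟩
      add_mem' := by
        rintro _ _ ⟨a, b, hb, rfl⟩ ⟨a', b', hb', rfl⟩
        exact ⟨a * b' + b * a', b * b', by rw [map_mul]; exact mul_ne_zero hb hb', by
          rw [map_add, map_mul, map_mul, map_mul, div_add_div _ _ (hne b hb) (hne b' hb')]⟩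
      algebraMap_mem' c := ⟨C c, 1, by simp, by simp⟩ }
  have hloc : IsLocalRing A := isLocal_of _ <| by
    rintro _ ⟨a, b, hb, rfl⟩
    by_cases ha : ψ a = 0
    · have h1 : ψ (b - a) ≠ 0 := by rwa [map_sub, ha, sub_zero]
      have e : 1 - aeval z a / aeval z b = aeval z (b - a) / aeval z b := by
        rw [map_sub, sub_div, div_self (hne b hb)]
      rw [e]
      exact Or.inr ⟨div_ne_zero (hne _ h1) (hne _ hb), b, b - a, h1, inv_div _ _⟩
    · exact Or.inl ⟨div_ne_zero (hne _ ha) (hne _ hb), b, a, ha, inv_div _ _⟩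
  refine ⟨⟨A, hloc⟩, mem_mx.2 ⟨⟨X 0, 1, by simp, by simp⟩, ?_⟩, fun F hF => ?_⟩
  · rintro ⟨h0, -, a, b, hb, e⟩
    have e2 : aeval z b = aeval z (X 0 * a) := by
      rw [map_mul, aeval_X]
      have := hne b hb
      field_simp at e
      linear_combination e
    exact hb (by rw [hinj e2]; simp [ψ])
  · have e1 : aeval ![z 1, z 2] F = aeval z (rename Fin.succ F) := by
      rw [aeval_rename]
      congr 2
      funext j
      fin_cases j <;> rfl
    have e2 : ψ (rename Fin.succ F) = F := by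
      rw [aeval_rename]
      have : (![0, X 0, X 1] : Fin 3 → MvPolynomial (Fin 2) ℂ) ∘ Fin.succ = X := by
        funext j
        fin_cases j <;> rfl
      rw [this, aeval_X_left_apply]
    have h1 : ψ (rename Fin.succ F) ≠ 0 := by rwa [e2]
    rw [e1]
    exact ⟨hne _ h1, ⟨rename Fin.succ F, 1, by simp, by simp⟩, 1, _, h1, by simp⟩

theorem WpA_aux_ind {Q : Fin 3 → EP L} (hQ : Gen3 Q) :
    AlgebraicIndependent ℂ ![xc (Q 0), xc (Q 1) / xc (Q 0), xc (Q 2) / xc (Q 0)] := by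
  have hb := hQ.ind.isTranscendenceBasis_of_trdeg_le_of_finite (by rw [hQ.trdeg]; simp)
  set z := ![xc (Q 0), xc (Q 1) / xc (Q 0), xc (Q 2) / xc (Q 0)] with hz
  have hm : ∀ j, z j ∈ Algebra.adjoin ℂ (Set.range z) := fun j => Algebra.subset_adjoin ⟨j, rfl⟩
  have hle : Algebra.adjoin ℂ (Set.range fun i => xc (Q i)) ≤ Algebra.adjoin ℂ (Set.range z) := by
    refine Algebra.adjoin_le ?_
    rintro _ ⟨j, rfl⟩
    fin_cases j
    · exact hm 0
    · have := mul_mem (hm 1) (hm 0)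
      rwa [show z 1 * z 0 = xc (Q 1) from div_mul_cancel₀ _ (hQ.xc_ne 0)] at this
    · have := mul_mem (hm 2) (hm 0)
      rwa [show z 2 * z 0 = xc (Q 2) from div_mul_cancel₀ _ (hQ.xc_ne 0)] at this
  have : Algebra.IsAlgebraic (Algebra.adjoin ℂ (Set.range z)) L :=
    ⟨fun f => (hb.isAlgebraic.isAlgebraic f).tower_top_of_subalgebra_le hle⟩
  exact (Algebra.IsAlgebraic.isTranscendenceBasis_of_le_trdeg_of_finite ℂ z
    (by rw [hQ.trdeg]; simp)).1

open MvPolynomial in
theorem WpA_aux_val {Q : Fin 3 → EP L} (hQ : Gen3 Q) :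
    ∃ (W : ValuationSubring L) (hW : ∀ c : ℂ, algebraMap ℂ L c ∈ W),
      (∀ i, yc (Q i) - 1 ∈ mx (vpt W hW)) ∧ ∀ F : MvPolynomial (Fin 2) ℂ, F ≠ 0 →
        IsU (vpt W hW) (aeval ![xc (Q 1) / xc (Q 0), xc (Q 2) / xc (Q 0)] F) := by
  classical
  obtain ⟨O, h0, hU⟩ := WpA_aux_loc (WpA_aux_ind hQ)
  obtain ⟨V, hV, hd⟩ := exists_val_dom O
  have hx : ∀ i, xc (Q i) ∈ mx (vpt V hV) := fun i => by
    have h0' : xc (Q 0) ∈ mx (vpt V hV) := hd.2 h0
    fin_cases i
    · exact h0'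
    · have h1 : xc (Q 1) / xc (Q 0) ∈ O.1 := by simpa using (hU (X 0) (X_ne_zero _)).2.1
      have := mx_mul_left (hd.1 h1) h0'
      rwa [div_mul_cancel₀ _ (hQ.xc_ne 0)] at this
    · have h1 : xc (Q 2) / xc (Q 0) ∈ O.1 := by simpa using (hU (X 1) (X_ne_zero _)).2.1
      have := mx_mul_left (hd.1 h1) h0'
      rwa [div_mul_cancel₀ _ (hQ.xc_ne 0)] at this
  have hy : ∀ i, yc (Q i) - 1 ∈ mx (vpt V hV) ∨ yc (Q i) + 1 ∈ mx (vpt V hV) := fun i => by
    have e := eqn_of_ne (hQ.ne i)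
    have h3 : xc (Q i) ^ 3 ∈ mx (vpt V hV) := by
      rw [pow_succ]
      exact mx_mul_left (pow_mem (mx_sub (hx i)) 2) (hx i)
    have hy : yc (Q i) ∈ (vpt V hV).1 := by
      refine (V.mem_or_inv_mem (yc (Q i))).elim id fun h => ?_
      have : yc (Q i) ^ 2 * (yc (Q i))⁻¹ ∈ (vpt V hV).1 :=
        mul_mem (e ▸ add_mem (mx_sub h3) (one_mem _)) h
      rwa [pow_two, mul_inv_cancel_right₀ (hQ.yc_ne i)] at this
    refine mx_prime (sub_mem hy (one_mem _)) (add_mem hy (one_mem _)) ?_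
    rwa [show (yc (Q i) - 1) * (yc (Q i) + 1) = xc (Q i) ^ 3 by linear_combination e]
  let Q' : Fin 3 → EP L := fun i => if yc (Q i) - 1 ∈ mx (vpt V hV) then Q i else -Q i
  have ex : ∀ i, xc (Q' i) = xc (Q i) := fun i => by
    simp only [Q']
    split_ifs
    exacts [rfl, xc_neg _]
  have ey : ∀ i, yc (Q' i) - 1 ∈ mx (vpt V hV) ∧ (yc (Q i) = yc (Q' i) ∨ yc (Q i) = -yc (Q' i)) :=
    fun i => by
      simp only [Q']
      split_ifs with h
      · exact ⟨h, Or.inl rfl⟩
      · refine ⟨?_, Or.inr (by simp)⟩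
        have := mx_neg ((hy i).resolve_left h)
        rwa [neg_add, ← yc_neg, ← sub_eq_add_neg] at this
  have hQ' : Gen3 Q' := by
    refine ⟨fun i h => hQ.xc_ne i (by rw [← ex, h, xc_zero]), by simpa only [ex] using hQ.ind, ?_⟩
    rw [eq_top_iff, ← hQ.gen, IntermediateField.adjoin_le_iff]
    rintro _ (⟨i, rfl⟩ | ⟨i, rfl⟩)
    · exact IntermediateField.subset_adjoin _ _ (Or.inl ⟨i, ex i⟩)
    · have := IntermediateField.subset_adjoin ℂ
        (Set.range (fun i => xc (Q' i)) ∪ Set.range fun i => yc (Q' i)) (Or.inr ⟨i, rfl⟩)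
      show yc (Q i) ∈ _
      rcases (ey i).2 with e | e <;> rw [e]
      exacts [this, neg_mem this]
  obtain ⟨γ, hγ⟩ := hQ.exists_aut hQ'
  have gx : ∀ i, γ (xc (Q i)) = xc (Q i) := fun i => by
    conv_rhs => rw [← ex, ← hγ, xc_emap]
    rfl
  have gy : ∀ i, γ (yc (Q i)) = yc (Q' i) := fun i => by
    rw [← hγ, yc_emap]
    rfl
  obtain ⟨W, hW, hd'⟩ := exists_val_dom (mapPt γ.symm (vpt V hV))
  refine ⟨W, hW, fun i => hd'.2 (mem_mx_mapPt.2 ?_), fun F hF => IsU.mono hd'.1 (isU_mapPt.2 ?_)⟩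
  · rw [AlgEquiv.symm_symm, map_sub, map_one, gy]
    exact (ey i).1
  · have e := comp_aeval_apply ![xc (Q 1) / xc (Q 0), xc (Q 2) / xc (Q 0)] (γ : L →ₐ[ℂ] L) F
    have e2 : (fun i => (γ : L →ₐ[ℂ] L) (![xc (Q 1) / xc (Q 0), xc (Q 2) / xc (Q 0)] i)) =
        ![xc (Q 1) / xc (Q 0), xc (Q 2) / xc (Q 0)] := by
      funext j
      fin_cases j <;> simp [gx]
    rw [e2] at e
    rw [AlgEquiv.symm_symm, show γ _ = _ from e]
    exact (hU F hF).mono hd.1

/-- Every element of the chart is `r / s i ^ N` with `r` in the `N`-th power of the maximal ideal. -/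
theorem mem_Bl_iff (hP : Gen3 P) (hO : Op ∈ cubeP P) (h : Over Op P p) (i : Fin 3) (g : L) :
    g ∈ Bl Op P p i ↔ ∃ (N : ℕ) (r : Op.1), r ∈ IsLocalRing.maximalIdeal Op.1 ^ N ∧
      g = r / sc (sh P p i) ^ N := by
  refine ⟨fun hg => ?_, ?_⟩
  · have hs := (h.sc_mem (cube_intg hO) i).1
    have h0 := WpA_aux_sc_ne hP p i
    let s : Op.1 := ⟨_, mx_sub hs⟩
    have hs' : s ∈ IsLocalRing.maximalIdeal Op.1 := coe_mem_mx.1 hs
    induction hg using Algebra.adjoin_induction with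
    | mem g hg =>
      rcases hg with hg | ⟨j, rfl⟩
      · exact ⟨0, ⟨g, hg⟩, by simp, by simp⟩
      · have hj := (h.sc_mem (cube_intg hO) j).1
        exact ⟨1, ⟨_, mx_sub hj⟩, by rw [pow_one]; exact coe_mem_mx.1 hj, by rw [pow_one]; rfl⟩
    | algebraMap c => exact ⟨0, ⟨_, Op.1.algebraMap_mem c⟩, by simp, by simp⟩
    | add f g _ _ hf hg =>
      obtain ⟨N, r, hr, rfl⟩ := hf
      obtain ⟨N', r', hr', rfl⟩ := hg
      refine ⟨N + N', r * s ^ N' + s ^ N * r', ?_, ?_⟩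
      · rw [pow_add]
        exact add_mem (Ideal.mul_mem_mul hr (Ideal.pow_mem_pow hs' _))
          (Ideal.mul_mem_mul (Ideal.pow_mem_pow hs' _) hr')
      · rw [div_add_div _ _ (pow_ne_zero _ h0) (pow_ne_zero _ h0), pow_add]
        rfl
    | mul f g _ _ hf hg =>
      obtain ⟨N, r, hr, rfl⟩ := hf
      obtain ⟨N', r', hr', rfl⟩ := hg
      refine ⟨N + N', r * r', ?_, ?_⟩
      · rw [pow_add]
        exact Ideal.mul_mem_mul hr hr'
      · rw [div_mul_div_comm, pow_add]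
        rfl
  · rintro ⟨N, r, hr, rfl⟩
    exact WpA_aux_div hO h i N r hr

/-- Taylor expansion. -/
theorem taylor (hP : Gen3 P) (hO : Op ∈ cubeP P) (h : Over Op P p) (r : Op.1) (N : ℕ) :
    ∃ (G : MvPolynomial (Fin 3) ℂ) (r' : Op.1), (G = 0 ∨ G.totalDegree < N) ∧
      r' ∈ IsLocalRing.maximalIdeal Op.1 ^ N ∧
      (r : L) = MvPolynomial.aeval (fun j => sc (sh P p j)) G + r' := by
  have _ := hP
  have hs := fun j => (h.sc_mem (cube_intg hO) j).1
  let s : Fin 3 → Op.1 := fun j => ⟨_, mx_sub (hs j)⟩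
  have key := WpA_aux_lead (IsLocalRing.maximalIdeal Op.1) s (fun j => coe_mem_mx.1 (hs j))
    (fun r => by
      obtain ⟨c, hc⟩ := over_const hO h r.2
      exact ⟨c, coe_mem_mx.1 hc⟩)
    (fun r hr => by
      obtain ⟨a, ha, e⟩ := over_gen hO h (coe_mem_mx.2 hr)
      refine ⟨fun j => ⟨a j, ha j⟩, Subtype.ext ?_⟩
      rw [e, AddSubmonoidClass.coe_finsetSum]
      rfl)
  induction N with
  | zero => exact ⟨0, r, Or.inl rfl, by simp, by simp⟩
  | succ N ih =>
    obtain ⟨G, r', hG, hr', e⟩ := ih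
    obtain ⟨H, hH, hr⟩ := key N r' hr'
    refine ⟨G + H, _, Or.inr ?_, hr, ?_⟩
    · refine (MvPolynomial.totalDegree_add _ _).trans_lt (max_lt ?_ (by omega))
      rcases hG with rfl | hG
      · simp
      · omega
    · have e2 : MvPolynomial.aeval (fun j => sc (sh P p j)) H =
          ((MvPolynomial.aeval s H : Op.1) : L) := (MvPolynomial.comp_aeval_apply s Op.1.val H).symm
      rw [e, map_add, e2, AddSubgroupClass.coe_sub]
      ring

/-- A valuation ring in which `s 0` is a non-unit and the residues of `s 1 / s 0`, `s 2 / s 0` are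
algebraically independent, centred at `p`. Put `P' = sh P p + T`, `x' i = -2 s i / (1 + t i)`.
The elements `x' 0, x' 1 / x' 0, x' 2 / x' 0` are algebraically independent; localise the
polynomial ring they generate at `x' 0` and take a dominating valuation ring `V` of `L`. Then
`y' i ≡ ± 1`; move `V` by the automorphism `P' i ↦ ± P' i` (`exists_aut`), which fixes the `x' i`,
to get `y' i ≡ 1`, that is `Over V P p`; the centre on the cube is `Op` (`over_unique`). -/
theorem exists_W0 (hP : Gen3 P) (hO : Op ∈ cubeP P) (h : Over Op P p) :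
    ∃ (W : ValuationSubring L) (hW : ∀ c : ℂ, algebraMap ℂ L c ∈ W), Dom Op (vpt W hW) ∧
      (∀ j, ur P p 0 j ∈ W) ∧
      AlgebraicIndependent ℂ ![res (vpt W hW) (ur P p 0 1), res (vpt W hW) (ur P p 0 2)] := by
  have hS := hP.shift p
  have hQ := hS.add_tors fun _ => 1
  obtain ⟨W, hW, hy, hU⟩ := WpA_aux_val hQ
  have hb : ∀ i, yc (sh P p i) + 1 ≠ 0 := fun i h0 => hQ.ne i (by
    show sh P p i + tors L 1 = 0
    rw [tors_one, ← pt_xc_yc (hS.ne i)]
    exact pt_add_tT_eq_zero _ _ _ h0)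
  have hc : ∀ i, xc (sh P p i + tors L 1) = -2 * xc (sh P p i) / (yc (sh P p i) + 1) ∧
      yc (sh P p i + tors L 1) = (yc (sh P p i) - 3) / (yc (sh P p i) + 1) := fun i => by
    obtain ⟨h', e⟩ := pt_add_tT _ _ (eqn_of_ne (hS.ne i)) (hb i)
    rw [pt_xc_yc (hS.ne i)] at e
    rw [tors_one, e]
    exact ⟨rfl, rfl⟩
  have hov : Over (vpt W hW) P p := fun i hi => by
    have h1 := mx_mul_left (add_mem hi (one_mem _)) (hy i)
    have e : (yc (sh P p i) + 1) * (yc (sh P p i + tors L 1) - 1) = algebraMap ℂ L (-4) := by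
      rw [(hc i).2, map_neg, map_ofNat, mul_sub, mul_div_cancel₀ _ (hb i)]
      ring
    rw [e] at h1
    exact (isU_const _ (by norm_num)).not_mx h1
  obtain ⟨O, hO', hd⟩ := cube_centre (P := P) fun i => intg_val W hW (P i)
  obtain rfl : O = Op := over_unique hO' hO ((over_dom (cube_intg hO') hd p).2 hov) h
  have ht : ∀ i, IsU (vpt W hW) (1 + tc (sh P p i)) ∧ res (vpt W hW) (1 + tc (sh P p i)) = 1 :=
    fun i => by
      have h1 := (hov.sc_mem (fun i => intg_val W hW (P i)) i).2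
      exact ⟨(isU_one _).add_mx h1, by
        rw [res_add (one_mem _) (mx_sub h1), res_one, (res_eq_zero (mx_sub h1)).2 h1, add_zero]⟩
  have hu : ∀ j, ur P p 0 j = xc (sh P p j + tors L 1) / xc (sh P p 0 + tors L 1) *
      ((1 + tc (sh P p j)) / (1 + tc (sh P p 0))) := fun j => by
    have := charZero_of L
    have h1 := hS.xc_ne 0
    have h2 := hS.yc_ne 0
    have h3 := hS.yc_ne j
    have h4 := hb 0
    have h5 := hb j
    rw [(hc j).1, (hc 0).1, ur, sc, sc, tc, tc]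
    field_simp
  have hz : ∀ j, xc (sh P p j + tors L 1) / xc (sh P p 0 + tors L 1) ∈ (vpt W hW).1 := fun j => by
    fin_cases j
    · exact (div_self (hQ.xc_ne 0)).symm ▸ one_mem _
    · simpa using (hU (MvPolynomial.X 0) (MvPolynomial.X_ne_zero _)).2.1
    · simpa using (hU (MvPolynomial.X 1) (MvPolynomial.X_ne_zero _)).2.1
  have hr : ∀ j, res (vpt W hW) (ur P p 0 j) =
      res (vpt W hW) (xc (sh P p j + tors L 1) / xc (sh P p 0 + tors L 1)) := fun j => by
    rw [hu, res_mul (hz j) ((ht j).1.div (ht 0).1).2.1, res_div (ht j).1.2.1 (ht 0).1, (ht j).2,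
      (ht 0).2, div_one, mul_one]
  refine ⟨W, hW, hd, fun j => ?_, algebraicIndependent_iff.2 fun F hF => by_contra fun h0 => ?_⟩
  · rw [hu]
    exact mul_mem (hz j) ((ht j).1.div (ht 0).1).2.1
  · refine (hU F h0).res_ne ?_
    rw [(WpA_aux_res _ _ (fun j => by fin_cases j; exacts [hz 1, hz 2]) F).2, ← hF]
    congr 2
    funext j
    fin_cases j
    exacts [(hr 1).symm, (hr 2).symm]

end Pool.Agent.MP_95da86_ag

end

section

/-! The valuation of an exceptional plane. -/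

namespace Pool.Agent.MP_95da86_ag

variable {L : Type} [Field L] [Algebra ℂ L] {P : Fin 3 → EP L} {Op : Pt L} {p : F3}

open MvPolynomial in
theorem Wp_aux_hom {A : Type} [CommRing A] [Algebra ℂ A] {H : MvPolynomial (Fin 3) ℂ} {d : ℕ}
    (hH : H.IsHomogeneous d) (c : A) (u : Fin 3 → A) :
    aeval (fun j => c * u j) H = c ^ d * aeval u H := by
  rw [aeval_def, aeval_def, eval₂_eq, eval₂_eq, Finset.mul_sum]
  refine Finset.sum_congr rfl fun m hm => ?_
  rw [hH.degree_eq_sum_deg_support hm, ← Finset.prod_pow_eq_pow_sum]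
  simp only [mul_pow, Finset.prod_mul_distrib]
  ring

open MvPolynomial in
theorem Wp_aux_res (O : Pt L) {u : Fin 3 → L} (hu : ∀ j, u j ∈ O.1) (H : MvPolynomial (Fin 3) ℂ) :
    aeval u H ∈ O.1 ∧ res O (aeval u H) = aeval (fun j => res O (u j)) H := by
  induction H using MvPolynomial.induction_on with
  | C a =>
    rw [aeval_C, aeval_C]
    exact ⟨O.1.algebraMap_mem a, res_const O a⟩
  | add f g hf hg =>
    rw [map_add, map_add]
    exact ⟨add_mem hf.1 hg.1, by rw [res_add hf.1 hg.1, hf.2, hg.2]⟩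
  | mul_X f j hf =>
    rw [map_mul, map_mul, aeval_X, aeval_X]
    exact ⟨mul_mem hf.1 (hu j), by rw [res_mul hf.1 (hu j), hf.2]⟩

theorem Wp_aux_res1 (O : Pt L) {u : L} (hu : u ∈ O.1) (q : Polynomial ℂ) :
    Polynomial.aeval u q ∈ O.1 ∧ res O (Polynomial.aeval u q) = Polynomial.aeval (res O u) q := by
  induction q using Polynomial.induction_on with
  | C a =>
    rw [Polynomial.aeval_C, Polynomial.aeval_C]
    exact ⟨O.1.algebraMap_mem a, res_const O a⟩
  | add f g hf hg =>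
    rw [map_add, map_add]
    exact ⟨add_mem hf.1 hg.1, by rw [res_add hf.1 hg.1, hf.2, hg.2]⟩
  | monomial n a hf =>
    rw [pow_succ, ← mul_assoc, map_mul _ _ Polynomial.X, map_mul _ _ Polynomial.X,
      Polynomial.aeval_X, Polynomial.aeval_X]
    exact ⟨mul_mem hf.1 hu, by rw [res_mul hf.1 hu, hf.2]⟩

open MvPolynomial in
theorem Wp_aux_ne {A : Type} [CommRing A] [Algebra ℂ A] {a b : A}
    (hab : AlgebraicIndependent ℂ ![a, b]) {H : MvPolynomial (Fin 3) ℂ} {d : ℕ}
    (hH : H.IsHomogeneous d) (h0 : H ≠ 0) : aeval ![1, a, b] H ≠ 0 := by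
  intro h
  have key : ∀ {B : Type} [CommRing B] [Algebra ℂ B] (x y : B),
      aeval ![x, y] (aeval (![1, X 0, X 1] : Fin 3 → MvPolynomial (Fin 2) ℂ) H) =
        aeval ![1, x, y] H := by
    intro B _ _ x y
    rw [← AlgHom.comp_apply, comp_aeval]
    congr 2
    ext j
    fin_cases j <;> simp
  have h1 : aeval (![1, X 0, X 1] : Fin 3 → MvPolynomial (Fin 2) ℂ) H = 0 :=
    hab (by rw [key, h, map_zero])
  have h2 : X 0 * H = 0 := by
    refine MvPolynomial.funext fun z => ?_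
    rw [map_mul, eval_X, map_zero]
    by_cases hz : z 0 = 0
    · rw [hz, zero_mul]
    · have e : z = fun j => z 0 * (![1, z 1 / z 0, z 2 / z 0] : Fin 3 → ℂ) j := by
        ext j
        fin_cases j <;> simp <;> field_simp
      have e2 : eval z H = aeval z H := rfl
      rw [e2, e, Wp_aux_hom hH, ← key, h1]
      simp
  exact h0 ((mul_eq_zero.1 h2).resolve_left (X_ne_zero 0))

theorem Wp_aux_s_ne (hP : Gen3 P) (p : F3) (i : Fin 3) : sc (sh P p i) ≠ 0 :=
  div_ne_zero ((hP.shift p).xc_ne i) ((hP.shift p).yc_ne i)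

theorem Wp_aux_s_mx (hO : Op ∈ cubeP P) (h : Over Op P p) (i : Fin 3) : sc (sh P p i) ∈ mx Op :=
  (Over.sc_mem (cube_intg hO) h i).1

theorem Wp_aux_Bl_le {W : Pt L} (hle : Op.1 ≤ W.1) {i : Fin 3} (hu : ∀ j, ur P p i j ∈ W.1) :
    Bl Op P p i ≤ W.1 :=
  Algebra.adjoin_le (Set.union_subset hle (Set.range_subset_iff.2 hu))

theorem Wp_aux_Op_le (i : Fin 3) : Op.1 ≤ Bl Op P p i :=
  fun _ hf => Algebra.subset_adjoin (Or.inl hf)

theorem Wp_aux_ur_mem (i j : Fin 3) : ur P p i j ∈ Bl Op P p i :=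
  Algebra.subset_adjoin (Or.inr ⟨j, rfl⟩)

theorem Wp_aux_pow_mx {W : Pt L} {s f : L} (hs : s ∈ mx W) (h0 : s ≠ 0) {d N : ℕ} (hd : d < N)
    (hf : f / s ^ N ∈ W.1) : f / s ^ d ∈ mx W := by
  obtain ⟨e, rfl⟩ := Nat.exists_eq_add_of_lt hd
  have : f / s ^ d = f / s ^ (d + e + 1) * s ^ e * s := by field_simp; ring
  rw [this]
  exact mx_mul_left (mul_mem hf (pow_mem (mx_sub hs) e)) hs

open MvPolynomial in
theorem Wp_aux_init (hP : Gen3 P) (hO : Op ∈ cubeP P) (h : Over Op P p) {W : Pt L} (hd : Dom Op W)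
    (hu : ∀ j, ur P p 0 j ∈ W.1)
    (hi : AlgebraicIndependent ℂ ![res W (ur P p 0 1), res W (ur P p 0 2)])
    {G : MvPolynomial (Fin 3) ℂ} (hG : G ≠ 0) :
    ∃ d ≤ G.totalDegree, IsU W (aeval (fun j => sc (sh P p j)) G / sc (sh P p 0) ^ d) := by
  classical
  have h0 := Wp_aux_s_ne hP p 0
  have hm := hd.2 (Wp_aux_s_mx hO h 0)
  have hex : ∃ d, homogeneousComponent d G ≠ 0 := by
    by_contra hc
    push Not at hc
    exact hG (by rw [← sum_homogeneousComponent G]; simp [hc])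
  have hdle : Nat.find hex ≤ G.totalDegree := by
    by_contra hc
    exact Nat.find_spec hex (homogeneousComponent_eq_zero _ _ (not_le.1 hc))
  refine ⟨Nat.find hex, hdle, ?_⟩
  have es : (fun j => sc (sh P p j)) = fun j => sc (sh P p 0) * ur P p 0 j := by
    ext j
    rw [ur]
    field_simp
  have ec : ∀ e, aeval (fun j => sc (sh P p j)) (homogeneousComponent e G) / sc (sh P p 0) ^ e =
      aeval (ur P p 0) (homogeneousComponent e G) := by
    intro e
    rw [es, Wp_aux_hom (homogeneousComponent_isHomogeneous e G)]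
    exact mul_div_cancel_left₀ _ (pow_ne_zero _ h0)
  have hmem : Nat.find hex ∈ Finset.range (G.totalDegree + 1) :=
    Finset.mem_range.2 (Nat.lt_succ_of_le hdle)
  conv => enter [2, 1, 2]; rw [← sum_homogeneousComponent G]
  rw [map_sum, Finset.sum_div, ← Finset.add_sum_erase _ _ hmem]
  refine IsU.add_mx ?_ ?_
  · rw [ec]
    have hr := Wp_aux_res W hu (homogeneousComponent (Nat.find hex) G)
    refine isU_of_not_mx hr.1 fun hc => ?_
    rw [← res_eq_zero hr.1, hr.2] at hc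
    have e1 : (fun j => res W (ur P p 0 j)) = ![1, res W (ur P p 0 1), res W (ur P p 0 2)] := by
      ext j
      fin_cases j
      · simp [ur, div_self h0, res_one]
      · rfl
      · rfl
    rw [e1] at hc
    exact Wp_aux_ne hi (homogeneousComponent_isHomogeneous _ G) (Nat.find_spec hex) hc
  · refine Finset.sum_induction _ (· ∈ mx W) (fun _ _ => mx_add) (zero_mem_mx W) fun e he => ?_
    rcases lt_or_gt_of_ne (Finset.ne_of_mem_erase he) with hlt | hlt
    · have : homogeneousComponent e G = 0 := not_not.1 (Nat.find_min hex hlt)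
      rw [this, map_zero, zero_div]
      exact zero_mem_mx W
    · refine Wp_aux_pow_mx hm h0 hlt ?_
      rw [ec]
      exact (Wp_aux_res W hu _).1

theorem Wp_aux_div_mem (hP : Gen3 P) (hO : Op ∈ cubeP P) (h : Over Op P p) (i : Fin 3) {N : ℕ}
    {r : Op.1} (hr : r ∈ IsLocalRing.maximalIdeal Op.1 ^ N) :
    (r : L) / sc (sh P p i) ^ N ∈ Bl Op P p i :=
  (mem_Bl_iff hP hO h i _).2 ⟨N, r, hr, rfl⟩

open MvPolynomial in
theorem Wp_aux_sep (hP : Gen3 P) (hO : Op ∈ cubeP P) (h : Over Op P p) {W : Pt L} (hd : Dom Op W)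
    (hu : ∀ j, ur P p 0 j ∈ W.1)
    (hi : AlgebraicIndependent ℂ ![res W (ur P p 0 1), res W (ur P p 0 2)])
    {r : Op.1} (hr : ∀ N, r ∈ IsLocalRing.maximalIdeal Op.1 ^ N) : r = 0 := by
  by_contra h0
  have hind : AlgebraicIndependent ℂ fun j => sc (sh P p j) := by
    rw [algebraicIndependent_iff]
    intro G hG
    by_contra hne
    obtain ⟨d, -, hd'⟩ := Wp_aux_init hP hO h hd hu hi hne
    exact hd'.1 (by rw [hG, zero_div])
  have hb := hind.isTranscendenceBasis_of_trdeg_le_of_finite (by rw [hP.trdeg]; simp)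
  have halg := hb.isAlgebraic.isAlgebraic (r : L)
  obtain ⟨t, ht, c, hc, e⟩ := halg.exists_nonzero_eq_adjoin_mul
    (mem_nonZeroDivisors_of_ne_zero fun h1 => h0 (Subtype.ext h1))
  have hle : Algebra.adjoin ℂ (Set.range fun j => sc (sh P p j)) ≤ Op.1 :=
    Algebra.adjoin_le (Set.range_subset_iff.2 fun j => mx_sub (Wp_aux_s_mx hO h j))
  have htO : t ∈ Op.1 := by
    refine Algebra.adjoin_induction (p := fun x _ => x ∈ Op.1) ?_ ?_ ?_ ?_ ht
    · rintro _ rfl
      exact r.2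
    · exact fun x => hle x.2
    · exact fun _ _ _ _ => add_mem
    · exact fun _ _ _ _ => mul_mem
  obtain ⟨c, hc'⟩ := c
  have hc2 := hc'
  rw [Algebra.adjoin_range_eq_range_aeval] at hc2
  obtain ⟨G, rfl⟩ := hc2
  have hG : G ≠ 0 := fun hG => hc (Subtype.ext (by simp [hG]))
  obtain ⟨d, -, hd'⟩ := Wp_aux_init hP hO h hd hu hi hG
  refine hd'.not_mx (Wp_aux_pow_mx (hd.2 (Wp_aux_s_mx hO h 0)) (Wp_aux_s_ne hP p 0)
    (Nat.lt_succ_self d) ?_)
  have := Wp_aux_div_mem hP hO h 0 (Ideal.mul_mem_right ⟨t, htO⟩ _ (hr (d + 1)))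
  have e' : ((r * ⟨t, htO⟩ : Op.1) : L) = aeval (fun j => sc (sh P p j)) G := e
  rw [e'] at this
  exact Wp_aux_Bl_le hd.1 hu this

theorem Wp_aux_unit (hP : Gen3 P) (hO : Op ∈ cubeP P) (h : Over Op P p) {W : Pt L} (hd : Dom Op W)
    (hu : ∀ j, ur P p 0 j ∈ W.1)
    (hi : AlgebraicIndependent ℂ ![res W (ur P p 0 1), res W (ur P p 0 2)])
    {r : Op.1} (hr : r ≠ 0) :
    ∃ n : ℕ, r ∈ IsLocalRing.maximalIdeal Op.1 ^ n ∧ IsU W (r / sc (sh P p 0) ^ n) := by
  classical
  have h0 := Wp_aux_s_ne hP p 0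
  have hm := hd.2 (Wp_aux_s_mx hO h 0)
  have hex : ∃ N, r ∉ IsLocalRing.maximalIdeal Op.1 ^ N := by
    by_contra hc
    push Not at hc
    exact hr (Wp_aux_sep hP hO h hd hu hi hc)
  have hpos : Nat.find hex ≠ 0 := fun hz => Nat.find_spec hex (by rw [hz]; simp)
  obtain ⟨n, hn⟩ := Nat.exists_eq_succ_of_ne_zero hpos
  have h1 : r ∈ IsLocalRing.maximalIdeal Op.1 ^ n :=
    not_not.1 (Nat.find_min hex (by omega))
  have h2 : r ∉ IsLocalRing.maximalIdeal Op.1 ^ (n + 1) := by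
    have := Nat.find_spec hex
    rwa [hn] at this
  refine ⟨n, h1, ?_⟩
  obtain ⟨G, r', hG, hr', e⟩ := taylor hP hO h r (n + 1)
  have hG0 : G ≠ 0 := by
    rintro rfl
    rw [map_zero, zero_add] at e
    exact h2 (by rw [Subtype.ext e]; exact hr')
  obtain ⟨d, hdle, hd'⟩ := Wp_aux_init hP hO h hd hu hi hG0
  have hlt := hG.resolve_left hG0
  have hU : IsU W (r / sc (sh P p 0) ^ d) := by
    rw [e, add_div]
    exact hd'.add_mx (Wp_aux_pow_mx hm h0 (hdle.trans_lt hlt)
      (Wp_aux_Bl_le hd.1 hu (Wp_aux_div_mem hP hO h 0 hr')))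
  rcases (show d < n ∨ d = n by omega) with hdn | rfl
  · exact absurd (Wp_aux_pow_mx hm h0 hdn (Wp_aux_Bl_le hd.1 hu (Wp_aux_div_mem hP hO h 0 h1)))
      hU.not_mx
  · exact hU

theorem Wp_aux_frac (hP : Gen3 P) (hO : Op ∈ cubeP P) (h : Over Op P p) (f : L) :
    ∃ a b : Op.1, f = a / b := by
  have h1 : IntermediateField.adjoin ℂ (Op.1 : Set L) = ⊤ := by
    rw [eq_top_iff, ← (hP.shift p).gen, IntermediateField.adjoin_le_iff]
    have hs : ∀ i, sc (sh P p i) ∈ IntermediateField.adjoin ℂ (Op.1 : Set L) := fun i =>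
      IntermediateField.subset_adjoin _ _ (mx_sub (Over.sc_mem (cube_intg hO) h i).1)
    have ht : ∀ i, yc (sh P p i) ∈ IntermediateField.adjoin ℂ (Op.1 : Set L) := fun i => by
      have := inv_mem (IntermediateField.subset_adjoin ℂ (Op.1 : Set L)
        (mx_sub (Over.sc_mem (cube_intg hO) h i).2))
      rwa [tc, inv_inv] at this
    rintro _ (⟨i, rfl⟩ | ⟨i, rfl⟩)
    · have := mul_mem (hs i) (ht i)
      rwa [sc, div_mul_cancel₀ _ ((hP.shift p).yc_ne i)] at this
    · exact ht i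
  have h2 : f ∈ IntermediateField.adjoin ℂ (Op.1 : Set L) := h1 ▸ IntermediateField.mem_top
  obtain ⟨a, ha, b, hb, e⟩ := IntermediateField.mem_adjoin_iff_div.1 h2
  rw [Algebra.adjoin_eq] at ha hb
  exact ⟨⟨a, ha⟩, ⟨b, hb⟩, e⟩

theorem Wp_aux_uU (hP : Gen3 P) {W : Pt L} (hu : ∀ j, ur P p 0 j ∈ W.1)
    (hi : AlgebraicIndependent ℂ ![res W (ur P p 0 1), res W (ur P p 0 2)]) (j : Fin 3) :
    IsU W (ur P p 0 j) := by
  refine isU_of_not_mx (hu j) fun hc => ?_
  rw [← res_eq_zero (hu j)] at hc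
  fin_cases j
  · simp [ur, div_self (Wp_aux_s_ne hP p 0), res_one] at hc
  · exact hi.ne_zero 0 hc
  · exact hi.ne_zero 1 hc

/-- With `taylor`: a non-zero `r ∈ Op` is `s 0 ^ n` times a unit of `W` lying in `Bl 0`, where
`n` is the degree of its initial form (an `r` in all powers of the maximal ideal would divide a
non-zero polynomial in the `s j`, being algebraic over them). Use `dvr_of_unif`. -/
theorem exists_W (hP : Gen3 P) (hO : Op ∈ cubeP P) (h : Over Op P p) :
    ∃ (W : ValuationSubring L) (hW : ∀ c : ℂ, algebraMap ℂ L c ∈ W),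
      IsDiscreteValuationRing W ∧ Dom Op (vpt W hW) ∧ (∀ i, ord W (sc (sh P p i)) = 1) ∧
      (∀ i, vpt W hW ∈ spec (Bl Op P p i)) ∧
      (∀ (N : ℕ) (r : Op.1), (N : ℤ) ≤ ord W r → r ∈ IsLocalRing.maximalIdeal Op.1 ^ N) ∧
      (∀ i, ∀ O ∈ spec (Bl Op P p i), mx Op ⊆ mx O → ∀ g ∈ O.1, g ∈ W) ∧
      AlgebraicIndependent ℂ ![res (vpt W hW) (ur P p 0 1), res (vpt W hW) (ur P p 0 2)] := by
  obtain ⟨W, hW, hd, hu, hi⟩ := exists_W0 hP hO h
  have h0 := Wp_aux_s_ne hP p
  have hm := hd.2 (Wp_aux_s_mx hO h 0)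
  have huU := Wp_aux_uU (W := vpt W hW) hP hu hi
  have hunit := fun (r : Op.1) (hr : r ≠ 0) => Wp_aux_unit hP hO h hd hu hi hr
  obtain ⟨hdvr, hord⟩ := dvr_of_unif W (sc (sh P p 0)) (h0 0) (mem_mx_vpt.1 hm) fun f hf => by
    obtain ⟨a, b, rfl⟩ := Wp_aux_frac hP hO h f
    have ha : a ≠ 0 := fun e => hf (by simp [e])
    have hb : b ≠ 0 := fun e => hf (by simp [e])
    obtain ⟨n, -, hn⟩ := hunit a ha
    obtain ⟨k, -, hk⟩ := hunit b hb
    have hq := hn.div hk
    have e : (a : L) / sc (sh P p 0) ^ n / (b / sc (sh P p 0) ^ k) =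
        a / b / sc (sh P p 0) ^ ((n : ℤ) - k) := by
      rw [zpow_sub₀ (h0 0), zpow_natCast, zpow_natCast]
      have := h0 0
      field_simp
    rw [e] at hq
    exact ⟨(n : ℤ) - k, hq.2.1, by rw [← inv_div]; exact hq.2.2⟩
  have hordU : ∀ f, IsU (vpt W hW) f → ord W f = 0 := fun f hf =>
    (ord_eq_zero_iff W f).2 ⟨hf.2.1, hf.2.2⟩
  have hs : ∀ i, ord W (sc (sh P p i)) = 1 := fun i => by
    have := hordU _ (huU i)
    rw [ur, ord_div W (h0 i) (h0 0), hord] at this
    omega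
  have hdiv : ∀ (i : Fin 3) (f : L) (n : ℕ), f ≠ 0 → ord W (f / sc (sh P p i) ^ n) = ord W f - n :=
    fun i f n hf => by rw [ord_div W hf (pow_ne_zero _ (h0 i)), ord_pow, hs, mul_one]
  have hpow : ∀ (N : ℕ) (r : Op.1), (N : ℤ) ≤ ord W r →
      r ∈ IsLocalRing.maximalIdeal Op.1 ^ N := fun N r hN => by
    by_cases hr : r = 0
    · rw [hr]
      exact zero_mem _
    · obtain ⟨n, hn, hU⟩ := hunit r hr
      have := hordU _ hU
      rw [hdiv 0 r n fun e => hr (Subtype.ext e)] at this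
      exact Ideal.pow_le_pow_right (by omega) hn
  have hle : ∀ i, Bl Op P p i ≤ (vpt W hW).1 := fun i => Wp_aux_Bl_le hd.1 fun j => by
    have := ((huU j).div (huU i)).2.1
    rwa [ur, ur, div_div_div_cancel_right₀ (h0 0)] at this
  refine ⟨W, hW, hdvr, hd, hs, fun i => ⟨hle i, fun f hf => ?_⟩, hpow, ?_, hi⟩
  · by_cases hf0 : f = 0
    · exact ⟨0, zero_mem _, 1, one_mem _, by simp, by simp [hf0]⟩
    obtain ⟨a, b, rfl⟩ := Wp_aux_frac hP hO h f
    have ha : (a : L) ≠ 0 := fun e => hf0 (by simp [e])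
    have hb : (b : L) ≠ 0 := fun e => hf0 (by simp [e])
    have h1 : 0 ≤ ord W (a / b) := (ord_nonneg_iff W _).2 hf
    rw [ord_div W ha hb] at h1
    obtain ⟨k, hk⟩ := Int.eq_ofNat_of_zero_le ((ord_nonneg_iff W (b : L)).2 (hd.1 b.2))
    refine ⟨_, Wp_aux_div_mem hP hO h i (hpow k a (by omega)), _,
      Wp_aux_div_mem hP hO h i (hpow k b (by omega)), ?_, ?_⟩
    · refine ((ord_eq_zero_iff W _).1 ?_).2
      rw [hdiv i b k hb]
      omega
    · rw [div_div_div_cancel_right₀ (pow_ne_zero _ (h0 i))]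
  · intro i O hOs hmx g hg
    obtain ⟨a, ha, b, hb, hb', rfl⟩ := hOs.2 g hg
    by_cases hb0 : b = 0
    · simp [hb0]
    rw [div_eq_mul_inv]
    refine mul_mem (hle i ha) (isU_of_not_mx (O := vpt W hW) (hle i hb) fun hc => ?_).2.2
    have h1 := (ord_pos_iff W hb0).2 (mem_mx_vpt.1 hc)
    obtain ⟨N, r, -, rfl⟩ := (mem_Bl_iff hP hO h i b).1 hb
    have hr : (r : L) ≠ 0 := fun e => hb0 (by simp [e])
    rw [hdiv i r N hr] at h1
    have h2 := hOs.1 (Wp_aux_div_mem hP hO h i (hpow (N + 1) r (by push_cast; omega)))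
    exact IsU.not_mx ⟨hb0, hOs.1 hb, hb'⟩
      (Wp_aux_pow_mx (hmx (Wp_aux_s_mx hO h i)) (h0 i) (Nat.lt_succ_self N) h2)

theorem Wp_aux_const (hO : Op ∈ cubeP P) (h : Over Op P p) {W : Pt L} (hd : Dom Op W) {f : L}
    (hf : f ∈ Op.1) : ∃ c : ℂ, res W f = algebraMap ℂ (RF W) c := by
  obtain ⟨c, hc⟩ := over_const hO h hf
  refine ⟨c, ?_⟩
  have := (res_eq_zero (mx_sub (hd.2 hc))).2 (hd.2 hc)
  rwa [res_sub (hd.1 hf) (W.1.algebraMap_mem c), res_const, sub_eq_zero] at this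

/-- The local ring of a fixed point is not a valuation ring. -/
theorem ur_not_mem (hP : Gen3 P) (hO : Op ∈ cubeP P) (h : Over Op P p) :
    ur P p 0 1 ∉ Op.1 ∧ ur P p 1 0 ∉ Op.1 := by
  obtain ⟨W, hW, hd, hu, hi⟩ := exists_W0 hP hO h
  have ht : Transcendental ℂ (res (vpt W hW) (ur P p 0 1)) := hi.transcendental 0
  constructor
  · intro hc
    obtain ⟨c, e⟩ := Wp_aux_const hO h hd hc
    exact ht (e ▸ isAlgebraic_algebraMap c)
  · intro hc
    obtain ⟨c, e⟩ := Wp_aux_const hO h hd hc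
    have e1 : ur P p 1 0 = (ur P p 0 1)⁻¹ := by rw [ur, ur, inv_div]
    rw [e1, res_inv (Wp_aux_uU (W := vpt W hW) hP hu hi 1)] at e
    refine ht ?_
    rw [← inv_inv (res _ _), e, ← map_inv₀]
    exact isAlgebraic_algebraMap _

/-- The line `s 2 = 0` of the exceptional plane. Every element of `Bl 0` is a polynomial in
`u 1, u 2` modulo the maximal ideal of `W`; map `u 1 ↦ X`, `u 2 ↦ 0` into `RatFunc ℂ`. -/
theorem exists_line (hP : Gen3 P) (hO : Op ∈ cubeP P) (h : Over Op P p) :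
    ∃ ξ ∈ spec (Bl Op P p 0), mx Op ⊆ mx ξ ∧ IsFF ℂ (RF ξ) ∧
      Transcendental ℂ (res ξ (ur P p 0 1)) := by
  obtain ⟨W, hW, hd, hu, hi⟩ := exists_W0 hP hO h
  set Wp := vpt W hW
  set a := res Wp (ur P p 0 1) with ha
  set b := res Wp (ur P p 0 2) with hb
  have hta : Transcendental ℂ a := hi.transcendental 0
  have htb : Transcendental (IntermediateField.adjoin ℂ {a}) b⁻¹ := by
    have := hi.transcendental_adjoin (s := {0}) (i := 1) (by simp)
    rw [Set.image_singleton, ← IntermediateField.transcendental_adjoin_iff] at this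
    exact fun hc => this (IsAlgebraic.inv_iff.1 hc)
  obtain ⟨V, hV⟩ := exists_pole htb
  have hVa : ∀ x ∈ IntermediateField.adjoin ℂ {a}, x ∈ V.1 := fun x hx => V.2.2 ⟨x, hx⟩
  have hVc : ∀ c : ℂ, algebraMap ℂ (RF Wp) c ∈ V.1 := fun c =>
    hVa _ (IntermediateField.algebraMap_mem _ c)
  have hbm : b ∈ mx (vpt V.1 hVc) := by
    rw [mem_mx_vpt, ValuationSubring.mem_nonunits_iff_or]
    exact Or.inr hV
  obtain ⟨W', hW1, hW2⟩ := exists_pre Wp (vpt V.1 hVc)
  have hle : Bl Op P p 0 ≤ W'.1 := by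
    refine Wp_aux_Bl_le (fun f hf => (hW1 f).2 ⟨hd.1 hf, ?_⟩) fun j => (hW1 _).2 ⟨hu j, ?_⟩
    · obtain ⟨c, e⟩ := Wp_aux_const hO h hd hf
      rw [e]
      exact hVc c
    · fin_cases j
      · simp [ur, div_self (Wp_aux_s_ne hP p 0), res_one]
      · exact hVa _ (IntermediateField.mem_adjoin_simple_self ℂ a)
      · exact mx_sub hbm
  obtain ⟨ξ, hξ, hdξ⟩ := exists_centre _ W' hle
  have hmx : mx Op ⊆ mx ξ := fun f hf => by
    refine mx_of_le hdξ.1 (hξ.1 (Wp_aux_Op_le 0 (mx_sub hf))) ((hW2 f).2 ⟨mx_sub (hd.2 hf), ?_⟩)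
    rw [(res_eq_zero (mx_sub (hd.2 hf))).2 (hd.2 hf)]
    exact zero_mem_mx _
  have hdO : Dom Op ξ := ⟨fun f hf => hξ.1 (Wp_aux_Op_le 0 hf), hmx⟩
  have hu1 : ur P p 0 1 ∈ ξ.1 := hξ.1 (Wp_aux_ur_mem 0 1)
  have htr : Transcendental ℂ (res ξ (ur P p 0 1)) := by
    rw [transcendental_iff]
    intro q hq
    have h1 := Wp_aux_res1 ξ hu1 q
    rw [← h1.2, res_eq_zero h1.1] at hq
    have h2 := ((hW2 _).1 (hdξ.2 hq)).2
    rw [(Wp_aux_res1 Wp (hu 1) q).2] at h2
    by_contra hq0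
    have h3 : Polynomial.aeval a q ∈ IntermediateField.adjoin ℂ {a} :=
      IntermediateField.algebra_adjoin_le_adjoin ℂ _ (Polynomial.aeval_mem_adjoin_singleton ℂ a)
    exact IsU.not_mx ⟨fun e => hq0 (transcendental_iff.1 hta q e), hVa _ h3, hVa _ (inv_mem h3)⟩ h2
  refine ⟨ξ, hξ, hmx, ⟨_, htr, ?_⟩, htr⟩
  have hgen : ∀ g ∈ Bl Op P p 0, res ξ g ∈ IntermediateField.adjoin ℂ {res ξ (ur P p 0 1)} := by
    intro g hg
    refine Algebra.adjoin_induction
      (p := fun x _ => res ξ x ∈ IntermediateField.adjoin ℂ {res ξ (ur P p 0 1)}) ?_ ?_ ?_ ?_ hg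
    · rintro x (hx | ⟨j, rfl⟩)
      · obtain ⟨c, e⟩ := Wp_aux_const hO h hdO hx
        rw [e]
        exact IntermediateField.algebraMap_mem _ c
      · fin_cases j
        · simp [ur, div_self (Wp_aux_s_ne hP p 0), res_one]
        · exact IntermediateField.mem_adjoin_simple_self ℂ _
        · have h2 : ur P p 0 2 ∈ ξ.1 := hξ.1 (Wp_aux_ur_mem 0 2)
          have := (res_eq_zero h2).2 (mx_of_le hdξ.1 h2 ((hW2 _).2 ⟨hu 2, hbm⟩))
          exact this ▸ zero_mem _
    · intro c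
      rw [res_const]
      exact IntermediateField.algebraMap_mem _ c
    · intro x y hx hy h1 h2
      rw [res_add (hξ.1 hx) (hξ.1 hy)]
      exact add_mem h1 h2
    · intro x y hx hy h1 h2
      rw [res_mul (hξ.1 hx) (hξ.1 hy)]
      exact mul_mem h1 h2
  have htop : IntermediateField.adjoin ℂ {res ξ (ur P p 0 1)} = ⊤ := by
    rw [eq_top_iff]
    intro z _
    obtain ⟨f, hf, rfl⟩ := res_surj ξ z
    obtain ⟨x, hx, y, hy, hy', rfl⟩ := hξ.2 f hf
    by_cases hy0 : y = 0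
    · rw [hy0, div_zero, res_zero]
      exact zero_mem _
    · rw [res_div (hξ.1 hx) ⟨hy0, hξ.1 hy, hy'⟩]
      exact div_mem (hgen x hx) (hgen y hy)
  rw [htop]
  exact Module.Finite.of_surjective (Algebra.linearMap _ _) fun z => ⟨⟨z, trivial⟩, rfl⟩

end Pool.Agent.MP_95da86_ag

end

section

/-! The invariant derivation. -/

namespace Pool.Agent.MP_95da86_ag

variable {k M : Type} [Field k] [Field M] [Algebra ℂ k] [Algebra ℂ M] [Algebra k M]
  [IsScalarTower ℂ k M] {P : EP M}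

theorem Der_aux_eq (D : Derivation k M M) (Q : EP M) :
    2 * yc Q * D (yc Q) = 3 * xc Q ^ 2 * D (xc Q) := by
  by_cases hQ : Q = 0
  · simp [hQ]
  · have h1 := congrArg D (eqn_of_ne hQ)
    simp only [map_add, Derivation.leibniz_pow, Derivation.map_one_eq_zero, smul_eq_mul,
      nsmul_eq_mul] at h1
    push_cast at h1
    linear_combination h1

theorem Der_aux_ne {Q : EP M} (hQ : Q ≠ 0) (hy : yc Q = 0) : xc Q ≠ 0 := fun hx => by
  have h1 := eqn_of_ne hQ
  simp [hx, hy] at h1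

theorem Der_aux_zero (D : Derivation k M M) : dl D (0 : EP M) = 0 := by
  unfold dl
  rw [yc_zero, div_zero]

theorem Der_aux_char (D : Derivation k M M) {Q : EP M} (hQ : Q ≠ 0) {d : M}
    (hx : D (xc Q) = d * yc Q) (hy : 2 * D (yc Q) = d * (3 * xc Q ^ 2)) : dl D Q = d := by
  have := charZero_of M
  unfold dl
  by_cases h : yc Q = 0
  · rw [h, map_zero, mul_zero] at hy
    rw [h, div_zero]
    have h2 : (3 : M) * xc Q ^ 2 ≠ 0 :=
      mul_ne_zero (by norm_num) (pow_ne_zero _ (Der_aux_ne hQ h))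
    exact ((mul_eq_zero.1 hy.symm).resolve_right h2).symm
  · rw [hx, mul_div_cancel_right₀ _ h]

theorem Der_aux_zt (D : Derivation k M M) : D (zt M) = 0 := by
  rw [zt, IsScalarTower.algebraMap_apply ℂ k M, Derivation.map_algebraMap]

theorem dl_xc (D : Derivation k M M) (Q : EP M) : D (xc Q) = dl D Q * yc Q := by
  have := charZero_of M
  unfold dl
  by_cases hy : yc Q = 0
  · rw [hy, mul_zero]
    by_cases hQ : Q = 0
    · rw [hQ, xc_zero, map_zero]
    · have h1 := Der_aux_eq D Q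
      rw [hy, mul_zero, zero_mul] at h1
      have h2 : (3 : M) * xc Q ^ 2 ≠ 0 :=
        mul_ne_zero (by norm_num) (pow_ne_zero _ (Der_aux_ne hQ hy))
      exact (mul_eq_zero.1 h1.symm).resolve_left h2
  · rw [div_mul_cancel₀ _ hy]

theorem dl_yc (D : Derivation k M M) (Q : EP M) : 2 * D (yc Q) = dl D Q * (3 * xc Q ^ 2) := by
  by_cases hy : yc Q = 0
  · unfold dl
    rw [hy, map_zero, div_zero, mul_zero, zero_mul]
  · refine mul_left_cancel₀ hy ?_
    have h1 := Der_aux_eq D Q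
    have h2 := dl_xc D Q
    linear_combination h1 + 3 * xc Q ^ 2 * h2

/-- Show `D x₃ = (δ₁ + δ₂) y₃` and `2 D y₃ = 3 (δ₁ + δ₂) x₃ ^ 2` (chord and tangent separately);
`x₃` and `y₃` do not both vanish. -/
theorem dl_add (D : Derivation k M M) (Q Q' : EP M) : dl D (Q + Q') = dl D Q + dl D Q' := by
  have := charZero_of M
  rcases Q.cases with rfl | ⟨a₁, b₁, h₁, rfl⟩
  · rw [zero_add, Der_aux_zero, zero_add]
  rcases Q'.cases with rfl | ⟨a₂, b₂, h₂, rfl⟩
  · rw [add_zero, Der_aux_zero, add_zero]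
  by_cases hne : a₁ = a₂ ∧ b₁ = -b₂
  · rw [pt_add_neg h₁ h₂ hne.1 hne.2, Der_aux_zero]
    unfold dl
    rw [xc_pt, yc_pt, xc_pt, yc_pt, hne.1, hne.2, div_neg, neg_add_cancel]
  · obtain ⟨l, hl₁, hl₂⟩ := exists_slope h₁ h₂ hne
    obtain ⟨h, e⟩ := pt_add h₁ h₂ hne l hl₁ hl₂
    have x1 := dl_xc D (pt a₁ b₁ h₁)
    have y1 := dl_yc D (pt a₁ b₁ h₁)
    have x2 := dl_xc D (pt a₂ b₂ h₂)
    have y2 := dl_yc D (pt a₂ b₂ h₂)
    simp only [xc_pt, yc_pt] at x1 y1 x2 y2
    generalize dl D (pt a₁ b₁ h₁) = d₁ at x1 y1 ⊢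
    generalize dl D (pt a₂ b₂ h₂) = d₂ at x2 y2 ⊢
    have k1 := congrArg D hl₁
    have k2 := congrArg D hl₂
    simp only [pow_two, Derivation.leibniz, map_sub, map_add, smul_eq_mul] at k1 k2
    have i1 : 3 * a₁ ^ 2 - 2 * l * b₁ = (a₁ - a₂) * (2 * a₁ + a₂ - l ^ 2) := by
      linear_combination l * hl₁ - hl₂
    have i2 : 3 * a₂ ^ 2 - 2 * l * b₂ = (a₂ - a₁) * (a₁ + 2 * a₂ - l ^ 2) := by
      linear_combination -l * hl₁ - hl₂
    have j1 : -3 * l * a₁ ^ 2 + 2 * (2 * a₁ + a₂) * b₁ = (b₁ + b₂) * (2 * a₁ + a₂ - l ^ 2) := by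
      linear_combination -(2 * a₁ + a₂) * hl₁ + l * hl₂
    have j2 : -3 * l * a₂ ^ 2 + 2 * (a₁ + 2 * a₂) * b₂ = (b₁ + b₂) * (a₁ + 2 * a₂ - l ^ 2) := by
      linear_combination (a₁ + 2 * a₂) * hl₁ + l * hl₂
    have hE : 2 * D l = d₁ * (2 * a₁ + a₂ - l ^ 2) + d₂ * (a₁ + 2 * a₂ - l ^ 2) := by
      by_cases ha : a₁ - a₂ = 0
      · have hb : b₁ + b₂ ≠ 0 := fun hb =>
          hne ⟨by linear_combination ha, by linear_combination hb⟩
        refine mul_left_cancel₀ hb ?_
        linear_combination 2 * k2 - l * y1 - l * y2 + 2 * (2 * a₁ + a₂) * x1 +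
          2 * (a₁ + 2 * a₂) * x2 + d₁ * j1 + d₂ * j2
      · refine mul_left_cancel₀ ha ?_
        linear_combination 2 * k1 + y1 - y2 - 2 * l * x1 + 2 * l * x2 + d₁ * i1 - d₂ * i2
    have hx : D (l ^ 2 - a₁ - a₂) = (d₁ + d₂) * -(l * (l ^ 2 - a₁ - a₂ - a₁) + b₁) := by
      simp only [pow_two, Derivation.leibniz, map_sub, smul_eq_mul]
      linear_combination l * hE - x1 - x2 - d₂ * hl₁
    rw [e]
    refine Der_aux_char D (pt_ne_zero _ _ _) hx ?_
    rw [xc_pt, yc_pt, map_neg, map_add, Derivation.leibniz, map_sub D _ a₁, hx, smul_eq_mul,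
      smul_eq_mul]
    linear_combination -(l ^ 2 - a₁ - a₂ - a₁) * hE + 2 * l * x1 - y1 - (2 * d₁ + d₂) * i1

theorem dl_neg (D : Derivation k M M) (Q : EP M) : dl D (-Q) = -dl D Q := by
  unfold dl
  rw [xc_neg, yc_neg, div_neg]

theorem dl_om (D : Derivation k M M) (Q : EP M) : dl D (om • Q) = zt M * dl D Q := by
  unfold dl
  rw [xc_om, yc_om, Derivation.leibniz, Der_aux_zt, smul_zero, add_zero, smul_eq_mul, mul_div_assoc]

theorem dl_up (D : Derivation k M M) (c : EP k) : dl D (up k M c) = 0 := by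
  unfold dl up
  rw [xc_emap, IsScalarTower.toAlgHom_apply, Derivation.map_algebraMap, zero_div]

theorem dl_smul (D : Derivation k M M) (a : Zw) (Q : EP M) :
    dl D (a • Q) = (a.re + a.im * zt M) * dl D Q := by
  let H : EP M →+ M := AddMonoidHom.mk' (dl D) (dl_add D)
  have h1 : ∀ (n : ℤ) (R : EP M), dl D (n • R) = n * dl D R := fun n R => by
    rw [← zsmul_eq_mul]
    exact map_zsmul H n R
  rw [zw_smul_def, dl_add, h1, h1, ← om_smul, dl_om]
  ring


theorem Der_aux_y (hP : Gen k P) : yc P ≠ 0 := fun h => hP.yc_tr (h ▸ isAlgebraic_zero)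

theorem Der_aux_tors (D : Derivation k M M) (τ : ZMod 3) : dl D (tors M τ) = 0 := by
  have h : up k M (tors k τ) = tors M τ := emap_tors _ τ
  rw [← h, dl_up]

theorem Der_aux_c (V : Pl k M) (c : ℂ) : algebraMap ℂ M c ∈ V.1 := by
  rw [IsScalarTower.algebraMap_apply ℂ k M]
  exact V.2.2 _

theorem Der_aux_crd {D : Derivation k M M} (hD : dl D P = 1) {f : M} (hf : f ∈ crd k P) :
    D f ∈ crd k P := by
  have := charZero_of M
  have hx : xc P ∈ crd k P := Algebra.subset_adjoin (by simp)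
  have hy : yc P ∈ crd k P := Algebra.subset_adjoin (by simp)
  refine Algebra.adjoin_induction (p := fun g _ => D g ∈ crd k P) ?_ ?_ ?_ ?_ hf
  · rintro _ (rfl | rfl)
    · rw [dl_xc, hD, one_mul]
      exact hy
    · have h3 : algebraMap k M (algebraMap ℂ k (3 / 2)) = 3 / 2 := by
        rw [map_div₀, map_div₀, map_ofNat, map_ofNat, map_ofNat, map_ofNat]
      have e : D (yc P) = algebraMap k M (algebraMap ℂ k (3 / 2)) * xc P ^ 2 := by
        have h1 := dl_yc D P
        rw [hD] at h1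
        rw [h3]
        linear_combination h1 / 2
      rw [e]
      exact mul_mem (Subalgebra.algebraMap_mem _ _) (pow_mem hx 2)
  · intro c
    rw [D.map_algebraMap]
    exact zero_mem _
  · intro a b _ _ ha hb
    rw [map_add]
    exact add_mem ha hb
  · intro a b ha' hb' ha hb
    rw [Derivation.leibniz, smul_eq_mul, smul_eq_mul]
    exact add_mem (mul_mem ha' hb) (mul_mem hb' ha)

/-- Use `exists_ev` into `TrivSqZeroExt M M`, `x ↦ x + y ε`, `y ↦ y + (3 x ^ 2 / 2) ε`, and extend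
to the fraction field. -/
theorem Gen.exists_der (hP : Gen k P) : ∃ D : Derivation k M M, dl D P = 1 := by
  have := charZero_of M
  have := hP.isFractionRing
  have hy : yc P ≠ 0 := Der_aux_y hP
  obtain ⟨φ, hx, hy'⟩ := hP.exists_ev (A := TrivSqZeroExt M M)
    (TrivSqZeroExt.inl (xc P) + TrivSqZeroExt.inr (yc P))
    (TrivSqZeroExt.inl (yc P) + TrivSqZeroExt.inr (3 * xc P ^ 2 / 2)) (by
      refine TrivSqZeroExt.ext ?_ ?_
      · simpa using eqn_of_ne hP.ne
      · simp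
        ring)
  have h1 : ∀ (g : M) (hg : g ∈ crd k P), (φ ⟨g, hg⟩).fst = g := fun g hg => by
    refine Algebra.adjoin_induction (p := fun g hg => (φ ⟨g, hg⟩).fst = g) ?_ ?_ ?_ ?_ hg
    · rintro _ (rfl | rfl)
      · rw [hx]
        simp
      · rw [hy']
        simp
    · intro c
      have h2 := (TrivSqZeroExt.fstHom k M M).comp φ |>.commutes c
      exact h2
    · intro a b ha' hb' ha hb
      have h2 := map_add φ ⟨a, ha'⟩ ⟨b, hb'⟩
      exact (congrArg TrivSqZeroExt.fst h2).trans (by rw [TrivSqZeroExt.fst_add, ha, hb])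
    · intro a b ha' hb' ha hb
      have h2 := map_mul φ ⟨a, ha'⟩ ⟨b, hb'⟩
      exact (congrArg TrivSqZeroExt.fst h2).trans (by rw [TrivSqZeroExt.fst_mul, ha, hb])
  have hu : ∀ g : nonZeroDivisors (crd k P), IsUnit (φ g) := fun g => by
    rw [TrivSqZeroExt.isUnit_iff_isUnit_fst, h1 _ g.1.2, isUnit_iff_ne_zero]
    exact fun h0 => nonZeroDivisors.coe_ne_zero g (Subtype.ext h0)
  let Φ : M →ₐ[k] TrivSqZeroExt M M := IsLocalization.liftAlgHom hu
  have h2 : ∀ g : crd k P, Φ g = φ g := fun g => IsLocalization.lift_eq hu g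
  have h3 : ∀ g : M, (Φ g).fst = g := fun g => by
    obtain ⟨a, b, hb, rfl⟩ := IsFractionRing.div_surjective (A := crd k P) g
    have h4 := map_div₀ ((TrivSqZeroExt.fstHom k M M).comp Φ) (a : M) (b : M)
    have h5 : ∀ c : crd k P, ((TrivSqZeroExt.fstHom k M M).comp Φ) c = c := fun c =>
      (congrArg TrivSqZeroExt.fst (h2 c)).trans (h1 _ c.2)
    rw [h5, h5] at h4
    exact h4
  let D : Derivation k M M := Derivation.mk'
    (((TrivSqZeroExt.sndHom M M).restrictScalars k).comp Φ.toLinearMap) fun a b => by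
      change (Φ (a * b)).snd = a * (Φ b).snd + b * (Φ a).snd
      rw [map_mul, TrivSqZeroExt.snd_mul, h3, h3]
      simp [mul_comm]
  refine ⟨D, ?_⟩
  have h6 : D (xc P) = yc P := by
    change (Φ (xc P)).snd = yc P
    have h7 := h2 ⟨xc P, Algebra.subset_adjoin (by simp)⟩
    rw [hx] at h7
    exact (congrArg TrivSqZeroExt.snd h7).trans (by simp)
  unfold dl
  rw [h6, div_self hy]


/-- `D` preserves every place: choose `τ` with `P' = P + τ T` affine at `V`; `dl D P' = 1`, so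
`D` preserves `k[x', y']` and its localisation `V`. -/
theorem Gen.der_mem (hP : Gen k P) {D : Derivation k M M} (hD : dl D P = 1) (V : Pl k M) {f : M}
    (hf : f ∈ V.1) : D f ∈ V.1 := by
  have := charZero_of M
  obtain ⟨τ, -, hx, -⟩ := exists_shift (intg_val V.1 (Der_aux_c V) P)
  rw [mem_vpt] at hx
  have hP' := hP.add_tors τ
  have hD' : dl D (P + tors M τ) = 1 := by rw [dl_add, Der_aux_tors, add_zero, hD]
  obtain ⟨a, ha, b, hb, hb', rfl⟩ := hP'.val_loc V hx f hf
  have hc := hP'.crd_le V hx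
  have e : D (a / b) = b⁻¹ * D a - a * b⁻¹ ^ 2 * D b := by
    rw [div_eq_mul_inv, Derivation.leibniz, Derivation.leibniz_inv, smul_eq_mul, smul_eq_mul,
      smul_eq_mul]
    ring
  rw [e]
  exact sub_mem (mul_mem hb' (hc _ (Der_aux_crd hD' ha)))
    (mul_mem (mul_mem (hc _ ha) (pow_mem hb' 2)) (hc _ (Der_aux_crd hD' hb)))

/-- Translate `Q` to be affine at `V`; `x` or `y` is a unit. -/
theorem Gen.dl_mem (hP : Gen k P) {D : Derivation k M M} (hD : dl D P = 1) (V : Pl k M)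
    (Q : EP M) : dl D Q ∈ V.1 := by
  have := charZero_of M
  obtain ⟨τ, h0, hx, hy⟩ := exists_shift (intg_val V.1 (Der_aux_c V) Q)
  rw [mem_vpt] at hx hy
  have e0 : dl D (Q + tors M τ) = dl D Q := by rw [dl_add, Der_aux_tors, add_zero]
  rw [← e0]
  generalize Q + tors M τ = R at h0 hx hy ⊢
  have h3 : algebraMap ℂ M (2 / 3) = 2 / 3 := by rw [map_div₀, map_ofNat, map_ofNat]
  have e : dl D R = D (xc R) * yc R - algebraMap ℂ M (2 / 3) * xc R * D (yc R) := by
    rw [h3]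
    linear_combination -(dl D R) * eqn_of_ne h0 - yc R * dl_xc D R + xc R / 3 * dl_yc D R
  rw [e]
  exact sub_mem (mul_mem (hP.der_mem hD V hx) hy)
    (mul_mem (mul_mem (Der_aux_c V _) hx) (hP.der_mem hD V hy))

/-- If `D f = 0` with `f` transcendental then `x` is algebraic over `k(f)` and `D x = 0`. -/
theorem Gen.alg_of_der (hP : Gen k P) {D : Derivation k M M} (hD : dl D P = 1) {f : M}
    (hf : D f = 0) : IsAlgebraic k f := by
  have := charZero_of M
  by_contra ht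
  have hfin := hP.isFF.finite_of_tr (t := f) ht
  let K := IntermediateField.adjoin k {f}
  have hK : ∀ g ∈ K, D g = 0 := fun g hg => by
    refine IntermediateField.adjoin_induction k (p := fun g _ => D g = 0) ?_ ?_ ?_ ?_ ?_ hg
    · rintro _ rfl
      exact hf
    · exact fun c => D.map_algebraMap c
    · intro a b _ _ ha hb
      rw [map_add, ha, hb, add_zero]
    · intro a _ ha
      rw [Derivation.leibniz_inv, ha, smul_zero]
    · intro a b _ _ ha hb
      rw [Derivation.leibniz, ha, hb, smul_zero, smul_zero, add_zero]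
  let D' : Derivation K M M := Derivation.mk'
    { toFun := D
      map_add' := map_add D
      map_smul' := fun c g => by
        change D ((c : M) * g) = (c : M) * D g
        rw [Derivation.leibniz, hK c c.2, smul_zero, add_zero, smul_eq_mul] } D.leibniz
  have hi : IsIntegral K (xc P) := IsIntegral.of_finite K _
  have h1 := D'.map_aeval (minpoly K (xc P)) (xc P)
  rw [minpoly.aeval, map_zero, smul_eq_mul] at h1
  have h2 := (minpoly.irreducible hi).separable.aeval_derivative_ne_zero (minpoly.aeval K (xc P))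
  have h3 : D (xc P) = 0 := (mul_eq_zero.1 h1.symm).resolve_left h2
  rw [dl_xc, hD, one_mul] at h3
  exact Der_aux_y hP h3

theorem Gen.up_of_dl (hP : Gen k P) {D : Derivation k M M} (hD : dl D P = 1) {Q : EP M}
    (hQ : dl D Q = 0) : ∃ c : EP k, Q = up k M c := by
  have := charZero_of M
  have hx : D (xc Q) = 0 := by rw [dl_xc, hQ, zero_mul]
  have hy : D (yc Q) = 0 := by
    have h1 := dl_yc D Q
    rw [hQ, zero_mul] at h1
    exact (mul_eq_zero.1 h1).resolve_left (by norm_num)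
  exact exists_up (hP.algClosed (hP.alg_of_der hD hx)) (hP.algClosed (hP.alg_of_der hD hy))

/-- The chain rule. -/
theorem Gen.der_comp (hP : Gen k P) {D : Derivation k M M} (hD : dl D P = 1) (φ : M →ₐ[k] M)
    (f : M) : D (φ f) = dl D (emap (φ.restrictScalars ℂ) P) * φ (D f) := by
  have := charZero_of M
  have hx := dl_xc D (emap (φ.restrictScalars ℂ) P)
  have hy := dl_yc D (emap (φ.restrictScalars ℂ) P)
  rw [xc_emap, yc_emap] at hx hy
  simp only [AlgHom.restrictScalars_apply] at hx hy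
  generalize dl D (emap (φ.restrictScalars ℂ) P) = d at hx hy ⊢
  have hf : f ∈ IntermediateField.adjoin k {xc P, yc P} := by
    rw [hP.gen]
    exact IntermediateField.mem_top
  refine IntermediateField.adjoin_induction k (p := fun g _ => D (φ g) = d * φ (D g))
    ?_ ?_ ?_ ?_ ?_ hf
  · rintro _ (rfl | rfl)
    · rw [hx, dl_xc, hD, one_mul]
    · have h1 := congrArg φ (dl_yc D P)
      rw [hD, one_mul, map_mul, map_mul, map_pow, map_ofNat, map_ofNat] at h1
      refine mul_left_cancel₀ (two_ne_zero (α := M)) ?_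
      linear_combination hy - d * h1
  · intro c
    rw [φ.commutes, D.map_algebraMap, map_zero, mul_zero]
  · intro a b _ _ ha hb
    rw [map_add, map_add, map_add, map_add, ha, hb, mul_add]
  · intro a _ ha
    rw [map_inv₀, Derivation.leibniz_inv, Derivation.leibniz_inv, ha, smul_eq_mul, smul_eq_mul,
      map_mul, map_neg, map_pow, map_inv₀]
    ring
  · intro a b _ _ ha hb
    rw [map_mul, Derivation.leibniz, Derivation.leibniz, ha, hb]
    simp only [smul_eq_mul, map_add, map_mul]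
    ring


end Pool.Agent.MP_95da86_ag

end

section

/-! Transport of structure along isomorphisms of models. -/

namespace Pool.Agent.MP_95da86_ag

variable {M M' : Type} [Field M] [Algebra ℂ M] [Field M'] [Algebra ℂ M'] (g : M ≃ₐ[ℂ] M')
  {Y : Set (Pt M)} {Y' : Set (Pt M')} {f : Pt M → Mˣ}

theorem exists_resEquiv (ξ : Pt M) : ∃ e : RF ξ ≃ₐ[ℂ] RF (mapPt g ξ),
    ∀ a : M, e (res ξ a) = res (mapPt g ξ) (g a) := by
  refine ⟨IsLocalRing.ResidueField.mapAlgEquiv (S := ξ.1) (T := (mapPt g ξ).1)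
    (g.subalgebraMap ξ.1), fun a => ?_⟩
  by_cases h : a ∈ ξ.1
  · have h' : g a ∈ (mapPt g ξ).1 := mem_mapPt.2 (by simpa using h)
    rw [res_of_mem h, res_of_mem h']
    rfl
  · have h' : g a ∉ (mapPt g ξ).1 := fun h' => h (by simpa using mem_mapPt.1 h')
    rw [res_of_not_mem h, res_of_not_mem h', map_zero]
theorem trdeg_mapPt (ξ : Pt M) :
    Algebra.trdeg ℂ (RF (mapPt g ξ)) = Algebra.trdeg ℂ (RF ξ) := by
  obtain ⟨e, -⟩ := exists_resEquiv g ξ
  exact e.trdeg_eq.symm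
theorem coe_act (f : Pt M → Mˣ) (O : Pt M') : (act g f O : M') = g (f (mapPt g.symm O) : M) := rfl

theorem Transport_aux_mem {O : Pt M} {a : M} : g a ∈ (mapPt g O).1 ↔ a ∈ O.1 := by
  rw [mem_mapPt, g.symm_apply_apply]

theorem Transport_aux_div (f : Pt M → Mˣ) (O O' : Pt M) :
    ((act g f (mapPt g O) / act g f (mapPt g O') : M'ˣ) : M') = g ((f O / f O' : Mˣ) : M) := by
  rw [Units.val_div_eq_div_val, Units.val_div_eq_div_val, coe_act, coe_act, mapPt_symm_mapPt,
    mapPt_symm_mapPt, map_div₀]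

theorem Transport_aux_surj (O : Pt M') : ∃ O₀, O = mapPt g O₀ := ⟨_, (mapPt_mapPt_symm g O).symm⟩

theorem Transport_aux_inj {O O' : Pt M} (h : mapPt g O = mapPt g O') : O = O' := by
  rw [← mapPt_symm_mapPt g O, h, mapPt_symm_mapPt]

theorem IsCartier.to_act (hY : ∀ O, mapPt g O ∈ Y' ↔ O ∈ Y) (hf : IsCartier Y f) :
    IsCartier Y' (act g f) := by
  classical
  intro O hO
  obtain ⟨O, rfl⟩ := Transport_aux_surj g O
  obtain ⟨S, hS, h⟩ := hf O ((hY O).1 hO)
  refine ⟨S.image g, ?_, fun O' hO' hS' => ?_⟩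
  · intro a ha
    obtain ⟨b, hb, rfl⟩ := Finset.mem_image.1 (Finset.mem_coe.1 ha)
    exact (Transport_aux_mem g).2 (hS hb)
  · obtain ⟨O', rfl⟩ := Transport_aux_surj g O'
    have h1 := h O' ((hY O').1 hO') fun b hb =>
      (Transport_aux_mem g).1 (hS' (Finset.mem_coe.2 (Finset.mem_image_of_mem g hb)))
    rw [Transport_aux_div, Transport_aux_div, Transport_aux_mem, Transport_aux_mem]
    exact h1
theorem eff_act (hY : ∀ O, mapPt g O ∈ Y' ↔ O ∈ Y) (hf : ∀ O ∈ Y, (f O : M) ∈ O.1) :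
    ∀ O ∈ Y', (act g f O : M') ∈ O.1 := by
  intro O hO
  obtain ⟨O, rfl⟩ := Transport_aux_surj g O
  rw [coe_act, mapPt_symm_mapPt, Transport_aux_mem]
  exact hf O ((hY O).1 hO)

theorem Transport_aux_branch (hY : ∀ O, mapPt g O ∈ Y' ↔ O ∈ Y) (ξ : Pt M)
    (e : RF ξ ≃ₐ[ℂ] RF (mapPt g ξ)) (he : ∀ a : M, e (res ξ a) = res (mapPt g ξ) (g a))
    (O : Pt M) (V : ValuationSubring (RF ξ)) (V' : ValuationSubring (RF (mapPt g ξ)))
    (hV : ∀ a, e a ∈ V' ↔ a ∈ V) :
    (mapPt g O, V') ∈ branch Y' (mapPt g ξ) ↔ (O, V) ∈ branch Y ξ := by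
  have hn : ∀ a, e a ∈ V'.nonunits ↔ a ∈ V.nonunits := fun a => by
    rw [ValuationSubring.mem_nonunits_iff_or, ValuationSubring.mem_nonunits_iff_or, ← map_inv₀, hV,
      map_eq_zero_iff e e.injective]
  have h2 : (mapPt g O).1 ≤ (mapPt g ξ).1 ↔ O.1 ≤ ξ.1 :=
    ⟨fun h a ha => (Transport_aux_mem g).1 (h ((Transport_aux_mem g).2 ha)),
      fun h a ha => mem_mapPt.2 (h (mem_mapPt.1 ha))⟩
  have h3 : V' ≠ ⊤ ↔ V ≠ ⊤ := by
    refine not_congr ⟨fun h => ?_, fun h => ?_⟩
    · refine eq_top_iff.2 fun a _ => (hV a).1 ?_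
      rw [h]; exact ValuationSubring.mem_top _
    · refine eq_top_iff.2 fun a _ => ?_
      obtain ⟨a, rfl⟩ := e.surjective a
      rw [hV, h]; exact ValuationSubring.mem_top _
  have h4 : (∀ a ∈ (mapPt g O).1, res (mapPt g ξ) a ∈ V') ↔ ∀ a ∈ O.1, res ξ a ∈ V := by
    refine ⟨fun h a ha => ?_, fun h a ha => ?_⟩
    · rw [← hV, he]; exact h _ ((Transport_aux_mem g).2 ha)
    · obtain ⟨a, rfl⟩ := g.surjective a
      rw [← he, hV]; exact h _ ((Transport_aux_mem g).1 ha)
  have h5 : (∀ a ∈ mx (mapPt g O), res (mapPt g ξ) a ∈ V'.nonunits) ↔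
      ∀ a ∈ mx O, res ξ a ∈ V.nonunits := by
    refine ⟨fun h a ha => ?_, fun h a ha => ?_⟩
    · rw [← hn, he]; exact h _ (mem_mx_mapPt.2 (by simpa using ha))
    · obtain ⟨a, rfl⟩ := g.surjective a
      rw [← he, hn]; exact h _ (by simpa using mem_mx_mapPt.1 ha)
  exact and_congr (hY O) (and_congr h2 (and_congr h3 (and_congr h4 h5)))

/-- The map sending the pair `O, V` to `g O, e V` is a bijection of the sets of branches, see `finsum_mem_eq_of_bijOn`,
`ord_equiv`. -/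
theorem deg_act (hY : ∀ O, mapPt g O ∈ Y' ↔ O ∈ Y) (f : Pt M → Mˣ) (ξ : Pt M) :
    deg Y' (act g f) (mapPt g ξ) = deg Y f ξ := by
  obtain ⟨e, he⟩ := exists_resEquiv g ξ
  let φ : Pt M × ValuationSubring (RF ξ) → Pt M' × ValuationSubring (RF (mapPt g ξ)) :=
    fun p => (mapPt g p.1, p.2.comap (e.symm : RF (mapPt g ξ) →+* RF ξ))
  have hφ : ∀ (V : ValuationSubring (RF ξ)) a,
      e a ∈ V.comap (e.symm : RF (mapPt g ξ) →+* RF ξ) ↔ a ∈ V := fun V a => by
    rw [ValuationSubring.mem_comap]; simp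
  unfold deg
  symm
  refine finsum_mem_eq_of_bijOn φ ⟨fun p hp => ?_, fun p _ q _ h => ?_, fun q hq => ?_⟩
    fun p _ => ?_
  · exact (Transport_aux_branch g hY ξ e he p.1 p.2 _ (hφ p.2)).2 hp
  · have h1 : mapPt g p.1 = mapPt g q.1 := congrArg Prod.fst h
    have h2 : p.2.comap (e.symm : RF (mapPt g ξ) →+* RF ξ) =
      q.2.comap (e.symm : RF (mapPt g ξ) →+* RF ξ) := congrArg Prod.snd h
    refine Prod.ext (Transport_aux_inj g h1) (ValuationSubring.ext _ _ fun a => ?_)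
    rw [← hφ, h2, hφ]
  · obtain ⟨O, V'⟩ := q
    obtain ⟨O, rfl⟩ := Transport_aux_surj g O
    refine ⟨(O, V'.comap (e : RF ξ →+* RF (mapPt g ξ))),
      (Transport_aux_branch g hY ξ e he O _ V' fun a => Iff.rfl).1 hq, Prod.ext rfl ?_⟩
    refine ValuationSubring.ext _ _ fun a => ?_
    obtain ⟨a, rfl⟩ := e.surjective a
    exact hφ _ a
  · change _ = ord (p.2.comap (e.symm : RF (mapPt g ξ) →+* RF ξ))
      (res (mapPt g ξ) ((act g f (mapPt g p.1) / act g f (mapPt g ξ) : M'ˣ) : M'))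
    rw [Transport_aux_div, ← he]
    exact (ord_equiv e.toRingEquiv p.2 _ (hφ p.2) _).symm

theorem isAut_iff {g : M ≃ₐ[ℂ] M} : IsAut Y g ↔ ∀ O, mapPt g O ∈ Y ↔ O ∈ Y := by
  refine ⟨fun h O => h _ _ rfl, fun h O O' hO => ?_⟩
  have : O = mapPt g O' := Subtype.ext hO
  rw [this]; exact h O'

theorem Transport_aux_mul (g h : M ≃ₐ[ℂ] M) (O : Pt M) :
    mapPt (g * h) O = mapPt g (mapPt h O) :=
  Subtype.ext (Subalgebra.ext fun a => by
    rw [mem_mapPt, mem_mapPt, mem_mapPt]; rfl)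

theorem Transport_aux_one (O : Pt M) : mapPt (1 : M ≃ₐ[ℂ] M) O = O :=
  Subtype.ext (Subalgebra.ext fun a => by rw [mem_mapPt]; rfl)

theorem Transport_aux_symm {g : M ≃ₐ[ℂ] M} (hg : IsAut Y g) : IsAut Y g.symm :=
  isAut_iff.2 fun O => by rw [← isAut_iff.1 hg, mapPt_mapPt_symm]

/-- The permutations of the curves induced by automorphisms. -/
def autG (Y : Set (Pt M)) : Subgroup (Equiv.Perm (Curve Y)) where
  carrier := {π | ∃ g, IsAut Y g ∧ ∀ ξ : Curve Y, ξ.1 = mapPt g (π ξ).1}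
  mul_mem' := by
    rintro π σ ⟨g, hg, hπ⟩ ⟨h, hh, hσ⟩
    refine ⟨h * g, isAut_iff.2 fun O => ?_, fun ξ => ?_⟩
    · rw [Transport_aux_mul, isAut_iff.1 hh, isAut_iff.1 hg]
    · rw [Transport_aux_mul, Equiv.Perm.mul_apply, ← hπ, ← hσ]
  one_mem' := ⟨1, isAut_iff.2 fun O => by rw [Transport_aux_one], fun ξ => by
    rw [Transport_aux_one]; rfl⟩
  inv_mem' := by
    rintro π ⟨g, hg, hπ⟩
    refine ⟨g.symm, Transport_aux_symm hg, fun ξ => ?_⟩
    rw [hπ (π⁻¹ ξ), mapPt_symm_mapPt]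
    simp

theorem IsAut.exists_perm {g : M ≃ₐ[ℂ] M} (hg : IsAut Y g) :
    ∃ π : Equiv.Perm (Curve Y), ∀ ξ : Curve Y, ξ.1 = mapPt g (π ξ).1 := by
  refine ⟨⟨fun ξ => ⟨mapPt g.symm ξ.1, (isAut_iff.1 (Transport_aux_symm hg) _).2 ξ.2.1,
      (trdeg_mapPt g.symm ξ.1).trans ξ.2.2⟩,
    fun ξ => ⟨mapPt g ξ.1, (isAut_iff.1 hg _).2 ξ.2.1, (trdeg_mapPt g ξ.1).trans ξ.2.2⟩,
    fun ξ => Subtype.ext (mapPt_mapPt_symm g ξ.1),
    fun ξ => Subtype.ext (mapPt_symm_mapPt g ξ.1)⟩, fun ξ => (mapPt_mapPt_symm g ξ.1).symm⟩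
theorem pull_iff {g : M ≃ₐ[ℂ] M} {π : Equiv.Perm (Curve Y)}
    (hπ : ∀ ξ : Curve Y, ξ.1 = mapPt g (π ξ).1) (d e : N1 Y) : Pull g d e ↔ e.1 = d.1 ∘ π := by
  refine ⟨fun h => funext fun ξ => h ξ (π ξ) (congrArg Subtype.val (hπ ξ)), fun h ξ ξ' hξ => ?_⟩
  have h1 : ξ.1 = mapPt g ξ'.1 := Subtype.ext hξ
  have h2 : π ξ = ξ' := Subtype.ext (Transport_aux_inj g ((hπ ξ).symm.trans h1))
  rw [h, Function.comp_apply, h2]
theorem classes_comp {π : Equiv.Perm (Curve Y)} (hπ : π ∈ autG Y) {d : Curve Y → ℝ}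
    (hd : d ∈ classes Y) : d ∘ π ∈ classes Y := by
  obtain ⟨g, hg, hπ⟩ := hπ
  obtain ⟨f, hf, hd⟩ := hd
  refine ⟨act g f, hf.to_act g (isAut_iff.1 hg), fun ξ => ?_⟩
  rw [Function.comp_apply, hd, ← deg_act g (isAut_iff.1 hg), ← hπ]
theorem effClasses_comp {π : Equiv.Perm (Curve Y)} (hπ : π ∈ autG Y) {d : Curve Y → ℝ}
    (hd : d ∈ effClasses Y) : d ∘ π ∈ effClasses Y := by
  obtain ⟨g, hg, hπ⟩ := hπ
  obtain ⟨f, hf, he, hd⟩ := hd
  refine ⟨act g f, hf.to_act g (isAut_iff.1 hg), eff_act g (isAut_iff.1 hg) he, fun ξ => ?_⟩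
  rw [Function.comp_apply, hd, ← deg_act g (isAut_iff.1 hg), ← hπ]

end Pool.Agent.MP_95da86_ag

end
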