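import Pool.Agent.Mg.F95da86.G63500b
import Pool.Agent.Mg.F95da86.Gd93703
import Pool.Agent.Mg.F95da86.G21f202
import Mathlib
import Pool.Agent.Mg.F95da86.Gb6e823
import Pool.Agent.Mg.F95da86.G1b2ace
import Pool.Agent.Mg.F95da86.G0087e1

section

/-! Heights of points over function fields: the exact parallelogram law. -/

namespace Pool.Agent.MP_95da86_ag

variable {M : Type} [Field M] [Algebra ℂ M]

variable {k : Type} [Field k] [Algebra ℂ k] [Algebra k M] [IsScalarTower ℂ k M]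

theorem IsFF.lam_fin (h : IsFF k M) (Q : EP M) :
    (Function.support fun V : Pl k M => lam V.1 Q).Finite := by
  have := charZero_of k
  refine (h.ord_fin (yc Q)).subset fun V hV h0 => hV ?_
  simp only [lam] at h0 ⊢
  rw [h0]; rfl

theorem ht_nonneg (Q : EP M) : 0 ≤ ht k Q := finsum_nonneg fun V => lam_nonneg V.1 Q

theorem Height_aux_zero (h : IsFF k M) {Q : EP M} (hQ : ∀ V : Pl k M, yc Q ∈ V.1) :
    ht k Q = 0 := by
  have := charZero_of k
  refine finsum_eq_zero_of_forall_eq_zero fun V => ?_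
  have := h.dvr V
  exact le_antisymm (not_lt.1 fun hp => (lam_pos_iff V.1 Q).1 hp (hQ V)) (lam_nonneg V.1 Q)

theorem ht_zero (h : IsFF k M) : ht k (0 : EP M) = 0 :=
  Height_aux_zero h fun V => by rw [yc_zero]; exact zero_mem _

theorem ht_neg (h : IsFF k M) (Q : EP M) : ht k (-Q) = ht k Q := by
  have := charZero_of k
  refine finsum_congr fun V => ?_
  have := h.dvr V
  rw [lam, lam, yc_neg, ord_neg]

theorem ht_om (Q : EP M) : ht k (om • Q) = ht k Q :=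
  finsum_congr fun V => by rw [lam, lam, yc_om]

theorem Height_aux_const (V : Pl k M) (c : ℂ) : algebraMap ℂ M c ∈ V.1 := by
  rw [IsScalarTower.algebraMap_apply ℂ k M]; exact V.2.2 _

theorem Height_aux_sum {ι : Type} {f g : ι → ℤ} (hf : (Function.support f).Finite)
    (hg : (Function.support g).Finite) (a b : ℤ) :
    (Function.support fun i => a * f i + b * g i).Finite ∧
      ∑ᶠ i, (a * f i + b * g i) = a * ∑ᶠ i, f i + b * ∑ᶠ i, g i := by
  have h1 : (Function.support fun i => a * f i).Finite :=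
    hf.subset fun i hi h0 => hi (by simp only [h0, mul_zero])
  have h2 : (Function.support fun i => b * g i).Finite :=
    hg.subset fun i hi h0 => hi (by simp only [h0, mul_zero])
  refine ⟨(h1.union h2).subset (Function.support_add _ _), ?_⟩
  rw [finsum_add_distrib h1 h2, mul_finsum f a, mul_finsum g b]

theorem Height_aux_ord {N : Type} [Field N] (V : ValuationSubring N) [IsDiscreteValuationRing V]
    (y : N) [Decidable (y ∈ V)] : ord V (if y ∈ V then 1 else y⁻¹) = max 0 (-ord V y) := by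
  have := ord_nonneg_iff V y
  split_ifs with hy
  · rw [ord_one, max_eq_left (by simpa using this.2 hy)]
  · rw [ord_inv, max_eq_right (by have := this.not.2 hy; omega)]

variable [IsAlgClosed k]

theorem Height_aux_dbl (h : IsFF k M) (P : EP M) : ht k (P + P) = 4 * ht k P := by
  have := charZero_of k
  by_cases hy : yc P = 0
  · have h1 : P + P = 0 := by
      by_cases hP : P = 0
      · simp [hP]
      · rw [add_eq_zero_iff_eq_neg]
        exact EP.ext' hP (neg_ne_zero.2 hP) (xc_neg P).symm (by rw [yc_neg, hy, neg_zero])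
    rw [h1, ht_zero h, Height_aux_zero h fun V => by rw [hy]; exact zero_mem _, mul_zero]
  · have h1 := (Height_aux_sum (h.lam_fin P) (h.ord_fin (yc P)) 4 3).2
    rw [h.sum_ord, mul_zero, add_zero] at h1
    rw [ht, ht, ← h1]
    refine finsum_congr fun V => ?_
    have := h.dvr V
    exact lam_dbl V.1 (Height_aux_const V) hy

theorem ht_par (h : IsFF k M) (P Q : EP M) :
    ht k (P + Q) + ht k (P - Q) = 2 * ht k P + 2 * ht k Q := by
  have := charZero_of k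
  by_cases hP : P = 0
  · rw [hP, zero_add, zero_sub, ht_neg h, ht_zero h]; ring
  by_cases hQ : Q = 0
  · rw [hQ, add_zero, sub_zero, ht_zero h]; ring
  by_cases hx : xc P = xc Q
  · have h1 : (yc P - yc Q) * (yc P + yc Q) = 0 := by
      have e1 := eqn_of_ne hP
      have e2 := eqn_of_ne hQ
      rw [hx] at e1
      linear_combination e1 - e2
    rcases mul_eq_zero.1 h1 with h2 | h2
    · obtain rfl : P = Q := EP.ext' hP hQ hx (sub_eq_zero.1 h2)
      rw [sub_self, ht_zero h, Height_aux_dbl h]; ring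
    · obtain rfl : P = -Q := EP.ext' hP (neg_ne_zero.2 hQ) (by rw [xc_neg, hx])
        (by rw [yc_neg]; linear_combination h2)
      rw [neg_add_cancel, ht_zero h, sub_eq_add_neg, Height_aux_dbl h, ht_neg h]; ring
  · obtain ⟨h1, h2⟩ := Height_aux_sum (h.lam_fin P) (h.lam_fin Q) 2 2
    have h3 := (Height_aux_sum h1 (h.ord_fin (xc P - xc Q)) 1 3).2
    have h4 := (Height_aux_sum (h.lam_fin (P + Q)) (h.lam_fin (P - Q)) 1 1).2
    rw [h.sum_ord, h2] at h3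
    simp only [one_mul, mul_zero, add_zero] at h3 h4
    rw [ht, ht, ht, ht, ← h3, ← h4]
    refine finsum_congr fun V => ?_
    have := h.dvr V
    exact lam_par V.1 (Height_aux_const V) hP hQ hx

theorem ht_eq_zero (h : IsFF k M) (Q : EP M) : ht k Q = 0 ↔ ∃ c : EP k, Q = up k M c := by
  have := charZero_of k
  constructor
  · intro h0
    have h1 : ∀ V : Pl k M, lam V.1 Q = 0 := fun V => le_antisymm
      (h0 ▸ single_le_finsum V (h.lam_fin Q) fun W => lam_nonneg W.1 Q) (lam_nonneg V.1 Q)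
    obtain ⟨a, ha⟩ := const_of_no_pole (k := k) (f := xc Q) fun V => by
      have := h.dvr V
      have h2 := two_lam V.1 Q
      rw [h1] at h2
      rw [← ord_nonneg_iff]
      omega
    obtain ⟨b, hb⟩ := const_of_no_pole (k := k) (f := yc Q) fun V => by
      have := h.dvr V
      by_contra hc
      exact ((lam_pos_iff V.1 Q).2 hc).ne' (h1 V)
    exact exists_up ⟨a, ha.symm⟩ ⟨b, hb.symm⟩
  · rintro ⟨c, rfl⟩
    exact Height_aux_zero h fun V => by rw [up, yc_emap]; exact V.2.2 _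

theorem Height_aux_le (h : IsFF k M) (Q : EP M) (c : EP k) : ht k Q ≤ ht k (Q + up k M c) := by
  set C := up k M c with hC
  have h0 : ht k C = 0 := (ht_eq_zero h C).2 ⟨c, rfl⟩
  have h1 : ∀ n : ℕ, ht k (Q + n • C) = ht k Q + n * (ht k (Q + C) - ht k Q) ∧
      ht k (Q + (n + 1) • C) = ht k Q + (n + 1) * (ht k (Q + C) - ht k Q) := by
    intro n
    induction n with
    | zero => simp
    | succ n ih =>
      refine ⟨by rw [ih.2]; push_cast; ring, ?_⟩
      have h2 := ht_par h (Q + (n + 1) • C) C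
      rw [show Q + (n + 1) • C + C = Q + (n + 1 + 1) • C by rw [succ_nsmul C (n + 1), add_assoc],
        show Q + (n + 1) • C - C = Q + n • C by rw [succ_nsmul]; abel, ih.1, ih.2, h0] at h2
      push_cast
      linear_combination h2
  by_contra hc
  have h2 := (h1 ((ht k Q).toNat + 1)).1
  have h3 := ht_nonneg (k := k) (Q + ((ht k Q).toNat + 1) • C)
  have h4 := ht_nonneg (k := k) Q
  rw [h2] at h3
  push_cast at h3
  rw [Int.toNat_of_nonneg h4] at h3
  nlinarith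

/-- `n ↦ ht (Q + n c)` is a non-negative affine function of `n ∈ ℤ`. -/
theorem ht_add_up (h : IsFF k M) (Q : EP M) (c : EP k) : ht k (Q + up k M c) = ht k Q := by
  have h1 := Height_aux_le h (Q + up k M c) (-c)
  rw [map_neg, add_neg_cancel_right] at h1
  exact le_antisymm h1 (Height_aux_le h Q c)

theorem Height_aux_qf (h : IsFF k M) (φ : Fin 3 → EP M) :
    IsQF fun l => (ht k (lin l φ) : ℝ) where
  par a b := by
    have e1 : lin (a + b) φ = lin a φ + lin b φ := by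
      simp only [lin, Pi.add_apply, add_smul, Finset.sum_add_distrib]
    have e2 : lin (a - b) φ = lin a φ - lin b φ := by
      simp only [lin, Pi.sub_apply, sub_smul, Finset.sum_sub_distrib]
    rw [e1, e2]
    exact_mod_cast ht_par h _ _
  rot a := by
    have e : lin (om • a) φ = om • lin a φ := by
      simp only [lin, Pi.smul_apply, smul_eq_mul, mul_smul, Finset.smul_sum]
    rw [e, ht_om]

theorem ht_smul (h : IsFF k M) (a : Zw) (Q : EP M) : ht k (a • Q) = nm a * ht k Q := by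
  have h1 := (Height_aux_qf h fun _ => Q).smul a (Pi.single 0 1)
  have e1 : lin (a • Pi.single 0 1) (fun _ => Q) = a • Q := by simp [lin, Fin.sum_univ_three]
  have e2 : lin (Pi.single 0 1) (fun _ => Q) = Q := by simp [lin]
  simp only [e1, e2] at h1
  exact_mod_cast h1

theorem ht_up {M' : Type} [Field M'] [Algebra ℂ M'] [Algebra k M'] [Algebra M M']
    [IsScalarTower ℂ k M'] [IsScalarTower ℂ M M'] [IsScalarTower k M M'] (h : IsFF k M)
    (h' : IsFF k M') (Q : EP M) : ht k (up M M' Q) = Module.finrank M M' * ht k Q := by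
  classical
  have := charZero_of k
  have := h.finite_tower h'
  choose u hu using fun V' : Pl k M' => exists_under (M := M) V'
  have h1 := (finsum_ext h h' u hu fun V => if yc Q ∈ V.1 then 1 else (yc Q)⁻¹).2
  have e1 : ∀ V : Pl k M, ord V.1 (if yc Q ∈ V.1 then 1 else (yc Q)⁻¹) = lam V.1 Q := fun V => by
    have := h.dvr V
    exact Height_aux_ord V.1 _
  have e2 : ∀ V' : Pl k M', ord V'.1 (algebraMap M M'
      (if yc Q ∈ (u V').1 then 1 else (yc Q)⁻¹)) = lam V'.1 (up M M' Q) := fun V' => by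
    have := h'.dvr V'
    have e : yc (up M M' Q) = algebraMap M M' (yc Q) := yc_emap _ _
    rw [lam, e, ← Height_aux_ord]
    simp only [hu, apply_ite (algebraMap M M'), map_one, map_inv₀]
  simp only [e1, e2] at h1
  exact h1

theorem isQF_ht (h : IsFF k M) (φ : Fin 3 → EP M) : IsQF fun l => (ht k (lin l φ) : ℝ) :=
  Height_aux_qf h φ

end Pool.Agent.MP_95da86_ag

end

section

/-! Intersection numbers on a separated and proper model. -/

namespace Pool.Agent.MP_95da86_ag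

variable {M : Type} [Field M] [Algebra ℂ M] {Y : Set (Pt M)} {f g : Pt M → Mˣ} {ξ : Pt M}

theorem branch_const {O : Pt M} {V : ValuationSubring (RF ξ)} (h : (O, V) ∈ branch Y ξ) (c : ℂ) :
    algebraMap ℂ (RF ξ) c ∈ V := by
  rw [← res_const ξ c]
  exact h.2.2.2.1 _ (O.1.algebraMap_mem c)
/-- Both centres are dominated by the preimage of `V` (`exists_pre`). -/
theorem branch_unique (hS : Sep Y) {O O' : Pt M} {V : ValuationSubring (RF ξ)}
    (h : (O, V) ∈ branch Y ξ) (h' : (O', V) ∈ branch Y ξ) : O = O' := by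
  obtain ⟨W, h1, h2⟩ := exists_pre ξ (vpt V (branch_const h))
  have key : ∀ A : Pt M, (A, V) ∈ branch Y ξ → Dom A W := fun A hA =>
    ⟨fun g hg => (h1 g).2 ⟨hA.2.1 hg, hA.2.2.2.1 g hg⟩,
      fun g hg => (h2 g).2 ⟨hA.2.1 (mx_sub hg), mem_mx_vpt.2 (hA.2.2.2.2 g hg)⟩⟩
  exact hS O h.1 O' h'.1 W (key O h) (key O' h')
theorem cen_spec (hP : Proper Y) (hξ : ξ ∈ Y) (V : Pl ℂ (RF ξ)) :
    (cen Y ξ V, V.1) ∈ branch Y ξ := by
  have h := hP ξ hξ V
  rw [cen, dif_pos h]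
  exact h.choose_spec
theorem cen_eq (hS : Sep Y) {O : Pt M} {V : Pl ℂ (RF ξ)} (h : (O, V.1) ∈ branch Y ξ) :
    cen Y ξ V = O := by
  have h' : ∃ O, (O, V.1) ∈ branch Y ξ := ⟨O, h⟩
  rw [cen, dif_pos h']
  exact branch_unique hS h'.choose_spec h
theorem deg_eq_finsum (hS : Sep Y) (hP : Proper Y) (hξ : ξ ∈ Y) (f : Pt M → Mˣ) :
    deg Y f ξ = ∑ᶠ V, term Y f ξ V := by
  have hr : branch Y ξ = Set.range fun V : Pl ℂ (RF ξ) => (cen Y ξ V, V.1) := by
    ext ⟨O, V⟩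
    constructor
    · intro h
      exact ⟨⟨V, h.2.2.1, branch_const h⟩, Prod.ext (cen_eq hS h) rfl⟩
    · rintro ⟨W, hW⟩
      rw [← hW]
      exact cen_spec hP hξ W
  have hi : Function.Injective fun V : Pl ℂ (RF ξ) => (cen Y ξ V, V.1) :=
    fun V W h => Subtype.ext (congrArg Prod.snd h)
  rw [deg, hr, finsum_mem_range hi]
  rfl

theorem Deg_aux_zpow {u : M} (hu : IsU ξ u) (n : ℤ) : res ξ (u ^ n) = res ξ u ^ n := by
  rcases n with n | n
  · simpa using res_pow hu.2.1 n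
  · rw [zpow_negSucc, zpow_negSucc, res_inv (hu.pow _), res_pow hu.2.1]

theorem Deg_aux_unit {O : Pt M} {V : ValuationSubring (RF ξ)} [IsDiscreteValuationRing V]
    (h : (O, V) ∈ branch Y ξ) {u : M} (hu : IsU O u) : ord V (res ξ u) = 0 := by
  rw [ord_eq_zero_iff, ← res_inv (hu.mono h.2.1)]
  exact ⟨h.2.2.2.1 _ hu.2.1, h.2.2.2.1 _ hu.2.2⟩

theorem Deg_aux_compat (hP : Proper Y) (hξ : ξ ∈ Y) (hf : IsCartier Y f) (V : Pl ℂ (RF ξ)) :
    IsU ξ ((f (cen Y ξ V) / f ξ : Mˣ) : M) :=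
  hf.compat (cen_spec hP hξ V).1 hξ (cen_spec hP hξ V).2.1

theorem Deg_aux_sub (hP : Proper Y) (hξ : ξ ∈ Y) (hF : IsFF ℂ (RF ξ)) (hf : IsCartier Y f)
    (hu : IsU ξ (f ξ)) (V : Pl ℂ (RF ξ)) :
    term Y f ξ V = ord V.1 (res ξ (f (cen Y ξ V) : M)) - ord V.1 (res ξ (f ξ : M)) := by
  have := hF.dvr V
  have h1 := (Deg_aux_compat hP hξ hf V).mul hu
  rw [Units.val_div_eq_div_val, div_mul_cancel₀ _ hu.1] at h1
  rw [term, Units.val_div_eq_div_val, res_div h1.2.1 hu, ord_div _ h1.res_ne hu.res_ne]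

section
variable (hS : Sep Y) (hP : Proper Y) (hξ : ξ ∈ Y) (hF : IsFF ℂ (RF ξ))
include hS hP hξ hF

theorem term_mul (hf : IsCartier Y f) (hg : IsCartier Y g) (V) :
    term Y (f * g) ξ V = term Y f ξ V + term Y g ξ V := by
  have := hF.dvr V
  have h1 := Deg_aux_compat hP hξ hf V
  have h2 := Deg_aux_compat hP hξ hg V
  rw [term, term, term, Pi.mul_apply, Pi.mul_apply, mul_div_mul_comm, Units.val_mul,
    res_mul h1.2.1 h2.2.1, ord_mul _ h1.res_ne h2.res_ne]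
theorem term_zpow (hf : IsCartier Y f) (n : ℤ) (V) : term Y (f ^ n) ξ V = n * term Y f ξ V := by
  have := hF.dvr V
  have h1 := Deg_aux_compat hP hξ hf V
  rw [term, term, Pi.pow_apply, Pi.pow_apply, ← div_zpow, Units.val_zpow_eq_zpow_val,
    Deg_aux_zpow h1, ord_zpow]
theorem term_const (u : Mˣ) (V) : term Y (fun _ => u) ξ V = 0 := by
  have := hF.dvr V
  rw [term, div_self', Units.val_one, res_one, ord_one]
theorem FinT.mul (hf : IsCartier Y f) (hg : IsCartier Y g) (h : FinT Y f ξ) (h' : FinT Y g ξ) :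
    FinT Y (f * g) ξ := by
  refine (h.union h').subset fun V hV => ?_
  by_contra hc
  simp only [Set.mem_union, Function.mem_support, not_or, not_not] at hc
  exact hV (by rw [term_mul hS hP hξ hF hf hg, hc.1, hc.2, add_zero])
theorem FinT.zpow (hf : IsCartier Y f) (h : FinT Y f ξ) (n : ℤ) : FinT Y (f ^ n) ξ := by
  refine Set.Finite.subset h fun V hV h0 => hV ?_
  rw [term_zpow hS hP hξ hF hf, h0, mul_zero]
theorem FinT.of_pow (hf : IsCartier Y f) {n : ℕ} (hn : 0 < n) (h : FinT Y (f ^ n) ξ) :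
    FinT Y f ξ := by
  refine Set.Finite.subset h fun V hV h0 => hV ?_
  rw [← zpow_natCast, term_zpow hS hP hξ hF hf] at h0
  exact (mul_eq_zero.1 h0).resolve_left (by exact_mod_cast hn.ne')
theorem finT_const (u : Mˣ) : FinT Y (fun _ => u) ξ :=
  Set.finite_empty.subset fun V hV => hV (term_const hS hP hξ hF u V)
theorem finT_prod {ι : Type} (s : Finset ι) (F : ι → Pt M → Mˣ) (h : ∀ i ∈ s, IsCartier Y (F i))
    (h' : ∀ i ∈ s, FinT Y (F i) ξ) : FinT Y (∏ i ∈ s, F i) ξ :=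
  (Finset.prod_induction F (fun a => IsCartier Y a ∧ FinT Y a ξ)
    (fun _ _ ha hb => ⟨ha.1.mul hb.1, FinT.mul hS hP hξ hF ha.1 hb.1 ha.2 hb.2⟩)
    ⟨isCartier_one, finT_const hS hP hξ hF 1⟩ fun i hi => ⟨h i hi, h' i hi⟩).2
/-- Local equations taking finitely many values. -/
theorem finT_of_finite (hf : IsCartier Y f) (h : (Set.range f).Finite) : FinT Y f ξ := by
  refine (h.biUnion fun u _ => hF.ord_fin (res ξ ((u / f ξ : Mˣ) : M))).subset fun V hV => ?_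
  exact Set.mem_biUnion (Set.mem_range_self (cen Y ξ V)) hV
theorem deg_mul (hf : IsCartier Y f) (hg : IsCartier Y g) (h : FinT Y f ξ) (h' : FinT Y g ξ) :
    deg Y (f * g) ξ = deg Y f ξ + deg Y g ξ := by
  rw [deg_eq_finsum hS hP hξ, deg_eq_finsum hS hP hξ, deg_eq_finsum hS hP hξ,
    ← finsum_add_distrib h h']
  exact finsum_congr (term_mul hS hP hξ hF hf hg)
theorem deg_zpow (hf : IsCartier Y f) (n : ℤ) : deg Y (f ^ n) ξ = n * deg Y f ξ := by
  rw [deg_eq_finsum hS hP hξ, deg_eq_finsum hS hP hξ, ← smul_eq_mul, smul_finsum]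
  exact finsum_congr (term_zpow hS hP hξ hF hf n)
theorem deg_const (u : Mˣ) : deg Y (fun _ => u) ξ = 0 := by
  rw [deg_eq_finsum hS hP hξ]
  exact finsum_eq_zero_of_forall_eq_zero (term_const hS hP hξ hF u)
theorem deg_prod {ι : Type} (s : Finset ι) (F : ι → Pt M → Mˣ) (h : ∀ i ∈ s, IsCartier Y (F i))
    (h' : ∀ i ∈ s, FinT Y (F i) ξ) : deg Y (∏ i ∈ s, F i) ξ = ∑ i ∈ s, deg Y (F i) ξ := by
  classical
  induction s using Finset.induction_on with
  | empty =>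
    rw [Finset.prod_empty, Finset.sum_empty]
    exact deg_const hS hP hξ hF 1
  | insert a s ha ih =>
    have h1 : ∀ i ∈ s, IsCartier Y (F i) := fun i hi => h i (Finset.mem_insert_of_mem hi)
    have h2 : ∀ i ∈ s, FinT Y (F i) ξ := fun i hi => h' i (Finset.mem_insert_of_mem hi)
    rw [Finset.prod_insert ha, Finset.sum_insert ha,
      deg_mul hS hP hξ hF (h a (Finset.mem_insert_self a s)) (isCartier_prod s F h1)
        (h' a (Finset.mem_insert_self a s)) (finT_prod hS hP hξ hF s F h1 h2), ih h1 h2]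
omit hS in
theorem Deg_aux_triv (hf : Triv Y f) (V : Pl ℂ (RF ξ)) :
    term Y f ξ V = -ord V.1 (res ξ (f ξ : M)) := by
  have := hF.dvr V
  rw [Deg_aux_sub hP hξ hF hf.isCartier (hf ξ hξ),
    Deg_aux_unit (cen_spec hP hξ V) (hf _ (cen_spec hP hξ V).1), zero_sub]
theorem Triv.finT (hf : Triv Y f) : FinT Y f ξ := by
  refine (hF.ord_fin (res ξ (f ξ : M))).subset fun V hV h0 => hV ?_
  rw [Deg_aux_triv hP hξ hF hf, neg_eq_zero]
  exact h0
/-- The product formula. -/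
theorem Triv.deg_eq_zero (hf : Triv Y f) : deg Y f ξ = 0 := by
  rw [deg_eq_finsum hS hP hξ, finsum_congr (Deg_aux_triv hP hξ hF hf), finsum_neg_distrib,
    hF.sum_ord, neg_zero]
/-- An effective divisor not containing the curve. -/
theorem deg_eff (hf : IsCartier Y f) (h : FinT Y f ξ) (he : ∀ O ∈ Y, (f O : M) ∈ O.1)
    (hu : IsU ξ (f ξ)) :
    (∀ V : Pl ℂ (RF ξ), 0 ≤ ord V.1 (res ξ (f (cen Y ξ V) : M))) ∧
    (Function.support fun V : Pl ℂ (RF ξ) => ord V.1 (res ξ (f (cen Y ξ V) : M))).Finite ∧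
    deg Y f ξ = ∑ᶠ V : Pl ℂ (RF ξ), ord V.1 (res ξ (f (cen Y ξ V) : M)) := by
  have hb := hF.ord_fin (res ξ (f ξ : M))
  have e : ∀ V : Pl ℂ (RF ξ), ord V.1 (res ξ (f (cen Y ξ V) : M)) =
      term Y f ξ V + ord V.1 (res ξ (f ξ : M)) := fun V => by
    rw [Deg_aux_sub hP hξ hF hf hu, sub_add_cancel]
  refine ⟨fun V => ?_, ?_, ?_⟩
  · have := hF.dvr V
    rw [ord_nonneg_iff]
    exact (cen_spec hP hξ V).2.2.2.1 _ (he _ (cen_spec hP hξ V).1)
  · refine (h.union hb).subset fun V hV => ?_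
    by_contra hc
    simp only [Set.mem_union, Function.mem_support, not_or, not_not] at hc
    exact hV ((e V).trans (by rw [hc.1, hc.2, add_zero]))
  · rw [finsum_congr e, finsum_add_distrib h hb, hF.sum_ord, add_zero, deg_eq_finsum hS hP hξ]
theorem deg_nonneg (hf : IsCartier Y f) (h : FinT Y f ξ) (he : ∀ O ∈ Y, (f O : M) ∈ O.1)
    (hu : IsU ξ (f ξ)) : 0 ≤ deg Y f ξ := by
  obtain ⟨h1, -, h3⟩ := deg_eff hS hP hξ hF hf h he hu
  rw [h3]
  exact finsum_nonneg h1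
theorem term_zq {Q : EP M} (hQ : ∀ O ∈ Y, Intg O Q) (V) :
    term Y (zq (yc Q)) ξ V = lam V.1 (red ξ Q) := by
  have := hF.dvr V
  have hb := cen_spec hP hξ V
  rw [term, lam]
  by_cases hy : yc Q ∈ ξ.1
  · rw [zq_of_mem hy, div_one, yc_red (hQ ξ hξ) hy]
    by_cases hO : yc Q ∈ (cen Y ξ V).1
    · have h1 := (ord_nonneg_iff V.1 _).2 (hb.2.2.2.1 _ hO)
      rw [zq_of_mem hO, Units.val_one, res_one, ord_one]
      omega
    · have ht : (yc Q)⁻¹ ∈ mx (cen Y ξ V) := (hQ _ hb.1).tc_mem hO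
      have hu : IsU ξ (yc Q) := ⟨Red_aux_y0 hO, hy, hb.2.1 (mx_sub ht)⟩
      have h1 := (ord_nonneg_iff V.1 _).2 (hb.2.2.2.1 _ (mx_sub ht))
      rw [zq_of_not_mem hO]
      rw [res_inv hu, ord_inv] at h1 ⊢
      omega
  · have hO : yc Q ∉ (cen Y ξ V).1 := fun h => hy (hb.2.1 h)
    rw [Units.val_div_eq_div_val, zq_of_not_mem hO, zq_of_not_mem hy,
      div_self (inv_ne_zero (Red_aux_y0 hy)), res_one, ord_one,
      (red_eq_zero (hQ ξ hξ)).2 (Or.inr hy), yc_zero, ord_zero]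
    simp
theorem finT_zq (y : M) (hy : IsCartier Y (zq y)) : FinT Y (zq y) ξ := by
  refine finT_of_finite hS hP hξ hF hy ?_
  refine Set.Finite.of_finite_image (f := Units.val) ?_ Units.val_injective.injOn
  refine ((Set.finite_singleton y⁻¹).insert 1).subset ?_
  rintro _ ⟨_, ⟨O, rfl⟩, rfl⟩
  by_cases h : y ∈ O.1
  · rw [zq_of_mem h]
    exact Or.inl rfl
  · exact Or.inr (zq_of_not_mem h)
theorem deg_zq {Q : EP M} (hQ : ∀ O ∈ Y, Intg O Q) :
    deg Y (zq (yc Q)) ξ = ht ℂ (red ξ Q) := by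
  rw [deg_eq_finsum hS hP hξ, ht]
  exact finsum_congr (term_zq hS hP hξ hF hQ)
end

end Pool.Agent.MP_95da86_ag

end

section

/-! The quotient map. -/

namespace Pool.Agent.MP_95da86_ag

variable {L : Type} [Field L] [Algebra ℂ L] {P : Fin 3 → EP L} {σ : L ≃ₐ[ℂ] L} {ξ : Pt L}

theorem qpt_sigma (O : Pt L) : qpt (KK σ) (mapPt σ O) = qpt (KK σ) O := by
  refine Subtype.ext (Subalgebra.ext fun f => ?_)
  have e : σ.symm (f : L) = f := by
    rw [AlgEquiv.symm_apply_eq]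
    exact (mem_KK.1 f.2).symm
  rw [mem_qpt, mem_qpt, mem_mapPt, e]

theorem QuotA_aux_avoid {R : Type} [CommRing R] (τ : R →+* R) (h3 : ∀ a, τ (τ (τ a)) = a)
    {p q : Ideal R} (hp : p.IsPrime) (h : ∀ a, τ a = a → a ∈ q → a ∈ p) :
    ∃ k : ℕ, ∀ a ∈ q, τ^[k] a ∈ p := by
  have key : (q : Set R) ⊆ ⋃ i ∈ (↑(Finset.range 3) : Set ℕ), (p.comap (τ ^ i) : Set R) := by
    intro a ha
    have hN : a * τ a * τ (τ a) ∈ p := by
      refine h _ ?_ (Ideal.mul_mem_right _ _ (Ideal.mul_mem_right _ _ ha))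
      rw [map_mul, map_mul, h3]
      ring
    simp only [Set.mem_iUnion, SetLike.mem_coe, Ideal.mem_comap, RingHom.coe_pow]
    rcases hp.mem_or_mem hN with h₁ | h₁
    · rcases hp.mem_or_mem h₁ with h₂ | h₂
      · exact ⟨0, by simp, h₂⟩
      · exact ⟨1, by simp, h₂⟩
    · exact ⟨2, by simp, h₁⟩
  obtain ⟨k, -, hk⟩ := (Ideal.subset_union_prime (f := fun i => p.comap (τ ^ i)) 0 0
    fun i _ _ _ => Ideal.comap_isPrime _ _).1 key
  refine ⟨k, fun a ha => ?_⟩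
  have := hk ha
  rwa [Ideal.mem_comap, RingHom.coe_pow] at this

theorem QuotA_aux_conj {R : Type} [CommRing R] (τ : R →+* R) (h3 : ∀ a, τ (τ (τ a)) = a)
    {p q : Ideal R} (hp : p.IsPrime) (hq : q.IsPrime) (h : ∀ a, τ a = a → (a ∈ q ↔ a ∈ p)) :
    ∃ k : ℕ, ∀ a, a ∈ q ↔ τ^[k] a ∈ p := by
  obtain ⟨k, hk⟩ := QuotA_aux_avoid τ h3 hp fun a e => (h a e).1
  obtain ⟨j, hj⟩ := QuotA_aux_avoid τ h3 hq fun a e => (h a e).2
  have h₁ : ∀ a ∈ q, τ^[j + k] a ∈ q := fun a ha => by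
    rw [Function.iterate_add_apply]
    exact hj _ (hk a ha)
  have h₂ : ∀ (m : ℕ) a, τ^[m] (τ^[m] (τ^[m] a)) = a := fun m a => by
    have e : τ^[3] = id := funext h3
    rw [← Function.iterate_add_apply, ← Function.iterate_add_apply,
      show m + m + m = 3 * m by ring, Function.iterate_mul, e, Function.iterate_id, id]
  refine ⟨k, fun a => ⟨hk a, fun ha => ?_⟩⟩
  have h₃ : τ^[j + k] a ∈ q := by
    rw [Function.iterate_add_apply]
    exact hj _ ha
  exact h₂ (j + k) a ▸ h₁ _ (h₁ _ h₃)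

theorem QuotA_aux_iter (h : Cfg P σ) {O : Pt L} (hO : O ∈ blP P σ) {A : Subalgebra ℂ L}
    (hA : ∀ a ∈ A, σ a ∈ A) (hA' : ∀ a ∈ A, σ.symm a ∈ A) (hs : O ∈ spec A) (k : ℕ) :
    ∃ O' ∈ blP P σ, qpt (KK σ) O' = qpt (KK σ) O ∧ O' ∈ spec A ∧
      ∀ f, f ∈ mx O' ↔ σ^[k] f ∈ mx O := by
  induction k with
  | zero => exact ⟨O, hO, rfl, hs, fun _ => Iff.rfl⟩
  | succ k ih =>
    obtain ⟨O', h₁, h₂, h₃, h₄⟩ := ih
    have e : A.map (σ.symm : L →ₐ[ℂ] L) = A := by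
      refine le_antisymm ?_ fun a ha => ⟨σ a, hA a ha, by simp⟩
      rintro _ ⟨a, ha, rfl⟩
      exact hA' a ha
    refine ⟨mapPt σ.symm O', h.bl_sigma.1 (by rwa [mapPt_mapPt_symm]), ?_,
      e ▸ spec_mapPt σ.symm h₃, fun f => ?_⟩
    · rw [← qpt_sigma, mapPt_mapPt_symm, h₂]
    · rw [mem_mx_mapPt, AlgEquiv.symm_symm, h₄, Function.iterate_succ_apply]

theorem QuotA_aux_dom {A : Subalgebra ℂ L} {O W : Pt L} (hs : O ∈ spec A) (hW : A ≤ W.1)
    (h : ∀ a ∈ A, (a ∈ mx W ↔ a ∈ mx O)) : Dom O W := by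
  obtain ⟨C, hC, hd⟩ := exists_centre A W hW
  have k : ∀ a ∈ A, (a ∈ mx C ↔ a ∈ mx O) := fun a ha =>
    Iff.trans ⟨fun e => hd.2 e, mx_of_le hd.1 (hC.1 ha)⟩ (h a ha)
  have le : ∀ {X Y : Pt L}, X ∈ spec A → Y ∈ spec A → (∀ a ∈ A, a ∈ mx Y → a ∈ mx X) →
      X.1 ≤ Y.1 := by
    intro X Y hX hY H f hf
    obtain ⟨a, ha, b, hb, hb', rfl⟩ := hX.2 f hf
    by_cases h0 : b = 0
    · simp [h0]
    · rw [div_eq_mul_inv]
      exact mul_mem (hY.1 ha) (isU_of_not_mx (hY.1 hb) fun e =>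
        IsU.not_mx ⟨h0, hX.1 hb, hb'⟩ (H b hb e)).2.2
  have e : O = C := Subtype.ext (le_antisymm (le hs hC fun a ha => (k a ha).1)
    (le hC hs fun a ha => (k a ha).2))
  exact e ▸ hd

/-- If a valuation ring `V` of `L` dominates `O ∩ K`, it dominates a conjugate of `O`: with `S` from
`bl_fin`, `A = ℂ[S]` is `σ`-stable and lies in `V` (cubes of the generators are in `O ∩ K`); the
primes `mx O ∩ A` and `mx V ∩ A` agree on `K`, so they are conjugate (norm `a * σ a * σ σ a`, prime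
avoidance). -/
theorem Cfg.exists_conj (h : Cfg P σ) {O : Pt L} (hO : O ∈ blP P σ) (V : ValuationSubring L) (hV)
    (hd : Dom (qpt (KK σ) O) (qpt (KK σ) (vpt V hV))) :
    ∃ O' ∈ blP P σ, qpt (KK σ) O' = qpt (KK σ) O ∧ Dom O' (vpt V hV) := by
  obtain ⟨S, -, hS, hs⟩ := h.bl_fin hO
  have h3 : ∀ a, σ (σ (σ a)) = a := fun a => by
    have := congrArg (fun g : L ≃ₐ[ℂ] L => g a) h.pow_three
    simpa [pow_succ] using this
  have hA : ∀ a ∈ Algebra.adjoin ℂ S, σ a ∈ Algebra.adjoin ℂ S := by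
    have : Algebra.adjoin ℂ S ≤ (Algebra.adjoin ℂ S).comap (σ : L →ₐ[ℂ] L) := by
      refine Algebra.adjoin_le fun g hg => ?_
      change σ g ∈ Algebra.adjoin ℂ S
      rcases hS g hg with e | e <;> rw [e]
      · exact Algebra.subset_adjoin hg
      · exact mul_mem (Subalgebra.algebraMap_mem _ _) (Algebra.subset_adjoin hg)
    exact fun a ha => this ha
  have hA' : ∀ a ∈ Algebra.adjoin ℂ S, σ.symm a ∈ Algebra.adjoin ℂ S := fun a ha => by
    have e : σ.symm a = σ (σ a) := by rw [AlgEquiv.symm_apply_eq, h3]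
    exact e ▸ hA _ (hA a ha)
  have hW : Algebra.adjoin ℂ S ≤ (vpt V hV).1 := by
    refine Algebra.adjoin_le fun g hg => ?_
    have e : σ (g ^ 3) = g ^ 3 := by
      rw [map_pow]
      rcases hS g hg with e | e <;> rw [e]
      rw [mul_pow, zt_pow, one_mul]
    have h₁ : g ^ 3 ∈ V := hd.1 (show (⟨g ^ 3, mem_KK.2 e⟩ : KK σ) ∈ (qpt (KK σ) O).1 from
      pow_mem (hs.1 (Algebra.subset_adjoin hg)) 3)
    change g ∈ V
    rcases V.mem_or_inv_mem g with h₂ | h₂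
    · exact h₂
    · by_cases h0 : g = 0
      · simp [h0]
      · have e' : g = g ^ 3 * (g⁻¹ * g⁻¹) := by field_simp
        exact e' ▸ mul_mem h₁ (mul_mem h₂ h₂)
  let τ : Algebra.adjoin ℂ S →+* Algebra.adjoin ℂ S := (σ : L →+* L).restrict _ _ hA
  have hτ : ∀ a, ((τ a : Algebra.adjoin ℂ S) : L) = σ a := fun _ => rfl
  have hτ' : ∀ (k : ℕ) a, ((τ^[k] a : Algebra.adjoin ℂ S) : L) = σ^[k] a := fun k => by
    induction k with
    | zero => exact fun _ => rfl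
    | succ k ih => exact fun a => by rw [Function.iterate_succ_apply, ih, hτ]; rfl
  have mem : ∀ (X : Pt L) (hX : Algebra.adjoin ℂ S ≤ X.1) (a : Algebra.adjoin ℂ S),
      a ∈ (IsLocalRing.maximalIdeal X.1).comap (Subalgebra.inclusion hX) ↔ (a : L) ∈ mx X :=
    fun X hX a => by rw [Ideal.mem_comap, ← coe_mem_mx, Subalgebra.coe_inclusion]
  obtain ⟨k, hk⟩ := QuotA_aux_conj τ (fun a => Subtype.ext (h3 a))
    (p := (IsLocalRing.maximalIdeal O.1).comap (Subalgebra.inclusion hs.1))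
    (q := (IsLocalRing.maximalIdeal (vpt V hV).1).comap (Subalgebra.inclusion hW))
    (Ideal.comap_isPrime _ _) (Ideal.comap_isPrime _ _) fun a e => by
      have e' : (a : L) ∈ KK σ := mem_KK.2 (congrArg Subtype.val e)
      rw [mem, mem, ← mem_mx_qpt (F := KK σ) (f := ⟨a, e'⟩), ← mem_mx_qpt (F := KK σ) (f := ⟨a, e'⟩)]
      exact ⟨mx_of_le hd.1 (hs.1 a.2), fun e => hd.2 e⟩
  obtain ⟨O', h₁, h₂, h₃, h₄⟩ := QuotA_aux_iter h hO hA hA' hs k
  refine ⟨O', h₁, h₂, QuotA_aux_dom h₃ hW fun a ha => ?_⟩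
  have := hk ⟨a, ha⟩
  rw [mem, mem, hτ'] at this
  rw [h₄]
  exact this

theorem QuotA_aux_val (F : IntermediateField ℂ L) (W : Pt F) :
    ∃ (V : ValuationSubring L) (hV : _), Dom W (qpt F (vpt V hV)) := by
  let W' : Pt L := ⟨W.1.map F.val, isLocal_of _ (by
    rintro _ ⟨f, hf, rfl⟩
    rcases mx_or_isU (O := W) hf with h | h
    · have := (isU_one W).add_mx (mx_neg h)
      rw [← sub_eq_add_neg] at this
      refine Or.inr ⟨fun h0 => this.1 (Subtype.ext h0), ⟨_, this.2.2, rfl⟩⟩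
    · exact Or.inl ⟨fun h0 => h.1 (Subtype.ext h0), ⟨_, h.2.2, rfl⟩⟩)⟩
  obtain ⟨V, hV, hd⟩ := exists_val_dom W'
  refine ⟨V, hV, fun f hf => hd.1 ⟨f, hf, rfl⟩, fun f hf => mem_mx_qpt.2 (hd.2 ?_)⟩
  obtain ⟨h₁, h₂⟩ := mem_mx.1 hf
  refine mem_mx.2 ⟨⟨f, h₁, rfl⟩, fun hu => h₂ ⟨fun h0 => hu.1 (by simp [h0]), h₁, ?_⟩⟩
  obtain ⟨g, hg, e⟩ := hu.2.2
  have e' : g = f⁻¹ := Subtype.ext e
  exact e' ▸ hg

theorem Cfg.X_sep (h : Cfg P σ) : Sep (XP P σ) := by
  intro X hX Y hY W h₁ h₂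
  obtain ⟨O, hO, rfl⟩ := mem_XP.1 hX
  obtain ⟨O', hO', rfl⟩ := mem_XP.1 hY
  obtain ⟨V, hV, hd⟩ := QuotA_aux_val (KK σ) W
  obtain ⟨A, a₁, a₂, a₃⟩ := h.exists_conj hO V hV (h₁.trans hd)
  obtain ⟨B, b₁, b₂, b₃⟩ := h.exists_conj hO' V hV (h₂.trans hd)
  rw [← a₂, ← b₂, h.bl_sep A a₁ B b₁ _ a₃ b₃]

end Pool.Agent.MP_95da86_ag

end

section

/-! The quotient map. -/

namespace Pool.Agent.MP_95da86_ag

variable {L : Type} [Field L] [Algebra ℂ L] {P : Fin 3 → EP L} {σ : L ≃ₐ[ℂ] L} {ξ : Pt L}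

theorem exists_resHom (F : IntermediateField ℂ L) (ξ : Pt L) :
    ∃ ι : RF (qpt F ξ) →ₐ[ℂ] RF ξ, ∀ f : F, ι (res (qpt F ξ) f) = res ξ (f : L) := by
  let φ : (qpt F ξ).1 →ₐ[ℂ] RF ξ :=
    { toFun := fun f => res ξ ((f : F) : L)
      map_one' := res_one ξ
      map_mul' := fun f g => res_mul (O := ξ) f.2 g.2
      map_zero' := res_zero ξ
      map_add' := fun f g => res_add (O := ξ) f.2 g.2
      commutes' := fun c => res_const ξ c }
  refine ⟨Ideal.Quotient.liftₐ _ φ fun f hf =>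
    (res_eq_zero (O := ξ) f.2).2 (mem_mx_qpt.1 (coe_mem_mx.2 hf)), fun f => ?_⟩
  by_cases hf : f ∈ (qpt F ξ).1
  · rw [res_of_mem hf]; rfl
  · rw [res_of_not_mem hf, res_of_not_mem (O := ξ) (mt mem_qpt.2 hf)]
    exact map_zero _

/-- The residue field of `ξ` is generated by the residues of the finite set `S` of `bl_fin`. -/
theorem Cfg.rf_gens (h : Cfg P σ) (hξ : ξ ∈ blP P σ) : ∃ S : Set L, S.Finite ∧ S ⊆ ξ.1 ∧
    (∀ g ∈ S, σ (g ^ 3) = g ^ 3) ∧ IntermediateField.adjoin ℂ (res ξ '' S) = ⊤ := by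
  obtain ⟨S, h1, h2, h3, h4⟩ := h.bl_fin hξ
  refine ⟨S, h1, fun g hg => h3 (Algebra.subset_adjoin hg), fun g hg => ?_, ?_⟩
  · rcases h2 g hg with e | e
    · rw [map_pow, e]
    · rw [map_pow, e, mul_pow, zt_pow, one_mul]
  · have key : ∀ a ∈ Algebra.adjoin ℂ S, res ξ a ∈ IntermediateField.adjoin ℂ (res ξ '' S) := by
      intro a ha
      induction ha using Algebra.adjoin_induction with
      | mem x hx => exact IntermediateField.subset_adjoin _ _ ⟨x, hx, rfl⟩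
      | algebraMap c => rw [res_const]; exact IntermediateField.algebraMap_mem _ c
      | add x y hx hy h1 h2 => rw [res_add (h3 hx) (h3 hy)]; exact add_mem h1 h2
      | mul x y hx hy h1 h2 => rw [res_mul (h3 hx) (h3 hy)]; exact mul_mem h1 h2
    refine eq_top_iff.2 fun x _ => ?_
    obtain ⟨f, hf, rfl⟩ := res_surj ξ x
    obtain ⟨a, ha, b, hb, hb', rfl⟩ := h4 f hf
    by_cases b0 : b = 0
    · rw [b0, div_zero, res_zero]; exact zero_mem _
    · rw [res_div (h3 ha) ⟨b0, h3 hb, hb'⟩]; exact div_mem (key a ha) (key b hb)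

theorem Cfg.isFF_of_trdeg (h : Cfg P σ) (hξ : ξ ∈ blP P σ) (h1 : Algebra.trdeg ℂ (RF ξ) = 1) :
    IsFF ℂ (RF ξ) := by
  obtain ⟨S, hS, -, -, h4⟩ := h.rf_gens hξ
  exact isFF_of_gens (hS.image _) h4 h1

theorem Quot_aux_alg (h : Cfg P σ) (hξ : ξ ∈ blP P σ) [Algebra (RF (qpt (KK σ) ξ)) (RF ξ)]
    [IsScalarTower ℂ (RF (qpt (KK σ) ξ)) (RF ξ)]
    (hι : ∀ f : KK σ, algebraMap _ (RF ξ) (res (qpt (KK σ) ξ) f) = res ξ (f : L)) :
    Algebra.IsAlgebraic (RF (qpt (KK σ) ξ)) (RF ξ) := by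
  obtain ⟨S, -, h2, h3, h4⟩ := h.rf_gens hξ
  have : IntermediateField.adjoin ℂ (res ξ '' S) ≤
      (algebraicClosure (RF (qpt (KK σ) ξ)) (RF ξ)).restrictScalars ℂ := by
    rw [IntermediateField.adjoin_le_iff]
    rintro _ ⟨g, hg, rfl⟩
    refine mem_algebraicClosure_iff.2 (IsAlgebraic.of_pow (n := 3) (by norm_num) ?_)
    rw [← res_pow (h2 hg), ← coe_toK (h3 g hg), ← hι]
    exact isAlgebraic_algebraMap _
  exact ⟨fun x => mem_algebraicClosure_iff.1 (this (h4 ▸ IntermediateField.mem_top))⟩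

theorem Cfg.curve_iff (h : Cfg P σ) (hξ : ξ ∈ blP P σ) :
    Algebra.trdeg ℂ (RF (qpt (KK σ) ξ)) = 1 ↔ IsFF ℂ (RF ξ) := by
  obtain ⟨ι, hι⟩ := exists_resHom (KK σ) ξ
  let : Algebra (RF (qpt (KK σ) ξ)) (RF ξ) := ι.toRingHom.toAlgebra
  have : IsScalarTower ℂ (RF (qpt (KK σ) ξ)) (RF ξ) :=
    IsScalarTower.of_algebraMap_eq fun c => (ι.commutes c).symm
  have := Quot_aux_alg h hξ hι
  have e := trdeg_add_eq ℂ (RF (qpt (KK σ) ξ)) (A := RF ξ)
  rw [trdeg_eq_zero (A := RF ξ), add_zero] at e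
  rw [e]
  exact ⟨h.isFF_of_trdeg hξ, IsFF.trdeg⟩

theorem Quot_aux_branch {ι : RF (qpt (KK σ) ξ) →ₐ[ℂ] RF ξ}
    (hι : ∀ f : KK σ, ι (res (qpt (KK σ) ξ) f) = res ξ (f : L)) {O : Pt L}
    {V : Pl ℂ (RF (qpt (KK σ) ξ))} {V' : ValuationSubring (RF ξ)}
    (hV : ∀ f, ι f ∈ V' ↔ f ∈ V.1) (hO : (O, V') ∈ branch (blP P σ) ξ) :
    (qpt (KK σ) O, V.1) ∈ branch (XP P σ) (qpt (KK σ) ξ) := by
  obtain ⟨h1, h2, -, h4, h5⟩ := hO
  refine ⟨mem_XP.2 ⟨O, h1, rfl⟩, fun f hf => h2 hf, V.2.1, fun g hg => ?_, fun g hg => ?_⟩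
  · exact (hV _).1 (by rw [hι]; exact h4 _ hg)
  · have := h5 _ (mem_mx_qpt.1 hg)
    rw [← hι, ValuationSubring.mem_nonunits_iff_or, ← map_inv₀, hV, map_eq_zero] at this
    exact (ValuationSubring.mem_nonunits_iff_or _).2 this

theorem Cfg.X_proper (h : Cfg P σ) : Proper (XP P σ) := by
  intro η hη V
  obtain ⟨ξ, hξ, rfl⟩ := mem_XP.1 hη
  obtain ⟨ι, hι⟩ := exists_resHom (KK σ) ξ
  let : Algebra (RF (qpt (KK σ) ξ)) (RF ξ) := ι.toRingHom.toAlgebra
  have : IsScalarTower ℂ (RF (qpt (KK σ) ξ)) (RF ξ) :=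
    IsScalarTower.of_algebraMap_eq fun c => (ι.commutes c).symm
  obtain ⟨V', hV⟩ := exists_over (M' := RF ξ) V
  obtain ⟨O, hO⟩ := h.bl_proper ξ hξ V'
  exact ⟨_, Quot_aux_branch hι hV hO⟩

/-- The centre of a place upstairs maps to the centre of its restriction; apply `finsum_ext` with
`n` the degree of the residue field extension. -/
theorem Cfg.deg_pull (h : Cfg P σ) (hξ : ξ ∈ blP P σ) (hF : IsFF ℂ (RF ξ)) :
    ∃ n : ℕ, 0 < n ∧ ∀ f, IsCartier (XP P σ) f →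
      deg (blP P σ) (pull σ f) ξ = n * deg (XP P σ) f (qpt (KK σ) ξ) := by
  obtain ⟨ι, hι⟩ := exists_resHom (KK σ) ξ
  let : Algebra (RF (qpt (KK σ) ξ)) (RF ξ) := ι.toRingHom.toAlgebra
  have : IsScalarTower ℂ (RF (qpt (KK σ) ξ)) (RF ξ) :=
    IsScalarTower.of_algebraMap_eq fun c => (ι.commutes c).symm
  have := Quot_aux_alg h hξ hι
  have h1 := (h.curve_iff hξ).2 hF
  have : Algebra.Transcendental ℂ (RF (qpt (KK σ) ξ)) :=
    trdeg_ne_zero_iff.1 (by rw [h1]; exact one_ne_zero)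
  obtain ⟨t, ht⟩ := (Algebra.transcendental_def (R := ℂ) (A := RF (qpt (KK σ) ξ))).1 this
  have hF' : IsFF ℂ (RF (qpt (KK σ) ξ)) := hF.of_algHom ι ht
  have := hF'.finite_tower hF
  choose u hu using fun V' : Pl ℂ (RF ξ) => exists_under (M := RF (qpt (KK σ) ξ)) V'
  refine ⟨Module.finrank (RF (qpt (KK σ) ξ)) (RF ξ), Module.finrank_pos, fun f _ => ?_⟩
  rw [deg_eq_finsum h.bl_sep h.bl_proper hξ,
    deg_eq_finsum h.X_sep h.X_proper (mem_XP.2 ⟨ξ, hξ, rfl⟩)]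
  refine Eq.trans (finsum_congr fun V' => ?_) (finsum_ext hF' hF u hu fun V =>
    res (qpt (KK σ) ξ) ((f (cen (XP P σ) (qpt (KK σ) ξ) V) / f (qpt (KK σ) ξ) : (KK σ)ˣ) : KK σ)).2
  rw [cen_eq h.X_sep (Quot_aux_branch hι (hu V') (cen_spec h.bl_proper hξ V'))]
  refine congrArg (ord V'.1) (Eq.trans ?_ (hι _).symm)
  simp [pull]

end Pool.Agent.MP_95da86_ag

end

section

/-! A function on the blow-up without poles along prime divisors is regular. -/

namespace Pool.Agent.MP_95da86_ag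

variable {L : Type} [Field L] [Algebra ℂ L] {P : Fin 3 → EP L} {σ : L ≃ₐ[ℂ] L}

theorem Tower.const_mem (T : Tower P) {V : ValuationSubring L} (hV : V ∈ T.VV) (c : ℂ) :
    algebraMap ℂ L c ∈ V := by
  rw [IsScalarTower.algebraMap_apply ℂ T.F2 L]
  rcases hV with (hV | ⟨W, hG⟩) | ⟨W, W', hG, hG'⟩
  · exact hV.2 _
  · rw [hG.1, IsScalarTower.algebraMap_apply ℂ T.F1 T.F2]
    exact W.2.2 _
  · rw [hG'.1, IsScalarTower.algebraMap_apply ℂ T.F1 T.F2, hG.1]
    exact W.2.2 _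

private theorem Hart_aux_gauss {F M : Type} [Field F] [Field M] [Algebra ℂ F] [Algebra ℂ M]
    [Algebra F M] [IsScalarTower ℂ F M] {Q : EP M} {W : ValuationSubring F}
    {V : ValuationSubring M} (hQ : Gen F Q) (hW : ∀ c : ℂ, algebraMap ℂ F c ∈ W) (τ : ZMod 3) :
    IsGauss W V (xc (Q + tors M τ)) ↔ IsGauss W V (xc Q) := by
  refine ⟨fun hG => ?_, fun hG => hG.shift hQ hW τ⟩
  have := hG.shift (hQ.add_tors τ) hW (-τ)
  rwa [tors_neg, add_neg_cancel_right] at this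

private theorem Hart_aux_up {F : Type} [Field F] [Algebra ℂ F] [Algebra F L]
    [IsScalarTower ℂ F L] {Q : EP F} {R : EP L} (e : up F L Q = R) (τ : ZMod 3) :
    algebraMap F L (xc (Q + tors F τ)) = xc (R + tors L τ) ∧
      algebraMap F L (yc (Q + tors F τ)) = yc (R + tors L τ) := by
  have : R + tors L τ = emap (IsScalarTower.toAlgHom ℂ F L) (Q + tors F τ) := by
    rw [map_add, emap_tors, ← e]; rfl
  rw [this, xc_emap, yc_emap]
  exact ⟨rfl, rfl⟩

private theorem Hart_aux_x (P : Fin 3 → EP L) (i : Fin 3) : xc (P i) ∈ chartA P :=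
  Algebra.subset_adjoin (Or.inl ⟨i, rfl⟩)

private theorem Hart_aux_y (P : Fin 3 → EP L) (i : Fin 3) : yc (P i) ∈ chartA P :=
  Algebra.subset_adjoin (Or.inr ⟨i, rfl⟩)

/-- `Krull.step` three times for the generic points `P1 + a₀ T`, `P2 + a₁ T`, `P 2 + a₂ T`, and
`IsGauss.shift` to identify the family. -/
theorem Tower.krull (T : Tower P) (a : F3) :
    Krull (chartA fun i => P i + tors L (a i))
      {V | V ∈ T.VV ∧ ∀ g ∈ chartA fun i => P i + tors L (a i), g ∈ V} := by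
  have K3 := ((krull_base.step (T.g1.add_tors (a 0))).step (T.g2.add_tors (a 1))).step
    (T.g3.add_tors (a 2))
  obtain ⟨x1, y1⟩ := Hart_aux_up T.e1 (a 0)
  obtain ⟨x2, y2⟩ := Hart_aux_up T.e2 (a 1)
  have hx := Hart_aux_x fun i => P i + tors L (a i)
  have hy := Hart_aux_y fun i => P i + tors L (a i)
  rw [IsScalarTower.algebraMap_apply T.F1 T.F2 L] at x1 y1
  have hB : Algebra.adjoin ℂ (algebraMap T.F2 L '' (Algebra.adjoin ℂ (algebraMap T.F1 T.F2 ''
      (Algebra.adjoin ℂ (algebraMap ℂ T.F1 '' (⊤ : Subalgebra ℂ ℂ) ∪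
        {xc (T.P1 + tors T.F1 (a 0)), yc (T.P1 + tors T.F1 (a 0))}) : Subalgebra ℂ T.F1) ∪
        {xc (T.P2 + tors T.F2 (a 1)), yc (T.P2 + tors T.F2 (a 1))}) : Subalgebra ℂ T.F2) ∪
        {xc (P 2 + tors L (a 2)), yc (P 2 + tors L (a 2))}) =
      chartA fun i => P i + tors L (a i) := by
    apply le_antisymm
    · refine Algebra.adjoin_le ?_
      rintro g (⟨g, hg, rfl⟩ | rfl | rfl)
      · refine (Algebra.adjoin_le (S := (chartA fun i => P i + tors L (a i)).comap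
          (IsScalarTower.toAlgHom ℂ T.F2 L)) ?_ : _ ≤ _) hg
        rintro g (⟨g, hg, rfl⟩ | rfl | rfl)
        · refine (Algebra.adjoin_le (S := ((chartA fun i => P i + tors L (a i)).comap
            (IsScalarTower.toAlgHom ℂ T.F2 L)).comap (IsScalarTower.toAlgHom ℂ T.F1 T.F2)) ?_ :
              _ ≤ _) hg
          rintro g (⟨g, -, rfl⟩ | rfl | rfl)
          · exact Subalgebra.algebraMap_mem _ g
          · have := hx 0
            rw [← x1] at this
            exact this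
          · have := hy 0
            rw [← y1] at this
            exact this
        · have := hx 1
          rw [← x2] at this
          exact this
        · have := hy 1
          rw [← y2] at this
          exact this
      · exact hx 2
      · exact hy 2
    · refine Algebra.adjoin_le ?_
      rintro g (⟨i, rfl⟩ | ⟨i, rfl⟩) <;> refine Algebra.subset_adjoin ?_ <;> fin_cases i
      · exact Or.inl ⟨_, Algebra.subset_adjoin (Or.inl ⟨_, Algebra.subset_adjoin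
          (Or.inr (Or.inl rfl)), rfl⟩), x1⟩
      · exact Or.inl ⟨_, Algebra.subset_adjoin (Or.inr (Or.inl rfl)), x2⟩
      · exact Or.inr (Or.inl rfl)
      · exact Or.inl ⟨_, Algebra.subset_adjoin (Or.inl ⟨_, Algebra.subset_adjoin
          (Or.inr (Or.inr rfl)), rfl⟩), y1⟩
      · exact Or.inl ⟨_, Algebra.subset_adjoin (Or.inr (Or.inr rfl)), y2⟩
      · exact Or.inr (Or.inr rfl)
  rw [hB] at K3
  have c2 : ∀ {W : ValuationSubring T.F2}, (∀ c : T.F1, algebraMap T.F1 T.F2 c ∈ W) →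
      ∀ c : ℂ, algebraMap ℂ T.F2 c ∈ W := fun hW c => by
    rw [IsScalarTower.algebraMap_apply ℂ T.F1 T.F2]; exact hW _
  have c2' : ∀ {W : ValuationSubring T.F1} {W' : ValuationSubring T.F2} {x : T.F2},
      (∀ c : ℂ, algebraMap ℂ T.F1 c ∈ W) → IsGauss W W' x →
      ∀ c : ℂ, algebraMap ℂ T.F2 c ∈ W' := fun hW hG c => by
    rw [IsScalarTower.algebraMap_apply ℂ T.F1 T.F2, hG.1]; exact hW _
  convert K3 using 1
  ext V
  refine ⟨?_, fun hV => ⟨?_, K3.le V hV⟩⟩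
  · rintro ⟨(hV | ⟨W, hG⟩) | ⟨W, W', hG, hG'⟩, hle⟩
    · exact Or.inl ⟨hV.1, hV.2, hle _ (hx 2)⟩
    · refine Or.inr ⟨W.1, Or.inl ⟨W.2.1, W.2.2, ?_⟩, (Hart_aux_gauss T.g3 (c2 W.2.2) _).2 hG⟩
      rw [← hG.1, x2]; exact hle _ (hx 1)
    · refine Or.inr ⟨W', Or.inr ⟨W.1, Or.inl ⟨W.2.1, W.2.2, ?_⟩,
        (Hart_aux_gauss T.g2 W.2.2 _).2 hG⟩, (Hart_aux_gauss T.g3 (c2' W.2.2 hG) _).2 hG'⟩
      rw [← hG.1, ← hG'.1, x1]; exact hle _ (hx 0)
  · rcases hV with hV | ⟨W', hW' | ⟨W, hW | ⟨_, h0, -⟩, hG⟩, hG'⟩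
    · exact Or.inl (Or.inl ⟨hV.1, hV.2.1⟩)
    · exact Or.inl (Or.inr ⟨⟨W', hW'.1, hW'.2.1⟩, (Hart_aux_gauss T.g3 (c2 hW'.2.1) _).1 hG'⟩)
    · exact Or.inr ⟨⟨W, hW.1, hW.2.1⟩, W', (Hart_aux_gauss T.g2 hW.2.1 _).1 hG,
        (Hart_aux_gauss T.g3 (c2' hW.2.1 hG) _).1 hG'⟩
    · exact h0.elim

theorem Tower.dvr (T : Tower P) {V : ValuationSubring L} (hV : V ∈ T.VV) :
    IsDiscreteValuationRing V := by
  have := charZero_of T.F1
  have := charZero_of T.F2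
  rcases hV with (hV | ⟨W, hG⟩) | ⟨W, W', hG, hG'⟩
  · exact T.g3.isFF.dvr ⟨V, hV⟩
  · have := T.g2.isFF.dvr W
    exact (hG.dvr T.g3).1
  · have := T.g1.isFF.dvr W
    have := (hG.dvr T.g2).1
    exact (hG'.dvr T.g3).1

private theorem Hart_aux_chart (T : Tower P) {V : ValuationSubring L} (hV : V ∈ T.VV) :
    ∃ a : F3, ∀ g ∈ chartA fun i => P i + tors L (a i), g ∈ V := by
  obtain ⟨a, ha⟩ := exists_chart (P := P) fun i => intg_val V (T.const_mem hV) (P i)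
  exact ⟨a, fun g hg => ha hg⟩

theorem Tower.fin (T : Tower P) (f : L) : {V | V ∈ T.VV ∧ f ∉ V}.Finite := by
  refine (Set.finite_iUnion fun a : F3 => (T.krull a).fin' f).subset ?_
  rintro V ⟨hV, hf⟩
  obtain ⟨a, ha⟩ := Hart_aux_chart T hV
  exact Set.mem_iUnion.2 ⟨a, ⟨hV, ha⟩, hf⟩

theorem Tower.mem_bl (T : Tower P) (h : Cfg P σ) {V : ValuationSubring L} (hV : V ∈ T.VV) :
    vpt V (T.const_mem hV) ∈ blP P σ ∧ ∀ p, ¬ Over (vpt V (T.const_mem hV)) P p := by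
  obtain ⟨a, ha⟩ := Hart_aux_chart T hV
  have hc : vpt V (T.const_mem hV) ∈ cubeP P := by
    rw [← cube_add_tors P a]
    exact spec_chartA_sub _ ⟨fun g hg => ha g hg, (T.krull a).loc V ⟨hV, ha⟩⟩
  have hn : ∀ p, ¬ Over (vpt V (T.const_mem hV)) P p := fun p hp => by
    obtain ⟨h1, h2⟩ := ur_not_mem h.gen hc hp
    rcases V.mem_or_inv_mem (ur P p 0 1) with h3 | h3
    · exact h1 h3
    · rw [ur, inv_div] at h3
      exact h2 h3
  exact ⟨h.bl_iff.2 (Or.inl ⟨hc, hn⟩), hn⟩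

private theorem Hart_aux_coord (hP : Gen3 P) {O : Pt L} {p : F3} (hI : ∀ i, Intg O (P i))
    (hp : Over O P p) (j : Fin 3) :
    (∃ u, IsU O u ∧ xc (P j + tors L ((1 - p) j)) = u * sc (sh P p j)) ∧
      yc (P j + tors L ((1 - p) j)) ∈ O.1 := by
  have hy0 : yc (sh P p j) ≠ 0 := (hP.shift p).yc_ne j
  have hy1 : yc (sh P p j) + 1 ≠ 0 := fun h0 => hp j (by
    rw [eq_neg_of_add_eq_zero_left h0]; exact neg_mem (one_mem _))
  have e : P j + tors L ((1 - p) j) = sh P p j + tT L := by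
    rw [Pi.sub_apply, Pi.one_apply, tors_sub, tors_one, sh]; abel
  obtain ⟨h', e'⟩ := pt_add_tT _ _ (eqn_of_ne ((hP.shift p).ne j)) hy1
  rw [pt_xc_yc ((hP.shift p).ne j)] at e'
  have ht := (hp.sc_mem hI j).2
  have hu : IsU O (1 + tc (sh P p j)) := (isU_one O).add_mx ht
  have h2 : IsU O (-2) := by
    have := (isU_const O (c := -2) (by norm_num))
    rwa [map_neg, map_ofNat] at this
  have hu0 := hu.1
  rw [e, e', xc_pt, yc_pt]
  refine ⟨⟨_, h2.div hu, ?_⟩, ?_⟩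
  · rw [sc, tc]; field_simp
  · have : (yc (sh P p j) - 3) / (yc (sh P p j) + 1) =
        (1 - 3 * tc (sh P p j)) * (1 + tc (sh P p j))⁻¹ := by
      rw [tc]; field_simp
    rw [this]
    refine mul_mem (sub_mem (one_mem _) (mul_mem ?_ (mx_sub ht))) hu.2.2
    exact ofNat_mem _ 3

/-- For `O` over `p` use the chart `a = 1 - p`, whose coordinate `x' i = -2 s i / (1 + t i)` is a
unit multiple of `s i` in `Op`, and `Krull.hartogs'` with `t = x' i`, `S = {x' j / x' i}`. -/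
theorem Tower.exists_Wfam (T : Tower P) (h : Cfg P σ) :
    ∃ (W : F3 → ValuationSubring L) (hW : ∀ p (c : ℂ), algebraMap ℂ L c ∈ W p),
      (∀ p, IsDiscreteValuationRing (W p) ∧ vpt (W p) (hW p) ∈ blP P σ ∧
        Over (vpt (W p) (hW p)) P p) ∧
      ∀ O ∈ blP P σ, (∀ p, Over O P p → ∀ g ∈ O.1, g ∈ W p) ∧
        ∀ f, (∀ V ∈ T.VV, (∀ g ∈ O.1, g ∈ V) → f ∈ V) → (∀ p, Over O P p → f ∈ W p) → f ∈ O.1 := by
  choose Op hOp hov using h.gen.exists_over
  choose W hW hdvr hdom hord hspec hpow hle _ using fun p => exists_W h.gen (hOp p) (hov p)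
  have key : ∀ O ∈ blP P σ, ∀ p, Over O P p → Dom (Op p) O ∧ ∃ i, O ∈ spec (Bl (Op p) P p i) := by
    intro O hO p hp
    obtain ⟨Op', h1, h2, h3, ⟨i, hi⟩, h4⟩ := h.bl_over hO hp
    rw [← over_unique h1 (hOp p) h2 (hov p)]
    exact ⟨h3, i, h4 i hi⟩
  have hOW : ∀ O ∈ blP P σ, ∀ p, Over O P p → ∀ g ∈ O.1, g ∈ W p := fun O hO p hp => by
    obtain ⟨hd, i, hi⟩ := key O hO p hp
    exact hle p i O hi hd.2
  refine ⟨W, hW, fun p => ⟨hdvr p, h.bl_iff.2 (Or.inr ⟨p, Op p, hOp p, hov p, (hdom p).2, 0,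
    hspec p 0⟩), (over_dom (cube_intg (hOp p)) (hdom p) p).1 (hov p)⟩,
    fun O hO => ⟨hOW O hO, fun f hf hf' => ?_⟩⟩
  by_cases hex : ∃ p, Over O P p
  swap
  · have hc : O ∈ cubeP P := by
      rcases h.bl_iff.1 hO with h1 | ⟨p, O', h1, h2, h3, i, h4⟩
      · exact h1.1
      · exact absurd ⟨p, (over_dom (cube_intg h1) ⟨fun g hg => h4.1
          (Algebra.subset_adjoin (Or.inl hg)), h3⟩ p).1 h2⟩ hex
    obtain ⟨a, ha⟩ := exists_chart (cube_intg hc)
    rw [← cube_add_tors P a] at hc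
    exact (T.krull a).hartogs (mem_spec_chartA hc fun i => ha (Hart_aux_y _ i))
      fun V hV => hf V hV.1
  obtain ⟨p, hp⟩ := hex
  obtain ⟨hd, i, hi⟩ := key O hO p hp
  have hco := Hart_aux_coord h.gen (cube_intg (hOp p)) (hov p)
  choose u hu hx using fun j => (hco j).1
  have hs0 : ∀ j, sc (sh P p j) ≠ 0 := fun j =>
    div_ne_zero ((h.gen.shift p).xc_ne j) ((h.gen.shift p).yc_ne j)
  have hc : Op p ∈ spec (chartA fun j => P j + tors L ((1 - p) j)) :=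
    mem_spec_chartA (by rw [cube_add_tors]; exact hOp p) fun j => (hco j).2
  have ht0 : xc (P i + tors L ((1 - p) i)) ≠ 0 := (h.gen.add_tors (1 - p)).xc_ne i
  have hO' : O ∈ spec (Algebra.adjoin ℂ (((chartA fun j => P j + tors L ((1 - p) j)) : Set L) ∪
      Set.range fun j => xc (P j + tors L ((1 - p) j)) / xc (P i + tors L ((1 - p) i)))) := by
    have hr : ∀ j, xc (P j + tors L ((1 - p) j)) / xc (P i + tors L ((1 - p) i)) =
        ur P p i j * (u j / u i) := fun j => by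
      rw [hx, hx, ur, mul_div_mul_comm, mul_comm]
    refine spec_of_gens hi (Algebra.adjoin_le ?_) ?_
    · rintro g (hg | ⟨j, rfl⟩)
      · exact hd.1 (hc.1 hg)
      · show _ / _ ∈ O.1
        rw [hr]
        exact mul_mem (hi.1 (Algebra.subset_adjoin (Or.inr ⟨j, rfl⟩)))
          (hd.1 ((hu j).div (hu i)).2.1)
    · rintro g (hg | ⟨j, rfl⟩)
      · obtain ⟨a, ha, b, hb, hb', rfl⟩ := hc.2 g hg
        exact ⟨a, Algebra.subset_adjoin (Or.inl ha), b, Algebra.subset_adjoin (Or.inl hb),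
          hd.1 hb', rfl⟩
      · obtain ⟨a, ha, b, hb, hb', e⟩ := hc.2 _ ((hu i).div (hu j)).2.1
        refine ⟨_, mul_mem (Algebra.subset_adjoin (Or.inr ⟨j, rfl⟩))
          (Algebra.subset_adjoin (Or.inl ha)), b, Algebra.subset_adjoin (Or.inl hb),
          hd.1 hb', ?_⟩
        have h1 := (hu i).1
        have h2 := (hu j).1
        rw [mul_div_assoc, ← e]
        beta_reduce
        rw [hr]
        field_simp
  obtain ⟨b, N, hb, hr⟩ := (T.krull (1 - p)).hartogs' (Hart_aux_x _ i) ht0 (by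
    rintro g ⟨j, rfl⟩
    rw [mul_div_cancel₀ _ ht0]
    exact Hart_aux_x (fun j => P j + tors L ((1 - p) j)) j) hO' (f := f) fun V hV => hf V hV.1
  by_cases hf0 : f = 0
  · rw [hf0]; exact zero_mem _
  have hr' : sc (sh P p i) ^ N * (b * f) ∈ (Op p).1 := by
    have := mul_mem ((hu i).inv.pow N).2.1 (hc.1 hr)
    convert this using 1
    have h1 := (hu i).1
    show _ = _ * (xc (P i + tors L ((1 - p) i)) ^ N * b * f)
    rw [hx, mul_pow, inv_pow]
    field_simp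
  have := hdvr p
  have hm := hpow p N ⟨_, hr'⟩ (by
    show (N : ℤ) ≤ ord (W p) (sc (sh P p i) ^ N * (b * f))
    have : 0 ≤ ord (W p) (b * f) :=
      (ord_nonneg_iff _ _).2 (mul_mem (hOW O hO p hp b hb.2.1) (hf' p hp))
    rw [ord_mul _ (pow_ne_zero _ (hs0 i)) (mul_ne_zero hb.1 hf0), ord_pow, hord]
    omega)
  have hbf : b * f ∈ O.1 := hi.1 ((mem_Bl_iff h.gen (hOp p) (hov p) i _).2 ⟨N, _, hm, by
    rw [mul_div_cancel_left₀ _ (pow_ne_zero _ (hs0 i))]⟩)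
  have := mul_mem hb.2.2 hbf
  rwa [inv_mul_cancel_left₀ hb.1] at this

end Pool.Agent.MP_95da86_ag

end

section

/-! Riemann-Roch on the generic fibre. -/

namespace Pool.Agent.MP_95da86_ag

variable {F M : Type} [Field F] [Field M] [Algebra ℂ F] [Algebra ℂ M] [Algebra F M]
  [IsScalarTower ℂ F M] {P : EP M}

open Polynomial WeierstrassCurve.Affine in
theorem RR_aux_codim {F : Type} [Field F] (W : WeierstrassCurve.Affine F)
    (I : Ideal W.CoordinateRing) (hI : I ≠ ⊥) :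
    ∃ g ∈ I, g ≠ 0 ∧ ∀ a ∈ I, ¬ g ∣ a → ∀ b ∈ I, ∃ c : F, g ∣ b - c • a := by
  have : FiniteDimensional F (W.CoordinateRing ⧸ I) :=
    Module.Finite.equiv (Ideal.quotientEquivDirectSum F (CoordinateRing.basis W) hI).symm
  obtain ⟨n, hn⟩ : ∃ n, n = Module.finrank F (W.CoordinateRing ⧸ I) := ⟨_, rfl⟩
  let ψ : (degreeLT F ((n + 1) / 2 + 1) × degreeLT F (n / 2)) →ₗ[F] W.CoordinateRing :=
    { toFun := fun z => (z.1 : F[X]) • 1 + (z.2 : F[X]) • CoordinateRing.mk W X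
      map_add' := fun z w => by
        simp only [Prod.fst_add, Prod.snd_add, Submodule.coe_add, add_smul]; abel
      map_smul' := fun c z => by
        simp only [Prod.smul_fst, Prod.smul_snd, Submodule.coe_smul, RingHom.id_apply, smul_add,
          smul_assoc] }
  let φ := (Ideal.Quotient.mkₐ F I).toLinearMap ∘ₗ ψ
  have hfin : ∀ m, Module.finrank F (degreeLT F m) = m := fun m => by
    rw [(degreeLTEquiv F m).finrank_eq]; simp
  have : ∀ m, Module.Finite F (degreeLT F m) := fun m =>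
    Module.Finite.equiv (degreeLTEquiv F m).symm
  have hk : LinearMap.ker φ ≠ ⊥ := LinearMap.ker_ne_bot_of_finrank_lt (by
    rw [Module.finrank_prod, hfin, hfin, ← hn]; omega)
  obtain ⟨z, hz, hz0⟩ := Submodule.exists_mem_ne_zero_of_ne_bot hk
  have hg0 : ψ z ≠ 0 := fun h => by
    obtain ⟨h1, h2⟩ := CoordinateRing.smul_basis_eq_zero h
    exact hz0 (Prod.ext (Subtype.ext h1) (Subtype.ext h2))
  have hgI : ψ z ∈ I := Ideal.Quotient.eq_zero_iff_mem.1 hz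
  have hdeg : Module.finrank F (W.CoordinateRing ⧸ Ideal.span {ψ z}) ≤ n + 1 := by
    rw [finrank_quotient_span_eq_natDegree_norm (CoordinateRing.basis W) hg0]
    refine natDegree_le_iff_degree_le.2 ?_
    have h := CoordinateRing.degree_norm_smul_basis (W' := W) (z.1 : F[X]) (z.2 : F[X])
    change (Algebra.norm F[X] ((z.1 : F[X]) • 1 + (z.2 : F[X]) • CoordinateRing.mk W X)).degree ≤ _
    rw [h]
    have h1 := mem_degreeLT.1 z.1.2
    have h2 := mem_degreeLT.1 z.2.2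
    refine max_le ?_ ?_
    · generalize (z.1 : F[X]).degree = d at h1
      induction d using WithBot.recBotCoe with
      | bot => simp
      | coe d =>
        have : d < (n + 1) / 2 + 1 := WithBot.coe_lt_coe.1 h1
        have h3 : 2 • d ≤ n + 1 := by rw [smul_eq_mul]; omega
        exact WithBot.coe_le_coe.2 h3
    · generalize (z.2 : F[X]).degree = d at h2
      induction d using WithBot.recBotCoe with
      | bot => simp
      | coe d =>
        have : d < n / 2 := WithBot.coe_lt_coe.1 h2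
        have h3 : 2 • d + 3 ≤ n + 1 := by rw [smul_eq_mul]; omega
        exact WithBot.coe_le_coe.2 h3
  have hsp : Ideal.span {ψ z} ≠ ⊥ := fun h => hg0 (Ideal.span_singleton_eq_bot.1 h)
  have : FiniteDimensional F (W.CoordinateRing ⧸ Ideal.span {ψ z}) :=
    Module.Finite.equiv (Ideal.quotientEquivDirectSum F (CoordinateRing.basis W) hsp).symm
  have hle : Ideal.span {ψ z} ≤ I := (Ideal.span_singleton_le_iff_mem _).2 hgI
  let θ : (W.CoordinateRing ⧸ Ideal.span {ψ z}) →ₐ[F] W.CoordinateRing ⧸ I :=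
    Ideal.Quotient.liftₐ _ (Ideal.Quotient.mkₐ F I) fun a ha =>
      Ideal.Quotient.eq_zero_iff_mem.2 (hle ha)
  have hθ : ∀ a, θ (Ideal.Quotient.mk _ a) = Ideal.Quotient.mk I a := fun a => rfl
  have hsurj : LinearMap.range θ.toLinearMap = ⊤ := by
    rw [LinearMap.range_eq_top]
    intro u
    obtain ⟨a, rfl⟩ := Ideal.Quotient.mk_surjective u
    exact ⟨Ideal.Quotient.mk _ a, hθ a⟩
  have hker : Module.finrank F (LinearMap.ker θ.toLinearMap) ≤ 1 := by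
    have := LinearMap.finrank_range_add_finrank_ker θ.toLinearMap
    rw [hsurj, finrank_top, ← hn] at this
    omega
  refine ⟨ψ z, hgI, hg0, fun a ha hna b hb => ?_⟩
  have hm : ∀ u ∈ I, Ideal.Quotient.mk (Ideal.span {ψ z}) u ∈ LinearMap.ker θ.toLinearMap :=
    fun u hu => (hθ u).trans (Ideal.Quotient.eq_zero_iff_mem.2 hu)
  have ha0 : (⟨_, hm a ha⟩ : LinearMap.ker θ.toLinearMap) ≠ 0 := fun h =>
    hna (Ideal.mem_span_singleton.1 (Ideal.Quotient.eq_zero_iff_mem.1 (congrArg Subtype.val h)))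
  have h1 : Module.finrank F (LinearMap.ker θ.toLinearMap) = 1 := by
    have : 0 < Module.finrank F (LinearMap.ker θ.toLinearMap) :=
      Module.finrank_pos_iff_exists_ne_zero.2 ⟨_, ha0⟩
    omega
  obtain ⟨c, hc⟩ := exists_smul_eq_of_finrank_eq_one h1 ha0 ⟨_, hm b hb⟩
  refine ⟨c, Ideal.mem_span_singleton.1 (Ideal.Quotient.eq.1 ?_)⟩
  have h2 := congrArg Subtype.val hc
  exact h2.symm


theorem RR_aux_ded {F A : Type} [Field F] [CommRing A] [IsDedekindDomain A] [Algebra F A]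
    {I : Ideal A} (hI : I ≠ ⊥) {g : A} (hgI : g ∈ I)
    (h : ∀ a ∈ I, ¬ g ∣ a → ∀ b ∈ I, ∃ c : F, g ∣ b - c • a) (hg0 : g ≠ 0) :
    ∃ J : Ideal A, Ideal.span {g} = I * J ∧
      (J = ⊤ ∨ (J.IsMaximal ∧ ∀ r : A, ∃ c : F, r - algebraMap F A c ∈ J)) := by
  obtain ⟨J, hJ⟩ : I ∣ Ideal.span {g} :=
    Ideal.dvd_iff_le.2 ((Ideal.span_singleton_le_iff_mem _).2 hgI)
  refine ⟨J, hJ, ?_⟩
  by_cases hT : J = ⊤
  · exact Or.inl hT
  right
  have hsp : Ideal.span {g} ≠ ⊥ := fun h => hg0 (Ideal.span_singleton_eq_bot.1 h)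
  obtain ⟨a, ha⟩ := IsDedekindDomain.exists_sup_span_eq
    ((Ideal.span_singleton_le_iff_mem I).2 hgI) hsp
  have haI : a ∈ I := ha ▸ Ideal.mem_sup_right (Ideal.mem_span_singleton_self a)
  have hna : ¬ g ∣ a := fun hd => by
    have h1 : Ideal.span {g} = I := by
      rw [← ha]
      exact (sup_eq_left.2 (Ideal.span_singleton_le_span_singleton.2 hd)).symm
    have h2 : I * J = I * ⊤ := by rw [← hJ, Ideal.mul_top, h1]
    exact hT (mul_left_cancel₀ hI h2)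
  have key : ∀ r : A, ∃ c : F, r - algebraMap F A c ∈ J := fun r => by
    obtain ⟨c, hc⟩ := h a haI hna (r * a) (I.mul_mem_left r haI)
    refine ⟨c, ?_⟩
    have h1 : I * Ideal.span {r - algebraMap F A c} ≤ I * J := by
      rw [← hJ, ← ha, Ideal.sup_mul]
      refine sup_le Ideal.mul_le_left ?_
      rw [Ideal.span_singleton_mul_span_singleton, Ideal.span_singleton_le_span_singleton]
      have : a * (r - algebraMap F A c) = r * a - c • a := by rw [Algebra.smul_def]; ring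
      rw [this]; exact hc
    have h2 : J ∣ Ideal.span {r - algebraMap F A c} :=
      (mul_dvd_mul_iff_left hI).1 (Ideal.dvd_iff_le.2 h1)
    exact (Ideal.span_singleton_le_iff_mem _).1 (Ideal.dvd_iff_le.1 h2)
  refine ⟨Ideal.isMaximal_iff.2 ⟨fun h1 => hT ((Ideal.eq_top_iff_one _).2 h1), ?_⟩, key⟩
  intro K x hJK hxJ hxK
  obtain ⟨c, hc⟩ := key x
  have hc0 : c ≠ 0 := fun h0 => hxJ (by simpa [h0] using hc)
  have h1 : algebraMap F A c ∈ K := by
    have := K.sub_mem hxK (hJK hc)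
    simpa using this
  have h2 := K.mul_mem_left (algebraMap F A c⁻¹) h1
  rwa [← map_mul, inv_mul_cancel₀ hc0, map_one] at h2

/-- Every non-zero ideal `I` of `A = F[x, y]` contains `g ≠ 0` with `(g) = I J` and `J` of
codimension at most one: if `I` has codimension `n`, the span of the monomials `x ^ i`,
`x ^ i y` of pole order `2 i`, `2 i + 3` at most `n + 1` has dimension `n + 1` (for `n ≥ 0` count
`0, 2, 3, ..., n + 1`), so it meets `I`; the codimension of `(g)` is the degree of the norm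
(`CoordinateRing.degree_norm_smul_basis`, `finrank_quotient_span_eq_natDegree_norm`). -/
theorem Gen.ideal_class (hP : Gen F P) (I : Ideal (crd F P)) (hI : I ≠ ⊥) :
    ∃ (g : crd F P) (J : Ideal (crd F P)), g ≠ 0 ∧ Ideal.span {g} = I * J ∧
      (J = ⊤ ∨ (J.IsMaximal ∧ ∃ a b : F, b ^ 2 = a ^ 3 + 1 ∧
        (⟨xc P, Algebra.subset_adjoin (by simp)⟩ : crd F P) - algebraMap F _ a ∈ J ∧
        (⟨yc P, Algebra.subset_adjoin (by simp)⟩ : crd F P) - algebraMap F _ b ∈ J)) := by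
  obtain ⟨e, -⟩ := hP.exists_equiv
  have := hP.dedekind
  have hI' : I.comap e ≠ ⊥ := fun h => hI (by
    refine eq_bot_iff.2 fun a ha => ?_
    have h1 : e.symm a ∈ I.comap e := by
      rw [Ideal.mem_comap, AlgEquiv.apply_symm_apply]; exact ha
    rw [h, Ideal.mem_bot] at h1
    rw [Ideal.mem_bot, ← e.apply_symm_apply a, h1, map_zero])
  obtain ⟨g, hgI, hg0, hg⟩ := RR_aux_codim _ _ hI'
  have hg0' : e g ≠ 0 := fun h => hg0 (e.injective (h.trans (map_zero e).symm))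
  obtain ⟨J, hJ, h⟩ := RR_aux_ded (F := F) hI (g := e g) hgI (fun a ha hna b hb => by
    obtain ⟨a, rfl⟩ := e.surjective a
    obtain ⟨b, rfl⟩ := e.surjective b
    obtain ⟨c, hc⟩ := hg a ha (fun hd => hna (map_dvd e hd)) b hb
    refine ⟨c, ?_⟩
    have := map_dvd e hc
    rwa [map_sub, map_smul] at this) hg0'
  refine ⟨e g, J, hg0', hJ, h.imp id fun ⟨hm, hr⟩ => ⟨hm, ?_⟩⟩
  obtain ⟨a, ha⟩ := hr ⟨xc P, Algebra.subset_adjoin (by simp)⟩
  obtain ⟨b, hb⟩ := hr ⟨yc P, Algebra.subset_adjoin (by simp)⟩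
  refine ⟨a, b, ?_, ha, hb⟩
  by_contra hne
  have hu : IsUnit (algebraMap F (crd F P) (b ^ 2 - (a ^ 3 + 1))) :=
    (IsUnit.mk0 _ (sub_ne_zero.2 hne)).map _
  refine hm.ne_top (Ideal.eq_top_of_isUnit_mem _ ?_ hu)
  generalize hx : (⟨xc P, Algebra.subset_adjoin (by simp)⟩ : crd F P) = x at ha
  generalize hy : (⟨yc P, Algebra.subset_adjoin (by simp)⟩ : crd F P) = y at hb
  have heq : y ^ 2 = x ^ 3 + 1 := by
    rw [← hx, ← hy]; exact Subtype.ext (eqn_of_ne hP.ne)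
  have h1 : algebraMap F (crd F P) (b ^ 2 - (a ^ 3 + 1)) =
      (x ^ 2 + x * algebraMap F _ a + algebraMap F _ a ^ 2) * (x - algebraMap F _ a) -
        (y + algebraMap F _ b) * (y - algebraMap F _ b) := by
    rw [map_sub, map_add, map_pow, map_pow, map_one]
    linear_combination heq
  rw [h1]
  exact J.sub_mem (J.mul_mem_left _ ha) (J.mul_mem_left _ hb)

theorem RR_aux_xc (V : ValuationSubring M) [IsDiscreteValuationRing V] {Q : EP M}
    (hy : yc Q ∈ V) : xc Q ∈ V := by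
  have h1 : ¬ 0 < lam V Q := fun h => (lam_pos_iff V Q).1 h hy
  have h2 := two_lam V Q
  have h3 := lam_nonneg V Q
  rw [← ord_nonneg_iff]
  have := le_max_right 0 (-ord V (xc Q))
  omega

theorem RR_aux_eq (V V' : ValuationSubring M) [IsDiscreteValuationRing V] (hle : ∀ f ∈ V, f ∈ V')
    (hT : V' ≠ ⊤) : V = V' := by
  refine SetLike.ext fun f => ⟨hle f, fun hf => ?_⟩
  by_contra hn
  refine hT (SetLike.ext fun u => ⟨fun _ => ValuationSubring.mem_top _, fun _ => ?_⟩)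
  have hf0 : f ≠ 0 := fun h => hn (h ▸ zero_mem _)
  have h1 : ¬ 0 ≤ ord V f := fun h => hn ((ord_nonneg_iff V f).1 h)
  by_cases hu : u = 0
  · exact hu ▸ zero_mem _
  have h2 : u / f ^ (ord V u).natAbs ∈ V := by
    rw [← ord_nonneg_iff, ord_div V hu (pow_ne_zero _ hf0), ord_pow]
    have h3 : -ord V u ≤ ((ord V u).natAbs : ℤ) := by omega
    have h4 : (0 : ℤ) ≤ ((ord V u).natAbs : ℤ) := by omega
    nlinarith
  have h3 : u = u / f ^ (ord V u).natAbs * f ^ (ord V u).natAbs :=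
    (div_mul_cancel₀ _ (pow_ne_zero _ hf0)).symm
  rw [h3]
  exact mul_mem (hle _ h2) (pow_mem hf _)

theorem RR_aux_dvr (hP : Gen F P) (V : Pl F M) : IsDiscreteValuationRing V.1 :=
  haveI := charZero_of F
  hP.isFF.dvr V

theorem RR_aux_nn (hP : Gen F P) (V : Pl F M) (hx : xc P ∈ V.1) {f : M} (hf : f ∈ crd F P) :
    0 ≤ ord V.1 f :=
  haveI := RR_aux_dvr hP V
  (ord_nonneg_iff V.1 f).2 (hP.crd_le V hx f hf)

theorem RR_aux_sep (hP : Gen F P) {V V' : Pl F M} (hx : xc P ∈ V.1) (hx' : xc P ∈ V'.1)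
    (hne : V ≠ V') : ∃ s ∈ crd F P, s ≠ 0 ∧ ord V.1 s = 0 ∧ 1 ≤ ord V'.1 s := by
  have := RR_aux_dvr hP V
  have := RR_aux_dvr hP V'
  by_contra hc
  refine hne (Subtype.ext (RR_aux_eq V.1 V'.1 (fun f hf => ?_) V'.2.1))
  obtain ⟨a, ha, b, hb, hb', rfl⟩ := hP.val_loc V hx f hf
  by_cases hb0 : b = 0
  · rw [hb0, div_zero]; exact zero_mem _
  have h1 : ord V.1 b = 0 := (ord_eq_zero_iff V.1 b).2 ⟨hP.crd_le V hx b hb, hb'⟩
  have h2 : ¬ 1 ≤ ord V'.1 b := fun h => hc ⟨b, hb, hb0, h1, h⟩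
  have h3 := RR_aux_nn hP V' hx' hb
  have h4 : ord V'.1 b = 0 := by omega
  rw [div_eq_mul_inv]
  exact mul_mem (hP.crd_le V' hx' a ha) ((ord_eq_zero_iff V'.1 b).1 h4).2

theorem RR_aux_unif (hP : Gen F P) {V : Pl F M} (hx : xc P ∈ V.1) :
    ∃ s ∈ crd F P, s ≠ 0 ∧ ord V.1 s = 1 := by
  have := RR_aux_dvr hP V
  obtain ⟨π, h0, h1⟩ := exists_ord_eq_one V.1
  obtain ⟨a, ha, b, hb, hb', rfl⟩ := hP.val_loc V hx π ((ord_nonneg_iff V.1 π).1 (by omega))
  obtain ⟨ha0, hb0⟩ := div_ne_zero_iff.1 h0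
  have h2 : ord V.1 b = 0 := (ord_eq_zero_iff V.1 b).2 ⟨hP.crd_le V hx b hb, hb'⟩
  rw [ord_div V.1 ha0 hb0, h2, sub_zero] at h1
  exact ⟨a, ha, ha0, h1⟩

theorem RR_aux_big (hP : Gen F P) (m : Pl F M → ℤ) (S : Finset (Pl F M)) :
    ∃ a ∈ crd F P, a ≠ 0 ∧ ∀ W ∈ S, xc P ∈ W.1 → m W ≤ ord W.1 a := by
  classical
  induction S using Finset.induction_on with
  | empty => exact ⟨1, one_mem _, one_ne_zero, by simp⟩
  | insert W S _ ih =>
    obtain ⟨a, ha, ha0, h⟩ := ih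
    by_cases hW : xc P ∈ W.1
    · obtain ⟨s, hs, hs0, hs1⟩ := RR_aux_unif hP hW
      refine ⟨a * s ^ (m W).toNat, mul_mem ha (pow_mem hs _), mul_ne_zero ha0 (pow_ne_zero _ hs0),
        fun U hU hx => ?_⟩
      have := RR_aux_dvr hP U
      rw [ord_mul U.1 ha0 (pow_ne_zero _ hs0)]
      rcases Finset.mem_insert.1 hU with rfl | hU
      · have h1 := RR_aux_nn hP U hx ha
        rw [ord_pow, hs1]
        omega
      · have h1 := h U hU hx
        have h2 := RR_aux_nn hP U hx (pow_mem hs (m W).toNat)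
        omega
    · refine ⟨a, ha, ha0, fun U hU hx => ?_⟩
      rcases Finset.mem_insert.1 hU with rfl | hU
      · exact absurd hx hW
      · exact h U hU hx

theorem RR_aux_appr (hP : Gen F P) (m : Pl F M → ℤ) (S : Finset (Pl F M)) {V : Pl F M}
    (hV : xc P ∈ V.1) (hm : 0 ≤ m V) :
    ∃ a ∈ crd F P, a ≠ 0 ∧ ord V.1 a = m V ∧ ∀ W ∈ S, xc P ∈ W.1 → m W ≤ ord W.1 a := by
  classical
  have := RR_aux_dvr hP V
  induction S using Finset.induction_on with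
  | empty =>
    obtain ⟨s, hs, hs0, hs1⟩ := RR_aux_unif hP hV
    refine ⟨s ^ (m V).toNat, pow_mem hs _, pow_ne_zero _ hs0, ?_, by simp⟩
    rw [ord_pow, hs1]
    omega
  | insert W S _ ih =>
    obtain ⟨a, ha, ha0, haV, h⟩ := ih
    by_cases hW : xc P ∈ W.1 ∧ V ≠ W
    · obtain ⟨s, hs, hs0, hs1, hs2⟩ := RR_aux_sep hP hV hW.1 hW.2
      refine ⟨a * s ^ (m W).toNat, mul_mem ha (pow_mem hs _), mul_ne_zero ha0 (pow_ne_zero _ hs0),
        ?_, fun U hU hx => ?_⟩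
      · rw [ord_mul V.1 ha0 (pow_ne_zero _ hs0), ord_pow, hs1, haV, mul_zero, add_zero]
      have := RR_aux_dvr hP U
      rw [ord_mul U.1 ha0 (pow_ne_zero _ hs0)]
      rcases Finset.mem_insert.1 hU with rfl | hU
      · have h1 := RR_aux_nn hP U hx ha
        rw [ord_pow]
        have h2 : m U ≤ ((m U).toNat : ℤ) := by omega
        have h3 : (0 : ℤ) ≤ ((m U).toNat : ℤ) := by omega
        nlinarith
      · have h1 := h U hU hx
        have h2 := RR_aux_nn hP U hx (pow_mem hs (m W).toNat)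
        omega
    · refine ⟨a, ha, ha0, haV, fun U hU hx => ?_⟩
      rcases Finset.mem_insert.1 hU with rfl | hU
      · have : V = U := by
          by_contra hne
          exact hW ⟨hx, hne⟩
        subst this
        exact haV.ge
      · exact h U hU hx

theorem RR_aux_red (hP : Gen F P) (V : Pl F M) (hy : yc P ∈ V.1) {a b : F} (h : b ^ 2 = a ^ 3 + 1)
    (ha : xc P - algebraMap F M a ∈ V.1.nonunits) (hb : yc P - algebraMap F M b ∈ V.1.nonunits) :
    yc (P - up F M (pt a b h)) ∉ V.1 := by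
  have := RR_aux_dvr hP V
  have hV : ∀ c : ℂ, algebraMap ℂ M c ∈ V.1 := fun c => by
    rw [IsScalarTower.algebraMap_apply ℂ F M]; exact V.2.2 _
  have hx := RR_aux_xc V.1 hy
  have e1 : xc (up F M (pt a b h)) = algebraMap F M a := xc_emap _ _
  have e2 : yc (up F M (pt a b h)) = algebraMap F M b := yc_emap _ _
  have hy' : yc (up F M (pt a b h)) ∈ V.1 := e2 ▸ V.2.2 b
  have i1 := intg_val V.1 hV P
  have i2 := intg_val V.1 hV (up F M (pt a b h))
  have n1 : red (vpt V.1 hV) P ≠ 0 := fun h0 =>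
    ((red_eq_zero i1).1 h0).elim hP.ne fun h1 => h1 hy
  have n2 : red (vpt V.1 hV) (up F M (pt a b h)) ≠ 0 := fun h0 =>
    ((red_eq_zero i2).1 h0).elim (fun h1 => pt_ne_zero a b h ((emap_eq_zero _).1 h1))
      fun h1 => h1 hy'
  have heq : red (vpt V.1 hV) P = red (vpt V.1 hV) (up F M (pt a b h)) := by
    refine EP.ext' n1 n2 ?_ ?_
    · rw [xc_red i1 hy, xc_red i2 hy', e1, ← sub_eq_zero,
        ← res_sub (O := vpt V.1 hV) hx (V.2.2 a),
        res_eq_zero (O := vpt V.1 hV) (sub_mem hx (V.2.2 a)), mem_mx_vpt]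
      exact ha
    · rw [yc_red i1 hy, yc_red i2 hy', e2, ← sub_eq_zero,
        ← res_sub (O := vpt V.1 hV) hy (V.2.2 b),
        res_eq_zero (O := vpt V.1 hV) (sub_mem hy (V.2.2 b)), mem_mx_vpt]
      exact hb
  have h0 : red (vpt V.1 hV) (P - up F M (pt a b h)) = 0 := by rw [red_sub i1 i2, heq, sub_self]
  rcases (red_eq_zero (i1.sub i2)).1 h0 with h1 | h1
  · refine absurd ?_ (hP.add_up (-pt a b h)).ne
    rw [map_neg, ← sub_eq_add_neg]; exact h1
  · exact h1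

theorem RR_aux_main (hP : Gen F P) (n : Pl F M → ℤ) (hn : (Function.support n).Finite) :
    ∃ (h : M) (c : EP F), h ≠ 0 ∧ ∀ V : Pl F M, yc P ∈ V.1 → yc (P - up F M c) ∈ V.1 →
      n V = ord V.1 h := by
  have := charZero_of F
  have hd := RR_aux_dvr hP
  obtain ⟨f, hf, hf0, hfn⟩ := RR_aux_big hP (fun V => -n V) hn.toFinset
  obtain ⟨m, hm⟩ : ∃ m : Pl F M → ℤ, ∀ V, m V = n V + ord V.1 f := ⟨_, fun _ => rfl⟩
  have hm0 : ∀ V : Pl F M, xc P ∈ V.1 → 0 ≤ m V := fun V hx => by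
    rw [hm]
    by_cases h0 : n V = 0
    · have := RR_aux_nn hP V hx hf
      omega
    · have := hfn V (hn.mem_toFinset.2 h0) hx
      omega
  have hmf : (Function.support m).Finite := by
    refine (hn.union (hP.isFF.ord_fin f)).subset fun V hV => ?_
    by_contra hc
    rw [Set.mem_union, not_or, Function.notMem_support, Function.notMem_support] at hc
    exact hV (by rw [hm, hc.1, hc.2, add_zero])
  let I : Ideal (crd F P) :=
    { carrier := {a | a = 0 ∨ ∀ V : Pl F M, xc P ∈ V.1 → m V ≤ ord V.1 (a : M)}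
      zero_mem' := Or.inl rfl
      add_mem' := fun {a b} ha hb => by
        by_cases ha0 : a = 0
        · rw [ha0, zero_add]; exact hb
        by_cases hb0 : b = 0
        · rw [hb0, add_zero]; exact ha
        by_cases hab : a + b = 0
        · exact Or.inl hab
        refine Or.inr fun V hx => ?_
        have h1 := ha.resolve_left ha0 V hx
        have h2 := hb.resolve_left hb0 V hx
        have h3 := ord_add V.1 (f := (a : M)) (g := (b : M)) (fun h => ha0 (Subtype.ext h))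
          (fun h => hb0 (Subtype.ext h)) (fun h => hab (Subtype.ext h))
        exact (le_min h1 h2).trans h3
      smul_mem' := fun r a ha => by
        by_cases ha0 : a = 0
        · rw [ha0, smul_zero]; exact Or.inl rfl
        by_cases hr0 : r = 0
        · rw [hr0, zero_smul]; exact Or.inl rfl
        refine Or.inr fun V hx => ?_
        have h1 := ha.resolve_left ha0 V hx
        have h2 := RR_aux_nn hP V hx r.2
        have h3 := ord_mul V.1 (f := (r : M)) (g := (a : M)) (fun h => hr0 (Subtype.ext h))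
          (fun h => ha0 (Subtype.ext h))
        change m V ≤ ord V.1 ((r : M) * (a : M))
        omega }
  have hI : ∀ a : crd F P, (∀ W ∈ hmf.toFinset, xc P ∈ W.1 → m W ≤ ord W.1 (a : M)) → a ∈ I :=
    fun a h => Or.inr fun V hx => by
      by_cases h0 : m V = 0
      · rw [h0]; exact RR_aux_nn hP V hx a.2
      · exact h V (hmf.mem_toFinset.2 h0) hx
  have hI0 : I ≠ ⊥ := by
    obtain ⟨a, ha, ha0, h⟩ := RR_aux_big hP m hmf.toFinset
    intro h0
    have h1 := hI ⟨a, ha⟩ h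
    rw [h0, Ideal.mem_bot] at h1
    exact ha0 (congrArg Subtype.val h1)
  obtain ⟨g, J, hg0, hJ, hc⟩ := hP.ideal_class I hI0
  have hg0' : (g : M) ≠ 0 := fun h => hg0 (Subtype.ext h)
  have hgI : g ∈ I := Ideal.mul_le_left (hJ ▸ Ideal.mem_span_singleton_self g)
  have key : ∀ V : Pl F M, xc P ∈ V.1 → ∀ j ∈ J, (j : M) ∉ V.1.nonunits →
      n V = ord V.1 ((g : M) / f) := fun V hx j hj hu => by
    have hj0 : (j : M) ≠ 0 := fun h => hu (h ▸ zero_mem _)
    have h1 : ¬ 0 < ord V.1 (j : M) := fun h => hu ((ord_pos_iff V.1 hj0).1 h)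
    obtain ⟨a, ha, ha0, haV, h⟩ := RR_aux_appr hP m hmf.toFinset hx (hm0 V hx)
    have h2 : (⟨a, ha⟩ : crd F P) * j ∈ Ideal.span {g} :=
      hJ ▸ Ideal.mul_mem_mul (hI ⟨a, ha⟩ h) hj
    obtain ⟨r, hr⟩ := Ideal.mem_span_singleton.1 h2
    have h3 : a * (j : M) = (g : M) * (r : M) := congrArg Subtype.val hr
    have hr0 : (r : M) ≠ 0 := fun h0 => mul_ne_zero ha0 hj0 (by rw [h3, h0, mul_zero])
    have h4 := ord_mul V.1 ha0 hj0
    have h5 := ord_mul V.1 hg0' hr0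
    have h6 := RR_aux_nn hP V hx r.2
    have h7 := hgI.resolve_left hg0 V hx
    have h8 := hm V
    rw [h3] at h4
    rw [ord_div V.1 hg0' hf0]
    omega
  rcases hc with rfl | ⟨-, a, b, hab, ha, hb⟩
  · refine ⟨g / f, 0, div_ne_zero hg0' hf0, fun V hy _ => ?_⟩
    refine key V (RR_aux_xc V.1 hy) 1 Submodule.mem_top fun h => ?_
    have h1 := (ord_pos_iff V.1 (one_ne_zero (α := M))).2 h
    rw [ord_one] at h1
    exact lt_irrefl _ h1
  · refine ⟨g / f, pt a b hab, div_ne_zero hg0' hf0, fun V hy hy' => ?_⟩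
    by_cases h1 : xc P - algebraMap F M a ∈ V.1.nonunits
    · by_cases h2 : yc P - algebraMap F M b ∈ V.1.nonunits
      · exact absurd hy' (RR_aux_red hP V hy hab h1 h2)
      · exact key V (RR_aux_xc V.1 hy) _ hb h2
    · exact key V (RR_aux_xc V.1 hy) _ ha h1

/-- A multiple of any divisor is linearly equivalent to a combination of the origin and one rational
point. Use `pl_unique` for the place at infinity (`c = 0`) and for the place of `J`. -/
theorem Gen.rr (hP : Gen F P) (n : Pl F M → ℤ) (hn : (Function.support n).Finite) :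
    ∃ (N : ℕ) (h : M) (c : EP F) (α β : ℤ), 0 < N ∧ h ≠ 0 ∧ ∀ V : Pl F M,
      N * n V = ord V.1 h + α * lam V.1 P + β * lam V.1 (P - up F M c) := by
  classical
  have hd := RR_aux_dvr hP
  obtain ⟨h, c, h0, hh⟩ := RR_aux_main hP n hn
  have hQ : Gen F (P - up F M c) := by
    have := hP.add_up (-c)
    rwa [map_neg, ← sub_eq_add_neg] at this
  obtain ⟨U, hU⟩ := exists_pole hP.yc_tr
  obtain ⟨W, hW⟩ := exists_pole hQ.yc_tr
  have uU : ∀ V : Pl F M, V ≠ U → yc P ∈ V.1 := fun V hV => by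
    by_contra hc
    refine hV (hP.pl_unique 0 ?_ ?_)
    · rwa [map_zero, sub_zero]
    · rwa [map_zero, sub_zero]
  have uW : ∀ V : Pl F M, V ≠ W → yc (P - up F M c) ∈ V.1 := fun V hV => by
    by_contra hc
    exact hV (hP.pl_unique c hc hW)
  have lz : ∀ (V : Pl F M) (Q : EP M), yc Q ∈ V.1 → lam V.1 Q = 0 := fun V Q hy => by
    have h1 : ¬ 0 < lam V.1 Q := fun h => (lam_pos_iff V.1 Q).1 h hy
    have h2 := lam_nonneg V.1 Q
    omega
  obtain ⟨a, ha⟩ := Int.eq_ofNat_of_zero_le (lam_nonneg U.1 P)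
  obtain ⟨b, hb⟩ := Int.eq_ofNat_of_zero_le (lam_nonneg W.1 (P - up F M c))
  have ha0 : 0 < a := by have := (lam_pos_iff U.1 P).2 hU; omega
  have hb0 : 0 < b := by have := (lam_pos_iff W.1 _).2 hW; omega
  refine ⟨a * b, h ^ (a * b), c, b * (n U - ord U.1 h),
    if W = U then 0 else a * (n W - ord W.1 h), Nat.mul_pos ha0 hb0, pow_ne_zero _ h0, fun V => ?_⟩
  rw [ord_pow]
  by_cases hVU : V = U
  · subst hVU
    by_cases hWV : W = V
    · rw [if_pos hWV, ha]; push_cast; ring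
    · rw [lz V _ (uW V fun h => hWV h.symm), ha]; push_cast; ring
  · rw [lz V _ (uU V hVU)]
    by_cases hVW : V = W
    · subst hVW
      rw [if_neg hVU, hb]; push_cast; ring
    · rw [lz V _ (uW V hVW), hh V (uU V hVU) (uW V hVW)]; ring

end Pool.Agent.MP_95da86_ag

end

section

/-! A commutative composition ring containing a cube root of unity is `ℤ[ω]`. -/

namespace Pool.Agent.MP_95da86_ag

/-- A rational root of a monic integer quadratic is an integer. -/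
theorem EndAlg_aux_root (r : ℚ) (a b : ℤ) (h : r ^ 2 + a * r + b = 0) : ∃ m : ℤ, r = m := by
  have hi : IsIntegral ℤ r := by
    refine ⟨Polynomial.X ^ 2 + Polynomial.C a * Polynomial.X + Polynomial.C b, ?_, ?_⟩
    · monicity!
    · simp only [Polynomial.eval₂_add, Polynomial.eval₂_mul, Polynomial.eval₂_pow,
        Polynomial.eval₂_X, Polynomial.eval₂_C]
      simpa using h
  obtain ⟨m, hm⟩ := IsIntegrallyClosed.algebraMap_eq_of_integral hi
  exact ⟨m, by simpa using hm.symm⟩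

/-- `1` and `z` are independent over `ℚ`. -/
theorem EndAlg_aux_indep {k : Type} [Field k] [CharZero k] (z : k) (hz : z ^ 2 + z + 1 = 0)
    (p q : ℚ) (h : (p : k) + q * z = 0) : p = 0 ∧ q = 0 := by
  have h1 : ((p ^ 2 - p * q + q ^ 2 : ℚ) : k) = 0 := by
    push_cast
    linear_combination ((p : k) - q - q * z) * h + (q : k) ^ 2 * hz
  have h2 : p ^ 2 - p * q + q ^ 2 = 0 := by exact_mod_cast h1
  have hq : q = 0 := by nlinarith [sq_nonneg (2 * p - q), sq_nonneg q]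
  subst hq
  constructor
  · simpa using h2
  · rfl

/-- Every element satisfies a monic quadratic equation over `ℤ`. -/
theorem EndAlg_aux_quad {k : Type} [Field k] (S : Subring k) (N : k → ℤ)
    (hpar : ∀ a ∈ S, ∀ b ∈ S, N (a + b) + N (a - b) = 2 * N a + 2 * N b)
    (hmul : ∀ a ∈ S, ∀ b ∈ S, N (a * b) = N a * N b)
    (hdef : ∀ a ∈ S, N a = 0 → a = 0) (x : k) (hx : x ∈ S) :
    ∃ t n : ℤ, x ^ 2 - t * x + n = 0 := by
  have h0 : N 0 = 0 := by
    have := hpar 0 S.zero_mem 0 S.zero_mem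
    simp only [add_zero, sub_zero] at this
    omega
  have hneg : ∀ a ∈ S, N (-a) = N a := by
    intro a ha
    have := hpar 0 S.zero_mem a ha
    simp only [zero_add, zero_sub, h0] at this
    omega
  have hcube : ∀ u ∈ S, ∀ v ∈ S, ∀ w ∈ S,
      N (u + v + w) + N u + N v + N w = N (u + v) + N (u + w) + N (v + w) := by
    intro u hu v hv w hw
    have e1 := hpar (u + v) (S.add_mem hu hv) w hw
    have e2 := hpar (u + w) (S.add_mem hu hw) v hv
    have e3 := hpar u hu (v - w) (S.sub_mem hv hw)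
    have e4 := hpar v hv w hw
    rw [show u + w + v = u + v + w by ring] at e2
    rw [show u + (v - w) = u + v - w by ring, show u - (v - w) = u + w - v by ring] at e3
    omega
  set b : k → k → ℤ := fun u v => N (u + v) - N u - N v with hb
  have bsymm : ∀ u v, b u v = b v u := by
    intro u v
    simp only [hb]
    rw [add_comm v u]
    ring
  have badd : ∀ u ∈ S, ∀ v ∈ S, ∀ w ∈ S, b (u + v) w = b u w + b v w := by
    intro u hu v hv w hw
    have := hcube u hu v hv w hw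
    simp only [hb]
    omega
  have bzero : ∀ w, b 0 w = 0 := by
    intro w
    simp only [hb, zero_add, h0]
    ring
  have bneg : ∀ u ∈ S, ∀ w ∈ S, b (-u) w = - b u w := by
    intro u hu w hw
    have := badd u hu (-u) (S.neg_mem hu) w hw
    rw [add_neg_cancel, bzero] at this
    omega
  have bsmul : ∀ (m : ℤ), ∀ u ∈ S, ∀ w ∈ S, b (m * u) w = m * b u w := by
    intro m u hu w hw
    induction m using Int.induction_on with
    | zero => simp [bzero]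
    | succ i ih =>
      have hm : ((i : ℤ) : k) * u ∈ S := S.mul_mem (intCast_mem S _) hu
      rw [show (((i : ℤ) + 1 : ℤ) : k) * u = ((i : ℤ) : k) * u + u by push_cast; ring,
        badd _ hm u hu w hw, ih]
      ring
    | pred i ih =>
      have hm : ((-(i : ℤ) : ℤ) : k) * u ∈ S := S.mul_mem (intCast_mem S _) hu
      rw [show ((-(i : ℤ) - 1 : ℤ) : k) * u = ((-(i : ℤ) : ℤ) : k) * u + -u by push_cast; ring,
        badd _ hm (-u) (S.neg_mem hu) w hw, ih, bneg u hu w hw]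
      ring
  have pol1 : ∀ u ∈ S, ∀ y ∈ S, ∀ w ∈ S, b (u * y) (u * w) = N u * b y w := by
    intro u hu y hy w hw
    simp only [hb]
    rw [← mul_add, hmul u hu _ (S.add_mem hy hw), hmul u hu y hy, hmul u hu w hw]
    ring
  have pol2 : ∀ u ∈ S, ∀ v ∈ S, ∀ y ∈ S, ∀ w ∈ S,
      b (u * y) (v * w) + b (v * y) (u * w) = b u v * b y w := by
    intro u hu v hv y hy w hw
    have e := pol1 (u + v) (S.add_mem hu hv) y hy w hw
    have huy := S.mul_mem hu hy
    have hvy := S.mul_mem hv hy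
    have huw := S.mul_mem hu hw
    have hvw := S.mul_mem hv hw
    rw [add_mul, add_mul, badd _ huy _ hvy _ (S.add_mem huw hvw), bsymm (u * y), bsymm (v * y),
      badd _ huw _ hvw _ huy, badd _ huw _ hvw _ hvy, bsymm (u * w) (u * y), bsymm (v * w) (v * y),
      pol1 u hu y hy w hw, pol1 v hv y hy w hw, bsymm (v * w) (u * y), bsymm (u * w) (v * y)] at e
    have : b u v = N (u + v) - N u - N v := rfl
    rw [this]
    linear_combination e
  refine ⟨b x 1, N x, ?_⟩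
  set p : k := x ^ 2 - (b x 1 : ℤ) * x + (N x : ℤ) with hp
  have hxx : x * x ∈ S := S.mul_mem hx hx
  have htx : ((-(b x 1) : ℤ) : k) * x ∈ S := S.mul_mem (intCast_mem S _) hx
  have hn1 : ((N x : ℤ) : k) * 1 ∈ S := S.mul_mem (intCast_mem S _) S.one_mem
  have hp' : p = x * x + ((-(b x 1) : ℤ) : k) * x + ((N x : ℤ) : k) * 1 := by
    rw [hp]; push_cast; ring
  have hpS : p ∈ S := by
    rw [hp']; exact S.add_mem (S.add_mem hxx htx) hn1
  have key : ∀ w ∈ S, b p w = 0 := by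
    intro w hw
    rw [hp', badd _ (S.add_mem hxx htx) _ hn1 w hw, badd _ hxx _ htx w hw,
      bsmul _ x hx w hw, bsmul _ 1 S.one_mem w hw]
    have e1 := pol2 x hx 1 S.one_mem x hx w hw
    have e2 := pol1 x hx 1 S.one_mem w hw
    simp only [one_mul, mul_one] at e1 e2
    linear_combination e1 - e2
  have e := key p hpS
  have e2 := hpar p hpS p hpS
  simp only [sub_self, h0] at e2
  have : b p p = N (p + p) - N p - N p := rfl
  apply hdef p hpS
  omega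

/-- With `b u v = N (u + v) - N u - N v` (biadditive by the parallelogram law), polarising
`N (x y) = N x N y` twice gives `b (x y) (w z) + b (w y) (x z) = b x w * b y z` and
`b (x y) (x z) = N x * b y z`, hence `b (x ^ 2 - b x 1 * x + N x) z = 0` for all `z`, so
`x ^ 2 - t x + n = 0`. The equations for `x`, `z` and `x + z` give `x ∈ ℚ + ℚ z`; then
`x = r + s z` with `s ≠ 0` has `t = 2 r - s`, `4 n = t ^ 2 + 3 s ^ 2`, so `s` and `r` are integers. -/
theorem end_alg {k : Type} [Field k] [CharZero k] (z : k) (hz : z ^ 2 + z + 1 = 0) (S : Subring k)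
    (hzS : z ∈ S) (N : k → ℤ)
    (hpar : ∀ a ∈ S, ∀ b ∈ S, N (a + b) + N (a - b) = 2 * N a + 2 * N b)
    (hmul : ∀ a ∈ S, ∀ b ∈ S, N (a * b) = N a * N b) (hone : N 1 = 1)
    (hdef : ∀ a ∈ S, N a = 0 → a = 0) : ∀ a ∈ S, ∃ m n : ℤ, a = m + n * z := by
  intro x hx
  obtain ⟨t, n, h1⟩ := EndAlg_aux_quad S N hpar hmul hdef x hx
  obtain ⟨t', n', h2⟩ := EndAlg_aux_quad S N hpar hmul hdef (x + z) (S.add_mem hx hzS)
  set c : ℤ := t - t' with hc
  have hD : (0 : ℤ) < c ^ 2 - 2 * c + 4 := by nlinarith [sq_nonneg (c - 1)]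
  have hDq : ((c ^ 2 - 2 * c + 4 : ℤ) : ℚ) ≠ 0 := by exact_mod_cast hD.ne'
  have hDk : ((c ^ 2 - 2 * c + 4 : ℤ) : k) ≠ 0 := by exact_mod_cast hD.ne'
  have h3 : x * ((c : k) + 2 * z) = ((n + 1 - n' : ℤ) : k) + ((t' + 1 : ℤ) : k) * z := by
    rw [hc]; push_cast
    linear_combination h2 - h1 - hz
  set A : ℤ := n + 1 - n' with hA
  set B : ℤ := t' + 1 with hB
  have h4 : x * ((c ^ 2 - 2 * c + 4 : ℤ) : k) =
      ((A * (c - 2) + 2 * B : ℤ) : k) + ((B * c - 2 * A : ℤ) : k) * z := by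
    push_cast
    linear_combination ((c : k) - 2 - 2 * z) * h3 + (4 * x - 2 * (B : k)) * hz
  obtain ⟨r, s, hrs⟩ : ∃ r s : ℚ, x = r + s * z := by
    refine ⟨((A * (c - 2) + 2 * B : ℤ) : ℚ) / ((c ^ 2 - 2 * c + 4 : ℤ) : ℚ),
      ((B * c - 2 * A : ℤ) : ℚ) / ((c ^ 2 - 2 * c + 4 : ℤ) : ℚ), ?_⟩
    rw [Rat.cast_div, Rat.cast_div, Rat.cast_intCast, Rat.cast_intCast, Rat.cast_intCast]
    field_simp
    linear_combination h4
  have h5 : ((r ^ 2 - s ^ 2 - t * r + n : ℚ) : k) + ((2 * r * s - s ^ 2 - t * s : ℚ) : k) * z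
      = 0 := by
    push_cast
    rw [hrs] at h1
    linear_combination h1 - (s : k) ^ 2 * hz
  obtain ⟨e1, e2⟩ := EndAlg_aux_indep z hz _ _ h5
  by_cases hs : s = 0
  · subst hs
    obtain ⟨m, hm⟩ := EndAlg_aux_root r (-t) n (by push_cast; linear_combination e1)
    exact ⟨m, 0, by rw [hrs, hm]; simp⟩
  · have e3 : (t : ℚ) = 2 * r - s := by
      have : s * (2 * r - s - t) = 0 := by linear_combination e2
      rcases mul_eq_zero.mp this with h | h
      · exact absurd h hs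
      · linear_combination -h
    have e4 : 3 * s ^ 2 = 4 * (n : ℚ) - t ^ 2 := by
      linear_combination (-4) * e1 + ((t : ℚ) - 2 * r - s) * e3
    obtain ⟨m, hm⟩ := EndAlg_aux_root (3 * s) 0 (-(3 * (4 * n - t ^ 2)))
      (by push_cast; linear_combination 3 * e4)
    have e5 : m ^ 2 = 3 * (4 * n - t ^ 2) := by
      have : (m : ℚ) ^ 2 = 3 * (4 * n - t ^ 2) := by rw [← hm]; linear_combination 3 * e4
      exact_mod_cast this
    have e6 : (3 : ℤ) ∣ m := Int.Prime.dvd_pow' (by norm_num : Nat.Prime 3) ⟨_, e5⟩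
    obtain ⟨s', hs'⟩ := e6
    have e7 : s = s' := by
      rw [hs'] at hm
      push_cast at hm
      linear_combination hm / 3
    obtain ⟨m', hm'⟩ := EndAlg_aux_root r (-t) (n - s' ^ 2)
      (by push_cast; rw [← e7]; linear_combination e1)
    exact ⟨m', s', by rw [hrs, hm', e7]; simp⟩

end Pool.Agent.MP_95da86_ag

end

section

/-! The points of the curve over its function field. -/

namespace Pool.Agent.MP_95da86_ag

variable {F M : Type} [Field F] [Field M] [Algebra ℂ F] [Algebra ℂ M] [Algebra F M]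
  [IsScalarTower ℂ F M] {P : EP M}

theorem End_aux_xc (c : EP F) : xc (up F M c) = algebraMap F M (xc c) := xc_emap _ _

theorem End_aux_yc (c : EP F) : yc (up F M c) = algebraMap F M (yc c) := yc_emap _ _

theorem End_aux_up (hP : Gen F P) {Q : EP M} (hx : IsAlgebraic F (xc Q)) :
    ∃ c : EP F, Q = up F M c := by
  refine exists_up (hP.algClosed hx) (hP.algClosed ?_)
  by_cases h : Q = 0
  · rw [h, yc_zero]; exact isAlgebraic_zero
  · have h2 : IsAlgebraic F (yc Q ^ 2) := by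
      rw [eqn_of_ne h]
      exact (hx.pow 3).add isAlgebraic_one
    exact h2.of_pow (by norm_num)

theorem End_aux_lift (hP : Gen F P) (Q : EP M) : (∃ c : EP F, Q = up F M c) ∨
    ∃ φ : M →ₐ[F] M, emap (φ.restrictScalars ℂ) P = Q := by
  by_cases hx : IsAlgebraic F (xc Q)
  · exact Or.inl (End_aux_up hP hx)
  · refine Or.inr (hP.lift (fun h => hx ?_) hx)
    rw [h, xc_zero]; exact isAlgebraic_zero

theorem End_aux_ht [IsAlgClosed F] (h : IsFF F M) (φ : M →ₐ[F] M) :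
    ∃ n : ℤ, ∀ R : EP M, ht F (emap (φ.restrictScalars ℂ) R) = n * ht F R := by
  let A : Algebra M M := φ.toRingHom.toAlgebra
  have t1 : @IsScalarTower ℂ M M _ A.toSMul _ :=
    @IsScalarTower.of_algebraMap_eq ℂ M M _ _ _ _ A _ fun c =>
      ((φ.restrictScalars ℂ).commutes c).symm
  have t2 : @IsScalarTower F M M _ A.toSMul _ :=
    @IsScalarTower.of_algebraMap_eq F M M _ _ _ _ A _ fun c => (φ.commutes c).symm
  exact ⟨_, fun R => @ht_up M _ _ F _ _ _ _ _ M _ _ _ A _ t1 t2 h h R⟩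

theorem End_aux_dl (hP : Gen F P) {D : Derivation F M M} (hD : dl D P = 1) (φ : M →ₐ[F] M)
    (R : EP M) : dl D (emap (φ.restrictScalars ℂ) R) =
      dl D (emap (φ.restrictScalars ℂ) P) * φ (dl D R) := by
  have e : dl D (emap (φ.restrictScalars ℂ) R) = D (φ (xc R)) / φ (yc R) := by
    rw [dl, xc_emap, yc_emap]; rfl
  rw [e, hP.der_comp hD, dl.eq_1 D R, map_div₀, mul_div_assoc]

theorem End_aux_dl_zero (D : Derivation F M M) : dl D (0 : EP M) = 0 := by simp [dl]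

theorem End_aux_dl_sub (D : Derivation F M M) (Q R : EP M) : dl D (Q - R) = dl D Q - dl D R := by
  rw [sub_eq_add_neg, dl_add, dl_neg, sub_eq_add_neg]

/-- `dl D Q` has no pole, so it is a constant `c Q ∈ F`. The constants form a subring `S`
(for non-constant `Q` take `φ` with `φ P = Q` from `Gen.lift`; `c (φ R) = c Q * c R` by
`der_comp`). `N (c Q) = ht Q / ht P` is well defined (`up_of_dl`, `ht_add_up`), an integer
(`ht (φ R) = [M : φ M] ht R` by `ht_up` for the algebra structure given by `φ`), multiplicative,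
and satisfies the parallelogram law. Apply `end_alg`. -/
theorem Gen.end_closed [IsAlgClosed F] (hP : Gen F P) (Q : EP M) :
    ∃ (a : Zw) (c : EP F), Q = a • P + up F M c := by
  classical
  have := charZero_of F
  obtain ⟨D, hD⟩ := hP.exists_der
  have hF := hP.isFF
  have inj := (algebraMap F M).injective
  have h0 : ht F P ≠ 0 := fun h => by
    obtain ⟨c, hc⟩ := (ht_eq_zero hF P).1 h
    refine hP.tr ?_
    rw [hc, End_aux_xc]
    exact isAlgebraic_algebraMap _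
  have mul : ∀ (φ : M →ₐ[F] M) (R : EP M) (a b : F),
      dl D (emap (φ.restrictScalars ℂ) P) = algebraMap F M a → dl D R = algebraMap F M b →
      dl D (emap (φ.restrictScalars ℂ) R) = algebraMap F M (a * b) := fun φ R a b ha hb => by
    rw [End_aux_dl hP hD, ha, hb, φ.commutes, map_mul]
  have cst0 : ∀ (c : EP F) (a : F), dl D (up F M c) = algebraMap F M a → a = 0 := fun c a h =>
    inj (by rw [← h, dl_up, map_zero])
  let S : Subring F :=
    { carrier := {a | ∃ R : EP M, dl D R = algebraMap F M a}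
      mul_mem' := by
        rintro a b ⟨R, hR⟩ ⟨R', hR'⟩
        rcases End_aux_lift hP R with ⟨c, rfl⟩ | ⟨φ, rfl⟩
        · exact ⟨0, by rw [cst0 c a hR, zero_mul, map_zero, End_aux_dl_zero]⟩
        · exact ⟨_, mul φ R' a b hR hR'⟩
      one_mem' := ⟨P, by rw [hD, map_one]⟩
      add_mem' := by
        rintro a b ⟨R, hR⟩ ⟨R', hR'⟩
        exact ⟨R + R', by rw [dl_add, hR, hR', map_add]⟩
      zero_mem' := ⟨0, by rw [End_aux_dl_zero, map_zero]⟩
      neg_mem' := by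
        rintro a ⟨R, hR⟩
        exact ⟨-R, by rw [dl_neg, hR, map_neg]⟩ }
  have hN : ∀ a : F, ∃ n : ℤ, ∀ R : EP M, dl D R = algebraMap F M a → ht F R = n * ht F P := by
    intro a
    by_cases ha : ∃ R : EP M, dl D R = algebraMap F M a
    · obtain ⟨R₀, hR₀⟩ := ha
      have h1 : ∃ n : ℤ, ht F R₀ = n * ht F P := by
        rcases End_aux_lift hP R₀ with ⟨c, hc⟩ | ⟨φ, rfl⟩
        · exact ⟨0, by rw [zero_mul]; exact (ht_eq_zero hF R₀).2 ⟨c, hc⟩⟩
        · obtain ⟨n, hn⟩ := End_aux_ht hF φ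
          exact ⟨n, hn P⟩
      obtain ⟨n, hn⟩ := h1
      refine ⟨n, fun R hR => ?_⟩
      obtain ⟨c, hc⟩ := hP.up_of_dl hD (Q := R - R₀) (by rw [End_aux_dl_sub, hR, hR₀, sub_self])
      rw [show R = R₀ + up F M c by rw [← hc]; abel, ht_add_up hF, hn]
    · exact ⟨0, fun R hR => absurd ⟨R, hR⟩ ha⟩
  choose N hN using hN
  have N0 : N 0 = 0 := by
    have := hN 0 0 (by rw [End_aux_dl_zero, map_zero])
    rw [ht_zero hF] at this
    exact (mul_eq_zero.1 this.symm).resolve_right h0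
  have hz : zt M = algebraMap F M (zt F) := by
    rw [zt, zt, ← IsScalarTower.algebraMap_apply]
  have key := end_alg (zt F) zt_quad S ⟨om • P, by rw [dl_om, hD, mul_one, hz]⟩ N
    (by
      rintro a ⟨R, hR⟩ b ⟨R', hR'⟩
      have e := ht_par hF R R'
      rw [hN (a + b) (R + R') (by rw [dl_add, hR, hR', map_add]),
        hN (a - b) (R - R') (by rw [End_aux_dl_sub, hR, hR', map_sub]), hN a R hR,
        hN b R' hR'] at e
      exact mul_right_cancel₀ h0 (by linear_combination e))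
    (by
      rintro a ⟨R, hR⟩ b ⟨R', hR'⟩
      rcases End_aux_lift hP R with ⟨c, rfl⟩ | ⟨φ, rfl⟩
      · rw [cst0 c a hR, zero_mul, N0, zero_mul]
      · obtain ⟨n, hn⟩ := End_aux_ht hF φ
        have e₁ := hN a _ hR
        have e₂ := hN (a * b) _ (mul φ R' a b hR hR')
        rw [hn] at e₁ e₂
        rw [hN b R' hR', mul_right_cancel₀ h0 e₁, ← mul_assoc] at e₂
        exact (mul_right_cancel₀ h0 e₂).symm)
    (by
      have e := hN 1 P (by rw [hD, map_one])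
      exact mul_right_cancel₀ h0 (by rw [← e, one_mul]))
    (by
      rintro a ⟨R, hR⟩ ha
      have e := hN a R hR
      rw [ha, zero_mul] at e
      obtain ⟨c, rfl⟩ := (ht_eq_zero hF R).1 e
      exact cst0 c a hR)
  obtain ⟨a, ha⟩ := const_of_no_pole (k := F) fun V => hP.dl_mem hD V Q
  obtain ⟨m, n, hmn⟩ := key a ⟨Q, ha⟩
  obtain ⟨c, hc⟩ := hP.up_of_dl hD (Q := Q - (⟨m, n⟩ : Zw) • P) (by
    rw [End_aux_dl_sub, dl_smul, hD, ha, hmn, hz]
    simp)
  exact ⟨⟨m, n⟩, c, by rw [← hc]; abel⟩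

theorem End_aux_any {F' M' : Type} [Field F'] [Field M'] [Algebra ℂ F'] [Algebra ℂ M']
    [Algebra F' M'] [IsScalarTower ℂ F' M'] [Algebra F F'] [IsScalarTower ℂ F F']
    [Algebra.IsAlgebraic F F'] [IsAlgClosed F'] {P' : EP M'} (hP' : Gen F' P')
    (hP : Gen F P) (Q : EP M) : ∃ (a : Zw) (c : EP F), Q = a • P + up F M c := by
  let A : Algebra F M' := ((algebraMap F' M').comp (algebraMap F F')).toAlgebra
  have t1 : IsScalarTower F F' M' := IsScalarTower.of_algebraMap_eq fun _ => rfl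
  have t2 : IsScalarTower ℂ F M' := IsScalarTower.of_algebraMap_eq fun c => by
    rw [IsScalarTower.algebraMap_apply F F' M', ← IsScalarTower.algebraMap_apply ℂ F F',
      ← IsScalarTower.algebraMap_apply ℂ F' M']
  obtain ⟨φ, hφ⟩ := hP.lift hP'.ne (hP'.tr.of_tower_top F)
  obtain ⟨a, c, hc⟩ := hP'.end_closed (emap (φ.restrictScalars ℂ) Q)
  have e : emap (φ.restrictScalars ℂ) (Q - a • P) = up F' M' c := by
    rw [map_sub, map_smul, hφ, hc]; abel
  have hx : IsAlgebraic F (xc (Q - a • P)) := by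
    refine (isAlgebraic_algHom_iff φ φ.toRingHom.injective).1 ?_
    have e' : φ (xc (Q - a • P)) = algebraMap F' M' (xc c) := by
      rw [← End_aux_xc, ← e, xc_emap]; rfl
    rw [e']
    exact (Algebra.IsAlgebraic.isAlgebraic (R := F) (xc c)).algebraMap
  obtain ⟨c₀, hc₀⟩ := End_aux_up hP hx
  exact ⟨a, c₀, by rw [← hc₀]; abel⟩

/-- Embed `M` over `F` into the function field over an algebraic closure (`exists_gen`,
`Gen.lift`); the coordinates of `Q - a • P` are algebraic over `F`; use `algClosed`, `exists_up`. -/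
theorem Gen.end_any (hP : Gen F P) (Q : EP M) : ∃ (a : Zw) (c : EP F), Q = a • P + up F M c := by
  obtain ⟨P', hP'⟩ := exists_gen (AlgebraicClosure F)
  exact End_aux_any hP' hP Q

end Pool.Agent.MP_95da86_ag

end

section

/-! Every Cartier divisor on the blow-up is, up to a multiple and linear equivalence, a
combination of the explicit divisors. -/

namespace Pool.Agent.MP_95da86_ag

variable {L : Type} [Field L] [Algebra ℂ L] {P : Fin 3 → EP L} {σ : L ≃ₐ[ℂ] L}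

/-- The multiplicity of local equations along a valuation ring. -/
noncomputable def Elim_aux_mu (V : ValuationSubring L) (hV : ∀ c : ℂ, algebraMap ℂ L c ∈ V)
    (f : Pt L → Lˣ) : ℤ := ord V (f (vpt V hV) : L)

section Mu

variable (V : ValuationSubring L) (hV : ∀ c : ℂ, algebraMap ℂ L c ∈ V) [IsDiscreteValuationRing V]

theorem Elim_aux_mul (f g : Pt L → Lˣ) :
    Elim_aux_mu V hV (f * g) = Elim_aux_mu V hV f + Elim_aux_mu V hV g := by
  simp only [Elim_aux_mu, Pi.mul_apply, Units.val_mul]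
  exact ord_mul V (Units.ne_zero _) (Units.ne_zero _)

theorem Elim_aux_div (f g : Pt L → Lˣ) :
    Elim_aux_mu V hV (f / g) = Elim_aux_mu V hV f - Elim_aux_mu V hV g := by
  simp only [Elim_aux_mu, Pi.div_apply, Units.val_div_eq_div_val]
  exact ord_div V (Units.ne_zero _) (Units.ne_zero _)

theorem Elim_aux_pow (f : Pt L → Lˣ) (n : ℕ) :
    Elim_aux_mu V hV (f ^ n) = n * Elim_aux_mu V hV f := by
  simp only [Elim_aux_mu, Pi.pow_apply, Units.val_pow_eq_pow_val]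
  exact ord_pow V _ _

theorem Elim_aux_zpow (f : Pt L → Lˣ) (n : ℤ) :
    Elim_aux_mu V hV (f ^ n) = n * Elim_aux_mu V hV f := by
  simp only [Elim_aux_mu, Pi.pow_apply, Units.val_zpow_eq_zpow_val]
  exact ord_zpow V _ _

theorem Elim_aux_prod {ι : Type} (s : Finset ι) (F : ι → Pt L → Lˣ) :
    Elim_aux_mu V hV (∏ i ∈ s, F i) = ∑ i ∈ s, Elim_aux_mu V hV (F i) := by
  simp only [Elim_aux_mu, Finset.prod_apply, Units.coe_prod]
  exact ord_prod V s _ fun i _ => Units.ne_zero _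

theorem Elim_aux_stage (f z z' : Pt L → Lˣ) (u : Lˣ) (N : ℕ) (α β : ℤ) :
    Elim_aux_mu V hV (f ^ N / ((fun _ => u) * z ^ α * z' ^ β)) = N * Elim_aux_mu V hV f -
      (ord V (u : L) + α * Elim_aux_mu V hV z + β * Elim_aux_mu V hV z') := by
  rw [Elim_aux_div, Elim_aux_pow, Elim_aux_mul, Elim_aux_mul, Elim_aux_zpow, Elim_aux_zpow]
  rfl

theorem Elim_aux_one {f : Pt L → Lˣ} (h : f (vpt V hV) = 1) : Elim_aux_mu V hV f = 0 := by
  rw [Elim_aux_mu, h, Units.val_one, ord_one]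

theorem Elim_aux_unit {Y : Set (Pt L)} {w : Pt L → Lˣ} (hw : IsCartier Y w) {O : Pt L}
    (hO : O ∈ Y) (hY : vpt V hV ∈ Y) (hle : ∀ g ∈ O.1, g ∈ V) (h0 : Elim_aux_mu V hV w = 0) :
    (w O : L) ∈ V ∧ (w O : L)⁻¹ ∈ V := by
  have h1 := hw.compat hO hY (fun g hg => hle g hg)
  have h2 := (ord_eq_zero_iff V _).1 h0
  have h3 := h1.mul (g := (w (vpt V hV) : L)) ⟨Units.ne_zero _, h2.1, h2.2⟩
  rw [Units.val_div_eq_div_val, div_mul_cancel₀ _ (Units.ne_zero _)] at h3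
  exact ⟨h3.2.1, h3.2.2⟩

variable {M : Type} [Field M] [Algebra ℂ M] [Algebra M L] [IsScalarTower ℂ M L]

omit [IsDiscreteValuationRing V] in
theorem Elim_aux_yc (Q : EP M) : yc (up M L Q) = algebraMap M L (yc Q) := by
  rw [up, yc_emap]; rfl

/-- Functions from a subfield contained in `V` do not change the multiplicity. -/
theorem Elim_aux_sub (hM : ∀ c : M, algebraMap M L c ∈ V) {f : Pt L → Lˣ}
    (h0 : Elim_aux_mu V hV f = 0) (u : Mˣ) (Q Q' : EP M) (N : ℕ) (α β : ℤ) :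
    Elim_aux_mu V hV (f ^ N / ((fun _ => Units.map (algebraMap M L : M →* L) u) *
      zq (yc (up M L Q)) ^ α * zq (yc (up M L Q')) ^ β)) = 0 := by
  have hz : ∀ R : EP M, Elim_aux_mu V hV (zq (yc (up M L R))) = 0 := fun R =>
    Elim_aux_one V hV (zq_of_mem (by rw [Elim_aux_yc]; exact hM _))
  have hu : ord V ((Units.map (algebraMap M L : M →* L) u : Lˣ) : L) = 0 := by
    refine (ord_eq_zero_iff V _).2 ⟨hM _, ?_⟩
    have := hM (u : M)⁻¹
    rwa [map_inv₀] at this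
  rw [Elim_aux_stage, h0, hz, hz, hu]
  simp

end Mu

theorem Elim_aux_up_up {F M : Type} [Field F] [Field M] [Algebra ℂ F] [Algebra ℂ M] [Algebra F M]
    [IsScalarTower ℂ F M] [Algebra M L] [IsScalarTower ℂ M L] [Algebra F L] [IsScalarTower ℂ F L]
    [IsScalarTower F M L] (c : EP F) : up M L (up F M c) = up F L c := by
  rw [up, up, up, emap_emap]
  congr 2
  exact AlgHom.ext fun x => (IsScalarTower.algebraMap_apply F M L x).symm

theorem Elim_aux_up_self (c : EP L) : up L L c = c := emap_id c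

theorem Elim_aux_up_cst {F : Type} [Field F] [Algebra ℂ F] [Algebra F L] [IsScalarTower ℂ F L]
    (c : EP ℂ) : up F L (up ℂ F c) = cst L c := by
  rw [up_eq_cst, up, emap_cst]

theorem Elim_aux_comb {G : Type} [CommGroup G] (f U₃ U₂ U₁ z₀ z₁ z₂ z₃ z₄ z₅ e : G)
    (N₃ N₂ N₁ N₀ : ℕ) (α₃ β₃ α₂ β₂ α₁ β₁ : ℤ) :
    f ^ (N₃ * N₂ * N₁ * N₀) =
      (((f ^ N₃ / (U₃ * z₀ ^ α₃ * z₁ ^ β₃)) ^ N₂ / (U₂ * z₂ ^ α₂ * z₃ ^ β₂)) ^ N₁ /
        (U₁ * z₄ ^ α₁ * z₅ ^ β₁)) ^ N₀ / e * (U₃ ^ (N₂ * N₁ * N₀) * U₂ ^ (N₁ * N₀) * U₁ ^ N₀) *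
      (z₀ ^ (α₃ * N₂ * N₁ * N₀) * z₁ ^ (β₃ * N₂ * N₁ * N₀) * z₂ ^ (α₂ * N₁ * N₀) *
        z₃ ^ (β₂ * N₁ * N₀) * z₄ ^ (α₁ * N₀) * z₅ ^ (β₁ * N₀)) * e := by
  apply Additive.ofMul.injective
  simp only [ofMul_mul, ofMul_div, ofMul_pow, ofMul_zpow]
  module

/-- The multiplicities vanish for almost all `V`: use the neighbourhood `S` of the generic point
`topPt L` and `Tower.fin`. -/
theorem Tower.mult_fin (T : Tower P) (h : Cfg P σ) {f : Pt L → Lˣ} (hf : IsCartier (blP P σ) f) :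
    {V : ValuationSubring L | ∃ hV : V ∈ T.VV, ord V (f (vpt V (T.const_mem hV)) : L) ≠ 0}.Finite := by
  classical
  obtain ⟨S, -, hS⟩ := hf _ h.top_mem
  have hfin : (⋃ s ∈ insert (f (topPt L) : L) (insert (f (topPt L) : L)⁻¹ S),
      {V | V ∈ T.VV ∧ s ∉ V}).Finite := Set.Finite.biUnion (Finset.finite_toSet _) fun s _ => T.fin s
  refine hfin.subset ?_
  rintro V ⟨hV, hne⟩
  by_contra hc
  simp only [Set.mem_iUnion, Set.mem_ofPred_eq, not_exists, not_and, not_not] at hc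
  have := T.dvr hV
  have h1 := hS _ (T.mem_bl h hV).1 fun s hs => hc s (by simp [Finset.mem_coe.1 hs]) hV
  have h2 : ord V ((f (vpt V (T.const_mem hV)) / f (topPt L) : Lˣ) : L) = 0 := by
    refine (ord_eq_zero_iff V _).2 ⟨h1.1, ?_⟩
    rw [← Units.val_inv_eq_inv_val, inv_div]
    exact h1.2
  have h3 : ord V (f (topPt L) : L) = 0 :=
    (ord_eq_zero_iff V _).2 ⟨hc _ (by simp) hV, hc _ (by simp) hV⟩
  rw [Units.val_div_eq_div_val, ord_div V (Units.ne_zero _) (Units.ne_zero _), h3, sub_zero] at h2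
  exact hne h2

/-- One step: kill the multiplicities along a family `E W` of members of `VV` indexed by the places
of a subfield `M / F`. -/
theorem Tower.step (T : Tower P) (h : Cfg P σ) {F M : Type} [Field F] [Field M] [Algebra ℂ F]
    [Algebra ℂ M] [Algebra F M] [IsScalarTower ℂ F M] [Algebra M L] [IsScalarTower ℂ M L]
    {Q : EP M} (hQ : Gen F Q) (E : Pl F M → ValuationSubring L) (hE : ∀ W, E W ∈ T.VV)
    (hinj : Function.Injective E) (hmem : ∀ W c, algebraMap M L c ∈ E W ↔ c ∈ W.1)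
    (hord : ∀ W c, ord (E W) (algebraMap M L c) = ord W.1 c)
    {f : Pt L → Lˣ} (hf : IsCartier (blP P σ) f) :
    ∃ (N : ℕ) (u : Mˣ) (c : EP F) (α β : ℤ), 0 < N ∧ ∀ W,
      N * ord (E W) (f (vpt (E W) (T.const_mem (hE W))) : L) = ord (E W) (algebraMap M L u) +
        α * ord (E W) (zq (yc (up M L Q)) (vpt (E W) (T.const_mem (hE W))) : L) +
        β * ord (E W) (zq (yc (up M L (Q - up F M c))) (vpt (E W) (T.const_mem (hE W))) : L) := by
  have _ := hmem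
  have hfin : (Function.support fun W => ord (E W) (f (vpt (E W) (T.const_mem (hE W))) : L)).Finite :=
    ((T.mult_fin h hf).preimage hinj.injOn).subset fun W hW => ⟨hE W, hW⟩
  obtain ⟨N, g, c, α, β, hN, hg, H⟩ := hQ.rr _ hfin
  refine ⟨N, Units.mk0 g hg, c, α, β, hN, fun W => ?_⟩
  have := T.dvr (hE W)
  have hl : ∀ R : EP M, ord (E W) (zq (yc (up M L R)) (vpt (E W) (T.const_mem (hE W))) : L) =
      lam W.1 R := fun R => by
    rw [← lam_eq_ord_zq, lam, lam, Elim_aux_yc, hord]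
  rw [hl, hl, hord, H W, Units.val_mk0]

/-- Subtracting the exceptional planes. -/
theorem Elim_aux_exc (T : Tower P) (h : Cfg P σ) {f₁ : Pt L → Lˣ} (k₁ : IsCartier (blP P σ) f₁)
    (z₁ : ∀ V (hV : V ∈ T.VV), Elim_aux_mu V (T.const_mem hV) f₁ = 0) :
    ∃ (N₀ : ℕ) (a : F3 → ℤ), 0 < N₀ ∧
      Triv (blP P σ) (f₁ ^ N₀ / ∏ p, pull σ (eX P σ p) ^ a p) := by
  classical
  obtain ⟨W, hW, w₁, w₂⟩ := T.exists_Wfam h
  have hm : ∀ p, ∃ m : ℕ, 0 < m ∧ Elim_aux_mu (W p) (hW p) (pull σ (eX P σ p)) = m := fun p => by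
    have := (w₁ p).1
    obtain ⟨i, -, e⟩ := h.pull_eX_over (w₁ p).2.1 (w₁ p).2.2
    have h1 : 0 < Elim_aux_mu (W p) (hW p) (pull σ (eX P σ p)) := by
      refine (ord_pos_iff _ (Units.ne_zero _)).2 ?_
      rw [e]
      exact mem_mx_vpt.1 (Over.sc_mem (fun j => intg_val _ _ _) (w₁ p).2.2 i).2
    obtain ⟨m, hm⟩ := Int.eq_ofNat_of_zero_le h1.le
    exact ⟨m, by rw [hm] at h1; exact_mod_cast h1, hm⟩
  choose m m₀ hm using hm
  obtain ⟨N₀, hN₀, hk⟩ : ∃ N₀ : ℕ, 0 < N₀ ∧ ∀ p, ∃ k : ℕ, N₀ = m p * k :=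
    ⟨∏ q, m q, Finset.prod_pos fun q _ => m₀ q,
      fun p => Finset.dvd_prod_of_mem m (Finset.mem_univ p)⟩
  choose k hk using hk
  obtain ⟨a, ha⟩ : ∃ a : F3 → ℤ, ∀ p, a p = Elim_aux_mu (W p) (hW p) f₁ * k p := ⟨_, fun _ => rfl⟩
  refine ⟨N₀, a, hN₀, ?_⟩
  obtain ⟨w, hw⟩ : ∃ w, w = f₁ ^ N₀ / ∏ p, pull σ (eX P σ p) ^ a p := ⟨_, rfl⟩
  rw [← hw]
  have k₀ : IsCartier (blP P σ) w := hw ▸ (k₁.pow _).div
    (isCartier_prod _ _ fun p _ => (h.eX_cartier p).to_pull.zpow _)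
  have z₀ : ∀ V (hV : V ∈ T.VV), Elim_aux_mu V (T.const_mem hV) w = 0 := by
    intro V hV
    have := T.dvr hV
    rw [hw, Elim_aux_div, Elim_aux_pow, Elim_aux_prod, z₁ V hV, mul_zero, zero_sub, neg_eq_zero]
    refine Finset.sum_eq_zero fun p _ => ?_
    rw [Elim_aux_zpow, Elim_aux_one V _ (h.pull_eX_not ((T.mem_bl h hV).2 p)), mul_zero]
  have z₀' : ∀ p, Elim_aux_mu (W p) (hW p) w = 0 := by
    intro p
    have := (w₁ p).1
    have e : ∑ q, Elim_aux_mu (W p) (hW p) (pull σ (eX P σ q) ^ a q) =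
        Elim_aux_mu (W p) (hW p) (pull σ (eX P σ p) ^ a p) := by
      refine Finset.sum_eq_single_of_mem p (Finset.mem_univ p) fun q _ hq => ?_
      rw [Elim_aux_zpow, Elim_aux_one _ _ (h.pull_eX_not fun ho =>
        hq (over_inj h.gen (fun j => intg_val _ _ _) ho (w₁ p).2.2)), mul_zero]
    rw [hw, Elim_aux_div, Elim_aux_pow, Elim_aux_prod, e, Elim_aux_zpow, hm, ha, hk p]
    push_cast
    ring
  intro O hO
  have a₁ : ∀ V ∈ T.VV, (∀ g ∈ O.1, g ∈ V) → (w O : L) ∈ V ∧ (w O : L)⁻¹ ∈ V := fun V hV hle =>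
    have := T.dvr hV
    Elim_aux_unit V _ k₀ hO (T.mem_bl h hV).1 hle (z₀ V hV)
  have a₂ : ∀ p, Over O P p → (w O : L) ∈ W p ∧ (w O : L)⁻¹ ∈ W p := fun p hp =>
    have := (w₁ p).1
    Elim_aux_unit _ _ k₀ hO (w₁ p).2.1 ((w₂ O hO).1 p hp) (z₀' p)
  exact ⟨Units.ne_zero _, (w₂ O hO).2 _ (fun V hV hle => (a₁ V hV hle).1) fun p hp => (a₂ p hp).1,
    (w₂ O hO).2 _ (fun V hV hle => (a₁ V hV hle).2) fun p hp => (a₂ p hp).2⟩

/-- Apply the step to `L / F2` (the point `c` is `a₀ P 0 + a₁ P 1 + const` by `end_any` twice),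
then to `F2 / F1` and `F1 / ℂ` along the Gauss extensions (functions from the smaller fields are
units along the families treated before), then subtract the exceptional planes, whose equations
are `1` along `VV`. A Cartier divisor with zero multiplicities is trivial by `exists_Wfam` and
`IsCartier.compat`. -/
theorem Cfg.elim (h : Cfg P σ) {f : Pt L → Lˣ} (hf : IsCartier (blP P σ) f) :
    ∃ (N : ℕ) (u : Lˣ) (n : Fin 6 → ℤ) (l : Fin 6 → Lam) (c : Fin 6 → EP ℂ) (a : F3 → ℤ)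
      (w : Pt L → Lˣ), 0 < N ∧ Triv (blP P σ) w ∧
      f ^ N = w * (fun _ => u) * (∏ j, zq (yc (lin (l j) P - cst L (c j))) ^ n j) *
        ∏ p, pull σ (eX P σ p) ^ a p := by
  classical
  obtain ⟨T⟩ := h.gen.tower
  have := charZero_of T.F1
  have hz : ∀ {Q : EP L} (l : Lam) (c : EP ℂ), Q = lin l P - cst L c →
      IsCartier (blP P σ) (zq (yc Q)) := fun l c e => e ▸ h.zq_cartier l c
  -- the first step
  obtain ⟨N₃, u₃, c₃, α₃, β₃, hN₃, H₃⟩ := T.step h (F := T.F2) (M := L) T.g3 (fun W => W.1)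
    (fun W => Or.inl (Or.inl W.2)) Subtype.val_injective (fun _ _ => Iff.rfl) (fun _ _ => rfl) hf
  obtain ⟨a₁, c₃', rfl⟩ := T.g2.end_any c₃
  obtain ⟨a₀, d₃, rfl⟩ := T.g1.end_any c₃'
  have e₀ : up L L (P 2) = lin ![0, 0, 1] P - cst L 0 := by
    simp [Elim_aux_up_self, lin, Fin.sum_univ_three]
  have e₁ : up L L (P 2 - up T.F2 L (a₁ • T.P2 + up T.F1 T.F2 (a₀ • T.P1 + up ℂ T.F1 d₃))) =
      lin ![-a₀, -a₁, 1] P - cst L d₃ := by
    rw [Elim_aux_up_self, map_add, map_smul, T.e2, Elim_aux_up_up, map_add, map_smul, T.e1,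
      Elim_aux_up_cst]
    simp [lin, Fin.sum_univ_three]
    abel
  obtain ⟨f₃, hf₃⟩ : ∃ g, g = f ^ N₃ / ((fun _ => u₃) * zq (yc (up L L (P 2))) ^ α₃ * zq (yc (up L L
    (P 2 - up T.F2 L (a₁ • T.P2 + up T.F1 T.F2 (a₀ • T.P1 + up ℂ T.F1 d₃))))) ^ β₃) := ⟨_, rfl⟩
  have k₃ : IsCartier (blP P σ) f₃ := hf₃ ▸ (hf.pow _).div
    (((isCartier_const _).mul ((hz _ _ e₀).zpow _)).mul ((hz _ _ e₁).zpow _))
  have z₃ : ∀ V (hV : V ∈ T.VV), V ∈ T.V3 → Elim_aux_mu V (T.const_mem hV) f₃ = 0 := by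
    intro V hV hV3
    have := T.dvr hV
    rw [hf₃, Elim_aux_stage, sub_eq_zero]
    exact H₃ ⟨V, hV3⟩
  -- the second step
  choose G₃ hG₃ using T.g3.exists_gauss
  choose G₂ hG₂ using T.g2.exists_gauss
  have d₂ : ∀ W : Pl T.F1 T.F2, IsDiscreteValuationRing W.1 := T.g2.isFF.dvr
  obtain ⟨N₂, u₂, c₂, α₂, β₂, hN₂, H₂⟩ := T.step h (F := T.F1) (M := T.F2) T.g2
    (fun W => G₃ W.1) (fun W => Or.inl (Or.inr ⟨W, hG₃ _⟩))
    (fun W W' e => Subtype.ext (ValuationSubring.ext _ _ fun x => by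
      rw [← (hG₃ W.1).1, ← (hG₃ W'.1).1]; exact Iff.of_eq (congrArg (_ ∈ ·) e)))
    (fun W c => (hG₃ W.1).1 c) (fun W c => have := d₂ W; ((hG₃ W.1).dvr T.g3).2 c) k₃
  obtain ⟨b₀, d₂', rfl⟩ := T.g1.end_any c₂
  have e₂ : up T.F2 L T.P2 = lin ![0, 1, 0] P - cst L 0 := by
    simp [T.e2, lin, Fin.sum_univ_three]
  have e₃ : up T.F2 L (T.P2 - up T.F1 T.F2 (b₀ • T.P1 + up ℂ T.F1 d₂')) =
      lin ![-b₀, 1, 0] P - cst L d₂' := by
    rw [map_sub, T.e2, Elim_aux_up_up, map_add, map_smul, T.e1, Elim_aux_up_cst]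
    simp [lin, Fin.sum_univ_three]
    abel
  obtain ⟨f₂, hf₂⟩ : ∃ g, g = f₃ ^ N₂ / ((fun _ => Units.map (algebraMap T.F2 L : T.F2 →* L) u₂) *
    zq (yc (up T.F2 L T.P2)) ^ α₂ *
    zq (yc (up T.F2 L (T.P2 - up T.F1 T.F2 (b₀ • T.P1 + up ℂ T.F1 d₂')))) ^ β₂) := ⟨_, rfl⟩
  have k₂ : IsCartier (blP P σ) f₂ := hf₂ ▸ (k₃.pow _).div
    (((isCartier_const _).mul ((hz _ _ e₂).zpow _)).mul ((hz _ _ e₃).zpow _))
  have z₂ : ∀ V (hV : V ∈ T.VV), V ∈ T.V3 ∪ T.V2 → Elim_aux_mu V (T.const_mem hV) f₂ = 0 := by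
    intro V hV hV'
    have := T.dvr hV
    rcases hV' with hV3 | ⟨W, hW⟩
    · rw [hf₂]
      exact Elim_aux_sub V _ hV3.2 (z₃ V hV hV3) _ _ _ _ _ _
    · obtain rfl := hW.unique T.g3 (hG₃ W.1)
      rw [hf₂, Elim_aux_stage, sub_eq_zero]
      exact H₂ W
  -- the third step
  have d₁ : ∀ W : Pl ℂ T.F1, IsDiscreteValuationRing W.1 := T.g1.isFF.dvr
  have m₁ : ∀ (W : ValuationSubring T.F1) (c : T.F1), algebraMap T.F1 L c ∈ G₃ (G₂ W) ↔ c ∈ W :=
    fun W c => by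
      rw [IsScalarTower.algebraMap_apply T.F1 T.F2 L, (hG₃ _).1, (hG₂ _).1]
  obtain ⟨N₁, u₁, c₁, α₁, β₁, hN₁, H₁⟩ := T.step h (F := ℂ) (M := T.F1) T.g1
    (fun W => G₃ (G₂ W.1)) (fun W => Or.inr ⟨W, _, hG₂ _, hG₃ _⟩)
    (fun W W' e => Subtype.ext (ValuationSubring.ext _ _ fun x => by
      rw [← m₁ W.1, ← m₁ W'.1]; exact Iff.of_eq (congrArg (_ ∈ ·) e)))
    (fun W c => m₁ W.1 c) (fun W c => by
      have := d₁ W
      have h2 := (hG₂ W.1).dvr T.g2
      have := h2.1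
      rw [IsScalarTower.algebraMap_apply T.F1 T.F2 L, ((hG₃ _).dvr T.g3).2, h2.2]) k₂
  have e₄ : up T.F1 L T.P1 = lin ![1, 0, 0] P - cst L 0 := by
    simp [T.e1, lin, Fin.sum_univ_three]
  have e₅ : up T.F1 L (T.P1 - up ℂ T.F1 c₁) = lin ![1, 0, 0] P - cst L c₁ := by
    rw [map_sub, T.e1, Elim_aux_up_cst]
    simp [lin, Fin.sum_univ_three]
  obtain ⟨f₁, hf₁⟩ : ∃ g, g = f₂ ^ N₁ / ((fun _ => Units.map (algebraMap T.F1 L : T.F1 →* L) u₁) *
    zq (yc (up T.F1 L T.P1)) ^ α₁ * zq (yc (up T.F1 L (T.P1 - up ℂ T.F1 c₁))) ^ β₁) := ⟨_, rfl⟩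
  have k₁ : IsCartier (blP P σ) f₁ := hf₁ ▸ (k₂.pow _).div
    (((isCartier_const _).mul ((hz _ _ e₄).zpow _)).mul ((hz _ _ e₅).zpow _))
  have z₁ : ∀ V (hV : V ∈ T.VV), Elim_aux_mu V (T.const_mem hV) f₁ = 0 := by
    intro V hV
    have := T.dvr hV
    rcases id hV with hV' | ⟨W, W', hW, hW'⟩
    · rw [hf₁]
      refine Elim_aux_sub V _ (fun c => ?_) (z₂ V hV hV') _ _ _ _ _ _
      rw [IsScalarTower.algebraMap_apply T.F1 T.F2 L]
      rcases hV' with hV3 | ⟨W, hW⟩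
      · exact hV3.2 _
      · exact (hW.1 _).2 (W.2.2 c)
    · obtain rfl := hW.unique T.g2 (hG₂ W.1)
      obtain rfl := hW'.unique T.g3 (hG₃ _)
      rw [hf₁, Elim_aux_stage, sub_eq_zero]
      exact H₁ W
  -- the exceptional planes
  obtain ⟨N₀, a, hN₀, hT⟩ := Elim_aux_exc T h k₁ z₁
  refine ⟨N₃ * N₂ * N₁ * N₀, u₃ ^ (N₂ * N₁ * N₀) *
      Units.map (algebraMap T.F2 L : T.F2 →* L) u₂ ^ (N₁ * N₀) *
      Units.map (algebraMap T.F1 L : T.F1 →* L) u₁ ^ N₀,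
    ![α₃ * N₂ * N₁ * N₀, β₃ * N₂ * N₁ * N₀, α₂ * N₁ * N₀, β₂ * N₁ * N₀, α₁ * N₀, β₁ * N₀],
    ![![0, 0, 1], ![-a₀, -a₁, 1], ![0, 1, 0], ![-b₀, 1, 0], ![1, 0, 0], ![1, 0, 0]],
    ![0, d₃, 0, d₂', 0, c₁], a, _,
    Nat.mul_pos (Nat.mul_pos (Nat.mul_pos hN₃ hN₂) hN₁) hN₀, hT, ?_⟩
  rw [Fin.prod_univ_six, hf₁, hf₂, hf₃, e₀, e₁, e₂, e₃, e₄, e₅]
  generalize (∏ p, pull σ (eX P σ p) ^ a p) = e
  exact Elim_aux_comb f (fun _ => u₃) (fun _ => Units.map (algebraMap T.F2 L : T.F2 →* L) u₂)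
    (fun _ => Units.map (algebraMap T.F1 L : T.F1 →* L) u₁) _ _ _ _ _ _ e N₃ N₂ N₁ N₀
    α₃ β₃ α₂ β₂ α₁ β₁

end Pool.Agent.MP_95da86_ag

end

section

/-! Numerical classes on the threefold. -/

namespace Pool.Agent.MP_95da86_ag

variable {L : Type} [Field L] [Algebra ℂ L] {P : Fin 3 → EP L} {σ : L ≃ₐ[ℂ] L}

theorem Form_aux_fin {M : Type} [Field M] [Algebra ℂ M] (t : Fin 3 → M)
    (u : Fin 3 → Fin 3 → M) : (Set.range (eq3 t u)).Finite := by
  refine (((Set.finite_range t).insert 1).preimage Units.val_injective.injOn).subset ?_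
  rintro _ ⟨O, rfl⟩
  unfold eq3
  split_ifs with h
  · exact Or.inr ⟨_, rfl⟩
  · exact Or.inl rfl

theorem Cfg.finT_eX (h : Cfg P σ) {ξ : Pt L} (hξ : ξ ∈ blP P σ) (hF : IsFF ℂ (RF ξ)) (p : F3) :
    FinT (blP P σ) (pull σ (eX P σ p)) ξ := by
  refine finT_of_finite h.bl_sep h.bl_proper hξ hF (h.eX_cartier p).to_pull ?_
  refine ((Form_aux_fin (fun i => toK σ (tc (sh P p i))) fun i j => toK σ (ur P p i j)).image
    (Units.map ((KK σ).val : KK σ →* L))).subset ?_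
  rintro _ ⟨O, rfl⟩
  exact ⟨_, ⟨_, rfl⟩, rfl⟩

theorem Form_aux_elim (h : Cfg P σ) {ξ : Pt L} (hξ : ξ ∈ blP P σ) (hF : IsFF ℂ (RF ξ))
    (u : Lˣ) (n : Fin 6 → ℤ) (l : Fin 6 → Lam) (c : Fin 6 → EP ℂ) (a : F3 → ℤ)
    {w : Pt L → Lˣ} (hw : Triv (blP P σ) w) :
    FinT (blP P σ) (w * (fun _ => u) * (∏ j, zq (yc (lin (l j) P - cst L (c j))) ^ n j) *
      ∏ p, pull σ (eX P σ p) ^ a p) ξ ∧
    deg (blP P σ) (w * (fun _ => u) * (∏ j, zq (yc (lin (l j) P - cst L (c j))) ^ n j) *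
      ∏ p, pull σ (eX P σ p) ^ a p) ξ =
      ∑ j, n j * deg (blP P σ) (zq (yc (lin (l j) P - cst L (c j)))) ξ +
        ∑ p, a p * deg (blP P σ) (pull σ (eX P σ p)) ξ := by
  have hS := h.bl_sep
  have hP := h.bl_proper
  have c1 := hw.isCartier
  have c2 := isCartier_const (Y := blP P σ) u
  have c3 := fun j => h.zq_cartier (l j) (c j)
  have c4 := fun p => (h.eX_cartier p).to_pull
  have f1 := hw.finT hS hP hξ hF
  have f2 := finT_const hS hP hξ hF u
  have f3 := fun j => (finT_zq hS hP hξ hF _ (c3 j)).zpow hS hP hξ hF (c3 j) (n j)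
  have f4 := fun p => (h.finT_eX hξ hF p).zpow hS hP hξ hF (c4 p) (a p)
  have C3 := isCartier_prod Finset.univ _ fun j _ => (c3 j).zpow (n j)
  have C4 := isCartier_prod Finset.univ _ fun p _ => (c4 p).zpow (a p)
  have F3' := finT_prod hS hP hξ hF Finset.univ _ (fun j _ => (c3 j).zpow (n j)) fun j _ => f3 j
  have F4 := finT_prod hS hP hξ hF Finset.univ _ (fun p _ => (c4 p).zpow (a p)) fun p _ => f4 p
  have g1 := f1.mul hS hP hξ hF c1 c2 f2
  have g2 := g1.mul hS hP hξ hF (c1.mul c2) C3 F3'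
  refine ⟨g2.mul hS hP hξ hF ((c1.mul c2).mul C3) C4 F4, ?_⟩
  rw [deg_mul hS hP hξ hF ((c1.mul c2).mul C3) C4 g2 F4, deg_mul hS hP hξ hF (c1.mul c2) C3 g1 F3',
    deg_mul hS hP hξ hF c1 c2 f1 f2, hw.deg_eq_zero hS hP hξ hF, deg_const hS hP hξ hF,
    deg_prod hS hP hξ hF Finset.univ _ (fun j _ => (c3 j).zpow (n j)) fun j _ => f3 j,
    deg_prod hS hP hξ hF Finset.univ _ (fun p _ => (c4 p).zpow (a p)) fun p _ => f4 p,
    add_zero, zero_add]
  congr 1
  · exact Finset.sum_congr rfl fun j _ => deg_zpow hS hP hξ hF (c3 j) (n j)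
  · exact Finset.sum_congr rfl fun p _ => deg_zpow hS hP hξ hF (c4 p) (a p)

/-- From `elim`. -/
theorem Cfg.finT (h : Cfg P σ) {ξ : Pt L} (hξ : ξ ∈ blP P σ) (hF : IsFF ℂ (RF ξ))
    {f : Pt L → Lˣ} (hf : IsCartier (blP P σ) f) : FinT (blP P σ) f ξ := by
  obtain ⟨N, u, n, l, c, a, w, hN, hw, e⟩ := h.elim hf
  refine FinT.of_pow h.bl_sep h.bl_proper hξ hF hf hN ?_
  rw [e]
  exact (Form_aux_elim h hξ hF u n l c a hw).1

theorem Cfg.deg_zq_lin (h : Cfg P σ) {ξ : Pt L} (hξ : ξ ∈ blP P σ) (hF : IsFF ℂ (RF ξ))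
    (l : Lam) (c : EP ℂ) : deg (blP P σ) (zq (yc (lin l P - cst L c))) ξ =
      ht ℂ (lin l fun i => red ξ (P i)) := by
  rw [deg_zq h.bl_sep h.bl_proper hξ hF fun O hO => (intg_lin (h.bl_intg hO) l).sub (intg_cst c),
    red_sub (intg_lin (h.bl_intg hξ) l) (intg_cst c), red_lin (h.bl_intg hξ), red_cst,
    sub_eq_add_neg, ← map_neg, ← up_eq_cst, ht_add_up hF]

theorem Form_aux_zX (h : Cfg P σ) {ξ : Pt L} (hξ : ξ ∈ blP P σ) (hF : IsFF ℂ (RF ξ))
    (l : Lam) (τ : ZMod 3) : deg (blP P σ) (pull σ (zX P σ l τ)) ξ =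
      ht ℂ (lin l fun i => red ξ (P i)) := by
  have e : tors L τ = cst L (tors ℂ τ) := (emap_tors _ τ).symm
  rw [h.pull_zX, e, h.deg_zq_lin hξ hF]

/-- The data of a curve, computed on any lift. -/
theorem Cfg.lift_data (h : Cfg P σ) (η : Curve (XP P σ)) {ξ : Pt L} (hξ : ξ ∈ blP P σ)
    (e : η.1 = qpt (KK σ) ξ) : IsFF ℂ (RF ξ) ∧ ∃ n : ℕ, 0 < n ∧
      (∀ f, IsCartier (XP P σ) f → deg (blP P σ) (pull σ f) ξ = n * deg (XP P σ) f η.1) ∧
      (∀ l, (n : ℝ) * qX P σ η l = ht ℂ (lin l fun i => red ξ (P i))) ∧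
      ∀ p, (n : ℝ) * mX P σ η p = deg (blP P σ) (pull σ (eX P σ p)) ξ := by
  have hF : IsFF ℂ (RF ξ) := (h.curve_iff hξ).1 (e ▸ η.2.2)
  obtain ⟨n, hn, hd⟩ := h.deg_pull hξ hF
  rw [← e] at hd
  refine ⟨hF, n, hn, hd, fun l => ?_, fun p => ?_⟩
  · rw [← Form_aux_zX h hξ hF l 0, hd _ (h.zX_cartier l 0), qX]
    push_cast
    rfl
  · rw [hd _ (h.eX_cartier p), mX]
    push_cast
    rfl

theorem Cfg.deg_zX (h : Cfg P σ) (η : Curve (XP P σ)) (l : Lam) (τ : ZMod 3) :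
    (deg (XP P σ) (zX P σ l τ) η.1 : ℝ) = qX P σ η l := by
  obtain ⟨ξ, hξ, e⟩ := mem_XP.1 η.2.1
  obtain ⟨hF, n, hn, hd, hq, -⟩ := h.lift_data η hξ e
  apply mul_left_cancel₀ (Nat.cast_ne_zero.2 hn.ne' : (n : ℝ) ≠ 0)
  rw [hq, ← Form_aux_zX h hξ hF l τ, hd _ (h.zX_cartier l τ)]
  push_cast
  rfl

theorem Cfg.degX_mul (h : Cfg P σ) (η : Curve (XP P σ)) {f g : Pt (KK σ) → (KK σ)ˣ}
    (hf : IsCartier (XP P σ) f) (hg : IsCartier (XP P σ) g) :
    deg (XP P σ) (f * g) η.1 = deg (XP P σ) f η.1 + deg (XP P σ) g η.1 := by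
  obtain ⟨ξ, hξ, e⟩ := mem_XP.1 η.2.1
  obtain ⟨hF, n, hn, hd, -⟩ := h.lift_data η hξ e
  apply mul_left_cancel₀ (Nat.cast_ne_zero.2 hn.ne' : (n : ℤ) ≠ 0)
  rw [mul_add, ← hd _ hf, ← hd _ hg, ← hd _ (hf.mul hg), pull_mul,
    deg_mul h.bl_sep h.bl_proper hξ hF hf.to_pull hg.to_pull (h.finT hξ hF hf.to_pull)
      (h.finT hξ hF hg.to_pull)]

theorem Form_aux_triv (h : Cfg P σ) (η : Curve (XP P σ)) {f : Pt (KK σ) → (KK σ)ˣ}
    (hf : Triv (XP P σ) f) : deg (XP P σ) f η.1 = 0 := by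
  obtain ⟨ξ, hξ, e⟩ := mem_XP.1 η.2.1
  obtain ⟨hF, n, hn, hd, -⟩ := h.lift_data η hξ e
  apply mul_left_cancel₀ (Nat.cast_ne_zero.2 hn.ne' : (n : ℤ) ≠ 0)
  rw [← hd _ hf.isCartier, mul_zero]
  refine Triv.deg_eq_zero h.bl_sep h.bl_proper hξ hF fun O hO => ?_
  rw [coe_pull, ← isU_qpt]
  exact hf _ (mem_XP.2 ⟨O, hO, rfl⟩)

theorem Form_aux_one (h : Cfg P σ) (η : Curve (XP P σ)) : deg (XP P σ) 1 η.1 = 0 :=
  Form_aux_triv h η fun O _ => isU_one O

theorem Cfg.degX_inv (h : Cfg P σ) (η : Curve (XP P σ)) {f : Pt (KK σ) → (KK σ)ˣ}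
    (hf : IsCartier (XP P σ) f) : deg (XP P σ) f⁻¹ η.1 = -deg (XP P σ) f η.1 := by
  have := h.degX_mul η hf.inv hf
  rw [inv_mul_cancel, Form_aux_one h η] at this
  omega

theorem Cfg.degX_congr (h : Cfg P σ) (η : Curve (XP P σ)) {f g : Pt (KK σ) → (KK σ)ˣ}
    (hf : IsCartier (XP P σ) f) (hg : IsCartier (XP P σ) g) (hfg : Triv (XP P σ) (f / g)) :
    deg (XP P σ) f η.1 = deg (XP P σ) g η.1 := by
  have := h.degX_mul η (hf.div hg) hg
  rwa [div_mul_cancel, Form_aux_triv h η hfg, zero_add] at this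

theorem Form_aux_prod (h : Cfg P σ) (η : Curve (XP P σ)) {ι : Type} (s : Finset ι)
    (F : ι → Pt (KK σ) → (KK σ)ˣ) (hF : ∀ i, IsCartier (XP P σ) (F i)) :
    deg (XP P σ) (∏ i ∈ s, F i) η.1 = ∑ i ∈ s, deg (XP P σ) (F i) η.1 := by
  classical
  induction s using Finset.induction_on with
  | empty => rw [Finset.prod_empty, Finset.sum_empty, Form_aux_one h η]
  | insert a s ha ih =>
    rw [Finset.prod_insert ha, Finset.sum_insert ha,
      h.degX_mul η (hF a) (isCartier_prod s F fun i _ => hF i), ih]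

/-- The classes of Cartier divisors form a group. -/
def Cfg.cart (h : Cfg P σ) : AddSubgroup (Curve (XP P σ) → ℝ) where
  carrier := classes (XP P σ)
  add_mem' := by
    rintro a b ⟨f, hf, ha⟩ ⟨g, hg, hb⟩
    refine ⟨f * g, hf.mul hg, fun η => ?_⟩
    rw [Pi.add_apply, ha, hb, h.degX_mul η hf hg, Int.cast_add]
  zero_mem' := ⟨1, isCartier_one, fun η => by rw [Form_aux_one h η, Int.cast_zero]; rfl⟩
  neg_mem' := by
    rintro a ⟨f, hf, ha⟩
    refine ⟨f⁻¹, hf.inv, fun η => ?_⟩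
    rw [Pi.neg_apply, ha, h.degX_inv η hf, Int.cast_neg]

theorem Cfg.gen_classes (h : Cfg P σ) : ∀ d ∈ classes (XP P σ),
    ∃ (N : ℕ) (n : Fin 6 → ℤ) (l : Fin 6 → Lam) (a : F3 → ℤ), 0 < N ∧
      ∀ c, N * d c = ∑ j, n j * qX P σ c (l j) - ∑ p, a p * mX P σ c p := by
  rintro d ⟨f, hf, hd⟩
  obtain ⟨N, u, n, l, c, a, w, hN, hw, e⟩ := h.elim hf.to_pull
  refine ⟨N, n, l, -a, hN, fun η => ?_⟩
  obtain ⟨ξ, hξ, e'⟩ := mem_XP.1 η.2.1
  obtain ⟨hF, k, hk, h1, h2, h3⟩ := h.lift_data η hξ e'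
  have h4 := (Form_aux_elim h hξ hF u n l c a hw).2
  rw [← e, ← zpow_natCast, deg_zpow h.bl_sep h.bl_proper hξ hF hf.to_pull, h1 f hf] at h4
  simp only [h.deg_zq_lin hξ hF] at h4
  have h5 := congrArg (Int.cast : ℤ → ℝ) h4
  push_cast at h5
  simp only [← h2, ← h3] at h5
  apply mul_left_cancel₀ (Nat.cast_ne_zero.2 hk.ne' : (k : ℝ) ≠ 0)
  rw [hd, mul_left_comm, h5, mul_sub, Finset.mul_sum, Finset.mul_sum, sub_eq_add_neg,
    ← Finset.sum_neg_distrib]
  congr 1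
  · exact Finset.sum_congr rfl fun j _ => by ring
  · exact Finset.sum_congr rfl fun p _ => by rw [Pi.neg_apply, Int.cast_neg]; ring

theorem Cfg.z_mem (h : Cfg P σ) (l : Lam) : (fun c => qX P σ c l) ∈ classes (XP P σ) :=
  ⟨_, h.zX_cartier l 0, fun _ => rfl⟩
theorem Cfg.e_mem (h : Cfg P σ) (p : F3) : (fun c => mX P σ c p) ∈ effClasses (XP P σ) :=
  ⟨_, h.eX_cartier p, h.eX_eff p, fun _ => rfl⟩
theorem Cfg.s_mem (h : Cfg P σ) (l : Lam) (τ : ZMod 3) (hl : ∃ i, bar (l i) ≠ 0) :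
    (fun c => qX P σ c l - ∑ p with dotb l p = τ, mX P σ c p) ∈ effClasses (XP P σ) := by
  have hc := isCartier_prod (Finset.univ.filter fun p => dotb l p = τ) (eX P σ)
    fun p _ => h.eX_cartier p
  refine ⟨zX P σ l τ * (∏ p with dotb l p = τ, eX P σ p)⁻¹, (h.zX_cartier l τ).mul hc.inv,
    fun O' hO' => ?_, fun η => ?_⟩
  · obtain ⟨O, hO, rfl⟩ := mem_XP.1 hO'
    have := h.s_eff hl τ hO
    rw [← h.pull_zX, ← pull_prod, div_eq_mul_inv, ← pull_inv, ← pull_mul, coe_pull] at this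
    exact this
  · rw [h.degX_mul η (h.zX_cartier l τ) hc.inv, h.degX_inv η hc,
      Form_aux_prod h η _ _ h.eX_cartier, Int.cast_add, h.deg_zX, Int.cast_neg, Int.cast_sum]
    rfl

end Pool.Agent.MP_95da86_ag

end

section

/-! The numerical constraints on curves. -/

namespace Pool.Agent.MP_95da86_ag

variable {L : Type} [Field L] [Algebra ℂ L] {P : Fin 3 → EP L} {σ : L ≃ₐ[ℂ] L} {ξ : Pt L}

theorem CAx_aux_ht_tors {M : Type} [Field M] [Algebra ℂ M] (hF : IsFF ℂ M) (τ : ZMod 3) :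
    ht ℂ (tors M τ) = 0 :=
  (ht_eq_zero hF _).2 ⟨tors ℂ τ, by rw [up_eq_cst, cst_tors]⟩

theorem CAx_aux_lin_single {M : Type} [Field M] [Algebra ℂ M] (Q : Fin 3 → EP M) (i : Fin 3) :
    lin (Pi.single i 1) Q = Q i := by
  unfold lin
  rw [Finset.sum_eq_single i]
  · simp
  · intro j _ hj
    simp [Pi.single_eq_of_ne hj]
  · simp

theorem CAx_aux_dotb_single (i : Fin 3) (p : F3) : dotb (Pi.single i 1) p = p i := by
  unfold dotb
  rw [Finset.sum_eq_single i]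
  · simp
  · intro j _ hj
    simp [Pi.single_eq_of_ne hj]
  · simp

theorem CAx_aux_bar_single (i : Fin 3) : ∃ j, bar ((Pi.single i 1 : Lam) j) ≠ 0 :=
  ⟨i, by simp⟩

theorem CAx_aux_cart (h : Cfg P σ) (p : F3) : IsCartier (blP P σ) (pull σ (eX P σ p)) :=
  (h.eX_cartier p).to_pull

/-- A strict transform whose equation is a unit at `ξ` meets the curve non-negatively. -/
theorem Cfg.s_ineq (h : Cfg P σ) (hξ : ξ ∈ blP P σ) (hF : IsFF ℂ (RF ξ)) {l : Lam}
    (hl : ∃ i, bar (l i) ≠ 0) (τ : ZMod 3)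
    (hu : IsU ξ (((zq (yc (lin l P - tors L τ)) / ∏ p with dotb l p = τ, pull σ (eX P σ p)) ξ : Lˣ) : L)) :
    ∑ p with dotb l p = τ, deg (blP P σ) (pull σ (eX P σ p)) ξ ≤
      ht ℂ (lin l fun i => red ξ (P i)) := by
  have hS := h.bl_sep
  have hP := h.bl_proper
  have hz : IsCartier (blP P σ) (zq (yc (lin l P - tors L τ))) := by
    have := h.zq_cartier l (tors ℂ τ)
    rwa [cst_tors] at this
  have hdz : deg (blP P σ) (zq (yc (lin l P - tors L τ))) ξ =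
      ht ℂ (lin l fun i => red ξ (P i)) := by
    have := h.deg_zq_lin hξ hF l (tors ℂ τ)
    rwa [cst_tors] at this
  have he : IsCartier (blP P σ) (∏ p with dotb l p = τ, pull σ (eX P σ p)) :=
    isCartier_prod _ _ fun p _ => CAx_aux_cart h p
  have hf := hz.div he
  have h0 := deg_nonneg hS hP hξ hF hf (h.finT hξ hF hf) (fun O hO => h.s_eff hl τ hO) hu
  have h1 := deg_mul hS hP hξ hF hf he (h.finT hξ hF hf) (h.finT hξ hF he)
  rw [div_mul_cancel, hdz,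
    deg_prod hS hP hξ hF _ _ (fun p _ => CAx_aux_cart h p) fun p _ => h.finT_eX hξ hF p] at h1
  linarith

/-- A curve in the exceptional plane over `p` does not meet the other planes. -/
theorem Cfg.m_other (h : Cfg P σ) (hξ : ξ ∈ blP P σ) (hF : IsFF ℂ (RF ξ)) {p p' : F3}
    (hp : Over ξ P p) (hne : p' ≠ p) : deg (blP P σ) (pull σ (eX P σ p')) ξ = 0 := by
  rw [deg_eq_finsum h.bl_sep h.bl_proper hξ]
  refine finsum_eq_zero_of_forall_eq_zero fun V => ?_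
  have := hF.dvr V
  have hb := cen_spec h.bl_proper hξ V
  have h1 : ∀ O ∈ blP P σ, O.1 ≤ ξ.1 → pull σ (eX P σ p') O = 1 := fun O hO hle =>
    h.pull_eX_not fun hO' => hne (over_inj h.gen (h.bl_intg hO) hO' (hp.of_le hle))
  rw [term, h1 _ hb.1 hb.2.1, h1 ξ hξ le_rfl, div_one, Units.val_one, res_one, ord_one]

/-- Use `s_ineq` for `ℓ = e i`, `τ = p i`, where `i` is the index of `pull_eX_over` at `ξ`. -/
theorem Cfg.m_nonpos (h : Cfg P σ) (hξ : ξ ∈ blP P σ) (hF : IsFF ℂ (RF ξ)) {p : F3}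
    (hp : Over ξ P p) : deg (blP P σ) (pull σ (eX P σ p)) ξ ≤ 0 := by
  obtain ⟨i, -, hi⟩ := h.pull_eX_over hξ hp
  have hmem : p ∈ Finset.univ.filter fun p' => dotb (Pi.single i 1) p' = p i := by
    simp [CAx_aux_dotb_single]
  have hprod : (∏ p' with dotb (Pi.single i 1) p' = p i, pull σ (eX P σ p')) ξ =
      pull σ (eX P σ p) ξ := by
    rw [Finset.prod_apply]
    refine Finset.prod_eq_single_of_mem p hmem fun p' _ hne => ?_
    exact h.pull_eX_not fun hO' => hne (over_inj h.gen (h.bl_intg hξ) hO' hp)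
  have hu : IsU ξ (((zq (yc (lin (Pi.single i 1) P - tors L (p i))) /
      ∏ p' with dotb (Pi.single i 1) p' = p i, pull σ (eX P σ p')) ξ : Lˣ) : L) := by
    have e : zq (yc (lin (Pi.single i 1) P - tors L (p i))) ξ = pull σ (eX P σ p) ξ := by
      rw [CAx_aux_lin_single]
      refine Units.ext ?_
      rw [hi]
      exact zq_of_not_mem (hp i)
    rw [Pi.div_apply, hprod, e, div_self', Units.val_one]
    exact isU_one ξ
  have h1 := h.s_ineq hξ hF (CAx_aux_bar_single i) (p i) hu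
  rw [CAx_aux_lin_single, (over_iff_red h.gen (h.bl_intg hξ) p).1 hp i, CAx_aux_ht_tors hF,
    Finset.sum_eq_single_of_mem p hmem fun p' _ hne => h.m_other hξ hF hp hne] at h1
  exact h1

theorem Cfg.m_nonneg (h : Cfg P σ) (hξ : ξ ∈ blP P σ) (hF : IsFF ℂ (RF ξ)) {p : F3}
    (hp : ¬ Over ξ P p) : 0 ≤ deg (blP P σ) (pull σ (eX P σ p)) ξ := by
  refine deg_nonneg h.bl_sep h.bl_proper hξ hF (CAx_aux_cart h p) (h.finT_eX hξ hF p)
    (fun O hO => ?_) ?_
  · rw [coe_pull]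
    exact mem_qpt.1 (h.eX_eff p _ (mem_XP.2 ⟨O, hO, rfl⟩))
  · rw [h.pull_eX_not hp, Units.val_one]
    exact isU_one ξ

theorem CAx_aux_ineq (h : Cfg P σ) (hξ : ξ ∈ blP P σ) (hF : IsFF ℂ (RF ξ))
    (hno : ∀ p, ¬ Over ξ P p) {l : Lam} (hl : ∃ i, bar (l i) ≠ 0) (τ : ZMod 3)
    (hne : (lin l fun i => red ξ (P i)) ≠ tors (RF ξ) τ) :
    ∑ p with dotb l p = τ, deg (blP P σ) (pull σ (eX P σ p)) ξ ≤
      ht ℂ (lin l fun i => red ξ (P i)) := by
  refine h.s_ineq hξ hF hl τ ?_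
  have hI := h.bl_intg hξ
  have hI' : Intg ξ (lin l P - tors L τ) := (intg_lin hI l).sub (intg_tors τ)
  have hy : yc (lin l P - tors L τ) ∈ ξ.1 := by
    by_contra hy
    have h0 := (red_eq_zero hI').2 (Or.inr hy)
    rw [red_sub (intg_lin hI l) (intg_tors τ), red_lin hI, red_tors, sub_eq_zero] at h0
    exact hne h0
  have hprod : (∏ p with dotb l p = τ, pull σ (eX P σ p)) ξ = 1 := by
    rw [Finset.prod_apply]
    exact Finset.prod_eq_one fun p _ => h.pull_eX_not (hno p)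
  rw [Pi.div_apply, hprod, zq_of_mem hy, div_one, Units.val_one]
  exact isU_one ξ

/-- If `ξ` is over no fixed point, `s_ineq` applies whenever `ℓ φ ≠ τ T`; this fails for at most
one `τ`, and then `ht (ℓ φ) = 0`. For each `p` some `φ i ≠ p i T`, so `m p ≤ q (e i)`. -/
theorem Cfg.curveAx (h : Cfg P σ) (η : Curve (XP P σ)) : CurveAx (qX P σ η) (mX P σ η) := by
  obtain ⟨ξ, hξ, e⟩ := mem_XP.1 η.2.1
  obtain ⟨hF, n, hn, -, hq, hm⟩ := h.lift_data η hξ e
  have hn' : (0 : ℝ) < n := by exact_mod_cast hn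
  have hI := h.bl_intg hξ
  have hq0 : ∀ l τ, (lin l fun i => red ξ (P i)) = tors (RF ξ) τ → qX P σ η l = 0 := by
    intro l τ hl
    have := hq l
    rw [hl, CAx_aux_ht_tors hF, Int.cast_zero] at this
    exact (mul_eq_zero.1 this).resolve_left hn'.ne'
  refine ⟨?_, fun l => ?_, ?_⟩
  · have := (isQF_ht hF fun i => red ξ (P i)).const_smul (n : ℝ)⁻¹
    have e' : qX P σ η = (n : ℝ)⁻¹ • fun l => (ht ℂ (lin l fun i => red ξ (P i)) : ℝ) := by
      funext l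
      rw [Pi.smul_apply, ← hq l, smul_eq_mul, inv_mul_cancel_left₀ hn'.ne']
    rw [e']
    exact this
  · have h1 : (0 : ℝ) ≤ n * qX P σ η l := by
      rw [hq l]
      exact_mod_cast ht_nonneg _
    exact nonneg_of_mul_nonneg_right h1 hn'
  by_cases hov : ∃ p, Over ξ P p
  · obtain ⟨p, hp⟩ := hov
    refine Or.inl ⟨fun l => hq0 l (dotb l p) ?_, fun p' => ?_⟩
    · rw [← lin_tors]
      congr 1
      funext i
      exact (over_iff_red h.gen hI p).1 hp i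
    · have h1 : (n : ℝ) * mX P σ η p' ≤ 0 := by
        rw [hm p']
        by_cases hpp : p' = p
        · rw [hpp]
          exact_mod_cast h.m_nonpos hξ hF hp
        · rw [h.m_other hξ hF hp hpp, Int.cast_zero]
      by_contra hc
      exact absurd (mul_pos hn' (not_le.1 hc)) (not_lt.2 h1)
  · have hno : ∀ p, ¬ Over ξ P p := fun p hp => hov ⟨p, hp⟩
    have hm0 : ∀ p, 0 ≤ mX P σ η p := fun p => by
      have h1 : (0 : ℝ) ≤ n * mX P σ η p := by
        rw [hm p]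
        exact_mod_cast h.m_nonneg hξ hF (hno p)
      by_contra hc
      exact absurd (mul_neg_of_pos_of_neg hn' (not_le.1 hc)) (not_lt.2 h1)
    have key : ∀ l : Lam, (∃ i, bar (l i) ≠ 0) → ∀ τ,
        (lin l fun i => red ξ (P i)) ≠ tors (RF ξ) τ →
        ∑ p with dotb l p = τ, mX P σ η p ≤ qX P σ η l := by
      intro l hl τ hne
      have h1 := CAx_aux_ineq h hξ hF hno hl τ hne
      refine le_of_mul_le_mul_left ?_ hn'
      rw [hq l, Finset.mul_sum, Finset.sum_congr rfl fun p _ => hm p]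
      exact_mod_cast h1
    refine Or.inr ⟨hm0, fun h0 p => ?_, fun l hl => ?_⟩
    · have h1 : ∃ i, red ξ (P i) ≠ tors (RF ξ) (p i) := by
        by_contra hc
        push Not at hc
        exact hno p ((over_iff_red h.gen hI p).2 hc)
      obtain ⟨i, hi⟩ := h1
      have h2 := key (Pi.single i 1) (CAx_aux_bar_single i) (p i)
        (by rw [CAx_aux_lin_single]; exact hi)
      rw [h0] at h2
      have hmem : p ∈ Finset.univ.filter fun p' => dotb (Pi.single i 1) p' = p i := by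
        simp [CAx_aux_dotb_single]
      exact le_antisymm ((Finset.single_le_sum (fun p' _ => hm0 p') hmem).trans h2) (hm0 p)
    · by_cases hex : ∃ τ₀, (lin l fun i => red ξ (P i)) = tors (RF ξ) τ₀
      · obtain ⟨τ₀, hτ₀⟩ := hex
        refine ⟨τ₀, fun τ hτ => key l hl τ fun hc => ?_⟩
        rcases hτ with hτ | hτ
        · exact hτ (tors_injective (hc.symm.trans hτ₀))
        · exact hτ (hq0 l τ hc)
      · exact ⟨0, fun τ _ => key l hl τ fun hc => hex ⟨τ, hc⟩⟩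

end Pool.Agent.MP_95da86_ag

end

section

/-! The test curves. -/

namespace Pool.Agent.MP_95da86_ag

variable {L : Type} [Field L] [Algebra ℂ L] {P : Fin 3 → EP L} {σ : L ≃ₐ[ℂ] L}

theorem TestsA_aux_alg {M : Type} [Field M] [Algebra ℂ M] (c : EP ℂ) :
    IsAlgebraic ℂ (xc (cst M c)) := by
  rw [cst, xc_emap]
  exact isAlgebraic_algebraMap (xc c)

/-- The curve `E × {c₁} × {c₂}`: `exists_pt` with `N = F1` and the point `(P1, c₁, c₂)`. -/
theorem Cfg.exists_fibre (h : Cfg P σ) (c₁ c₂ : EP ℂ) : ∃ ξ ∈ blP P σ, IsFF ℂ (RF ξ) ∧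
    (∀ p, ¬ Over ξ P p) ∧ 0 < ht ℂ (red ξ (P 0)) ∧ red ξ (P 1) = cst _ c₁ ∧ red ξ (P 2) = cst _ c₂ := by
  obtain ⟨T⟩ := h.gen.tower
  obtain ⟨O, hO, φ, hφ⟩ := h.gen.exists_pt (N := T.F1) ![T.P1, cst _ c₁, cst _ c₂]
  have h0 : emap φ (red O (P 0)) = T.P1 := hφ 0
  have h1 : emap φ (red O (P 1)) = cst _ c₁ := hφ 1
  have h2 : emap φ (red O (P 2)) = cst _ c₂ := hφ 2
  have htr : Transcendental ℂ (xc (red O (P 0))) := fun ha => by
    have := ha.algHom φ
    rw [← xc_emap, h0] at this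
    exact T.g1.tr this
  have hF : IsFF ℂ (RF O) := T.g1.isFF.of_algHom φ htr
  have hnc : ∀ c : EP ℂ, red O (P 0) ≠ cst _ c := fun c e => htr (e ▸ TestsA_aux_alg c)
  have hno : ∀ p, ¬ Over O P p := fun p hp => by
    have := (over_iff_red h.gen (cube_intg hO) p).1 hp 0
    exact hnc (tors ℂ (p 0)) (by rw [this, cst_tors])
  refine ⟨O, h.bl_iff.2 (Or.inl ⟨hO, hno⟩), hF, hno, ?_, ?_, ?_⟩
  · refine lt_of_le_of_ne (ht_nonneg _) fun e => ?_
    obtain ⟨c, hc⟩ := (ht_eq_zero hF _).1 e.symm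
    exact hnc c (by rw [hc, up_eq_cst])
  · exact emap_injective φ (by rw [h1, emap_cst])
  · exact emap_injective φ (by rw [h2, emap_cst])

theorem TestsA_aux_red (h : Cfg P σ) {ξ : Pt L} (hξ : ξ ∈ blP P σ) (p : F3) (i : Fin 3) :
    Intg ξ (sh P p i) ∧ red ξ (sh P p i) = red ξ (P i) - tors _ (p i) :=
  ⟨(h.bl_intg hξ i).sub (intg_tors _), by
    rw [sh, red_sub (h.bl_intg hξ i) (intg_tors _), red_tors]⟩

/-- A coordinate that does not reduce to the origin along the curve. -/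
theorem TestsA_aux_mem (h : Cfg P σ) {ξ O : Pt L} (hξ : ξ ∈ blP P σ)
    {V : ValuationSubring (RF ξ)} (hb : (O, V) ∈ branch (blP P σ) ξ) (p : F3) (i : Fin 3)
    (hne : red ξ (sh P p i) ≠ 0) : yc (sh P p i) ∈ ξ.1 ∧
      res ξ (yc (sh P p i)) = yc (red ξ (sh P p i)) ∧
      (yc (sh P p i) ∈ O.1 ↔ yc (red ξ (sh P p i)) ∈ V) := by
  have hI := (TestsA_aux_red h hξ p i).1
  have hy : yc (sh P p i) ∈ ξ.1 := by
    by_contra hc
    exact hne ((red_eq_zero hI).2 (Or.inr hc))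
  have e := yc_red hI hy
  refine ⟨hy, e.symm, ?_⟩
  rw [e]
  exact (TestsA_aux_red h hb.1 p i).1.yc_mem_branch hb.2.1 V hb.2.2.2.1 hb.2.2.2.2 hy

theorem TestsA_aux_term0 (h : Cfg P σ) {ξ : Pt L} (hF : IsFF ℂ (RF ξ)) {p : F3}
    (hp : ¬ Over ξ P p) (V : Pl ℂ (RF ξ)) (hV : ¬ Over (cen (blP P σ) ξ V) P p) :
    term (blP P σ) (pull σ (eX P σ p)) ξ V = 0 := by
  have := hF.dvr V
  rw [term, h.pull_eX_not hp, h.pull_eX_not hV, div_one, Units.val_one, res_one, ord_one]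

theorem TestsA_aux_off (h : Cfg P σ) {ξ : Pt L} (hξ : ξ ∈ blP P σ) (hF : IsFF ℂ (RF ξ)) {p : F3}
    (hp : ¬ Over ξ P p) {i : Fin 3} (hi : red ξ (P i) = 0) (hpi : p i ≠ 0) :
    deg (blP P σ) (pull σ (eX P σ p)) ξ = 0 := by
  rw [deg_eq_finsum h.bl_sep h.bl_proper hξ]
  refine finsum_eq_zero_of_forall_eq_zero fun V => TestsA_aux_term0 h hF hp V fun hV => ?_
  have hb := cen_spec h.bl_proper hξ V
  have e : red ξ (sh P p i) = cst _ (-tors ℂ (p i)) := by
    rw [(TestsA_aux_red h hξ p i).2, hi, zero_sub, map_neg, cst_tors]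
  have hne : red ξ (sh P p i) ≠ 0 := by
    rw [(TestsA_aux_red h hξ p i).2, hi, zero_sub, neg_ne_zero]
    exact fun h0 => hpi (tors_eq_zero.1 h0)
  refine hV i ((TestsA_aux_mem h hξ hb p i hne).2.2.2 ?_)
  rw [e, cst, yc_emap]
  exact V.2.2 _

theorem TestsA_aux_on (h : Cfg P σ) {ξ : Pt L} (hξ : ξ ∈ blP P σ) (hF : IsFF ℂ (RF ξ)) {p : F3}
    (hp : ¬ Over ξ P p) (hi : ∀ i, i ≠ 0 → red ξ (sh P p i) = 0) (V : Pl ℂ (RF ξ)) :
    term (blP P σ) (pull σ (eX P σ p)) ξ V = lam V.1 (red ξ (sh P p 0)) := by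
  have := hF.dvr V
  have hb := cen_spec h.bl_proper hξ V
  have hG := h.gen.shift p
  have hny : ∀ i, i ≠ 0 → yc (sh P p i) ∉ ξ.1 := fun i h0 =>
    ((red_eq_zero (TestsA_aux_red h hξ p i).1).1 (hi i h0)).resolve_left (hG.ne i)
  have hne : red ξ (sh P p 0) ≠ 0 := fun h0 => hp fun i => by
    by_cases hi0 : i = 0
    · subst hi0
      exact ((red_eq_zero (TestsA_aux_red h hξ p 0).1).1 h0).resolve_left (hG.ne 0)
    · exact hny i hi0
  obtain ⟨hy, ey, hiff⟩ := TestsA_aux_mem h hξ hb p 0 hne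
  by_cases hV : yc (red ξ (sh P p 0)) ∈ V.1
  · rw [TestsA_aux_term0 h hF hp V fun hO => hO 0 (hiff.2 hV), lam]
    have := (ord_nonneg_iff V.1 _).2 hV
    omega
  · have hO : Over (cen (blP P σ) ξ V) P p := fun i => by
      by_cases hi0 : i = 0
      · subst hi0
        exact fun hm => hV (hiff.1 hm)
      · exact fun hm => hny i hi0 (hb.2.1 hm)
    have hu : IsU ξ (yc (sh P p 0)) := isU_of_not_mx hy fun hm => hV (by
      rw [← ey, (res_eq_zero hy).2 hm]; exact zero_mem _)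
    obtain ⟨i, hur, e⟩ := h.pull_eX_over hb.1 hO
    have hi0 : i = 0 := by
      by_contra hi0
      have hs : sc (sh P p i) ∈ mx ξ := (TestsA_aux_red h hξ p i).1.sc_mem (hny i hi0)
      have hs0 : sc (sh P p i) ≠ 0 := div_ne_zero (hG.xc_ne i) (hG.yc_ne i)
      have h1 : sc (sh P p 0) ∈ mx ξ := by
        have := mx_mul_left (hb.2.1 (hur 0)) hs
        rwa [ur, div_mul_cancel₀ _ hs0] at this
      have h2 : xc (sh P p 0) ∈ mx ξ := by
        have := mx_mul_right h1 hy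
        rwa [sc, div_mul_cancel₀ _ hu.1] at this
      have h3 : xc (red ξ (sh P p 0)) = 0 := by
        rw [xc_red (TestsA_aux_red h hξ p 0).1 hy, res_eq_zero (mx_sub h2)]
        exact h2
      obtain ⟨τ, hτ⟩ := eq_tors_of_xc h3
      refine hV ?_
      rw [hτ, ← cst_tors, cst, yc_emap]
      exact V.2.2 _
    subst hi0
    rw [term, h.pull_eX_not hp, div_one, e, tc, res_inv hu, ey, ord_inv, lam]
    have := (ord_nonneg_iff V.1 (yc (red ξ (sh P p 0)))).not.2 hV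
    omega

/-- For `p = (τ, 0, 0)`: at a place `V` the centre is over `p` iff `φ 0 - τ T` reduces to zero, and
then the index of `pull_eX_over` is `0` (the `s 1, s 2` vanish on the curve), so the local term is
`lam V (φ 0 - τ T)`. -/
theorem Cfg.test1 (h : Cfg P σ) : ∃ c : Curve (XP P σ), ∃ κ : ℝ, 0 < κ ∧
    (∀ l, qX P σ c l = κ * nm (l 0)) ∧
    ∀ p, mX P σ c p = if p 1 = 0 ∧ p 2 = 0 then κ else 0 := by
  obtain ⟨ξ, hξ, hF, hno, hpos, h1, h2⟩ := h.exists_fibre 0 0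
  rw [map_zero] at h1 h2
  let η : Curve (XP P σ) := ⟨qpt (KK σ) ξ, mem_XP.2 ⟨ξ, hξ, rfl⟩, (h.curve_iff hξ).2 hF⟩
  obtain ⟨-, n, hn, -, hq, hm⟩ := h.lift_data η hξ rfl
  have hn' : (0 : ℝ) < n := by exact_mod_cast hn
  refine ⟨η, (ht ℂ (red ξ (P 0)) : ℝ) / n, div_pos (by exact_mod_cast hpos) hn', fun l => ?_,
    fun p => ?_⟩
  · have e : (lin l fun i => red ξ (P i)) = l 0 • red ξ (P 0) := by
      rw [lin, Fin.sum_univ_three, h1, h2, smul_zero, smul_zero, add_zero, add_zero]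
    have := hq l
    rw [e, ht_smul hF] at this
    push_cast at this
    field_simp
    linear_combination this
  · have hp := hm p
    split_ifs with hc
    · have hi : ∀ i, i ≠ 0 → red ξ (sh P p i) = 0 := fun i h0 => by
        rw [(TestsA_aux_red h hξ p i).2]
        fin_cases i
        · exact absurd rfl h0
        · simp [h1, hc.1]
        · simp [h2, hc.2]
      have e : deg (blP P σ) (pull σ (eX P σ p)) ξ = ht ℂ (red ξ (P 0)) := by
        rw [deg_eq_finsum h.bl_sep h.bl_proper hξ,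
          finsum_congr (TestsA_aux_on h hξ hF (hno p) hi)]
        change ht ℂ (red ξ (sh P p 0)) = _
        rw [(TestsA_aux_red h hξ p 0).2, ← cst_tors, sub_eq_add_neg, ← map_neg, ← up_eq_cst,
          ht_add_up hF]
      rw [e] at hp
      rw [eq_div_iff hn'.ne']
      linear_combination hp
    · have e : deg (blP P σ) (pull σ (eX P σ p)) ξ = 0 := by
        by_cases hp1 : p 1 = 0
        · exact TestsA_aux_off h hξ hF (hno p) h2 fun hp2 => hc ⟨hp1, hp2⟩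
        · exact TestsA_aux_off h hξ hF (hno p) h1 hp1
      rw [e, Int.cast_zero] at hp
      exact (mul_eq_zero.1 hp).resolve_left hn'.ne'

end Pool.Agent.MP_95da86_ag

end

section

/-! The test curves. -/

namespace Pool.Agent.MP_95da86_ag

variable {L : Type} [Field L] [Algebra ℂ L] {P : Fin 3 → EP L} {σ : L ≃ₐ[ℂ] L}

/-- The local term at `V` is `3 * min (ord (u j)) - 3 * ord (u k₀)`. -/
theorem Cfg.TestsB_aux (h : Cfg P σ) {ξ : Pt L} (hξ : ξ ∈ blP P σ) (hF : IsFF ℂ (RF ξ)) {p : F3}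
    (hp : Over ξ P p) (h0 : ∀ j, ur P p 0 j ∈ ξ.1)
    (ht : Transcendental ℂ (res ξ (ur P p 0 1))) :
    deg (blP P σ) (pull σ (eX P σ p)) ξ < 0 := by
  have hy := (h.gen.shift p).yc_ne
  have hs : ∀ j, sc (sh P p j) ≠ 0 := fun j => div_ne_zero ((h.gen.shift p).xc_ne j) (hy j)
  have hu : ∀ k, ur P p k 0 ∈ ξ.1 → IsU ξ (ur P p 0 k) := fun k hk =>
    ⟨div_ne_zero (hs k) (hs 0), h0 k, by rw [ur, inv_div]; exact hk⟩
  have hm : ∀ j, tc (sh P p j) ^ 2 ∈ mx ξ := fun j => by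
    have := (hp.sc_mem (h.bl_intg hξ) j).2
    rw [sq]
    exact mx_mul_left (mx_sub this) this
  have hw : ∀ j, IsU ξ (1 - tc (sh P p j) ^ 2) := fun j => by
    rw [sub_eq_add_neg]
    exact (isU_one ξ).add_mx (mx_neg (hm j))
  have hw1 : ∀ j, res ξ (1 - tc (sh P p j) ^ 2) = 1 := fun j => by
    rw [res_sub (one_mem _) (mx_sub (hm j)), res_one, (res_eq_zero (mx_sub (hm j))).2 (hm j),
      sub_zero]
  have htc : ∀ j, tc (sh P p j) = sc (sh P p j) ^ 3 / (1 - tc (sh P p j) ^ 2) := fun j =>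
    eq_div_of_mul_eq (hw j).1 (tc_eq (hy j))
  obtain ⟨k₀, hk₀, e₀⟩ := h.pull_eX_over hξ hp
  have u₀ := hu k₀ (hk₀ 0)
  have key : ∀ V : Pl ℂ (RF ξ), ∃ k, IsU ξ (ur P p 0 k) ∧ (∀ j, res ξ (ur P p k j) ∈ V.1) ∧
      (∀ j, ur P p k j ∈ ξ.1) ∧ ord V.1 (res ξ (ur P p 0 k₀) ^ 3)⁻¹ -
        term (blP P σ) (pull σ (eX P σ p)) ξ V = -(3 * ord V.1 (res ξ (ur P p 0 k))) := fun V => by
    have := hF.dvr V
    obtain ⟨c1, c2, -, c3, -⟩ := cen_spec h.bl_proper hξ V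
    obtain ⟨k, hk, e⟩ := h.pull_eX_over c1 (hp.of_le c2)
    have u := hu k (c2 (hk 0))
    refine ⟨k, u, fun j => c3 _ (hk j), fun j => c2 (hk j), ?_⟩
    have e1 : tc (sh P p k) / tc (sh P p k₀) = ur P p 0 k ^ 3 * (1 - tc (sh P p k₀) ^ 2) /
        (ur P p 0 k₀ ^ 3 * (1 - tc (sh P p k) ^ 2)) := by
      have a := hs 0
      have b := hs k₀
      have c := (hw k).1
      have d := (hw k₀).1
      conv_lhs => rw [htc k, htc k₀]
      simp only [ur]
      field_simp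
    rw [term, Units.val_div_eq_div_val, e, e₀, e1,
      res_div ((u.pow 3).mul (hw k₀)).2.1 ((u₀.pow 3).mul (hw k)), res_mul (u.pow 3).2.1 (hw k₀).2.1,
      res_mul (u₀.pow 3).2.1 (hw k).2.1, hw1, hw1, mul_one, mul_one, res_pow u.2.1, res_pow u₀.2.1,
      ord_div _ (pow_ne_zero 3 u.res_ne) (pow_ne_zero 3 u₀.res_ne), ord_inv, ord_pow _ _ 3,
      ord_pow _ _ 3]
    push_cast
    ring
  have f1 := hF.ord_fin (res ξ (ur P p 0 k₀) ^ 3)⁻¹
  have f2 : (Function.support (term (blP P σ) (pull σ (eX P σ p)) ξ)).Finite := h.finT_eX hξ hF p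
  have pos := finsum_pos (f := fun V : Pl ℂ (RF ξ) => ord V.1 (res ξ (ur P p 0 k₀) ^ 3)⁻¹ -
    term (blP P σ) (pull σ (eX P σ p)) ξ V) (fun V => ?_) ?_
    ((f1.union f2).subset (Function.support_sub _ _))
  · rw [finsum_sub_distrib f1 f2, hF.sum_ord, ← deg_eq_finsum h.bl_sep h.bl_proper hξ] at pos
    omega
  · have := hF.dvr V
    obtain ⟨k, u, hk, -, e⟩ := key V
    have h1 := (ord_nonneg_iff V.1 _).2 (hk 0)
    rw [ur, ← inv_div, ← ur, res_inv u, ord_inv] at h1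
    omega
  · obtain ⟨V, hV⟩ := exists_pole ht
    have := hF.dvr V
    obtain ⟨k, u, hk, hk', e⟩ := key V
    have h1 : ¬ 0 ≤ ord V.1 (res ξ (ur P p 0 k)) := fun h1 => hV (by
      have e1 : ur P p 0 1 = ur P p 0 k * ur P p k 1 := by
        have := hs k
        simp only [ur]
        field_simp
      rw [e1, res_mul u.2.1 (hk' 1)]
      exact mul_mem ((ord_nonneg_iff V.1 _).1 h1) (hk 1))
    exact ⟨V, by omega⟩

/-- The curve of `exists_line`. If `m p = 0`, the non-negative local terms of `deg_eff` for the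
strict transforms of `e 0` and `e 1` all vanish, so the residue of `s 1 / s 0` has no zero or pole. -/
theorem Cfg.test2 (h : Cfg P σ) (p₀ : F3) : ∃ c : Curve (XP P σ), ∃ κ : ℝ, 0 < κ ∧
    (∀ l, qX P σ c l = 0) ∧ ∀ p, mX P σ c p = if p = p₀ then -κ else 0 := by
  obtain ⟨Op, hO, hOp⟩ := h.gen.exists_over p₀
  obtain ⟨ξ, h1, h2, hF, htr⟩ := exists_line h.gen hO hOp
  have hξ : ξ ∈ blP P σ := h.bl_iff.2 (Or.inr ⟨p₀, Op, hO, hOp, h2, 0, h1⟩)
  have hp : Over ξ P p₀ := (over_dom (cube_intg hO)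
    ⟨fun f hf => h1.1 (Algebra.subset_adjoin (Or.inl hf)), h2⟩ p₀).1 hOp
  have hneg := h.TestsB_aux hξ hF hp (fun j => h1.1 (Algebra.subset_adjoin (Or.inr ⟨j, rfl⟩))) htr
  let c : Curve (XP P σ) := ⟨qpt (KK σ) ξ, mem_XP.2 ⟨ξ, hξ, rfl⟩, (h.curve_iff hξ).2 hF⟩
  obtain ⟨-, n, hn, -, hq, hm⟩ := h.lift_data c hξ rfl
  have hn' : (0 : ℝ) < n := by exact_mod_cast hn
  refine ⟨c, -mX P σ c p₀, neg_pos.2 ?_, fun l => ?_, fun p => ?_⟩
  · refine neg_of_mul_neg_left ?_ hn'.le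
    rw [mul_comm, hm]
    exact_mod_cast hneg
  · have e := hq l
    rw [funext ((over_iff_red h.gen (h.bl_intg hξ) p₀).1 hp), lin_tors,
      (ht_eq_zero hF _).2 ⟨tors ℂ (dotb l p₀), by rw [up_eq_cst, cst_tors]⟩, Int.cast_zero] at e
    exact (mul_eq_zero.1 e).resolve_left hn'.ne'
  · split_ifs with hpp
    · rw [hpp, neg_neg]
    · have e := hm p
      rw [h.m_other hξ hF hp hpp, Int.cast_zero] at e
      exact (mul_eq_zero.1 e).resolve_left hn'.ne'

end Pool.Agent.MP_95da86_ag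

end

section

/-! The test curves. -/

namespace Pool.Agent.MP_95da86_ag

variable {L : Type} [Field L] [Algebra ℂ L] {P : Fin 3 → EP L} {σ : L ≃ₐ[ℂ] L}

/-- The generators of the chart. -/
private def cx (P : Fin 3 → EP L) (i : Fin 3) : chartA P :=
  ⟨xc (P i), Algebra.subset_adjoin (Or.inl ⟨i, rfl⟩)⟩

private def cy (P : Fin 3 → EP L) (i : Fin 3) : chartA P :=
  ⟨yc (P i), Algebra.subset_adjoin (Or.inr ⟨i, rfl⟩)⟩

private lemma Tests_aux_eqn (hP : Gen3 P) {A : Type} [CommRing A] [Algebra ℂ A]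
    (ψ : chartA P →ₐ[ℂ] A) (i : Fin 3) : ψ (cy P i) ^ 2 = ψ (cx P i) ^ 3 + 1 := by
  have e : cy P i ^ 2 = cx P i ^ 3 + 1 := Subtype.ext (eqn_of_ne (hP.ne i))
  rw [← map_pow, e, map_add, map_pow, map_one]

private lemma Tests_aux_xc_tors {M : Type} [Field M] [Algebra ℂ M] (τ : ZMod 3) :
    xc (tors M τ) = 0 := by
  have : τ = 0 ∨ τ = 1 ∨ τ = 2 := by revert τ; decide
  rcases this with rfl | rfl | rfl
  · simp
  · rw [tors_one]; rfl
  · rw [tors_two, xc_neg]; rfl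

/-- A curve `E × {c₁} × {c₂}` in the affine chart on which `b` does not vanish. -/
private lemma Tests_aux_curve (hP : Gen3 P) (b : chartA P) (hb : b ≠ 0) :
    ∃ O ∈ spec (chartA P), ∃ c₁ c₂ : EP ℂ, IsU O b ∧ xc c₁ ≠ 0 ∧ IsFF ℂ (RF O) ∧
      Transcendental ℂ (xc (red O (P 0))) ∧ red O (P 1) = cst _ c₁ ∧ red O (P 2) = cst _ c₂ := by
  have hx1 : cx P 1 ≠ 0 := fun h => hP.xc_ne 1 (congrArg Subtype.val h)
  obtain ⟨ψ₀, h0⟩ := hP.exists_ev_ne (b * cx P 1) (mul_ne_zero hb hx1)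
  rw [map_mul] at h0
  obtain ⟨T⟩ := hP.tower
  let c₀ : Fin 3 → EP ℂ := fun i => pt (ψ₀ (cx P i)) (ψ₀ (cy P i)) (Tests_aux_eqn hP ψ₀ i)
  let c : Fin 3 → EP T.F1 := ![T.P1, cst _ (c₀ 1), cst _ (c₀ 2)]
  have hcst : ∀ i, cst T.F1 (c₀ i) ≠ 0 := fun i h =>
    pt_ne_zero _ _ _ ((emap_eq_zero _).1 h)
  have hc : ∀ i, c i ≠ 0 := by
    intro i
    fin_cases i
    · exact T.g1.ne
    · exact hcst 1
    · exact hcst 2
  obtain ⟨ψ, hψ⟩ := hP.exists_ev c hc
  obtain ⟨ev, hev1, hev2⟩ := T.g1.exists_ev (ψ₀ (cx P 0)) (ψ₀ (cy P 0)) (Tests_aux_eqn hP ψ₀ 0)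
  have hconst : ∀ z : ℂ, ∃ h : algebraMap ℂ T.F1 z ∈ crd ℂ T.P1, ev ⟨_, h⟩ = z := fun z =>
    ⟨Subalgebra.algebraMap_mem _ z, ev.commutes z⟩
  have key : ∀ (a : L) (ha : a ∈ chartA P), ∃ h : ψ ⟨a, ha⟩ ∈ crd ℂ T.P1,
      ev ⟨_, h⟩ = ψ₀ ⟨a, ha⟩ := by
    intro a ha
    induction ha using Algebra.adjoin_induction with
    | mem a ha =>
      rcases ha with ⟨i, rfl⟩ | ⟨i, rfl⟩
      · have e : ψ (cx P i) = xc (c i) := (hψ i).1
        change ∃ h : ψ (cx P i) ∈ _, ev ⟨ψ (cx P i), h⟩ = ψ₀ (cx P i)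
        rw [e]
        fin_cases i
        · exact ⟨_, hev1⟩
        · exact hconst _
        · exact hconst _
      · have e : ψ (cy P i) = yc (c i) := (hψ i).2
        change ∃ h : ψ (cy P i) ∈ _, ev ⟨ψ (cy P i), h⟩ = ψ₀ (cy P i)
        rw [e]
        fin_cases i
        · exact ⟨_, hev2⟩
        · exact hconst _
        · exact hconst _
    | algebraMap z =>
      have e : ψ (algebraMap ℂ _ z) = algebraMap ℂ _ z := ψ.commutes z
      have e' : ψ₀ (algebraMap ℂ _ z) = z := ψ₀.commutes z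
      change ∃ h : ψ (algebraMap ℂ _ z) ∈ _, ev ⟨ψ (algebraMap ℂ _ z), h⟩ = ψ₀ (algebraMap ℂ _ z)
      rw [e, e']
      exact hconst z
    | add u v hu hv ihu ihv =>
      obtain ⟨h1, e1⟩ := ihu
      obtain ⟨h2, e2⟩ := ihv
      change ∃ h : ψ (⟨u, hu⟩ + ⟨v, hv⟩) ∈ _, ev ⟨ψ (⟨u, hu⟩ + ⟨v, hv⟩), h⟩ = ψ₀ (⟨u, hu⟩ + ⟨v, hv⟩)
      rw [map_add ψ, map_add ψ₀, ← e1, ← e2, ← map_add ev]
      exact ⟨add_mem h1 h2, rfl⟩
    | mul u v hu hv ihu ihv =>
      obtain ⟨h1, e1⟩ := ihu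
      obtain ⟨h2, e2⟩ := ihv
      change ∃ h : ψ (⟨u, hu⟩ * ⟨v, hv⟩) ∈ _, ev ⟨ψ (⟨u, hu⟩ * ⟨v, hv⟩), h⟩ = ψ₀ (⟨u, hu⟩ * ⟨v, hv⟩)
      rw [map_mul ψ, map_mul ψ₀, ← e1, ← e2, ← map_mul ev]
      exact ⟨mul_mem h1 h2, rfl⟩
  have hψb : ψ b ≠ 0 := by
    intro h
    obtain ⟨h1, e1⟩ := key b.1 b.2
    apply left_ne_zero_of_mul h0
    rw [← e1]
    have : (⟨ψ ⟨b.1, b.2⟩, h1⟩ : crd ℂ T.P1) = 0 := Subtype.ext h
    rw [this, map_zero]
  obtain ⟨O, hO, φ, hφ⟩ := hP.exists_pt_ev ψ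
  have hxO : ∀ i, xc (P i) ∈ O.1 := fun i => hO.1 (cx P i).2
  have hyO : ∀ i, yc (P i) ∈ O.1 := fun i => hO.1 (cy P i).2
  have hI : ∀ i, Intg O (P i) := fun i => Or.inl ⟨hxO i, hyO i⟩
  have hred : ∀ i, emap φ (red O (P i)) = c i := by
    intro i
    refine EP.ext' ?_ (hc i) ?_ ?_
    · rw [Ne, emap_eq_zero, red_eq_zero (hI i)]
      rintro (h | h)
      · exact hP.ne i h
      · exact h (hyO i)
    · rw [xc_emap, xc_red (hI i) (hyO i), ← (hψ i).1]
      exact hφ (cx P i)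
    · rw [yc_emap, yc_red (hI i) (hyO i), ← (hψ i).2]
      exact hφ (cy P i)
  have htr : Transcendental ℂ (xc (red O (P 0))) := by
    have h1 : φ (xc (red O (P 0))) = xc T.P1 := by rw [← xc_emap, hred 0]; rfl
    intro h
    apply T.g1.tr
    rw [← h1]
    exact h.algHom φ
  refine ⟨O, hO, c₀ 1, c₀ 2, ?_, right_ne_zero_of_mul h0, IsFF.of_algHom T.g1.isFF φ htr, htr,
    ?_, ?_⟩
  · refine isU_of_not_mx (hO.1 b.2) fun hm => hψb ?_
    rw [← hφ b, (res_eq_zero (hO.1 b.2)).2 hm, map_zero]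
  · apply emap_injective φ
    rw [hred 1, emap_cst]; rfl
  · apply emap_injective φ
    rw [hred 2, emap_cst]; rfl

/-- A common denominator. -/
private lemma Tests_aux_den (hP : Gen3 P) (S : Finset L) : ∃ b : chartA P, b ≠ 0 ∧
    ∀ s ∈ S, s * b ∈ chartA P := by
  classical
  induction S using Finset.induction_on with
  | empty => exact ⟨1, one_ne_zero, by simp⟩
  | insert s S _ ih =>
    obtain ⟨b, hb, hS⟩ := ih
    obtain ⟨a, ha, b', hb', h0, rfl⟩ := hP.frac s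
    have h0' : (⟨b', hb'⟩ : chartA P) ≠ 0 := fun h => h0 (congrArg Subtype.val h)
    refine ⟨b * ⟨b', hb'⟩, mul_ne_zero hb h0', fun t ht => ?_⟩
    rcases Finset.mem_insert.1 ht with rfl | ht
    · have : a / b' * ((b * ⟨b', hb'⟩ : chartA P) : L) = a * b := by
        change a / b' * ((b : L) * b') = a * b
        field_simp
      rw [this]
      exact mul_mem ha b.2
    · have : t * ((b * ⟨b', hb'⟩ : chartA P) : L) = t * b * b' := by
        change t * ((b : L) * b') = t * b * b'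
        ring
      rw [this]
      exact mul_mem (hS t ht) hb'

/-- The exceptional planes do not meet such a curve. -/
private lemma Tests_aux_m (h : Cfg P σ) {ξ : Pt L} (hξ : ξ ∈ blP P σ) (hF : IsFF ℂ (RF ξ))
    {c₁ : EP ℂ} (hc : xc c₁ ≠ 0) (h1 : red ξ (P 1) = cst _ c₁) (p : F3) :
    deg (blP P σ) (pull σ (eX P σ p)) ξ = 0 := by
  have hI : ∀ O ∈ blP P σ, Intg O (sh P p 1) := fun O hO =>
    (h.bl_intg hO 1).sub (intg_tors _)
  have hr : red ξ (sh P p 1) = cst _ (c₁ - tors ℂ (p 1)) := by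
    rw [sh, red_sub (h.bl_intg hξ 1) (intg_tors _), h1, red_tors, map_sub, cst_tors]
  have hy : yc (sh P p 1) ∈ ξ.1 := by
    by_contra hy
    have h0 := (red_eq_zero (hI ξ hξ)).2 (Or.inr hy)
    rw [hr, cst, emap_eq_zero, sub_eq_zero] at h0
    exact hc (by rw [h0, Tests_aux_xc_tors])
  rw [deg_eq_finsum h.bl_sep h.bl_proper hξ]
  refine finsum_eq_zero_of_forall_eq_zero fun V => ?_
  have hb := cen_spec h.bl_proper hξ V
  have hy' : yc (sh P p 1) ∈ (cen (blP P σ) ξ V).1 := by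
    refine ((hI _ hb.1).yc_mem_branch hb.2.1 V.1 hb.2.2.2.1 hb.2.2.2.2 hy).2 ?_
    rw [← yc_red (hI ξ hξ) hy, hr, cst, yc_emap]
    exact V.2.2 _
  have := charZero_of ℂ
  have := hF.dvr V
  rw [term, h.pull_eX_not fun ho => ho 1 hy', h.pull_eX_not fun ho => ho 1 hy]
  simp only [div_one, Units.val_one, res_one, ord_one]

/-- Let `S` be the neighbourhood of the generic point for the pulled-back divisor. Write the
elements of `S`, `f top` and its inverse as fractions over the affine chart, let `b` be the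
product of the denominators and of `x 1`, and choose a complex point with `b ≠ 0`
(`exists_ev_ne`). On the curve `E × {c₁} × {c₂}` through it (`exists_ev`, `exists_pt_ev`; `b` does
not vanish on it because the evaluation at the point factors through `F1`'s coordinate ring) the
equation is a unit. -/
theorem Cfg.test3 (h : Cfg P σ) : ∀ d ∈ effClasses (XP P σ), ∃ c : Curve (XP P σ), ∃ κ : ℝ, 0 < κ ∧
    (∀ l, qX P σ c l = κ * nm (l 0)) ∧ (∀ p, mX P σ c p = 0) ∧ 0 ≤ d c := by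
  classical
  rintro d ⟨f, hf, he, hd⟩
  have hg : IsCartier (blP P σ) (pull σ f) := hf.to_pull
  have hge : ∀ O ∈ blP P σ, (pull σ f O : L) ∈ O.1 := fun O hO => by
    rw [coe_pull]
    exact mem_qpt.1 (he _ (mem_XP.2 ⟨O, hO, rfl⟩))
  obtain ⟨S, -, hS⟩ := isCartier_iff.1 hg _ h.top_mem
  set u : Lˣ := pull σ f (topPt L) with hu
  obtain ⟨b, hb, hbS⟩ := Tests_aux_den h.gen (insert (u : L) (insert (u : L)⁻¹ S))
  obtain ⟨ξ, hξA, c₁, c₂, hbu, hc₁, hF, htr, h1, h2⟩ := Tests_aux_curve h.gen b hb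
  have hmem : ∀ s ∈ insert (u : L) (insert (u : L)⁻¹ S), s ∈ ξ.1 := fun s hs => by
    have e : s = s * b * (b : L)⁻¹ := by rw [mul_inv_cancel_right₀ hbu.1]
    rw [e]
    exact mul_mem (hξA.1 (hbS s hs)) hbu.2.2
  have hξc : ξ ∈ cubeP P := spec_chartA_sub P hξA
  have hI : ∀ i, Intg ξ (P i) := cube_intg hξc
  have hξ : ξ ∈ blP P σ := by
    refine h.bl_iff.2 (Or.inl ⟨hξc, fun p hp => hc₁ ?_⟩)
    have e := (over_iff_red h.gen hI p).1 hp 1
    rw [h1, ← cst_tors] at e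
    rw [emap_injective _ e, Tests_aux_xc_tors]
  have huu : IsU ξ (u : L) := ⟨u.ne_zero, hmem _ (by simp), hmem _ (by simp)⟩
  have hunit : IsU ξ (pull σ f ξ : L) := by
    have := (hS ξ hξ fun s hs => hmem s (by simp [Finset.mem_coe.1 hs])).mul huu
    rwa [← Units.val_mul, div_mul_cancel] at this
  let η : Curve (XP P σ) := ⟨qpt (KK σ) ξ, mem_XP.2 ⟨ξ, hξ, rfl⟩, (h.curve_iff hξ).2 hF⟩
  obtain ⟨-, n, hn, hdeg, hq, hm⟩ := h.lift_data η hξ rfl
  have hn' : (0 : ℝ) < n := by exact_mod_cast hn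
  have hpos : 0 < ht ℂ (red ξ (P 0)) := by
    refine lt_of_le_of_ne (ht_nonneg _) fun h0 => htr ?_
    obtain ⟨c, hc⟩ := (ht_eq_zero hF _).1 h0.symm
    rw [hc, up, xc_emap]
    exact isAlgebraic_algebraMap _
  refine ⟨η, ht ℂ (red ξ (P 0)) / n, div_pos (by exact_mod_cast hpos) hn', fun l => ?_,
    fun p => ?_, ?_⟩
  · have e : (lin l fun i => red ξ (P i)) =
        l 0 • red ξ (P 0) + up ℂ _ (l 1 • c₁ + l 2 • c₂) := by
      rw [lin, Fin.sum_univ_three, up_eq_cst, map_add, map_smul, map_smul, h1, h2, add_assoc]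
    have := hq l
    rw [e, ht_add_up hF, ht_smul hF] at this
    push_cast at this
    field_simp
    linear_combination this
  · have := hm p
    rw [Tests_aux_m h hξ hF hc₁ h1 p] at this
    simpa [hn'.ne'] using this
  · have h0 := deg_nonneg h.bl_sep h.bl_proper hξ hF hg (h.finT hξ hF hg) hge hunit
    rw [hdeg f hf] at h0
    rw [hd]
    have hn'' : (0 : ℤ) < n := by exact_mod_cast hn
    exact_mod_cast (mul_nonneg_iff_of_pos_left hn'').1 h0

end Pool.Agent.MP_95da86_ag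

end

section

/-! The affine automorphisms on numerical data. -/

namespace Pool.Agent.MP_95da86_ag

variable {L : Type} [Field L] [Algebra ℂ L] {P : Fin 3 → EP L} {σ : L ≃ₐ[ℂ] L}

theorem exists_restrict (γ : L ≃ₐ[ℂ] L) (hγ : ∀ f, γ (σ f) = σ (γ f)) :
    ∃ γK : KK σ ≃ₐ[ℂ] KK σ, (∀ f : KK σ, (γK f : L) = γ f) ∧
      ∀ O, mapPt γK (qpt (KK σ) O) = qpt (KK σ) (mapPt γ O) := by
  have h1 : ∀ f : KK σ, γ f ∈ KK σ := fun f => mem_KK.2 (by rw [← hγ, mem_KK.1 f.2])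
  have h2 : ∀ f : KK σ, γ.symm f ∈ KK σ := fun f => mem_KK.2 (γ.injective (by
    rw [hγ, AlgEquiv.apply_symm_apply, mem_KK.1 f.2]))
  let γK : KK σ ≃ₐ[ℂ] KK σ :=
    { toFun := fun f => ⟨γ f, h1 f⟩
      invFun := fun f => ⟨γ.symm f, h2 f⟩
      left_inv := fun f => Subtype.ext (γ.symm_apply_apply f)
      right_inv := fun f => Subtype.ext (γ.apply_symm_apply f)
      map_mul' := fun f g => Subtype.ext (map_mul γ (f : L) g)
      map_add' := fun f g => Subtype.ext (map_add γ (f : L) g)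
      commutes' := fun c => Subtype.ext (γ.commutes c) }
  refine ⟨γK, fun f => rfl, fun O => Subtype.ext (Subalgebra.ext fun f => ?_)⟩
  rw [mem_mapPt, mem_qpt, mem_qpt, mem_mapPt]
  rfl

theorem Aff_aux_act_zq {M M' : Type} [Field M] [Algebra ℂ M] [Field M'] [Algebra ℂ M']
    (g : M ≃ₐ[ℂ] M') (y : M) : act g (zq y) = zq (g y) := by
  funext O
  apply Units.ext
  rw [coe_act]
  have hm : y ∈ (mapPt g.symm O).1 ↔ g y ∈ O.1 := by rw [mem_mapPt, AlgEquiv.symm_symm]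
  by_cases hy : g y ∈ O.1
  · rw [zq_of_mem hy, zq_of_mem (hm.2 hy)]; simp
  · rw [zq_of_not_mem hy, zq_of_not_mem (fun h => hy (hm.1 h)), map_inv₀]

theorem Aff_aux_lin (P : Fin 3 → EP L) (g : GLw) (b : F3) (l : Lam) :
    lin l (fun i => lin (g.val i) P + tors L (b i)) = lin (vm l g) P + tors L (dotb l b) := by
  rw [← lin_tors]
  simp only [lin, smul_add, Finset.sum_add_distrib, vm, Matrix.vecMul, dotProduct, Finset.sum_smul,
    Finset.smul_sum, mul_smul]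
  rw [Finset.sum_comm]

theorem Aff_aux_fix (h : Cfg P σ) (l : Lam) (τ : ZMod 3) :
    σ (yc (lin l P - tors L τ)) = yc (lin l P - tors L τ) := by
  have := congrArg yc (h.map_lin l τ)
  rw [yc_emap, yc_om] at this
  exact this

theorem Aff_aux_dom {M M' : Type} [Field M] [Algebra ℂ M] [Field M'] [Algebra ℂ M']
    (g : M ≃ₐ[ℂ] M') {O W : Pt M} (h : Dom O W) : Dom (mapPt g O) (mapPt g W) :=
  ⟨fun _ hf => mem_mapPt.2 (h.1 (mem_mapPt.1 hf)),
    fun _ hf => mem_mx_mapPt.2 (h.2 (mem_mx_mapPt.1 hf))⟩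

theorem Aff_aux_gen (h : Cfg P σ) {O : Pt L} (hO : O ∈ blP P σ) {p : F3} (hp : Over O P p) :
    ∃ Op ∈ cubeP P, Over Op P p ∧ Dom Op O ∧ ∃ r ∈ mx Op, r ≠ 0 ∧ ∀ g ∈ mx Op, g / r ∈ O.1 := by
  obtain ⟨Op, hOp, hpp, hd, ⟨i, hi⟩, -⟩ := h.bl_over hO hp
  refine ⟨Op, hOp, hpp, hd, sc (sh P p i), (hpp.sc_mem (cube_intg hOp) i).1,
    div_ne_zero ((h.gen.shift p).xc_ne i) ((h.gen.shift p).yc_ne i), fun f hf => ?_⟩
  obtain ⟨a, ha, rfl⟩ := over_gen hOp hpp hf
  rw [Finset.sum_div]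
  refine sum_mem fun j _ => ?_
  rw [mul_div_assoc]
  exact mul_mem (hd.1 (ha j)) (hi j)

/-- With `γ` from `exists_aff` and `η = γK (π η)`: `act γK (zX ℓ 0) = zX (ℓ g) (- ℓ b)`, and
`act γK (eX (g p + b))` differs from `eX p` by units (`eX_gen` with `r = γ (s i)`); use `deg_act`,
`deg_zX`, `degX_congr`. -/
theorem Cfg.aff (h : Cfg P σ) (g : GLw) (b : F3) : ∃ π ∈ autG (XP P σ), ∀ c,
    (∀ l, qX P σ (π c) l = qX P σ c (vm l g)) ∧
    ∀ p, mX P σ (π c) ((gbar g).mulVec p + b) = mX P σ c p := by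
  obtain ⟨γ, hP, hσ, hc, hb, hov⟩ := h.exists_aff g b
  obtain ⟨γK, hK, hq⟩ := exists_restrict γ hσ
  have hX : ∀ O', mapPt γK O' ∈ XP P σ ↔ O' ∈ XP P σ := by
    intro O'
    constructor
    · intro hO'
      obtain ⟨O, hO, e⟩ := mem_XP.1 hO'
      have hO1 : mapPt γ.symm O ∈ blP P σ := (hb _).1 (by rwa [mapPt_mapPt_symm])
      refine mem_XP.2 ⟨_, hO1, ?_⟩
      rw [← mapPt_symm_mapPt γK O', e, ← mapPt_symm_mapPt γK (qpt _ (mapPt γ.symm O)), hq,
        mapPt_mapPt_symm]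
    · intro hO'
      obtain ⟨O, hO, rfl⟩ := mem_XP.1 hO'
      rw [hq]
      exact mem_XP.2 ⟨_, (hb O).2 hO, rfl⟩
  have hA : IsAut (XP P σ) γK := isAut_iff.2 hX
  obtain ⟨π, hπ⟩ := hA.exists_perm
  refine ⟨π, ⟨γK, hA, hπ⟩, fun c => ⟨fun l => ?_, fun p => ?_⟩⟩
  · have e : act γK (zX P σ l 0) = zX P σ (vm l g) (-dotb l b) := by
      unfold zX
      rw [Aff_aux_act_zq]
      congr 1
      apply Subtype.ext
      rw [hK, coe_toK (Aff_aux_fix h _ _), coe_toK (Aff_aux_fix h _ _)]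
      have : emap (γ : L →ₐ[ℂ] L) (lin l P - tors L 0) = lin (vm l g) P - tors L (-dotb l b) := by
        rw [tors_zero, sub_zero, emap_lin, tors_neg, sub_neg_eq_add, ← Aff_aux_lin]
        exact congrArg (lin l) (funext hP)
      rw [← this, yc_emap]
      rfl
    rw [← h.deg_zX c (vm l g) (-dotb l b), ← e, hπ c, deg_act γK hX]
    rfl
  · unfold mX
    have hT : Triv (XP P σ) (act γK (eX P σ ((gbar g).mulVec p + b)) / eX P σ p) := by
      intro O' hO'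
      obtain ⟨O₀, hO₀, rfl⟩ := mem_XP.1 hO'
      obtain ⟨O, rfl⟩ : ∃ O, O₀ = mapPt γ O := ⟨mapPt γ.symm O₀, (mapPt_mapPt_symm γ O₀).symm⟩
      have hO : O ∈ blP P σ := (hb O).1 hO₀
      have e : ((((act γK (eX P σ ((gbar g).mulVec p + b)) / eX P σ p)
          (qpt (KK σ) (mapPt γ O)) : (KK σ)ˣ) : KK σ) : L) =
          γ (pull σ (eX P σ ((gbar g).mulVec p + b)) O : L) /
            (pull σ (eX P σ p) (mapPt γ O) : L) := by
        rw [Pi.div_apply, Units.val_div_eq_div_val, coe_act, coe_pull, coe_pull, ← hK]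
        conv_lhs => rw [← hq, mapPt_symm_mapPt, hq]
        push_cast
        rfl
      rw [isU_qpt, e]
      have hiff := hov O (h.bl_intg hO) p
      by_cases hp : Over O P ((gbar g).mulVec p + b)
      · obtain ⟨Op, hOp, hpp, hd, r, hr, hr0, hgen⟩ := Aff_aux_gen h hO hp
        have u1 := h.eX_gen hO hOp hpp hd hr hr0 hgen
        have u2 := h.eX_gen hO₀ ((hc Op).2 hOp) ((hov Op (cube_intg hOp) p).2 hpp)
          (Aff_aux_dom γ hd) (r := γ r) (mem_mx_mapPt.2 (by rwa [γ.symm_apply_apply]))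
          (by simpa using hr0) (fun f hf => mem_mapPt.2 (by
            rw [map_div₀, γ.symm_apply_apply]; exact hgen _ (mem_mx_mapPt.1 hf)))
        have u3 : IsU (mapPt γ O)
            (γ (pull σ (eX P σ ((gbar g).mulVec p + b)) O : L) / γ r ^ 3) := by
          rw [isU_mapPt, map_div₀, map_pow, γ.symm_apply_apply, γ.symm_apply_apply]
          exact u1
        have u4 := u3.div u2
        have hr3 : γ r ^ 3 ≠ 0 := pow_ne_zero _ (by simpa using hr0)
        rwa [div_div_div_cancel_right₀ hr3] at u4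
      · rw [h.pull_eX_not hp, h.pull_eX_not (fun h' => hp (hiff.1 h'))]
        simpa using isU_one _
    rw [← h.degX_congr c ((h.eX_cartier _).to_act γK hX) (h.eX_cartier p) hT]
    conv_rhs => rw [hπ c, deg_act γK hX]

end Pool.Agent.MP_95da86_ag

end

section

/-! The finite systems of inequalities on the Voronoi domains. -/

namespace Pool.Agent.MP_95da86_ag

/-- Type 0. -/
def Fin0 (c : Fin 12 → ℝ) (a : F3 → ℝ) : Prop :=
  (∀ p, 0 ≤ a p) ∧ ∀ (d b : F3) (k₀ : Fin 12), d ≠ 0 → (d 2 = 0 → dotb (f0 k₀) d = 0) →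
    ∑ τ : ZMod 3, a (τ • d + b) ≤
      ∑ k with dotb (f0 k) d ≠ 0, c k + if d 2 = 0 then 3 * c k₀ else 0

/-- Type 1. -/
def Fin1 (c : Fin 9 → ℝ) (a : F3 → ℝ) : Prop :=
  (∀ p, 0 ≤ a p) ∧ ∀ (d b : F3) (k₀ : Fin 9), d ≠ 0 →
    ∑ τ : ZMod 3, a (τ • d + b) ≤
      ∑ k with dotb (f1 k) d ≠ 0, c k + if d 0 = 0 ∧ d 1 = 0 then 3 * c k₀ else 0

/-- Rank two. -/
def Fin2 (c : Fin 4 → ℝ) (a : F3 → ℝ) : Prop :=
  (∀ p, 0 ≤ a p) ∧ (∀ p, p 2 ≠ 0 → a p = 0) ∧ ∀ d b : F3, d ≠ 0 → d 2 = 0 →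
    ∑ τ : ZMod 3, a (τ • d + b) ≤ ∑ k with dotb (f2 k) d ≠ 0, c k

end Pool.Agent.MP_95da86_ag

end

section

/-! The finite systems are equivalent to all test inequalities; decompositions. -/

namespace Pool.Agent.MP_95da86_ag

variable {a : F3 → ℝ}

theorem PFinA_aux_sum {n : ℕ} (c : Fin n → ℝ) (P : Fin n → Prop) [DecidablePred P] (Q : Prop)
    [Decidable Q] (k₀ : Fin n) :
    ∑ k with P k, c k + (if Q then 3 * c k₀ else 0) =
      ∑ k, c k * (((if P k then 1 else 0) + if Q ∧ k = k₀ then 3 else 0 : ℤ) : ℝ) := by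
  rw [Finset.sum_filter, ← Fintype.sum_ite_eq' k₀ fun k => if Q then 3 * c k else 0,
    ← Finset.sum_add_distrib]
  refine Finset.sum_congr rfl fun k _ => ?_
  by_cases h1 : P k <;> by_cases h2 : Q <;> by_cases h3 : k = k₀ <;> simp [h1, h2, h3] <;>
    split_ifs <;> ring

theorem PFinA_aux_pp {n : ℕ} (f : Fin n → Lam) (c : Fin n → ℝ) (g : GLw) (b : F3) :
    (∑ τ : ZMod 3, a ((gbar g).mulVec (Pi.single 0 τ) + b) ≤ Hc f c (tf g)) ↔
      ∑ τ : ZMod 3, a ((τ • fun i => bar (g.val i 0)) + b) ≤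
        ∑ k, c k * (nm (vm (f k) g 0) : ℝ) := by
  simp only [Hc_apply, mulVec_single_zero, tf]

theorem PFinA_aux_one {l : Lam} {g : GLw} (h : dotb l (fun i => bar (g.val i 0)) ≠ 0) :
    ∃ n : ℤ, 0 ≤ n ∧ nm (vm l g 0) = 3 * n + 1 := by
  rw [← bar_vm_zero] at h
  obtain ⟨n, hn⟩ := (nm_mod _).2 h
  have := nm_nonneg (vm l g 0)
  exact ⟨n, by omega, hn⟩

theorem PFinA_aux_zero {l : Lam} {g : GLw} (h : dotb l (fun i => bar (g.val i 0)) = 0) :
    ∃ n : ℤ, 0 ≤ n ∧ nm (vm l g 0) = 3 * n := by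
  rw [← bar_vm_zero] at h
  obtain ⟨n, hn⟩ := (nm_mod _).1 h
  have := nm_nonneg (vm l g 0)
  exact ⟨n, by omega, hn⟩

theorem PFinA_aux_rel (g : GLw) : ∃ φ : (Fin 9 → ℤ) →+ ℝ, ∀ l, φ (vec l) = nm (vm l g 0) := by
  obtain ⟨γ, hγ⟩ := (isQF_tf g).coords
  refine ⟨⟨⟨fun v => ∑ i, γ i * v i, by simp⟩, fun v w => ?_⟩, fun l => (hγ l).symm⟩
  simp [mul_add, Finset.sum_add_distrib]

theorem PFinA_aux_le {n : ℕ} {c : Fin n → ℝ} (hc : ∀ k, 0 ≤ c k) {x y : Fin n → ℤ}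
    (h : ∀ k, x k ≤ y k) : ∑ k, c k * (x k : ℝ) ≤ ∑ k, c k * (y k : ℝ) :=
  Finset.sum_le_sum fun k _ => mul_le_mul_of_nonneg_left (Int.cast_le.2 (h k)) (hc k)

theorem fin0_of_pp {c : Fin 12 → ℝ} (h : PP (Hc f0 c) a) : Fin0 c a := by
  refine ⟨h.1, fun d b k₀ hd hk => ?_⟩
  obtain ⟨g, rfl, hg⟩ := test_f0 d hd k₀ hk
  refine ((PFinA_aux_pp f0 c g b).1 (h.2 g b)).trans_eq ?_
  rw [PFinA_aux_sum]
  refine Finset.sum_congr rfl fun k _ => ?_
  rw [hg k]
  congr 2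
  split_ifs with h1 h2 h2
  · exact absurd (h2.2 ▸ hk h2.1) h1
  all_goals rfl

theorem fin1_of_pp {c : Fin 9 → ℝ} (h : PP (Hc f1 c) a) : Fin1 c a := by
  refine ⟨h.1, fun d b k₀ hd => ?_⟩
  obtain ⟨g, rfl, hg⟩ := test_f1 d hd k₀
  refine ((PFinA_aux_pp f1 c g b).1 (h.2 g b)).trans_eq ?_
  rw [PFinA_aux_sum]
  refine Finset.sum_congr rfl fun k _ => ?_
  rw [hg k]
  simp only [and_assoc]

/-- `nm ≥ 1` off the prime, and for a direction `d` in the plane some member of the triangle of `d`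
does not vanish on the column, since the triangles have equal sums (`rel_tri`, `tri_dir`). -/
theorem pp_of_fin0 {c : Fin 12 → ℝ} (hc : ∀ k, 0 ≤ c k) (h : Fin0 c a) : PP (Hc f0 c) a := by
  refine ⟨h.1, fun g b => (PFinA_aux_pp f0 c g b).2 ?_⟩
  have key : ∃ k₀, bar (g.val 2 0) = 0 →
      dotb (f0 k₀) (fun i => bar (g.val i 0)) = 0 ∧ 3 ≤ nm (vm (f0 k₀) g 0) := by
    by_cases h2 : bar (g.val 2 0) = 0
    swap
    · exact ⟨0, fun h3 => absurd h3 h2⟩
    obtain ⟨i, hi⟩ := tri_dir _ (col_ne_zero g) h2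
    obtain ⟨i', hi'⟩ := exists_ne i
    obtain ⟨φ, hφ⟩ := PFinA_aux_rel g
    have h3 := congrArg φ (rel_tri i i')
    simp only [map_sum, hφ] at h3
    have h4 : ∑ j, nm (vm (f0 (triEl i j)) g 0) = ∑ j, nm (vm (f0 (triEl i' j)) g 0) := by
      exact_mod_cast h3
    have h5 := fun j => (hi (triEl i j)).2 (tri_triEl i j)
    have h6 := fun j => PFinA_aux_one fun e => hi' ((tri_triEl i' j).symm.trans ((hi _).1 e))
    by_contra hn
    push Not at hn
    obtain ⟨n0, g0, e0⟩ := PFinA_aux_zero (h5 0)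
    obtain ⟨n1, g1, e1⟩ := PFinA_aux_zero (h5 1)
    obtain ⟨n2, g2, e2⟩ := PFinA_aux_zero (h5 2)
    obtain ⟨m0, g3, e3⟩ := h6 0
    obtain ⟨m1, g4, e4⟩ := h6 1
    obtain ⟨m2, g5, e5⟩ := h6 2
    have t0 := (hn _).2 (h5 0)
    have t1 := (hn _).2 (h5 1)
    have t2 := (hn _).2 (h5 2)
    rw [Fin.sum_univ_three, Fin.sum_univ_three] at h4
    omega
  obtain ⟨k₀, hk⟩ := key
  refine (h.2 _ b k₀ (col_ne_zero g) fun h2 => (hk h2).1).trans ?_
  rw [PFinA_aux_sum]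
  refine PFinA_aux_le hc fun k => ?_
  have := nm_nonneg (vm (f0 k) g 0)
  split_ifs with h1 h2 h2
  · exact absurd (h2.2 ▸ (hk h2.1).1) h1
  · obtain ⟨n, h3, h4⟩ := PFinA_aux_one h1
    omega
  · have := (hk h2.1).2
    rw [h2.2]
    omega
  · omega

theorem PFinA_aux_ax : ∀ d : F3, d ≠ 0 → d 0 = 0 ∧ d 1 = 0 → ∀ k, dotb (f1 k) d ≠ 0 := by
  decide +kernel

/-- For `d = (0, 0, ± 1)` all nine norms are `1 mod 3` and not all `1` (`rel_long_one`: parity). -/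
theorem pp_of_fin1 {c : Fin 9 → ℝ} (hc : ∀ k, 0 ≤ c k) (h : Fin1 c a) : PP (Hc f1 c) a := by
  refine ⟨h.1, fun g b => (PFinA_aux_pp f1 c g b).2 ?_⟩
  have key : ∃ k₀, bar (g.val 0 0) = 0 ∧ bar (g.val 1 0) = 0 → 4 ≤ nm (vm (f1 k₀) g 0) := by
    by_contra hn
    push Not at hn
    have h1 : ∀ k, nm (vm (f1 k) g 0) = 1 := fun k => by
      obtain ⟨n, h2, h3⟩ := PFinA_aux_one (PFinA_aux_ax _ (col_ne_zero g) (hn k).1 k)
      have := (hn k).2
      omega
    obtain ⟨φ, hφ⟩ := PFinA_aux_rel g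
    have h3 := congrArg φ rel_long_one
    simp only [map_sum, map_nsmul, map_zsmul, hφ, h1] at h3
    have h4 : 2 * nm (vm (fl 0) g 0) =
        ∑ k, (![-1, -1, -1, 1, 1, 1, 1, 1, 1] : Fin 9 → ℤ) k := by
      simp only [nsmul_eq_mul, zsmul_eq_mul, Int.cast_one, mul_one] at h3
      exact_mod_cast h3
    rw [show ∑ k, (![-1, -1, -1, 1, 1, 1, 1, 1, 1] : Fin 9 → ℤ) k = 3 by decide] at h4
    omega
  obtain ⟨k₀, hk⟩ := key
  refine (h.2 _ b k₀ (col_ne_zero g)).trans ?_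
  rw [PFinA_aux_sum]
  refine PFinA_aux_le hc fun k => ?_
  have := nm_nonneg (vm (f1 k) g 0)
  split_ifs with h1 h2 h2
  · have := hk h2.1
    rw [h2.2]
    omega
  · obtain ⟨n, h3, h4⟩ := PFinA_aux_one h1
    omega
  · have := hk h2.1
    rw [h2.2]
    omega
  · omega

end Pool.Agent.MP_95da86_ag

end

section

/-! Voronoi reduction. -/

namespace Pool.Agent.MP_95da86_ag

/-- A non-negative combination of finitely many functions with values in `ℕ` attains its minimum. -/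
theorem exists_min_comb {ι : Type} [Nonempty ι] {n : ℕ} (r : Fin n → ℝ) (hr : ∀ i, 0 ≤ r i)
    (v : ι → Fin n → ℕ) : ∃ x, ∀ y, ∑ i, r i * v x i ≤ ∑ i, r i * v y i := by
  have hmono : Monotone fun w : Fin n → ℕ => ∑ i, r i * (w i : ℝ) := fun w w' h =>
    Finset.sum_le_sum fun i _ => mul_le_mul_of_nonneg_left (by exact_mod_cast h i) (hr i)
  have hwf := ((Set.isPWO_of_wellQuasiOrderedLE (Set.range v)).image_of_monotone hmono).isWF
  have hne : ((fun w : Fin n → ℕ => ∑ i, r i * (w i : ℝ)) '' Set.range v).Nonempty :=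
    (Set.range_nonempty v).image _
  obtain ⟨w, ⟨x, rfl⟩, hx⟩ := hwf.min_mem hne
  refine ⟨x, fun y => ?_⟩
  have h := hwf.min_le hne ⟨v y, ⟨y, rfl⟩, rfl⟩
  rw [← hx] at h
  exact h

/-- An admissible functional attains its minimum on a family of integral forms that are
non-negative combinations of test forms. -/
theorem Vor_aux_min {H : Herm} (hH : Adm H) {ι : Type} [Nonempty ι] (Q : ι → Lam → ℝ)
    (hQ : ∀ x, IsQF (Q x)) (hZ : ∀ x l, ∃ n : ℤ, Q x l = n)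
    (hP : ∀ x, ∃ (m : ℕ) (c : ℝ) (g : Fin m → GLw), 0 ≤ c ∧ Q x = c • ∑ j, tf (g j)) :
    ∃ x, ∀ y, H (Q x) ≤ H (Q y) := by
  obtain ⟨n, r, Hi, hr, hsum, hi⟩ := hH
  have hv : ∀ x i, ∃ k : ℕ, Hi i (Q x) = k := by
    intro x i
    obtain ⟨z, hz⟩ := (hi i).2 (Q x) (hQ x) (hZ x)
    obtain ⟨m, c, g, hc, hg⟩ := hP x
    have h0 : 0 ≤ Hi i (Q x) := by
      rw [hg, map_smul, map_sum]
      exact smul_nonneg hc (Finset.sum_nonneg fun j _ => (hi i).1 _)
    have hz0 : 0 ≤ z := by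
      rw [hz] at h0
      exact_mod_cast h0
    refine ⟨z.toNat, ?_⟩
    rw [hz]
    exact_mod_cast (Int.toNat_of_nonneg hz0).symm
  choose v hv using hv
  obtain ⟨x, hx⟩ := exists_min_comb r hr v
  refine ⟨x, fun y => ?_⟩
  rw [hsum _ (hQ x), hsum _ (hQ y)]
  simpa only [hv] using hx y

/-- The form `qf γ ∘ g`. -/
def Vor_aux_Q (γ : List ℤ) (g : GLw) : Lam → ℝ := fun l => (qf γ (vm l g) : ℝ)

theorem Vor_aux_Q_qf (γ : List ℤ) (g : GLw) : IsQF (Vor_aux_Q γ g) := (isQF_qf γ).comp_vm g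

theorem Vor_aux_Q_one (γ : List ℤ) (l : Lam) : Vor_aux_Q γ 1 l = qf γ l := by
  simp only [Vor_aux_Q, vm_one]

theorem Vor_aux_fr (H : Herm) (γ : List ℤ) (g g' : GLw) :
    H.fr g (Vor_aux_Q γ g') = H (Vor_aux_Q γ (g * g')) := by
  rw [fr_apply]
  congr 1
  funext l
  simp only [Vor_aux_Q, vm_mul]

theorem Vor_aux_shift {γ : List ℤ} {m : ℕ} {c : ℝ} {t : Fin m → GLw}
    (h : ∀ l, (qf γ l : ℝ) = c * ∑ j, tf (t j) l) (g : GLw) :
    Vor_aux_Q γ g = c • ∑ j, tf (g * t j) := by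
  funext l
  simp only [Vor_aux_Q, h, Pi.smul_apply, Finset.sum_apply, tf, vm_mul, smul_eq_mul]

theorem Vor_aux_diff (γ : List ℤ) {m : ℕ} (c : ℝ) (t : Fin m → GLw) :
    IsQF ((fun l => (qf γ l : ℝ)) - c • ∑ j, tf (t j)) :=
  (isQF_qf γ).sub ((isQF_sum _ _ fun j _ => isQF_tf (t j)).const_smul c)

theorem Vor_aux_sum0 : ∃ t : Fin 9 → GLw, ∀ l, (qf q0 l : ℝ) = (1 / 3) * ∑ j, tf (t j) l := by
  obtain ⟨t, ht⟩ := sum_q0
  refine ⟨t, fun l => ?_⟩
  have h := (Vor_aux_diff q0 (1 / 3) t).ext0 (fun k => by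
    have h1 : (3 : ℝ) * qf q0 (f0 k) = ∑ j, (nm (vm (f0 k) (t j) 0) : ℝ) := by
      exact_mod_cast ht k
    simp only [Pi.sub_apply, Pi.smul_apply, Finset.sum_apply, tf, smul_eq_mul]
    linarith) l
  simp only [Pi.sub_apply, Pi.smul_apply, Finset.sum_apply, smul_eq_mul] at h
  linarith

theorem Vor_aux_sum1 : ∃ t : Fin 12 → GLw, ∀ l, (qf q1 l : ℝ) = (1 / 4) * ∑ j, tf (t j) l := by
  obtain ⟨t, ht⟩ := sum_q1
  refine ⟨t, fun l => ?_⟩
  have h := (Vor_aux_diff q1 (1 / 4) t).ext1 (fun k => by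
    have h1 : (4 : ℝ) * qf q1 (f1 k) = ∑ j, (nm (vm (f1 k) (t j) 0) : ℝ) := by
      exact_mod_cast ht k
    simp only [Pi.sub_apply, Pi.smul_apply, Finset.sum_apply, tf, smul_eq_mul]
    linarith) l
  simp only [Pi.sub_apply, Pi.smul_apply, Finset.sum_apply, smul_eq_mul] at h
  linarith

theorem Vor_aux_tf_update {g : GLw} (hg : Blk g) (l : Lam) :
    tf g (Function.update l 2 0) = tf g l := by
  simp only [tf, hg.vm_update]
  rw [Function.update_of_ne (by decide)]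

theorem Vor_aux_Q_update {g : GLw} (hg : Blk g) (l : Lam) :
    Vor_aux_Q q2 g (Function.update l 2 0) = Vor_aux_Q q2 g l := by
  simp only [Vor_aux_Q, hg.vm_update, qf_q2_update]

theorem Vor_aux_sum2 : ∃ t : Fin 4 → GLw,
    ∀ l, (qf q2 l : ℝ) = (2 / 3) * ∑ j, tf (t j) l := by
  obtain ⟨t, hb, ht⟩ := sum_q2
  refine ⟨t, fun l => ?_⟩
  have h := (Vor_aux_diff q2 (2 / 3) t).ext2 (fun l => by
    simp only [Pi.sub_apply, Pi.smul_apply, Finset.sum_apply, qf_q2_update,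
      Vor_aux_tf_update (hb _)]) (fun k => by
    have h1 : (3 : ℝ) * qf q2 (f2 k) = 2 * ∑ j, (nm (vm (f2 k) (t j) 0) : ℝ) := by
      exact_mod_cast ht k
    simp only [Pi.sub_apply, Pi.smul_apply, Finset.sum_apply, tf, smul_eq_mul]
    linarith) l
  simp only [Pi.sub_apply, Pi.smul_apply, Finset.sum_apply, smul_eq_mul] at h
  linarith

/-- The value of a combination of dual forms. -/
theorem Vor_aux_dual {n : ℕ} (f : Fin n → Lam) (F : Fin n → Lam → ℝ)
    (hF : ∀ k₀ k, F k₀ (f k) = if k = k₀ then 2 else 0) (q : Lam → ℝ) (k : Fin n) :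
    (q - ∑ k₀, (q (f k₀) / 2) • F k₀) (f k) = 0 := by
  simp only [Pi.sub_apply, Finset.sum_apply, Pi.smul_apply, hF, smul_eq_mul, mul_ite, mul_zero,
    Finset.sum_ite_eq, Finset.mem_univ, if_true]
  ring

theorem Vor_aux_eval {n : ℕ} (H : Herm) (f : Fin n → Lam) (F : Fin n → Lam → ℝ) (q : Lam → ℝ)
    (h : ∀ l, (q - ∑ k₀, (q (f k₀) / 2) • F k₀) l = 0) :
    H q = Hc f (fun k => H (F k) / 2) q := by
  have e : q = ∑ k₀, (q (f k₀) / 2) • F k₀ := sub_eq_zero.1 (funext h)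
  rw [Hc_apply]
  conv_lhs => rw [e]
  rw [map_sum]
  refine Finset.sum_congr rfl fun k _ => ?_
  rw [map_smul, smul_eq_mul]
  ring

theorem Vor_aux_sum12 (φ : Fin 12 → ℝ) : ∑ k, φ k = ∑ i, ∑ j, φ (triEl i j) := by
  simp only [Fin.sum_univ_succ, Fin.sum_univ_zero, triEl, Matrix.cons_val_zero,
    Matrix.cons_val_succ]
  simp only [Fin.succ_zero_eq_one, Fin.succ_one_eq_two, Fin.reduceSucc]
  ring

theorem Vor_aux_tri {q : Lam → ℝ} (hq : IsQF q) (i : Fin 4) :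
    ∑ j, q (f0 (triEl i j)) = ∑ j, q (f0 (triEl 0 j)) := by
  obtain ⟨γ, hγ⟩ := hq.coords
  have h : ∀ i' : Fin 4, ∑ j, q (f0 (triEl i' j)) =
      ∑ a, γ a * (((∑ j, vec (f0 (triEl i' j))) a : ℤ) : ℝ) := by
    intro i'
    simp only [hγ, Finset.sum_apply, Int.cast_sum, Finset.mul_sum]
    exact Finset.sum_comm
  rw [h, h, rel_tri i 0]

/-- The domain of type 0. -/
theorem Vor_aux_type0 (H : Herm) (G : (Fin 4 → Fin 3) → Lam → ℝ) (hG : ∀ ch, IsQF (G ch))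
    (hv : ∀ ch i j, G ch (f0 (triEl i j)) = if j = ch i then 1 else 0)
    (hpos : ∀ ch, 0 ≤ H (G ch)) :
    ∃ c : Fin 12 → ℝ, (∀ k, 0 ≤ c k) ∧ ∀ q, IsQF q → H q = Hc f0 c q := by
  choose pos hpos' using exists_triEl
  have hp : ∀ i j, pos (triEl i j) = j := fun i j => by
    have h := hpos' (triEl i j)
    rw [tri_triEl] at h
    exact (triEl_inj _ _ _ h).symm
  have ext : ∀ q : Lam → ℝ, IsQF q → (∀ i j, q (f0 (triEl i j)) = 0) → q = 0 := fun q hq h =>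
    funext (hq.ext0 fun k => by rw [hpos' k]; exact h _ _)
  set A : Fin 4 → Fin 3 → Lam → ℝ := fun i j => G (Function.update 0 i j) - G 0 with hA
  have hAq : ∀ i j, IsQF (A i j) := fun i j => (hG _).sub (hG _)
  have hAv : ∀ i j i' j', A i j (f0 (triEl i' j')) =
      if i' = i then (if j' = j then 1 else 0) - (if j' = 0 then 1 else 0) else 0 := by
    intro i j i' j'
    simp only [hA, Pi.sub_apply, hv, Pi.zero_apply]
    by_cases h : i' = i
    · subst h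
      simp
    · simp [h]
  have hch : ∀ ch, H (G ch) = H (G 0) + ∑ i, H (A i (ch i)) := by
    intro ch
    have h := ext (G ch - (G 0 + ∑ i, A i (ch i)))
      ((hG ch).sub ((hG 0).add (isQF_sum _ _ fun i _ => hAq i _))) (fun i j => by
        simp only [Pi.sub_apply, Pi.add_apply, Finset.sum_apply, hAv, hv, Finset.sum_ite_eq,
          Finset.mem_univ, if_true, Pi.zero_apply]
        ring)
    rw [sub_eq_zero.1 h, map_add, map_sum]
  have hmin : ∀ i, ∃ j, ∀ j', H (A i j) ≤ H (A i j') := fun i =>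
    Finite.exists_min fun j => H (A i j)
  choose ch hchmin using hmin
  refine ⟨fun k => H (A (tri k) (pos k)) - H (A (tri k) (ch (tri k))) + H (G ch) / 4,
    fun k => ?_, fun q hq => ?_⟩
  · have h1 := hchmin (tri k) (pos k)
    have h2 := hpos ch
    linarith
  · set T := ∑ j, q (f0 (triEl 0 j)) with hT
    have hTi : ∀ i, ∑ j, q (f0 (triEl i j)) = T := fun i => Vor_aux_tri hq i
    have h := ext (q - (T • G 0 + ∑ i, ∑ j, q (f0 (triEl i j)) • A i j))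
      (hq.sub (((hG 0).const_smul T).add (isQF_sum _ _ fun i _ => isQF_sum _ _ fun j _ =>
        (hAq i j).const_smul _))) (fun i j => by
        have h1 : ∀ i', ∑ j', q (f0 (triEl i' j')) * A i' j' (f0 (triEl i j)) =
            if i = i' then q (f0 (triEl i j)) - T * (if j = 0 then 1 else 0) else 0 := by
          intro i'
          by_cases h : i = i'
          · subst h
            simp only [hAv, if_true, mul_sub, Finset.sum_sub_distrib, ← Finset.sum_mul, hTi]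
            simp
          · simp [hAv, h]
        simp only [Pi.sub_apply, Pi.add_apply, Finset.sum_apply, Pi.smul_apply, smul_eq_mul, h1,
          hv, Finset.sum_ite_eq, Finset.mem_univ, if_true, Pi.zero_apply]
        ring)
    have e : H q = T * H (G 0) + ∑ i, ∑ j, q (f0 (triEl i j)) * H (A i j) := by
      conv_lhs => rw [sub_eq_zero.1 h]
      simp only [map_add, map_sum, map_smul, smul_eq_mul]
    rw [e, Hc_apply, Vor_aux_sum12]
    simp only [tri_triEl, hp]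
    have e2 : ∀ i, ∑ j, (H (A i j) - H (A i (ch i)) + H (G ch) / 4) * q (f0 (triEl i j)) =
        ∑ j, q (f0 (triEl i j)) * H (A i j) + (H (G ch) / 4 - H (A i (ch i))) * T := by
      intro i
      rw [← hTi i, Finset.mul_sum, ← Finset.sum_add_distrib]
      exact Finset.sum_congr rfl fun j _ => by ring
    simp only [e2]
    rw [Finset.sum_add_distrib, ← Finset.sum_mul, Finset.sum_sub_distrib, hch ch]
    simp only [Finset.sum_const, Finset.card_univ, Fintype.card_fin, nsmul_eq_mul]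
    push_cast
    ring

/-- Minimise `H (qf q ∘ g)` over `q ∈ {q0, q1}` and all `g`; the values `Hi (qf q ∘ g)` are
natural numbers by `sum_q0`, `sum_q1` (with `ext0`, `ext1`). At the minimum `H.fr g` is
non-negative on the facet forms `F = qf q' ∘ g' - qf q` of `nbr_q0`, `nbr_q1`. For type 1 every
form is `∑ q (f1 k) / 2 • F k`. For type 0 normalise `F ch` to have values `0, 1`, put
`B = F 0`, `A i j = F (update 0 i j) - B`; then `F ch = B + ∑ i, A i (ch i)` and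
`q = ∑ i j, q (f0 (triEl i j)) • A i j + q (T) • B` where `A i 0 = 0` and `q (T)` is the common sum
over a triangle (`rel_tri`). With `u i j = H (A i j)`, `m i = min over j of u i j`,
`μ = H B + ∑ m i ≥ 0` take `c (triEl i j) = u i j - m i + μ / 4`. -/
theorem voronoi3 {H : Herm} (hH : Adm H) : ∃ g : GLw,
    (∃ c : Fin 12 → ℝ, (∀ k, 0 ≤ c k) ∧ ∀ q, IsQF q → H.fr g q = Hc f0 c q) ∨
    (∃ c : Fin 9 → ℝ, (∀ k, 0 ≤ c k) ∧ ∀ q, IsQF q → H.fr g q = Hc f1 c q) := by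
  obtain ⟨t0, h0⟩ := Vor_aux_sum0
  obtain ⟨t1, h1⟩ := Vor_aux_sum1
  obtain ⟨⟨b, g⟩, hmin⟩ := Vor_aux_min hH
    (fun x : Bool × GLw => Vor_aux_Q (if x.1 then q1 else q0) x.2)
    (fun x => Vor_aux_Q_qf _ _) (fun x l => ⟨_, rfl⟩) (by
      rintro ⟨b, g⟩
      cases b
      · exact ⟨9, 1 / 3, _, by norm_num, Vor_aux_shift h0 g⟩
      · exact ⟨12, 1 / 4, _, by norm_num, Vor_aux_shift h1 g⟩)
  have key : ∀ (b' : Bool) (g' : GLw), 0 ≤ H.fr g (Vor_aux_Q (if b' then q1 else q0) g' -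
      Vor_aux_Q (if b then q1 else q0) 1) := by
    intro b' g'
    rw [map_sub, Vor_aux_fr, Vor_aux_fr, mul_one]
    exact sub_nonneg.2 (hmin (b', g * g'))
  refine ⟨g, ?_⟩
  cases b
  · left
    have hex : ∀ ch : Fin 4 → Fin 3, ∃ G : Lam → ℝ, IsQF G ∧
        (∀ i j, G (f0 (triEl i j)) = if j = ch i then 1 else 0) ∧ 0 ≤ H.fr g G := by
      intro ch
      have hiff : ∀ i j, triEl i j = triEl (tri (triEl i j)) (ch (tri (triEl i j))) ↔ j = ch i := by
        intro i j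
        rw [tri_triEl]
        exact ⟨triEl_inj _ _ _, fun h => by rw [h]⟩
      obtain ⟨g', h | h⟩ := nbr_q0 ch
      · refine ⟨(1 / 2 : ℝ) • (Vor_aux_Q q0 g' - Vor_aux_Q q0 1),
          ((Vor_aux_Q_qf _ _).sub (Vor_aux_Q_qf _ _)).const_smul _, fun i j => ?_, ?_⟩
        · have h2 := congrArg (Int.cast : ℤ → ℝ) (h (triEl i j))
          simp only [hiff] at h2
          simp only [Pi.smul_apply, Pi.sub_apply, Vor_aux_Q, vm_one, smul_eq_mul]
          push_cast at h2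
          rw [h2]
          split_ifs <;> norm_num
        · rw [map_smul]
          exact smul_nonneg (by norm_num) (key false g')
      · refine ⟨Vor_aux_Q q1 g' - Vor_aux_Q q0 1,
          (Vor_aux_Q_qf _ _).sub (Vor_aux_Q_qf _ _), fun i j => ?_, key true g'⟩
        have h2 := congrArg (Int.cast : ℤ → ℝ) (h (triEl i j))
        simp only [hiff] at h2
        simp only [Pi.sub_apply, Vor_aux_Q, vm_one]
        push_cast at h2
        exact h2
    choose G hG hv hpos using hex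
    exact Vor_aux_type0 (H.fr g) G hG hv hpos
  · right
    choose gk hgk using nbr_q1
    have hF : ∀ k₀ k, (Vor_aux_Q q0 (gk k₀) - Vor_aux_Q q1 1) (f1 k) =
        if k = k₀ then 2 else 0 := by
      intro k₀ k
      have h2 := congrArg (Int.cast : ℤ → ℝ) (hgk k₀ k)
      simp only [Pi.sub_apply, Vor_aux_Q, vm_one]
      push_cast at h2
      exact h2
    refine ⟨fun k => H.fr g (Vor_aux_Q q0 (gk k) - Vor_aux_Q q1 1) / 2,
      fun k => div_nonneg (key false (gk k)) (by norm_num), fun q hq => ?_⟩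
    refine Vor_aux_eval (H.fr g) f1 (fun k => Vor_aux_Q q0 (gk k) - Vor_aux_Q q1 1) q ?_
    exact (hq.sub (isQF_sum _ _ fun k _ =>
      ((Vor_aux_Q_qf _ _).sub (Vor_aux_Q_qf _ _)).const_smul _)).ext1
        (Vor_aux_dual f1 _ hF q)

theorem voronoi2 {H : Herm} (hH : Adm H) : ∃ g : GLw, Blk g ∧ ∃ c : Fin 4 → ℝ, (∀ k, 0 ≤ c k) ∧
    ∀ q, IsQF q → (∀ l, q l = q (Function.update l 2 0)) → H.fr g q = Hc f2 c q := by
  obtain ⟨t2, h2⟩ := Vor_aux_sum2
  have : Nonempty {g : GLw // Blk g} := ⟨⟨1, Blk.one⟩⟩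
  obtain ⟨⟨g, hg⟩, hmin⟩ := Vor_aux_min hH (fun x : {g : GLw // Blk g} => Vor_aux_Q q2 x.1)
    (fun x => Vor_aux_Q_qf _ _) (fun x l => ⟨_, rfl⟩)
    (fun x => ⟨4, 2 / 3, _, by norm_num, Vor_aux_shift h2 x.1⟩)
  have key : ∀ g' : GLw, Blk g' → 0 ≤ H.fr g (Vor_aux_Q q2 g' - Vor_aux_Q q2 1) := by
    intro g' hg'
    rw [map_sub, Vor_aux_fr, Vor_aux_fr, mul_one]
    exact sub_nonneg.2 (hmin ⟨g * g', hg.mul hg'⟩)
  choose gk hb hgk using nbr_q2
  have hF : ∀ k₀ k, (Vor_aux_Q q2 (gk k₀) - Vor_aux_Q q2 1) (f2 k) =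
      if k = k₀ then 2 else 0 := by
    intro k₀ k
    have h3 := congrArg (Int.cast : ℤ → ℝ) (hgk k₀ k)
    simp only [Pi.sub_apply, Vor_aux_Q, vm_one]
    push_cast at h3
    exact h3
  refine ⟨g, hg, fun k => H.fr g (Vor_aux_Q q2 (gk k) - Vor_aux_Q q2 1) / 2,
    fun k => div_nonneg (key _ (hb k)) (by norm_num), fun q hq hu => ?_⟩
  refine Vor_aux_eval (H.fr g) f2 (fun k => Vor_aux_Q q2 (gk k) - Vor_aux_Q q2 1) q ?_
  refine (hq.sub (isQF_sum _ _ fun k _ =>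
    ((Vor_aux_Q_qf _ _).sub (Vor_aux_Q_qf _ _)).const_smul _)).ext2 (fun l => ?_)
      (Vor_aux_dual f2 _ hF q)
  simp only [Pi.sub_apply, Finset.sum_apply, Pi.smul_apply, Vor_aux_Q_update (hb _),
    Vor_aux_Q_update Blk.one, ← hu l]

end Pool.Agent.MP_95da86_ag

end

section

/-! Covering by planes. -/

namespace Pool.Agent.MP_95da86_ag

open Finset Cov

namespace Cov

/-- The point with a given number. -/
def pn (p : ℕ) : F3 := fun i => ((p / 3 ^ (i : ℕ) : ℕ) : ZMod 3)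

lemma pn_surj : ∀ x : F3, ∃ p < 27, pn p = x := by decide +kernel

lemma sum_z3 (F : ZMod 3 → ℝ) : ∑ τ, F τ = F 0 + F 1 + F 2 := Fin.sum_univ_three F

lemma sum3 (n : ℕ) (F : ℕ → ℝ) :
    ∑ j ∈ range (3 * n), F j = ∑ k : Fin n, ∑ τ : ZMod 3, F (3 * k + τ.val) := by
  rw [Fin.sum_univ_eq_sum_range (fun k => ∑ τ : ZMod 3, F (3 * k + τ.val))]
  induction n with
  | zero => simp
  | succ n ih =>
    rw [sum_range_succ _ n, ← ih, sum_z3, mul_add, mul_one, sum_range_succ, sum_range_succ,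
      sum_range_succ, add_assoc, add_assoc, add_assoc]
    rfl

/-- The starting point. -/
noncomputable def st {n : ℕ} (c : Fin n → ℝ) (j : ℕ) : ℝ :=
  if h : j % 3 = 0 ∧ j / 3 < n then c ⟨j / 3, h.2⟩ else 0

lemma st_nonneg {n : ℕ} {c : Fin n → ℝ} (hc : ∀ k, 0 ≤ c k) (j : ℕ) : 0 ≤ st c j := by
  unfold st; split_ifs
  · exact hc _
  · exact le_rfl

lemma st_sum {n : ℕ} (c : Fin n → ℝ) (k : Fin n) : ∑ τ : ZMod 3, st c (3 * k + τ.val) = c k := by
  have h0 : st c (3 * k + (0 : ZMod 3).val) = c k := by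
    have : (3 * (k : ℕ) + (0 : ZMod 3).val) / 3 = k := by simp
    unfold st
    rw [dif_pos ⟨by simp, by rw [this]; exact k.2⟩]
    congr 1; exact Fin.ext this
  have h1 : st c (3 * k + (1 : ZMod 3).val) = 0 := dif_neg fun h => by
    have : (3 * (k : ℕ) + 1) % 3 = 0 := h.1
    omega
  have h2 : st c (3 * k + (2 : ZMod 3).val) = 0 := dif_neg fun h => by
    have : (3 * (k : ℕ) + 2) % 3 = 0 := h.1
    omega
  rw [sum_z3, h0, h1, h2]; ring

lemma sum_row {n : ℕ} (g : ℕ → ℕ) (w : Fin n → ℕ) (h : ∀ (k : Fin n) (τ : ZMod 3), g (3 * k + τ.val) = w k)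
    (y : ℕ → ℝ) : ∑ j ∈ range (3 * n), (g j : ℝ) * y j =
      ∑ k, (w k : ℝ) * ∑ τ : ZMod 3, y (3 * k + τ.val) := by
  simp only [sum3, h, mul_sum]

lemma sum_col {n : ℕ} (g : ℕ → ℕ) (t : Fin n → ZMod 3)
    (h : ∀ (k : Fin n) (τ : ZMod 3), g (3 * k + τ.val) = if t k = τ then 1 else 0) (y : ℕ → ℝ) :
    ∑ j ∈ range (3 * n), (g j : ℝ) * y j = ∑ k : Fin n, y (3 * k + (t k).val) := by
  simp [sum3, h]

lemma sum_unit {n : ℕ} (k : Fin n) (Y : Fin n → ℝ) :
    ∑ k', ((if k' = k then 1 else 0 : ℕ) : ℝ) * Y k' = Y k := by simp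

lemma sum_line (a : F3 → ℝ) {x y z : F3} (h : (2 : ZMod 3) • (y - x) + x = z) :
    ∑ τ : ZMod 3, a (τ • (y - x) + x) = a x + a y + a z := by
  rw [sum_z3, h]; simp

lemma sum_load {n : ℕ} (P : Fin n → Prop) [DecidablePred P] (Q : Prop) [Decidable Q] (k₀ : Fin n)
    (c : Fin n → ℝ) :
    ∑ k, (((if P k then 1 else 0) + if Q ∧ k = k₀ then 3 else 0 : ℕ) : ℝ) * c k =
      ∑ k with P k, c k + if Q then 3 * c k₀ else 0 := by
  by_cases h : Q <;> simp [h, add_mul, sum_add_distrib, sum_filter]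

end Cov

theorem cover0 {c : Fin 12 → ℝ} {a : F3 → ℝ} (hc : ∀ k, 0 ≤ c k) (h : Fin0 c a) :
    ∃ (y : Fin 12 → ZMod 3 → ℝ) (s : Fin 4 → ℝ), (∀ k τ, 0 ≤ y k τ) ∧ ∑ i, s i = 0 ∧
      (∀ k, ∑ τ, y k τ = c k + s (tri k)) ∧ ∀ p, a p ≤ ∑ k, y k (dotb (f0 k) p) := by
  have T1 : ∀ p < 27, ∀ (k : Fin 12) (τ : ZMod 3),
      S0.R (3 * k + τ.val) p = if dotb (f0 k) (pn p) = τ then 1 else 0 := by decide +kernel
  have T2 : ∀ r < 21, ∀ (k : Fin 12) (τ : ZMod 3),
      S0.R (3 * k + τ.val) (27 + r) = S0.R (3 * k) (27 + r) := by decide +kernel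
  have T3 : ∀ c < 189, pn (S0.pt c 1) - pn (S0.pt c 0) ≠ 0 ∧
      ((pn (S0.pt c 1) - pn (S0.pt c 0)) 2 = 0 →
        dotb (f0 (Fin.ofNat 12 (S0.rw c + 3))) (pn (S0.pt c 1) - pn (S0.pt c 0)) = 0) ∧
      (2 : ZMod 3) • (pn (S0.pt c 1) - pn (S0.pt c 0)) + pn (S0.pt c 0) = pn (S0.pt c 2) ∧
      S0.rw c < 21 ∧ ∀ k : Fin 12, S0.R (3 * k) (27 + S0.rw c) =
        (if dotb (f0 k) (pn (S0.pt c 1) - pn (S0.pt c 0)) ≠ 0 then 1 else 0) +
        if (pn (S0.pt c 1) - pn (S0.pt c 0)) 2 = 0 ∧ k = Fin.ofNat 12 (S0.rw c + 3) then 3 else 0 := by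
    decide +kernel
  have T4 : ∀ k₀ k : Fin 12, S0.R (3 * k) (27 + (9 + k₀)) =
      if (k : ℕ) / 3 = k₀ / 3 then (if k = k₀ then 3 else 0) else 1 := by decide +kernel
  have cv : ∀ (y : ℕ → ℝ) i, S0.cv y i = ∑ j ∈ range (3 * 12), (S0.R j i : ℝ) * y j := fun _ _ => rfl
  obtain ⟨y, h0, h1, h2⟩ := Sys.cover ok0 dead0 (a := fun p => a (pn p)) (st_nonneg hc)
    (fun p => h.1 _) (fun i hi => by
      obtain ⟨a1, a2, a3, a4, a5⟩ := T3 i hi
      rw [cv, sum_row _ _ fun k τ => (T2 _ a4 k τ).trans (a5 k), ← sum_line a a3]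
      simp only [st_sum, sum_load]
      exact h.2 _ _ _ a1 a2) (fun h => absurd rfl h)
  have e : ∀ k₀ : Fin 12, ∑ k : Fin 12, ((if (k : ℕ) / 3 = k₀ / 3 then (if k = k₀ then 3 else 0) else 1 : ℕ) : ℝ) *
      (∑ τ : ZMod 3, y (3 * k + τ.val) - c k) = 0 := fun k₀ => by
    have hr : 9 + (k₀ : ℕ) < 21 := by omega
    have := h1 _ hr
    rw [cv, cv, sum_row _ _ fun k τ => (T2 _ hr k τ).trans (T4 k₀ k),
      sum_row _ _ fun k τ => (T2 _ hr k τ).trans (T4 k₀ k)] at this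
    simp only [st_sum] at this
    simp only [mul_sub, sum_sub_distrib, this, sub_self]
  set δ : Fin 12 → ℝ := fun k => ∑ τ : ZMod 3, y (3 * k + τ.val) - c k with hδ
  have e' : ∀ k₀ : Fin 12, ∑ k : Fin 12,
    ((if (k : ℕ) / 3 = k₀ / 3 then (if k = k₀ then 3 else 0) else 1 : ℕ) : ℝ) * δ k = 0 := e
  have e0 := e' 0; have e1 := e' 1; have e2 := e' 2; have e3 := e' 3; have e4 := e' 4
  have e5 := e' 5; have e6 := e' 6; have e7 := e' 7; have e8 := e' 8; have e9 := e' 9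
  have e10 := e' 10; have e11 := e' 11
  have hs : δ 3 + δ 0 + δ 9 + δ 6 = 0 ∧ ∀ k, δ k = ![δ 3, δ 0, δ 9, δ 6] (tri k) := by
    clear_value δ
    simp [Fin.sum_univ_succ] at e0 e1 e2 e3 e4 e5 e6 e7 e8 e9 e10 e11
    refine ⟨by linarith, fun k => ?_⟩
    fin_cases k <;> simp [tri] <;> linarith
  refine ⟨fun k τ => y (3 * k + τ.val), ![δ 3, δ 0, δ 9, δ 6], fun _ _ => h0 _, ?_, fun k => ?_,
    fun x => ?_⟩
  · simpa [Fin.sum_univ_four] using hs.1
  · rw [← hs.2 k]; simp [hδ]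
  · obtain ⟨p, hp, rfl⟩ := pn_surj x
    have := h2 p hp
    rwa [cv, sum_col _ _ (T1 p hp)] at this

theorem cover2 {c : Fin 4 → ℝ} {a : F3 → ℝ} (hc : ∀ k, 0 ≤ c k) (h : Fin2 c a) :
    ∃ y : Fin 4 → ZMod 3 → ℝ, (∀ k τ, 0 ≤ y k τ) ∧ (∀ k, ∑ τ, y k τ = c k) ∧
      ∀ p, a p ≤ ∑ k, y k (dotb (f2 k) p) := by
  have T1 : ∀ p < 27, ∀ (k : Fin 4) (τ : ZMod 3),
      S2.R (3 * k + τ.val) p = if dotb (f2 k) (pn p) = τ then 1 else 0 := by decide +kernel
  have T3 : ∀ c < 30, (pn (S2.pt c 0) 2 ≠ 0 ∧ pn (S2.pt c 1) 2 ≠ 0 ∧ pn (S2.pt c 2) 2 ≠ 0) ∨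
      pn (S2.pt c 1) - pn (S2.pt c 0) ≠ 0 ∧ (pn (S2.pt c 1) - pn (S2.pt c 0)) 2 = 0 ∧
      (2 : ZMod 3) • (pn (S2.pt c 1) - pn (S2.pt c 0)) + pn (S2.pt c 0) = pn (S2.pt c 2) ∧
      ∀ (k : Fin 4) (τ : ZMod 3), S2.R (3 * k + τ.val) (27 + S2.rw c) =
        if dotb (f2 k) (pn (S2.pt c 1) - pn (S2.pt c 0)) ≠ 0 then 1 else 0 := by
    decide +kernel
  have T4 : ∀ (k₀ k : Fin 4) (τ : ZMod 3), S2.R (3 * k + τ.val) (27 + k₀) = if k = k₀ then 1 else 0 := by
    decide +kernel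
  have cv : ∀ (y : ℕ → ℝ) i, S2.cv y i = ∑ j ∈ range (3 * 4), (S2.R j i : ℝ) * y j := fun _ _ => rfl
  obtain ⟨y, h0, h1, h2⟩ := Sys.cover ok2 dead2 (a := fun p => a (pn p)) (st_nonneg hc)
    (fun p => h.1 _) (fun i hi => by
      rcases T3 i hi with ⟨a1, a2, a3⟩ | ⟨a1, a2, a3, a4⟩
      · rw [h.2.1 _ a1, h.2.1 _ a2, h.2.1 _ a3, add_zero, add_zero]
        exact sum_nonneg fun j _ => mul_nonneg (Nat.cast_nonneg _) (st_nonneg hc j)
      · rw [cv, sum_row _ _ a4, ← sum_line a a3]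
        simpa [st_sum, sum_filter] using h.2.2 _ _ a1 a2) (fun h => absurd rfl h)
  refine ⟨fun k τ => y (3 * k + τ.val), fun _ _ => h0 _, fun k => ?_, fun x => ?_⟩
  · have := h1 k (by have := k.2; change _ < 9; omega)
    rwa [cv, cv, sum_row _ _ (T4 k), sum_row _ _ (T4 k), sum_unit, sum_unit, st_sum] at this
  · obtain ⟨p, hp, rfl⟩ := pn_surj x
    have := h2 p hp
    rwa [cv, sum_col _ _ (T1 p hp)] at this

lemma cover1a {c : Fin 9 → ℝ} {a : F3 → ℝ} (hc : ∀ k, 0 ≤ c k) (h : Fin1 c a)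
    (hA : ∀ b, ∑ τ : ZMod 3, a (τ • pn 9 + b) ≤ ∑ k, c k) :
    ∃ y : Fin 9 → ZMod 3 → ℝ, (∀ k τ, 0 ≤ y k τ) ∧ (∀ k, ∑ τ, y k τ = c k) ∧
      ∀ p, a p ≤ ∑ k, y k (dotb (f1 k) p) := by
  have T1 : ∀ p < 27, ∀ (k : Fin 9) (τ : ZMod 3),
      S9.R (3 * k + τ.val) p = if dotb (f1 k) (pn p) = τ then 1 else 0 := by decide +kernel
  have T3 : ∀ c < 117,
      (2 : ZMod 3) • (pn (S9.pt c 1) - pn (S9.pt c 0)) + pn (S9.pt c 0) = pn (S9.pt c 2) ∧
      ((pn (S9.pt c 1) - pn (S9.pt c 0) = pn 9 ∧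
        ∀ (k : Fin 9) (τ : ZMod 3), S9.R (3 * k + τ.val) (27 + S9.rw c) = 1) ∨
      pn (S9.pt c 1) - pn (S9.pt c 0) ≠ 0 ∧
      ¬ ((pn (S9.pt c 1) - pn (S9.pt c 0)) 0 = 0 ∧ (pn (S9.pt c 1) - pn (S9.pt c 0)) 1 = 0) ∧
      ∀ (k : Fin 9) (τ : ZMod 3), S9.R (3 * k + τ.val) (27 + S9.rw c) =
        if dotb (f1 k) (pn (S9.pt c 1) - pn (S9.pt c 0)) ≠ 0 then 1 else 0) := by
    decide +kernel
  have T4 : ∀ (k₀ k : Fin 9) (τ : ZMod 3), S9.R (3 * k + τ.val) (27 + k₀) = if k = k₀ then 1 else 0 := by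
    decide +kernel
  have cv : ∀ (y : ℕ → ℝ) i, S9.cv y i = ∑ j ∈ range (3 * 9), (S9.R j i : ℝ) * y j := fun _ _ => rfl
  obtain ⟨y, h0, h1, h2⟩ := Sys.cover ok9 dead9 (a := fun p => a (pn p)) (st_nonneg hc)
    (fun p => h.1 _) (fun i hi => by
      obtain ⟨a3, ⟨a1, a2⟩ | ⟨a1, a2, a4⟩⟩ := T3 i hi
      · rw [cv, sum_row _ _ a2, ← sum_line a a3, a1]
        simpa [st_sum] using hA _
      · rw [cv, sum_row _ _ a4, ← sum_line a a3]
        have := h.2 _ (pn (S9.pt i 0)) 0 a1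
        rw [if_neg a2, add_zero] at this
        simpa [st_sum, sum_filter] using this) (fun h => absurd rfl h)
  refine ⟨fun k τ => y (3 * k + τ.val), fun _ _ => h0 _, fun k => ?_, fun x => ?_⟩
  · have := h1 k (by have := k.2; change _ < 22; omega)
    rwa [cv, cv, sum_row _ _ (T4 k), sum_row _ _ (T4 k), sum_unit, sum_unit, st_sum] at this
  · obtain ⟨p, hp, rfl⟩ := pn_surj x
    have := h2 p hp
    rwa [cv, sum_col _ _ (T1 p hp)] at this

lemma cover1b {c : Fin 9 → ℝ} {a : F3 → ℝ} (hc : ∀ k, 0 ≤ c k) (h : Fin1 c a)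
    (hB : ∑ k, c k ≤ ∑ τ : ZMod 3, a (τ • pn 9 + 0)) :
    ∃ (y : Fin 9 → ZMod 3 → ℝ) (s : ℝ), (∀ k τ, 0 ≤ y k τ) ∧ 0 ≤ s ∧
      (∀ k, ∑ τ, y k τ + 2 * s = c k) ∧
      ∀ p, a p ≤ ∑ k, y k (dotb (f1 k) p) + s * if p 0 = 0 ∧ p 1 = 0 then 12 else 3 := by
  have T1 : ∀ p < 27, (S1.R 27 p = if pn p 0 = 0 ∧ pn p 1 = 0 then 12 else 3) ∧
      ∀ (k : Fin 9) (τ : ZMod 3),
      S1.R (3 * k + τ.val) p = if dotb (f1 k) (pn p) = τ then 1 else 0 := by decide +kernel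
  have T3 : ∀ c < 189, pn (S1.pt c 1) - pn (S1.pt c 0) ≠ 0 ∧
      (2 : ZMod 3) • (pn (S1.pt c 1) - pn (S1.pt c 0)) + pn (S1.pt c 0) = pn (S1.pt c 2) ∧
      ∀ (k : Fin 9) (τ : ZMod 3), S1.R (3 * k + τ.val) (27 + S1.rw c) =
        (if dotb (f1 k) (pn (S1.pt c 1) - pn (S1.pt c 0)) ≠ 0 then 1 else 0) +
        if ((pn (S1.pt c 1) - pn (S1.pt c 0)) 0 = 0 ∧ (pn (S1.pt c 1) - pn (S1.pt c 0)) 1 = 0) ∧
          k = Fin.ofNat 9 (S1.rw c + 5) then 3 else 0 := by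
    decide +kernel
  have T4 : ∀ k₀ : Fin 9, S1.R 27 (27 + (1 + k₀)) = 2 ∧ ∀ (k : Fin 9) (τ : ZMod 3),
      S1.R (3 * k + τ.val) (27 + (1 + k₀)) = if k = k₀ then 1 else 0 := by decide +kernel
  have T5 : (∀ (k : Fin 9) (τ : ZMod 3), S1.R (3 * k + τ.val) 27 = 1) ∧ pn 0 = 0 ∧
    (2 : ZMod 3) • (pn 9 - pn 0) + pn 0 = pn 18 := by decide +kernel
  have cv : ∀ (y : ℕ → ℝ) i, S1.cv y i = ∑ j ∈ range (3 * 9), (S1.R j i : ℝ) * y j +
      S1.R 27 i * y 27 := fun _ _ => sum_range_succ _ 27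
  have s0 : st c 27 = 0 := dif_neg (by norm_num)
  obtain ⟨y, h0, h1, h2⟩ := Sys.cover ok1 dead1 (a := fun p => a (pn p)) (st_nonneg hc)
    (fun p => h.1 _) (fun i hi => by
      obtain ⟨a1, a3, a5⟩ := T3 i hi
      rw [cv, sum_row _ _ a5, ← sum_line a a3, s0, mul_zero, add_zero]
      simp only [st_sum, sum_load]
      exact h.2 _ _ _ a1) (fun _ => by
      rw [cv, sum_row _ _ T5.1, ← sum_line a T5.2.2, s0, T5.2.1, mul_zero, add_zero]
      simpa [st_sum] using hB)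
  refine ⟨fun k τ => y (3 * k + τ.val), y 27, fun _ _ => h0 _, h0 _, fun k => ?_, fun x => ?_⟩
  · have := h1 (1 + k) (by have := k.2; change _ < 31; omega)
    rw [cv, cv, sum_row _ _ (T4 k).2, sum_row _ _ (T4 k).2, sum_unit, sum_unit, st_sum, s0,
      (T4 k).1] at this
    simpa using this
  · obtain ⟨p, hp, rfl⟩ := pn_surj x
    have := h2 p hp
    rw [cv, sum_col _ _ (T1 p hp).2, (T1 p hp).1, mul_comm] at this
    simpa using this

theorem cover1 {c : Fin 9 → ℝ} {a : F3 → ℝ} (hc : ∀ k, 0 ≤ c k) (h : Fin1 c a) :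
    ∃ (y : Fin 9 → ZMod 3 → ℝ) (s : ℝ) (b : F3), (∀ k τ, 0 ≤ y k τ) ∧ 0 ≤ s ∧
      (∀ k, ∑ τ, y k τ + 2 * s = c k) ∧
      ∀ p, a p ≤ ∑ k, y k (dotb (f1 k) p) + s * if p 0 = b 0 ∧ p 1 = b 1 then 12 else 3 := by
  by_cases hA : ∀ b, ∑ τ : ZMod 3, a (τ • pn 9 + b) ≤ ∑ k, c k
  · obtain ⟨y, h0, h1, h2⟩ := cover1a hc h hA
    exact ⟨y, 0, 0, h0, le_rfl, by simpa using h1, by simpa using h2⟩
  push Not at hA
  obtain ⟨b, hb⟩ := hA
  obtain ⟨y, s, h0, hs, h1, h2⟩ := cover1b (a := fun x => a (x + b)) hc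
    ⟨fun p => h.1 _, fun d b' k hd => by simpa only [add_assoc] using h.2 d (b' + b) k hd⟩
    (by simpa using hb.le)
  refine ⟨fun k τ => y k (τ - dotb (f1 k) b), s, b, fun _ _ => h0 _ _, hs, fun k => ?_, fun p => ?_⟩
  · rw [← h1 k, ← (Equiv.subRight (dotb (f1 k) b)).sum_comp (y k)]; rfl
  · have e : ∀ l, dotb l (p - b) = dotb l p - dotb l b := fun l => by
      simp only [dotb, Pi.sub_apply, mul_sub, sum_sub_distrib]
    simpa only [sub_add_cancel, e, Pi.sub_apply, sub_eq_zero] using h2 (p - b)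

end Pool.Agent.MP_95da86_ag

end

section

/-! The finite systems are equivalent to all test inequalities; decompositions. -/

namespace Pool.Agent.MP_95da86_ag

variable {a : F3 → ℝ}

theorem PFin_aux_mk {ι : Type} [Fintype ι] {H : Herm} {R : Lam → Prop} {Q : (Lam → ℝ) → Prop}
    {S : F3 → Prop} (y : ι → ℝ) (l : ι → Lam) (τ : ι → ZMod 3) (h1 : ∀ j, 0 ≤ y j)
    (h2 : ∀ j, R (l j)) (h3 : ∀ q, IsQF q → Q q → H q = ∑ j, y j * q (l j))
    (h4 : ∀ p, S p → a p ≤ ∑ j, if dotb (l j) p = τ j then y j else 0) :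
    ∃ (n : ℕ) (y : Fin n → ℝ) (l : Fin n → Lam) (τ : Fin n → ZMod 3), (∀ j, 0 ≤ y j) ∧
      (∀ j, R (l j)) ∧ (∀ q, IsQF q → Q q → H q = ∑ j, y j * q (l j)) ∧
      ∀ p, S p → a p ≤ ∑ j with dotb (l j) p = τ j, y j := by
  let e := (Fintype.equivFin ι).symm
  refine ⟨_, fun j => y (e j), fun j => l (e j), fun j => τ (e j), fun j => h1 _, fun j => h2 _,
    fun q hq hq' => ?_, fun p hp => ?_⟩
  · rw [h3 q hq hq', ← e.sum_comp]
  · rw [Finset.sum_filter]
    exact (h4 p hp).trans_eq (e.sum_comp _).symm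

theorem PFin_aux_mk' {ι : Type} [Fintype ι] {H : Herm} (y : ι → ℝ) (l : ι → Lam) (τ : ι → ZMod 3)
    (h1 : ∀ j, 0 ≤ y j) (h2 : ∀ j, ∃ g : GLw, g.val 2 = l j)
    (h3 : ∀ q, IsQF q → H q = ∑ j, y j * q (l j))
    (h4 : ∀ p, a p ≤ ∑ j, if dotb (l j) p = τ j then y j else 0) : Decomp H a := by
  obtain ⟨n, y, l, τ, k1, k2, k3, k4⟩ := PFin_aux_mk (R := fun l => ∃ g : GLw, g.val 2 = l)
    (Q := fun _ => True) (S := fun _ => True) y l τ h1 h2 (fun q hq _ => h3 q hq) fun p _ => h4 p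
  exact ⟨n, y, l, τ, k1, k2, fun q hq => k3 q hq trivial, fun p => k4 p trivial⟩

theorem PFin_aux_tri {q : Lam → ℝ} (hq : IsQF q) {s : Fin 4 → ℝ} (hs : ∑ i, s i = 0) :
    ∑ k, s (tri k) * q (f0 k) = 0 := by
  have h1 : ∀ i : Fin 4, ∑ k, ((if tri k = i then 1 else 0) - (if tri k = 0 then 1 else 0) : ℤ) •
      vec (f0 k) = 0 := by decide +kernel
  have h2 : ∀ i : Fin 4, ∑ k, (if tri k = i then q (f0 k) else 0) =
      ∑ k, if tri k = 0 then q (f0 k) else 0 := fun i => by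
    have := hq.rel Finset.univ _ f0 (h1 i)
    simpa [sub_mul, Finset.sum_sub_distrib, sub_eq_zero] using this
  calc ∑ k, s (tri k) * q (f0 k) = ∑ k, ∑ i, s i * if tri k = i then q (f0 k) else 0 := by simp
    _ = 0 := by
      rw [Finset.sum_comm]
      simp only [← Finset.mul_sum, h2]
      rw [← Finset.sum_mul, hs, zero_mul]

theorem decomp0 {c : Fin 12 → ℝ} (hc : ∀ k, 0 ≤ c k) (h : Fin0 c a) : Decomp (Hc f0 c) a := by
  obtain ⟨y, s, h1, h2, h3, h4⟩ := cover0 hc h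
  refine PFin_aux_mk' (ι := Fin 12 × ZMod 3) (fun j => y j.1 j.2) (fun j => f0 j.1) Prod.snd
    (fun j => h1 _ _) (fun j => row_f0 _) (fun q hq => ?_) fun p => ?_
  · rw [Hc_apply, Fintype.sum_prod_type]
    simp only [← Finset.sum_mul, h3, add_mul, Finset.sum_add_distrib, PFin_aux_tri hq h2, add_zero]
  · rw [Fintype.sum_prod_type]
    simpa using h4 p

/-- The weight `s` is put on the planes of the twelve long forms through `b`
(`rel_long`, `count_long`). -/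
theorem decomp1 {c : Fin 9 → ℝ} (hc : ∀ k, 0 ≤ c k) (h : Fin1 c a) : Decomp (Hc f1 c) a := by
  obtain ⟨y, s, b, h1, h2, h3, h4⟩ := cover1 hc h
  refine PFin_aux_mk' (ι := Fin 9 × ZMod 3 ⊕ Fin 12) (Sum.elim (fun j => y j.1 j.2) fun _ => s)
    (Sum.elim (fun j => f1 j.1) fl) (Sum.elim Prod.snd fun k => dotb (fl k) b)
    (Sum.rec (fun j => h1 _ _) fun _ => h2) (Sum.rec (fun j => row_f1 _) row_fl)
    (fun q hq => ?_) fun p => ?_
  · have h5 := hq.rel (ι := Fin 12 ⊕ Fin 9) Finset.univ (Sum.elim (fun _ => 1) fun _ => -2)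
      (Sum.elim fl f1) (by decide +kernel)
    simp only [Fintype.sum_sum_type, Sum.elim_inl, Sum.elim_inr, ← Finset.mul_sum] at h5
    rw [Hc_apply, Fintype.sum_sum_type, Fintype.sum_prod_type]
    simp only [Sum.elim_inl, Sum.elim_inr, ← Finset.sum_mul, ← h3, add_mul,
      Finset.sum_add_distrib, ← Finset.mul_sum]
    push_cast at h5
    linear_combination -s * h5
  · rw [Fintype.sum_sum_type, Fintype.sum_prod_type]
    simp only [Sum.elim_inl, Sum.elim_inr]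
    rw [← Finset.sum_filter, Finset.sum_const, count_long, nsmul_eq_mul, mul_comm]
    simpa using h4 p

theorem Decomp.congr {H H' : Herm} (h : Decomp H a) (e : ∀ q, IsQF q → H' q = H q) :
    Decomp H' a := by
  obtain ⟨n, y, l, τ, h1, h2, h3, h4⟩ := h
  exact ⟨n, y, l, τ, h1, h2, fun q hq => (e q hq).trans (h3 q hq), h4⟩

theorem PFin_aux_vm (l : Lam) (g : GLw) : vm (vm l g) g⁻¹ = l := by
  rw [← vm_mul, mul_inv_cancel, vm_one]

theorem PFin_aux_vm' (l : Lam) (g : GLw) : vm (vm l g⁻¹) g = l := by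
  rw [← vm_mul, inv_mul_cancel, vm_one]

theorem PFin_aux_fr (H : Herm) (g : GLw) (q : Lam → ℝ) :
    H q = H.fr g fun l => q (vm l g⁻¹) := by
  simp only [fr_apply, PFin_aux_vm]

theorem PFin_aux_row (g h : GLw) (i : Fin 3) : (g * h).val i = vm (g.val i) h := by
  rw [← vm_single, ← vm_single, vm_mul]

theorem Decomp.of_fr {H : Herm} (g : GLw) (b : F3)
    (h : Decomp (H.fr g) fun p => a ((gbar g).mulVec p + b)) : Decomp H a := by
  obtain ⟨n, y, l, τ, h1, h2, h3, h4⟩ := h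
  refine ⟨n, y, fun j => vm (l j) g⁻¹, fun j => τ j + dotb (vm (l j) g⁻¹) b, h1, fun j => ?_,
    fun q hq => ?_, fun p => ?_⟩
  · obtain ⟨g', e⟩ := h2 j
    exact ⟨g' * g⁻¹, by rw [PFin_aux_row, e]⟩
  · rw [PFin_aux_fr H g, h3 _ (hq.comp_vm g⁻¹)]
  · obtain ⟨p, rfl⟩ := (aff_bij g b).2 p
    simpa only [dotb_add, ← dotb_vm, PFin_aux_vm', add_left_inj] using h4 p

theorem decomp3 {H : Herm} (hH : Adm H) (h : PP H a) : Decomp H a := by
  obtain ⟨g, ⟨c, hc, e⟩ | ⟨c, hc, e⟩⟩ := voronoi3 hH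
  · exact .of_fr g 0 ((decomp0 hc (fin0_of_pp ((h.fr g 0).congr fun q hq => (e q hq).symm))).congr e)
  · exact .of_fr g 0 ((decomp1 hc (fin1_of_pp ((h.fr g 0).congr fun q hq => (e q hq).symm))).congr e)

/-- Rank two: the part of `a` on the plane `p 2 = 0`. -/
theorem decomp2 {H : Herm} (hH : Adm H) (h : PP H a) :
    ∃ (n : ℕ) (y : Fin n → ℝ) (l : Fin n → Lam) (τ : Fin n → ZMod 3), (∀ j, 0 ≤ y j) ∧
      (∀ j, ∃ g : GLw, Blk g ∧ g.val 1 = l j) ∧
      (∀ q, IsQF q → (∀ l, q l = q (Function.update l 2 0)) → H q = ∑ j, y j * q (l j)) ∧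
      ∀ p, p 2 = 0 → a p ≤ ∑ j with dotb (l j) p = τ j, y j := by
  obtain ⟨g, hg, c, hc, e⟩ := voronoi2 hH
  have hF : Fin2 c fun p => if p 2 = 0 then a ((gbar g).mulVec p) else 0 := by
    refine ⟨fun p => ?_, fun p hp => if_neg hp, fun d b hd h2 => ?_⟩
    · dsimp only
      split_ifs
      exacts [h.1 _, le_rfl]
    by_cases hb : b 2 = 0
    swap
    · simpa [h2, hb] using Finset.sum_nonneg fun k _ => hc k
    obtain ⟨g', h3, h4, h5⟩ := test_f2 d hd h2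
    have h6 := (h.fr g 0).2 g' b
    rw [e _ (isQF_tf g') fun l => by simp [tf, h3.vm_update], Hc_apply] at h6
    simp only [mulVec_single_zero, h4, add_zero, tf, h5] at h6
    simpa [h2, hb, Finset.sum_filter] using h6
  obtain ⟨y, h1, h2, h3⟩ := cover2 hc hF
  refine PFin_aux_mk (ι := Fin 4 × ZMod 3) (R := fun l => ∃ g : GLw, Blk g ∧ g.val 1 = l)
    (fun j => y j.1 j.2) (fun j => vm (f2 j.1) g⁻¹) Prod.snd (fun j => h1 _ _) (fun j => ?_)
    (fun q hq hq' => ?_) fun p hp => ?_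
  · obtain ⟨g', h4, h5⟩ := row_f2 j.1
    exact ⟨g' * g⁻¹, h4.mul hg.inv, by rw [PFin_aux_row, h5]⟩
  · rw [PFin_aux_fr H g, e _ (hq.comp_vm g⁻¹) fun l => by rw [hg.inv.vm_update, ← hq'], Hc_apply,
      Fintype.sum_prod_type]
    simp only [← Finset.sum_mul, h2]
  · have h4 := h3 ((gbar g⁻¹).mulVec p)
    rw [if_pos (by
        simp only [Matrix.mulVec, dotProduct, gbar, Matrix.map_apply, (hg.inv _).1]
        simp [hp]),
      Matrix.mulVec_mulVec, ← gbar_mul, mul_inv_cancel, gbar_one, Matrix.one_mulVec] at h4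
    rw [Fintype.sum_prod_type]
    simpa [dotb_vm] using h4

end Pool.Agent.MP_95da86_ag

end

section

/-! The test inequalities imply nefness. -/

namespace Pool.Agent.MP_95da86_ag

theorem NefI_aux_dotb_single (i : Fin 3) (p : F3) : dotb (Pi.single i 1) p = p i := by
  unfold dotb
  rw [Finset.sum_eq_single i]
  · simp
  · intro j _ hj
    simp [Pi.single_eq_of_ne hj]
  · simp

theorem NefI_aux_bar_single (i : Fin 3) : ∃ j, bar ((Pi.single i 1 : Lam) j) ≠ 0 :=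
  ⟨i, by simp⟩

theorem NefI_aux_lam (l : Lam) :
    l = l 0 • (Pi.single 0 1 : Lam) + l 1 • (Pi.single 1 1 : Lam) + l 2 • (Pi.single 2 1 : Lam) := by
  funext i
  fin_cases i <;> simp

theorem NefI_aux_upd (l : Lam) :
    l = Function.update l 2 0 + l 2 • (Pi.single 2 1 : Lam) := by
  funext i
  fin_cases i <;> simp

/-- The case `q = 0`. -/
theorem NefI_aux_zero {H : Herm} {a : F3 → ℝ} (h : PP H a) {q : Lam → ℝ} {m : F3 → ℝ}
    (hc : CurveAx q m) (hq : ∀ l, q l = 0) : ∑ p, a p * m p ≤ H q := by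
  have e : q = 0 := funext hq
  have hm : ∀ p, m p ≤ 0 := by
    rcases hc.alt with h1 | h2
    · exact h1.2
    · exact fun p => (h2.2.1 hq p).le
  rw [e, map_zero]
  exact Finset.sum_nonpos fun p _ => mul_nonpos_of_nonneg_of_nonpos (h.1 p) (hm p)

/-- The second alternative holds when `q` does not vanish identically. -/
theorem NefI_aux_alt {q : Lam → ℝ} {m : F3 → ℝ} (hc : CurveAx q m) (hq : ¬ ∀ l, q l = 0) :
    (∀ p, 0 ≤ m p) ∧ ∀ l : Lam, (∃ i, bar (l i) ≠ 0) → ∃ τ₀, ∀ τ, τ ≠ τ₀ ∨ q l ≠ 0 →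
      ∑ p with dotb l p = τ, m p ≤ q l := by
  rcases hc.alt with h1 | h2
  · exact absurd h1.1 hq
  · exact ⟨h2.1, h2.2.2⟩

/-- Adding up the inequalities. -/
theorem NefI_aux_sum {a m : F3 → ℝ} {q : Lam → ℝ} {n : ℕ} (y : Fin n → ℝ) (l : Fin n → Lam)
    (τ : Fin n → ZMod 3) (hy : ∀ j, 0 ≤ y j) (hm : ∀ p, 0 ≤ m p)
    (hle : ∀ p, m p ≠ 0 → a p ≤ ∑ j with dotb (l j) p = τ j, y j)
    (hq : ∀ j, ∑ p with dotb (l j) p = τ j, m p ≤ q (l j)) :
    ∑ p, a p * m p ≤ ∑ j, y j * q (l j) := by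
  calc ∑ p, a p * m p ≤ ∑ p, (∑ j with dotb (l j) p = τ j, y j) * m p := by
        refine Finset.sum_le_sum fun p _ => ?_
        by_cases h0 : m p = 0
        · simp [h0]
        · exact mul_le_mul_of_nonneg_right (hle p h0) (hm p)
    _ = ∑ p, ∑ j, if dotb (l j) p = τ j then y j * m p else 0 := by
        refine Finset.sum_congr rfl fun p _ => ?_
        rw [Finset.sum_mul, Finset.sum_filter]
    _ = ∑ j, y j * ∑ p with dotb (l j) p = τ j, m p := by
        rw [Finset.sum_comm]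
        refine Finset.sum_congr rfl fun j _ => ?_
        rw [Finset.mul_sum, Finset.sum_filter]
    _ ≤ ∑ j, y j * q (l j) :=
        Finset.sum_le_sum fun j _ => mul_le_mul_of_nonneg_left (hq j) (hy j)

/-- An isotropic row confines the support of `m` to a plane. -/
theorem NefI_aux_supp {q : Lam → ℝ} {m : F3 → ℝ} (hc : CurveAx q m) (hq : ¬ ∀ l, q l = 0)
    {l : Lam} (hl : ∃ i, bar (l i) ≠ 0) (h0 : q l = 0) :
    ∃ τ₀, ∀ p, m p ≠ 0 → dotb l p = τ₀ := by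
  obtain ⟨hm, h2⟩ := NefI_aux_alt hc hq
  obtain ⟨τ₀, hτ⟩ := h2 l hl
  refine ⟨τ₀, fun p hp => ?_⟩
  by_contra hne
  have h1 := hτ (dotb l p) (Or.inl hne)
  rw [h0] at h1
  have h3 : m p ≤ ∑ p' with dotb l p' = dotb l p, m p' :=
    Finset.single_le_sum (f := m) (fun p' _ => hm p') (by simp)
  exact hp (le_antisymm (h3.trans h1) (hm p))

/-- Change of frame. -/
theorem NefI_aux_fr {H : Herm} {a : F3 → ℝ} {q : Lam → ℝ} {m : F3 → ℝ} (g : GLw) (b : F3)
    (h : ∑ p, a ((gbar g).mulVec p + b) * m ((gbar g).mulVec p + b) ≤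
      H.fr g fun l => q (vm l g⁻¹)) : ∑ p, a p * m p ≤ H q := by
  rw [fr_apply] at h
  have e : (fun l => q (vm (vm l g) g⁻¹)) = q := by
    funext l
    rw [← vm_mul, mul_inv_cancel, vm_one]
  rw [e] at h
  rwa [Function.Bijective.sum_comp (aff_bij g b) fun p => a p * m p] at h

theorem NefI_aux_dotb_row (g : GLw) (i : Fin 3) (p : F3) :
    dotb (g.val i) ((gbar g⁻¹).mulVec p) = p i := by
  rw [← dotb_vm, ← vm_single, ← vm_mul, mul_inv_cancel, vm_one, NefI_aux_dotb_single]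

theorem NefI_aux_blk_row {g : GLw} (hg : Blk g) : g.val 2 = Pi.single 2 1 := by
  funext i
  rw [(hg i).1, Pi.single_apply]

/-- Rank one. -/
theorem NefI_aux_one {H : Herm} {a : F3 → ℝ} (h : PP H a) {q : Lam → ℝ} {m : F3 → ℝ}
    (hc : CurveAx q m) (h1 : q (Pi.single 1 1) = 0) (h2 : q (Pi.single 2 1) = 0)
    (hs : ∀ p, m p ≠ 0 → p 1 = 0 ∧ p 2 = 0) : ∑ p, a p * m p ≤ H q := by
  have hq : ∀ l : Lam, q l = nm (l 0) * q (Pi.single 0 1) := fun l => by
    conv_lhs => rw [NefI_aux_lam l]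
    rw [hc.qf.radical hc.nonneg h2, hc.qf.radical hc.nonneg h1, hc.qf.smul]
  by_cases h0 : q (Pi.single 0 1) = 0
  · exact NefI_aux_zero h hc fun l => by rw [hq, h0, mul_zero]
  obtain ⟨hm, h3⟩ := NefI_aux_alt hc fun h' => h0 (h' _)
  obtain ⟨τ₀, hτ⟩ := h3 _ (NefI_aux_bar_single 0)
  have hle : ∀ p, m p ≤ q (Pi.single 0 1) := fun p =>
    (Finset.single_le_sum (f := m) (fun p' _ => hm p') (by simp)).trans
      (hτ (dotb (Pi.single 0 1) p) (Or.inr h0))
  have e : q = q (Pi.single 0 1) • tf 1 := by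
    funext l
    rw [Pi.smul_apply, smul_eq_mul, tf, vm_one, mul_comm]
    exact hq l
  have hp := h.2 1 0
  simp only [gbar_one, Matrix.one_mulVec, add_zero] at hp
  have hinj : Function.Injective fun τ : ZMod 3 => (Pi.single 0 τ : F3) := fun τ τ' e' => by
    simpa using congrFun e' 0
  calc ∑ p, a p * m p
      = ∑ p ∈ Finset.univ.image fun τ : ZMod 3 => (Pi.single 0 τ : F3), a p * m p := by
        refine (Finset.sum_subset (Finset.subset_univ _) fun p _ hp' => ?_).symm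
        by_cases hm0 : m p = 0
        · rw [hm0, mul_zero]
        · exfalso
          refine hp' (Finset.mem_image.2 ⟨p 0, Finset.mem_univ _, ?_⟩)
          obtain ⟨e1, e2⟩ := hs p hm0
          funext i
          fin_cases i <;> simp [e1, e2]
    _ = ∑ τ : ZMod 3, a (Pi.single 0 τ) * m (Pi.single 0 τ) :=
        Finset.sum_image fun τ _ τ' _ e' => hinj e'
    _ ≤ ∑ τ : ZMod 3, a (Pi.single 0 τ) * q (Pi.single 0 1) :=
        Finset.sum_le_sum fun τ _ => mul_le_mul_of_nonneg_left (hle _) (h.1 _)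
    _ = q (Pi.single 0 1) * ∑ τ : ZMod 3, a (Pi.single 0 τ) := by
        rw [← Finset.sum_mul, mul_comm]
    _ ≤ q (Pi.single 0 1) * H (tf 1) := mul_le_mul_of_nonneg_left hp (hc.nonneg _)
    _ = H q := by
        conv_rhs => rw [e]
        rw [map_smul, smul_eq_mul]

/-- Rank two. -/
theorem NefI_aux_two {H : Herm} {a : F3 → ℝ} (hH : Adm H) (h : PP H a) {q : Lam → ℝ} {m : F3 → ℝ}
    (hc : CurveAx q m) (h2 : q (Pi.single 2 1) = 0) (hs : ∀ p, m p ≠ 0 → p 2 = 0) :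
    ∑ p, a p * m p ≤ H q := by
  by_cases hq : ∀ l, q l = 0
  · exact NefI_aux_zero h hc hq
  obtain ⟨n, y, l, τ, hy, hl, hHq, ha⟩ := decomp2 hH h
  have hu : ∀ l : Lam, q l = q (Function.update l 2 0) := fun l => by
    conv_lhs => rw [NefI_aux_upd l]
    rw [hc.qf.radical hc.nonneg h2]
  have hbar : ∀ j, ∃ i, bar (l j i) ≠ 0 := fun j => by
    obtain ⟨g, -, e⟩ := hl j
    rw [← e]
    exact row_bar_ne g 1
  by_cases h0 : ∀ j, q (l j) ≠ 0
  · obtain ⟨hm, h3⟩ := NefI_aux_alt hc hq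
    rw [hHq q hc.qf hu]
    refine NefI_aux_sum y l τ hy hm (fun p hp => ha p (hs p hp)) fun j => ?_
    obtain ⟨τ₀, hτ⟩ := h3 _ (hbar j)
    exact hτ _ (Or.inr (h0 j))
  push Not at h0
  obtain ⟨j, hj⟩ := h0
  obtain ⟨τ₀, hτ⟩ := NefI_aux_supp hc hq (hbar j) hj
  obtain ⟨g, hg, e⟩ := hl j
  refine NefI_aux_fr g⁻¹ ((gbar g⁻¹).mulVec (Pi.single 1 τ₀)) ?_
  refine NefI_aux_one (h.fr g⁻¹ _) (hc.fr g⁻¹ _) ?_ ?_ fun p hp => ?_
  · rw [inv_inv, vm_single, e, hj]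
  · rw [inv_inv, vm_single, NefI_aux_blk_row hg, h2]
  · have e1 := hτ _ hp
    have e2 := hs _ hp
    rw [← Matrix.mulVec_add] at e1 e2
    rw [← e, NefI_aux_dotb_row] at e1
    have e3 := NefI_aux_dotb_row g 2 (p + Pi.single 1 τ₀)
    rw [NefI_aux_blk_row hg, NefI_aux_dotb_single, e2] at e3
    constructor
    · simpa using e1
    · simpa using e3.symm

/-- In the first alternative `H q = H 0 = 0`. Otherwise take `decomp3`; if no `q (l j)` vanishes,
add up. If `q (l j) = 0`, change the frame (`CurveAx.fr`, `PP.fr`, `Adm.fr`) so that `l j = e 2`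
and `τ₀ = 0`: then `q` does not depend on the last coordinate (`radical`) and `m` is supported on
`p 2 = 0`. Repeat with `decomp2`; in the last case `q l = nm (l 0) * q (e 0)`, so
`H q = q (e 0) * H (tf 1)`, `m` is supported on the line `p 1 = p 2 = 0`, and `m p ≤ q (e 0)`. -/
theorem nef_ineq {H : Herm} {a : F3 → ℝ} (hH : Adm H) (h : PP H a) {q : Lam → ℝ} {m : F3 → ℝ}
    (hc : CurveAx q m) : ∑ p, a p * m p ≤ H q := by
  by_cases hq : ∀ l, q l = 0
  · exact NefI_aux_zero h hc hq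
  obtain ⟨n, y, l, τ, hy, hl, hHq, ha⟩ := decomp3 hH h
  have hbar : ∀ j, ∃ i, bar (l j i) ≠ 0 := fun j => by
    obtain ⟨g, e⟩ := hl j
    rw [← e]
    exact row_bar_ne g 2
  by_cases h0 : ∀ j, q (l j) ≠ 0
  · obtain ⟨hm, h3⟩ := NefI_aux_alt hc hq
    rw [hHq q hc.qf]
    refine NefI_aux_sum y l τ hy hm (fun p _ => ha p) fun j => ?_
    obtain ⟨τ₀, hτ⟩ := h3 _ (hbar j)
    exact hτ _ (Or.inr (h0 j))
  push Not at h0
  obtain ⟨j, hj⟩ := h0
  obtain ⟨τ₀, hτ⟩ := NefI_aux_supp hc hq (hbar j) hj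
  obtain ⟨g, e⟩ := hl j
  refine NefI_aux_fr g⁻¹ ((gbar g⁻¹).mulVec (Pi.single 2 τ₀)) ?_
  refine NefI_aux_two (hH.fr g⁻¹) (h.fr g⁻¹ _) (hc.fr g⁻¹ _) ?_ fun p hp => ?_
  · rw [inv_inv, vm_single, e, hj]
  · have e1 := hτ _ hp
    rw [← Matrix.mulVec_add, ← e, NefI_aux_dotb_row] at e1
    simpa using e1

end Pool.Agent.MP_95da86_ag

end

section

/-! The cone theorem for the numerical data. -/

namespace Pool.Agent.MP_95da86_ag

variable {C : Type} (Γ : Geo C)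

/-- The class with data `(H, a)`. -/
def Geo.cls (H : Herm) (a : F3 → ℝ) (c : C) : ℝ := H (Γ.q c) - ∑ p, a p * Γ.m c p

/-- The effective nef cone. -/
def Geo.cone : Submodule NNReal (C → ℝ) :=
  Submodule.span NNReal Γ.Eff ⊓
    { carrier := {d | ∀ c, 0 ≤ d c}
      add_mem' := fun ha hb c => add_nonneg (ha c) (hb c)
      zero_mem' := fun _ => le_rfl
      smul_mem' := fun r _ hd c => mul_nonneg r.2 (hd c) }

theorem Geo.cls_comp (H : Herm) (a : F3 → ℝ) (g : GLw) (b : F3) : ∃ γ ∈ Γ.G,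
    Γ.cls H a ∘ γ = Γ.cls (H.fr g) fun p => a ((gbar g).mulVec p + b) := by
  obtain ⟨γ, hγ, h⟩ := Γ.aff g b
  refine ⟨γ, hγ, funext fun c => ?_⟩
  obtain ⟨h1, h2⟩ := h c
  have e1 : Γ.q (γ c) = fun l => Γ.q c (vm l g) := funext h1
  have e2 : ∑ p, a p * Γ.m (γ c) p = ∑ p, a ((gbar g).mulVec p + b) * Γ.m c p := by
    rw [← (aff_bij g b).sum_comp fun p => a p * Γ.m (γ c) p]
    exact Finset.sum_congr rfl fun p _ => by rw [h2]
  simp only [Function.comp_apply, Geo.cls, fr_apply, e1, e2]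

theorem AbsMain_aux_line (F : F3 → ℝ) (κ : ℝ) :
    ∑ p : F3, F p * (if p 1 = 0 ∧ p 2 = 0 then κ else 0) =
      κ * ∑ τ : ZMod 3, F (Pi.single 0 τ) := by
  have h1 : (Finset.univ.filter fun p : F3 => p 1 = 0 ∧ p 2 = 0) =
      Finset.univ.image fun τ : ZMod 3 => (Pi.single 0 τ : F3) := by decide +kernel
  have h2 : Function.Injective fun τ : ZMod 3 => (Pi.single 0 τ : F3) :=
    Pi.single_injective (M := fun _ : Fin 3 => ZMod 3) 0
  simp only [mul_ite, mul_zero]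
  rw [← Finset.sum_filter, h1, Finset.sum_image fun x _ y _ h => h2 h, Finset.mul_sum]
  exact Finset.sum_congr rfl fun τ _ => mul_comm _ _

theorem AbsMain_aux_tf (H : Herm) (g : GLw) {q : Lam → ℝ} {κ : ℝ}
    (hq : ∀ l, q l = κ * nm (l 0)) : H.fr g q = κ * H (tf g) := by
  rw [fr_apply]
  have : (fun l => q (vm l g)) = κ • tf g := funext fun l => by
    rw [hq]; rfl
  rw [this, map_smul, smul_eq_mul]

/-- From `test1`, `test2` and `cls_comp`. -/
theorem Geo.pp_of_nef {H : Herm} {a : F3 → ℝ} (h : ∀ c, 0 ≤ Γ.cls H a c) : PP H a := by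
  refine ⟨fun p => ?_, fun g b => ?_⟩
  · obtain ⟨c, κ, hκ, h1, h2⟩ := Γ.test2 p
    have h3 := h c
    have e1 : Γ.q c = 0 := funext h1
    simp only [Geo.cls, e1, map_zero, h2, mul_ite, mul_zero, Finset.sum_ite_eq', Finset.mem_univ,
      if_true] at h3
    by_contra hn
    push Not at hn
    nlinarith
  · obtain ⟨γ, -, hγ⟩ := Γ.cls_comp H a g b
    obtain ⟨c, κ, hκ, h1, h2⟩ := Γ.test1
    have h3 := h (γ c)
    have h4 := congrFun hγ c
    rw [Function.comp_apply] at h4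
    rw [h4] at h3
    simp only [Geo.cls, h2] at h3
    rw [AbsMain_aux_line (fun p => a ((gbar g).mulVec p + b)) κ, AbsMain_aux_tf H g h1,
      ← mul_sub] at h3
    have h5 := nonneg_of_mul_nonneg_right h3 hκ
    linarith

theorem AbsMain_aux_adm_zero : Adm 0 :=
  ⟨0, Fin.elim0, Fin.elim0, fun i => i.elim0, fun q _ => by simp, fun i => i.elim0⟩

theorem AbsMain_aux_adm_add {H H' : Herm} (h : Adm H) (h' : Adm H') : Adm (H + H') := by
  obtain ⟨n, r, Hi, h1, h2, h3⟩ := h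
  obtain ⟨n', r', Hi', h1', h2', h3'⟩ := h'
  refine ⟨n + n', Fin.append r r', Fin.append Hi Hi', ?_, ?_, ?_⟩
  · intro i
    refine Fin.addCases (fun i => ?_) (fun i => ?_) i
    · rw [Fin.append_left]; exact h1 i
    · rw [Fin.append_right]; exact h1' i
  · intro q hq
    rw [Fin.sum_univ_add, LinearMap.add_apply, h2 q hq, h2' q hq]
    simp only [Fin.append_left, Fin.append_right]
  · intro i
    refine Fin.addCases (fun i => ?_) (fun i => ?_) i
    · rw [Fin.append_left]; exact h3 i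
    · rw [Fin.append_right]; exact h3' i

theorem AbsMain_aux_adm_smul {H : Herm} (h : Adm H) {t : ℝ} (ht : 0 ≤ t) : Adm (t • H) := by
  obtain ⟨n, r, Hi, h1, h2, h3⟩ := h
  refine ⟨n, fun i => t * r i, Hi, fun i => mul_nonneg ht (h1 i), ?_, h3⟩
  intro q hq
  rw [LinearMap.smul_apply, h2 q hq, smul_eq_mul, Finset.mul_sum]
  exact Finset.sum_congr rfl fun i _ => (mul_assoc _ _ _).symm

theorem AbsMain_aux_cls_add (H H' : Herm) (a a' : F3 → ℝ) :
    Γ.cls (H + H') (a + a') = Γ.cls H a + Γ.cls H' a' := by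
  funext c
  simp only [Geo.cls, LinearMap.add_apply, Pi.add_apply, add_mul, Finset.sum_add_distrib]
  ring

theorem AbsMain_aux_cls_smul (t : ℝ) (H : Herm) (a : F3 → ℝ) :
    Γ.cls (t • H) (t • a) = t • Γ.cls H a := by
  funext c
  simp only [Geo.cls, LinearMap.smul_apply, Pi.smul_apply, smul_eq_mul, mul_sub, Finset.mul_sum,
    mul_assoc]

theorem AbsMain_aux_eff {d : C → ℝ} (hd : d ∈ Γ.Eff) : ∃ H a, Adm H ∧ d = Γ.cls H a := by
  obtain ⟨N, n, l, a, hN, h⟩ := Γ.gen d (Γ.eff_sub d hd)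
  have hN' : (0 : ℝ) < N := Nat.cast_pos.2 hN
  have hd0 : d = Γ.cls ((N : ℝ)⁻¹ • Hc l fun j => (n j : ℝ)) ((N : ℝ)⁻¹ • fun p => (a p : ℝ)) := by
    rw [AbsMain_aux_cls_smul]
    funext c
    rw [Pi.smul_apply, Geo.cls, Hc_apply, ← h c, smul_eq_mul, ← mul_assoc,
      inv_mul_cancel₀ hN'.ne', one_mul]
  refine ⟨_, _, ?_, hd0⟩
  refine AbsMain_aux_adm_smul ?_ (inv_nonneg.2 hN'.le)
  refine ⟨1, fun _ => 1, fun _ => Hc l fun j => (n j : ℝ), fun _ => zero_le_one,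
    fun q _ => by simp, fun _ => ⟨fun g => ?_, fun q _ hq => ?_⟩⟩
  · obtain ⟨γ, hγ, e⟩ := Γ.cls_comp ((N : ℝ)⁻¹ • Hc l fun j => (n j : ℝ))
      ((N : ℝ)⁻¹ • fun p => (a p : ℝ)) g 0
    rw [← hd0] at e
    obtain ⟨c, κ, hκ, h1, h2, h3⟩ := Γ.test3 _ (Γ.G_eff γ hγ d hd)
    rw [e] at h3
    simp only [Geo.cls, h2, mul_zero, Finset.sum_const_zero, sub_zero] at h3
    rw [AbsMain_aux_tf _ g h1, LinearMap.smul_apply, smul_eq_mul] at h3
    exact nonneg_of_mul_nonneg_right (nonneg_of_mul_nonneg_right h3 hκ) (inv_pos.2 hN')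
  · choose z hz using hq
    refine ⟨∑ j, n j * z (l j), ?_⟩
    rw [Hc_apply]
    push_cast
    exact Finset.sum_congr rfl fun j _ => by rw [hz]

/-- From `gen`, `test3` (applied to `d ∘ γ`) and `cls_comp`. -/
theorem Geo.adm_of_eff {d : C → ℝ} (hd : d ∈ Submodule.span NNReal Γ.Eff) :
    ∃ H a, Adm H ∧ d = Γ.cls H a := by
  induction hd using Submodule.span_induction with
  | mem x hx => exact AbsMain_aux_eff Γ hx
  | zero =>
    refine ⟨0, 0, AbsMain_aux_adm_zero, funext fun c => ?_⟩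
    simp [Geo.cls]
  | add x y _ _ hx hy =>
    obtain ⟨H, a, h1, rfl⟩ := hx
    obtain ⟨H', a', h1', rfl⟩ := hy
    exact ⟨H + H', a + a', AbsMain_aux_adm_add h1 h1', (AbsMain_aux_cls_add Γ H H' a a').symm⟩
  | smul t x _ hx =>
    obtain ⟨H, a, h1, rfl⟩ := hx
    exact ⟨(t : ℝ) • H, (t : ℝ) • a, AbsMain_aux_adm_smul h1 t.2,
      (AbsMain_aux_cls_smul Γ t H a).symm⟩

theorem AbsMain_aux_smul_mem {V : Type} [AddCommGroup V] [Module ℝ V] (A : Submodule NNReal V)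
    {t : ℝ} (ht : 0 ≤ t) {x : V} (hx : x ∈ A) : t • x ∈ A :=
  A.smul_mem (⟨t, ht⟩ : NNReal) hx

theorem Geo.mem_cone {H : Herm} {a : F3 → ℝ} (hH : Adm H) (h : PP H a) : Γ.cls H a ∈ Γ.cone := by
  refine ⟨?_, fun c => sub_nonneg.2 (nef_ineq hH h (Γ.ax c))⟩
  obtain ⟨n, y, l, τ, hy, hl, h1, h2⟩ := decomp3 hH h
  have e : Γ.cls H a = ∑ j, y j • (fun c => Γ.q c (l j) - ∑ p with dotb (l j) p = τ j, Γ.m c p) +
      ∑ p, (∑ j with dotb (l j) p = τ j, y j - a p) • fun c => Γ.m c p := by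
    funext c
    have e1 : ∑ j, y j * ∑ p with dotb (l j) p = τ j, Γ.m c p =
        ∑ p, (∑ j with dotb (l j) p = τ j, y j) * Γ.m c p := by
      simp only [Finset.sum_filter, Finset.mul_sum, Finset.sum_mul]
      rw [Finset.sum_comm]
      refine Finset.sum_congr rfl fun p _ => Finset.sum_congr rfl fun j _ => ?_
      split_ifs <;> simp
    simp only [Geo.cls, h1 _ (Γ.ax c).qf, Pi.add_apply, Finset.sum_apply, Pi.smul_apply,
      smul_eq_mul, mul_sub, sub_mul, Finset.sum_sub_distrib, e1]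
    ring
  rw [e]
  refine Submodule.add_mem _ (Submodule.sum_mem _ fun j _ => ?_) (Submodule.sum_mem _ fun p _ => ?_)
  · refine AbsMain_aux_smul_mem _ (hy j) (Submodule.subset_span (Γ.s_mem _ _ ?_))
    obtain ⟨g, hg⟩ := hl j
    rw [← hg]
    exact row_bar_ne g 2
  · exact AbsMain_aux_smul_mem _ (sub_nonneg.2 (h2 p)) (Submodule.subset_span (Γ.e_mem p))

theorem AbsMain_aux_orth {ι κ : Type} [Fintype ι] [Finite κ] (φ : κ → (ι → ℝ) →ₗ[ℝ] ℝ)
    (hφ : ∀ i (x : ι → ℝ), (∀ j, ∃ z : ℤ, x j = z) → ∃ z : ℤ, φ i x = z) :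
    ∃ S : Finset (ι → ℝ), (∀ x ∈ S, ∀ j, ∃ z : ℤ, x j = z) ∧ ∀ x,
      x ∈ Submodule.span NNReal (S : Set (ι → ℝ)) ↔ (∀ j, 0 ≤ x j) ∧ ∀ i, 0 ≤ φ i x := by
  classical
  let Λ : AddSubgroup (ι → ℝ) :=
    { carrier := {x | ∀ j, ∃ z : ℤ, x j = z}
      add_mem' := by
        intro x y hx hy j
        obtain ⟨z, hz⟩ := hx j
        obtain ⟨w, hw⟩ := hy j
        exact ⟨z + w, by rw [Pi.add_apply, hz, hw]; push_cast; rfl⟩
      zero_mem' := fun _ => ⟨0, by simp⟩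
      neg_mem' := by
        intro x hx j
        obtain ⟨z, hz⟩ := hx j
        exact ⟨-z, by rw [Pi.neg_apply, hz]; push_cast; rfl⟩ }
  obtain ⟨S, hS, h⟩ := dd_fin Λ (Finset.univ.image fun j : ι => (Pi.single j 1 : ι → ℝ)) (by
    intro x hx j
    obtain ⟨i, -, rfl⟩ := Finset.mem_image.1 hx
    by_cases e : j = i
    · exact ⟨1, by simp [e]⟩
    · exact ⟨0, by simp [e]⟩) φ hφ
  refine ⟨S, hS, fun x => ?_⟩
  rw [h]
  refine and_congr_left' ⟨fun hx => ?_, fun hx => ?_⟩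
  · induction hx using Submodule.span_induction with
    | mem x hx =>
      obtain ⟨i, -, rfl⟩ := Finset.mem_image.1 (Finset.mem_coe.1 hx)
      intro j
      by_cases e : j = i <;> simp [e]
    | zero => exact fun _ => le_rfl
    | add x y _ _ hx hy => exact fun j => add_nonneg (hx j) (hy j)
    | smul t x _ hx => exact fun j => mul_nonneg t.2 (hx j)
  · have e : x = ∑ j, x j • (Pi.single j 1 : ι → ℝ) := by
      funext i
      simp [Finset.sum_apply, Pi.single_apply]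
    rw [e]
    refine Submodule.sum_mem _ fun j _ => AbsMain_aux_smul_mem _ (hx j) (Submodule.subset_span ?_)
    exact Finset.mem_coe.2 (Finset.mem_image.2 ⟨j, Finset.mem_univ _, rfl⟩)

theorem AbsMain_aux_sys {n : ℕ} (f : Fin n → Lam) (P : F3 → Prop) [DecidablePred P]
    (Q : F3 → Fin n → Prop) :
    ∃ S : Finset (Fin n ⊕ F3 → ℝ), (∀ x ∈ S, ∀ j, ∃ z : ℤ, x j = z) ∧ ∀ x,
      x ∈ Submodule.span NNReal (S : Set (Fin n ⊕ F3 → ℝ)) ↔ (∀ k, 0 ≤ x (Sum.inl k)) ∧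
        (∀ p, 0 ≤ x (Sum.inr p)) ∧ ∀ (d b : F3) (k₀ : Fin n), Q d k₀ →
          ∑ τ : ZMod 3, x (Sum.inr (τ • d + b)) ≤
            ∑ k with dotb (f k) d ≠ 0, x (Sum.inl k) + if P d then 3 * x (Sum.inl k₀) else 0 := by
  let φ : {t : F3 × F3 × Fin n // Q t.1 t.2.2} → (Fin n ⊕ F3 → ℝ) →ₗ[ℝ] ℝ := fun t =>
    (∑ k with dotb (f k) t.1.1 ≠ 0, LinearMap.proj (Sum.inl k) +
      if P t.1.1 then (3 : ℝ) • LinearMap.proj (Sum.inl t.1.2.2) else 0) -
      ∑ τ : ZMod 3, LinearMap.proj (Sum.inr (τ • t.1.1 + t.1.2.1))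
  have hφ : ∀ t x, φ t x = (∑ k with dotb (f k) t.1.1 ≠ 0, x (Sum.inl k) +
      if P t.1.1 then 3 * x (Sum.inl t.1.2.2) else 0) -
      ∑ τ : ZMod 3, x (Sum.inr (τ • t.1.1 + t.1.2.1)) := by
    intro t x
    simp only [φ, LinearMap.sub_apply, LinearMap.add_apply, LinearMap.sum_apply,
      LinearMap.proj_apply]
    split_ifs <;> simp
  obtain ⟨S, hS, h⟩ := AbsMain_aux_orth φ (by
    intro t x hx
    choose z hz using hx
    refine ⟨(∑ k with dotb (f k) t.1.1 ≠ 0, z (Sum.inl k) +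
      if P t.1.1 then 3 * z (Sum.inl t.1.2.2) else 0) -
      ∑ τ : ZMod 3, z (Sum.inr (τ • t.1.1 + t.1.2.1)), ?_⟩
    rw [hφ]
    simp only [hz]
    push_cast
    rfl)
  refine ⟨S, hS, fun x => ?_⟩
  rw [h]
  constructor
  · rintro ⟨h1, h2⟩
    refine ⟨fun k => h1 _, fun p => h1 _, fun d b k₀ hq => ?_⟩
    have h3 := h2 ⟨(d, b, k₀), hq⟩
    rw [hφ] at h3
    exact sub_nonneg.1 h3
  · rintro ⟨h1, h2, h3⟩
    refine ⟨fun j => ?_, fun t => ?_⟩
    · rcases j with k | p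
      · exact h1 k
      · exact h2 p
    · rw [hφ]
      exact sub_nonneg.2 (h3 _ _ _ t.2)

theorem AbsMain_aux_U {n : ℕ} (f : Fin n → Lam) (Fn : (Fin n → ℝ) → (F3 → ℝ) → Prop)
    (S : Finset (Fin n ⊕ F3 → ℝ)) (hS : ∀ x ∈ S, ∀ j, ∃ z : ℤ, x j = z)
    (h : ∀ x, x ∈ Submodule.span NNReal (S : Set (Fin n ⊕ F3 → ℝ)) ↔
      (∀ k, 0 ≤ x (Sum.inl k)) ∧ Fn (fun k => x (Sum.inl k)) fun p => x (Sum.inr p))
    (hpp : ∀ c a, (∀ k, 0 ≤ c k) → Fn c a → PP (Hc f c) a) :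
    ∃ U : Finset (C → ℝ), (∀ u ∈ U, u ∈ Γ.Cart ∧ u ∈ Γ.cone) ∧ ∀ c a, (∀ k, 0 ≤ c k) → Fn c a →
      Γ.cls (Hc f c) a ∈ Submodule.span NNReal (U : Set (C → ℝ)) := by
  classical
  let T : (Fin n ⊕ F3 → ℝ) → C → ℝ := fun x =>
    Γ.cls (Hc f fun k => x (Sum.inl k)) fun p => x (Sum.inr p)
  have hT : ∀ x, T x = ∑ k, x (Sum.inl k) • (fun c => Γ.q c (f k)) -
      ∑ p, x (Sum.inr p) • fun c => Γ.m c p := by
    intro x
    funext c
    simp only [T, Geo.cls, Hc_apply, Pi.sub_apply, Finset.sum_apply, Pi.smul_apply, smul_eq_mul]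
  refine ⟨S.image T, ?_, ?_⟩
  · intro u hu
    obtain ⟨x, hx, rfl⟩ := Finset.mem_image.1 hu
    obtain ⟨h1, h2⟩ := (h x).1 (Submodule.subset_span hx)
    refine ⟨?_, Γ.mem_cone (adm_Hc f _ h1) (hpp _ _ h1 h2)⟩
    rw [hT]
    choose z hz using hS x hx
    refine Γ.Cart.sub_mem (Γ.Cart.sum_mem fun k _ => ?_) (Γ.Cart.sum_mem fun p _ => ?_)
    · rw [hz, Int.cast_smul_eq_zsmul]
      exact Γ.Cart.zsmul_mem (Γ.z_mem _) _
    · rw [hz, Int.cast_smul_eq_zsmul]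
      exact Γ.Cart.zsmul_mem (Γ.eff_sub _ (Γ.e_mem p)) _
  · intro c a hc hF
    have hx : Sum.elim c a ∈ Submodule.span NNReal (S : Set (Fin n ⊕ F3 → ℝ)) :=
      (h _).2 ⟨hc, hF⟩
    have key : ∀ x ∈ Submodule.span NNReal (S : Set (Fin n ⊕ F3 → ℝ)),
        T x ∈ Submodule.span NNReal ((S.image T : Finset (C → ℝ)) : Set (C → ℝ)) := by
      intro x hx
      induction hx using Submodule.span_induction with
      | mem x hx =>
        exact Submodule.subset_span (Finset.mem_coe.2 (Finset.mem_image_of_mem T hx))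
      | zero =>
        have e : T 0 = 0 := by rw [hT]; simp
        rw [e]; exact Submodule.zero_mem _
      | add x y _ _ hx hy =>
        have e : T (x + y) = T x + T y := by
          simp only [hT, Pi.add_apply, add_smul, Finset.sum_add_distrib]
          abel
        rw [e]; exact Submodule.add_mem _ hx hy
      | smul t x _ hx =>
        have e : T (t • x) = (t : ℝ) • T x := by
          simp only [hT, Pi.smul_apply, smul_sub, Finset.smul_sum, smul_smul, NNReal.smul_def,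
            smul_eq_mul]
        rw [e]; exact AbsMain_aux_smul_mem _ t.2 hx
    exact key _ hx

theorem AbsMain_aux_dir : ∀ d : F3, d ≠ 0 → (∃ k, dotb (f1 k) d ≠ 0) ∨ (d 0 = 0 ∧ d 1 = 0) := by
  decide +kernel

theorem AbsMain_aux_fin1 (p : F3) : Fin1 (fun _ => 3) (Pi.single p 1) := by
  have h0 : ∀ p' : F3, 0 ≤ (Pi.single p 1 : F3 → ℝ) p' := fun p' => by
    by_cases e : p' = p <;> simp [e]
  have h1 : ∀ p' : F3, (Pi.single p 1 : F3 → ℝ) p' ≤ 1 := fun p' => by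
    by_cases e : p' = p <;> simp [e]
  refine ⟨h0, fun d b k₀ hd => ?_⟩
  have h2 : ∑ τ : ZMod 3, (Pi.single p 1 : F3 → ℝ) (τ • d + b) ≤ 3 := by
    refine (Finset.sum_le_sum fun τ _ => h1 _).trans ?_
    simp
  refine h2.trans ?_
  have h3 : (0 : ℝ) ≤ ∑ k with dotb (f1 k) d ≠ 0, (3 : ℝ) :=
    Finset.sum_nonneg fun _ _ => by norm_num
  rcases AbsMain_aux_dir d hd with ⟨k, hk⟩ | hk
  · have h4 : (3 : ℝ) ≤ ∑ k with dotb (f1 k) d ≠ 0, (3 : ℝ) :=
      Finset.single_le_sum (f := fun _ => (3 : ℝ)) (fun _ _ => by norm_num)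
        (Finset.mem_filter.2 ⟨Finset.mem_univ k, hk⟩)
    split_ifs <;> linarith
  · rw [if_pos hk]
    linarith

theorem AbsMain_aux_fin1z (c : Fin 9 → ℝ) (hc : ∀ k, 0 ≤ c k) : Fin1 c 0 := by
  refine ⟨fun _ => le_rfl, fun d b k₀ _ => ?_⟩
  have h3 : (0 : ℝ) ≤ ∑ k with dotb (f1 k) d ≠ 0, c k := Finset.sum_nonneg fun k _ => hc k
  have h4 := hc k₀
  simp only [Pi.zero_apply, Finset.sum_const_zero]
  split_ifs <;> linarith

theorem AbsMain_aux_le {V : Type} [AddCommGroup V] [Module ℝ V] (s : Set V) {x : V}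
    (hx : x ∈ Submodule.span NNReal s) : x ∈ Submodule.span ℝ s :=
  Submodule.span_le_restrictScalars NNReal ℝ s hx

/-- The cones of `Fin0`, `Fin1` in `(c, a)`-space are finitely generated by integral points
(`dd_fin`, starting from the orthant); add the points `(e k, 0)` and `(1, e p)` of type 1, which
span. -/
theorem Geo.exists_U : ∃ U : Finset (C → ℝ), (∀ u ∈ U, u ∈ Γ.Cart ∧ u ∈ Γ.cone) ∧
    (∀ d ∈ Γ.Cart, d ∈ Submodule.span ℝ (U : Set (C → ℝ))) ∧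
    ∀ d ∈ Γ.cone, ∃ g ∈ Γ.G, d ∘ g ∈ Submodule.span NNReal (U : Set (C → ℝ)) := by
  classical
  obtain ⟨S0, hS0, h0⟩ := AbsMain_aux_sys f0 (fun d => d 2 = 0)
    fun d k₀ => d ≠ 0 ∧ (d 2 = 0 → dotb (f0 k₀) d = 0)
  obtain ⟨S1, hS1, h1⟩ := AbsMain_aux_sys f1 (fun d => d 0 = 0 ∧ d 1 = 0) fun d _ => d ≠ 0
  obtain ⟨U0, hU0, k0⟩ := AbsMain_aux_U Γ f0 Fin0 S0 hS0 (fun x => by
    rw [h0]
    refine and_congr_right' (and_congr_right' ?_)
    exact ⟨fun h d b k₀ a1 a2 => h d b k₀ ⟨a1, a2⟩, fun h d b k₀ a1 => h d b k₀ a1.1 a1.2⟩)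
    fun c a hc h => pp_of_fin0 hc h
  obtain ⟨U1, hU1, k1⟩ := AbsMain_aux_U Γ f1 Fin1 S1 hS1 (fun x => by rw [h1]; rfl)
    fun c a hc h => pp_of_fin1 hc h
  have hs0 : (U0 : Set (C → ℝ)) ⊆ ((U0 ∪ U1 : Finset (C → ℝ)) : Set (C → ℝ)) :=
    Finset.coe_subset.2 Finset.subset_union_left
  have hs1 : (U1 : Set (C → ℝ)) ⊆ ((U0 ∪ U1 : Finset (C → ℝ)) : Set (C → ℝ)) :=
    Finset.coe_subset.2 Finset.subset_union_right
  refine ⟨U0 ∪ U1, ?_, ?_, ?_⟩
  · intro u hu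
    rcases Finset.mem_union.1 hu with hu | hu
    · exact hU0 u hu
    · exact hU1 u hu
  · intro d hd
    refine Submodule.span_mono hs1 ?_
    set W := Submodule.span ℝ (U1 : Set (C → ℝ)) with hW
    have hz : ∀ c : Fin 9 → ℝ, (∀ k, 0 ≤ c k) → (fun x => ∑ k, c k * Γ.q x (f1 k)) ∈ W := by
      intro c hc
      have h2 := AbsMain_aux_le _ (k1 c 0 hc (AbsMain_aux_fin1z c hc))
      have e : Γ.cls (Hc f1 c) 0 = fun x => ∑ k, c k * Γ.q x (f1 k) := by
        funext x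
        simp [Geo.cls, Hc_apply]
      rwa [e] at h2
    have hz1 : ∀ k, (fun x => Γ.q x (f1 k)) ∈ W := by
      intro k
      have h2 := hz (Pi.single k 1) fun j => by by_cases e : j = k <;> simp [e]
      simpa [Pi.single_apply] using h2
    have hq : ∀ l, (fun x => Γ.q x l) ∈ W := by
      intro l
      obtain ⟨c, hc⟩ := exists_coef1 l
      have e : (fun x => Γ.q x l) = ∑ k, c k • fun x => Γ.q x (f1 k) := by
        funext x
        rw [hc _ (Γ.ax x).qf]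
        simp [Finset.sum_apply]
      rw [e]
      exact W.sum_mem fun k _ => W.smul_mem _ (hz1 k)
    have hm : ∀ p, (fun x => Γ.m x p) ∈ W := by
      intro p
      have h2 := AbsMain_aux_le _ (k1 _ _ (fun _ => by norm_num) (AbsMain_aux_fin1 p))
      have h3 := W.sub_mem (hz (fun _ => 3) fun _ => by norm_num) h2
      have e : (fun x => ∑ k, (3 : ℝ) * Γ.q x (f1 k)) -
          Γ.cls (Hc f1 fun _ => 3) (Pi.single p 1) = fun x => Γ.m x p := by
        funext x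
        simp [Geo.cls, Hc_apply, Pi.single_apply]
      rwa [e] at h3
    obtain ⟨N, n, l, a, hN, h⟩ := Γ.gen d hd
    have hN' : (N : ℝ) ≠ 0 := Nat.cast_ne_zero.2 hN.ne'
    have e : d = (N : ℝ)⁻¹ • (∑ j, (n j : ℝ) • (fun x => Γ.q x (l j)) -
        ∑ p, (a p : ℝ) • fun x => Γ.m x p) := by
      funext x
      simp only [Pi.smul_apply, Pi.sub_apply, Finset.sum_apply, smul_eq_mul]
      rw [← h x, ← mul_assoc, inv_mul_cancel₀ hN', one_mul]
    rw [e]
    exact W.smul_mem _ (W.sub_mem (W.sum_mem fun j _ => W.smul_mem _ (hq _))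
      (W.sum_mem fun p _ => W.smul_mem _ (hm p)))
  · intro d hd
    obtain ⟨H, a, hH, rfl⟩ := Γ.adm_of_eff hd.1
    have hpp := Γ.pp_of_nef hd.2
    obtain ⟨g, hg⟩ := voronoi3 hH
    obtain ⟨γ, hγ, e⟩ := Γ.cls_comp H a g 0
    refine ⟨γ, hγ, ?_⟩
    rw [e]
    have hpp' := hpp.fr g 0
    have hcongr : ∀ H' : Herm, (∀ q, IsQF q → H.fr g q = H' q) →
        ∀ a', Γ.cls (H.fr g) a' = Γ.cls H' a' := by
      intro H' h a'
      funext x
      simp only [Geo.cls, h _ (Γ.ax x).qf]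
    rcases hg with ⟨c, hc, h⟩ | ⟨c, hc, h⟩
    · rw [hcongr _ h]
      exact Submodule.span_mono hs0
        (k0 c _ hc (fin0_of_pp (hpp'.congr fun q hq => (h q hq).symm)))
    · rw [hcongr _ h]
      exact Submodule.span_mono hs1
        (k1 c _ hc (fin1_of_pp (hpp'.congr fun q hq => (h q hq).symm)))

theorem Geo.main : ∃ S : Finset (C → ℝ), (∀ d ∈ S, d ∈ Γ.Cart) ∧
    (∀ d, d ∈ Γ.cone ↔ ∃ g ∈ Γ.G, ∃ e ∈ Submodule.span NNReal (S : Set (C → ℝ)), d = e ∘ g) ∧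
    ∀ g ∈ Γ.G, (∃ d ∈ Submodule.span ℝ (Γ.Cart : Set (C → ℝ)), d ∘ g ≠ d) → ∀ x,
      Absorb (Submodule.span ℝ (Γ.Cart : Set (C → ℝ))) (Submodule.span NNReal (S : Set (C → ℝ))) x →
      ¬ Absorb (Submodule.span ℝ (Γ.Cart : Set (C → ℝ)))
        {d | ∃ e ∈ Submodule.span NNReal (S : Set (C → ℝ)), d = e ∘ g} x := by
  obtain ⟨U, hU, hspan, hcov⟩ := Γ.exists_U
  refine dirichlet Γ.Cart Γ.int Γ.G Γ.G_cart Γ.cone (fun d hd => hd.2) ?_ U hU hspan hcov
  intro g hg d hd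
  refine ⟨?_, fun c => hd.2 (g c)⟩
  have h1 : d ∈ Submodule.span NNReal Γ.Eff := hd.1
  clear hd
  induction h1 using Submodule.span_induction with
  | mem x hx => exact Submodule.subset_span (Γ.G_eff g hg x hx)
  | zero => exact Submodule.zero_mem _
  | add x y _ _ hx hy => exact Submodule.add_mem _ hx hy
  | smul t x _ hx => exact Submodule.smul_mem _ t hx

end Pool.Agent.MP_95da86_ag

end

section

/-! Assembly. -/

namespace Pool.Agent.MP_95da86_ag

variable {L : Type} [Field L] [Algebra ℂ L] {P : Fin 3 → EP L} {σ : L ≃ₐ[ℂ] L}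

/-- The numerical data of the threefold. -/
noncomputable def Cfg.geo (h : Cfg P σ) : Geo (Curve (XP P σ)) where
  Cart := h.cart
  Eff := effClasses (XP P σ)
  G := autG (XP P σ)
  q := qX P σ
  m := mX P σ
  int := by rintro d ⟨f, -, hf⟩ c; exact ⟨_, hf c⟩
  eff_sub := by rintro d ⟨f, hf, -, hd⟩; exact ⟨f, hf, hd⟩
  G_cart g hg d hd := classes_comp hg hd
  G_eff g hg d hd := effClasses_comp hg hd
  ax := h.curveAx
  gen := h.gen_classes
  z_mem := h.z_mem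
  e_mem := h.e_mem
  s_mem := h.s_mem
  aff := h.aff
  test1 := h.test1
  test2 := h.test2
  test3 := h.test3

theorem Final_aux_absorb {C : Type} (N : Submodule ℝ (C → ℝ)) (A : Set N) (B : Set (C → ℝ))
    (hAB : ∀ a ∈ A, a.1 ∈ B) (x : N) (hx : x ∈ interior A) : Absorb N B x.1 := by
  intro v hv
  have hc : Continuous fun ε : ℝ => x + ε • (⟨v, hv⟩ : N) := by fun_prop
  have h0 : ∀ᶠ ε in nhds (0 : ℝ), x + ε • (⟨v, hv⟩ : N) ∈ A := by
    apply hc.continuousAt.preimage_mem_nhds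
    simpa using mem_interior_iff_mem_nhds.1 hx
  have h1 : ∀ᶠ ε in nhdsWithin (0 : ℝ) (Set.Ioi 0), x + ε • (⟨v, hv⟩ : N) ∈ A :=
    h0.filter_mono nhdsWithin_le_nhds
  obtain ⟨ε, hε, hε'⟩ := (h1.and self_mem_nhdsWithin).exists
  exact ⟨ε, hε', hAB _ hε⟩

theorem Final_aux_span {C : Type} (N : Submodule ℝ (C → ℝ)) (S : Set N) (d : C → ℝ) :
    d ∈ Submodule.span NNReal (Subtype.val '' S) ↔ ∃ e ∈ Submodule.span NNReal S, e.1 = d := by
  have h := Submodule.map_span (N.subtype.restrictScalars NNReal) S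
  have h' : (N.subtype.restrictScalars NNReal) '' S = Subtype.val '' S := rfl
  rw [h'] at h
  rw [← h, Submodule.mem_map]
  rfl

/-- Translation of the abstract statement for any model: lift `S` to the subtype `N1 Y`
(`Submodule.map_span` along the inclusion), use `pull_iff`, and note that an interior point is
absorbing by continuity of `ε ↦ x + ε • v`. -/
theorem cone_of_geo {M : Type} [Field M] [Algebra ℂ M] {Y : Set (Pt M)} (Γ : Geo (Curve Y))
    (h1 : (Γ.Cart : Set (Curve Y → ℝ)) = classes Y) (h2 : Γ.Eff = effClasses Y) (h3 : Γ.G = autG Y) :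
    ∃ S : Finset (N1 Y), (∀ d ∈ S, d.1 ∈ classes Y) ∧
      nefEff Y = ⋃ g ∈ {g | IsAut Y g},
        {e | ∃ d ∈ Submodule.span NNReal (S : Set (N1 Y)), Pull g d e} ∧
      ∀ g, IsAut Y g → (¬ ∀ d : N1 Y, Pull g d d) →
        interior (Submodule.span NNReal (S : Set (N1 Y)) : Set (N1 Y)) ∩
          interior {e | ∃ d ∈ Submodule.span NNReal (S : Set (N1 Y)), Pull g d e} = ∅ := by
  classical
  obtain ⟨S, hS, hc, hi⟩ := Γ.main
  rw [h1] at hi
  have hSN : ∀ d ∈ S, d ∈ classes Y := fun d hd => h1 ▸ (hS d hd)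
  let S' : Finset (N1 Y) := S.subtype (· ∈ N1 Y)
  have hS' : Subtype.val '' (S' : Set (N1 Y)) = (S : Set (Curve Y → ℝ)) := by
    ext d
    constructor
    · rintro ⟨e, he, rfl⟩
      exact Finset.mem_coe.2 (Finset.mem_subtype.1 (Finset.mem_coe.1 he))
    · intro hd
      exact ⟨⟨d, Submodule.subset_span (hSN d hd)⟩,
        Finset.mem_coe.2 (Finset.mem_subtype.2 (Finset.mem_coe.1 hd)), rfl⟩
  have hsp : ∀ d, d ∈ Submodule.span NNReal (S : Set (Curve Y → ℝ)) ↔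
      ∃ e ∈ Submodule.span NNReal (S' : Set (N1 Y)), e.1 = d := fun d => by
    rw [← hS']; exact Final_aux_span _ _ _
  have hcone : ∀ d : N1 Y, d ∈ nefEff Y ↔ d.1 ∈ Γ.cone := fun d => by
    rw [Geo.cone, Submodule.mem_inf, h2]
    exact and_comm
  refine ⟨S', fun d hd => hSN _ (Finset.mem_subtype.1 hd), ?_, fun g hg hne => ?_⟩
  · ext e
    rw [hcone, hc, h3]
    simp only [Set.mem_iUnion, Set.mem_ofPred_eq]
    constructor
    · rintro ⟨π, ⟨g, hg, hπ⟩, d, hd, he⟩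
      obtain ⟨d', hd', rfl⟩ := (hsp d).1 hd
      exact ⟨g, hg, d', hd', (pull_iff hπ _ _).2 he⟩
    · rintro ⟨g, hg, d, hd, he⟩
      obtain ⟨π, hπ⟩ := hg.exists_perm
      exact ⟨π, ⟨g, hg, hπ⟩, d.1, (hsp _).2 ⟨d, hd, rfl⟩, (pull_iff hπ _ _).1 he⟩
  · obtain ⟨π, hπ⟩ := hg.exists_perm
    have hG : π ∈ Γ.G := by rw [h3]; exact ⟨g, hg, hπ⟩
    have hmove : ∃ d ∈ Submodule.span ℝ (classes Y), d ∘ π ≠ d := by
      by_contra hcon
      push Not at hcon
      exact hne fun d => (pull_iff hπ _ _).2 (hcon d.1 d.2).symm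
    refine Set.eq_empty_of_forall_notMem fun x hx => hi π hG hmove x.1 ?_ ?_
    · exact Final_aux_absorb _ _ _ (fun a ha => (hsp _).2 ⟨a, ha, rfl⟩) x hx.1
    · refine Final_aux_absorb _ _ _ ?_ x hx.2
      rintro a ⟨d, hd, he⟩
      exact ⟨d.1, (hsp _).2 ⟨d, hd, rfl⟩, (pull_iff hπ _ _).1 he⟩

theorem cfg_of (x y : Fin 3 → L) (σ : L ≃ₐ[ℂ] L) (hx : AlgebraicIndependent ℂ x)
    (hE : ∀ i, y i ^ 2 = x i ^ 3 + 1)
    (hL : IntermediateField.adjoin ℂ (Set.range x ∪ Set.range y) = ⊤)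
    (hσ : ∀ i, σ (x i) = Complex.exp (2 * Real.pi * Complex.I / 3) • x i ∧ σ (y i) = y i) :
    Cfg (fun i => pt (x i) (y i) (hE i)) σ where
  gen := ⟨fun _ => pt_ne_zero _ _ _, hx, hL⟩
  rot i := by
    rw [emap_pt, om_smul, rot_pt]
    exact pt_congr (((hσ i).1).trans (Algebra.smul_def _ _)) (hσ i).2

end Pool.Agent.MP_95da86_ag

end
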